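import Pool.Agent.Lib.MP_322c5f_al.MidPsi
import Pool.Agent.Lib.MP_322c5f_al.BSum

/-!
# MP_322c5f, part P (the middle range): definitions

* `eP F a t` : the polynomial `(1-2X)(1+2X)^F(1-4X²)^a(1-4X³)^t`;
* `psV I c F k r` : `2^k (SF_k - SF_{k-1})`;
* `psM τ F k r` : the same for a multiset of cycle lengths;
* `PosR k r` : positivity of the normalized character `r` on products `∏ (α_i + β_i ρ_i)`;
* `PhiC` : the bound of `-psM` for one class;
* `prt`, `par`, `WS` : partitions, parity, weighted sums over partitions;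
* `LevelW`, `PSIp`, `PSIb` : level weights and the final statements.
-/

set_option autoImplicit false

open Finset Polynomial Equiv

namespace Pool.MP322P

open Pool.MP322

/-- `(1-2X)(1+2X)^F(1-4X²)^a(1-4X³)^t`. -/
noncomputable def eP (F a t : ℕ) : ℤ[X] :=
  (1 - 2 * X) * (1 + 2 * X) ^ F * (1 - 4 * X ^ 2) ^ a * (1 - 4 * X ^ 3) ^ t

/-- coefficient of `eP`, zero for negative index (`j - s` with `s > j`). -/
noncomputable def eC (F a t j s : ℕ) : ℤ := if s ≤ j then (eP F a t).coeff (j - s) else 0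

/-- the scaled difference of two sums over invariant sets. -/
noncomputable def psV {ι : Type*} (I : Finset ι) (c : ι → ℕ) (F k : ℕ)
    (r : Multiset ℕ → ℝ) : ℝ :=
  ∑ S ∈ I.powerset, (2 : ℝ) ^ (∑ i ∈ S, c i) * (eC F 0 0 k (∑ i ∈ S, c i) : ℝ) * r (S.val.map c)

/-- the same, for a multiset of cycle lengths. -/
noncomputable def psM (τ : Multiset ℕ) (F k : ℕ) (r : Multiset ℕ → ℝ) : ℝ :=
  (τ.powerset.map (fun σ => (2 : ℝ) ^ σ.sum * (eC F 0 0 k σ.sum : ℝ) * r σ)).sum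

/-- positivity. -/
def PosR (k : ℕ) (r : Multiset ℕ → ℝ) : Prop :=
  r 0 = 1 ∧ ∀ (ι : Type) [DecidableEq ι] (I : Finset ι) (c : ι → ℕ) (α β : ι → ℝ),
    (∀ i ∈ I, 2 ≤ c i) → (∑ i ∈ I, c i) ≤ k →
    (∀ i ∈ I, |β i| ≤ α i ∨ (c i = 3 ∧ 0 ≤ β i ∧ β i ≤ 2 * α i)) →
    0 ≤ ∑ S ∈ I.powerset, (∏ i ∈ S, β i) * (∏ i ∈ I \ S, α i) * r (S.val.map c)

/-- `∏_{c ∈ ρ} (1 + (2X)^c)`. -/
noncomputable def wP (ρ : Multiset ℕ) : ℤ[X] :=
  (ρ.map (fun c => 1 + (2 * X : ℤ[X]) ^ c)).prod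

/-- the zero criterion. -/
def Crit (F a t y k : ℕ) : Prop :=
  ∀ j, 1 ≤ j → j ≤ k → 2000 * (eP F a t).coeff (j - 1) ≤ (y : ℤ) * (eP F a t).coeff j

/-- the value of one pair `(b,d)`. -/
noncomputable def lamC (ρ : Multiset ℕ) (F a t j : ℕ) : ℤ :=
  ∑ i ∈ range (j + 1), (wP ρ).coeff i * |(eP F a t).coeff (j - i)| -
    max 0 ((eP F a t).coeff j)

open Classical in
/-- the bound for the class with `a` cycles of length 2, `t` cycles of length 3, other cycles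
(of length `≥ 4`) `ρ` and `F` fixed points. -/
noncomputable def PhiC (yl : ℕ → ℕ) (a t : ℕ) (ρ : Multiset ℕ) (F k : ℕ) : ℤ :=
  ∑ b ∈ range (a + 1), ∑ d ∈ range (t + 1),
    if 2 * b + 3 * d ≤ k ∧ ¬ Crit F (a - b) (t - d) (yl (ρ.sum + 2 * b + 3 * d)) k then
      (a.choose b : ℤ) * 8 ^ b * ((t.choose d : ℤ) * 12 ^ d) *
        lamC ρ F (a - b) (t - d) (k - (2 * b + 3 * d))
    else 0

/-- admissible `y`-values. -/
def YOK (yl : ℕ → ℕ) (L : ℕ) : Prop := ∀ m ≤ L, yl m ≤ 1000 ∧ m * yl m ^ 4 ≤ 4 * 1000 ^ 4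

/-- number of fixed points of type, etc. -/
noncomputable def rho (τ : Multiset ℕ) : Multiset ℕ := τ.filter (fun c => 4 ≤ c)

/-- `PhiC` of a cycle type. -/
noncomputable def PhiT (yl : ℕ → ℕ) (L : ℕ) (τ : Multiset ℕ) (k : ℕ) : ℤ :=
  PhiC yl (τ.count 2) (τ.count 3) (rho τ) (L - τ.sum) k

/-- parity of the type (`true` : odd). -/
def par (τ : Multiset ℕ) : Bool := decide ((τ.map (fun c => c - 1)).sum % 2 = 1)

/-- partitions of `r` with all parts in `[lo, N]`. -/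
noncomputable def prt (lo N r : ℕ) : Finset (Multiset ℕ) :=
  ((Finset.univ : Finset (Nat.Partition r)).image (fun p => p.parts)).filter
    (fun τ => ∀ c ∈ τ, lo ≤ c ∧ c ≤ N)

/-- weighted sum over the partitions of `r` with parts in `[lo, N]` and parity `p`. -/
noncomputable def WS {R : Type*} [CommSemiring R] (lo N r : ℕ) (p : Bool) (f : ℕ → R) : R :=
  ∑ τ ∈ (prt lo N r).filter (fun τ => par τ = p), (τ.map f).prod

/-- the even types with `m` moved points. -/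
noncomputable def evs (m : ℕ) : Finset (Multiset ℕ) := (prt 2 m m).filter (fun τ => par τ = false)

/-- number of invariant sets with `J` points plus number with `J-1` points (type `τ` in `S_n`). -/
noncomputable def NA (n : ℕ) (τ : Multiset ℕ) (J : ℕ) : ℕ :=
  ((1 + X : ℕ[X]) ^ (n - τ.sum + 1) * (τ.map (fun c => 1 + (X : ℕ[X]) ^ c)).prod).coeff J

/-- `w` bounds all the classes of level `L` (`τ` with at most `L` moved points). -/
def LevelW (L : ℕ) (P : Multiset ℕ → Prop) (w : Multiset ℕ → ℕ → ℝ) : Prop :=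
  ∀ τ : Multiset ℕ, (∀ c ∈ τ, 2 ≤ c) → τ.sum ≤ L → P τ → ∀ (J : ℕ) (r : Multiset ℕ → ℝ),
    PosR J r → -(psM τ (L - τ.sum) J r) ≤ 2 ^ J * w τ J

/-- `C(n,k) - C(n,k-1)`, for `k ≥ 1`. -/
noncomputable def Del (n k : ℕ) : ℝ := (n.choose k : ℝ) - (n.choose (k - 1) : ℝ)

/-- the classes with more than `A` and at most `B` moved points contribute at most `x`, for the
depths `K ≤ k < k0`. -/
def PSIp (n K k0 A B : ℕ) (x : ℝ) : Prop :=
  ∃ Phi : Multiset ℕ → ℝ, (∀ τ, 0 ≤ Phi τ) ∧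
    (∀ (k : ℕ) (nu : Y (k + 1)) (g : Perm (Fin n)), K ≤ k + 1 → k + 1 < k0 → Perm.sign g = 1 →
      g ≠ 1 → A < g.cycleType.sum → g.cycleType.sum ≤ B →
      -(Psi nu g) ≤ Phi g.cycleType * (Del n (k + 1) * fd nu)) ∧
    ∑ τ ∈ (typesE n).filter (fun τ => A < τ.sum ∧ τ.sum ≤ B), Phi τ ≤ x

end Pool.MP322P
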