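import Pool.Agent.Lib.MP_322c5f_alP.PA00

/-! job 322P-A1: `psV` and `psM`; the class function `Psi` in terms of `psM`.

(`psM` for the cycle type of `g` is `psV` over the Finset of cycles; for `Psi_psM` use
`Pool.MP322.midPsi_SF` and `SF`, `bF` (MidDefs): the coefficient of `X^k` in
`(1-2X)(1+2X)^F (2X)^s` is `2^k (bF F k s - bF F (k-1) s)`; `eC F 0 0 k s * 2^s`.) -/

set_option autoImplicit false

open Finset Polynomial Equiv

namespace Pool.MP322P

open Pool.MP322

private theorem sum_powerset_map {ι : Type*} (I : Finset ι) (c : ι → ℕ) (g : Multiset ℕ → ℝ) :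
    ∑ S ∈ I.powerset, g (S.val.map c) = ((I.val.map c).powerset.map g).sum := by
  classical
  induction I using Finset.induction_on generalizing g with
  | empty =>
    rw [Finset.powerset_empty, Finset.sum_singleton, Finset.empty_val, Multiset.map_zero,
      Multiset.powerset_zero, Multiset.map_singleton, Multiset.sum_singleton]
  | insert a I ha ih =>
    rw [Finset.sum_powerset_insert ha, Finset.insert_val_of_notMem ha, Multiset.map_cons,
      Multiset.powerset_cons, Multiset.map_add, Multiset.sum_add, ih, Multiset.map_map,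
      ← ih (g ∘ Multiset.cons (c a))]
    congr 1
    refine Finset.sum_congr rfl fun S hS => ?_
    have h1 : a ∉ S := fun h => ha (Finset.mem_powerset.1 hS h)
    rw [Finset.insert_val_of_notMem h1, Multiset.map_cons]
    rfl

theorem psV_eq_psM {ι : Type*} (I : Finset ι) (c : ι → ℕ) (F k : ℕ) (r : Multiset ℕ → ℝ) :
    psV I c F k r = psM (I.val.map c) F k r :=
  sum_powerset_map I c (fun σ => (2 : ℝ) ^ σ.sum * (eC F 0 0 k σ.sum : ℝ) * r σ)

/-- every multiset is the multiset of the values of a function on a `Finset` of a type in `Type`. -/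
theorem exists_finset_map (τ : Multiset ℕ) : ∃ (m : ℕ) (c : Fin m → ℕ),
    (Finset.univ : Finset (Fin m)).val.map c = τ := by
  refine ⟨τ.toList.length, τ.toList.get, ?_⟩
  rw [Fin.univ_val_map, List.ofFn_get, Multiset.coe_toList]

private theorem two_pow_eC (F k s : ℕ) :
    (2 : ℝ) ^ s * (eC F 0 0 (k + 1) s : ℝ) = 2 ^ (k + 1) * (bF F (k + 1) s - bF F k s) := by
  have h0 : eP F 0 0 = (1 - 2 * X) * (1 + 2 * X) ^ F := by
    unfold eP
    simp
  have hc : ∀ j, ((1 + 2 * X : ℤ[X]) ^ F).coeff j = 2 ^ j * (F.choose j : ℤ) := by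
    intro j
    have h1 : (1 + 2 * X : ℤ[X]) ^ F = ((1 + X : ℤ[X]) ^ F).comp (C 2 * X) := by
      simp
    rw [h1, Polynomial.comp_C_mul_X_coeff, Polynomial.coeff_one_add_X_pow]
    ring
  have h2 : eP F 0 0 = (1 + 2 * X) ^ F - C 2 * ((1 + 2 * X) ^ F * X) := by
    rw [h0]
    simp only [map_ofNat]
    ring
  unfold eC bF
  rcases Nat.lt_or_ge (k + 1) s with h | h
  · rw [if_neg (by omega), if_neg (by omega), if_neg (by omega)]
    simp
  · rw [if_pos h, if_pos h]
    obtain ⟨i, hi⟩ : ∃ i, k + 1 - s = i := ⟨_, rfl⟩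
    have hk : k + 1 = s + i := by omega
    rw [hi, h2]
    cases i with
    | zero =>
      rw [if_neg (by omega), hk]
      simp [hc]
    | succ i =>
      have h3 : k - s = i := by omega
      rw [if_pos (by omega), h3, Polynomial.coeff_sub, Polynomial.coeff_C_mul,
        Polynomial.coeff_mul_X, hc, hc, hk]
      push_cast
      rw [pow_add, pow_succ]
      ring

theorem psV_eq_SF {ι : Type*} (I : Finset ι) (c : ι → ℕ) (F k : ℕ) (r : Multiset ℕ → ℝ) :
    psV I c F (k + 1) r = 2 ^ (k + 1) * (SF I c F (k + 1) r - SF I c F k r) := by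
  unfold psV SF
  rw [← Finset.sum_sub_distrib, Finset.mul_sum]
  refine Finset.sum_congr rfl fun S _ => ?_
  rw [two_pow_eC]
  ring

theorem Psi_psM {n k : ℕ} (nu : Y (k + 1)) (g : Perm (Fin n)) :
    Psi nu g = fd nu * psM g.cycleType (n - g.cycleType.sum) (k + 1)
      (fun τ => ty nu τ / fd nu) / 2 ^ (k + 1) := by
  have hfd := (fd_pos nu).ne'
  have h1 : g.cycleType = g.cycleFactorsFinset.val.map (fun c => c.support.card) := by
    rw [Perm.cycleType_def]
    rfl
  have h2 : g.cycleType.sum = g.support.card := Perm.sum_cycleType g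
  have h3 : ∀ j, ∑ T ∈ invSets g j, ty nu (resT g T).cycleType =
      fd nu * SF g.cycleFactorsFinset (fun c => c.support.card)
        (n - g.support.card) j (fun τ => ty nu τ / fd nu) := by
    intro j
    rw [sum_invSets g j (ty nu)]
    unfold SF bF
    rw [Finset.mul_sum]
    refine Finset.sum_congr rfl fun C _ => ?_
    field_simp
  rw [h2, h1, ← psV_eq_psM, psV_eq_SF]
  unfold Psi
  rw [h3, h3]
  field_simp

end Pool.MP322P
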