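import Mathlib

/-! job 322P-A2a: disjoint cycles with prescribed lengths (for example
`Perm.exists_with_cycleType_iff` for the multiset `I.val.map c`, then match the cycles of `σ` with
`I`; or induction on `I`). -/

set_option autoImplicit false

open Finset Equiv

namespace Pool.MP322P

private theorem exists_cycle_on {k : ℕ} (A : Finset (Fin k)) (hA : 2 ≤ A.card) :
    ∃ f : Perm (Fin k), f.IsCycle ∧ f.support = A := by
  obtain ⟨f, hf, hs⟩ := Finset.exists_cycleOn A
  have hnt : (A : Set (Fin k)).Nontrivial := Finset.one_lt_card_iff_nontrivial.mp (by omega)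
  have hsup : f.support = A := by
    apply le_antisymm hs
    intro a ha
    rw [Perm.mem_support]
    exact hf.apply_ne hnt (by exact_mod_cast ha)
  refine ⟨f, ?_, hsup⟩
  rw [Perm.isCycle_iff_exists_isCycleOn]
  refine ⟨(A : Set (Fin k)), hnt, hf, ?_⟩
  intro x hx
  by_contra hxA
  apply hx
  have : x ∉ f.support := by
    rw [hsup]
    exact_mod_cast hxA
  exact Perm.notMem_support.mp this

private theorem exists_cycles_aux {ι : Type} [DecidableEq ι] (k : ℕ) (c : ι → ℕ) (I : Finset ι) :
    (∀ i ∈ I, 2 ≤ c i) → ∀ T : Finset (Fin k), ∑ i ∈ I, c i ≤ T.card →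
    ∃ γ : ι → Perm (Fin k), (∀ i ∈ I, (γ i).IsCycle ∧ (γ i).support.card = c i ∧
      (γ i).support ⊆ T) ∧
      ∀ i ∈ I, ∀ j ∈ I, i ≠ j → (γ i).Disjoint (γ j) := by
  induction I using Finset.induction_on with
  | empty =>
    intro _ T _
    exact ⟨fun _ => 1, by simp, by simp⟩
  | insert i I hi ih =>
    intro hc T hT
    rw [Finset.sum_insert hi] at hT
    obtain ⟨A, hAT, hAc⟩ := Finset.exists_subset_card_eq (s := T) (n := c i) (by omega)
    have hci : 2 ≤ c i := hc i (Finset.mem_insert_self i I)
    obtain ⟨f, hf, hfs⟩ := exists_cycle_on A (by omega)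
    obtain ⟨γ, hγ, hd⟩ := ih (fun j hj => hc j (Finset.mem_insert_of_mem hj)) (T \ A) (by
      rw [Finset.card_sdiff_of_subset hAT]
      omega)
    refine ⟨fun j => if j = i then f else γ j, ?_, ?_⟩
    · intro j hj
      by_cases hji : j = i
      · subst hji
        simp only [if_true]
        exact ⟨hf, by rw [hfs, hAc], by rw [hfs]; exact hAT⟩
      · have hjI : j ∈ I := by
          rcases Finset.mem_insert.mp hj with h | h
          · exact absurd h hji
          · exact h
        simp only [if_neg hji]
        obtain ⟨h1, h2, h3⟩ := hγ j hjI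
        exact ⟨h1, h2, h3.trans Finset.sdiff_subset⟩
    · have key : ∀ j ∈ I, f.Disjoint (γ j) := by
        intro j hj
        rw [Perm.disjoint_iff_disjoint_support, hfs]
        exact (Finset.sdiff_disjoint.mono_left (hγ j hj).2.2).symm
      intro a ha b hb hab
      by_cases hai : a = i
      · have hbi : b ≠ i := fun h => hab (hai.trans h.symm)
        have hbI : b ∈ I := by
          rcases Finset.mem_insert.mp hb with h | h
          · exact absurd h hbi
          · exact h
        simp only [if_pos hai, if_neg hbi]
        exact key b hbI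
      · have haI : a ∈ I := by
          rcases Finset.mem_insert.mp ha with h | h
          · exact absurd h hai
          · exact h
        by_cases hbi : b = i
        · simp only [if_neg hai, if_pos hbi]
          exact (key a haI).symm
        · have hbI : b ∈ I := by
            rcases Finset.mem_insert.mp hb with h | h
            · exact absurd h hbi
            · exact h
          simp only [if_neg hai, if_neg hbi]
          exact hd a haI b hbI hab

/-- disjoint cycles with prescribed lengths. -/
theorem exists_cycles {ι : Type} [DecidableEq ι] (k : ℕ) (I : Finset ι) (c : ι → ℕ)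
    (hc : ∀ i ∈ I, 2 ≤ c i) (hs : ∑ i ∈ I, c i ≤ k) :
    ∃ γ : ι → Perm (Fin k), (∀ i ∈ I, (γ i).IsCycle ∧ (γ i).support.card = c i) ∧
      ∀ i ∈ I, ∀ j ∈ I, i ≠ j → (γ i).Disjoint (γ j) := by
  obtain ⟨γ, hγ, hd⟩ := exists_cycles_aux k c I hc Finset.univ (by simpa using hs)
  exact ⟨γ, fun i hi => ⟨(hγ i hi).1, (hγ i hi).2.1⟩, hd⟩

end Pool.MP322P
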