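import Pool.Agent.Lib.MP_322c5f_alP.PA00
import Pool.Agent.Lib.MP_322c5f_alP.PA02a

/-! job 322P-A2: positivity of the normalized characters (`PosR_ty`), main representation
theoretic input.

Idea: choose pairwise disjoint cycles `γ_i` (`i ∈ I`) in `Perm (Fin k)` of lengths `c i`
(`exists_cycles` in PA02a). Let `V = irr nu`
(`OIrr`), `ρ_i = (V.ρ γ_i + V.ρ γ_i⁻¹) / 2`. Because a product of `γ_i^{±1}` over `i ∈ S` has cycle
type `S.val.map c`, the sum in `PosR` is `(1/dim) trace ∏_{i∈I} (α_i + β_i ρ_i)`.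
Each factor is a nonnegative combination of squares: `1 ± ρ_i = ½ (1 ± γ_i)(1 ± γ_i)ᵀ` and, for a
3-cycle, `½ + ρ_i = (1/6) (1+γ_i+γ_i²)(1+γ_i+γ_i²)ᵀ`; and
`α + βρ = (α-|β|) + |β| (1 ± ρ)`, resp. `α + βρ = (α - β/2) + β (½ + ρ)` for `0 ≤ β ≤ 2α`.
All the matrices `V.ρ γ_i^e` commute, so the product over `i` of squares `X_i X_iᵀ` is
`(∏ X_i)(∏ X_i)ᵀ`, which has trace `≥ 0`.
(Alternatively: `σ ↦ V.r σ` is a positive definite function on the abelian group generated by the
`γ_i`.) -/

set_option autoImplicit false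

open Finset Polynomial Equiv

namespace Pool.MP322P

open Pool.MP322

private theorem PosR_decomp {k : ℕ} (V : OIrr k) (g : Perm (Fin k)) (α β : ℝ)
    (h : |β| ≤ α ∨ (g ^ 3 = 1 ∧ 0 ≤ β ∧ β ≤ 2 * α)) :
    ∃ (p q : ℝ) (Z : Matrix V.ι V.ι ℝ), 0 ≤ p ∧ 0 ≤ q ∧
      (∀ X : Matrix V.ι V.ι ℝ, Commute X (V.ρ g) → Commute X Z) ∧
      α • (1 : Matrix V.ι V.ι ℝ) + (β / 2) • (V.ρ g + V.ρ g⁻¹) =
        p • (1 : Matrix V.ι V.ι ℝ) + q • (Z * Z.transpose) := by
  have h1 : V.ρ g * V.ρ g⁻¹ = 1 := by rw [← map_mul, mul_inv_cancel, map_one]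
  have h2 : V.ρ g⁻¹ * V.ρ g = 1 := by rw [← map_mul, inv_mul_cancel, map_one]
  have ht : (V.ρ g).transpose = V.ρ g⁻¹ := V.orth g
  rcases h with h | ⟨h3, hb, hb2⟩
  · rcases le_or_gt 0 β with hβ | hβ
    · rw [abs_of_nonneg hβ] at h
      refine ⟨α - β, β / 2, 1 + V.ρ g, by linarith, by linarith, ?_, ?_⟩
      · intro X hX
        exact (Commute.one_right X).add_right hX
      · rw [Matrix.transpose_add, Matrix.transpose_one, ht, add_mul, mul_add, mul_add, h1,
          one_mul, one_mul, mul_one]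
        module
    · rw [abs_of_neg hβ] at h
      refine ⟨α + β, -β / 2, 1 - V.ρ g, by linarith, by linarith, ?_, ?_⟩
      · intro X hX
        exact (Commute.one_right X).sub_right hX
      · rw [Matrix.transpose_sub, Matrix.transpose_one, ht, sub_mul, mul_sub, mul_sub, h1,
          one_mul, one_mul, mul_one]
        module
  · have hg2 : V.ρ g * V.ρ g = V.ρ g⁻¹ := by
      rw [← map_mul]
      congr 1
      rw [eq_inv_iff_mul_eq_one, ← h3, pow_succ, pow_two]
    have hg3 : V.ρ g⁻¹ * V.ρ g⁻¹ = V.ρ g := by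
      calc V.ρ g⁻¹ * V.ρ g⁻¹ = V.ρ g⁻¹ * (V.ρ g * V.ρ g) := by rw [hg2]
        _ = V.ρ g := by rw [← mul_assoc, h2, one_mul]
    have ht2 : (V.ρ g⁻¹).transpose = V.ρ g := by
      rw [V.orth, inv_inv]
    refine ⟨α - β / 2, β / 6, 1 + V.ρ g + V.ρ g⁻¹, by linarith, by linarith, ?_, ?_⟩
    · intro X hX
      refine ((Commute.one_right X).add_right hX).add_right ?_
      rw [← hg2]
      exact hX.mul_right hX
    · rw [Matrix.transpose_add, Matrix.transpose_add, Matrix.transpose_one, ht, ht2]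
      simp only [add_mul, mul_add, h1, h2, hg2, hg3, one_mul, mul_one]
      module

private theorem PosR_key {k : ℕ} (V : OIrr k) {ι : Type} [DecidableEq ι]
    (γ : ι → Perm (Fin k)) (c : ι → ℕ) (α β : ι → ℝ) (t : Multiset ℕ → ℝ)
    (ht : ∀ π : Perm (Fin k), V.r π = t π.cycleType) (I : Finset ι)
    (hcyc : ∀ i ∈ I, (γ i).IsCycle ∧ (γ i).support.card = c i)
    (hdis : ∀ i ∈ I, ∀ j ∈ I, i ≠ j → (γ i).Disjoint (γ j))
    (hab : ∀ i ∈ I, |β i| ≤ α i ∨ ((γ i) ^ 3 = 1 ∧ 0 ≤ β i ∧ β i ≤ 2 * α i)) :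
    ∃ Y : Matrix V.ι V.ι ℝ,
      (∀ X : Matrix V.ι V.ι ℝ, (∀ i ∈ I, Commute X (V.ρ (γ i))) → Commute X Y) ∧
      (∀ X : Matrix V.ι V.ι ℝ, (∀ i ∈ I, Commute X (V.ρ (γ i))) →
        0 ≤ (X * Y * X.transpose).trace) ∧
      (∀ π : Perm (Fin k), (∀ i ∈ I, (γ i).Disjoint π) →
        (Y * V.ρ π).trace / V.dim =
          ∑ S ∈ I.powerset, (∏ i ∈ S, β i) * (∏ i ∈ I \ S, α i) *
            t (S.val.map c + π.cycleType)) := by
  induction I using Finset.induction_on with
  | empty =>
    refine ⟨1, ?_, ?_, ?_⟩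
    · intro X _
      exact Commute.one_right X
    · intro X _
      rw [mul_one]
      have := (Matrix.posSemidef_self_mul_conjTranspose X).trace_nonneg
      rwa [Matrix.conjTranspose_eq_transpose_of_trivial] at this
    · intro π _
      rw [one_mul]
      have := ht π
      unfold OIrr.r at this
      rw [this]
      simp
  | insert a I ha ih =>
    obtain ⟨Y, hY1, hY2, hY3⟩ := ih (fun i hi => hcyc i (mem_insert_of_mem hi))
      (fun i hi j hj hij => hdis i (mem_insert_of_mem hi) j (mem_insert_of_mem hj) hij)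
      (fun i hi => hab i (mem_insert_of_mem hi))
    obtain ⟨p, q, Z, hp, hq, hZ, hB⟩ := PosR_decomp V (γ a) (α a) (β a)
      (hab a (mem_insert_self a I))
    have hda : ∀ i ∈ I, (γ i).Disjoint (γ a) := by
      intro i hi
      refine hdis i (mem_insert_of_mem hi) a (mem_insert_self a I) ?_
      rintro rfl
      exact ha hi
    have hcom : ∀ i ∈ I, Commute (V.ρ (γ a)) (V.ρ (γ i)) := by
      intro i hi
      exact ((hda i hi).commute.symm).map V.ρ
    have hZc : ∀ i ∈ I, Commute Z (V.ρ (γ i)) := by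
      intro i hi
      exact (hZ _ (hcom i hi).symm).symm
    have hZY : Commute Z Y := hY1 Z hZc
    refine ⟨Y * (α a • (1 : Matrix V.ι V.ι ℝ) + (β a / 2) • (V.ρ (γ a) + V.ρ (γ a)⁻¹)),
      ?_, ?_, ?_⟩
    · intro X hX
      have hXa := hX a (mem_insert_self a I)
      have hXY : Commute X Y := hY1 X (fun i hi => hX i (mem_insert_of_mem hi))
      refine hXY.mul_right ?_
      refine ((Commute.one_right X).smul_right _).add_right ?_
      refine (hXa.add_right ?_).smul_right _
      have h1 : V.ρ (γ a) * V.ρ (γ a)⁻¹ = 1 := by rw [← map_mul, mul_inv_cancel, map_one]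
      have h2 : V.ρ (γ a)⁻¹ * V.ρ (γ a) = 1 := by rw [← map_mul, inv_mul_cancel, map_one]
      unfold Commute SemiconjBy
      calc X * V.ρ (γ a)⁻¹ = (V.ρ (γ a)⁻¹ * V.ρ (γ a)) * X * V.ρ (γ a)⁻¹ := by
            rw [h2, one_mul]
        _ = V.ρ (γ a)⁻¹ * (V.ρ (γ a) * X) * V.ρ (γ a)⁻¹ := by rw [mul_assoc (V.ρ (γ a)⁻¹)]
        _ = V.ρ (γ a)⁻¹ * (X * V.ρ (γ a)) * V.ρ (γ a)⁻¹ := by rw [hXa.eq]
        _ = V.ρ (γ a)⁻¹ * X * (V.ρ (γ a) * V.ρ (γ a)⁻¹) := by simp only [mul_assoc]
        _ = V.ρ (γ a)⁻¹ * X := by rw [h1, mul_one]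
    · intro X hX
      have hXI : ∀ i ∈ I, Commute X (V.ρ (γ i)) := fun i hi => hX i (mem_insert_of_mem hi)
      rw [hB]
      have h1 := hY2 X hXI
      have h2 := hY2 (X * Z) (fun i hi => (hXI i hi).mul_left (hZc i hi))
      have h3 : X * (Y * (p • (1 : Matrix V.ι V.ι ℝ) + q • (Z * Z.transpose))) * X.transpose =
          p • (X * Y * X.transpose) + q • ((X * Z) * Y * (X * Z).transpose) := by
        rw [Matrix.transpose_mul, mul_add, mul_smul_comm, mul_smul_comm, mul_one, mul_add,
          mul_smul_comm, mul_smul_comm, add_mul, smul_mul_assoc, smul_mul_assoc]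
        congr 2
        calc X * (Y * (Z * Z.transpose)) * X.transpose
            = X * ((Y * Z) * Z.transpose) * X.transpose := by rw [mul_assoc Y]
          _ = X * ((Z * Y) * Z.transpose) * X.transpose := by rw [hZY.eq]
          _ = X * Z * Y * (Z.transpose * X.transpose) := by simp only [mul_assoc]
      rw [h3, Matrix.trace_add, Matrix.trace_smul, Matrix.trace_smul, smul_eq_mul, smul_eq_mul]
      positivity
    · intro π hπ
      have hπI : ∀ i ∈ I, (γ i).Disjoint π := fun i hi => hπ i (mem_insert_of_mem hi)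
      have hπa : (γ a).Disjoint π := hπ a (mem_insert_self a I)
      have e1 := hY3 π hπI
      have e2 := hY3 (γ a * π) (fun i hi => Equiv.Perm.Disjoint.mul_right (hda i hi) (hπI i hi))
      have e3 := hY3 ((γ a)⁻¹ * π)
        (fun i hi => Equiv.Perm.Disjoint.mul_right ((hda i hi).inv_right) (hπI i hi))
      have c1 : (γ a).cycleType = {c a} := by
        rw [(hcyc a (mem_insert_self a I)).1.cycleType, (hcyc a (mem_insert_self a I)).2]
      have c2 : (γ a * π).cycleType = {c a} + π.cycleType := by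
        rw [hπa.cycleType_mul, c1]
      have c3 : ((γ a)⁻¹ * π).cycleType = {c a} + π.cycleType := by
        rw [(hπa.inv_left).cycleType_mul, Equiv.Perm.cycleType_inv, c1]
      rw [c2] at e2
      rw [c3] at e3
      have e4 : (Y * (α a • (1 : Matrix V.ι V.ι ℝ) + (β a / 2) • (V.ρ (γ a) + V.ρ (γ a)⁻¹)) *
          V.ρ π).trace / V.dim = α a * ((Y * V.ρ π).trace / V.dim) +
          (β a / 2) * ((Y * V.ρ (γ a * π)).trace / V.dim +
            (Y * V.ρ ((γ a)⁻¹ * π)).trace / V.dim) := by
        rw [map_mul, map_mul, mul_add, mul_smul_comm, mul_smul_comm, mul_one, mul_add, add_mul,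
          smul_mul_assoc, smul_mul_assoc, add_mul, Matrix.trace_add, Matrix.trace_smul,
          Matrix.trace_smul, Matrix.trace_add, mul_assoc Y, mul_assoc Y, smul_eq_mul, smul_eq_mul]
        ring
      rw [e4, e1, e2, e3, Finset.sum_powerset_insert ha, Finset.mul_sum]
      congr 1
      · apply Finset.sum_congr rfl
        intro S hS
        have hSI := Finset.mem_powerset.1 hS
        have haS : a ∉ S := fun h => ha (hSI h)
        rw [Finset.insert_sdiff_of_notMem _ haS, Finset.prod_insert]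
        · ring
        · intro h
          exact ha (Finset.mem_sdiff.1 h).1
      · rw [← two_mul, ← mul_assoc, div_mul_cancel₀ _ (two_ne_zero), Finset.mul_sum]
        apply Finset.sum_congr rfl
        intro S hS
        have hSI := Finset.mem_powerset.1 hS
        have haS : a ∉ S := fun h => ha (hSI h)
        have h5 : (insert a I) \ (insert a S) = I \ S := by
          ext x
          simp only [Finset.mem_sdiff, Finset.mem_insert]
          constructor
          · rintro ⟨h | h, h'⟩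
            · exact absurd (Or.inl h) h'
            · exact ⟨h, fun h'' => h' (Or.inr h'')⟩
          · rintro ⟨h, h'⟩
            refine ⟨Or.inr h, ?_⟩
            rintro (h'' | h'')
            · subst h''
              exact ha h
            · exact h' h''
        rw [h5, Finset.prod_insert haS, Finset.insert_val_of_notMem haS, Multiset.map_cons]
        have h6 : c a ::ₘ Multiset.map c S.val + π.cycleType =
            Multiset.map c S.val + ({c a} + π.cycleType) := by
          rw [← Multiset.singleton_add]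
          abel
        rw [h6]
        ring

theorem PosR_ty {k : ℕ} (nu : Y k) : PosR k (fun τ => ty nu τ / fd nu) := by
  have ht : ∀ π : Perm (Fin k), (irr nu).r π = (fun τ => ty nu τ / fd nu) π.cycleType := by
    intro π
    rw [irr_r, ← ty_cycleType]
  refine ⟨?_, ?_⟩
  · simp only [ty_zero]
    exact div_self (fd_pos nu).ne'
  · intro ι _ I c α β hc hs hab
    obtain ⟨γ, h1, h2⟩ := exists_cycles k I c hc hs
    obtain ⟨Y, hY1, hY2, hY3⟩ := PosR_key (irr nu) γ c α β (fun τ => ty nu τ / fd nu) ht I h1 h2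
      (by
        intro i hi
        rcases hab i hi with h | ⟨h3, h4, h5⟩
        · exact Or.inl h
        · right
          refine ⟨?_, h4, h5⟩
          rw [← h3, ← (h1 i hi).2, ← (h1 i hi).1.orderOf]
          exact pow_orderOf_eq_one _)
    have h4 := hY2 1 (fun i _ => Commute.one_left _)
    rw [one_mul, Matrix.transpose_one] at h4
    have h5 := hY3 1 (fun i _ => Equiv.Perm.disjoint_one_right _)
    rw [map_one, Equiv.Perm.cycleType_one] at h5
    simp only [add_zero] at h5
    rw [← h5]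
    exact div_nonneg h4 (irr nu).dim_pos.le

end Pool.MP322P
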