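import Pool.Agent.Lib.MP_322c5f_alP.PA00

/-! job 322P-C1: partitions with parts in `[lo, N]` and weighted sums over them. -/

set_option autoImplicit false

open Finset Polynomial Equiv

namespace Pool.MP322P

open Pool.MP322

theorem mem_prt {lo N r : ℕ} (hlo : 1 ≤ lo) {τ : Multiset ℕ} :
    τ ∈ prt lo N r ↔ τ.sum = r ∧ ∀ c ∈ τ, lo ≤ c ∧ c ≤ N := by
  unfold prt
  rw [Finset.mem_filter, Finset.mem_image]
  constructor
  · rintro ⟨⟨p, -, rfl⟩, h⟩
    exact ⟨p.parts_sum, h⟩
  · rintro ⟨h1, h2⟩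
    refine ⟨⟨⟨τ, fun {i} hi => ?_, h1⟩, Finset.mem_univ _, rfl⟩, h2⟩
    have := (h2 i hi).1
    omega

theorem mem_evs {m : ℕ} {τ : Multiset ℕ} :
    τ ∈ evs m ↔ τ.sum = m ∧ (∀ c ∈ τ, 2 ≤ c) ∧ par τ = false := by
  unfold evs
  rw [Finset.mem_filter, mem_prt (by norm_num)]
  constructor
  · rintro ⟨⟨h1, h2⟩, h3⟩
    exact ⟨h1, fun c hc => (h2 c hc).1, h3⟩
  · rintro ⟨h1, h2, h3⟩
    exact ⟨⟨h1, fun c hc => ⟨h2 c hc, h1 ▸ Multiset.le_sum_of_mem hc⟩⟩, h3⟩

private theorem sum_sub_one (τ : Multiset ℕ) (h : ∀ c ∈ τ, 1 ≤ c) :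
    (τ.map (fun c => c - 1)).sum + Multiset.card τ = τ.sum := by
  induction τ using Multiset.induction_on with
  | empty => simp
  | cons a s ih =>
    have h1 := h a (Multiset.mem_cons_self a s)
    have h2 := ih (fun c hc => h c (Multiset.mem_cons_of_mem hc))
    rw [Multiset.map_cons, Multiset.sum_cons, Multiset.card_cons, Multiset.sum_cons]
    omega

/-- the types of the nontrivial even permutations. -/
theorem typesE_mem_evs {n : ℕ} {τ : Multiset ℕ} (h : τ ∈ typesE n) :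
    τ ∈ evs τ.sum ∧ 1 ≤ τ.sum ∧ τ.sum ≤ n := by
  obtain ⟨h1, h2, h3⟩ := bsum_mem h
  refine ⟨mem_evs.2 ⟨rfl, h1, ?_⟩, by omega, h3⟩
  classical
  unfold typesE at h
  obtain ⟨σ, hσ, rfl⟩ := Finset.mem_image.1 h
  rw [Finset.mem_filter] at hσ
  have hs := hσ.2.1
  rw [Perm.sign_of_cycleType] at hs
  have heven : Even (σ.cycleType.sum + Multiset.card σ.cycleType) := by
    by_contra hcon
    rw [Nat.not_even_iff_odd] at hcon
    rw [hcon.neg_one_pow] at hs
    exact absurd hs (by decide)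
  have h4 := sum_sub_one σ.cycleType (fun c hc => (h1 c hc).trans' (by norm_num))
  unfold par
  rw [decide_eq_false_iff_not]
  obtain ⟨k, hk⟩ := heven
  omega

theorem sum_typesE_le {n A B : ℕ} (f : Multiset ℕ → ℝ) (hf : ∀ τ, 0 ≤ f τ) :
    ∑ τ ∈ (typesE n).filter (fun τ => A < τ.sum ∧ τ.sum ≤ B), f τ ≤
      ∑ m ∈ Ioc A B, ∑ τ ∈ evs m, f τ := by
  classical
  rw [← Finset.sum_fiberwise_of_maps_to (s := (typesE n).filter (fun τ => A < τ.sum ∧ τ.sum ≤ B))
    (t := Ioc A B) (g := fun τ => τ.sum) (fun τ hτ => ?_)]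
  · refine Finset.sum_le_sum fun m hm => ?_
    refine Finset.sum_le_sum_of_subset_of_nonneg ?_ fun τ _ _ => hf τ
    intro τ hτ
    rw [Finset.mem_filter, Finset.mem_filter] at hτ
    have := (typesE_mem_evs hτ.1.1).1
    rw [hτ.2] at this
    exact this
  · rw [Finset.mem_filter] at hτ
    exact Finset.mem_Ioc.2 hτ.2

theorem WS_base {R : Type*} [CommSemiring R] {lo N r : ℕ} (hlo : 1 ≤ lo) (hN : N < lo) (p : Bool)
    (f : ℕ → R) : WS lo N r p f = if r = 0 ∧ p = false then 1 else 0 := by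
  have hmem : ∀ τ : Multiset ℕ, τ ∈ prt lo N r ↔ τ = 0 ∧ r = 0 := by
    intro τ
    rw [mem_prt hlo]
    constructor
    · rintro ⟨h1, h2⟩
      have h3 : τ = 0 := by
        apply Multiset.eq_zero_of_forall_notMem
        intro c hc
        have := h2 c hc
        omega
      rw [h3] at h1
      exact ⟨h3, by simpa using h1.symm⟩
    · rintro ⟨rfl, rfl⟩
      exact ⟨by simp, by simp⟩
  unfold WS
  split_ifs with h
  · obtain ⟨rfl, rfl⟩ := h
    have : (prt lo N 0).filter (fun τ => par τ = false) = {0} := by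
      ext τ
      rw [Finset.mem_filter, hmem, Finset.mem_singleton]
      constructor
      · rintro ⟨⟨h1, _⟩, _⟩
        exact h1
      · rintro rfl
        exact ⟨⟨rfl, rfl⟩, by simp [par]⟩
    rw [this, Finset.sum_singleton]
    simp
  · have : (prt lo N r).filter (fun τ => par τ = p) = ∅ := by
      apply Finset.eq_empty_of_forall_notMem
      intro τ hτ
      rw [Finset.mem_filter, hmem] at hτ
      obtain ⟨⟨rfl, h1⟩, h2⟩ := hτ
      apply h
      refine ⟨h1, ?_⟩
      rw [← h2]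
      simp [par]
    rw [this, Finset.sum_empty]

theorem par_add (σ τ : Multiset ℕ) : par (σ + τ) = xor (par σ) (par τ) := by
  unfold par
  rw [Multiset.map_add, Multiset.sum_add]
  rcases Nat.mod_two_eq_zero_or_one (σ.map (fun c => c - 1)).sum with h1 | h1 <;>
    rcases Nat.mod_two_eq_zero_or_one (τ.map (fun c => c - 1)).sum with h2 | h2 <;>
    simp [Nat.add_mod, h1, h2]

theorem par_replicate (a c : ℕ) :
    par (Multiset.replicate a c) = decide ((a * (c - 1)) % 2 = 1) := by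
  unfold par
  rw [Multiset.map_replicate, Multiset.sum_replicate, smul_eq_mul]

private theorem par_cons (a : ℕ) (τ : Multiset ℕ) :
    par ((a + 1) ::ₘ τ) = xor (decide (a % 2 = 1)) (par τ) := by
  rw [← Multiset.singleton_add, par_add]
  rfl

theorem WS_succ {R : Type*} [CommSemiring R] {lo N r : ℕ} (hlo : 1 ≤ lo) (hN : lo ≤ N + 1)
    (p : Bool) (f : ℕ → R) :
    WS lo (N + 1) r p f = WS lo N r p f +
      if N + 1 ≤ r then f (N + 1) * WS lo (N + 1) (r - (N + 1)) (xor p (decide (N % 2 = 1))) f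
      else 0 := by
  classical
  have hsplit : WS lo (N + 1) r p f =
      ∑ τ ∈ ((prt lo (N + 1) r).filter (fun τ => par τ = p)).filter (fun τ => ¬ N + 1 ∈ τ),
        (τ.map f).prod +
      ∑ τ ∈ ((prt lo (N + 1) r).filter (fun τ => par τ = p)).filter (fun τ => N + 1 ∈ τ),
        (τ.map f).prod := by
    have h := Finset.sum_filter_add_sum_filter_not
      ((prt lo (N + 1) r).filter (fun τ => par τ = p))
      (fun τ => N + 1 ∈ τ) (fun τ => (τ.map f).prod)
    rw [add_comm] at h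
    exact h.symm
  rw [hsplit]
  refine congr_arg₂ (· + ·) ?_ ?_
  · unfold WS
    refine Finset.sum_congr ?_ fun _ _ => rfl
    ext τ
    rw [Finset.mem_filter, Finset.mem_filter, Finset.mem_filter, mem_prt hlo, mem_prt hlo]
    constructor
    · rintro ⟨⟨⟨h1, h2⟩, h3⟩, h4⟩
      refine ⟨⟨h1, fun c hc => ⟨(h2 c hc).1, ?_⟩⟩, h3⟩
      have h5 := (h2 c hc).2
      have h6 : c ≠ N + 1 := by
        rintro rfl
        exact h4 hc
      omega
    · rintro ⟨⟨h1, h2⟩, h3⟩
      refine ⟨⟨⟨h1, fun c hc => ⟨(h2 c hc).1, ?_⟩⟩, h3⟩, fun h4 => ?_⟩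
      · have := (h2 c hc).2
        omega
      · have := (h2 _ h4).2
        omega
  · split_ifs with hr
    · unfold WS
      rw [Finset.mul_sum]
      symm
      refine Finset.sum_bij (fun τ _ => (N + 1) ::ₘ τ) ?_ ?_ ?_ ?_
      · intro τ hτ
        rw [Finset.mem_filter, mem_prt hlo] at hτ
        obtain ⟨⟨h1, h2⟩, h3⟩ := hτ
        rw [Finset.mem_filter, Finset.mem_filter, mem_prt hlo]
        refine ⟨⟨⟨?_, ?_⟩, ?_⟩, Multiset.mem_cons_self _ _⟩
        · rw [Multiset.sum_cons, h1]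
          omega
        · intro c hc
          rcases Multiset.mem_cons.1 hc with rfl | hc
          · exact ⟨hN, le_refl _⟩
          · exact h2 c hc
        · rw [par_cons, h3]
          cases p <;> cases decide (N % 2 = 1) <;> rfl
      · intro τ _ τ' _ h
        exact (Multiset.cons_inj_right _).1 h
      · intro τ hτ
        rw [Finset.mem_filter, Finset.mem_filter, mem_prt hlo] at hτ
        obtain ⟨⟨⟨h1, h2⟩, h3⟩, h4⟩ := hτ
        obtain ⟨σ, rfl⟩ := Multiset.exists_cons_of_mem h4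
        refine ⟨σ, ?_, rfl⟩
        rw [Finset.mem_filter, mem_prt hlo]
        rw [Multiset.sum_cons] at h1
        refine ⟨⟨by omega, fun c hc => h2 c (Multiset.mem_cons_of_mem hc)⟩, ?_⟩
        rw [par_cons] at h3
        rw [← h3]
        cases par σ <;> cases decide (N % 2 = 1) <;> rfl
      · intro τ _
        rw [Multiset.map_cons, Multiset.prod_cons]
    · apply Finset.sum_eq_zero
      intro τ hτ
      exfalso
      rw [Finset.mem_filter, Finset.mem_filter, mem_prt hlo] at hτ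
      obtain ⟨⟨⟨h1, h2⟩, h3⟩, h4⟩ := hτ
      have := Multiset.le_sum_of_mem h4
      omega

theorem WS_stable {R : Type*} [CommSemiring R] {lo N N' r : ℕ} (hlo : 1 ≤ lo) (hN : r ≤ N)
    (hN' : r ≤ N') (p : Bool) (f : ℕ → R) : WS lo N r p f = WS lo N' r p f := by
  have : prt lo N r = prt lo N' r := by
    ext τ
    rw [mem_prt hlo, mem_prt hlo]
    constructor
    · rintro ⟨h1, h2⟩
      exact ⟨h1, fun c hc => ⟨(h2 c hc).1, (Multiset.le_sum_of_mem hc).trans (h1.le.trans hN')⟩⟩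
    · rintro ⟨h1, h2⟩
      exact ⟨h1, fun c hc => ⟨(h2 c hc).1, (Multiset.le_sum_of_mem hc).trans (h1.le.trans hN)⟩⟩
  unfold WS
  rw [this]

theorem map_WS {R S : Type*} [CommSemiring R] [CommSemiring S] (φ : R →+* S) {lo N r : ℕ}
    (p : Bool) (f : ℕ → R) : φ (WS lo N r p f) = WS lo N r p (fun c => φ (f c)) := by
  unfold WS
  rw [map_sum]
  refine Finset.sum_congr rfl fun τ _ => ?_
  rw [map_multiset_prod, Multiset.map_map]
  rfl

end Pool.MP322P
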