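import Pool.Agent.Lib.MP_322c5f_alP.PA01
import Pool.Agent.Lib.MP_322c5f_alP.PA02
import Pool.Agent.Lib.MP_322c5f_alP.PC01

/-! job 322P-A3: transfer from the level `L` to `n`, and the general assembly. -/

set_option autoImplicit false

open Finset Polynomial Equiv

namespace Pool.MP322P

open Pool.MP322

theorem PosR.mono {k J : ℕ} {r : Multiset ℕ → ℝ} (h : PosR k r) (hJ : J ≤ k) : PosR J r :=
  ⟨h.1, fun ι _ I c α β h1 h2 h3 => h.2 ι I c α β h1 (h2.trans hJ) h3⟩

private theorem coeff_lin_pow (N j : ℕ) :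
    ((1 + 2 * X : ℤ[X]) ^ N).coeff j = (N.choose j : ℤ) * 2 ^ j := by
  have h : (1 + 2 * X : ℤ[X]) ^ N = ((1 + X : ℤ[X]) ^ N).comp (2 * X) := by
    rw [pow_comp, add_comp, one_comp, X_comp]
  have h2 : (2 * X : ℤ[X]) = C 2 * X := by
    rw [← C_ofNat]
  rw [h, h2, comp_C_mul_X_coeff, coeff_one_add_X_pow]

private theorem eC_transfer (F N k s : ℕ) :
    eC (F + N) 0 0 k s =
      ∑ J ∈ range (k + 1), (N.choose (k - J) : ℤ) * 2 ^ (k - J) * eC F 0 0 J s := by
  have hP : eP (F + N) 0 0 = eP F 0 0 * (1 + 2 * X) ^ N := by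
    unfold eP; ring
  unfold eC
  by_cases hs : s ≤ k
  · rw [if_pos hs, hP, coeff_mul, Finset.Nat.sum_antidiagonal_eq_sum_range_succ_mk]
    have h1 : ∑ J ∈ range (k + 1), (N.choose (k - J) : ℤ) * 2 ^ (k - J) *
        (if s ≤ J then (eP F 0 0).coeff (J - s) else 0) =
        ∑ J ∈ (range (k + 1)).filter (fun J => s ≤ J), (N.choose (k - J) : ℤ) * 2 ^ (k - J) *
          (eP F 0 0).coeff (J - s) := by
      rw [Finset.sum_filter]
      refine Finset.sum_congr rfl fun J _ => ?_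
      split_ifs
      · rfl
      · simp
    rw [h1]
    refine Finset.sum_bij' (fun i _ => i + s) (fun J _ => J - s) ?_ ?_ ?_ ?_ ?_
    · intro i hi
      rw [Finset.mem_range] at hi
      rw [Finset.mem_filter, Finset.mem_range]
      omega
    · intro J hJ
      rw [Finset.mem_filter, Finset.mem_range] at hJ
      rw [Finset.mem_range]
      omega
    · intro i _; simp
    · intro J hJ
      rw [Finset.mem_filter] at hJ
      omega
    · intro i hi
      rw [Finset.mem_range] at hi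
      rw [coeff_lin_pow, Nat.add_sub_cancel, show k - s - i = k - (i + s) by omega]
      ring
  · rw [if_neg hs]
    symm
    refine Finset.sum_eq_zero fun J hJ => ?_
    rw [Finset.mem_range] at hJ
    rw [if_neg (by omega), mul_zero]

/-- `(1+2X)^(F+N) = (1+2X)^F (1+2X)^N`. -/
theorem psM_transfer (τ : Multiset ℕ) (F N k : ℕ) (r : Multiset ℕ → ℝ) :
    psM τ (F + N) k r =
      ∑ J ∈ range (k + 1), (N.choose (k - J) : ℝ) * 2 ^ (k - J) * psM τ F J r := by
  unfold psM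
  simp_rw [← Multiset.sum_map_mul_left]
  rw [Finset.sum_eq_multiset_sum]
  rw [Multiset.sum_map_sum_map]
  congr 1
  refine Multiset.map_congr rfl fun σ _ => ?_
  rw [eC_transfer F N k σ.sum]
  push_cast
  rw [Finset.mul_sum, Finset.sum_mul, Finset.sum_eq_multiset_sum]
  congr 1
  refine Multiset.map_congr rfl fun J _ => ?_
  ring

theorem Del_pos {n k : ℕ} (hk : 1 ≤ k) (h : 2 * k ≤ n) : 0 < Del n k := by
  obtain ⟨j, rfl⟩ : ∃ j, k = j + 1 := ⟨k - 1, by omega⟩
  unfold Del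
  rw [Nat.add_sub_cancel, sub_pos, Nat.cast_lt]
  have h1 := Nat.choose_succ_right_eq n j
  have h2 : 0 < n.choose j := Nat.choose_pos (by omega)
  have h3 : j + 1 < n - j := by omega
  by_contra hc
  rw [not_lt] at hc
  have h4 : n.choose (j + 1) * (j + 1) ≤ n.choose j * (j + 1) := Nat.mul_le_mul_right _ hc
  have h5 : n.choose j * (j + 1) < n.choose j * (n - j) := Nat.mul_lt_mul_of_pos_left h3 h2
  omega

theorem LevelW.bound {L : ℕ} {P : Multiset ℕ → Prop} {w : Multiset ℕ → ℕ → ℝ}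
    (hw : LevelW L P w) {n k : ℕ} (hL : L ≤ n) (nu : Y (k + 1)) (g : Perm (Fin n))
    (hg : g.cycleType.sum ≤ L) (hP : P g.cycleType) :
    -(Psi nu g) ≤ (∑ J ∈ range (k + 2), ((n - L).choose (k + 1 - J) : ℝ) * w g.cycleType J) *
      fd nu := by
  have hf := fd_pos nu
  rw [Psi_psM nu g, show n - g.cycleType.sum = (L - g.cycleType.sum) + (n - L) by omega,
    psM_transfer]
  have h2 : (0 : ℝ) < 2 ^ (k + 1) := by positivity
  set r : Multiset ℕ → ℝ := fun τ => ty nu τ / fd nu with hr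
  have key : -(∑ J ∈ range (k + 1 + 1), ((n - L).choose (k + 1 - J) : ℝ) * 2 ^ (k + 1 - J) *
      psM g.cycleType (L - g.cycleType.sum) J r) ≤
      2 ^ (k + 1) * ∑ J ∈ range (k + 2), ((n - L).choose (k + 1 - J) : ℝ) * w g.cycleType J := by
    rw [← Finset.sum_neg_distrib, Finset.mul_sum]
    refine Finset.sum_le_sum fun J hJ => ?_
    rw [Finset.mem_range] at hJ
    have h3 := hw g.cycleType (fun c hc => Perm.two_le_of_mem_cycleType hc) hg hP J r
      ((PosR_ty nu).mono (by omega))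
    have h4 : (2 : ℝ) ^ (k + 1) = 2 ^ (k + 1 - J) * 2 ^ J := by
      rw [← pow_add]; congr 1; omega
    have h5 : (0 : ℝ) ≤ ((n - L).choose (k + 1 - J) : ℝ) * 2 ^ (k + 1 - J) := by positivity
    have h6 := mul_le_mul_of_nonneg_left h3 h5
    rw [h4]
    linarith
  have h7 : -(fd nu * (∑ J ∈ range (k + 1 + 1), ((n - L).choose (k + 1 - J) : ℝ) *
      2 ^ (k + 1 - J) * psM g.cycleType (L - g.cycleType.sum) J r) / 2 ^ (k + 1)) =
      fd nu * (-(∑ J ∈ range (k + 1 + 1), ((n - L).choose (k + 1 - J) : ℝ) *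
      2 ^ (k + 1 - J) * psM g.cycleType (L - g.cycleType.sum) J r)) / 2 ^ (k + 1) := by
    ring
  rw [h7, div_le_iff₀ h2]
  have h8 := mul_le_mul_of_nonneg_left key hf.le
  linarith

/-- the general assembly: `h J` bounds `C(n-L, k-J) / Del n k` for all the depths `k`. -/
theorem PSIp_of_level {L : ℕ} {P : Multiset ℕ → Prop} {w : Multiset ℕ → ℕ → ℝ}
    (hw : LevelW L P w) (hw0 : ∀ τ J, 0 ≤ w τ J) {n K k0 A B : ℕ} (hL : L ≤ n) (hB : B ≤ L)
    (hP : ∀ τ, A < τ.sum → τ.sum ≤ B → P τ) (hK : 1 ≤ K) (hk0 : 2 * k0 ≤ n + 2)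
    (h : ℕ → ℝ) (h0 : ∀ J, 0 ≤ h J)
    (hh : ∀ k, K ≤ k → k < k0 → ∀ J ≤ k, ((n - L).choose (k - J) : ℝ) ≤ h J * Del n k)
    {x : ℝ} (hx : ∑ J ∈ range k0, h J * (∑ m ∈ Ioc A B, ∑ τ ∈ evs m, w τ J) ≤ x) :
    PSIp n K k0 A B x := by
  refine ⟨fun τ => ∑ J ∈ range k0, h J * w τ J,
    fun τ => Finset.sum_nonneg fun J _ => mul_nonneg (h0 J) (hw0 τ J), ?_, ?_⟩
  · intro k nu g hk hkk _ _ hA hB'
    have hf := fd_pos nu
    refine (hw.bound hL nu g (hB'.trans hB) (hP _ hA hB')).trans ?_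
    rw [← mul_assoc]
    refine mul_le_mul_of_nonneg_right ?_ hf.le
    have hD : 0 < Del n (k + 1) := Del_pos (by omega) (by omega)
    rw [Finset.sum_mul]
    have h1 : ∑ J ∈ range (k + 2), ((n - L).choose (k + 1 - J) : ℝ) * w g.cycleType J ≤
        ∑ J ∈ range (k + 2), h J * w g.cycleType J * Del n (k + 1) := by
      refine Finset.sum_le_sum fun J hJ => ?_
      rw [Finset.mem_range] at hJ
      have h2 := mul_le_mul_of_nonneg_right (hh (k + 1) hk hkk J (by omega))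
        (hw0 g.cycleType J)
      linarith
    refine h1.trans (Finset.sum_le_sum_of_subset_of_nonneg ?_ ?_)
    · intro J hJ
      rw [Finset.mem_range] at hJ ⊢
      omega
    · intro J _ _
      exact mul_nonneg (mul_nonneg (h0 J) (hw0 _ J)) hD.le
  · refine (sum_typesE_le _ fun τ => Finset.sum_nonneg fun J _ =>
      mul_nonneg (h0 J) (hw0 τ J)).trans (le_trans (le_of_eq ?_) hx)
    have h1 : ∀ m ∈ Ioc A B, ∑ τ ∈ evs m, ∑ J ∈ range k0, h J * w τ J =
        ∑ J ∈ range k0, h J * ∑ τ ∈ evs m, w τ J := by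
      intro m _
      rw [Finset.sum_comm]
      refine Finset.sum_congr rfl fun J _ => ?_
      rw [Finset.mul_sum]
    rw [Finset.sum_congr rfl h1, Finset.sum_comm]
    refine Finset.sum_congr rfl fun J _ => ?_
    rw [Finset.mul_sum]

theorem PSIp.add {n K k0 A B C : ℕ} {x y : ℝ} (hAB : A ≤ B) (hBC : B ≤ C)
    (h1 : PSIp n K k0 A B x) (h2 : PSIp n K k0 B C y) : PSIp n K k0 A C (x + y) := by
  obtain ⟨P1, hp1, hb1, hs1⟩ := h1
  obtain ⟨P2, hp2, hb2, hs2⟩ := h2
  refine ⟨fun τ => if τ.sum ≤ B then P1 τ else P2 τ, ?_, ?_, ?_⟩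
  · intro τ
    simp only
    split_ifs
    · exact hp1 τ
    · exact hp2 τ
  · intro k nu g hk hkk hs hg hA hC
    simp only
    split_ifs with hB
    · exact hb1 k nu g hk hkk hs hg hA hB
    · exact hb2 k nu g hk hkk hs hg (by omega) hC
  · have h3 : (typesE n).filter (fun τ => A < τ.sum ∧ τ.sum ≤ C) =
        (typesE n).filter (fun τ => A < τ.sum ∧ τ.sum ≤ B) ∪
          (typesE n).filter (fun τ => B < τ.sum ∧ τ.sum ≤ C) := by
      ext τ
      simp only [Finset.mem_union, Finset.mem_filter]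
      constructor
      · rintro ⟨h, h4, h5⟩
        by_cases h6 : τ.sum ≤ B
        · exact Or.inl ⟨h, h4, h6⟩
        · exact Or.inr ⟨h, by omega, h5⟩
      · rintro (⟨h, h4, h5⟩ | ⟨h, h4, h5⟩)
        · exact ⟨h, h4, by omega⟩
        · exact ⟨h, by omega, h5⟩
    have h4 : Disjoint ((typesE n).filter (fun τ => A < τ.sum ∧ τ.sum ≤ B))
        ((typesE n).filter (fun τ => B < τ.sum ∧ τ.sum ≤ C)) := by
      rw [Finset.disjoint_left]
      intro τ h5 h6
      rw [Finset.mem_filter] at h5 h6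
      omega
    rw [h3, Finset.sum_union h4]
    refine add_le_add (le_trans (le_of_eq ?_) hs1) (le_trans (le_of_eq ?_) hs2)
    · refine Finset.sum_congr rfl fun τ hτ => ?_
      rw [Finset.mem_filter] at hτ
      rw [if_pos hτ.2.2]
    · refine Finset.sum_congr rfl fun τ hτ => ?_
      rw [Finset.mem_filter] at hτ
      rw [if_neg (by omega)]

theorem PSIp.mono {n K k0 K' k0' A B A' B' : ℕ} {x y : ℝ} (h : PSIp n K k0 A B x) (hK : K ≤ K')
    (hk : k0' ≤ k0) (hA : A ≤ A') (hB : B' ≤ B) (hxy : x ≤ y) : PSIp n K' k0' A' B' y := by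
  obtain ⟨P, hp, hb, hs⟩ := h
  refine ⟨P, hp, ?_, ?_⟩
  · intro k nu g h1 h2 h3 h4 h5 h6
    exact hb k nu g (by omega) (by omega) h3 h4 (by omega) (by omega)
  · refine le_trans (Finset.sum_le_sum_of_subset_of_nonneg ?_ fun τ _ _ => hp τ) (hs.trans hxy)
    intro τ hτ
    rw [Finset.mem_filter] at hτ ⊢
    exact ⟨hτ.1, by omega, by omega⟩

end Pool.MP322P
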