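import Pool.Agent.Lib.MP_322c5f_alP.PA01
import Pool.Agent.Lib.MP_322c5f_alP.PC01

/-! job 322P-A4: absolute weights (`|r| ≤ 1` only). -/

set_option autoImplicit false

open Finset Polynomial Equiv

namespace Pool.MP322P

open Pool.MP322

private theorem sign_sum {m : ℕ} (S : Finset (Fin m)) :
    ∑ T : Finset (Fin m), ∏ i ∈ S, (if i ∈ T then (-1 : ℝ) else 1) =
      if S = ∅ then 2 ^ m else 0 := by
  have h1 : ∀ T : Finset (Fin m), ∏ i ∈ S, (if i ∈ T then (-1 : ℝ) else 1) =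
      (∏ i ∈ T, (if i ∈ S then (-1 : ℝ) else 1)) * ∏ i ∈ univ \ T, (1 : ℝ) := by
    intro T
    rw [Finset.prod_const_one, mul_one, ← Finset.prod_filter, ← Finset.prod_filter]
    refine Finset.prod_congr ?_ fun _ _ => rfl
    ext i
    simp only [Finset.mem_filter]
    tauto
  rw [Finset.sum_congr rfl (fun T _ => h1 T), ← Finset.powerset_univ,
    ← Finset.prod_add (fun i => (if i ∈ S then (-1 : ℝ) else 1)) (fun _ => (1 : ℝ)) univ]
  split_ifs with h
  · subst h
    simp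
    norm_num
  · obtain ⟨i, hi⟩ := Finset.nonempty_iff_ne_empty.2 h
    exact Finset.prod_eq_zero (Finset.mem_univ i) (by simp [hi])

private theorem abs_le_aux {k m : ℕ} {r : Multiset ℕ → ℝ} (h : PosR k r) (c : Fin m → ℕ)
    (hc : ∀ i, 2 ≤ c i) (hs : ∑ i, c i ≤ k) (s : ℝ) (hs1 : s = 1 ∨ s = -1) :
    0 ≤ 1 + s * r ((Finset.univ : Finset (Fin m)).val.map c) := by
  obtain ⟨h0, H⟩ := h
  set e : Finset (Fin m) → Fin m → ℝ := fun T i => if i ∈ T then (-1 : ℝ) else 1 with he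
  have hee : ∀ T i, e T i * e T i = 1 := by
    intro T i
    simp only [he]
    split_ifs <;> norm_num
  have hP : ∀ T, 0 ≤ ∑ S ∈ (univ : Finset (Fin m)).powerset, (∏ i ∈ S, e T i) * r (S.val.map c) := by
    intro T
    have h1 := H (Fin m) univ c (fun _ => 1) (e T) (fun i _ => hc i) hs (fun i _ => by
      left
      simp only [he]
      split_ifs <;> norm_num)
    simpa using h1
  have hw : ∀ T, 0 ≤ 1 + s * ∏ i, e T i := by
    intro T
    have h2 : |∏ i, e T i| ≤ 1 := by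
      rw [Finset.abs_prod]
      refine Finset.prod_le_one (fun i _ => abs_nonneg _) fun i _ => ?_
      simp only [he]
      split_ifs <;> norm_num
    rcases hs1 with rfl | rfl
    · linarith [(abs_le.1 h2).1]
    · linarith [(abs_le.1 h2).2]
  have hsum : 0 ≤ ∑ T : Finset (Fin m), (1 + s * ∏ i, e T i) *
      ∑ S ∈ (univ : Finset (Fin m)).powerset, (∏ i ∈ S, e T i) * r (S.val.map c) :=
    Finset.sum_nonneg fun T _ => mul_nonneg (hw T) (hP T)
  have hcomp : ∀ S : Finset (Fin m), ∀ T : Finset (Fin m),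
      (∏ i, e T i) * ∏ i ∈ S, e T i = ∏ i ∈ univ \ S, e T i := by
    intro S T
    rw [← Finset.prod_sdiff (Finset.subset_univ S), mul_assoc, ← Finset.prod_mul_distrib]
    rw [Finset.prod_congr rfl (fun i _ => hee T i), Finset.prod_const_one, mul_one]
  have hval : ∑ T : Finset (Fin m), (1 + s * ∏ i, e T i) *
      ∑ S ∈ (univ : Finset (Fin m)).powerset, (∏ i ∈ S, e T i) * r (S.val.map c) =
      2 ^ m * (1 + s * r ((Finset.univ : Finset (Fin m)).val.map c)) := by
    have h3 : ∀ T : Finset (Fin m), (1 + s * ∏ i, e T i) *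
      ∑ S ∈ (univ : Finset (Fin m)).powerset, (∏ i ∈ S, e T i) * r (S.val.map c) =
      ∑ S ∈ (univ : Finset (Fin m)).powerset, ((∏ i ∈ S, e T i) * r (S.val.map c) +
        s * ((∏ i ∈ univ \ S, e T i) * r (S.val.map c))) := by
      intro T
      rw [Finset.mul_sum]
      refine Finset.sum_congr rfl fun S _ => ?_
      rw [← hcomp S T]
      ring
    rw [Finset.sum_congr rfl (fun T _ => h3 T), Finset.sum_comm]
    have h4 : ∀ S : Finset (Fin m), ∑ T : Finset (Fin m), ((∏ i ∈ S, e T i) * r (S.val.map c) +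
        s * ((∏ i ∈ univ \ S, e T i) * r (S.val.map c))) =
        (if S = ∅ then 2 ^ m else 0) * r (S.val.map c) +
          s * ((if S = univ then 2 ^ m else 0) * r (S.val.map c)) := by
      intro S
      rw [Finset.sum_add_distrib, ← Finset.sum_mul, ← Finset.mul_sum, ← Finset.sum_mul,
        sign_sum S, sign_sum (univ \ S)]
      congr 3
      simp only [Finset.sdiff_eq_empty_iff_subset, Finset.univ_subset_iff]
    rw [Finset.sum_congr rfl (fun S _ => h4 S), Finset.sum_add_distrib, ← Finset.mul_sum]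
    simp only [Finset.powerset_univ, ite_mul, zero_mul, Finset.sum_ite_eq', Finset.mem_univ,
      if_true]
    simp only [Finset.empty_val, Multiset.map_zero, h0]
    ring
  rw [hval] at hsum
  have : (0 : ℝ) < 2 ^ m := by positivity
  nlinarith [(mul_nonneg_iff_of_pos_left this).1 hsum]

/-- `|r σ| ≤ 1`: use `PosR` with `α = 1`, `β = ±1` (products of an even / odd number of signs:
`∑_{ε, ∏ε = 1} ∏ (1 + ε_i ρ_i) = 2^(p-1) (1 + ∏ ρ_i)`, or induction:
`(1+ρ)(1 ± σ) + (1-ρ)(1 ∓ σ) = 2 (1 ± ρσ)`). -/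
theorem PosR.abs_le {k : ℕ} {r : Multiset ℕ → ℝ} (h : PosR k r) {σ : Multiset ℕ}
    (hσ : ∀ c ∈ σ, 2 ≤ c) (hs : σ.sum ≤ k) : |r σ| ≤ 1 := by
  obtain ⟨m, c, hc⟩ := exists_finset_map σ
  subst hc
  have h1 : ∀ i, 2 ≤ c i := fun i => hσ _ (Multiset.mem_map_of_mem c (Finset.mem_univ i))
  have h2 : ∑ i, c i ≤ k := hs
  have ha := abs_le_aux h c h1 h2 1 (Or.inl rfl)
  have hb := abs_le_aux h c h1 h2 (-1) (Or.inr rfl)
  rw [_root_.abs_le]
  constructor <;> linarith

private theorem coeff_prod_aux (e : ℕ) (τ : Multiset ℕ) : ∀ J : ℕ,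
    ((1 + X : ℕ[X]) ^ e * (τ.map (fun c => 1 + (X : ℕ[X]) ^ c)).prod).coeff J =
    (τ.powerset.map (fun σ => if σ.sum ≤ J then e.choose (J - σ.sum) else 0)).sum := by
  induction τ using Multiset.induction_on with
  | empty =>
    intro J
    simp [Polynomial.coeff_one_add_X_pow]
  | cons a τ ih =>
    intro J
    rw [Multiset.map_cons, Multiset.prod_cons, Multiset.powerset_cons, Multiset.map_add,
      Multiset.sum_add, ← ih J]
    have : (1 + X : ℕ[X]) ^ e * ((1 + X ^ a) * (τ.map (fun c => 1 + (X : ℕ[X]) ^ c)).prod) =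
        (1 + X : ℕ[X]) ^ e * (τ.map (fun c => 1 + (X : ℕ[X]) ^ c)).prod +
        ((1 + X : ℕ[X]) ^ e * (τ.map (fun c => 1 + (X : ℕ[X]) ^ c)).prod) * X ^ a := by ring
    rw [this, Polynomial.coeff_add, Polynomial.coeff_mul_X_pow', Multiset.map_map]
    congr 1
    split_ifs with h
    · rw [ih (J - a)]
      congr 1
      refine Multiset.map_congr rfl fun σ _ => ?_
      simp only [Function.comp, Multiset.sum_cons]
      by_cases h2 : σ.sum ≤ J - a
      · rw [if_pos h2, if_pos (by omega)]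
        congr 1
        omega
      · rw [if_neg h2, if_neg (by omega)]
    · symm
      refine Multiset.sum_eq_zero fun x hx => ?_
      obtain ⟨σ, _, rfl⟩ := Multiset.mem_map.1 hx
      simp only [Function.comp, Multiset.sum_cons]
      rw [if_neg (by omega)]

theorem NA_eq (n : ℕ) (τ : Multiset ℕ) (J : ℕ) : NA n τ J =
    (τ.powerset.map (fun σ => if σ.sum ≤ J then (n - τ.sum + 1).choose (J - σ.sum) else 0)).sum :=
  coeff_prod_aux _ τ J

private theorem eP_coeff_abs (F i : ℕ) : |((eP F 0 0).coeff i : ℝ)| ≤ 2 ^ i * ((F + 1).choose i : ℝ) := by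
  have h0 : eP F 0 0 = (1 - 2 * X) * (1 + 2 * X) ^ F := by
    unfold eP
    simp
  have hc : ∀ j, ((1 + 2 * X : ℤ[X]) ^ F).coeff j = 2 ^ j * (F.choose j : ℤ) := by
    intro j
    have h1 : (1 + 2 * X : ℤ[X]) ^ F = ((1 + X : ℤ[X]) ^ F).comp (C 2 * X) := by
      simp
    rw [h1, Polynomial.comp_C_mul_X_coeff, Polynomial.coeff_one_add_X_pow]
    ring
  have h2 : eP F 0 0 = (1 + 2 * X) ^ F - C 2 * ((1 + 2 * X) ^ F * X) := by
    rw [h0]
    simp only [map_ofNat]
    ring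
  rw [h2]
  cases i with
  | zero => simp [hc]
  | succ i =>
    rw [Polynomial.coeff_sub, Polynomial.coeff_C_mul, Polynomial.coeff_mul_X, hc, hc]
    push_cast
    rw [Nat.choose_succ_succ' F i]
    push_cast
    have h3 : (2 : ℝ) ^ (i + 1) * (F.choose (i + 1) : ℝ) - 2 * (2 ^ i * (F.choose i : ℝ)) =
      2 ^ (i + 1) * ((F.choose (i + 1) : ℝ) - (F.choose i : ℝ)) := by ring
    rw [h3, abs_mul, abs_of_nonneg (by positivity : (0 : ℝ) ≤ 2 ^ (i + 1))]
    refine mul_le_mul_of_nonneg_left ?_ (by positivity)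
    have ha : (0 : ℝ) ≤ (F.choose (i + 1) : ℝ) := Nat.cast_nonneg _
    have hb : (0 : ℝ) ≤ (F.choose i : ℝ) := Nat.cast_nonneg _
    rw [_root_.abs_le]
    constructor <;> linarith

private theorem psM_bound (τ : Multiset ℕ) (F J : ℕ) (r : Multiset ℕ → ℝ)
    (hr : ∀ σ, σ ≤ τ → σ.sum ≤ J → |r σ| ≤ 1) :
    -(psM τ F J r) ≤ 2 ^ J *
      (((τ.powerset.map (fun σ => if σ.sum ≤ J then (F + 1).choose (J - σ.sum) else 0)).sum : ℕ) : ℝ) := by
  have h1 : (((τ.powerset.map (fun σ => if σ.sum ≤ J then (F + 1).choose (J - σ.sum) else 0)).sum : ℕ) : ℝ)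
      = (τ.powerset.map (fun σ => ((if σ.sum ≤ J then (F + 1).choose (J - σ.sum) else 0 : ℕ) : ℝ))).sum := by
    rw [Nat.cast_multiset_sum, Multiset.map_map]
    rfl
  rw [h1, ← Multiset.sum_map_mul_left, psM, ← Multiset.sum_map_neg', Multiset.map_map]
  refine Multiset.sum_map_le_sum_map
    (fun σ => -((2 : ℝ) ^ σ.sum * ((if σ.sum ≤ J then (eP F 0 0).coeff (J - σ.sum) else 0 : ℤ) : ℝ) *
      r σ))
    (fun σ => 2 ^ J * ((if σ.sum ≤ J then (F + 1).choose (J - σ.sum) else 0 : ℕ) : ℝ))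
    fun σ hσ => ?_
  rw [Multiset.mem_powerset] at hσ
  by_cases h : σ.sum ≤ J
  · rw [if_pos h, if_pos h]
    have h2 := eP_coeff_abs F (J - σ.sum)
    have h3 := hr σ hσ h
    have h4 : |(2 : ℝ) ^ σ.sum * ((eP F 0 0).coeff (J - σ.sum) : ℝ) * r σ| ≤
        2 ^ σ.sum * (2 ^ (J - σ.sum) * ((F + 1).choose (J - σ.sum) : ℝ)) * 1 := by
      rw [abs_mul, abs_mul, abs_of_nonneg (by positivity : (0 : ℝ) ≤ 2 ^ σ.sum)]
      refine mul_le_mul (mul_le_mul_of_nonneg_left h2 (by positivity)) h3 (abs_nonneg _)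
        (by positivity)
    have h5 : (2 : ℝ) ^ σ.sum * (2 ^ (J - σ.sum) * ((F + 1).choose (J - σ.sum) : ℝ)) * 1 =
        2 ^ J * ((F + 1).choose (J - σ.sum) : ℝ) := by
      rw [← mul_assoc, ← pow_add, Nat.add_sub_cancel' h, mul_one]
    rw [h5] at h4
    exact (neg_le_abs _).trans h4
  · rw [if_neg h, if_neg h]
    simp

theorem LevelW_NA (L : ℕ) (P : Multiset ℕ → Prop) : LevelW L P (fun τ J => (NA L τ J : ℝ)) := by
  intro τ hτ hL _ J r hr
  show -(psM τ (L - τ.sum) J r) ≤ 2 ^ J * (NA L τ J : ℝ)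
  rw [NA_eq]
  refine psM_bound τ _ J r fun σ hσ hs => ?_
  exact hr.abs_le (fun c hc => hτ c (Multiset.mem_of_le hσ hc)) hs

/-- going up: the absolute weights are compatible with the transfer. -/
theorem NA_transfer (L N : ℕ) (τ : Multiset ℕ) (hτ : τ.sum ≤ L) (k : ℕ) :
    NA (L + N) τ k = ∑ J ∈ range (k + 1), N.choose (k - J) * NA L τ J := by
  unfold NA
  have h1 : L + N - τ.sum + 1 = N + (L - τ.sum + 1) := by omega
  rw [h1, pow_add, mul_assoc, Polynomial.coeff_mul, Finset.Nat.sum_antidiagonal_eq_sum_range_succ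
    (fun i j => ((1 + X : ℕ[X]) ^ N).coeff i * ((1 + X : ℕ[X]) ^ (L - τ.sum + 1) *
      (τ.map (fun c => 1 + (X : ℕ[X]) ^ c)).prod).coeff j), ← Finset.sum_range_reflect]
  refine Finset.sum_congr rfl fun J hJ => ?_
  rw [Finset.mem_range] at hJ
  have h2 : k + 1 - 1 - J = k - J := by omega
  have h3 : k - (k - J) = J := by omega
  rw [h2, h3, Polynomial.coeff_one_add_X_pow]
  simp

/-- the absolute bound at level `n` itself. -/
theorem Psi_le_NA {n k : ℕ} (nu : Y (k + 1)) (g : Perm (Fin n)) :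
    -(Psi nu g) ≤ (NA n g.cycleType (k + 1) : ℝ) * fd nu := by
  have hfd := fd_pos nu
  rw [Psi_psM nu g, NA_eq]
  have h := psM_bound g.cycleType (n - g.cycleType.sum) (k + 1) (fun τ => ty nu τ / fd nu)
    (fun σ _ _ => by
      show |ty nu σ / fd nu| ≤ 1
      rw [abs_div, abs_of_pos hfd, div_le_one hfd]
      exact abs_ty_le nu σ)
  have h2 : (0 : ℝ) < 2 ^ (k + 1) := by positivity
  have h3 : -(fd nu * psM g.cycleType (n - g.cycleType.sum) (k + 1)
      (fun τ => ty nu τ / fd nu) / 2 ^ (k + 1)) =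
      fd nu * (-(psM g.cycleType (n - g.cycleType.sum) (k + 1)
      (fun τ => ty nu τ / fd nu)) / 2 ^ (k + 1)) := by ring
  rw [h3, mul_comm _ (fd nu)]
  refine mul_le_mul_of_nonneg_left ?_ hfd.le
  rw [div_le_iff₀ h2, mul_comm _ ((2 : ℝ) ^ (k + 1))]
  exact h

end Pool.MP322P
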