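import Mathlib

/-! job 322P-B1: expansion of a sum over subsets of `P ∪ U`, where the elements of `P` are
expanded in `(1 - θ Z)`. (For fixed `S`: `∑_{B ⊇ S} ∏_{B∖S} θZ ∏_{P∖B} (1-θZ) = 1`.) -/

set_option autoImplicit false

open Finset

namespace Pool.MP322P

private theorem insert_sdiff_of_not {ι : Type*} [DecidableEq ι] {a : ι} {P B : Finset ι}
    (haP : a ∉ P) (hB : B ⊆ P) : insert a P \ B = insert a (P \ B) :=
  Finset.insert_sdiff_of_notMem _ (fun h => haP (hB h))

private theorem insert_sdiff_ins {ι : Type*} [DecidableEq ι] {a : ι} {P B : Finset ι}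
    (haP : a ∉ P) : insert a P \ insert a B = P \ B := by
  ext x
  simp only [mem_sdiff, mem_insert]
  constructor
  · rintro ⟨h1, h2⟩
    refine ⟨?_, fun h => h2 (Or.inr h)⟩
    rcases h1 with h1 | h1
    · exact absurd (Or.inl h1) h2
    · exact h1
  · rintro ⟨h1, h2⟩
    refine ⟨Or.inr h1, ?_⟩
    rintro (h | h)
    · exact haP (h ▸ h1)
    · exact h2 h

private theorem sum_powerset_union {ι R : Type*} [DecidableEq ι] [AddCommMonoid R]
    (P U : Finset ι) (hPU : Disjoint P U) (F : Finset ι → R) :
    ∑ S ∈ (P ∪ U).powerset, F S = ∑ B ∈ P.powerset, ∑ V ∈ U.powerset, F (B ∪ V) := by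
  induction P using Finset.induction_on generalizing F with
  | empty => simp
  | insert a P ha ih =>
    have haU : a ∉ U := fun h => (Finset.disjoint_left.mp hPU) (mem_insert_self a P) h
    have hPU' : Disjoint P U := Finset.disjoint_of_subset_left (subset_insert a P) hPU
    rw [insert_union, sum_powerset_insert (by simp [ha, haU]), sum_powerset_insert ha,
      ih hPU', ih hPU']
    simp only [insert_union]

theorem ps_expand {ι R : Type*} [DecidableEq ι] [CommRing R] (P U : Finset ι)
    (hPU : Disjoint P U) (f : Finset ι → R) (Z θ : ι → R) :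
    ∑ S ∈ (P ∪ U).powerset, f S * ∏ i ∈ S, Z i =
      ∑ B ∈ P.powerset, ∑ V ∈ U.powerset,
        (∑ S ∈ B.powerset, (∏ i ∈ B \ S, θ i) * f (S ∪ V)) * (∏ i ∈ B, Z i) *
          (∏ i ∈ P \ B, (1 - θ i * Z i)) * ∏ i ∈ V, Z i := by
  induction P using Finset.induction_on generalizing f with
  | empty => simp
  | insert a P ha ih =>
    have haU : a ∉ U := fun h => (Finset.disjoint_left.mp hPU) (mem_insert_self a P) h
    have hPU' : Disjoint P U := Finset.disjoint_of_subset_left (subset_insert a P) hPU
    have h1 : ∀ S ∈ (P ∪ U).powerset, f (insert a S) * ∏ i ∈ insert a S, Z i =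
        Z a * (f (insert a S) * ∏ i ∈ S, Z i) := by
      intro S hS
      have : a ∉ S := fun h => by
        have := (mem_powerset.mp hS) h
        simp [ha, haU] at this
      rw [prod_insert this]; ring
    rw [insert_union, sum_powerset_insert (by simp [ha, haU]), sum_powerset_insert ha,
      sum_congr rfl h1, ← mul_sum, ih hPU' f, ih hPU' (fun S => f (insert a S)), mul_sum,
      ← sum_add_distrib, ← sum_add_distrib]
    refine sum_congr rfl (fun B hB => ?_)
    have hBP : B ⊆ P := mem_powerset.mp hB
    have haB : a ∉ B := fun h => ha (hBP h)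
    rw [mul_sum, ← sum_add_distrib, ← sum_add_distrib]
    refine sum_congr rfl (fun V hV => ?_)
    rw [insert_sdiff_of_not ha hBP, insert_sdiff_ins ha, sum_powerset_insert haB,
      prod_insert haB, prod_insert (show a ∉ P \ B by simp [ha])]
    have e1 : ∑ S ∈ B.powerset, (∏ i ∈ insert a B \ S, θ i) * f (S ∪ V) =
        θ a * ∑ S ∈ B.powerset, (∏ i ∈ B \ S, θ i) * f (S ∪ V) := by
      rw [mul_sum]
      refine sum_congr rfl (fun S hS => ?_)
      rw [insert_sdiff_of_not haB (mem_powerset.mp hS),
        prod_insert (show a ∉ B \ S by simp [haB])]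
      ring
    have e2 : ∑ S ∈ B.powerset, (∏ i ∈ insert a B \ insert a S, θ i) * f (insert a S ∪ V) =
        ∑ S ∈ B.powerset, (∏ i ∈ B \ S, θ i) * f (insert a (S ∪ V)) := by
      refine sum_congr rfl (fun S hS => ?_)
      rw [insert_sdiff_ins haB, insert_union]
    rw [e1, e2]
    ring

/-- Moebius inversion on the subsets of `U`. -/
theorem sum_mul_moebius {ι R : Type*} [DecidableEq ι] [CommRing R] (U : Finset ι)
    (g w : Finset ι → R) :
    ∑ V ∈ U.powerset, g V * w V =
      ∑ S ∈ U.powerset, (∑ T ∈ (U \ S).powerset, (-1) ^ T.card * w (S ∪ T)) *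
        ∑ V ∈ S.powerset, g V := by
  induction U using Finset.induction_on generalizing g w with
  | empty => simp [mul_comm]
  | insert a U ha ih =>
    rw [sum_powerset_insert ha, sum_powerset_insert ha, ih g w,
      ih (fun V => g (insert a V)) (fun V => w (insert a V)), ← sum_add_distrib,
      ← sum_add_distrib]
    refine sum_congr rfl (fun S hS => ?_)
    have hSU : S ⊆ U := mem_powerset.mp hS
    have haS : a ∉ S := fun h => ha (hSU h)
    rw [insert_sdiff_of_not ha hSU, insert_sdiff_ins ha, sum_powerset_insert haS,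
      sum_powerset_insert (show a ∉ U \ S by simp [ha])]
    have e1 : ∑ T ∈ (U \ S).powerset, (-1 : R) ^ (insert a T).card * w (S ∪ insert a T) =
        - ∑ T ∈ (U \ S).powerset, (-1 : R) ^ T.card * w (insert a (S ∪ T)) := by
      rw [← sum_neg_distrib]
      refine sum_congr rfl (fun T hT => ?_)
      have haT : a ∉ T := fun h => ha (mem_sdiff.mp ((mem_powerset.mp hT) h)).1
      rw [card_insert_of_notMem haT, union_insert, pow_succ]
      ring
    have e2 : ∑ T ∈ (U \ S).powerset, (-1 : R) ^ T.card * w (insert a S ∪ T) =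
        ∑ T ∈ (U \ S).powerset, (-1 : R) ^ T.card * w (insert a (S ∪ T)) := by
      refine sum_congr rfl (fun T hT => ?_)
      rw [insert_union]
    rw [e1, e2]
    ring

/-- sum over the subsets of `P = P2 ∪ P3` grouped by the two cardinalities. -/
theorem sum_powerset_card2 {ι R : Type*} [DecidableEq ι] [CommSemiring R] (P2 P3 : Finset ι)
    (h : Disjoint P2 P3) (f : ℕ → ℕ → R) :
    ∑ B ∈ (P2 ∪ P3).powerset, f (B ∩ P2).card (B ∩ P3).card =
      ∑ b ∈ range (P2.card + 1), ∑ d ∈ range (P3.card + 1),
        (P2.card.choose b : R) * (P3.card.choose d : R) * f b d := by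
  rw [sum_powerset_union P2 P3 h]
  have h1 : ∀ B ∈ P2.powerset, ∑ V ∈ P3.powerset, f ((B ∪ V) ∩ P2).card ((B ∪ V) ∩ P3).card =
      ∑ d ∈ range (P3.card + 1), (P3.card.choose d : R) * f B.card d := by
    intro B hB
    have hB' : B ⊆ P2 := mem_powerset.mp hB
    have h2 : ∀ V ∈ P3.powerset, f ((B ∪ V) ∩ P2).card ((B ∪ V) ∩ P3).card =
        f B.card V.card := by
      intro V hV
      have hV' : V ⊆ P3 := mem_powerset.mp hV
      have e1 : (B ∪ V) ∩ P2 = B := by
        ext x
        simp only [mem_inter, mem_union]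
        constructor
        · rintro ⟨h1 | h1, h2⟩
          · exact h1
          · exact absurd (hV' h1) (Finset.disjoint_left.mp h h2)
        · intro hx
          exact ⟨Or.inl hx, hB' hx⟩
      have e2 : (B ∪ V) ∩ P3 = V := by
        ext x
        simp only [mem_inter, mem_union]
        constructor
        · rintro ⟨h1 | h1, h2⟩
          · exact absurd h2 (Finset.disjoint_left.mp h (hB' h1))
          · exact h1
        · intro hx
          exact ⟨Or.inr hx, hV' hx⟩
      rw [e1, e2]
    rw [sum_congr rfl h2, sum_powerset_apply_card (fun m => f B.card m)]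
    simp [nsmul_eq_mul]
  rw [sum_congr rfl h1, sum_powerset_apply_card
    (fun m => ∑ d ∈ range (P3.card + 1), (P3.card.choose d : R) * f m d)]
  refine sum_congr rfl (fun b _ => ?_)
  rw [nsmul_eq_mul, mul_sum]
  refine sum_congr rfl (fun d _ => ?_)
  ring

end Pool.MP322P
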