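import Pool.Agent.Lib.MP_322c5f_alP.PA00

/-! job 322P-B2: consequences of positivity for the functions `Gf` (all by suitable choices of
`α, β` in `PosR`).

`Gf r c B V = ∑_{S ⊆ B} ∏_{B∖S} θ r(S ∪ V)`, `θ = 1` for 2-cycles and `1/2` for 3-cycles, is the
normalized trace of `∏_{B} (θ_i + ρ_i) ∏_V ρ_i`.

* `Gf_abs_le`: for the choice of signs on `V`: `∏_B (θ+ρ) ∏_{i∈V} (1 + ε_i ρ_i) ≥ 0`, average over
  the `ε` with `∏ ε = ±1`; or by induction using
  `(1+ρ)(1 ± σ) + (1-ρ)(1 ∓ σ) = 2 (1 ± ρσ)`.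
* `Gf_le`: `∏_{B} (θ+ρ) (1 + θ_i - (θ_i + ρ_i)) ≥ 0`, induction over `B`. -/

set_option autoImplicit false

open Finset

namespace Pool.MP322P

open Pool.MP322

/-- `θ`. -/
noncomputable def th2 (c : ℕ) : ℝ := if c = 3 then 1 / 2 else 1

noncomputable def Gf {ι : Type*} [DecidableEq ι] (r : Multiset ℕ → ℝ) (c : ι → ℕ)
    (B V : Finset ι) : ℝ :=
  ∑ S ∈ B.powerset, (∏ i ∈ B \ S, th2 (c i)) * r ((S ∪ V).val.map c)

/-- the general functional. -/
private noncomputable def EF {ι : Type} [DecidableEq ι] (B : Finset ι) (α β : ι → ℝ)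
    (R : Finset ι → ℝ) : ℝ :=
  ∑ S ∈ B.powerset, (∏ i ∈ S, β i) * (∏ i ∈ B \ S, α i) * R S

private theorem EF_insert {ι : Type} [DecidableEq ι] (B : Finset ι) (α β : ι → ℝ)
    (R : Finset ι → ℝ) {v : ι} (hv : v ∉ B) :
    EF (insert v B) α β R = EF B α β (fun S => α v * R S + β v * R (insert v S)) := by
  unfold EF
  rw [Finset.sum_powerset_insert hv, ← Finset.sum_add_distrib]
  refine Finset.sum_congr rfl fun S hS => ?_
  have hSB : S ⊆ B := Finset.mem_powerset.1 hS
  have hvS : v ∉ S := fun h => hv (hSB h)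
  have h1 : insert v B \ S = insert v (B \ S) := by
    ext x
    simp only [Finset.mem_sdiff, Finset.mem_insert]
    constructor
    · rintro ⟨h | h, h'⟩
      · exact Or.inl h
      · exact Or.inr ⟨h, h'⟩
    · rintro (h | ⟨h, h'⟩)
      · subst h; exact ⟨Or.inl rfl, hvS⟩
      · exact ⟨Or.inr h, h'⟩
  have h2 : insert v B \ insert v S = B \ S := by
    ext x
    simp only [Finset.mem_sdiff, Finset.mem_insert]
    constructor
    · rintro ⟨h | h, h'⟩
      · exact absurd (Or.inl h) h'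
      · exact ⟨h, fun h'' => h' (Or.inr h'')⟩
    · rintro ⟨h, h'⟩
      refine ⟨Or.inr h, ?_⟩
      rintro (h'' | h'')
      · subst h''; exact hv h
      · exact h' h''
  have h3 : v ∉ B \ S := fun h => hv (Finset.mem_sdiff.1 h).1
  rw [h1, h2, Finset.prod_insert h3, Finset.prod_insert hvS]
  ring

private theorem EF_congr {ι : Type} [DecidableEq ι] (B : Finset ι) (α β α' β' : ι → ℝ)
    (R R' : Finset ι → ℝ) (ha : ∀ i ∈ B, α i = α' i) (hb : ∀ i ∈ B, β i = β' i)
    (hR : ∀ S, S ⊆ B → R S = R' S) : EF B α β R = EF B α' β' R' := by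
  unfold EF
  refine Finset.sum_congr rfl fun S hS => ?_
  have hSB : S ⊆ B := Finset.mem_powerset.1 hS
  rw [Finset.prod_congr rfl (fun i hi => hb i (hSB hi)),
    Finset.prod_congr rfl (fun i hi => ha i (Finset.mem_sdiff.1 hi).1), hR S hSB]

private theorem EF_add {ι : Type} [DecidableEq ι] (B : Finset ι) (α β : ι → ℝ)
    (R R' : Finset ι → ℝ) : EF B α β R + EF B α β R' = EF B α β (fun S => R S + R' S) := by
  unfold EF
  rw [← Finset.sum_add_distrib]
  exact Finset.sum_congr rfl fun S _ => by ring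

private theorem EF_smul {ι : Type} [DecidableEq ι] (B : Finset ι) (α β : ι → ℝ) (a : ℝ)
    (R : Finset ι → ℝ) : EF B α β (fun S => a * R S) = a * EF B α β R := by
  unfold EF
  rw [Finset.mul_sum]
  exact Finset.sum_congr rfl fun S _ => by ring

/-- move one element `v` with the factor `1 + e ρ_v`. -/
private theorem EF_move {ι : Type} [DecidableEq ι] (B : Finset ι) (α β : ι → ℝ)
    (R : Finset ι → ℝ) {v : ι} (hv : v ∉ B) (a e : ℝ) :
    EF (insert v B) (fun i => if i = v then a else α i) (fun i => if i = v then e else β i) R =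
      EF B α β (fun S => a * R S + e * R (insert v S)) := by
  rw [EF_insert _ _ _ _ hv]
  have hne : ∀ i ∈ B, i ≠ v := fun i hi h => hv (h ▸ hi)
  refine EF_congr _ _ _ _ _ _ _ (fun i hi => ?_) (fun i hi => ?_) (fun S _ => ?_)
  · simp [hne i hi]
  · simp [hne i hi]
  · simp

private def Adm {ι : Type} (c : ι → ℕ) (B : Finset ι) (α β : ι → ℝ) : Prop :=
  (∀ i ∈ B, 2 ≤ c i) ∧ (∀ i ∈ B, |β i| ≤ α i ∨ (c i = 3 ∧ 0 ≤ β i ∧ β i ≤ 2 * α i))

private theorem Adm.insert {ι : Type} [DecidableEq ι] {c : ι → ℕ} {B : Finset ι} {α β : ι → ℝ}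
    (h : Adm c B α β) {v : ι} (hv : v ∉ B) (hc : 2 ≤ c v) {e : ℝ} (he : |e| ≤ 1) :
    Adm c (insert v B) (fun i => if i = v then 1 else α i) (fun i => if i = v then e else β i) := by
  have hne : ∀ i ∈ B, i ≠ v := fun i hi h => hv (h ▸ hi)
  constructor
  · intro i hi
    rcases Finset.mem_insert.1 hi with h' | h'
    · rw [h']; exact hc
    · exact h.1 i h'
  · intro i hi
    rcases Finset.mem_insert.1 hi with h' | h'
    · left; simp [h', he]
    · simpa [hne i h'] using h.2 i h'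

private theorem EF_nonneg {ι : Type} [DecidableEq ι] {k : ℕ} {r : Multiset ℕ → ℝ} (hr : PosR k r)
    {c : ι → ℕ} {B : Finset ι} {α β : ι → ℝ} (h : Adm c B α β) (hs : ∑ i ∈ B, c i ≤ k) :
    0 ≤ EF B α β (fun S => r (S.val.map c)) :=
  hr.2 ι B c α β h.1 hs h.2

private theorem EF_sign {ι : Type} [DecidableEq ι] {k : ℕ} {r : Multiset ℕ → ℝ} (hr : PosR k r)
    (c : ι → ℕ) (V : Finset ι) : ∀ (B : Finset ι) (α β : ι → ℝ), Adm c B α β → Disjoint B V →
      (∀ i ∈ V, 2 ≤ c i) → ∑ i ∈ B, c i + ∑ i ∈ V, c i ≤ k → ∀ σ : ℝ, σ = 1 ∨ σ = -1 →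
      0 ≤ EF B α β (fun S => r (S.val.map c) + σ * r ((S ∪ V).val.map c)) := by
  induction V using Finset.induction_on with
  | empty =>
    intro B α β hA _ _ hs σ hσ
    have h := EF_nonneg hr hA (by simpa using hs)
    have h1 : EF B α β (fun S => r (S.val.map c) + σ * r ((S ∪ ∅).val.map c)) =
        (1 + σ) * EF B α β (fun S => r (S.val.map c)) := by
      rw [← EF_smul]
      refine EF_congr _ _ _ _ _ _ _ (fun _ _ => rfl) (fun _ _ => rfl) (fun S _ => ?_)
      rw [Finset.union_empty]; ring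
    rw [h1]
    refine mul_nonneg ?_ h
    rcases hσ with h | h <;> rw [h] <;> norm_num
  | insert v V hv ih =>
    intro B α β hA hd hV hs σ hσ
    have hvB : v ∉ B := fun h => (Finset.disjoint_left.1 hd h) (Finset.mem_insert_self v V)
    have hcv : 2 ≤ c v := hV v (Finset.mem_insert_self v V)
    have hd' : Disjoint (insert v B) V := by
      rw [Finset.disjoint_insert_left]
      exact ⟨hv, hd.mono_right (Finset.subset_insert v V)⟩
    have hV' : ∀ i ∈ V, 2 ≤ c i := fun i hi => hV i (Finset.mem_insert_of_mem hi)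
    have hs' : ∑ i ∈ insert v B, c i + ∑ i ∈ V, c i ≤ k := by
      rw [Finset.sum_insert hv] at hs
      rw [Finset.sum_insert hvB]; omega
    have h1 := ih (insert v B) _ _ (hA.insert hvB hcv (e := 1) (by norm_num)) hd' hV' hs' σ hσ
    have h2 := ih (insert v B) _ _ (hA.insert hvB hcv (e := -1) (by norm_num)) hd' hV' hs' (-σ)
      (by rcases hσ with h | h <;> rw [h] <;> norm_num)
    rw [EF_move _ _ _ _ hvB] at h1 h2
    have h3 := add_nonneg h1 h2
    rw [EF_add] at h3
    have h4 : EF B α β (fun S => (1 * (r (S.val.map c) + σ * r ((S ∪ V).val.map c)) +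
        1 * (r ((insert v S).val.map c) + σ * r ((insert v S ∪ V).val.map c))) +
        (1 * (r (S.val.map c) + -σ * r ((S ∪ V).val.map c)) +
        -1 * (r ((insert v S).val.map c) + -σ * r ((insert v S ∪ V).val.map c)))) =
        2 * EF B α β (fun S => r (S.val.map c) + σ * r ((S ∪ insert v V).val.map c)) := by
      rw [← EF_smul]
      refine EF_congr _ _ _ _ _ _ _ (fun _ _ => rfl) (fun _ _ => rfl) (fun S _ => ?_)
      have : insert v S ∪ V = S ∪ insert v V := by
        rw [Finset.insert_union, Finset.union_insert]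
      rw [this]; ring
    rw [h4] at h3
    linarith

private theorem EF_sumV {ι : Type} [DecidableEq ι] {k : ℕ} {r : Multiset ℕ → ℝ} (hr : PosR k r)
    (c : ι → ℕ) (V : Finset ι) : ∀ (B : Finset ι) (α β : ι → ℝ), Adm c B α β → Disjoint B V →
      (∀ i ∈ V, 2 ≤ c i) → ∑ i ∈ B, c i + ∑ i ∈ V, c i ≤ k →
      0 ≤ ∑ W ∈ V.powerset, EF B α β (fun S => r ((S ∪ W).val.map c)) := by
  induction V using Finset.induction_on with
  | empty =>
    intro B α β hA _ _ hs
    have h := EF_nonneg hr hA (by simpa using hs)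
    simpa using h
  | insert v V hv ih =>
    intro B α β hA hd hV hs
    have hvB : v ∉ B := fun h => (Finset.disjoint_left.1 hd h) (Finset.mem_insert_self v V)
    have hcv : 2 ≤ c v := hV v (Finset.mem_insert_self v V)
    have hd' : Disjoint (insert v B) V := by
      rw [Finset.disjoint_insert_left]
      exact ⟨hv, hd.mono_right (Finset.subset_insert v V)⟩
    have hV' : ∀ i ∈ V, 2 ≤ c i := fun i hi => hV i (Finset.mem_insert_of_mem hi)
    have hs' : ∑ i ∈ insert v B, c i + ∑ i ∈ V, c i ≤ k := by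
      rw [Finset.sum_insert hv] at hs
      rw [Finset.sum_insert hvB]; omega
    have h1 := ih (insert v B) _ _ (hA.insert hvB hcv (e := 1) (by norm_num)) hd' hV' hs'
    refine h1.trans (le_of_eq ?_)
    rw [Finset.sum_powerset_insert hv, ← Finset.sum_add_distrib]
    refine Finset.sum_congr rfl fun W _ => ?_
    rw [EF_move _ _ _ _ hvB, EF_add]
    refine EF_congr _ _ _ _ _ _ _ (fun _ _ => rfl) (fun _ _ => rfl) (fun S _ => ?_)
    have : insert v S ∪ W = S ∪ insert v W := by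
      rw [Finset.insert_union, Finset.union_insert]
    rw [this]; ring

private theorem Gf_eq_EF {ι : Type} [DecidableEq ι] (r : Multiset ℕ → ℝ) (c : ι → ℕ)
    (B V : Finset ι) : Gf r c B V =
      EF B (fun i => th2 (c i)) (fun _ => 1) (fun S => r ((S ∪ V).val.map c)) := by
  unfold Gf EF
  refine Finset.sum_congr rfl fun S _ => ?_
  simp

private theorem adm_th2 {ι : Type} {c : ι → ℕ} {B : Finset ι}
    (hB : ∀ i ∈ B, c i = 2 ∨ c i = 3) : Adm c B (fun i => th2 (c i)) (fun _ => 1) := by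
  constructor
  · intro i hi
    rcases hB i hi with h | h <;> omega
  · intro i hi
    rcases hB i hi with h | h
    · left; simp [th2, h]
    · right
      refine ⟨h, by norm_num, ?_⟩
      simp [th2, h]

theorem Gf_abs_le {ι : Type} [DecidableEq ι] {k : ℕ} {r : Multiset ℕ → ℝ} (hr : PosR k r)
    (c : ι → ℕ) (B V : Finset ι) (hBV : Disjoint B V) (hB : ∀ i ∈ B, c i = 2 ∨ c i = 3)
    (hV : ∀ i ∈ V, 2 ≤ c i) (hs : ∑ i ∈ B, c i + ∑ i ∈ V, c i ≤ k) :
    |Gf r c B V| ≤ Gf r c B ∅ := by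
  have key : ∀ σ : ℝ, σ = 1 ∨ σ = -1 → 0 ≤ Gf r c B ∅ + σ * Gf r c B V := by
    intro σ hσ
    have h := EF_sign hr c V B _ _ (adm_th2 hB) hBV hV hs σ hσ
    have e : Gf r c B ∅ + σ * Gf r c B V = EF B (fun i => th2 (c i)) (fun _ => 1)
        (fun S => r (S.val.map c) + σ * r ((S ∪ V).val.map c)) := by
      rw [Gf_eq_EF, Gf_eq_EF, ← EF_smul, EF_add]
      refine EF_congr _ _ _ _ _ _ _ (fun _ _ => rfl) (fun _ _ => rfl) (fun S _ => ?_)
      rw [Finset.union_empty]
    rw [e]; exact h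
  have h1 := key 1 (Or.inl rfl)
  have h2 := key (-1) (Or.inr rfl)
  rw [abs_le]
  constructor <;> linarith

theorem Gf_le {ι : Type} [DecidableEq ι] {k : ℕ} {r : Multiset ℕ → ℝ} (hr : PosR k r)
    (c : ι → ℕ) (B : Finset ι) (hB : ∀ i ∈ B, c i = 2 ∨ c i = 3) (hs : ∑ i ∈ B, c i ≤ k) :
    0 ≤ Gf r c B ∅ ∧ Gf r c B ∅ ≤ ∏ i ∈ B, (1 + th2 (c i)) := by
  have e : ∀ B : Finset ι, Gf r c B ∅ = EF B (fun i => th2 (c i)) (fun _ => 1)
      (fun S => r (S.val.map c)) := by
    intro B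
    rw [Gf_eq_EF]
    refine EF_congr _ _ _ _ _ _ _ (fun _ _ => rfl) (fun _ _ => rfl) (fun S _ => ?_)
    rw [Finset.union_empty]
  refine ⟨by rw [e]; exact EF_nonneg hr (adm_th2 hB) hs, ?_⟩
  induction B using Finset.induction_on with
  | empty =>
    simp [Gf, hr.1]
  | insert v B hv ih =>
    have hB' : ∀ i ∈ B, c i = 2 ∨ c i = 3 := fun i hi => hB i (Finset.mem_insert_of_mem hi)
    have hs0 := hs
    rw [Finset.sum_insert hv] at hs
    have ih' := ih hB' (by omega)
    have hcv : 2 ≤ c v := by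
      rcases hB v (Finset.mem_insert_self v B) with h | h <;> omega
    have hth : 0 ≤ 1 + th2 (c v) := by
      unfold th2; split_ifs <;> norm_num
    have h1 := EF_nonneg hr ((adm_th2 hB').insert hv hcv (e := -1) (by norm_num)) hs0
    rw [EF_move _ _ _ _ hv] at h1
    have h2 : Gf r c (insert v B) ∅ + EF B (fun i => th2 (c i)) (fun _ => 1)
        (fun S => 1 * r (S.val.map c) + -1 * r ((insert v S).val.map c)) =
        (1 + th2 (c v)) * Gf r c B ∅ := by
      rw [e, e, EF_insert _ _ _ _ hv, EF_add, ← EF_smul]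
      refine EF_congr _ _ _ _ _ _ _ (fun _ _ => rfl) (fun _ _ => rfl) (fun S _ => ?_)
      ring
    rw [Finset.prod_insert hv]
    calc Gf r c (insert v B) ∅ ≤ (1 + th2 (c v)) * Gf r c B ∅ := by rw [← h2]; linarith
      _ ≤ (1 + th2 (c v)) * ∏ i ∈ B, (1 + th2 (c i)) := mul_le_mul_of_nonneg_left ih' hth

theorem Gf_sum_nonneg {ι : Type} [DecidableEq ι] {k : ℕ} {r : Multiset ℕ → ℝ} (hr : PosR k r)
    (c : ι → ℕ) (B V : Finset ι) (hBV : Disjoint B V) (hB : ∀ i ∈ B, c i = 2 ∨ c i = 3)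
    (hV : ∀ i ∈ V, 2 ≤ c i) (hs : ∑ i ∈ B, c i + ∑ i ∈ V, c i ≤ k) :
    0 ≤ ∑ W ∈ V.powerset, Gf r c B W := by
  have h := EF_sumV hr c V B _ _ (adm_th2 hB) hBV hV hs
  simp only [Gf_eq_EF]
  exact h

end Pool.MP322P
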