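import Mathlib

/-! job 322P-B3: the zero criterion for sequences.

Let `η = y/1000`, so `2 e_{j-1} ≤ η e_j` for `1 ≤ j ≤ k`, `e_0 ≥ 0`, hence `e_j ≥ 0` and
`2^c e_{j-c} ≤ η^c e_j`. For `T` and `G_T(j) = ∑_{S⊆T} (-1)^|S| 2^{c(S)} e_{j-c(S)}` one has
`G_{T∪{i}}(j) = G_T(j) - 2^{c_i} G_T(j - c_i)`; by induction on `T`:
`(1 - ∑_{i∈T} η^{c_i}) e_j ≤ G_T(j) ≤ e_j` for all `j ≤ k` (use `0 ≤ G_T`), where
`∑_{i∈T} η^{c_i} ≤ |T| η⁴ ≤ (m/4) η⁴ ≤ 1`. -/

set_option autoImplicit false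

open Finset

namespace Pool.MP322P

private noncomputable def GT {ι : Type*} [DecidableEq ι] (e : ℕ → ℝ) (c : ι → ℕ)
    (T : Finset ι) (j : ℕ) : ℝ :=
  ∑ S ∈ T.powerset, (-1) ^ S.card * ((2 : ℝ) ^ (∑ i ∈ S, c i) *
      (if ∑ i ∈ S, c i ≤ j then e (j - ∑ i ∈ S, c i) else 0))

private theorem GT_insert {ι : Type*} [DecidableEq ι] (e : ℕ → ℝ) (c : ι → ℕ)
    (T : Finset ι) (a : ι) (ha : a ∉ T) (j : ℕ) :
    GT e c (insert a T) j = GT e c T j - (2 : ℝ) ^ c a *
      (if c a ≤ j then GT e c T (j - c a) else 0) := by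
  unfold GT
  rw [Finset.sum_powerset_insert ha, sub_eq_add_neg]
  congr 1
  by_cases h : c a ≤ j
  · rw [if_pos h, Finset.mul_sum, ← Finset.sum_neg_distrib]
    refine Finset.sum_congr rfl fun S hS => ?_
    rw [Finset.mem_powerset] at hS
    have haS : a ∉ S := fun h => ha (hS h)
    rw [Finset.card_insert_of_notMem haS, Finset.sum_insert haS]
    by_cases h2 : ∑ i ∈ S, c i ≤ j - c a
    · rw [if_pos h2, if_pos (by omega), pow_add, pow_succ, Nat.sub_sub]
      ring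
    · rw [if_neg h2, if_neg (by omega)]
      simp
  · rw [if_neg h, mul_zero, neg_zero]
    refine Finset.sum_eq_zero fun S hS => ?_
    rw [Finset.mem_powerset] at hS
    have haS : a ∉ S := fun h => ha (hS h)
    rw [Finset.sum_insert haS, if_neg (by omega)]
    simp

theorem crit_alt (e : ℕ → ℝ) (k y m : ℕ) (he0 : 0 < e 0)
    (hcrit : ∀ j, 1 ≤ j → j ≤ k → 2000 * e (j - 1) ≤ (y : ℝ) * e j) (hy : y ≤ 1000)
    (hm : m * y ^ 4 ≤ 4 * 1000 ^ 4) {ι : Type*} [DecidableEq ι] (T : Finset ι) (c : ι → ℕ)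
    (h4 : ∀ i ∈ T, 4 ≤ c i) (hs : ∑ i ∈ T, c i ≤ m) (j : ℕ) (hj : j ≤ k) :
    0 ≤ ∑ S ∈ T.powerset, (-1) ^ S.card * ((2 : ℝ) ^ (∑ i ∈ S, c i) *
      (if ∑ i ∈ S, c i ≤ j then e (j - ∑ i ∈ S, c i) else 0)) := by
  set η : ℝ := (y : ℝ) / 1000 with hη
  have hη0 : 0 ≤ η := by positivity
  have hη1 : η ≤ 1 := by
    rw [hη, div_le_one (by norm_num)]
    exact_mod_cast hy
  have hyη : (y : ℝ) = 1000 * η := by rw [hη]; ring
  -- positivity
  have hpos : ∀ j, j ≤ k → 0 < e j := by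
    intro j
    induction j with
    | zero => intro _; exact he0
    | succ j ih =>
      intro hj1
      have h1 := ih (by omega)
      have h2 := hcrit (j + 1) (by omega) hj1
      rw [Nat.add_sub_cancel] at h2
      by_contra h3
      rw [not_lt] at h3
      have h4 : (y : ℝ) * e (j + 1) ≤ 0 := mul_nonpos_of_nonneg_of_nonpos (by positivity) h3
      linarith
  -- steps
  have hstep : ∀ c j, j ≤ k → c ≤ j → (2 : ℝ) ^ c * e (j - c) ≤ η ^ c * e j := by
    intro c
    induction c with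
    | zero => intro j _ _; simp
    | succ c ih =>
      intro j hjk hcj
      have h1 := ih (j - 1) (by omega) (by omega)
      have h2 := hcrit j (by omega) hjk
      rw [hyη] at h2
      have h3 : j - 1 - c = j - (c + 1) := by omega
      rw [h3] at h1
      have h4 : 0 ≤ η ^ c := pow_nonneg hη0 c
      have h5 : η ^ c * (2 * e (j - 1)) ≤ η ^ c * (η * e j) :=
        mul_le_mul_of_nonneg_left (by linarith) h4
      rw [pow_succ, pow_succ]
      nlinarith
  -- main induction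
  have main : ∀ T : Finset ι, ∑ i ∈ T, η ^ c i ≤ 1 → ∀ j, j ≤ k →
      (1 - ∑ i ∈ T, η ^ c i) * e j ≤ GT e c T j ∧ GT e c T j ≤ e j := by
    intro T
    induction T using Finset.induction_on with
    | empty =>
      intro _ j _
      simp [GT]
    | insert a T ha ih =>
      intro hsum j hjk
      rw [Finset.sum_insert ha] at hsum ⊢
      have hηa : 0 ≤ η ^ c a := pow_nonneg hη0 _
      have hsum' : ∑ i ∈ T, η ^ c i ≤ 1 := by linarith
      obtain ⟨h1, h2⟩ := ih hsum' j hjk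
      rw [GT_insert e c T a ha j]
      have hej := hpos j hjk
      by_cases h : c a ≤ j
      · rw [if_pos h]
        obtain ⟨h3, h4⟩ := ih hsum' (j - c a) (by omega)
        have h5 := hpos (j - c a) (by omega)
        have h6 := hstep (c a) j hjk h
        have h7 : (0 : ℝ) < 2 ^ c a := by positivity
        have h8 : 0 ≤ GT e c T (j - c a) :=
          le_trans (mul_nonneg (by linarith) h5.le) h3
        constructor
        · have h9 : (2 : ℝ) ^ c a * GT e c T (j - c a) ≤ 2 ^ c a * e (j - c a) :=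
            mul_le_mul_of_nonneg_left h4 h7.le
          nlinarith
        · have h9 : 0 ≤ (2 : ℝ) ^ c a * GT e c T (j - c a) := mul_nonneg h7.le h8
          linarith
      · rw [if_neg h, mul_zero, sub_zero]
        refine ⟨?_, h2⟩
        have : 0 ≤ η ^ c a * e j := mul_nonneg hηa hej.le
        nlinarith
  have hsumT : ∑ i ∈ T, η ^ c i ≤ 1 := by
    have h1 : ∑ i ∈ T, η ^ c i ≤ ∑ _i ∈ T, η ^ 4 :=
      Finset.sum_le_sum fun i hi => pow_le_pow_of_le_one hη0 hη1 (h4 i hi)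
    have h2 : 4 * T.card ≤ m := by
      calc 4 * T.card = ∑ _i ∈ T, 4 := by rw [Finset.sum_const, smul_eq_mul, mul_comm]
        _ ≤ ∑ i ∈ T, c i := Finset.sum_le_sum h4
        _ ≤ m := hs
    rw [Finset.sum_const, nsmul_eq_mul] at h1
    have h3 : (4 * (T.card : ℝ)) ≤ (m : ℝ) := by exact_mod_cast h2
    have h4 : (m : ℝ) * (y : ℝ) ^ 4 ≤ 4 * 1000 ^ 4 := by exact_mod_cast hm
    have h5 : η ^ 4 = (y : ℝ) ^ 4 / 1000 ^ 4 := by rw [hη, div_pow]
    have h6 : 0 ≤ (y : ℝ) ^ 4 := by positivity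
    have h7 : 4 * (T.card : ℝ) * (y : ℝ) ^ 4 ≤ 4 * 1000 ^ 4 :=
      le_trans (mul_le_mul_of_nonneg_right h3 h6) h4
    refine le_trans h1 ?_
    rw [h5, mul_div_assoc', div_le_one (by norm_num)]
    linarith
  have hfin := (main T hsumT j hj).1
  have h0 : 0 ≤ GT e c T j := le_trans (mul_nonneg (by linarith) (hpos j hj).le) hfin
  exact h0

end Pool.MP322P
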