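import Pool.Agent.Lib.MP_322c5f_alP.PB01
import Pool.Agent.Lib.MP_322c5f_alP.PB02
import Pool.Agent.Lib.MP_322c5f_alP.PB03

/-! job 322P-B4: the expansion and the bound for one set `B`.

Write `P` = cycles of length 2 and 3, `U` = the others. By `ps_expand` (with `Z_i = (2X)^{c i}`,
`θ = th2 (c i)`; `1 - θ Z = 1 - 4X²` resp. `1 - 4X³`) the coefficient of `X^k` is
`psV = ∑_{B⊆P} 4^b 8^d ∑_{V⊆U} Gf(B;V) 2^{c(V)} eC F (a-b) (t-d) (k-2b-3d) c(V)`.
* term `B` with `Crit` : it is `≥ 0` by `sum_mul_moebius`, `crit_alt` (with `j = k - c(B)`) and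
  `Gf_sum_nonneg` (terms with `c(S) > j` vanish);
* other terms: `-term ≤ 4^b 8^d Gf(B;∅) (∑_V 2^{c(V)} |e_{j-c(V)}| - max(0,e_j))` and
  `Gf(B;∅) ≤ 2^b (3/2)^d`; `∑_V 2^{c(V)} |e_{j - c(V)}| = ∑_i (wP ρ)_i |e_{j-i}|`. -/

set_option autoImplicit false

open Finset Polynomial

namespace Pool.MP322P

open Pool.MP322

private theorem wP_coeff_nonneg (ρ : Multiset ℕ) : ∀ i, 0 ≤ (wP ρ).coeff i := by
  induction ρ using Multiset.induction_on with
  | empty =>
    intro i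
    simp only [wP, Multiset.map_zero, Multiset.prod_zero, coeff_one]
    split_ifs <;> norm_num
  | cons c ρ ih =>
    intro i
    have h1 : wP (c ::ₘ ρ) = wP ρ + C (2 ^ c) * (wP ρ * X ^ c) := by
      unfold wP
      rw [Multiset.map_cons, Multiset.prod_cons, mul_pow]
      have : (2 : ℤ[X]) ^ c = C (2 ^ c) := by simp
      rw [this]
      ring
    rw [h1, coeff_add, coeff_C_mul, coeff_mul_X_pow']
    have h2 := ih i
    split_ifs with h
    · have h3 := ih (i - c)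
      positivity
    · simpa using h2

private theorem wP_coeff_zero (ρ : Multiset ℕ) (hρ : ∀ c ∈ ρ, 4 ≤ c) : (wP ρ).coeff 0 = 1 := by
  induction ρ using Multiset.induction_on with
  | empty => simp [wP]
  | cons c ρ ih =>
    have h1 : wP (c ::ₘ ρ) = wP ρ + C (2 ^ c) * (wP ρ * X ^ c) := by
      unfold wP
      rw [Multiset.map_cons, Multiset.prod_cons, mul_pow]
      have : (2 : ℤ[X]) ^ c = C (2 ^ c) := by simp
      rw [this]
      ring
    have h4 : 4 ≤ c := hρ c (Multiset.mem_cons_self c ρ)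
    rw [h1, coeff_add, coeff_C_mul, coeff_mul_X_pow', ih fun b hb => hρ b
      (Multiset.mem_cons_of_mem hb), if_neg (by omega)]
    ring

theorem lamC_nonneg (ρ : Multiset ℕ) (hρ : ∀ c ∈ ρ, 4 ≤ c) (F a t j : ℕ) :
    0 ≤ lamC ρ F a t j := by
  unfold lamC
  rw [Finset.sum_range_succ']
  have h1 : 0 ≤ ∑ i ∈ range j, (wP ρ).coeff (i + 1) * |(eP F a t).coeff (j - (i + 1))| :=
    Finset.sum_nonneg fun i _ => mul_nonneg (wP_coeff_nonneg ρ _) (abs_nonneg _)
  rw [wP_coeff_zero ρ hρ, one_mul, Nat.sub_zero]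
  have h2 : max 0 ((eP F a t).coeff j) ≤ |(eP F a t).coeff j| :=
    max_le (abs_nonneg _) (le_abs_self _)
  linarith

theorem PhiC_nonneg (yl : ℕ → ℕ) (a t : ℕ) (ρ : Multiset ℕ) (hρ : ∀ c ∈ ρ, 4 ≤ c) (F k : ℕ) :
    0 ≤ PhiC yl a t ρ F k := by
  unfold PhiC
  refine Finset.sum_nonneg fun b _ => Finset.sum_nonneg fun d _ => ?_
  split_ifs with h
  · exact mul_nonneg (by positivity) (lamC_nonneg ρ hρ F _ _ _)
  · exact le_refl _

private noncomputable def eR (F a t : ℕ) : ℝ[X] :=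
  (1 - 2 * X) * (1 + 2 * X) ^ F * (1 - 4 * X ^ 2) ^ a * (1 - 4 * X ^ 3) ^ t

private theorem eC_cast (F a t k s : ℕ) :
    ((eC F a t k s : ℤ) : ℝ) = if s ≤ k then (eR F a t).coeff (k - s) else 0 := by
  have h : (eP F a t).map (Int.castRingHom ℝ) = eR F a t := by
    simp [eP, eR]
  unfold eC
  split_ifs
  · rw [← h, Polynomial.coeff_map]
    simp
  · simp

private theorem key (F a t k s : ℕ) :
    (eR F a t * (2 * X) ^ s).coeff k = 2 ^ s * ((eC F a t k s : ℤ) : ℝ) := by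
  rw [eC_cast]
  have : (2 * X : ℝ[X]) ^ s = C (2 ^ s) * X ^ s := by
    rw [mul_pow, C_pow]
    rfl
  rw [this, mul_comm (C _), ← mul_assoc, coeff_mul_C, coeff_mul_X_pow']
  split_ifs <;> ring

private theorem eR_prod {ι : Type} [DecidableEq ι] (D : Finset ι) (c : ι → ℕ)
    (hD : ∀ i ∈ D, c i = 2 ∨ c i = 3) (F : ℕ) :
    eR F 0 0 * ∏ i ∈ D, (1 - C (th2 (c i)) * (2 * X : ℝ[X]) ^ c i) =
      eR F (D.filter (fun i => c i = 2)).card (D.filter (fun i => c i = 3)).card := by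
  have h1 : ∏ i ∈ D, (1 - C (th2 (c i)) * (2 * X : ℝ[X]) ^ c i) =
      (1 - 4 * X ^ 2) ^ (D.filter (fun i => c i = 2)).card *
        (1 - 4 * X ^ 3) ^ (D.filter (fun i => c i = 3)).card := by
    rw [← Finset.prod_filter_mul_prod_filter_not D (fun i => c i = 2)]
    congr 1
    · rw [← Finset.prod_const]
      refine Finset.prod_congr rfl fun i hi => ?_
      have h2 : c i = 2 := (Finset.mem_filter.mp hi).2
      rw [h2, th2, if_neg (by norm_num), C_1]
      ring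
    · have h3 : D.filter (fun i => ¬ c i = 2) = D.filter (fun i => c i = 3) := by
        refine Finset.filter_congr fun i hi => ?_
        rcases hD i hi with h | h <;> simp [h]
      rw [h3, ← Finset.prod_const]
      refine Finset.prod_congr rfl fun i hi => ?_
      have h2 : c i = 3 := (Finset.mem_filter.mp hi).2
      rw [h2, th2, if_pos rfl]
      have h4 : (C (1 / 2 : ℝ) : ℝ[X]) * 2 = 1 := by
        have : (2 : ℝ[X]) = C 2 := rfl
        rw [this, ← C_mul]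
        norm_num
      linear_combination (-4 * X ^ 3 : ℝ[X]) * h4
  rw [h1, eR, eR, pow_zero, pow_zero]
  ring

/-- the expansion. -/
theorem psV_expand {ι : Type} [DecidableEq ι] (P U : Finset ι) (hPU : Disjoint P U)
    (c : ι → ℕ) (hP : ∀ i ∈ P, c i = 2 ∨ c i = 3) (F k : ℕ) (r : Multiset ℕ → ℝ) :
    psV (P ∪ U) c F k r = ∑ B ∈ P.powerset, ∑ V ∈ U.powerset,
      Gf r c B V * 2 ^ (∑ i ∈ B, c i) * 2 ^ (∑ i ∈ V, c i) *
        (eC F ((P \ B).filter (fun i => c i = 2)).card ((P \ B).filter (fun i => c i = 3)).card k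
          (∑ i ∈ B, c i + ∑ i ∈ V, c i) : ℝ) := by
  have h1 : psV (P ∪ U) c F k r = (eR F 0 0 * ∑ S ∈ (P ∪ U).powerset,
      C (r (S.val.map c)) * ∏ i ∈ S, (2 * X : ℝ[X]) ^ c i).coeff k := by
    rw [Finset.mul_sum, finsetSum_coeff]
    unfold psV
    refine Finset.sum_congr rfl fun S _ => ?_
    rw [mul_left_comm, coeff_C_mul, Finset.prod_pow_eq_pow_sum, key]
    ring
  rw [h1, ps_expand P U hPU (fun S => C (r (S.val.map c))) (fun i => (2 * X : ℝ[X]) ^ c i)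
    (fun i => C (th2 (c i))), Finset.mul_sum, finsetSum_coeff]
  refine Finset.sum_congr rfl fun B _ => ?_
  rw [Finset.mul_sum, finsetSum_coeff]
  refine Finset.sum_congr rfl fun V _ => ?_
  have h2 : (∑ S ∈ B.powerset, (∏ i ∈ B \ S, C (th2 (c i))) *
      C (r ((S ∪ V).val.map c)) : ℝ[X]) = C (Gf r c B V) := by
    unfold Gf
    rw [map_sum]
    refine Finset.sum_congr rfl fun S _ => ?_
    rw [C_mul, map_prod]
  rw [h2, Finset.prod_pow_eq_pow_sum, Finset.prod_pow_eq_pow_sum]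
  have h3 : eR F 0 0 * (C (Gf r c B V) * (2 * X : ℝ[X]) ^ (∑ i ∈ B, c i) *
      (∏ i ∈ P \ B, (1 - C (th2 (c i)) * (2 * X : ℝ[X]) ^ c i)) *
        (2 * X : ℝ[X]) ^ (∑ i ∈ V, c i)) =
      C (Gf r c B V) * ((eR F 0 0 * ∏ i ∈ P \ B, (1 - C (th2 (c i)) * (2 * X : ℝ[X]) ^ c i)) *
        (2 * X : ℝ[X]) ^ (∑ i ∈ B, c i + ∑ i ∈ V, c i)) := by
    rw [pow_add]
    ring
  rw [h3, eR_prod (P \ B) c (fun i hi => hP i (Finset.mem_sdiff.mp hi).1) F, coeff_C_mul, key,
    pow_add]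
  ring

end Pool.MP322P
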