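import Pool.Agent.Lib.MP_322c5f_alP.PB04

/-! job 322P-B4b: the bound for one set `B`.

Write `P` = cycles of length 2 and 3, `U` = the others. By `ps_expand` (with `Z_i = (2X)^{c i}`,
`θ = th2 (c i)`; `1 - θ Z = 1 - 4X²` resp. `1 - 4X³`) the coefficient of `X^k` is
`psV = ∑_{B⊆P} 4^b 8^d ∑_{V⊆U} Gf(B;V) 2^{c(V)} eC F (a-b) (t-d) (k-2b-3d) c(V)`.
* term `B` with `Crit` : it is `≥ 0` by `sum_mul_moebius`, `crit_alt` (with `j = k - c(B)`) and
  `Gf_sum_nonneg` (terms with `c(S) > j` vanish);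
* other terms: `-term ≤ 4^b 8^d Gf(B;∅) (∑_V 2^{c(V)} |e_{j-c(V)}| - max(0,e_j))` and
  `Gf(B;∅) ≤ 2^b (3/2)^d`; `∑_V 2^{c(V)} |e_{j - c(V)}| = ∑_i (wP ρ)_i |e_{j-i}|`. -/

set_option autoImplicit false

open Finset Polynomial

namespace Pool.MP322P

open Pool.MP322

private theorem wP_eq {ι : Type} [DecidableEq ι] (c : ι → ℕ) (U : Finset ι) :
    wP (U.val.map c) = ∑ V ∈ U.powerset, (2 * X : ℤ[X]) ^ (∑ i ∈ V, c i) := by
  unfold wP
  rw [Multiset.map_map]
  have h1 : (Multiset.map ((fun c => 1 + (2 * X : ℤ[X]) ^ c) ∘ c) U.val).prod =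
      ∏ i ∈ U, (1 + (2 * X : ℤ[X]) ^ c i) := rfl
  rw [h1, Finset.prod_one_add]
  refine Finset.sum_congr rfl fun V _ => ?_
  rw [Finset.prod_pow_eq_pow_sum]

private theorem wP_coeff {ι : Type} [DecidableEq ι] (c : ι → ℕ) (U : Finset ι) (n : ℕ) :
    (wP (U.val.map c)).coeff n =
      ∑ V ∈ U.powerset, if ∑ i ∈ V, c i = n then (2 : ℤ) ^ n else 0 := by
  rw [wP_eq, Polynomial.finsetSum_coeff]
  refine Finset.sum_congr rfl fun V _ => ?_
  have h1 : ((2 * X : ℤ[X]) ^ (∑ i ∈ V, c i)) = C ((2 : ℤ) ^ (∑ i ∈ V, c i)) *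
      X ^ (∑ i ∈ V, c i) := by
    rw [mul_pow, map_pow]
    rfl
  rw [h1, Polynomial.coeff_C_mul, Polynomial.coeff_X_pow]
  by_cases h : ∑ i ∈ V, c i = n
  · rw [if_pos h, if_pos h.symm, mul_one, h]
  · rw [if_neg h, if_neg (Ne.symm h), mul_zero]

private theorem sum_abs_eC {ι : Type} [DecidableEq ι] (c : ι → ℕ) (U : Finset ι)
    (F a t j : ℕ) :
    ∑ i ∈ range (j + 1), (wP (U.val.map c)).coeff i * |(eP F a t).coeff (j - i)| =
      ∑ V ∈ U.powerset, (2 : ℤ) ^ (∑ i ∈ V, c i) * |eC F a t j (∑ i ∈ V, c i)| := by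
  have h1 : ∀ i ∈ range (j + 1),
      (wP (U.val.map c)).coeff i * |(eP F a t).coeff (j - i)| =
      ∑ V ∈ U.powerset, (if ∑ l ∈ V, c l = i then (2 : ℤ) ^ i * |(eP F a t).coeff (j - i)|
        else 0) := by
    intro i _
    rw [wP_coeff, Finset.sum_mul]
    refine Finset.sum_congr rfl fun V _ => ?_
    split_ifs
    · rfl
    · rw [zero_mul]
  rw [Finset.sum_congr rfl h1, Finset.sum_comm]
  refine Finset.sum_congr rfl fun V _ => ?_
  unfold eC
  by_cases h : ∑ i ∈ V, c i ≤ j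
  · rw [if_pos h, Finset.sum_ite_eq, if_pos (Finset.mem_range.2 (Nat.lt_succ_of_le h))]
  · rw [if_neg h, abs_zero, mul_zero]
    refine Finset.sum_eq_zero fun i hi => ?_
    rw [Finset.mem_range] at hi
    rw [if_neg]
    omega

/-- one set `B`, general bound. -/
theorem term_bound {ι : Type} [DecidableEq ι] {k : ℕ} {r : Multiset ℕ → ℝ} (hr : PosR k r)
    (c : ι → ℕ) (B U : Finset ι) (hBU : Disjoint B U) (hB : ∀ i ∈ B, c i = 2 ∨ c i = 3)
    (hU : ∀ i ∈ U, 4 ≤ c i) (F a t j : ℕ) (hj : ∑ i ∈ B, c i + j = k) :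
    -(∑ V ∈ U.powerset, Gf r c B V * 2 ^ (∑ i ∈ V, c i) * (eC F a t j (∑ i ∈ V, c i) : ℝ)) ≤
      (∏ i ∈ B, (1 + th2 (c i))) * (lamC (U.val.map c) F a t j : ℝ) := by
  obtain ⟨hG0, hG1⟩ := Gf_le hr c B hB (by omega)
  have hlam := lamC_nonneg (U.val.map c) (by
    intro x hx
    rw [Multiset.mem_map] at hx
    obtain ⟨i, hi, rfl⟩ := hx
    exact hU i hi) F a t j
  have hlam' : (0 : ℝ) ≤ (lamC (U.val.map c) F a t j : ℝ) := by exact_mod_cast hlam
  refine le_trans ?_ (mul_le_mul_of_nonneg_right hG1 hlam')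
  -- termwise bound
  have hterm : ∀ V ∈ U.powerset,
      -(Gf r c B V * 2 ^ (∑ i ∈ V, c i) * (eC F a t j (∑ i ∈ V, c i) : ℝ)) ≤
      Gf r c B ∅ * ((2 : ℝ) ^ (∑ i ∈ V, c i) * |(eC F a t j (∑ i ∈ V, c i) : ℝ)| -
        (if V = ∅ then (max 0 ((eP F a t).coeff j) : ℤ) else 0 : ℤ)) := by
    intro V hV
    rw [Finset.mem_powerset] at hV
    by_cases hV0 : V = ∅
    · subst hV0
      rw [if_pos rfl, Finset.sum_empty, pow_zero, mul_one, one_mul]
      have he : eC F a t j 0 = (eP F a t).coeff j := by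
        unfold eC
        rw [if_pos (Nat.zero_le _), Nat.sub_zero]
      rw [he]
      push_cast
      rw [← mul_neg]
      refine mul_le_mul_of_nonneg_left ?_ hG0
      rcases le_total (0 : ℝ) ((eP F a t).coeff j : ℝ) with h | h
      · rw [abs_of_nonneg h, max_eq_right h]
        linarith
      · rw [abs_of_nonpos h, max_eq_left h]
        linarith
    · rw [if_neg hV0, Int.cast_zero, sub_zero]
      by_cases hc : ∑ i ∈ V, c i ≤ j
      · have hab := Gf_abs_le hr c B V (Finset.disjoint_of_subset_right hV hBU) hB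
          (fun i hi => le_trans (by norm_num) (hU i (hV hi))) (by omega)
        have hpow : (0 : ℝ) ≤ (2 : ℝ) ^ (∑ i ∈ V, c i) := by positivity
        calc -(Gf r c B V * 2 ^ (∑ i ∈ V, c i) * (eC F a t j (∑ i ∈ V, c i) : ℝ))
            ≤ |Gf r c B V * 2 ^ (∑ i ∈ V, c i) * (eC F a t j (∑ i ∈ V, c i) : ℝ)| :=
              neg_le_abs _
          _ = |Gf r c B V| * (2 ^ (∑ i ∈ V, c i) * |(eC F a t j (∑ i ∈ V, c i) : ℝ)|) := by
              rw [abs_mul, abs_mul, abs_of_nonneg hpow, mul_assoc]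
          _ ≤ Gf r c B ∅ * (2 ^ (∑ i ∈ V, c i) * |(eC F a t j (∑ i ∈ V, c i) : ℝ)|) :=
              mul_le_mul_of_nonneg_right hab (by positivity)
      · have he : eC F a t j (∑ i ∈ V, c i) = 0 := by
          unfold eC
          rw [if_neg hc]
        rw [he]
        simp
  rw [← Finset.sum_neg_distrib]
  refine le_trans (Finset.sum_le_sum hterm) ?_
  rw [← Finset.mul_sum]
  refine mul_le_mul_of_nonneg_left ?_ hG0
  rw [Finset.sum_sub_distrib]
  unfold lamC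
  rw [sum_abs_eC]
  push_cast
  refine sub_le_sub_left ?_ _
  have h0 : ∑ V ∈ U.powerset, (if V = ∅ then max 0 (((eP F a t).coeff j : ℤ) : ℝ) else 0)
      = max 0 (((eP F a t).coeff j : ℤ) : ℝ) := by
    rw [Finset.sum_eq_single ∅]
    · rw [if_pos rfl]
    · intro V _ hV
      rw [if_neg hV]
    · intro h
      exact absurd (Finset.empty_mem_powerset U) h
  rw [h0]

/-- one set `B`, zero criterion. -/
theorem term_crit {ι : Type} [DecidableEq ι] {k : ℕ} {r : Multiset ℕ → ℝ} (hr : PosR k r)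
    (c : ι → ℕ) (B U : Finset ι) (hBU : Disjoint B U) (hB : ∀ i ∈ B, c i = 2 ∨ c i = 3)
    (hU : ∀ i ∈ U, 4 ≤ c i) (F a t j y m : ℕ) (hj : ∑ i ∈ B, c i + j = k) (hy : y ≤ 1000)
    (hm : m * y ^ 4 ≤ 4 * 1000 ^ 4) (hUm : ∑ i ∈ U, c i ≤ m) (hC : Crit F a t y k) :
    0 ≤ ∑ V ∈ U.powerset, Gf r c B V * 2 ^ (∑ i ∈ V, c i) *
      (eC F a t j (∑ i ∈ V, c i) : ℝ) := by
  have h1 : ∑ V ∈ U.powerset, Gf r c B V * 2 ^ (∑ i ∈ V, c i) *
      (eC F a t j (∑ i ∈ V, c i) : ℝ) =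
      ∑ V ∈ U.powerset, Gf r c B V * ((2 : ℝ) ^ (∑ i ∈ V, c i) *
      (eC F a t j (∑ i ∈ V, c i) : ℝ)) :=
    Finset.sum_congr rfl fun V _ => mul_assoc _ _ _
  rw [h1, sum_mul_moebius U (fun V => Gf r c B V)
    (fun V => (2 : ℝ) ^ (∑ i ∈ V, c i) * (eC F a t j (∑ i ∈ V, c i) : ℝ))]
  refine Finset.sum_nonneg fun S hS => ?_
  rw [Finset.mem_powerset] at hS
  by_cases hc : ∑ i ∈ S, c i ≤ j
  · refine mul_nonneg ?_ ?_
    · have h2 : ∀ T ∈ (U \ S).powerset, (-1 : ℝ) ^ T.card *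
          ((2 : ℝ) ^ (∑ i ∈ S ∪ T, c i) * (eC F a t j (∑ i ∈ S ∪ T, c i) : ℝ)) =
          (2 : ℝ) ^ (∑ i ∈ S, c i) * ((-1 : ℝ) ^ T.card * ((2 : ℝ) ^ (∑ i ∈ T, c i) *
            (if ∑ i ∈ T, c i ≤ j - ∑ i ∈ S, c i then
              (((eP F a t).coeff (j - ∑ i ∈ S, c i - ∑ i ∈ T, c i) : ℤ) : ℝ) else 0))) := by
        intro T hT
        rw [Finset.mem_powerset] at hT
        have hd : Disjoint S T :=
          Finset.disjoint_of_subset_right hT Finset.disjoint_sdiff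
        rw [Finset.sum_union hd]
        unfold eC
        by_cases h : ∑ i ∈ T, c i ≤ j - ∑ i ∈ S, c i
        · rw [if_pos h, if_pos (by omega), Nat.sub_sub, pow_add]
          ring
        · rw [if_neg h, if_neg (by omega)]
          simp
      rw [Finset.sum_congr rfl h2, ← Finset.mul_sum]
      refine mul_nonneg (by positivity) ?_
      have h3 := crit_alt (fun n => (((eP F a t).coeff n : ℤ) : ℝ)) k y m (by
        show (0 : ℝ) < (((eP F a t).coeff 0 : ℤ) : ℝ)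
        have h4 : (eP F a t).coeff 0 = 1 := by
          rw [Polynomial.coeff_zero_eq_eval_zero]
          simp [eP]
        rw [h4]
        norm_num) (by
        intro i hi1 hik
        have := hC i hi1 hik
        exact_mod_cast this) hy hm (U \ S) c
        (fun i hi => hU i (Finset.sdiff_subset hi))
        (le_trans (Finset.sum_le_sum_of_subset Finset.sdiff_subset) hUm)
        (j - ∑ i ∈ S, c i) (by omega)
      exact h3
    · exact Gf_sum_nonneg hr c B S (Finset.disjoint_of_subset_right hS hBU) hB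
        (fun i hi => le_trans (by norm_num) (hU i (hS hi))) (by omega)
  · have h2 : ∑ T ∈ (U \ S).powerset, (-1 : ℝ) ^ T.card *
          ((2 : ℝ) ^ (∑ i ∈ S ∪ T, c i) * (eC F a t j (∑ i ∈ S ∪ T, c i) : ℝ)) = 0 := by
      refine Finset.sum_eq_zero fun T hT => ?_
      have h3 : ∑ i ∈ S, c i ≤ ∑ i ∈ S ∪ T, c i :=
        Finset.sum_le_sum_of_subset Finset.subset_union_left
      have he : eC F a t j (∑ i ∈ S ∪ T, c i) = 0 := by
        unfold eC
        rw [if_neg (by omega)]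
      rw [he]
      simp
    rw [h2, zero_mul]

end Pool.MP322P
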