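import Pool.Agent.Lib.MP_322c5f_alP.PA01
import Pool.Agent.Lib.MP_322c5f_alP.PB04b

/-! job 322P-B5: the bound for one class (assembly of PB04: `psV_expand`, `term_bound`,
`term_crit`, `sum_powerset_card2`) and the weights of level `L`.

`I = P ∪ U`, `P` = cycles of length 2 or 3, `U` = cycles of length `≥ 4`; for `B ⊆ P` with `b`
2-cycles and `d` 3-cycles: `k < 2b+3d` gives only zero coefficients; otherwise apply `term_crit` if
`Crit F (a-b) (t-d) (yl (ρ.sum + 2b + 3d)) k` and `term_bound` if not;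
`2^{c(B)} ∏_B (1+θ) = 8^b 12^d`. -/

set_option autoImplicit false

open Finset Polynomial

namespace Pool.MP322P

open Pool.MP322

private theorem filter2_card {ι : Type} [DecidableEq ι] (I : Finset ι) (c : ι → ℕ) (m : ℕ) :
    (I.val.map c).count m = (I.filter (fun i => c i = m)).card := by
  rw [Multiset.count_map, Finset.card_def, Finset.filter_val]
  congr 1
  refine Multiset.filter_congr fun i _ => ?_
  exact eq_comm

private theorem rho_map {ι : Type} [DecidableEq ι] (I : Finset ι) (c : ι → ℕ) :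
    rho (I.val.map c) = (I.filter (fun i => 4 ≤ c i)).val.map c := by
  unfold rho
  rw [Multiset.filter_map, Finset.filter_val]
  rfl

private theorem sum_B {ι : Type} [DecidableEq ι] (P2 P3 B : Finset ι) (c : ι → ℕ)
    (h2 : ∀ i ∈ P2, c i = 2) (h3 : ∀ i ∈ P3, c i = 3) (hB : B ⊆ P2 ∪ P3) :
    ∑ i ∈ B, c i = 2 * (B ∩ P2).card + 3 * (B ∩ P3).card := by
  have hd : Disjoint (B ∩ P2) (B ∩ P3) := by
    rw [Finset.disjoint_left]
    intro i hi hi'
    have e1 := h2 i (Finset.mem_inter.1 hi).2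
    have e2 := h3 i (Finset.mem_inter.1 hi').2
    omega
  have hU : B = (B ∩ P2) ∪ (B ∩ P3) := by
    rw [← Finset.inter_union_distrib_left, Finset.inter_eq_left.2 hB]
  conv_lhs => rw [hU]
  rw [Finset.sum_union hd, Finset.sum_congr rfl (fun i hi => h2 i (Finset.mem_inter.1 hi).2),
    Finset.sum_congr rfl (fun i hi => h3 i (Finset.mem_inter.1 hi).2), Finset.sum_const,
    Finset.sum_const, smul_eq_mul, smul_eq_mul]
  ring

private theorem prod_B {ι : Type} [DecidableEq ι] (P2 P3 B : Finset ι) (c : ι → ℕ)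
    (h2 : ∀ i ∈ P2, c i = 2) (h3 : ∀ i ∈ P3, c i = 3) (hB : B ⊆ P2 ∪ P3) :
    (2 : ℝ) ^ (∑ i ∈ B, c i) * ∏ i ∈ B, (1 + th2 (c i)) =
      8 ^ (B ∩ P2).card * 12 ^ (B ∩ P3).card := by
  have hd : Disjoint (B ∩ P2) (B ∩ P3) := by
    rw [Finset.disjoint_left]
    intro i hi hi'
    have e1 := h2 i (Finset.mem_inter.1 hi).2
    have e2 := h3 i (Finset.mem_inter.1 hi').2
    omega
  have hU : B = (B ∩ P2) ∪ (B ∩ P3) := by
    rw [← Finset.inter_union_distrib_left, Finset.inter_eq_left.2 hB]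
  have h4 : ∏ i ∈ B, (1 + th2 (c i)) = (2 : ℝ) ^ (B ∩ P2).card * (3 / 2) ^ (B ∩ P3).card := by
    conv_lhs => rw [hU]
    rw [Finset.prod_union hd]
    congr 1
    · rw [← Finset.prod_const]
      refine Finset.prod_congr rfl fun i hi => ?_
      rw [h2 i (Finset.mem_inter.1 hi).2]
      norm_num [th2]
    · rw [← Finset.prod_const]
      refine Finset.prod_congr rfl fun i hi => ?_
      rw [h3 i (Finset.mem_inter.1 hi).2]
      norm_num [th2]
  rw [sum_B P2 P3 B c h2 h3 hB, h4, pow_add, pow_mul, pow_mul]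
  calc ((2 : ℝ) ^ 2) ^ (B ∩ P2).card * ((2 : ℝ) ^ 3) ^ (B ∩ P3).card *
      (2 ^ (B ∩ P2).card * (3 / 2) ^ (B ∩ P3).card) =
      (((2 : ℝ) ^ 2) * 2) ^ (B ∩ P2).card * (((2 : ℝ) ^ 3) * (3 / 2)) ^ (B ∩ P3).card := by
        rw [mul_pow, mul_pow]
        ring
    _ = 8 ^ (B ∩ P2).card * 12 ^ (B ∩ P3).card := by norm_num

/-- the bound for one class. -/
theorem psV_ge {ι : Type} [DecidableEq ι] {k : ℕ} {r : Multiset ℕ → ℝ} (hr : PosR k r)
    (I : Finset ι) (c : ι → ℕ) (hc : ∀ i ∈ I, 2 ≤ c i) (F : ℕ) (yl : ℕ → ℕ) (L : ℕ)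
    (hyl : YOK yl L) (hs : ∑ i ∈ I, c i ≤ L) :
    -(psV I c F k r) ≤ (PhiC yl ((I.val.map c).count 2) ((I.val.map c).count 3)
      (rho (I.val.map c)) F k : ℝ) := by
  obtain ⟨P2, hP2⟩ : ∃ P2 : Finset ι, P2 = I.filter (fun i => c i = 2) := ⟨_, rfl⟩
  obtain ⟨P3, hP3⟩ : ∃ P3 : Finset ι, P3 = I.filter (fun i => c i = 3) := ⟨_, rfl⟩
  obtain ⟨U, hU⟩ : ∃ U : Finset ι, U = I.filter (fun i => 4 ≤ c i) := ⟨_, rfl⟩
  have h2 : ∀ i ∈ P2, c i = 2 := fun i hi => by
    rw [hP2] at hi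
    exact (Finset.mem_filter.1 hi).2
  have h3 : ∀ i ∈ P3, c i = 3 := fun i hi => by
    rw [hP3] at hi
    exact (Finset.mem_filter.1 hi).2
  have h4 : ∀ i ∈ U, 4 ≤ c i := fun i hi => by
    rw [hU] at hi
    exact (Finset.mem_filter.1 hi).2
  have hd23 : Disjoint P2 P3 := by
    rw [Finset.disjoint_left]
    intro i hi hi'
    have e1 := h2 i hi
    have e2 := h3 i hi'
    omega
  have h23 : ∀ i ∈ P2 ∪ P3, c i = 2 ∨ c i = 3 := by
    intro i hi
    rcases Finset.mem_union.1 hi with h | h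
    · exact Or.inl (h2 i h)
    · exact Or.inr (h3 i h)
  have hPU : Disjoint (P2 ∪ P3) U := by
    rw [Finset.disjoint_left]
    intro i hi hi'
    have e1 := h23 i hi
    have e2 := h4 i hi'
    omega
  have hI : I = (P2 ∪ P3) ∪ U := by
    ext i
    rw [hP2, hP3, hU]
    simp only [Finset.mem_union, Finset.mem_filter]
    constructor
    · intro hi
      have := hc i hi
      by_cases e2 : c i = 2
      · exact Or.inl (Or.inl ⟨hi, e2⟩)
      · by_cases e3 : c i = 3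
        · exact Or.inl (Or.inr ⟨hi, e3⟩)
        · exact Or.inr ⟨hi, by omega⟩
    · rintro ((⟨hi, -⟩ | ⟨hi, -⟩) | ⟨hi, -⟩) <;> exact hi
  rw [filter2_card, filter2_card, rho_map, ← hP2, ← hP3, ← hU]
  obtain ⟨ρ, hρ⟩ : ∃ ρ : Multiset ℕ, ρ = U.val.map c := ⟨_, rfl⟩
  rw [← hρ]
  have hρs : ρ.sum = ∑ i ∈ U, c i := by
    rw [hρ]
    rfl
  -- the function of the two cardinalities
  obtain ⟨f, hf⟩ : ∃ f : ℕ → ℕ → ℝ, f = fun b d => open Classical in
      if 2 * b + 3 * d ≤ k ∧ ¬ Crit F (P2.card - b) (P3.card - d) (yl (ρ.sum + 2 * b + 3 * d)) k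
      then (8 : ℝ) ^ b * 12 ^ d *
        (lamC ρ F (P2.card - b) (P3.card - d) (k - (2 * b + 3 * d)) : ℝ) else 0 := ⟨_, rfl⟩
  have hPhi : (PhiC yl P2.card P3.card ρ F k : ℝ) =
      ∑ b ∈ range (P2.card + 1), ∑ d ∈ range (P3.card + 1),
        (P2.card.choose b : ℝ) * (P3.card.choose d : ℝ) * f b d := by
    unfold PhiC
    push_cast
    refine Finset.sum_congr rfl fun b _ => Finset.sum_congr rfl fun d _ => ?_
    rw [hf]
    dsimp only
    split_ifs
    · ring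
    · rw [mul_zero]
  rw [hPhi, ← sum_powerset_card2 P2 P3 hd23 f]
  conv_lhs => rw [hI]
  rw [psV_expand (P2 ∪ P3) U hPU c h23 F k r, ← Finset.sum_neg_distrib]
  refine Finset.sum_le_sum fun B hB => ?_
  rw [Finset.mem_powerset] at hB
  have hsB := sum_B P2 P3 B c h2 h3 hB
  have hcard2 : (((P2 ∪ P3) \ B).filter (fun i => c i = 2)).card = P2.card - (B ∩ P2).card := by
    have e1 : ((P2 ∪ P3) \ B).filter (fun i => c i = 2) = P2 \ (B ∩ P2) := by
      ext i
      simp only [Finset.mem_filter, Finset.mem_sdiff, Finset.mem_union, Finset.mem_inter]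
      constructor
      · rintro ⟨⟨h | h, hn⟩, hc2⟩
        · exact ⟨h, fun h' => hn h'.1⟩
        · have := h3 i h
          omega
      · rintro ⟨h, hn⟩
        exact ⟨⟨Or.inl h, fun h' => hn ⟨h', h⟩⟩, h2 i h⟩
    rw [e1, Finset.card_sdiff_of_subset Finset.inter_subset_right]
  have hcard3 : (((P2 ∪ P3) \ B).filter (fun i => c i = 3)).card = P3.card - (B ∩ P3).card := by
    have e1 : ((P2 ∪ P3) \ B).filter (fun i => c i = 3) = P3 \ (B ∩ P3) := by
      ext i
      simp only [Finset.mem_filter, Finset.mem_sdiff, Finset.mem_union, Finset.mem_inter]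
      constructor
      · rintro ⟨⟨h | h, hn⟩, hc2⟩
        · have := h2 i h
          omega
        · exact ⟨h, fun h' => hn h'.1⟩
      · rintro ⟨h, hn⟩
        exact ⟨⟨Or.inr h, fun h' => hn ⟨h', h⟩⟩, h3 i h⟩
    rw [e1, Finset.card_sdiff_of_subset Finset.inter_subset_right]
  rw [hcard2, hcard3]
  obtain ⟨a', ha'⟩ : ∃ a', a' = P2.card - (B ∩ P2).card := ⟨_, rfl⟩
  obtain ⟨t', ht'⟩ : ∃ t', t' = P3.card - (B ∩ P3).card := ⟨_, rfl⟩
  have hsBU : ∑ i ∈ B, c i + ∑ i ∈ U, c i ≤ L := by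
    refine le_trans ?_ hs
    rw [← Finset.sum_union (Finset.disjoint_of_subset_left hB hPU)]
    refine Finset.sum_le_sum_of_subset ?_
    rw [hI]
    exact Finset.union_subset_union_left hB
  have hBU : Disjoint B U := Finset.disjoint_of_subset_left hB hPU
  have hB23 : ∀ i ∈ B, c i = 2 ∨ c i = 3 := fun i hi => h23 i (hB hi)
  rw [← ha', ← ht']
  by_cases hk : ∑ i ∈ B, c i ≤ k
  · obtain ⟨j, hj⟩ : ∃ j, ∑ i ∈ B, c i + j = k := ⟨k - ∑ i ∈ B, c i, by omega⟩
    have he : ∀ V : Finset ι, eC F a' t' k (∑ i ∈ B, c i + ∑ i ∈ V, c i) =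
        eC F a' t' j (∑ i ∈ V, c i) := by
      intro V
      unfold eC
      by_cases hV : ∑ i ∈ V, c i ≤ j
      · rw [if_pos hV, if_pos (by omega)]
        congr 1
        omega
      · rw [if_neg hV, if_neg (by omega)]
    have hsum : ∑ V ∈ U.powerset, Gf r c B V * 2 ^ (∑ i ∈ B, c i) * 2 ^ (∑ i ∈ V, c i) *
        (eC F a' t' k (∑ i ∈ B, c i + ∑ i ∈ V, c i) : ℝ) =
        2 ^ (∑ i ∈ B, c i) * ∑ V ∈ U.powerset, Gf r c B V * 2 ^ (∑ i ∈ V, c i) *
          (eC F a' t' j (∑ i ∈ V, c i) : ℝ) := by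
      rw [Finset.mul_sum]
      refine Finset.sum_congr rfl fun V _ => ?_
      rw [he]
      ring
    rw [hsum, hf]
    dsimp only
    rw [← ha', ← ht', ← hsB]
    by_cases hC : Crit F a' t' (yl (ρ.sum + 2 * (B ∩ P2).card + 3 * (B ∩ P3).card)) k
    · rw [if_neg (fun h => h.2 hC), neg_nonpos]
      refine mul_nonneg (by positivity) ?_
      have hm : ρ.sum + 2 * (B ∩ P2).card + 3 * (B ∩ P3).card ≤ L := by
        rw [hρs]
        omega
      have hy := hyl _ hm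
      refine term_crit hr c B U hBU hB23 h4 F a' t' j
        (yl (ρ.sum + 2 * (B ∩ P2).card + 3 * (B ∩ P3).card))
        (ρ.sum + 2 * (B ∩ P2).card + 3 * (B ∩ P3).card) hj hy.1 hy.2 ?_ hC
      rw [hρs]
      omega
    · rw [if_pos ⟨hk, hC⟩]
      have h5 := term_bound hr c B U hBU hB23 h4 F a' t' j hj
      rw [← hρ] at h5
      have hkj : k - ∑ i ∈ B, c i = j := by omega
      rw [hkj, ← prod_B P2 P3 B c h2 h3 hB, ← mul_neg, mul_assoc]
      exact mul_le_mul_of_nonneg_left h5 (by positivity)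
  · have hzero : ∑ V ∈ U.powerset, Gf r c B V * 2 ^ (∑ i ∈ B, c i) * 2 ^ (∑ i ∈ V, c i) *
        (eC F a' t' k (∑ i ∈ B, c i + ∑ i ∈ V, c i) : ℝ) = 0 := by
      refine Finset.sum_eq_zero fun V _ => ?_
      have he : eC F a' t' k (∑ i ∈ B, c i + ∑ i ∈ V, c i) = 0 := by
        unfold eC
        rw [if_neg (by omega)]
      rw [he, Int.cast_zero, mul_zero]
    rw [hzero, neg_zero, hf]
    dsimp only
    rw [if_neg]
    rintro ⟨h, -⟩
    omega

/-- the weights of the level `L`. -/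
theorem LevelW_PhiT (L : ℕ) (yl : ℕ → ℕ) (hyl : YOK yl L) :
    LevelW L (fun _ => True) (fun τ J => (PhiT yl L τ J : ℝ) / 2 ^ J) := by
  intro τ h2 hs _ J r hr
  obtain ⟨m, c, hc⟩ := exists_finset_map τ
  have h1 : (2 : ℝ) ^ J * ((PhiT yl L τ J : ℝ) / 2 ^ J) = (PhiT yl L τ J : ℝ) := by
    have h0 : (2 : ℝ) ^ J ≠ 0 := by positivity
    field_simp
  rw [h1]
  have hsum : ∑ i ∈ (Finset.univ : Finset (Fin m)), c i = τ.sum := by
    rw [← hc]
    rfl
  have h3 := psV_ge hr (Finset.univ : Finset (Fin m)) c (by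
    intro i _
    refine h2 _ ?_
    rw [← hc]
    exact Multiset.mem_map_of_mem c (Finset.mem_univ i)) (L - τ.sum) yl L hyl (by
    rw [hsum]
    exact hs)
  rw [psV_eq_psM, hc] at h3
  exact h3

end Pool.MP322P
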