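import Pool.Agent.Lib.MP_322c5f_alP.PC01
import Pool.Agent.Lib.MP_322c5f_alP.PB04

/-! job 322P-C2: the sum of `PhiT` over all the even types with at most `L` moved points as a sum
over the rows `(a', t', F)`.

A type is `τ = a·{2} + t·{3} + ρ`, `ρ` with parts `≥ 4`; `(b, d)` with `b ≤ a`, `d ≤ t` occur in
`PhiC`; put `a' = a - b`, `t' = t - d`, `m = |ρ| + 2b + 3d`, `F = L - |τ| = L - m - 2a' - 3t'`. -/

set_option autoImplicit false

open Finset Polynomial

namespace Pool.MP322P

open Pool.MP322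

private theorem rho_comb (a t : ℕ) {ρ : Multiset ℕ} (h : ∀ c ∈ ρ, 4 ≤ c) :
    rho (Multiset.replicate a 2 + Multiset.replicate t 3 + ρ) = ρ := by
  unfold rho
  have h1 : (Multiset.replicate a 2).filter (fun c => 4 ≤ c) = 0 :=
    Multiset.filter_eq_nil.2 fun c hc => by
      rw [Multiset.eq_of_mem_replicate hc]
      norm_num
  have h2 : (Multiset.replicate t 3).filter (fun c => 4 ≤ c) = 0 :=
    Multiset.filter_eq_nil.2 fun c hc => by
      rw [Multiset.eq_of_mem_replicate hc]
      norm_num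
  rw [Multiset.filter_add, Multiset.filter_add, h1, h2, Multiset.filter_eq_self.2 h, zero_add,
    zero_add]

private theorem par_comb (a t : ℕ) (ρ : Multiset ℕ) :
    par (Multiset.replicate a 2 + Multiset.replicate t 3 + ρ) = false ↔
      par ρ = decide (a % 2 = 1) := by
  rw [par_add, par_add, par_replicate, par_replicate]
  have h : (t * (3 - 1)) % 2 = 0 := by omega
  have h2 : a * (2 - 1) = a := by omega
  rw [h, h2]
  cases par ρ <;> cases decide (a % 2 = 1) <;> simp

private theorem sum_comb (a t : ℕ) (ρ : Multiset ℕ) :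
    (Multiset.replicate a 2 + Multiset.replicate t 3 + ρ).sum = 2 * a + 3 * t + ρ.sum := by
  rw [Multiset.sum_add, Multiset.sum_add, Multiset.sum_replicate, Multiset.sum_replicate,
    smul_eq_mul, smul_eq_mul]
  ring

private theorem count_comb2 (a t : ℕ) {ρ : Multiset ℕ} (h : ∀ c ∈ ρ, 4 ≤ c) :
    (Multiset.replicate a 2 + Multiset.replicate t 3 + ρ).count 2 = a := by
  have h1 : ρ.count 2 = 0 := Multiset.count_eq_zero_of_notMem fun hc => by
    have := h 2 hc
    omega
  rw [Multiset.count_add, Multiset.count_add, h1, Multiset.count_replicate,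
    Multiset.count_replicate]
  simp

private theorem count_comb3 (a t : ℕ) {ρ : Multiset ℕ} (h : ∀ c ∈ ρ, 4 ≤ c) :
    (Multiset.replicate a 2 + Multiset.replicate t 3 + ρ).count 3 = t := by
  have h1 : ρ.count 3 = 0 := Multiset.count_eq_zero_of_notMem fun hc => by
    have := h 3 hc
    omega
  rw [Multiset.count_add, Multiset.count_add, h1, Multiset.count_replicate,
    Multiset.count_replicate]
  simp

private theorem comb_eq {τ : Multiset ℕ} (h : ∀ c ∈ τ, 2 ≤ c) :
    Multiset.replicate (τ.count 2) 2 + Multiset.replicate (τ.count 3) 3 + rho τ = τ := by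
  ext c
  unfold rho
  rw [Multiset.count_add, Multiset.count_add, Multiset.count_replicate,
    Multiset.count_replicate, Multiset.count_filter]
  by_cases h2 : c = 2
  · subst h2
    simp
  · by_cases h3 : c = 3
    · subst h3
      simp
    · rw [if_neg (Ne.symm h2), if_neg (Ne.symm h3)]
      by_cases h4 : 4 ≤ c
      · rw [if_pos h4]
        omega
      · rw [if_neg h4]
        have h5 : c ∉ τ := fun hc => by
          have := h c hc
          omega
        rw [Multiset.count_eq_zero_of_notMem h5]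

/-- decomposition of a sum over the even types. -/
theorem sum_evs_split {M : Type*} [AddCommMonoid M] (m N : ℕ) (hN : m ≤ N)
    (g : ℕ → ℕ → Multiset ℕ → M) :
    ∑ τ ∈ evs m, g (τ.count 2) (τ.count 3) (rho τ) =
      ∑ a ∈ range (m + 1), ∑ t ∈ range (m + 1), if 2 * a + 3 * t ≤ m then
        ∑ ρ ∈ (prt 4 N (m - (2 * a + 3 * t))).filter (fun ρ => par ρ = decide (a % 2 = 1)),
          g a t ρ else 0 := by
  classical
  rw [← Finset.sum_fiberwise_of_maps_to (s := evs m) (t := range (m + 1) ×ˢ range (m + 1))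
    (g := fun τ => (τ.count 2, τ.count 3)) (fun τ hτ => ?_), Finset.sum_product]
  · refine Finset.sum_congr rfl fun a _ => Finset.sum_congr rfl fun t _ => ?_
    split_ifs with hat
    · refine Finset.sum_bij' (fun τ _ => rho τ)
        (fun ρ _ => Multiset.replicate a 2 + Multiset.replicate t 3 + ρ) ?_ ?_ ?_ ?_ ?_
      · intro τ hτ
        rw [Finset.mem_filter, mem_evs, Prod.mk.injEq] at hτ
        obtain ⟨⟨h1, h2, h3⟩, h4, h5⟩ := hτ
        have h6 := comb_eq h2
        rw [h4, h5] at h6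
        rw [Finset.mem_filter, mem_prt (by norm_num)]
        have h7 : 2 * a + 3 * t + (rho τ).sum = m := by
          rw [← sum_comb, h6, h1]
        refine ⟨⟨by omega, fun c hc => ?_⟩, ?_⟩
        · have h8 : c ≤ (rho τ).sum := Multiset.le_sum_of_mem hc
          exact ⟨(Multiset.mem_filter.1 hc).2, by omega⟩
        · rw [← par_comb a t, h6, h3]
      · intro ρ hρ
        rw [Finset.mem_filter, mem_prt (by norm_num)] at hρ
        obtain ⟨⟨h1, h2⟩, h3⟩ := hρ
        have h4 : ∀ c ∈ ρ, 4 ≤ c := fun c hc => (h2 c hc).1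
        rw [Finset.mem_filter, mem_evs, Prod.mk.injEq]
        refine ⟨⟨?_, fun c hc => ?_, (par_comb a t ρ).2 h3⟩, count_comb2 a t h4,
          count_comb3 a t h4⟩
        · rw [sum_comb]
          omega
        · rw [Multiset.mem_add, Multiset.mem_add] at hc
          rcases hc with (hc | hc) | hc
          · rw [Multiset.eq_of_mem_replicate hc]
          · rw [Multiset.eq_of_mem_replicate hc]
            norm_num
          · have := h4 c hc
            omega
      · intro τ hτ
        rw [Finset.mem_filter, mem_evs, Prod.mk.injEq] at hτ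
        obtain ⟨⟨h1, h2, h3⟩, h4, h5⟩ := hτ
        have h6 := comb_eq h2
        rw [h4, h5] at h6
        exact h6
      · intro ρ hρ
        rw [Finset.mem_filter, mem_prt (by norm_num)] at hρ
        exact rho_comb a t fun c hc => (hρ.1.2 c hc).1
      · intro τ hτ
        rw [Finset.mem_filter, Prod.mk.injEq] at hτ
        rw [hτ.2.1, hτ.2.2]
    · apply Finset.sum_eq_zero
      intro τ hτ
      exfalso
      rw [Finset.mem_filter, mem_evs, Prod.mk.injEq] at hτ
      obtain ⟨⟨h1, h2, h3⟩, h4, h5⟩ := hτ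
      have h6 := comb_eq h2
      rw [h4, h5] at h6
      have h7 : 2 * a + 3 * t + (rho τ).sum = m := by
        rw [← sum_comb, h6, h1]
      omega
  · rw [mem_evs] at hτ
    have h7 : 2 * τ.count 2 + 3 * τ.count 3 + (rho τ).sum = m := by
      rw [← sum_comb, comb_eq hτ.2.1, hτ.1]
    rw [Finset.mem_product, Finset.mem_range, Finset.mem_range]
    constructor
    · show τ.count 2 < m + 1
      omega
    · show τ.count 3 < m + 1
      omega

/-- the table of the polynomials for `a' = a`, `t' = t`; `f c` is the weight of a part `c ≥ 4`,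
`g2` of a 2-cycle in `B`, `g3` of a 3-cycle in `B`. -/
noncomputable def WT {R : Type*} [CommSemiring R] (N : ℕ) (f : ℕ → R) (g2 g3 : R)
    (a t m : ℕ) : R :=
  ∑ b ∈ range (m + 1), ∑ d ∈ range (m + 1), if 2 * b + 3 * d ≤ m then
    (((a + b).choose b : ℕ) : R) * g2 ^ b * ((((t + d).choose d : ℕ) : R) * g3 ^ d) *
      WS 4 N (m - (2 * b + 3 * d)) (decide ((a + b) % 2 = 1)) f else 0

/-- the polynomials with weights `1 + (2X)^c`. -/
noncomputable def WA (L a t m : ℕ) : ℕ[X] :=
  WT L (fun c => 1 + (2 * X) ^ c) (8 * X ^ 2) (12 * X ^ 3) a t m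

/-- the polynomials with weights `1`. -/
noncomputable def WE (L a t m : ℕ) : ℕ[X] :=
  WT L (fun _ => 1) (8 * X ^ 2) (12 * X ^ 3) a t m

open Classical in
/-- the value of a row. -/
noncomputable def rowV (yl : ℕ → ℕ) (L a t F k : ℕ) : ℤ :=
  if Crit F a t (yl (L - (2 * a + 3 * t + F))) k then 0 else
    ∑ i ∈ range (k + 1), ((WA L a t (L - (2 * a + 3 * t + F))).coeff i : ℤ) *
        |(eP F a t).coeff (k - i)| -
      ∑ i ∈ range (k + 1), ((WE L a t (L - (2 * a + 3 * t + F))).coeff i : ℤ) *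
        max 0 ((eP F a t).coeff (k - i))

/-- sum of the rows with `lo ≤ a' < hi`. -/
noncomputable def RS (yl : ℕ → ℕ) (L lo hi k : ℕ) : ℤ :=
  ∑ a ∈ Ico lo hi, ∑ t ∈ range (L + 1), ∑ F ∈ range (L + 1),
    if 2 * a + 3 * t + F ≤ L then rowV yl L a t F k else 0

theorem RS_add (yl : ℕ → ℕ) (L k : ℕ) {lo mid hi : ℕ} (h1 : lo ≤ mid) (h2 : mid ≤ hi) :
    RS yl L lo hi k = RS yl L lo mid k + RS yl L mid hi k := by
  unfold RS
  rw [Finset.sum_Ico_consecutive _ h1 h2]

private theorem ext_range {M : Type*} [AddCommMonoid M] (f : ℕ → M) {n n' : ℕ} (h : n ≤ n')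
    (h0 : ∀ i, n ≤ i → f i = 0) : ∑ i ∈ range n', f i = ∑ i ∈ range n, f i :=
  Finset.eventually_constant_sum h0 h

/-- reindexing of the pairs `b ≤ a`. -/
private theorem flip_box {M : Type*} [AddCommMonoid M] (f : ℕ → ℕ → M) (n : ℕ)
    (h0 : ∀ a b, n ≤ a + b → f a b = 0) :
    ∑ a ∈ range n, ∑ b ∈ range (a + 1), f (a - b) b = ∑ a ∈ range n, ∑ b ∈ range n, f a b := by
  have h := Finset.sum_range_diag_flip n (fun b a => f a b)
  rw [h, Finset.sum_comm' (t' := range n) (s' := fun a => range (n - a)) (fun b a => ?_)]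
  · refine Finset.sum_congr rfl fun a _ => ?_
    exact (ext_range (fun b => f a b) (Nat.sub_le n a) fun b hb => h0 a b (by omega)).symm
  · rw [Finset.mem_range, Finset.mem_range, Finset.mem_range, Finset.mem_range]
    omega

open Classical in
/-- the term `b, d` of the row `(a, t, F)`. -/
private noncomputable def HH (yl : ℕ → ℕ) (L k F a b t d : ℕ) : ℤ :=
  if 2 * (a + b) + 3 * (t + d) + F ≤ L then
    ∑ ρ ∈ (prt 4 L (L - F - (2 * (a + b) + 3 * (t + d)))).filter
        (fun ρ => par ρ = decide ((a + b) % 2 = 1)),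
      if 2 * b + 3 * d ≤ k ∧ ¬ Crit F a t (yl (ρ.sum + 2 * b + 3 * d)) k then
        ((a + b).choose b : ℤ) * 8 ^ b * (((t + d).choose d : ℤ) * 12 ^ d) *
          lamC ρ F a t (k - (2 * b + 3 * d))
      else 0
  else 0

private theorem HH_zero (yl : ℕ → ℕ) (L k F a b t d : ℕ)
    (h : L < 2 * (a + b) + 3 * (t + d) + F) : HH yl L k F a b t d = 0 := by
  unfold HH
  rw [if_neg (by omega)]

/-- the sum over the types with `L - F` moved points. -/
private theorem evs_eq (yl : ℕ → ℕ) (L k F : ℕ) (hF : F ≤ L) :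
    ∑ τ ∈ evs (L - F), PhiT yl L τ k = ∑ a ∈ range (L + 1), ∑ b ∈ range (L + 1),
      ∑ t ∈ range (L + 1), ∑ d ∈ range (L + 1), HH yl L k F a b t d := by
  have h1 : ∑ τ ∈ evs (L - F), PhiT yl L τ k =
      ∑ τ ∈ evs (L - F), PhiC yl (τ.count 2) (τ.count 3) (rho τ) F k := by
    refine Finset.sum_congr rfl fun τ hτ => ?_
    unfold PhiT
    rw [(mem_evs.1 hτ).1]
    congr 1
    omega
  rw [h1, sum_evs_split (L - F) L (Nat.sub_le L F) (fun a t ρ => PhiC yl a t ρ F k)]
  have h2 : ∀ a t : ℕ, (if 2 * a + 3 * t ≤ L - F then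
        ∑ ρ ∈ (prt 4 L (L - F - (2 * a + 3 * t))).filter (fun ρ => par ρ = decide (a % 2 = 1)),
          PhiC yl a t ρ F k else 0) =
      ∑ b ∈ range (a + 1), ∑ d ∈ range (t + 1), HH yl L k F (a - b) b (t - d) d := by
    intro a t
    split_ifs with h
    · unfold PhiC
      rw [Finset.sum_comm]
      refine Finset.sum_congr rfl fun b hb => ?_
      rw [Finset.sum_comm]
      refine Finset.sum_congr rfl fun d hd => ?_
      rw [Finset.mem_range] at hb hd
      have hb' : a - b + b = a := by omega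
      have hd' : t - d + d = t := by omega
      unfold HH
      rw [hb', hd', if_pos (by omega)]
    · symm
      refine Finset.sum_eq_zero fun b hb => Finset.sum_eq_zero fun d hd => ?_
      rw [Finset.mem_range] at hb hd
      apply HH_zero
      omega
  have h3 : ∀ a : ℕ, ∑ t ∈ range (L - F + 1), (if 2 * a + 3 * t ≤ L - F then
        ∑ ρ ∈ (prt 4 L (L - F - (2 * a + 3 * t))).filter (fun ρ => par ρ = decide (a % 2 = 1)),
          PhiC yl a t ρ F k else 0) =
      ∑ b ∈ range (a + 1), ∑ t ∈ range (L + 1), ∑ d ∈ range (L + 1),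
        HH yl L k F (a - b) b t d := by
    intro a
    rw [← ext_range (n' := L + 1) _ (by omega) (fun t ht => if_neg (by omega))]
    simp_rw [h2]
    rw [Finset.sum_comm]
    refine Finset.sum_congr rfl fun b _ => ?_
    exact flip_box (fun t d => HH yl L k F (a - b) b t d) (L + 1)
      fun t d h => HH_zero _ _ _ _ _ _ _ _ (by omega)
  rw [← ext_range (n' := L + 1) _ (by omega) (fun a ha => ?_)]
  · simp_rw [h3]
    exact flip_box (fun a b => ∑ t ∈ range (L + 1), ∑ d ∈ range (L + 1), HH yl L k F a b t d)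
      (L + 1) fun a b h => Finset.sum_eq_zero fun t _ => Finset.sum_eq_zero fun d _ =>
        HH_zero _ _ _ _ _ _ _ _ (by omega)
  · exact Finset.sum_eq_zero fun t _ => if_neg (by omega)

private noncomputable def Lam (u : ℕ → ℤ) (k : ℕ) : ℕ[X] →+ ℤ where
  toFun P := ∑ i ∈ range (k + 1), (P.coeff i : ℤ) * u (k - i)
  map_zero' := by simp
  map_add' P Q := by
    rw [← Finset.sum_add_distrib]
    refine Finset.sum_congr rfl fun i _ => ?_
    rw [coeff_add]
    push_cast
    ring

private theorem Lam_apply (u : ℕ → ℤ) (k : ℕ) (P : ℕ[X]) :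
    Lam u k P = ∑ i ∈ range (k + 1), (P.coeff i : ℤ) * u (k - i) := rfl

private theorem Lam_shift (u : ℕ → ℤ) (k s c : ℕ) (P : ℕ[X]) :
    Lam u k (C c * X ^ s * P) = if s ≤ k then (c : ℤ) * Lam u (k - s) P else 0 := by
  have h : ∀ i, ((C c * X ^ s * P).coeff i : ℤ) =
      if s ≤ i then (c : ℤ) * (P.coeff (i - s) : ℤ) else 0 := by
    intro i
    rw [mul_assoc, coeff_C_mul, mul_comm (X ^ s), coeff_mul_X_pow']
    split_ifs
    · push_cast
      ring
    · simp
  rw [Lam_apply]
  split_ifs with hs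
  · have hk : k + 1 = s + (k - s + 1) := by omega
    rw [hk, Finset.sum_range_add, Finset.sum_eq_zero (fun i hi => ?_), zero_add, Lam_apply,
      Finset.mul_sum]
    · refine Finset.sum_congr rfl fun i hi => ?_
      rw [h, if_pos (Nat.le_add_right s i), Nat.add_sub_cancel_left,
        show k - (s + i) = k - s - i by omega]
      ring
    · rw [Finset.mem_range] at hi
      rw [h, if_neg (by omega), zero_mul]
  · refine Finset.sum_eq_zero fun i hi => ?_
    rw [Finset.mem_range] at hi
    rw [h, if_neg (by omega), zero_mul]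

private theorem Lam_term (u : ℕ → ℤ) (f : ℕ → ℕ[X]) (L k a b t d r : ℕ) (p : Bool) :
    Lam u k (((a + b).choose b : ℕ[X]) * (8 * X ^ 2) ^ b *
      (((t + d).choose d : ℕ[X]) * (12 * X ^ 3) ^ d) * WS 4 L r p f) =
    if 2 * b + 3 * d ≤ k then
      ((a + b).choose b : ℤ) * 8 ^ b * (((t + d).choose d : ℤ) * 12 ^ d) *
        ∑ ρ ∈ (prt 4 L r).filter (fun ρ => par ρ = p),
          Lam u (k - (2 * b + 3 * d)) (ρ.map f).prod
    else 0 := by
  have h : ((a + b).choose b : ℕ[X]) * (8 * X ^ 2) ^ b *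
      (((t + d).choose d : ℕ[X]) * (12 * X ^ 3) ^ d) * WS 4 L r p f =
      C ((a + b).choose b * 8 ^ b * ((t + d).choose d * 12 ^ d)) * X ^ (2 * b + 3 * d) *
        WS 4 L r p f := by
    have hC : ∀ n : ℕ, (C n : ℕ[X]) = (n : ℕ[X]) := fun n => by
      simp
    rw [hC]
    push_cast
    ring
  rw [h, Lam_shift]
  unfold WS
  rw [map_sum]
  push_cast
  rfl

private theorem Lam_wP (u : ℕ → ℤ) (j : ℕ) (ρ : Multiset ℕ) :
    Lam u j (ρ.map (fun c => 1 + (2 * X : ℕ[X]) ^ c)).prod =
      ∑ i ∈ range (j + 1), (wP ρ).coeff i * u (j - i) := by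
  have h : wP ρ = ((ρ.map (fun c => 1 + (2 * X : ℕ[X]) ^ c)).prod).map (Nat.castRingHom ℤ) := by
    have h2 := map_multiset_prod (Polynomial.mapRingHom (Nat.castRingHom ℤ))
      (ρ.map (fun c => 1 + (2 * X : ℕ[X]) ^ c))
    rw [Multiset.map_map, coe_mapRingHom] at h2
    rw [h2]
    unfold wP
    congr 1
    refine Multiset.map_congr rfl fun c _ => ?_
    simp
  rw [Lam_apply]
  refine Finset.sum_congr rfl fun i _ => ?_
  rw [h, coeff_map]
  rfl

private theorem Lam_one (u : ℕ → ℤ) (j : ℕ) : Lam u j 1 = u j := by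
  rw [Lam_apply, Finset.sum_range_succ']
  simp [coeff_one]

open Classical in
private theorem row_eq (yl : ℕ → ℕ) (L k a t F : ℕ) (h : 2 * a + 3 * t + F ≤ L) :
    rowV yl L a t F k = ∑ b ∈ range (L + 1), ∑ d ∈ range (L + 1), HH yl L k F a b t d := by
  obtain ⟨M, hM⟩ : ∃ M, M = L - (2 * a + 3 * t + F) := ⟨_, rfl⟩
  have hsum : ∀ b d : ℕ, 2 * b + 3 * d ≤ M → ∀ ρ ∈ (prt 4 L (L - F - (2 * (a + b) +
      3 * (t + d)))).filter (fun ρ => par ρ = decide ((a + b) % 2 = 1)),
      ρ.sum + 2 * b + 3 * d = M := by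
    intro b d hbd ρ hρ
    rw [Finset.mem_filter, mem_prt (by norm_num)] at hρ
    rw [hρ.1.1]
    omega
  unfold rowV
  rw [← hM]
  by_cases hc : Crit F a t (yl M) k
  · rw [if_pos hc]
    symm
    refine Finset.sum_eq_zero fun b _ => Finset.sum_eq_zero fun d _ => ?_
    unfold HH
    split_ifs with h1
    · refine Finset.sum_eq_zero fun ρ hρ => if_neg ?_
      rw [hsum b d (by omega) ρ hρ]
      exact fun h2 => h2.2 hc
    · rfl
  · rw [if_neg hc]
    have hA : ∑ i ∈ range (k + 1), ((WA L a t M).coeff i : ℤ) * |(eP F a t).coeff (k - i)| =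
        Lam (fun j => |(eP F a t).coeff j|) k (WA L a t M) := rfl
    have hE : ∑ i ∈ range (k + 1), ((WE L a t M).coeff i : ℤ) * max 0 ((eP F a t).coeff (k - i)) =
        Lam (fun j => max 0 ((eP F a t).coeff j)) k (WE L a t M) := rfl
    rw [hA, hE]
    unfold WA WE WT
    rw [map_sum, map_sum, ← Finset.sum_sub_distrib]
    have hbd : ∀ b d : ℕ, HH yl L k F a b t d = if 2 * b + 3 * d ≤ M then
        (if 2 * b + 3 * d ≤ k then
          ((a + b).choose b : ℤ) * 8 ^ b * (((t + d).choose d : ℤ) * 12 ^ d) *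
          ∑ ρ ∈ (prt 4 L (M - (2 * b + 3 * d))).filter
            (fun ρ => par ρ = decide ((a + b) % 2 = 1)), lamC ρ F a t (k - (2 * b + 3 * d))
        else 0) else 0 := by
      intro b d
      by_cases h1 : 2 * b + 3 * d ≤ M
      · unfold HH
        rw [if_pos h1, if_pos (by omega)]
        have h2 : ∀ ρ ∈ (prt 4 L (L - F - (2 * (a + b) +
            3 * (t + d)))).filter (fun ρ => par ρ = decide ((a + b) % 2 = 1)),
            (if 2 * b + 3 * d ≤ k ∧ ¬ Crit F a t (yl (ρ.sum + 2 * b + 3 * d)) k then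
              ((a + b).choose b : ℤ) * 8 ^ b * (((t + d).choose d : ℤ) * 12 ^ d) *
              lamC ρ F a t (k - (2 * b + 3 * d)) else 0) =
            if 2 * b + 3 * d ≤ k then
              ((a + b).choose b : ℤ) * 8 ^ b * (((t + d).choose d : ℤ) * 12 ^ d) *
              lamC ρ F a t (k - (2 * b + 3 * d)) else 0 := by
          intro ρ hρ
          rw [hsum b d h1 ρ hρ]
          simp only [hc, not_false_eq_true, and_true]
        rw [Finset.sum_congr rfl h2]
        have h3 : L - F - (2 * (a + b) + 3 * (t + d)) = M - (2 * b + 3 * d) := by omega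
        rw [h3]
        split_ifs
        · rw [Finset.mul_sum]
        · rw [Finset.sum_const_zero]
      · rw [if_neg h1]
        exact HH_zero _ _ _ _ _ _ _ _ (by omega)
    have hz : ∀ b, M + 1 ≤ b → ∑ d ∈ range (L + 1), HH yl L k F a b t d = 0 := by
      intro b hb
      exact Finset.sum_eq_zero fun d _ => HH_zero _ _ _ _ _ _ _ _ (by omega)
    rw [ext_range (n := M + 1) (n' := L + 1) _ (by omega) hz]
    refine Finset.sum_congr rfl fun b _ => ?_
    have hz2 : ∀ d, M + 1 ≤ d → HH yl L k F a b t d = 0 := by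
      intro d hd
      exact HH_zero _ _ _ _ _ _ _ _ (by omega)
    rw [ext_range (n := M + 1) (n' := L + 1) _ (by omega) hz2, map_sum, map_sum,
      ← Finset.sum_sub_distrib]
    refine Finset.sum_congr rfl fun d _ => ?_
    by_cases h1 : 2 * b + 3 * d ≤ M
    · rw [if_pos h1, if_pos h1, hbd, if_pos h1, Lam_term, Lam_term]
      split_ifs with h2
      · rw [← mul_sub, ← Finset.sum_sub_distrib]
        refine congrArg₂ (· * ·) rfl (Finset.sum_congr rfl fun ρ _ => ?_)
        have h4 : (ρ.map (fun _ => (1 : ℕ[X]))).prod = 1 := by simp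
        rw [Lam_wP, h4, Lam_one]
        rfl
      · rw [sub_zero]
    · rw [if_neg h1, if_neg h1, hbd, if_neg h1, map_zero, map_zero, sub_zero]

theorem sum_types_eq_rows (yl : ℕ → ℕ) (L hi k : ℕ) (hhi : L < 2 * hi) :
    ∑ m ∈ range (L + 1), ∑ τ ∈ evs m, PhiT yl L τ k = RS yl L 0 hi k := by
  have h1 : ∑ m ∈ range (L + 1), ∑ τ ∈ evs m, PhiT yl L τ k =
      ∑ F ∈ range (L + 1), ∑ a ∈ range (L + 1), ∑ b ∈ range (L + 1),
        ∑ t ∈ range (L + 1), ∑ d ∈ range (L + 1), HH yl L k F a b t d := by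
    rw [← Finset.sum_range_reflect]
    refine Finset.sum_congr rfl fun F hF => ?_
    rw [Finset.mem_range] at hF
    rw [show L + 1 - 1 - F = L - F by omega]
    exact evs_eq yl L k F (by omega)
  have h2 : ∀ a t F : ℕ, (if 2 * a + 3 * t + F ≤ L then rowV yl L a t F k else 0) =
      ∑ b ∈ range (L + 1), ∑ d ∈ range (L + 1), HH yl L k F a b t d := by
    intro a t F
    split_ifs with h
    · exact row_eq yl L k a t F h
    · symm
      exact Finset.sum_eq_zero fun b _ => Finset.sum_eq_zero fun d _ =>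
        HH_zero _ _ _ _ _ _ _ _ (by omega)
  have h3 : RS yl L 0 hi k = ∑ a ∈ range (L + 1), ∑ t ∈ range (L + 1), ∑ F ∈ range (L + 1),
      ∑ b ∈ range (L + 1), ∑ d ∈ range (L + 1), HH yl L k F a b t d := by
    unfold RS
    rw [← Finset.range_eq_Ico]
    simp_rw [h2]
    have hz : ∀ a, L < 2 * a → ∑ t ∈ range (L + 1), ∑ F ∈ range (L + 1),
        ∑ b ∈ range (L + 1), ∑ d ∈ range (L + 1), HH yl L k F a b t d = 0 := fun a ha =>
      Finset.sum_eq_zero fun t _ => Finset.sum_eq_zero fun F _ => Finset.sum_eq_zero fun b _ =>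
        Finset.sum_eq_zero fun d _ => HH_zero _ _ _ _ _ _ _ _ (by omega)
    rw [← ext_range (n := hi) (n' := hi + (L + 1)) _ (by omega) (fun a ha => hz a (by omega)),
      ← ext_range (n := L + 1) (n' := hi + (L + 1)) _ (by omega) (fun a ha => hz a (by omega))]
  rw [h1, h3, Finset.sum_comm]
  refine Finset.sum_congr rfl fun a _ => ?_
  have h4 : ∀ F, ∑ b ∈ range (L + 1), ∑ t ∈ range (L + 1), ∑ d ∈ range (L + 1),
      HH yl L k F a b t d = ∑ t ∈ range (L + 1), ∑ b ∈ range (L + 1), ∑ d ∈ range (L + 1),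
      HH yl L k F a b t d := fun F => Finset.sum_comm
  simp_rw [h4]
  rw [Finset.sum_comm]

end Pool.MP322P
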