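import Pool.Agent.Lib.MP_322c5f_alF.FKb24U
import Pool.Agent.Lib.MP_322c5f_alF.FKb30U
import Pool.Agent.Lib.MP_322c5f_alP.PF01

/-! The recursion of the corners (kernel computation). -/

set_option autoImplicit false
set_option maxRecDepth 100000

namespace Pool.MP322P

open Pool.MP322 Pool.MP322F

theorem ck24 : ckUS 60 (expNP (s24.map fun r => (1, r.2.1, r.2.2.1))) 24 B24.u0 317401667137 310988851198 6 = 0 := by
  decide +kernel

theorem ck30 : ckUS 60 (expNP runsU) 30 B30.u0 283892681556 279276232732 7 = 0 := by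
  decide +kernel

theorem U24 : AllRuns UB 24 (s24.map fun r => (1, r.2.1, r.2.2.1)) :=
  allRuns_of_ckUS _ B24.urow B24.srow0 B24.srow1 B24.hmC (by norm_num) ck24

theorem U30 : AllRuns UB 30 runsU :=
  allRuns_of_ckUS _ B30.urow B30.srow0 B30.srow1 B30.hmC (by norm_num) ck30

end Pool.MP322P
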