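import Pool.Agent.Lib.MP_322c5f_alP.PU03

/-! part PU, 6: numerical values of Rankin's bound, more than 300 moved points. -/

set_option autoImplicit false

open Finset

namespace Pool.MP322P

private theorem LA : (677 / 50000000000 : ℚ) ≤ ∏ c ∈ Icc 2 80,
    (1 - ((23247 / 25000) ^ c + (5103 / 25000) ^ c)) := by
  decide +kernel

theorem sumVA {n : ℕ} (hn : 80 ≤ n) {T : Finset (Multiset ℕ)}
    (hT : ∀ τ ∈ T, (∀ c ∈ τ, 2 ≤ c ∧ c ≤ n) ∧ 301 ≤ τ.sum) :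
    ∑ τ ∈ T, (τ.map (fun c => (1 - 9 / 50 : ℝ) ^ c + (9 / 50 : ℝ) ^ c)).prod *
      (567 / 500 : ℝ) ^ (τ.sum - 301) ≤ 141 / 50000000000 := by
  have hL : (677 / 50000000000 : ℝ) ≤ ∏ c ∈ Icc 2 80,
      (1 - ((23247 / 25000 : ℝ) ^ c + (5103 / 25000 : ℝ) ^ c)) := by
    have h := (Rat.cast_le (K := ℝ)).2 LA
    push_cast at h
    exact h
  obtain ⟨h1, h2⟩ := prod_bound (a := 23247 / 25000) (b := 5103 / 25000) (by norm_num)
    (by norm_num) (by norm_num) (by norm_num) (by norm_num) (C0 := 80) (by norm_num) hn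
    (L := 677 / 50000000000) (S := 1 / 25) (by norm_num) hL (by norm_num) (by norm_num)
  have h3 := rankin (z := 567 / 500) (m0 := 301) hT
    (q := fun c => (1 - 9 / 50 : ℝ) ^ c + (9 / 50 : ℝ) ^ c)
    (x := fun c => (23247 / 25000 : ℝ) ^ c + (5103 / 25000 : ℝ) ^ c) (by norm_num)
    (fun c => by positivity) (fun c => by
      rw [add_mul, ← mul_pow, ← mul_pow]
      norm_num) h1
  refine h3.trans ?_
  rw [div_le_iff₀ (by positivity)]
  refine h2.trans ?_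
  rw [show (301 : ℕ) = 20 * 15 + 1 from rfl, pow_succ, pow_mul]
  norm_num

private theorem LB : (79 / 6250000000 : ℚ) ≤ ∏ c ∈ Icc 2 80,
    (1 - ((46359 / 50000) ^ c + (7641 / 25000) ^ c)) := by
  decide +kernel

theorem sumVB {n : ℕ} (hn : 80 ≤ n) {T : Finset (Multiset ℕ)}
    (hT : ∀ τ ∈ T, (∀ c ∈ τ, 2 ≤ c ∧ c ≤ n) ∧ 301 ≤ τ.sum) :
    ∑ τ ∈ T, (τ.map (fun c => (1 - 283 / 2000 : ℝ) ^ c + (2 * (283 / 2000) : ℝ) ^ c)).prod *
      (27 / 25 : ℝ) ^ (τ.sum - 301) ≤ 711 / 100000 := by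
  have hL : (79 / 6250000000 : ℝ) ≤ ∏ c ∈ Icc 2 80,
      (1 - ((46359 / 50000 : ℝ) ^ c + (7641 / 25000 : ℝ) ^ c)) := by
    have h := (Rat.cast_le (K := ℝ)).2 LB
    push_cast at h
    exact h
  obtain ⟨h1, h2⟩ := prod_bound (a := 46359 / 50000) (b := 7641 / 25000) (by norm_num)
    (by norm_num) (by norm_num) (by norm_num) (by norm_num) (C0 := 80) (by norm_num) hn
    (L := 79 / 6250000000) (S := 31 / 1000) (by norm_num) hL (by norm_num) (by norm_num)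
  have h3 := rankin (z := 27 / 25) (m0 := 301) hT
    (q := fun c => (1 - 283 / 2000 : ℝ) ^ c + (2 * (283 / 2000) : ℝ) ^ c)
    (x := fun c => (46359 / 50000 : ℝ) ^ c + (7641 / 25000 : ℝ) ^ c) (by norm_num)
    (fun c => by positivity) (fun c => by
      rw [add_mul, ← mul_pow, ← mul_pow]
      norm_num) h1
  refine h3.trans ?_
  rw [div_le_iff₀ (by positivity)]
  refine h2.trans ?_
  rw [show (301 : ℕ) = 20 * 15 + 1 from rfl, pow_succ, pow_mul]
  norm_num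

private theorem LC : (1323 / 100000000000 : ℚ) ≤ ∏ c ∈ Icc 2 80,
    (1 - ((465307 / 500000) ^ c + (76693 / 500000) ^ c)) := by
  decide +kernel

theorem sumVC {n : ℕ} (hn : 80 ≤ n) {T : Finset (Multiset ℕ)}
    (hT : ∀ τ ∈ T, (∀ c ∈ τ, 2 ≤ c ∧ c ≤ n) ∧ 301 ≤ τ.sum) :
    ∑ τ ∈ T, (τ.map (fun c => (1 - 283 / 2000 : ℝ) ^ c + (283 / 2000 : ℝ) ^ c)).prod *
      (271 / 250 : ℝ) ^ (τ.sum - 301) ≤ 23 / 10000 := by
  have hL : (1323 / 100000000000 : ℝ) ≤ ∏ c ∈ Icc 2 80,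
      (1 - ((465307 / 500000 : ℝ) ^ c + (76693 / 500000 : ℝ) ^ c)) := by
    have h := (Rat.cast_le (K := ℝ)).2 LC
    push_cast at h
    exact h
  obtain ⟨h1, h2⟩ := prod_bound (a := 465307 / 500000) (b := 76693 / 500000) (by norm_num)
    (by norm_num) (by norm_num) (by norm_num) (by norm_num) (C0 := 80) (by norm_num) hn
    (L := 1323 / 100000000000) (S := 43 / 1000) (by norm_num) hL (by norm_num) (by norm_num)
  have h3 := rankin (z := 271 / 250) (m0 := 301) hT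
    (q := fun c => (1 - 283 / 2000 : ℝ) ^ c + (283 / 2000 : ℝ) ^ c)
    (x := fun c => (465307 / 500000 : ℝ) ^ c + (76693 / 500000 : ℝ) ^ c) (by norm_num)
    (fun c => by positivity) (fun c => by
      rw [add_mul, ← mul_pow, ← mul_pow]
      norm_num) h1
  refine h3.trans ?_
  rw [div_le_iff₀ (by positivity)]
  refine h2.trans ?_
  rw [show (301 : ℕ) = 20 * 15 + 1 from rfl, pow_succ, pow_mul]
  norm_num

private theorem LD : (229 / 25000000000 : ℚ) ≤ ∏ c ∈ Icc 2 80,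
    (1 - ((116 / 125) ^ c + (116 / 375) ^ c)) := by
  decide +kernel

theorem sumVD {n : ℕ} (hn : 80 ≤ n) {T : Finset (Multiset ℕ)}
    (hT : ∀ τ ∈ T, (∀ c ∈ τ, 2 ≤ c ∧ c ≤ n) ∧ 301 ≤ τ.sum) :
    ∑ τ ∈ T, (τ.map (fun c => (1 - 1 / 5 : ℝ) ^ c + (4 / 3 * (1 / 5) : ℝ) ^ c)).prod *
      (29 / 25 : ℝ) ^ (τ.sum - 301) ≤ 1 / 200000000000 := by
  have hL : (229 / 25000000000 : ℝ) ≤ ∏ c ∈ Icc 2 80,
      (1 - ((116 / 125 : ℝ) ^ c + (116 / 375 : ℝ) ^ c)) := by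
    have h := (Rat.cast_le (K := ℝ)).2 LD
    push_cast at h
    exact h
  obtain ⟨h1, h2⟩ := prod_bound (a := 116 / 125) (b := 116 / 375) (by norm_num)
    (by norm_num) (by norm_num) (by norm_num) (by norm_num) (C0 := 80) (by norm_num) hn
    (L := 229 / 25000000000) (S := 33 / 1000) (by norm_num) hL (by norm_num) (by norm_num)
  have h3 := rankin (z := 29 / 25) (m0 := 301) hT
    (q := fun c => (1 - 1 / 5 : ℝ) ^ c + (4 / 3 * (1 / 5) : ℝ) ^ c)
    (x := fun c => (116 / 125 : ℝ) ^ c + (116 / 375 : ℝ) ^ c) (by norm_num)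
    (fun c => by positivity) (fun c => by
      rw [add_mul, ← mul_pow, ← mul_pow]
      norm_num) h1
  refine h3.trans ?_
  rw [div_le_iff₀ (by positivity)]
  refine h2.trans ?_
  rw [show (301 : ℕ) = 20 * 15 + 1 from rfl, pow_succ, pow_mul]
  norm_num

end Pool.MP322P
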