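import Pool.Agent.Lib.MP_322c5f_alP.PU05
import Pool.Agent.Lib.MP_322c5f_alP.PU06

/-! part PU, 7: the bound of `NA` with a tilted parameter; the bound without prefactor for types
with at most `n/2` moved points. -/

set_option autoImplicit false

open Finset Polynomial

namespace Pool.MP322P

/-- the generating function at `κ / (1 - κ)` -/
theorem NA_std {n J : ℕ} {τ : Multiset ℕ} (hτ : τ.sum ≤ n) (hJ : J ≤ n + 1) {κ : ℝ} (h0 : 0 < κ)
    (h1 : κ < 1) : (NA n τ J : ℝ) * (κ ^ J * (1 - κ) ^ (n + 1 - J)) ≤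
      (τ.map (fun c => (1 - κ) ^ c + κ ^ c)).prod := by
  have h1κ : 0 < 1 - κ := by linarith
  have h3 := NA_gf (n := n) (J := J) (τ := τ) (t := κ / (1 - κ)) (by positivity)
  have h5 : (τ.map (fun c => (1 - κ) ^ c + κ ^ c)).prod =
      (1 - κ) ^ τ.sum * (τ.map (fun c => 1 + (κ / (1 - κ)) ^ c)).prod := by
    clear h3 hτ
    induction τ using Multiset.induction_on with
    | empty => simp
    | cons a τ ih =>
      rw [Multiset.map_cons, Multiset.prod_cons, ih, Multiset.map_cons, Multiset.prod_cons,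
        Multiset.sum_cons, pow_add]
      have h6 : (1 - κ) ^ a + κ ^ a = (1 - κ) ^ a * (1 + (κ / (1 - κ)) ^ a) := by
        rw [div_pow]
        field_simp
      rw [h6]
      ring
  have h6 : κ ^ J * (1 - κ) ^ (n + 1 - J) = (κ / (1 - κ)) ^ J * (1 - κ) ^ (n + 1) := by
    rw [div_pow, div_mul_eq_mul_div, eq_div_iff (by positivity), mul_assoc, ← pow_add,
      show n + 1 - J + J = n + 1 by omega]
  have h7 : 1 + κ / (1 - κ) = (1 - κ)⁻¹ := by
    field_simp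
    ring
  rw [h7] at h3
  rw [h6, h5]
  calc (NA n τ J : ℝ) * ((κ / (1 - κ)) ^ J * (1 - κ) ^ (n + 1))
      = ((NA n τ J : ℝ) * (κ / (1 - κ)) ^ J) * (1 - κ) ^ (n + 1) := by ring
    _ ≤ ((1 - κ)⁻¹ ^ (n - τ.sum + 1) * (τ.map (fun c => 1 + (κ / (1 - κ)) ^ c)).prod) *
        (1 - κ) ^ (n + 1) := mul_le_mul_of_nonneg_right h3 (by positivity)
    _ = (1 - κ) ^ τ.sum * (τ.map (fun c => 1 + (κ / (1 - κ)) ^ c)).prod := by
        have h8 : (1 - κ) ^ (n + 1) = (1 - κ) ^ (n - τ.sum + 1) * (1 - κ) ^ τ.sum := by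
          rw [← pow_add]
          congr 1
          omega
        rw [h8, inv_pow]
        field_simp

/-- the maximal term -/
theorem one_le_max {n J : ℕ} (hJ : J < n + 1) {κ : ℝ} (hκ : κ = (J : ℝ) / (n + 1 : ℕ)) :
    (1 : ℝ) ≤ (n + 2) * (((n + 1).choose J) * (κ ^ J * (1 - κ) ^ (n + 1 - J))) := by
  have hN : (0 : ℝ) < ((n + 1 : ℕ) : ℝ) := by exact_mod_cast Nat.succ_pos n
  have h1 := bnT_max (N := n + 1) (J := J) hJ
  have h3 : ((n + 1 : ℕ) : ℝ) ^ (n + 1) ≤ ((n + 1 : ℕ) + 1) * (((n + 1).choose J) * (J : ℝ) ^ J *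
      (((n + 1 : ℕ) : ℝ) - J) ^ (n + 1 - J)) := by
    have h4 : (((n + 1) ^ (n + 1) : ℕ) : ℝ) ≤ (((n + 1 + 1) * bnT (n + 1) J J : ℕ) : ℝ) := by
      exact_mod_cast h1
    unfold bnT at h4
    have h5 : (((n + 1 - J : ℕ)) : ℝ) = ((n + 1 : ℕ) : ℝ) - J := Nat.cast_sub hJ.le
    push_cast [h5] at h4 ⊢
    linarith
  have h6 : κ ^ J * (1 - κ) ^ (n + 1 - J) = (J : ℝ) ^ J * (((n + 1 : ℕ) : ℝ) - J) ^ (n + 1 - J) /
      ((n + 1 : ℕ) : ℝ) ^ (n + 1) := by
    have h7 : 1 - κ = (((n + 1 : ℕ) : ℝ) - J) / ((n + 1 : ℕ) : ℝ) := by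
      rw [hκ]
      field_simp
    rw [h7, hκ, div_pow, div_pow, div_mul_div_comm, ← pow_add, show J + (n + 1 - J) = n + 1 by omega]
  rw [h6]
  have h8 : (0 : ℝ) < ((n + 1 : ℕ) : ℝ) ^ (n + 1) := by positivity
  have h9 : ((n : ℝ) + 2) * (((n + 1).choose J) * ((J : ℝ) ^ J * (((n + 1 : ℕ) : ℝ) - J) ^ (n + 1 - J) /
      ((n + 1 : ℕ) : ℝ) ^ (n + 1))) = (((n + 1 : ℕ) + 1) * (((n + 1).choose J) * (J : ℝ) ^ J *
      (((n + 1 : ℕ) : ℝ) - J) ^ (n + 1 - J))) / ((n + 1 : ℕ) : ℝ) ^ (n + 1) := by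
    push_cast
    ring
  rw [h9, le_div_iff₀ h8, one_mul]
  exact h3

/-- relative entropy -/
noncomputable def kl (p q : ℝ) : ℝ := p * Real.log (p / q) + (1 - p) * Real.log ((1 - p) / (1 - q))

theorem kl_eq {p q : ℝ} (hp : 0 < p) (hp1 : p < 1) (hq : 0 < q) (hq1 : q < 1) :
    kl p q = p * (Real.log p - Real.log q) + (1 - p) * (Real.log (1 - p) - Real.log (1 - q)) := by
  unfold kl
  rw [Real.log_div hp.ne' hq.ne', Real.log_div (by linarith) (by linarith)]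

/-- Gibbs' inequality -/
theorem gibbs {p q : ℝ} (hp : 0 < p) (hp1 : p < 1) (hq : 0 < q) (hq1 : q < 1) :
    p * Real.log q + (1 - p) * Real.log (1 - q) ≤ p * Real.log p + (1 - p) * Real.log (1 - p) := by
  have h1 := Real.log_le_sub_one_of_pos (show 0 < q / p by positivity)
  have h2 := Real.log_le_sub_one_of_pos (show 0 < (1 - q) / (1 - p) by
    apply div_pos <;> linarith)
  rw [Real.log_div hq.ne' hp.ne'] at h1
  rw [Real.log_div (by linarith) (by linarith)] at h2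
  have h3 := mul_le_mul_of_nonneg_left h1 hp.le
  have h4 := mul_le_mul_of_nonneg_left h2 (show 0 ≤ 1 - p by linarith)
  have h5 : p * (q / p - 1) = q - p := by field_simp
  have h6 : (1 - p) * ((1 - q) / (1 - p) - 1) = p - q := by
    have : (1 - p) ≠ 0 := by linarith
    field_simp
    ring
  nlinarith

theorem kl_anti {p0 p q : ℝ} (h0 : 0 < p0) (h1 : p0 ≤ p) (h2 : p ≤ q) (h3 : q < 1) :
    kl p q ≤ kl p0 q := by
  have hp : 0 < p := by linarith
  have hp1 : p < 1 := by linarith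
  rw [kl_eq hp hp1 (by linarith) h3, kl_eq h0 (by linarith) (by linarith) h3]
  have h4 := gibbs h0 (show p0 < 1 by linarith) hp hp1
  have h5 : Real.log p ≤ Real.log q := Real.log_le_log hp h2
  have h6 : Real.log (1 - q) ≤ Real.log (1 - p) := Real.log_le_log (by linarith) (by linarith)
  nlinarith [mul_nonneg (show 0 ≤ p - p0 by linarith) (show 0 ≤ Real.log q - Real.log p by linarith),
    mul_nonneg (show 0 ≤ p - p0 by linarith) (show 0 ≤ Real.log (1 - p) - Real.log (1 - q) by linarith)]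

theorem pow_eq_exp {N J : ℕ} (hJ : J ≤ N) {p : ℝ} (hp : 0 < p) (hp1 : p < 1) :
    p ^ J * (1 - p) ^ (N - J) = Real.exp (J * Real.log p + ((N : ℝ) - J) * Real.log (1 - p)) := by
  rw [Real.exp_add, mul_comm (J : ℝ), mul_comm ((N : ℝ) - J), Real.exp_mul, Real.exp_mul,
    Real.exp_log hp, Real.exp_log (by linarith), Real.rpow_natCast, ← Nat.cast_sub hJ,
    Real.rpow_natCast]

theorem ratio_le {N J : ℕ} (hN : 0 < N) (hJ : J < N) {κ κ0 κ1 : ℝ} (hκ : κ = (J : ℝ) / N)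
    (h0 : 0 < κ0) (h1 : κ0 ≤ κ) (h2 : κ ≤ κ1) (h3 : κ1 < 1) :
    κ ^ J * (1 - κ) ^ (N - J) ≤ Real.exp (N * kl κ0 κ1) * (κ1 ^ J * (1 - κ1) ^ (N - J)) := by
  have hNr : (0 : ℝ) < N := by exact_mod_cast hN
  have hκ0 : 0 < κ := by linarith
  have hκ1 : κ < 1 := by linarith
  rw [pow_eq_exp hJ.le hκ0 hκ1, pow_eq_exp hJ.le (by linarith) h3, ← Real.exp_add, Real.exp_le_exp]
  have h4 := mul_le_mul_of_nonneg_left (kl_anti h0 h1 h2 h3) hNr.le
  rw [kl_eq hκ0 hκ1 (by linarith) h3] at h4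
  have h5 : (J : ℝ) = N * κ := by rw [hκ]; field_simp
  rw [h5]
  nlinarith

/-- the bound with a tilted parameter -/
theorem NA_tilt {n J : ℕ} {τ : Multiset ℕ} (hτ : τ.sum ≤ n) (hJ : J < n + 1) {κ κ0 κ1 : ℝ}
    (hκ : κ = (J : ℝ) / (n + 1 : ℕ)) (h0 : 0 < κ0) (h1 : κ0 ≤ κ) (h2 : κ ≤ κ1) (h3 : κ1 < 1) :
    (NA n τ J : ℝ) ≤ (n + 2) * ((n + 1).choose J) * Real.exp ((n + 1 : ℕ) * kl κ0 κ1) *
      (τ.map (fun c => (1 - κ1) ^ c + κ1 ^ c)).prod := by
  have h4 := one_le_max hJ hκ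
  have h5 := NA_std hτ hJ.le (show 0 < κ1 by linarith) h3
  have h6 := ratio_le (N := n + 1) (J := J) (Nat.succ_pos n) hJ hκ h0 h1 h2 h3
  have h7 : (0 : ℝ) ≤ NA n τ J := Nat.cast_nonneg _
  have hC : (0 : ℝ) ≤ (((n + 1).choose J : ℕ) : ℝ) := Nat.cast_nonneg _
  have hE := Real.exp_pos ((n + 1 : ℕ) * kl κ0 κ1)
  calc (NA n τ J : ℝ) = NA n τ J * 1 := by ring
    _ ≤ NA n τ J * ((n + 2) * (((n + 1).choose J) * (κ ^ J * (1 - κ) ^ (n + 1 - J)))) :=
        mul_le_mul_of_nonneg_left h4 h7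
    _ ≤ NA n τ J * ((n + 2) * (((n + 1).choose J) * (Real.exp ((n + 1 : ℕ) * kl κ0 κ1) *
          (κ1 ^ J * (1 - κ1) ^ (n + 1 - J))))) := by
        refine mul_le_mul_of_nonneg_left ?_ h7
        refine mul_le_mul_of_nonneg_left ?_ (by positivity)
        exact mul_le_mul_of_nonneg_left h6 hC
    _ = (n + 2) * ((n + 1).choose J) * Real.exp ((n + 1 : ℕ) * kl κ0 κ1) *
          (NA n τ J * (κ1 ^ J * (1 - κ1) ^ (n + 1 - J))) := by ring
    _ ≤ _ := mul_le_mul_of_nonneg_left h5 (by positivity)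

/-! ### no prefactor, at most `n/2` moved points -/

theorem choose_free2 {N J m j : ℕ} (hm : 2 * m ≤ N) (hjm : j ≤ m) (hjJ : j ≤ J) (hJ : 2 * J ≤ N)
    (hN : 0 < N) :
    (((N - m).choose (J - j) : ℕ) : ℝ) ≤
      (N.choose J : ℝ) * ((2 * ((J : ℝ) / N)) ^ j * (1 - (J : ℝ) / N) ^ (m - j)) := by
  set N' := N - (m - j) with hN'
  have h1 : (N' - j).choose (J - j) * N' ^ j ≤ J ^ j * N'.choose J :=
    choose_pow_high (n := N') hjJ (by omega)
  have h2 : (N - (m - j)).choose J * N ^ (m - j) ≤ (N - J) ^ (m - j) * N.choose J :=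
    choose_pow_low (n := N) (by omega) (by omega)
  rw [← hN'] at h2
  rw [show N' - j = N - m by omega] at h1
  have hNr : (0 : ℝ) < N := by exact_mod_cast hN
  have hN'0 : 0 < N' := by omega
  have hN'r : (0 : ℝ) < N' := by exact_mod_cast hN'0
  have h3 : (((N - m).choose (J - j) : ℕ) : ℝ) * (N' : ℝ) ^ j ≤ (J : ℝ) ^ j * (N'.choose J : ℝ) := by
    exact_mod_cast h1
  have h4 : ((N'.choose J : ℕ) : ℝ) * (N : ℝ) ^ (m - j) ≤
      ((N : ℝ) - J) ^ (m - j) * (N.choose J : ℝ) := by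
    have h5 : ((N - J : ℕ) : ℝ) = (N : ℝ) - J := Nat.cast_sub (by omega)
    rw [← h5]
    exact_mod_cast h2
  have h5 : (((N - m).choose (J - j) : ℕ) : ℝ) ≤ ((J : ℝ) / N') ^ j * (N'.choose J : ℝ) := by
    rw [div_pow, div_mul_eq_mul_div, le_div_iff₀ (by positivity)]
    exact h3
  have h6 : ((N'.choose J : ℕ) : ℝ) ≤ (1 - (J : ℝ) / N) ^ (m - j) * (N.choose J : ℝ) := by
    have h7 : 1 - (J : ℝ) / N = ((N : ℝ) - J) / N := by field_simp
    rw [h7, div_pow, div_mul_eq_mul_div, le_div_iff₀ (by positivity)]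
    exact h4
  have h7 : (J : ℝ) / N' ≤ 2 * ((J : ℝ) / N) := by
    rw [div_le_iff₀ hN'r]
    have h8 : (N : ℝ) ≤ 2 * N' := by
      have : N ≤ 2 * N' := by omega
      exact_mod_cast this
    have h9 : (0 : ℝ) ≤ J := Nat.cast_nonneg _
    have h10 : 2 * ((J : ℝ) / N) * N' = J * ((2 * N') / N) := by
      field_simp
    rw [h10]
    have h11 : (1 : ℝ) ≤ (2 * N') / N := by
      rw [le_div_iff₀ (by positivity)]
      linarith
    nlinarith
  have h8 : 0 ≤ 1 - (J : ℝ) / N := by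
    rw [sub_nonneg, div_le_one hNr]
    have : J ≤ N := by omega
    exact_mod_cast this
  calc (((N - m).choose (J - j) : ℕ) : ℝ) ≤ ((J : ℝ) / N') ^ j * (N'.choose J : ℝ) := h5
    _ ≤ (2 * ((J : ℝ) / N)) ^ j * ((1 - (J : ℝ) / N) ^ (m - j) * (N.choose J : ℝ)) := by
        refine mul_le_mul ?_ h6 (by positivity) (by positivity)
        exact pow_le_pow_left₀ (by positivity) h7 j
    _ = _ := by ring

theorem NA_free2 {n J : ℕ} {τ : Multiset ℕ} (hτ : 2 * τ.sum ≤ n) (hJ : 2 * J ≤ n) {κ : ℝ}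
    (hκ : κ = (J : ℝ) / (n + 1 : ℕ)) :
    (NA n τ J : ℝ) ≤ ((n + 1).choose J) *
      (τ.map (fun c => (1 - κ) ^ c + (2 * κ) ^ c)).prod := by
  have hN : (0 : ℝ) < ((n + 1 : ℕ) : ℝ) := by exact_mod_cast Nat.succ_pos n
  have hκ0 : 0 ≤ κ := by rw [hκ]; positivity
  have hκ1 : κ ≤ 1 := by
    rw [hκ, div_le_one hN]
    have : J ≤ n + 1 := by omega
    exact_mod_cast this
  rw [NA_eq, prod_add_powerset, Nat.cast_multiset_sum, Multiset.map_map,
    ← Multiset.sum_map_mul_left]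
  refine Multiset.sum_map_le_sum_map _ _ fun σ hσ => ?_
  have h1 := sum_le_of_le' (Multiset.mem_powerset.1 hσ)
  simp only [Function.comp_apply]
  split_ifs with h
  · have h2 := choose_free2 (N := n + 1) (J := J) (m := τ.sum) (j := σ.sum) (by omega) h1 h
      (by omega) (by omega)
    rw [show n + 1 - τ.sum = n - τ.sum + 1 by omega] at h2
    rw [hκ]
    exact h2
  · have h3 : 0 ≤ 1 - κ := by linarith
    rw [Nat.cast_zero]
    positivity

/-! ### monotonicity in `κ` -/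

theorem q2_mono {κ : ℝ} (h1 : 283 / 2000 ≤ κ) (h2 : κ ≤ 1 / 5) (c : ℕ) (hc : 2 ≤ c) :
    (1 - κ) ^ c + (2 * κ) ^ c ≤ (1 - 283 / 2000) ^ c + (2 * (283 / 2000)) ^ c := by
  obtain ⟨θ, hθ0, hθ1, hθ⟩ : ∃ θ : ℝ, 0 ≤ θ ∧ θ ≤ 1 ∧ κ = θ * (283 / 2000) + (1 - θ) * (1 / 5) := by
    refine ⟨(1 / 5 - κ) / (1 / 5 - 283 / 2000), ?_, ?_, ?_⟩
    · exact div_nonneg (by linarith) (by norm_num)
    · rw [div_le_one (by norm_num)]
      linarith
    · field_simp
      ring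
  have h4 := pow_conv (show (0 : ℝ) ≤ 1 - 283 / 2000 by norm_num) (show (0 : ℝ) ≤ 4 / 5 by norm_num)
    hθ0 hθ1 c
  have h5 := pow_conv (show (0 : ℝ) ≤ 2 * (283 / 2000) by norm_num)
    (show (0 : ℝ) ≤ 2 / 5 by norm_num) hθ0 hθ1 c
  have h6 : 1 - κ = θ * (1 - 283 / 2000) + (1 - θ) * (4 / 5) := by rw [hθ]; ring
  have h7 : 2 * κ = θ * (2 * (283 / 2000)) + (1 - θ) * (2 / 5) := by rw [hθ]; ring
  rw [← h6] at h4
  rw [← h7] at h5
  have h8 : ∀ d : ℕ, (4 / 5 : ℝ) ^ (d + 3) + (2 / 5 : ℝ) ^ (d + 3) ≤ (1 - 283 / 2000) ^ (d + 3) := by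
    intro d
    induction d with
    | zero => norm_num
    | succ d ih =>
      have h9 : (0 : ℝ) ≤ (2 / 5 : ℝ) ^ (d + 3) := by positivity
      have h10 : (0 : ℝ) ≤ (1 - 283 / 2000 : ℝ) ^ (d + 3) := by
        have : (0 : ℝ) ≤ 1 - 283 / 2000 := by norm_num
        positivity
      rw [show d + 1 + 3 = (d + 3) + 1 by omega, pow_succ _ (d + 3), pow_succ _ (d + 3),
        pow_succ _ (d + 3)]
      linarith
  have h11 : (4 / 5 : ℝ) ^ c + (2 / 5) ^ c ≤ (1 - 283 / 2000) ^ c + (2 * (283 / 2000)) ^ c := by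
    rcases (show c = 2 ∨ 3 ≤ c by omega) with h | h
    · subst h
      norm_num
    · obtain ⟨d, rfl⟩ := Nat.exists_eq_add_of_le h
      rw [Nat.add_comm 3 d]
      have h12 := h8 d
      have h13 : (0 : ℝ) ≤ (2 * (283 / 2000)) ^ (d + 3) := by positivity
      linarith
  nlinarith [mul_le_mul_of_nonneg_left h11 (show 0 ≤ 1 - θ by linarith)]

theorem q43_mono {κ : ℝ} (h1 : 1 / 5 ≤ κ) (h2 : κ ≤ 2 / 5) (c : ℕ) (hc : 2 ≤ c) :
    (1 - κ) ^ c + (4 / 3 * κ) ^ c ≤ (1 - 1 / 5) ^ c + (4 / 3 * (1 / 5)) ^ c := by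
  obtain ⟨θ, hθ0, hθ1, hθ⟩ : ∃ θ : ℝ, 0 ≤ θ ∧ θ ≤ 1 ∧ κ = θ * (1 / 5) + (1 - θ) * (2 / 5) := by
    refine ⟨(2 / 5 - κ) / (2 / 5 - 1 / 5), ?_, ?_, ?_⟩
    · exact div_nonneg (by linarith) (by norm_num)
    · rw [div_le_one (by norm_num)]
      linarith
    · field_simp
      ring
  have h4 := pow_conv (show (0 : ℝ) ≤ 1 - 1 / 5 by norm_num) (show (0 : ℝ) ≤ 3 / 5 by norm_num)
    hθ0 hθ1 c
  have h5 := pow_conv (show (0 : ℝ) ≤ 4 / 3 * (1 / 5) by norm_num)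
    (show (0 : ℝ) ≤ 8 / 15 by norm_num) hθ0 hθ1 c
  have h6 : 1 - κ = θ * (1 - 1 / 5) + (1 - θ) * (3 / 5) := by rw [hθ]; ring
  have h7 : 4 / 3 * κ = θ * (4 / 3 * (1 / 5)) + (1 - θ) * (8 / 15) := by rw [hθ]; ring
  rw [← h6] at h4
  rw [← h7] at h5
  have h8 : ∀ d : ℕ, (3 / 5 : ℝ) ^ (d + 3) + (8 / 15 : ℝ) ^ (d + 3) ≤ (1 - 1 / 5) ^ (d + 3) := by
    intro d
    induction d with
    | zero => norm_num
    | succ d ih =>
      have h9 : (0 : ℝ) ≤ (8 / 15 : ℝ) ^ (d + 3) := by positivity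
      have h10 : (0 : ℝ) ≤ (1 - 1 / 5 : ℝ) ^ (d + 3) := by
        have : (0 : ℝ) ≤ 1 - 1 / 5 := by norm_num
        positivity
      have h12 : (0 : ℝ) ≤ (3 / 5 : ℝ) ^ (d + 3) := by positivity
      rw [show d + 1 + 3 = (d + 3) + 1 by omega, pow_succ _ (d + 3), pow_succ _ (d + 3),
        pow_succ _ (d + 3)]
      linarith
  have h11 : (3 / 5 : ℝ) ^ c + (8 / 15) ^ c ≤ (1 - 1 / 5) ^ c + (4 / 3 * (1 / 5)) ^ c := by
    rcases (show c = 2 ∨ 3 ≤ c by omega) with h | h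
    · subst h
      norm_num
    · obtain ⟨d, rfl⟩ := Nat.exists_eq_add_of_le h
      rw [Nat.add_comm 3 d]
      have h12 := h8 d
      have h13 : (0 : ℝ) ≤ (4 / 3 * (1 / 5)) ^ (d + 3) := by positivity
      linarith
  nlinarith [mul_le_mul_of_nonneg_left h11 (show 0 ≤ 1 - θ by linarith)]

/-! ### the value of the tilting factor -/

theorem exp_kl {N : ℕ} (hN : N ≤ 1201) : Real.exp (N * kl (11 / 80) (9 / 50)) ≤ 2611 := by
  have hNr : (N : ℝ) ≤ 1201 := by exact_mod_cast hN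
  have h1 : 80 * kl (11 / 80) (9 / 50) ≤ Real.log (16888 / 10000) := by
    have h2 : 80 * kl (11 / 80) (9 / 50) = Real.log ((55 / 72) ^ 11 * (345 / 328) ^ 69) := by
      unfold kl
      rw [Real.log_mul (by norm_num) (by norm_num), Real.log_pow, Real.log_pow]
      norm_num
      ring
    rw [h2]
    exact Real.log_le_log (by positivity) (by norm_num)
  have h3 : 0 ≤ Real.log (16888 / 10000) := Real.log_nonneg (by norm_num)
  have h4 : Real.log (16888 / 10000) ≤ 80 * Real.log (1007 / 1000) := by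
    have h5 : 80 * Real.log (1007 / 1000) = Real.log ((1007 / 1000) ^ 80) := by
      rw [Real.log_pow]
      norm_num
    rw [h5]
    exact Real.log_le_log (by norm_num) (by norm_num)
  have h6 : (N : ℝ) * kl (11 / 80) (9 / 50) ≤ Real.log ((16888 / 10000) ^ 15 * (1007 / 1000)) := by
    rw [Real.log_mul (by norm_num) (by norm_num), Real.log_pow]
    have h7 : (N : ℝ) * kl (11 / 80) (9 / 50) ≤ N / 80 * Real.log (16888 / 10000) := by
      have h8 : (0 : ℝ) ≤ N := Nat.cast_nonneg _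
      nlinarith
    have h8 : (N : ℝ) / 80 * Real.log (16888 / 10000) ≤ 1201 / 80 * Real.log (16888 / 10000) :=
      mul_le_mul_of_nonneg_right (by linarith) h3
    push_cast
    linarith
  calc Real.exp (N * kl (11 / 80) (9 / 50)) ≤ Real.exp (Real.log ((16888 / 10000) ^ 15 *
        (1007 / 1000))) := Real.exp_le_exp.2 h6
    _ = (16888 / 10000) ^ 15 * (1007 / 1000) := Real.exp_log (by positivity)
    _ ≤ 2611 := by norm_num

end Pool.MP322P
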