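import Pool.Agent.Lib.MP_322c5f_alP.PU00
import Pool.Agent.Lib.MP_322c5f_alP.PU07

/-! part PU, 8: classes with more than 300 moved points, `n ≥ 300`. -/

set_option autoImplicit false

open Finset Equiv

namespace Pool.MP322P

open Pool.MP322

theorem mem_T3 {n : ℕ} {P : Multiset ℕ → Prop} [DecidablePred P]
    (hP : ∀ τ, P τ → 300 < τ.sum) : ∀ τ ∈ (typesE n).filter P,
      (∀ c ∈ τ, 2 ≤ c ∧ c ≤ n) ∧ 301 ≤ τ.sum := by
  intro τ hτ
  rw [Finset.mem_filter] at hτ
  obtain ⟨h1, h2, h3⟩ := bsum_mem hτ.1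
  exact ⟨fun c hc => ⟨h1 c hc, (Multiset.le_sum_of_mem hc).trans h3⟩, hP τ hτ.2⟩

/-- the weights only help -/
theorem drop_w3 {T : Finset (Multiset ℕ)} {f : Multiset ℕ → ℝ} (hf : ∀ τ, 0 ≤ f τ) {z t : ℝ}
    (hz : 1 ≤ z) (h : ∑ τ ∈ T, f τ * z ^ (τ.sum - 301) ≤ t) : ∑ τ ∈ T, f τ ≤ t := by
  refine le_trans (Finset.sum_le_sum fun τ _ => ?_) h
  have h1 := one_le_pow₀ (M₀ := ℝ) hz (n := τ.sum - 301)
  nlinarith [hf τ]

/-- product over the cycles, factor `lam` -/
noncomputable def qG (lam κ : ℝ) (τ : Multiset ℕ) : ℝ :=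
  (τ.map (fun c => (1 - κ) ^ c + (lam * κ) ^ c)).prod

theorem qG_nonneg {lam κ : ℝ} (hl : 0 ≤ lam) (h0 : 0 ≤ κ) (h1 : κ ≤ 1) (τ : Multiset ℕ) :
    0 ≤ qG lam κ τ := by
  refine Multiset.prod_nonneg fun y hy => ?_
  obtain ⟨c, _, rfl⟩ := Multiset.mem_map.1 hy
  have : 0 ≤ 1 - κ := by linarith
  positivity

/-- one class, tilted -/
theorem one_tilt {n k : ℕ} {nu : Y (k + 1)} {g : Perm (Fin n)} (hn : 10 ≤ n) (hn2 : n ≤ 1200)
    (hκ : (11 / 80 : ℝ) * (n + 1) ≤ (k + 1 : ℕ)) (hJ : ((k + 1 : ℕ) : ℝ) ≤ 9 / 50 * (n + 1)) :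
    -(Psi nu g) ≤ ((n + 2) * 4080 * qS (9 / 50) g.cycleType) * (Del n (k + 1) * fd nu) := by
  have hm : g.cycleType.sum ≤ n := by
    rw [Perm.sum_cycleType]
    exact (Finset.card_le_univ _).trans (by simp)
  have hN : (0 : ℝ) < ((n + 1 : ℕ) : ℝ) := by exact_mod_cast Nat.succ_pos n
  have hnr : (10 : ℝ) ≤ n := by exact_mod_cast hn
  have hJn : k + 1 ≤ n := by
    have : ((k + 1 : ℕ) : ℝ) ≤ (n : ℕ) := by linarith
    exact_mod_cast this
  have h1 := Psi_le_NA nu g
  have h2 := NA_tilt (n := n) (J := k + 1) (τ := g.cycleType) hm (by omega)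
    (κ := ((k + 1 : ℕ) : ℝ) / ((n + 1 : ℕ) : ℝ)) (κ0 := 11 / 80) (κ1 := 9 / 50) rfl (by norm_num)
    (by rw [le_div_iff₀ hN]; push_cast at hκ ⊢; linarith)
    (by rw [div_le_iff₀ hN]; push_cast at hJ ⊢; linarith) (by norm_num)
  have h3 := exp_kl (N := n + 1) (by omega)
  have h5 := Del_ratio (n := n) (J := k + 1) (M := 25 / 16) (by omega) hJn (by
    push_cast at hJ ⊢; linarith)
  have hfd := fd_pos nu
  have hC : (0 : ℝ) ≤ (((n + 1).choose (k + 1) : ℕ) : ℝ) := Nat.cast_nonneg _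
  have hq0 := qS_nonneg (κ := 9 / 50) (by norm_num) (by norm_num) g.cycleType
  have hD : 0 ≤ Del n (k + 1) := by linarith
  have hE := Real.exp_pos (((n + 1 : ℕ) : ℝ) * kl (11 / 80) (9 / 50))
  calc -(Psi nu g) ≤ (NA n g.cycleType (k + 1) : ℝ) * fd nu := h1
    _ ≤ ((n + 2) * ((n + 1).choose (k + 1)) * Real.exp ((n + 1 : ℕ) * kl (11 / 80) (9 / 50)) *
          qS (9 / 50) g.cycleType) * fd nu := mul_le_mul_of_nonneg_right h2 hfd.le
    _ ≤ ((n + 2) * ((n + 1).choose (k + 1)) * 2611 * qS (9 / 50) g.cycleType) * fd nu := by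
        refine mul_le_mul_of_nonneg_right ?_ hfd.le
        refine mul_le_mul_of_nonneg_right ?_ hq0
        exact mul_le_mul_of_nonneg_left h3 (by positivity)
    _ ≤ ((n + 2) * (25 / 16 * Del n (k + 1)) * 2611 * qS (9 / 50) g.cycleType) * fd nu := by
        refine mul_le_mul_of_nonneg_right ?_ hfd.le
        refine mul_le_mul_of_nonneg_right ?_ hq0
        refine mul_le_mul_of_nonneg_right ?_ (by norm_num)
        exact mul_le_mul_of_nonneg_left h5 (by positivity)
    _ = (25 / 16 * 2611) * (((n : ℝ) + 2) * qS (9 / 50) g.cycleType * Del n (k + 1) * fd nu) := by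
        ring
    _ ≤ 4080 * (((n : ℝ) + 2) * qS (9 / 50) g.cycleType * Del n (k + 1) * fd nu) := by
        refine mul_le_mul_of_nonneg_right (by norm_num) (by positivity)
    _ = _ := by ring

/-- one class, without prefactor, at most `n/2` moved points -/
theorem one_free2 {n k : ℕ} {nu : Y (k + 1)} {g : Perm (Fin n)} (hm : 2 * g.cycleType.sum ≤ n)
    (hκ : (283 / 2000 : ℝ) * (n + 1) ≤ (k + 1 : ℕ)) (hJ : 5 * (k + 1) ≤ n + 1) (hn : 10 ≤ n) :
    -(Psi nu g) ≤ (5 / 3 * qG 2 (283 / 2000) g.cycleType) * (Del n (k + 1) * fd nu) := by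
  have hN : (0 : ℝ) < ((n + 1 : ℕ) : ℝ) := by exact_mod_cast Nat.succ_pos n
  have h1 := Psi_le_NA nu g
  have h2 := NA_free2 (n := n) (J := k + 1) (τ := g.cycleType) hm (by omega) rfl
  set κ : ℝ := ((k + 1 : ℕ) : ℝ) / ((n + 1 : ℕ) : ℝ) with hκd
  have hκ1 : 283 / 2000 ≤ κ := by
    rw [hκd, le_div_iff₀ hN]
    push_cast at hκ ⊢
    linarith
  have hk : (5 : ℝ) * ((k + 1 : ℕ) : ℝ) ≤ n + 1 := by exact_mod_cast hJ
  have hκ2 : κ ≤ 1 / 5 := by
    rw [hκd, div_le_iff₀ hN]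
    push_cast at hk ⊢
    linarith
  have h4 : (g.cycleType.map (fun c => (1 - κ) ^ c + (2 * κ) ^ c)).prod ≤
      qG 2 (283 / 2000) g.cycleType := by
    refine prod_q_le (fun c _ => ?_) fun c hc => q2_mono hκ1 hκ2 c
      (Perm.two_le_of_mem_cycleType hc)
    have h4 : 0 ≤ 1 - κ := by linarith
    have h5 : 0 ≤ κ := by linarith
    positivity
  have h5 := Del_ratio (n := n) (J := k + 1) (M := 5 / 3) (by omega) (by omega) (by linarith)
  have hfd := fd_pos nu
  have hC : (0 : ℝ) ≤ (((n + 1).choose (k + 1) : ℕ) : ℝ) := Nat.cast_nonneg _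
  calc -(Psi nu g) ≤ (NA n g.cycleType (k + 1) : ℝ) * fd nu := h1
    _ ≤ (((n + 1).choose (k + 1)) * (g.cycleType.map (fun c => (1 - κ) ^ c + (2 * κ) ^ c)).prod) *
        fd nu := mul_le_mul_of_nonneg_right h2 hfd.le
    _ ≤ (((n + 1).choose (k + 1)) * qG 2 (283 / 2000) g.cycleType) * fd nu := by
        refine mul_le_mul_of_nonneg_right ?_ hfd.le
        exact mul_le_mul_of_nonneg_left h4 hC
    _ ≤ ((5 / 3 * Del n (k + 1)) * qG 2 (283 / 2000) g.cycleType) * fd nu := by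
        refine mul_le_mul_of_nonneg_right ?_ hfd.le
        exact mul_le_mul_of_nonneg_right h5 (qG_nonneg (by norm_num) (by norm_num) (by norm_num) _)
    _ = _ := by ring

/-- one class, without prefactor, at most `n/4` moved points, large depth -/
theorem one_free4 {n k : ℕ} {nu : Y (k + 1)} {g : Perm (Fin n)} (hm : 4 * g.cycleType.sum ≤ n)
    (hκ : (1 / 5 : ℝ) * (n + 1) ≤ (k + 1 : ℕ)) (hJ : 5 * (k + 1) ≤ 2 * n + 2) (hn : 10 ≤ n) :
    -(Psi nu g) ≤ (5 * qG (4 / 3) (1 / 5) g.cycleType) * (Del n (k + 1) * fd nu) := by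
  have hN : (0 : ℝ) < ((n + 1 : ℕ) : ℝ) := by exact_mod_cast Nat.succ_pos n
  have h1 := Psi_le_NA nu g
  have h2 := NA_free (n := n) (J := k + 1) (τ := g.cycleType) hm (by omega) rfl
  set κ : ℝ := ((k + 1 : ℕ) : ℝ) / ((n + 1 : ℕ) : ℝ) with hκd
  have hκ1 : 1 / 5 ≤ κ := by
    rw [hκd, le_div_iff₀ hN]
    push_cast at hκ ⊢
    linarith
  have hk : (5 : ℝ) * ((k + 1 : ℕ) : ℝ) ≤ 2 * n + 2 := by exact_mod_cast hJ
  have hκ2 : κ ≤ 2 / 5 := by
    rw [hκd, div_le_iff₀ hN]
    push_cast at hk ⊢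
    linarith
  have h4 : (g.cycleType.map (fun c => (1 - κ) ^ c + (4 / 3 * κ) ^ c)).prod ≤
      qG (4 / 3) (1 / 5) g.cycleType := by
    refine prod_q_le (fun c _ => ?_) fun c hc => q43_mono hκ1 hκ2 c
      (Perm.two_le_of_mem_cycleType hc)
    have h4 : 0 ≤ 1 - κ := by linarith
    have h5 : 0 ≤ κ := by linarith
    positivity
  have h5 := Del_ratio (n := n) (J := k + 1) (M := 5) (by omega) (by omega) (by linarith)
  have hfd := fd_pos nu
  have hC : (0 : ℝ) ≤ (((n + 1).choose (k + 1) : ℕ) : ℝ) := Nat.cast_nonneg _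
  calc -(Psi nu g) ≤ (NA n g.cycleType (k + 1) : ℝ) * fd nu := h1
    _ ≤ (((n + 1).choose (k + 1)) * (g.cycleType.map (fun c => (1 - κ) ^ c + (4 / 3 * κ) ^ c)).prod) *
        fd nu := mul_le_mul_of_nonneg_right h2 hfd.le
    _ ≤ (((n + 1).choose (k + 1)) * qG (4 / 3) (1 / 5) g.cycleType) * fd nu := by
        refine mul_le_mul_of_nonneg_right ?_ hfd.le
        exact mul_le_mul_of_nonneg_left h4 hC
    _ ≤ ((5 * Del n (k + 1)) * qG (4 / 3) (1 / 5) g.cycleType) * fd nu := by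
        refine mul_le_mul_of_nonneg_right ?_ hfd.le
        exact mul_le_mul_of_nonneg_right h5 (qG_nonneg (by norm_num) (by norm_num) (by norm_num) _)
    _ = _ := by ring

/-- `300 ≤ n ≤ 1200`. -/
theorem tail300_mid {n K k0 : ℕ} (h1 : 300 ≤ n) (h2 : n ≤ 1200) (hK : 138 * n ≤ 1000 * K)
    (hk0 : 5 * k0 ≤ 2 * n + 7) : PSIp n K k0 300 n (1 / 50) := by
  classical
  have hnr : (300 : ℝ) ≤ n := by exact_mod_cast h1
  have hnr2 : (n : ℝ) ≤ 1200 := by exact_mod_cast h2
  have hK' : (138 : ℝ) * n ≤ 1000 * K := by exact_mod_cast hK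
  refine ⟨fun τ => (n + 2) * 4080 * qS (9 / 50) τ, fun τ => ?_, ?_, ?_⟩
  · have := qS_nonneg (κ := 9 / 50) (by norm_num) (by norm_num) τ
    positivity
  · intro k nu g hk1 hk2 _ _ _ _
    have hk1' : (K : ℝ) ≤ ((k + 1 : ℕ) : ℝ) := by exact_mod_cast hk1
    have hJ : 5 * (k + 1) ≤ 2 * n + 2 := by omega
    have hk : (5 : ℝ) * ((k + 1 : ℕ) : ℝ) ≤ 2 * n + 2 := by exact_mod_cast hJ
    beta_reduce
    rcases le_total ((k + 1 : ℕ) : ℝ) (9 / 50 * ((n : ℝ) + 1)) with h | h
    · exact one_tilt (by omega) h2 (by linarith) h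
    · have h3 := qS_nonneg (κ := 9 / 50) (by norm_num) (by norm_num) g.cycleType
      have hD : 0 ≤ Del n (k + 1) := by
        have h5 := Del_ratio (n := n) (J := k + 1) (M := 5) (by omega) (by omega) (by linarith)
        have hC : (0 : ℝ) ≤ (((n + 1).choose (k + 1) : ℕ) : ℝ) := Nat.cast_nonneg _
        linarith
      have hfd := fd_pos nu
      have h7 := one_std (nu := nu) (g := g) (κ0 := 9 / 50) (M := 5) (by norm_num) (by norm_num)
        h hJ (by omega) (by linarith)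
      refine h7.trans ?_
      refine mul_le_mul_of_nonneg_right ?_ (by positivity)
      refine mul_le_mul_of_nonneg_right ?_ h3
      linarith
  · have h6 := drop_w3 (f := fun τ => qS (9 / 50) τ)
      (fun τ => qS_nonneg (by norm_num) (by norm_num) τ) (by norm_num)
      (sumVA (n := n) (by omega) (mem_T3 (n := n) (P := fun τ => 300 < τ.sum ∧ τ.sum ≤ n)
        (fun τ h => h.1)))
    rw [← Finset.mul_sum]
    calc ((n : ℝ) + 2) * 4080 * ∑ τ ∈ (typesE n).filter (fun τ => 300 < τ.sum ∧ τ.sum ≤ n),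
          qS (9 / 50) τ ≤ (n + 2) * 4080 * (282 / 100000000000) :=
          mul_le_mul_of_nonneg_left (h6.trans (by norm_num)) (by positivity)
      _ ≤ 1 / 50 := by linarith

/-- large `n`. -/
theorem tail300_large {n K k0 : ℕ} (h1 : 1200 ≤ n) (hK : 142 * n ≤ 1000 * K)
    (hk0 : 5 * k0 ≤ 2 * n + 7) : PSIp n K k0 300 n (1 / 50) := by
  classical
  have hnr : (1200 : ℝ) ≤ n := by exact_mod_cast h1
  have hK' : (142 : ℝ) * n ≤ 1000 * K := by exact_mod_cast hK
  refine ⟨fun τ => 5 / 3 * qG 2 (283 / 2000) τ +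
      (if 2 * τ.sum ≤ n then 0 else (n + 2) * (5 / 3) * qS (283 / 2000) τ) +
      (5 * qG (4 / 3) (1 / 5) τ + if 4 * τ.sum ≤ n then 0 else (n + 2) * 5 * qS (1 / 5) τ),
    fun τ => ?_, ?_, ?_⟩
  · have h3 := qS_nonneg (κ := 283 / 2000) (by norm_num) (by norm_num) τ
    have h4 := qG_nonneg (lam := 2) (κ := 283 / 2000) (by norm_num) (by norm_num) (by norm_num) τ
    have h5 := qG_nonneg (lam := 4 / 3) (κ := 1 / 5) (by norm_num) (by norm_num) (by norm_num) τ
    have h6 := qS_nonneg (κ := 1 / 5) (by norm_num) (by norm_num) τ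
    beta_reduce
    split_ifs <;> positivity
  · intro k nu g hk1 hk2 _ _ _ _
    have hk1' : (K : ℝ) ≤ ((k + 1 : ℕ) : ℝ) := by exact_mod_cast hk1
    have hJ : 5 * (k + 1) ≤ 2 * n + 2 := by omega
    have hk : (5 : ℝ) * ((k + 1 : ℕ) : ℝ) ≤ 2 * n + 2 := by exact_mod_cast hJ
    have h3 := qS_nonneg (κ := 283 / 2000) (by norm_num) (by norm_num) g.cycleType
    have h4 := qG_nonneg (lam := 2) (κ := 283 / 2000) (by norm_num) (by norm_num) (by norm_num)
      g.cycleType
    have h5 := qG_nonneg (lam := 4 / 3) (κ := 1 / 5) (by norm_num) (by norm_num) (by norm_num)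
      g.cycleType
    have h6 := qS_nonneg (κ := 1 / 5) (by norm_num) (by norm_num) g.cycleType
    have hD : 0 ≤ Del n (k + 1) := by
      have h5 := Del_ratio (n := n) (J := k + 1) (M := 5) (by omega) (by omega) (by linarith)
      have hC : (0 : ℝ) ≤ (((n + 1).choose (k + 1) : ℕ) : ℝ) := Nat.cast_nonneg _
      linarith
    have hfd := fd_pos nu
    have hDf : 0 ≤ Del n (k + 1) * fd nu := by positivity
    have hn2 : (0 : ℝ) ≤ (n : ℝ) + 2 := by positivity
    beta_reduce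
    have hA : 0 ≤ (if 2 * g.cycleType.sum ≤ n then (0 : ℝ) else
        (n + 2) * (5 / 3) * qS (283 / 2000) g.cycleType) := by
      split_ifs <;> positivity
    have hB : 0 ≤ (if 4 * g.cycleType.sum ≤ n then (0 : ℝ) else
        (n + 2) * 5 * qS (1 / 5) g.cycleType) := by
      split_ifs <;> positivity
    rcases Nat.lt_or_ge (n + 1) (5 * (k + 1)) with h | h
    · have h8 : ((n : ℝ) + 1) ≤ 5 * ((k + 1 : ℕ) : ℝ) := by exact_mod_cast h.le
      by_cases h9 : 4 * g.cycleType.sum ≤ n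
      · have h7 := one_free4 (nu := nu) (g := g) h9 (by linarith) hJ (by omega)
        refine h7.trans (mul_le_mul_of_nonneg_right ?_ hDf)
        linarith
      · have h7 := one_std (nu := nu) (g := g) (κ0 := 1 / 5) (M := 5) (by norm_num) (by norm_num)
          (by linarith) hJ (by omega) (by linarith)
        refine h7.trans (mul_le_mul_of_nonneg_right ?_ hDf)
        rw [if_neg h9]
        linarith
    · have h8 : 5 * ((k + 1 : ℕ) : ℝ) ≤ (n : ℝ) + 1 := by exact_mod_cast h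
      by_cases h9 : 2 * g.cycleType.sum ≤ n
      · have h7 := one_free2 (nu := nu) (g := g) h9 (by linarith) h (by omega)
        refine h7.trans (mul_le_mul_of_nonneg_right ?_ hDf)
        linarith
      · have h7 := one_std (nu := nu) (g := g) (κ0 := 283 / 2000) (M := 5 / 3) (by norm_num)
          (by norm_num) (by linarith) hJ (by omega) (by linarith)
        refine h7.trans (mul_le_mul_of_nonneg_right ?_ hDf)
        rw [if_neg h9]
        linarith
  · have hT := mem_T3 (n := n) (P := fun τ => 300 < τ.sum ∧ τ.sum ≤ n) (fun τ h => h.1)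
    set T := (typesE n).filter (fun τ => 300 < τ.sum ∧ τ.sum ≤ n) with hTd
    have hB := sumVB (n := n) (by omega) hT
    have hC := sumVC (n := n) (by omega) hT
    have hD := sumVD (n := n) (by omega) hT
    have h6 := drop_w3 (f := fun τ => qG 2 (283 / 2000) τ)
      (qG_nonneg (by norm_num) (by norm_num) (by norm_num)) (by norm_num) hB
    have h6' := drop_w3 (f := fun τ => qG (4 / 3) (1 / 5) τ)
      (qG_nonneg (by norm_num) (by norm_num) (by norm_num)) (by norm_num) hD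
    rw [Finset.sum_add_distrib, Finset.sum_add_distrib, Finset.sum_add_distrib, ← Finset.mul_sum,
      ← Finset.mul_sum]
    -- more than `n/2` moved points
    have h7 : ∑ τ ∈ T, (if 2 * τ.sum ≤ n then 0 else ((n : ℝ) + 2) * (5 / 3) * qS (283 / 2000) τ) ≤
        ∑ τ ∈ T, (1 / 1000000) * (qS (283 / 2000) τ * (271 / 250 : ℝ) ^ (τ.sum - 301)) := by
      refine Finset.sum_le_sum fun τ hτ => ?_
      have h3 := qS_nonneg (κ := 283 / 2000) (by norm_num) (by norm_num) τ
      have h8 := (hT τ hτ).2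
      split_ifs with h9
      · positivity
      · obtain ⟨d, hd⟩ := Nat.exists_eq_add_of_le (show 601 ≤ τ.sum by omega)
        rw [hd, show 601 + d - 301 = 300 + d by omega, pow_add]
        have h10 : n + 2 ≤ 1203 + 2 * d := by omega
        have h11 : ((n : ℝ) + 2) ≤ 1203 + 2 * d := by exact_mod_cast h10
        have h12 := one_add_mul_le_pow (show (-2 : ℝ) ≤ 21 / 250 by norm_num) d
        have h13 : (1 + 21 / 250 : ℝ) = 271 / 250 := by norm_num
        rw [h13] at h12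
        have h14 : ((n : ℝ) + 2) ≤ 1203 * (271 / 250) ^ d := by
          have : (0 : ℝ) ≤ d := Nat.cast_nonneg _
          linarith
        have h15 : (1203 * (5 / 3) : ℝ) ≤ 1 / 1000000 * (271 / 250) ^ 300 := by
          rw [show (300 : ℕ) = 20 * 15 from rfl, pow_mul]
          norm_num
        have h16 : (0 : ℝ) ≤ (271 / 250) ^ d := by positivity
        calc ((n : ℝ) + 2) * (5 / 3) * qS (283 / 2000) τ ≤
              (1203 * (271 / 250) ^ d) * (5 / 3) * qS (283 / 2000) τ := by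
              refine mul_le_mul_of_nonneg_right ?_ h3
              linarith
          _ = (1203 * (5 / 3)) * ((271 / 250) ^ d * qS (283 / 2000) τ) := by ring
          _ ≤ (1 / 1000000 * (271 / 250) ^ 300) * ((271 / 250) ^ d * qS (283 / 2000) τ) :=
              mul_le_mul_of_nonneg_right h15 (by positivity)
          _ = _ := by ring
    have h8 : ∑ τ ∈ T, (if 4 * τ.sum ≤ n then 0 else ((n : ℝ) + 2) * 5 * qS (1 / 5) τ) ≤
        ∑ τ ∈ T, (1205 * 5) * (qG (4 / 3) (1 / 5) τ * (29 / 25 : ℝ) ^ (τ.sum - 301)) := by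
      refine Finset.sum_le_sum fun τ hτ => ?_
      have h3 := qS_nonneg (κ := 1 / 5) (by norm_num) (by norm_num) τ
      have h4 := qG_nonneg (lam := 4 / 3) (κ := 1 / 5) (by norm_num) (by norm_num) (by norm_num) τ
      have h8 := (hT τ hτ).2
      have h5 : qS (1 / 5) τ ≤ qG (4 / 3) (1 / 5) τ := by
        refine prod_q_le (fun c _ => ?_) fun c _ => ?_
        · norm_num
          positivity
        · have : (1 / 5 : ℝ) ^ c ≤ (4 / 3 * (1 / 5)) ^ c :=
            pow_le_pow_left₀ (by norm_num) (by norm_num) c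
          linarith
      split_ifs with h9
      · positivity
      · obtain ⟨d, hd⟩ := Nat.exists_eq_add_of_le h8
        rw [hd, Nat.add_sub_cancel_left]
        have h10 : n + 2 ≤ 1205 + 4 * d := by omega
        have h11 : ((n : ℝ) + 2) ≤ 1205 + 4 * d := by exact_mod_cast h10
        have h12 := one_add_mul_le_pow (show (-2 : ℝ) ≤ 4 / 25 by norm_num) d
        have h13 : (1 + 4 / 25 : ℝ) = 29 / 25 := by norm_num
        rw [h13] at h12
        have h14 : ((n : ℝ) + 2) ≤ 1205 * (29 / 25) ^ d := by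
          have : (0 : ℝ) ≤ d := Nat.cast_nonneg _
          linarith
        have h16 : (0 : ℝ) ≤ (29 / 25) ^ d := by positivity
        calc ((n : ℝ) + 2) * 5 * qS (1 / 5) τ ≤ (1205 * (29 / 25) ^ d) * 5 * qG (4 / 3) (1 / 5) τ := by
              refine mul_le_mul ?_ h5 h3 (by positivity)
              linarith
          _ = _ := by ring
    rw [← Finset.mul_sum] at h7 h8
    have h9 := mul_le_mul_of_nonneg_left hC (show (0 : ℝ) ≤ 1 / 1000000 by norm_num)
    have h10 := mul_le_mul_of_nonneg_left hD (show (0 : ℝ) ≤ 1205 * 5 by norm_num)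
    have h11 : (1 / 1000000 : ℝ) * ∑ τ ∈ T, qS (283 / 2000) τ * (271 / 250 : ℝ) ^ (τ.sum - 301) ≤
        1 / 1000000 * (23 / 10000) := h9
    have h12 : (1205 * 5 : ℝ) * ∑ τ ∈ T, qG (4 / 3) (1 / 5) τ * (29 / 25 : ℝ) ^ (τ.sum - 301) ≤
        1205 * 5 * (5 / 1000000000000) := h10.trans (by norm_num)
    have h13 : ∑ τ ∈ T, qG 2 (283 / 2000) τ ≤ 711 / 100000 := h6
    have h14 : ∑ τ ∈ T, qG (4 / 3) (1 / 5) τ ≤ 5 / 1000000000000 := h6'.trans (by norm_num)
    linarith

end Pool.MP322P
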