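import Pool.Agent.Lib.MP_322c5f_alP.PU08

/-! part PU, 9: classes with more than 300 moved points, `300 ≤ n ≤ 1200`, smaller depths. -/

set_option autoImplicit false

open Finset Equiv

namespace Pool.MP322P

open Pool.MP322

theorem exp_kl2 {N : ℕ} (hN : N ≤ 1001) : Real.exp (N * kl (53 / 400) (9 / 50)) ≤ 3898 := by
  have hNr : (N : ℝ) ≤ 1001 := by exact_mod_cast hN
  have h1 : 400 * kl (53 / 400) (9 / 50) ≤ Real.log (272 / 10) := by
    have h2 : 400 * kl (53 / 400) (9 / 50) =
        53 * Real.log (53 / 72) + 347 * Real.log (347 / 328) := by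
      unfold kl
      norm_num
      ring
    have h3 : 53 * Real.log (53 / 72) = Real.log ((53 / 72) ^ 53) := by
      rw [Real.log_pow]
      norm_num
    have h4 : 347 * Real.log (347 / 328) = Real.log ((347 / 328) ^ 347) := by
      rw [Real.log_pow]
      norm_num
    rw [h2, h3, h4, ← Real.log_mul (by positivity) (by positivity)]
    refine Real.log_le_log (by positivity) ?_
    rw [show (347 : ℕ) = 20 * 17 + 7 from rfl, pow_add, pow_mul]
    norm_num
  have h3 : 0 ≤ Real.log (272 / 10) := Real.log_nonneg (by norm_num)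
  have h4 : Real.log (272 / 10) ≤ 400 * Real.log (101 / 100) := by
    have h5 : 400 * Real.log (101 / 100) = Real.log ((101 / 100) ^ 400) := by
      rw [Real.log_pow]
      norm_num
    rw [h5]
    refine Real.log_le_log (by norm_num) ?_
    rw [show (400 : ℕ) = 20 * 20 from rfl, pow_mul]
    norm_num
  have h5 : 5 * Real.log (272 / 10) ≤ 2 * Real.log 3859 := by
    have h6 : 5 * Real.log (272 / 10) = Real.log ((272 / 10) ^ 5) := by
      rw [Real.log_pow]
      norm_num
    have h7 : 2 * Real.log 3859 = Real.log (3859 ^ 2) := by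
      rw [Real.log_pow]
      norm_num
    rw [h6, h7]
    exact Real.log_le_log (by norm_num) (by norm_num)
  have h6 : (N : ℝ) * kl (53 / 400) (9 / 50) ≤ Real.log (3859 * (101 / 100)) := by
    rw [Real.log_mul (by norm_num) (by norm_num)]
    have h7 : (N : ℝ) * kl (53 / 400) (9 / 50) ≤ N / 400 * Real.log (272 / 10) := by
      have h8 : (0 : ℝ) ≤ N := Nat.cast_nonneg _
      nlinarith
    have h8 : (N : ℝ) / 400 * Real.log (272 / 10) ≤ 1001 / 400 * Real.log (272 / 10) :=
      mul_le_mul_of_nonneg_right (by linarith) h3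
    linarith
  calc Real.exp (N * kl (53 / 400) (9 / 50)) ≤ Real.exp (Real.log (3859 * (101 / 100))) :=
        Real.exp_le_exp.2 h6
    _ = 3859 * (101 / 100) := Real.exp_log (by positivity)
    _ ≤ 3898 := by norm_num

/-- one class, tilted -/
theorem one_tilt2 {n k : ℕ} {nu : Y (k + 1)} {g : Perm (Fin n)} (hn : 10 ≤ n) (hn2 : n ≤ 1000)
    (hκ : (53 / 400 : ℝ) * (n + 1) ≤ (k + 1 : ℕ)) (hJ : ((k + 1 : ℕ) : ℝ) ≤ 9 / 50 * (n + 1)) :
    -(Psi nu g) ≤ ((n + 2) * 6100 * qS (9 / 50) g.cycleType) * (Del n (k + 1) * fd nu) := by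
  have hm : g.cycleType.sum ≤ n := by
    rw [Perm.sum_cycleType]
    exact (Finset.card_le_univ _).trans (by simp)
  have hN : (0 : ℝ) < ((n + 1 : ℕ) : ℝ) := by exact_mod_cast Nat.succ_pos n
  have hnr : (10 : ℝ) ≤ n := by exact_mod_cast hn
  have hJn : k + 1 ≤ n := by
    have : ((k + 1 : ℕ) : ℝ) ≤ (n : ℕ) := by linarith
    exact_mod_cast this
  have h1 := Psi_le_NA nu g
  have h2 := NA_tilt (n := n) (J := k + 1) (τ := g.cycleType) hm (by omega)
    (κ := ((k + 1 : ℕ) : ℝ) / ((n + 1 : ℕ) : ℝ)) (κ0 := 53 / 400) (κ1 := 9 / 50) rfl (by norm_num)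
    (by rw [le_div_iff₀ hN]; push_cast at hκ ⊢; linarith)
    (by rw [div_le_iff₀ hN]; push_cast at hJ ⊢; linarith) (by norm_num)
  have h3 := exp_kl2 (N := n + 1) (by omega)
  have h5 := Del_ratio (n := n) (J := k + 1) (M := 25 / 16) (by omega) hJn (by
    push_cast at hJ ⊢; linarith)
  have hfd := fd_pos nu
  have hC : (0 : ℝ) ≤ (((n + 1).choose (k + 1) : ℕ) : ℝ) := Nat.cast_nonneg _
  have hq0 := qS_nonneg (κ := 9 / 50) (by norm_num) (by norm_num) g.cycleType
  have hD : 0 ≤ Del n (k + 1) := by linarith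
  have hE := Real.exp_pos (((n + 1 : ℕ) : ℝ) * kl (53 / 400) (9 / 50))
  calc -(Psi nu g) ≤ (NA n g.cycleType (k + 1) : ℝ) * fd nu := h1
    _ ≤ ((n + 2) * ((n + 1).choose (k + 1)) * Real.exp ((n + 1 : ℕ) * kl (53 / 400) (9 / 50)) *
          qS (9 / 50) g.cycleType) * fd nu := mul_le_mul_of_nonneg_right h2 hfd.le
    _ ≤ ((n + 2) * ((n + 1).choose (k + 1)) * 3898 * qS (9 / 50) g.cycleType) * fd nu := by
        refine mul_le_mul_of_nonneg_right ?_ hfd.le
        refine mul_le_mul_of_nonneg_right ?_ hq0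
        exact mul_le_mul_of_nonneg_left h3 (by positivity)
    _ ≤ ((n + 2) * (25 / 16 * Del n (k + 1)) * 3898 * qS (9 / 50) g.cycleType) * fd nu := by
        refine mul_le_mul_of_nonneg_right ?_ hfd.le
        refine mul_le_mul_of_nonneg_right ?_ hq0
        refine mul_le_mul_of_nonneg_right ?_ (by norm_num)
        exact mul_le_mul_of_nonneg_left h5 (by positivity)
    _ = (25 / 16 * 3898) * (((n : ℝ) + 2) * qS (9 / 50) g.cycleType * Del n (k + 1) * fd nu) := by
        ring
    _ ≤ 6100 * (((n : ℝ) + 2) * qS (9 / 50) g.cycleType * Del n (k + 1) * fd nu) := by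
        refine mul_le_mul_of_nonneg_right (by norm_num) (by positivity)
    _ = _ := by ring

/-- `300 ≤ n ≤ 1200`, depth at least `.133 n`, and at least `.138 n` if `n > 1000`. -/
theorem tail300_mid' {n K k0 : ℕ} (h1 : 300 ≤ n) (h2 : n ≤ 1200) (hK : 133 * n ≤ 1000 * K)
    (hK2 : 1000 < n → 138 * n ≤ 1000 * K) (hk0 : 5 * k0 ≤ 2 * n + 7) :
    PSIp n K k0 300 n (1 / 50) := by
  classical
  rcases Nat.lt_or_ge 1000 n with hn | hn
  · exact tail300_mid h1 h2 (hK2 hn) hk0
  have hnr : (300 : ℝ) ≤ n := by exact_mod_cast h1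
  have hnr2 : (n : ℝ) ≤ 1000 := by exact_mod_cast hn
  have hK' : (133 : ℝ) * n ≤ 1000 * K := by exact_mod_cast hK
  refine ⟨fun τ => (n + 2) * 6100 * qS (9 / 50) τ, fun τ => ?_, ?_, ?_⟩
  · have := qS_nonneg (κ := 9 / 50) (by norm_num) (by norm_num) τ
    positivity
  · intro k nu g hk1 hk2 _ _ _ _
    have hk1' : (K : ℝ) ≤ ((k + 1 : ℕ) : ℝ) := by exact_mod_cast hk1
    have hJ : 5 * (k + 1) ≤ 2 * n + 2 := by omega
    have hk : (5 : ℝ) * ((k + 1 : ℕ) : ℝ) ≤ 2 * n + 2 := by exact_mod_cast hJ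
    beta_reduce
    rcases le_total ((k + 1 : ℕ) : ℝ) (9 / 50 * ((n : ℝ) + 1)) with h | h
    · exact one_tilt2 (by omega) hn (by linarith) h
    · have h3 := qS_nonneg (κ := 9 / 50) (by norm_num) (by norm_num) g.cycleType
      have hD : 0 ≤ Del n (k + 1) := by
        have h5 := Del_ratio (n := n) (J := k + 1) (M := 5) (by omega) (by omega) (by linarith)
        have hC : (0 : ℝ) ≤ (((n + 1).choose (k + 1) : ℕ) : ℝ) := Nat.cast_nonneg _
        linarith
      have hfd := fd_pos nu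
      have h7 := one_std (nu := nu) (g := g) (κ0 := 9 / 50) (M := 5) (by norm_num) (by norm_num)
        h hJ (by omega) (by linarith)
      refine h7.trans ?_
      refine mul_le_mul_of_nonneg_right ?_ (by positivity)
      refine mul_le_mul_of_nonneg_right ?_ h3
      linarith
  · have h6 := drop_w3 (f := fun τ => qS (9 / 50) τ)
      (fun τ => qS_nonneg (by norm_num) (by norm_num) τ) (by norm_num)
      (sumVA (n := n) (by omega) (mem_T3 (n := n) (P := fun τ => 300 < τ.sum ∧ τ.sum ≤ n)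
        (fun τ h => h.1)))
    rw [← Finset.mul_sum]
    calc ((n : ℝ) + 2) * 6100 * ∑ τ ∈ (typesE n).filter (fun τ => 300 < τ.sum ∧ τ.sum ≤ n),
          qS (9 / 50) τ ≤ (n + 2) * 6100 * (282 / 100000000000) :=
          mul_le_mul_of_nonneg_left (h6.trans (by norm_num)) (by positivity)
      _ ≤ 1 / 50 := by linarith

end Pool.MP322P
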