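import Pool.Agent.Lib.MP_322c5f_alP.PZ01

/-! job 322P-Z3: consumer theorems with integer budgets; corners and first rows for `n ≥ 3000`. -/

set_option autoImplicit false

open Equiv Finset Nat
open scoped NNReal

namespace Pool.MP322P

open Pool.MP322 Pool.MP322F

/-- from `good_of_budget`. -/
theorem good_row {n c0 K k0 f B x : ℕ} (hn : 2 ≤ n) (hc0 : 1 ≤ c0) (hK : 1 ≤ K) (hKk : K ≤ k0)
    (hk0 : 2 * k0 ≤ n + 2) (hF : (FS n k0 : ℝ) ≤ (f : ℝ) / 1000)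
    (hU : uC n (c0 - 1) + sC n ≤ (B : ℝ) / 1000 * (n ! : ℝ))
    (hP : PSIp n K k0 0 n ((x : ℝ) / 10000))
    (hSq : ∀ lam mu : Y n, c0 ≤ mcor lam.1 → n - mu.1.rowLen 0 < K → Sq lam mu)
    (ht : 10 * f + 10 * B + x < 10000) : ∃ lam : Y n, GoodD lam := by
  refine good_of_budget hn hc0 hK hKk hk0 hP hSq ?_
  have hn0 : (0 : ℝ) < (n ! : ℝ) := by exact_mod_cast Nat.factorial_pos n
  have ht' : (10 : ℝ) * f + 10 * B + x < 10000 := by exact_mod_cast ht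
  have h1 : (n ! : ℝ) * ((FS n k0 : ℝ) + (x : ℝ) / 10000) ≤
      (n ! : ℝ) * ((f : ℝ) / 1000 + (x : ℝ) / 10000) :=
    mul_le_mul_of_nonneg_left (by linarith) hn0.le
  have h2 : (n ! : ℝ) * ((f : ℝ) / 1000 + (x : ℝ) / 10000 + (B : ℝ) / 1000) < (n ! : ℝ) * 1 :=
    mul_lt_mul_of_pos_left (by linarith) hn0
  nlinarith

/-- from `good_of_budget'`. -/
theorem good_row' {n c0 K f B : ℕ} (hn : 2 ≤ n) (hc0 : 1 ≤ c0) (hK : 1 ≤ K)
    (hk0 : 2 * K ≤ n + 2) (hF : (FS n K : ℝ) ≤ (f : ℝ) / 1000)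
    (hU : uC n (c0 - 1) + sC n ≤ (B : ℝ) / 1000 * (n ! : ℝ))
    (hSq : ∀ lam mu : Y n, c0 ≤ mcor lam.1 → n - mu.1.rowLen 0 < K → Sq lam mu)
    (ht : f + B < 1000) : ∃ lam : Y n, GoodD lam := by
  refine good_of_budget' hn hc0 hK hk0 hSq ?_
  have hn0 : (0 : ℝ) < (n ! : ℝ) := by exact_mod_cast Nat.factorial_pos n
  have ht' : (f : ℝ) + B < 1000 := by exact_mod_cast ht
  have h1 : (n ! : ℝ) * (FS n K : ℝ) ≤ (n ! : ℝ) * ((f : ℝ) / 1000) :=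
    mul_le_mul_of_nonneg_left hF hn0.le
  have h2 : (n ! : ℝ) * ((f : ℝ) / 1000 + (B : ℝ) / 1000) < (n ! : ℝ) * 1 :=
    mul_lt_mul_of_pos_left (by linarith) hn0
  nlinarith

/-- `c0 = ⌊.88 √n⌋`. -/
def c88 (n : ℕ) : ℕ := Nat.sqrt (484 * n / 625)

/-- `K = ⌊c0²/5⌋ + 1`. -/
def K88 (n : ℕ) : ℕ := c88 n ^ 2 / 5 + 1

theorem c88_le (n : ℕ) : 625 * c88 n ^ 2 ≤ 484 * n := by
  have h1 : c88 n ^ 2 ≤ 484 * n / 625 := Nat.sqrt_le' _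
  omega

private theorem c88_lt (n : ℕ) : 484 * n < 625 * (c88 n + 1) ^ 2 := by
  have h1 : 484 * n / 625 < (c88 n + 1) ^ 2 := Nat.lt_succ_sqrt' _
  omega

/-- `c0 ≥ 26`, in fact `≥ 48`. -/
theorem c88_ge {n : ℕ} (hn : 3000 ≤ n) : 48 ≤ c88 n := by
  unfold c88
  rw [Nat.le_sqrt]
  omega

private theorem c88_ge5 {n : ℕ} (hn : 5000 ≤ n) : 62 ≤ c88 n := by
  unfold c88
  rw [Nat.le_sqrt]
  omega

private theorem five_K88 (n : ℕ) : c88 n ^ 2 + 1 ≤ 5 * K88 n := by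
  unfold K88
  omega

/-- `(c0 + 1)^2 > 484 n / 625 - 1`, so `5 K ≥ c0^2 + 1` and `c0 ≥ √(484 n / 625 - 1) - 1`.
For `n ≥ 3000` the quotient `K / n` is at least `.1485`. -/
theorem K88_a {n : ℕ} (hn : 3000 ≤ n) : 1485 * n ≤ 10000 * K88 n := by
  have h1 := c88_lt n
  have h2 := c88_ge hn
  have h3 := five_K88 n
  obtain ⟨d, hd⟩ := Nat.exists_eq_add_of_le h2
  rw [hd] at h1 h3
  nlinarith

/-- For `n ≥ 5000` it is at least `.1499`. -/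
theorem K88_b {n : ℕ} (hn : 5000 ≤ n) : 1499 * n ≤ 10000 * K88 n := by
  have h1 := c88_lt n
  have h2 := c88_ge5 hn
  have h3 := five_K88 n
  obtain ⟨d, hd⟩ := Nat.exists_eq_add_of_le h2
  rw [hd] at h1 h3
  nlinarith

theorem K88_le (n : ℕ) (hn : 3000 ≤ n) : 50 * K88 n ≤ 19 * n := by
  have h1 := c88_le n
  unfold K88
  omega

private theorem sC_aux {n : ℕ} (hn : 1 ≤ n) {a : ℝ} (ha : 0 ≤ a) (h : 2 ≤ a ^ 2 * n) :
    sC n ≤ a * (n ! : ℝ) := by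
  obtain ⟨m, rfl⟩ : ∃ m, n = m + 1 := ⟨n - 1, by omega⟩
  refine (sC_start m).trans ?_
  have hm : (0 : ℝ) < (m ! : ℝ) := by exact_mod_cast Nat.factorial_pos m
  have hc : ((m + 1 : ℕ) : ℝ) = (m : ℝ) + 1 := by push_cast; ring
  rw [hc] at h
  have hm1 : (0 : ℝ) < (m : ℝ) + 1 := by positivity
  have h1 : Real.sqrt (2 * ((m : ℝ) + 1)) ≤ a * ((m : ℝ) + 1) := by
    rw [Real.sqrt_le_left (by positivity)]
    nlinarith
  have h2 : (((m + 1)! : ℕ) : ℝ) = ((m : ℝ) + 1) * (m ! : ℝ) := by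
    rw [Nat.factorial_succ]; push_cast; ring
  rw [h2]
  calc (m ! : ℝ) * Real.sqrt (2 * ((m : ℝ) + 1)) ≤ (m ! : ℝ) * (a * ((m : ℝ) + 1)) :=
        mul_le_mul_of_nonneg_left h1 hm.le
    _ = a * (((m : ℝ) + 1) * (m ! : ℝ)) := by ring

/-- `sC_start`: `sC n ≤ √(2/n) n!`. -/
theorem sC_3000 {n : ℕ} (hn : 3000 ≤ n) : sC n ≤ (26 : ℝ) / 1000 * (n ! : ℝ) := by
  have h : (3000 : ℝ) ≤ n := by exact_mod_cast hn
  exact sC_aux (by omega) (by norm_num) (by norm_num; linarith)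

theorem sC_5000 {n : ℕ} (hn : 5000 ≤ n) : sC n ≤ (20 : ℝ) / 1000 * (n ! : ℝ) := by
  have h : (5000 : ℝ) ≤ n := by exact_mod_cast hn
  exact sC_aux (by omega) (by norm_num) (by norm_num; linarith)

end Pool.MP322P
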