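import Pool.Agent.Lib.MP_322c5f_alF.FE04
import Pool.Agent.Lib.MP_322c5f_alP.PZ03

/-! job 322P-Z5: runs of rows for the recursion of the corners. -/

set_option autoImplicit false

open Equiv Finset Nat
open scoped NNReal

namespace Pool.MP322P

open Pool.MP322 Pool.MP322F

/-- `m` copies of `(c, B)` followed by `l`. -/
noncomputable def repNP (m c B : ℕ) (l : NP) : NP :=
  Nat.rec (motive := fun _ => NP) l (fun _ ih => NP.cons c B ih) m

/-- expansion of a list of runs `(m, c, B)`. -/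
noncomputable def expNP (l : List (ℕ × ℕ × ℕ)) : NP :=
  List.rec (motive := fun _ => NP) NP.nil (fun r _ ih => repNP r.1 r.2.1 r.2.2 ih) l

/-- `P n c B` for all the `n` of the runs, starting at `n`. -/
def AllRuns (P : ℕ → ℕ → ℕ → Prop) : ℕ → List (ℕ × ℕ × ℕ) → Prop
  | _, [] => True
  | n, r :: l => (∀ i < r.1, P (n + i) r.2.1 r.2.2) ∧ AllRuns P (n + r.1) l

/-- total length. -/
def lenRuns (l : List (ℕ × ℕ × ℕ)) : ℕ := (l.map fun r => r.1).sum

theorem AllRuns_append {P : ℕ → ℕ → ℕ → Prop} (n : ℕ) (l1 l2 : List (ℕ × ℕ × ℕ)) :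
    AllRuns P n (l1 ++ l2) ↔ AllRuns P n l1 ∧ AllRuns P (n + lenRuns l1) l2 := by
  induction l1 generalizing n with
  | nil =>
    show AllRuns P n l2 ↔ True ∧ AllRuns P (n + 0) l2
    rw [Nat.add_zero, true_and]
  | cons r l ih =>
    have h1 : n + lenRuns (r :: l) = n + r.1 + lenRuns l := by
      show n + ((r :: l).map fun r => r.1).sum = n + r.1 + (l.map fun r => r.1).sum
      rw [List.map_cons, List.sum_cons, Nat.add_assoc]
    rw [h1]
    show ((∀ i < r.1, P (n + i) r.2.1 r.2.2) ∧ AllRuns P (n + r.1) (l ++ l2)) ↔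
      ((∀ i < r.1, P (n + i) r.2.1 r.2.2) ∧ AllRuns P (n + r.1) l) ∧
        AllRuns P (n + r.1 + lenRuns l) l2
    rw [ih (n + r.1), and_assoc]

/-- the bound for the corners and the self-conjugate diagrams. -/
def UB (n c B : ℕ) : Prop := 1 ≤ c ∧ uC n c + sC n ≤ (B : ℝ) / 1000 * (n ! : ℝ)

private theorem gt_repNP_lt {α : Type} (k : ℕ → ℕ → α) (c B : ℕ) (l : NP) :
    ∀ (m i : ℕ), i < m → NP.gt (repNP m c B l) k i = k c B := by
  intro m
  induction m with
  | zero => intro i hi; exact absurd hi (Nat.not_lt_zero i)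
  | succ m ih =>
    intro i hi
    cases i with
    | zero => rfl
    | succ i => exact ih i (Nat.lt_of_succ_lt_succ hi)

private theorem gt_repNP_add {α : Type} (k : ℕ → ℕ → α) (c B : ℕ) (l : NP) (i : ℕ) :
    ∀ m : ℕ, NP.gt (repNP m c B l) k (m + i) = NP.gt l k i := by
  intro m
  induction m with
  | zero => rw [Nat.zero_add]; rfl
  | succ m ih =>
    rw [show m + 1 + i = m + i + 1 by omega]
    exact ih

private theorem len_repNP (c B : ℕ) (l : NP) :
    ∀ m : ℕ, NP.len (repNP m c B l) = m + NP.len l := by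
  intro m
  induction m with
  | zero => rw [Nat.zero_add]; rfl
  | succ m ih =>
    show Nat.succ (NP.len (repNP m c B l)) = m + 1 + NP.len l
    rw [ih]
    omega

private theorem allRuns_of_gt (runs : List (ℕ × ℕ × ℕ)) : ∀ n : ℕ,
    (∀ i < NP.len (expNP runs), UB (n + i) (NP.gt (expNP runs) (fun c _ => c) i)
      (NP.gt (expNP runs) (fun _ B => B) i)) → AllRuns UB n runs := by
  induction runs with
  | nil => intro n _; trivial
  | cons r l ih =>
    intro n h
    have e1 : expNP (r :: l) = repNP r.1 r.2.1 r.2.2 (expNP l) := rfl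
    rw [e1, len_repNP] at h
    refine ⟨fun i hi => ?_, ih (n + r.1) fun i hi => ?_⟩
    · have h1 := h i (by omega)
      rw [gt_repNP_lt _ _ _ _ _ _ hi, gt_repNP_lt _ _ _ _ _ _ hi] at h1
      exact h1
    · have h1 := h (r.1 + i) (by omega)
      rw [gt_repNP_add, gt_repNP_add, ← Nat.add_assoc] at h1
      exact h1

/-- from `ckUS_sound`. -/
theorem allRuns_of_ckUS {L : ℕ} (runs : List (ℕ × ℕ × ℕ)) {n u s0 s1 k : ℕ} (hu : URow L n u)
    (h0 : SRow n s0) (h1 : SRow (n + 1) s1) (hk : mC n = k) (hk1 : 1 ≤ k)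
    (h : ckUS L (expNP runs) n u s0 s1 k = 0) : AllRuns UB n runs :=
  allRuns_of_gt runs n fun i hi => ckUS_sound (expNP runs) hu h0 h1 hk hk1 h i hi

end Pool.MP322P
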