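import Pool.Agent.Lib.MP_322c5f_alP.PZ04a
import Pool.Agent.Lib.MP_322c5f_alP.PZ05
import Pool.Agent.Lib.MP_322c5f_alP.PA03

/-! job 322P-Z7: the range `n ≥ 300` (runs of constant number of corners), and `n ≥ 3000`. -/

set_option autoImplicit false

open Equiv Finset Nat
open scoped NNReal

namespace Pool.MP322P

open Pool.MP322 Pool.MP322F

/-- a statement about the classes with at most `300` moved points:
`t = (n1, N, p, q, x)`: for `n1 ≤ n ≤ N` and `K/n ≥ p/q` the contribution is at most `x/10^4`. -/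
def PS3 (t : ℕ × ℕ × ℕ × ℕ × ℕ) : Prop :=
  ∀ n K k0 : ℕ, t.1 ≤ n → n ≤ t.2.1 → t.2.2.1 * n ≤ t.2.2.2.1 * K → 1 ≤ K → K ≤ n →
    50 * k0 < 19 * n + 50 → PSIp n K k0 0 300 ((t.2.2.2.2 : ℝ) / 10000)

/-- the tail: classes with more than `300` moved points, for the pairs `(n, K)` with
`tOK n K = true`. -/
def TL (tOK : ℕ → ℕ → Bool) (xt : ℕ) : Prop :=
  (∀ n n' K : ℕ, n ≤ n' → tOK n' K = true → tOK n K = true) ∧
  ∀ n K k0 : ℕ, 300 ≤ n → tOK n K = true → 5 * k0 ≤ 2 * n + 7 →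
    PSIp n K k0 300 n ((xt : ℝ) / 10000)

/-- check of the runs `(m, c, B)` together with `(K, t)`. -/
def chk300 (psiL : List (ℕ × ℕ × ℕ × ℕ × ℕ)) (tOK : ℕ → ℕ → Bool) (f xt : ℕ) :
    ℕ → List ((ℕ × ℕ × ℕ) × ℕ × (ℕ × ℕ × ℕ × ℕ × ℕ)) → Bool
  | _, [] => true
  | n, (r, K, t) :: l =>
    Nat.ble 1 r.1 && factOK n (r.2.1 + 1) K && Nat.ble 1 K && Nat.ble (50 * K) (19 * n) &&
    psiL.elem t && Nat.ble t.1 n && Nat.ble (n + r.1) (t.2.1 + 1) &&
    Nat.ble (t.2.2.1 * (n + r.1 - 1)) (t.2.2.2.1 * K) && tOK (n + r.1 - 1) K &&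
    Nat.blt (10 * f + 10 * r.2.2 + (t.2.2.2.2 + xt)) 10000 &&
    chk300 psiL tOK f xt (n + r.1) l

private theorem factOK_mono {a n c K : ℕ} (han : a ≤ n) (h : factOK a c K = true) :
    factOK n c K = true := by
  unfold factOK at h ⊢
  rw [Bool.or_eq_true] at h ⊢
  rcases h with h | h
  · left
    rw [List.any_eq_true] at h ⊢
    obtain ⟨t, ht, h⟩ := h
    refine ⟨t, ht, ?_⟩
    rw [Bool.and_eq_true, Bool.and_eq_true] at h ⊢
    exact ⟨h.1, Nat.ble_eq_true_of_le ((Nat.le_of_ble_eq_true h.2).trans han)⟩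
  · exact Or.inr h

private theorem psi_sum {n K k0 x1 xt : ℕ} (hn : 300 ≤ n)
    (h1 : PSIp n K k0 0 300 ((x1 : ℝ) / 10000)) (h2 : PSIp n K k0 300 n ((xt : ℝ) / 10000)) :
    PSIp n K k0 0 n (((x1 + xt : ℕ) : ℝ) / 10000) := by
  have h3 := PSIp.add (Nat.zero_le _) hn h1 h2
  have h4 : (((x1 + xt : ℕ) : ℝ) / 10000) = (x1 : ℝ) / 10000 + (xt : ℝ) / 10000 := by
    push_cast
    ring
  rw [h4]
  exact h3

/-- `k0 = ⌈19 n / 50⌉`, i.e. `(19 n + 49) / 50`; `good_row` with `x = t.2.2.2.2 + xt`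
(`PSIp.add` of the two parts). -/
theorem good_300 (hf : Facts) {psiL : List (ℕ × ℕ × ℕ × ℕ × ℕ)} (hpsi : ∀ t ∈ psiL, PS3 t)
    {tOK : ℕ → ℕ → Bool} {f xt : ℕ} (hT : TL tOK xt)
    (hF : ∀ n K : ℕ, 300 ≤ n → 19 * n ≤ 50 * K → 2 * K + 1 ≤ n → (FS n K : ℝ) ≤ (f : ℝ) / 1000)
    {a : ℕ} (ha : 300 ≤ a) (runs : List ((ℕ × ℕ × ℕ) × ℕ × (ℕ × ℕ × ℕ × ℕ × ℕ)))
    (hU : AllRuns UB a (runs.map fun r => r.1))
    (hc : chk300 psiL tOK f xt a runs = true) (n : ℕ) (h1 : a ≤ n)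
    (h2 : n < a + lenRuns (runs.map fun r => r.1)) : ∃ lam : Y n, GoodD lam := by
  induction runs generalizing a with
  | nil =>
    simp [lenRuns] at h2
    omega
  | cons R l ih =>
    obtain ⟨⟨m, c, B⟩, K, t⟩ := R
    rw [List.map_cons] at hU h2
    obtain ⟨hU1, hU2⟩ := hU
    have hlen : lenRuns ((m, c, B) :: l.map fun r => r.1) = m + lenRuns (l.map fun r => r.1) := by
      simp [lenRuns]
    rw [chk300] at hc
    simp only [Bool.and_eq_true] at hc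
    obtain ⟨⟨⟨⟨⟨⟨⟨⟨⟨⟨c1, c2⟩, c3⟩, c4⟩, c5⟩, c6⟩, c7⟩, c8⟩, c9⟩, c10⟩, c11⟩ := hc
    have c1 := Nat.le_of_ble_eq_true c1
    have c3 := Nat.le_of_ble_eq_true c3
    have c4 := Nat.le_of_ble_eq_true c4
    have c6 := Nat.le_of_ble_eq_true c6
    have c7 := Nat.le_of_ble_eq_true c7
    have c8 := Nat.le_of_ble_eq_true c8
    have c10 := Nat.le_of_ble_eq_true c10
    have c5 : t ∈ psiL := List.elem_iff.1 c5
    simp only at c1 c2 c3 c4 c6 c7 c8 c9 c10 c11 hU1 hU2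
    by_cases hnm : n < a + m
    · obtain ⟨i, rfl⟩ := Nat.exists_eq_add_of_le h1
      obtain ⟨hc1, hUB⟩ := hU1 i (by omega)
      have hx : PSIp (a + i) K ((19 * (a + i) + 49) / 50) 0 (a + i)
          (((t.2.2.2.2 + xt : ℕ) : ℝ) / 10000) := by
        refine psi_sum (by omega) ?_ ?_
        · refine hpsi t c5 (a + i) K _ (by omega) (by omega) ?_ c3 (by omega) (by omega)
          exact (Nat.mul_le_mul_left _ (by omega)).trans c8
        · refine hT.2 (a + i) K _ (by omega) ?_ (by omega)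
          exact hT.1 (a + i) (a + m - 1) K (by omega) c9
      refine good_row (c0 := c + 1) (f := f) (B := B) (by omega) (by omega) c3 (by omega)
        (by omega) (hF _ _ (by omega) (by omega) (by omega)) ?_ hx ?_ (by omega)
      · rw [Nat.add_sub_cancel]
        exact hUB
      · intro lam mu hlam hmu
        exact Sq_of_fact hf (factOK_mono (Nat.le_add_right a i) c2) lam mu hlam hmu
    · rw [hlen] at h2
      exact ih (by omega) hU2 c11 (by omega) (by omega)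

/-- `n ≥ 3000`: `c0 = c88 n`, `K = K88 n`, `k0 = ⌈19 n / 50⌉`; `good_row` with
`B = 366` for `n ≤ 5000` (`340 + 26`) and `B = 360` for `n > 5000`. -/
theorem good_3000 (hf : Facts) {f xt x1 x2 : ℕ} (hx1 : 10 * f + 3660 + (x1 + xt) < 10000)
    (hx2 : 10 * f + 3600 + (x2 + xt) < 10000)
    (hpsi1 : ∀ n K k0 : ℕ, 3000 ≤ n → n ≤ 5000 → 1485 * n ≤ 10000 * K → 1 ≤ K → K ≤ n →
      50 * k0 < 19 * n + 50 → PSIp n K k0 0 300 ((x1 : ℝ) / 10000))
    (hpsi2 : ∀ n K k0 : ℕ, 5000 ≤ n → 1499 * n ≤ 10000 * K → 1 ≤ K → K ≤ n →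
      50 * k0 < 19 * n + 50 → PSIp n K k0 0 300 ((x2 : ℝ) / 10000))
    {tOK : ℕ → ℕ → Bool} (hT : TL tOK xt)
    (hT3 : ∀ n K : ℕ, 3000 ≤ n → 1485 * n ≤ 10000 * K → tOK n K = true)
    (hF : ∀ n K : ℕ, 300 ≤ n → 19 * n ≤ 50 * K → 2 * K + 1 ≤ n → (FS n K : ℝ) ≤ (f : ℝ) / 1000)
    (hUC : ∀ n j : ℕ, 3000 ≤ n → 625 * (j + 1) ^ 2 ≤ 484 * n →
      uC n j ≤ (34 / 100) * (n ! : ℝ)) (n : ℕ) (h1 : 3000 ≤ n) :
    ∃ lam : Y n, GoodD lam := by
  have e1 := c88_ge h1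
  have e2 := K88_a h1
  have e3 := K88_le n h1
  have e4 : 1 ≤ K88 n := by unfold K88; omega
  have hUn : uC n (c88 n - 1) ≤ (34 / 100) * (n ! : ℝ) := by
    refine hUC n _ h1 ?_
    rw [Nat.sub_add_cancel (by omega)]
    exact c88_le n
  have hSq : ∀ lam mu : Y n, c88 n ≤ mcor lam.1 → n - mu.1.rowLen 0 < K88 n → Sq lam mu :=
    fun lam mu hlam hmu => hf.2 (c88 n) (by omega) n (Nat.zero_le _) lam mu hlam hmu
  have hTn : PSIp n (K88 n) ((19 * n + 49) / 50) 300 n ((xt : ℝ) / 10000) :=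
    hT.2 n _ _ (by omega) (hT3 n _ h1 e2) (by omega)
  have hFn : (FS n ((19 * n + 49) / 50) : ℝ) ≤ (f : ℝ) / 1000 :=
    hF _ _ (by omega) (by omega) (by omega)
  rcases Nat.lt_or_ge 5000 n with h5 | h5
  · refine good_row (c0 := c88 n) (K := K88 n) (k0 := (19 * n + 49) / 50) (f := f) (B := 360)
      (x := x2 + xt) (by omega) (by omega) e4 (by omega) (by omega) hFn ?_
      (psi_sum (by omega) (hpsi2 n _ _ h5.le (K88_b h5.le) e4 (by omega) (by omega)) hTn) hSq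
      (by omega)
    have h6 := sC_5000 h5.le
    push_cast
    linarith
  · refine good_row (c0 := c88 n) (K := K88 n) (k0 := (19 * n + 49) / 50) (f := f) (B := 366)
      (x := x1 + xt) (by omega) (by omega) e4 (by omega) (by omega) hFn ?_
      (psi_sum (by omega) (hpsi1 n _ _ h1 h5 e2 e4 (by omega) (by omega)) hTn) hSq
      (by omega)
    have h6 := sC_3000 h1
    push_cast
    linarith

end Pool.MP322P
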