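import Pool.Agent.Lib.MP_322c5f_alF.FKe
import Pool.Agent.Lib.MP_322c5f_alF.FT11
import Pool.Agent.Lib.MP_322c5f_alP.PU08
import Pool.Agent.Lib.MP_322c5f_alP.PU09
import Pool.Agent.Lib.MP_322c5f_alP.PZ07

/-! Tests for the bounds of `FS`; the tail. -/

set_option autoImplicit false

open Equiv Finset Nat
open scoped NNReal

namespace Pool.MP322P

open Pool.MP322 Pool.MP322F

/-- test for `24 ≤ n ≤ 29`. -/
noncomputable def fr24 (n k f : ℕ) : Bool :=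
  (Nat.ble 24 n && Nat.ble n 29) && (Nat.ble (2 * k + 1) n &&
    Nat.ble (Nat.mul 1000 (NL.gt (LL.gt B24.frAll (n - 24)) k)) (Nat.mul f (Nat.pow 2 40)))

theorem fr24_ok {n k f : ℕ} (h : fr24 n k f = true) : (FS n k : ℝ) ≤ (f : ℝ) / 1000 := by
  unfold fr24 at h
  rw [Bool.and_eq_true, Bool.and_eq_true, Bool.and_eq_true] at h
  exact FS_le24 (Nat.le_of_ble_eq_true h.1.1) (Nat.le_of_ble_eq_true h.1.2)
    (Nat.le_of_ble_eq_true h.2.1) h.2.2

/-- test for `30 ≤ n ≤ 100`. -/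
noncomputable def fr30 (n k f : ℕ) : Bool :=
  (Nat.ble 30 n && Nat.ble n 100) && (Nat.ble (2 * k + 1) n &&
    Nat.ble (Nat.mul 1000 (NL.gt (LL.gt B30.frAll (n - 30)) k)) (Nat.mul f (Nat.pow 2 40)))

theorem fr30_ok {n k f : ℕ} (h : fr30 n k f = true) : (FS n k : ℝ) ≤ (f : ℝ) / 1000 := by
  unfold fr30 at h
  rw [Bool.and_eq_true, Bool.and_eq_true, Bool.and_eq_true] at h
  exact FS_le30 (Nat.le_of_ble_eq_true h.1.1) (Nat.le_of_ble_eq_true h.1.2)
    (Nat.le_of_ble_eq_true h.2.1) h.2.2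

/-- test for `100 ≤ n`. -/
def frT (n k f : ℕ) : Bool :=
  (Nat.ble 100 n && Nat.ble (19 * n) (50 * k)) && (Nat.ble (2 * k + 1) n && Nat.ble 450 f)

theorem frT_ok {n k f : ℕ} (h : frT n k f = true) : (FS n k : ℝ) ≤ (f : ℝ) / 1000 := by
  unfold frT at h
  rw [Bool.and_eq_true, Bool.and_eq_true, Bool.and_eq_true] at h
  have h1 := FS_tail (n := n) (K := k) (Nat.le_of_ble_eq_true h.1.1)
    (Nat.le_of_ble_eq_true h.1.2) (Nat.le_of_ble_eq_true h.2.1)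
  have h2 : (450 : ℝ) ≤ (f : ℝ) := by exact_mod_cast Nat.le_of_ble_eq_true h.2.2
  refine h1.trans ?_
  rw [div_le_div_iff₀ (by norm_num) (by norm_num)]
  linarith

/-- both. -/
noncomputable def fr100 (n k f : ℕ) : Bool := fr30 n k f || frT n k f

theorem fr100_ok {n k f : ℕ} (h : fr100 n k f = true) : (FS n k : ℝ) ≤ (f : ℝ) / 1000 := by
  unfold fr100 at h
  rw [Bool.or_eq_true] at h
  rcases h with h | h
  · exact fr30_ok h
  · exact frT_ok h

/-- admissible pairs `(n, K)` for the tail. -/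
def tOK3 (n K : ℕ) : Bool :=
  (Nat.ble n 1000 && Nat.ble (133 * n) (1000 * K)) ||
    ((Nat.ble n 1200 && Nat.ble (138 * n) (1000 * K)) || Nat.ble (142 * n) (1000 * K))

theorem tOK3_iff {n K : ℕ} : tOK3 n K = true ↔ (n ≤ 1000 ∧ 133 * n ≤ 1000 * K) ∨
    ((n ≤ 1200 ∧ 138 * n ≤ 1000 * K) ∨ 142 * n ≤ 1000 * K) := by
  unfold tOK3
  simp only [Bool.or_eq_true, Bool.and_eq_true, Nat.ble_eq]

theorem tl3 : TL tOK3 200 := by
  refine ⟨fun n n' K h h1 => ?_, fun n K k0 hn h hk => ?_⟩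
  · rw [tOK3_iff] at h1 ⊢
    omega
  · rw [tOK3_iff] at h
    have e : (((200 : ℕ) : ℝ) / 10000) = 1 / 50 := by norm_num
    rw [e]
    rcases Nat.lt_or_ge 1200 n with h2 | h2
    · exact tail300_large h2.le (by omega) hk
    · exact tail300_mid' hn h2 (by omega) (fun h3 => by omega) hk

theorem FS450 (n K : ℕ) (hn : 300 ≤ n) (h : 19 * n ≤ 50 * K) (h2 : 2 * K + 1 ≤ n) :
    (FS n K : ℝ) ≤ ((450 : ℕ) : ℝ) / 1000 := by
  refine (FS_tail (by omega) h h2).trans ?_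
  norm_num

end Pool.MP322P
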