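import Pool.Agent.Lib.MP_322c5f_alP.PL060y

/-! The level table `L = 60`, chunks (kernel computation). -/

set_option autoImplicit false
set_option maxRecDepth 100000

namespace Pool.MP322P

/-- rows with `0 ≤ a' < 31` (7106 rows). -/
def tot60_0 : ℕ :=
  191848177562403686819994995516864813522200986791726029631588920707139039252306916814492933417656873224379715946569872155170699807758381519069937766964638334470150311883519748453044716847860846343289991707217054910930301954144490077895985181441840360045506053069266602220983797362472613472200212212392453577071361123416054881650454385944834286895527961542438024789846424426640692859205783261518574797746902581239855617164678948923763503416261034690757620525444921945651424579170261359541405245510524362095260115847639336648366864119514385830799566938475269523175032036247028496240300701449499428131648686983659653100884724569472907238322972991445116437884195664133048240902887112443243638493867433664169021847209030542230858982964828500279512094291109309685704591874129880348010326057236921177894017876102260976352037376795289561501696603826233988579233862440609363432182524761216580875741548561682788569947366597799658921248596192399137398171530935196305439637795699719942127398419506568424466416558538996734761956041888653822101957051887165478164148407595155847696693991609057272974047688136469873640694296390121740556826884071838614318770734797539933888573871518381693827284992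

theorem chk60_0 : Nat.beq (total 60 27 142 31 30 yl60) tot60_0 = true := by decide +kernel

end Pool.MP322P
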