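import Pool.Agent.Lib.MP_322c5f_alP.PZ02
import Pool.Agent.Lib.MP_322c5f_alP.PL060

/-! The middle part for `60 ≤ n ≤ 79` (level `60`). -/

set_option autoImplicit false
set_option maxRecDepth 100000

open Finset

namespace Pool.MP322P

/-- rows `(K, k0, xo, xn)`. -/
def rows60 : List (ℕ × ℕ × ℕ × ℕ) :=
  [(15, 17, 1442, 0), (15, 18, 1774, 1), (15, 19, 1882, 1), (15, 19, 1718, 1), (15, 20, 2027, 1),
   (15, 21, 2225, 1), (15, 21, 2117, 1), (15, 21, 2085, 1), (15, 22, 2325, 1), (15, 22, 2301, 1),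
   (15, 23, 2526, 2), (15, 23, 2521, 2), (19, 24, 1505, 1), (19, 24, 1475, 1), (19, 24, 1455, 1),
   (19, 25, 1635, 1), (19, 25, 1614, 1), (19, 26, 1793, 1), (19, 26, 1773, 1), (19, 26, 1765, 1)]

theorem old60 : oldAll (2 ^ 160) 60 27 142 tot60 rows60 60 = true := by decide +kernel

theorem new60 : newChk (2 ^ 40) 91 79 60 (rqOf rows60) = true := by decide +kernel

theorem psi60 (i : ℕ) (r : ℕ × ℕ × ℕ × ℕ) (hr : rows60[i]? = some r) :
    PSIp (60 + i) r.1 r.2.1 0 (60 + i) (((r.2.2.1 + r.2.2.2 : ℕ) : ℝ) / 10000) := by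
  obtain ⟨-, -, h1⟩ := YOK_of_yCheck yl60_chk
  exact psi_block h1 lev60 (by positivity) (by positivity) (by decide +kernel) (by norm_num)
    rows60 (by decide) old60 new60 i r hr

end Pool.MP322P
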