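import Pool.Agent.Lib.MP_322c5f_alP.PL080y

/-! The level table `L = 80`, chunks (kernel computation). -/

set_option autoImplicit false
set_option maxRecDepth 100000

namespace Pool.MP322P

/-- rows with `0 ≤ a' < 41` (16163 rows). -/
def tot80_0 : ℕ :=
  5967815860526141730006784844093475078514679715489632068718825647793448998062955646570243205841701265436108381200561933860230475579970548721670934929227995408219845714590545226361559502316948101643921311749553781594765847575041843789496906133710775309080980296829017303578125106398203456165082749288359415006030039460339367468599883143484337994590251450490420304329924303868067054418974701180028036582637726244238337262326373641729026781658078912123305429657039817036760851524116736895659181548605449346850769675194304855319472668074622441476390085000310595635755593889124085040091533427630910914417308384608744208736103715311721359360354514003043617662890200684720410989878442530834992486492086745124039428155097315884852377835840032249437245835795426709022068532372532576538282463542230834491807239077751043240412703945529580829796461908547429063824693428378846155295639598423523676875179849435424043285897508161044527024718542264708244522355084860428829199010436929150438725428106640225439865684186562846896187680553304564764087406635566656569917490000580757262521297590715322593227653638986173560578163699146497621427445406170186862163872166077673496759227173383179224639515901520214184624421438022256966161600707116381831695564331153360576505909469622695753223102141554049407515143777228864411966748310351797079709367690949137076157676781784873476876992832200381853941261020359873623727141941531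00119794609502464113283442693214880799642683285937554436194184491260132803630760888879071380148923438040584449785643349557529489262042910861493679096643691262275793543735893799888816772955470816060471438719705995491663942019715443144547606803267616272770434856262695111370563190683717246954808059560672447250370726583398216460125561031853024160683957955779249567717124775223045056142443675126655315783710260576091620013905921225309513152882046892508484177987144530250458046177105169431848488224636441554408952013103287610766958431548847178037773389724113428444234807890811574702073420102761246269409788699111699216035924941959020963343907780304309657613083579137929038863640997305896013316987732291236812929089232369386371107412153628835621708983337277772883232802416244444657699594142262738643220620346304686785265987851425136009218621440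

theorem chk80_0 : Nat.beq (total 80 40 183 41 40 yl80) tot80_0 = true := by decide +kernel

end Pool.MP322P
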