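import Pool.Agent.Lib.MP_322c5f_alP.PK07
import Pool.Agent.Lib.MP_322c5f_alP.PL080c00

/-! The level table `L = 80`: result. -/

set_option autoImplicit false
set_option maxRecDepth 100000

open Finset

namespace Pool.MP322P

theorem yl80_chk : yCheck 80 yl80 = true := by decide +kernel

theorem bnd80a : 3001 * 3 ^ (80 + 1) < 2 ^ (183 - 1) := by decide +kernel

theorem bnd80b : (80 + 1) ^ 3 * (15 * 4 ^ 80) < 2 ^ 183 := by decide +kernel

theorem chunk80_0 : ChunkOK 80 40 183 yl80 0 41 tot80_0 :=
  chunk_one (by decide) bnd80a bnd80b (by decide) yl80_chk (by decide)
    (Nat.eq_of_beq_eq_true chk80_0)

/-- the packed table (base `2^183`). -/
def tot80 : ℕ :=
  59678158605261417300067848440934750785146797154896320687188256477934489980629556465702432058417012654361083812005619338602304755799705487216709349292279954082198457145905452263615595023169481016439213117495537815947658475750418437894969061337107753090809802968290173035781251063982034561650827492883594150060300394603393674685998831434843379945902514504904203043299243038680670544189747011800280365826377262442383372623263736417290267816580789121233054296570398170367608515241167368956591815486054493468507696751943048553194726680746224414763900850003105956357555938891240850400915334276309109144173083846087442087361037153117213593603545140030436176628902006847204109898784425308349924864920867451240394281550973158848523778358400322494372458357954267090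2206853237253257653828246354223083449180723907775104324041270394552958082979646190854742906382469342837884615529563959842352367687517984943542404328589750816104452702471854226470824452235508486042882919901043692915043872542810664022543986568418656284689618768055330456476408740663556665656991749000058075726252129759071532259322765363898617356057816369914649762142744540617018686216387216607767349675922717338317922463951590152021418462442143802225696616160070711638183169556433115336057650590946962269575322310214155404940751514377722886441196674831035179707970936769094913707615767678178487347687699283220038185394126102035987362372714194153100119794609502464113283442693214880799642683285937554436194184491260132803630760888879071380148923438040584449785643349557529489262042910861493679096643691262275793543735893799888816772955470816060471438719705995491663942019715443144547606803267616272770434856262695111370563190683717246954808059560672447250370726583398216460125561031853024160683957955779249567717124775223045056142443675126655315783710260576091620013905921225309513152882046892508484177987144530250458046177105169431848488224636441554408952013103287610766958431548847178037773389724113428444234807890811574702073420102761246269409788699111699216035924941959020963343907780304309657613083579137929038863640997305896013316987732291236812929089232369386371107412153628835621708983337277772883232802416244444657699594142262738643220620346304686785265987851425136009218621440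

theorem tot80_chk : Nat.beq tot80_0 tot80 = true := by decide +kernel

theorem chunk80 : ChunkOK 80 40 183 yl80 0 41 tot80 := by
  have h := chunk80_0
  rw [Nat.eq_of_beq_eq_true tot80_chk] at h
  exact h

theorem lev80 (k : ℕ) (hk : k ≤ 40) :
    ∑ m ∈ range (80 + 1), ∑ τ ∈ evs m, PhiT (yfun yl80 80) 80 τ k = (dig 183 tot80 k : ℤ) :=
  chunk_level bnd80b (by decide) chunk80 k hk

end Pool.MP322P
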