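import Pool.Agent.Lib.MP_322c5f_alP.PZ02
import Pool.Agent.Lib.MP_322c5f_alP.PL080

/-! The middle part for `80 ≤ n ≤ 99` (level `80`). -/

set_option autoImplicit false
set_option maxRecDepth 100000

open Finset

namespace Pool.MP322P

/-- rows `(K, k0, xo, xn)`. -/
def rows80 : List (ℕ × ℕ × ℕ × ℕ) :=
  [(19, 25, 1634, 0), (19, 26, 1490, 1), (19, 27, 1327, 1), (19, 28, 1354, 1), (19, 28, 1284, 1),
   (19, 29, 1330, 1), (19, 29, 1237, 1), (19, 30, 1328, 1), (19, 30, 1259, 1), (19, 31, 1357, 1),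
   (19, 31, 1305, 1), (19, 32, 1393, 1), (19, 32, 1349, 1), (19, 33, 1451, 1), (19, 33, 1414, 1),
   (19, 33, 1386, 1), (19, 34, 1487, 1), (19, 34, 1461, 1), (19, 35, 1572, 1), (19, 35, 1551, 1)]

theorem old80 : oldAll (2 ^ 200) 80 40 183 tot80 rows80 80 = true := by decide +kernel

theorem new80 : newChk (2 ^ 40) 111 99 80 (rqOf rows80) = true := by decide +kernel

theorem psi80 (i : ℕ) (r : ℕ × ℕ × ℕ × ℕ) (hr : rows80[i]? = some r) :
    PSIp (80 + i) r.1 r.2.1 0 (80 + i) (((r.2.2.1 + r.2.2.2 : ℕ) : ℝ) / 10000) := by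
  obtain ⟨-, -, h1⟩ := YOK_of_yCheck yl80_chk
  exact psi_block h1 lev80 (by positivity) (by positivity) (by decide +kernel) (by norm_num)
    rows80 (by decide) old80 new80 i r hr

end Pool.MP322P
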