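import Pool.Agent.Lib.MP_322c5f_alP.PZ02
import Pool.Agent.Lib.MP_322c5f_alP.PL100

/-! The middle part for `100 ≤ n ≤ 149` (level `100`). -/

set_option autoImplicit false
set_option maxRecDepth 100000

open Finset

namespace Pool.MP322P

/-- rows `(K, k0, xo, xn)`. -/
def rows100 : List (ℕ × ℕ × ℕ × ℕ) :=
  [(19, 38, 3676, 0), (19, 39, 2950, 1), (19, 39, 2181, 1), (19, 40, 2199, 1), (19, 40, 1922, 1),
   (19, 40, 1740, 1), (19, 41, 1826, 1), (19, 41, 1669, 1), (19, 42, 1761, 1), (19, 42, 1649, 1),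
   (19, 42, 1554, 1), (19, 43, 1662, 1), (19, 43, 1580, 1), (19, 43, 1515, 1), (19, 44, 1618, 1),
   (19, 44, 1558, 1), (19, 45, 1669, 1), (19, 45, 1621, 1), (19, 45, 1582, 1), (19, 46, 1697, 1),
   (19, 46, 1663, 1), (19, 46, 1640, 1), (22, 47, 1312, 1), (22, 47, 1265, 1), (22, 48, 1360, 1),
   (22, 48, 1314, 1), (22, 48, 1277, 1), (22, 49, 1372, 1), (22, 49, 1336, 1), (22, 50, 1436, 1),
   (22, 50, 1402, 1), (22, 50, 1376, 1), (22, 51, 1475, 1), (22, 51, 1452, 1), (22, 51, 1435, 1),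
   (22, 52, 1538, 1), (22, 52, 1526, 1), (22, 53, 1636, 1), (22, 53, 1629, 1), (22, 53, 1628, 1),
   (22, 54, 1745, 1), (22, 54, 1752, 1), (22, 54, 1766, 2), (22, 55, 1893, 2), (22, 55, 1918, 3),
   (24, 56, 1508, 1), (24, 56, 1497, 1), (24, 56, 1493, 1), (24, 57, 1596, 1), (24, 57, 1597, 2)]

theorem old100 : oldAll (2 ^ 240) 100 56 224 tot100 rows100 100 = true := by decide +kernel

theorem new100 : newChk (2 ^ 40) 161 149 100 (rqOf rows100) = true := by decide +kernel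

theorem psi100 (i : ℕ) (r : ℕ × ℕ × ℕ × ℕ) (hr : rows100[i]? = some r) :
    PSIp (100 + i) r.1 r.2.1 0 (100 + i) (((r.2.2.1 + r.2.2.2 : ℕ) : ℝ) / 10000) := by
  obtain ⟨-, -, h1⟩ := YOK_of_yCheck yl100_chk
  exact psi_block h1 lev100 (by positivity) (by positivity) (by decide +kernel) (by norm_num)
    rows100 (by decide) old100 new100 i r hr

end Pool.MP322P
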