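import Pool.Agent.Lib.MP_322c5f_alP.PZ02
import Pool.Agent.Lib.MP_322c5f_alP.PL150

/-! The middle part for `150 ≤ n ≤ 199` (level `150`). -/

set_option autoImplicit false
set_option maxRecDepth 100000

open Finset

namespace Pool.MP322P

/-- rows `(K, k0, xo, xn)`. -/
def rows150 : List (ℕ × ℕ × ℕ × ℕ) :=
  [(22, 57, 2081, 0), (22, 58, 1634, 1), (22, 58, 1207, 1), (22, 59, 1227, 1), (22, 59, 1051, 1),
   (22, 59, 932, 1), (22, 60, 978, 1), (22, 60, 888, 1), (22, 61, 938, 1), (22, 61, 873, 1),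
   (22, 61, 811, 1), (22, 62, 862, 1), (22, 62, 810, 1), (22, 62, 769, 1), (22, 63, 822, 1),
   (22, 63, 783, 1), (22, 64, 836, 1), (22, 64, 802, 1), (22, 64, 772, 1), (22, 65, 825, 1),
   (22, 65, 797, 1), (22, 65, 776, 1), (22, 66, 830, 1), (22, 66, 811, 1), (22, 67, 868, 1),
   (22, 67, 851, 1), (22, 67, 839, 1), (24, 68, 713, 1), (24, 68, 691, 1), (24, 69, 740, 1),
   (24, 69, 720, 1), (24, 69, 702, 1), (24, 70, 751, 1), (24, 70, 734, 1), (24, 70, 721, 1),
   (24, 71, 770, 1), (24, 71, 759, 1), (24, 72, 812, 1), (24, 72, 803, 1), (24, 72, 797, 1),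
   (24, 73, 852, 1), (24, 73, 848, 1), (24, 73, 848, 1), (24, 74, 907, 1), (24, 74, 910, 1),
   (27, 75, 659, 1), (27, 75, 643, 1), (27, 75, 630, 1), (27, 76, 672, 1), (27, 76, 659, 1)]

theorem old150 : oldAll (2 ^ 300) 150 75 326 tot150 rows150 150 = true := by decide +kernel

theorem new150 : newChk (2 ^ 40) 211 199 150 (rqOf rows150) = true := by decide +kernel

theorem psi150 (i : ℕ) (r : ℕ × ℕ × ℕ × ℕ) (hr : rows150[i]? = some r) :
    PSIp (150 + i) r.1 r.2.1 0 (150 + i) (((r.2.2.1 + r.2.2.2 : ℕ) : ℝ) / 10000) := by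
  obtain ⟨-, -, h1⟩ := YOK_of_yCheck yl150_chk
  exact psi_block h1 lev150 (by positivity) (by positivity) (by decide +kernel) (by norm_num)
    rows150 (by decide) old150 new150 i r hr

end Pool.MP322P
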