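import Pool.Agent.Lib.MP_322c5f_alP.PZ02
import Pool.Agent.Lib.MP_322c5f_alP.PL200

/-! The middle part for `200 ≤ n ≤ 299` (level `200`). -/

set_option autoImplicit false
set_option maxRecDepth 100000

open Finset

namespace Pool.MP322P

/-- rows `(K, k0, xo, xn)`. -/
def rows200 : List (ℕ × ℕ × ℕ × ℕ) :=
  [(24, 76, 1286, 0), (24, 77, 996, 1), (24, 77, 735, 1), (24, 78, 759, 1), (24, 78, 646, 1),
   (24, 78, 572, 1), (24, 79, 598, 1), (24, 79, 536, 1), (24, 80, 569, 1), (24, 80, 531, 1),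
   (24, 80, 493, 1), (24, 81, 525, 1), (24, 81, 493, 1), (24, 81, 466, 1), (24, 82, 497, 1),
   (24, 82, 471, 1), (24, 83, 504, 1), (24, 83, 483, 1), (24, 83, 465, 1), (24, 84, 497, 1),
   (24, 84, 480, 1), (24, 84, 466, 1), (24, 85, 498, 1), (24, 85, 485, 1), (24, 86, 518, 1),
   (27, 86, 383, 1), (27, 86, 366, 1), (27, 87, 393, 1), (27, 87, 377, 1), (27, 88, 404, 1),
   (27, 88, 388, 1), (27, 88, 374, 1), (27, 89, 401, 1), (27, 89, 387, 1), (27, 89, 375, 1),
   (27, 90, 402, 1), (27, 90, 390, 1), (27, 91, 417, 1), (27, 91, 406, 1), (27, 91, 396, 1),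
   (27, 92, 424, 1), (27, 92, 415, 1), (27, 92, 407, 1), (27, 93, 435, 1), (27, 93, 428, 1),
   (27, 94, 458, 1), (27, 94, 452, 1), (27, 94, 447, 1), (27, 95, 478, 1), (27, 95, 474, 1),
   (27, 95, 473, 1), (27, 96, 505, 1), (27, 96, 505, 1), (27, 97, 539, 1), (27, 97, 541, 1),
   (27, 97, 545, 1), (29, 98, 413, 1), (29, 98, 407, 1), (29, 99, 434, 1), (29, 99, 429, 1),
   (29, 99, 424, 1), (29, 100, 453, 1), (29, 100, 450, 1), (29, 100, 448, 1), (29, 101, 477, 1),
   (29, 101, 477, 1), (29, 102, 508, 1), (29, 102, 509, 1), (29, 102, 512, 1), (29, 103, 546, 1),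
   (29, 103, 551, 1), (29, 103, 557, 1), (29, 104, 594, 1), (29, 104, 603, 1), (34, 105, 336, 1),
   (34, 105, 327, 1), (34, 105, 318, 1), (34, 106, 338, 1), (34, 106, 330, 1), (34, 107, 351, 1),
   (34, 107, 342, 1), (34, 107, 335, 1), (34, 108, 356, 1), (34, 108, 348, 1), (34, 108, 342, 1),
   (34, 109, 363, 1), (34, 109, 357, 1), (34, 110, 378, 1), (34, 110, 373, 1), (34, 110, 367, 1),
   (34, 111, 390, 1), (34, 111, 385, 1), (34, 111, 382, 1), (34, 112, 405, 1), (34, 112, 402, 1),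
   (34, 113, 426, 1), (34, 113, 424, 1), (34, 113, 423, 1), (34, 114, 448, 1), (34, 114, 448, 1)]

theorem old200 : oldAll (2 ^ 360) 200 120 427 tot200 rows200 200 = true := by decide +kernel

theorem new200 : newChk (2 ^ 40) 311 299 200 (rqOf rows200) = true := by decide +kernel

theorem psi200 (i : ℕ) (r : ℕ × ℕ × ℕ × ℕ) (hr : rows200[i]? = some r) :
    PSIp (200 + i) r.1 r.2.1 0 (200 + i) (((r.2.2.1 + r.2.2.2 : ℕ) : ℝ) / 10000) := by
  obtain ⟨-, -, h1⟩ := YOK_of_yCheck yl200_chk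
  exact psi_block h1 lev200 (by positivity) (by positivity) (by decide +kernel) (by norm_num)
    rows200 (by decide) old200 new200 i r hr

end Pool.MP322P
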