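import Pool.Agent.Lib.MP_322c5f_alP.PR00
import Pool.Agent.Lib.MP_322c5f_alP.PL200
import Pool.Agent.Lib.MP_322c5f_alP.PH300

/-! The classes with at most 300 moved points, `1000 ≤ n ≤ 1200`, `K/n ≥ 138/1000`. -/

set_option autoImplicit false
set_option maxRecDepth 100000

open Finset

namespace Pool.MP322P

theorem chkA1000_138 : chkFin 60 1000000000 200 427 tot200 1 120 27 1000 1200 165
    [(43, 241453809), (44, 1118936283), (86, 1312829194802), (108, 21183350693154), (109, 33206883451278), (138, 14762837711703499), (163, 297073640654025412), (164, 1127360564173142150), (182, 4687538655229828318), (183, 18671500247027491752)] 894 = true := by decide +kernel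

theorem chkB1000_138 : chkFin 60 1000000000 300 312 hp300 0 (300 + 1) 41 1000 1200 165
    [(43, 7), (153, 104337752297294), (154, 18917688038494), (175, 119849328960090688), (176, 360868120105164563), (192, 89808062241521333849), (193, 38179224591251309070), (204, 1448205551981937339432), (205, 1547899501561307653706), (218, 7552151134928553431462), (219, 5509386642051463183836), (234, 2350524686302075707496), (235, 50195082716776982181322), (252, 122230533688695702039382), (253, 78923481923607210594427), (269, 331677623242492064031810), (270, 340348773073058887937721), (285, 1733371061352463950036387), (297, 1949271788505364945788725)] 443 = true := by decide +kernel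

theorem psi3_1000_138 (n K k0 : ℕ) (h1 : 1000 ≤ n) (h2 : n ≤ 1200) (h3 : 138 * n ≤ 1000 * K) (h4 : 1 ≤ K)
    (h5 : K ≤ n) (h6 : 50 * k0 < 19 * n + 50) :
    PSIp n K k0 0 300 (((1337 : ℕ) : ℝ) / 10000) := by
  have hy := (YOK_of_yCheck yl200_chk).2.2
  have a := psiA_fin hy (by norm_num) lev200 chkA1000_138 (by norm_num : 0 < 1000)
    (by norm_num : 165 * 1000 ≤ 138 * 1200) h1 h2 h3 h4 h5 h6
  have b := psiB_fin (by norm_num) (by norm_num) hp300_dig chkB1000_138 (by norm_num : 0 < 1000)
    (by norm_num : 165 * 1000 ≤ 138 * 1200) h1 h2 h3 h4 h5 h6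
  exact (a.add (by norm_num) (by norm_num) b).mono le_rfl le_rfl le_rfl le_rfl (by norm_num)

end Pool.MP322P
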