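import Pool.Agent.Lib.MP_322c5f_alP.PR00
import Pool.Agent.Lib.MP_322c5f_alP.PL200
import Pool.Agent.Lib.MP_322c5f_alP.PH300

/-! The classes with at most 300 moved points, `1000 ≤ n ≤ 1200`, `K/n ≥ 142/1000`. -/

set_option autoImplicit false
set_option maxRecDepth 100000

open Finset

namespace Pool.MP322P

theorem chkA1000_142 : chkFin 60 1000000000 200 427 tot200 1 120 28 1000 1200 170
    [(37, 366242171), (79, 395126535066), (80, 86439485875), (111, 103475607566083), (140, 11472415973882401), (141, 10468539435141305), (164, 389035825036101966), (165, 1234400365458623326), (183, 21709019595905351378), (184, 1851177512936718694)] 619 = true := by decide +kernel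

theorem chkB1000_142 : chkFin 60 1000000000 300 312 hp300 0 (300 + 1) 42 1000 1200 170
    [(116, 218251518), (157, 117749471770211), (158, 582955765389863), (178, 285891453361094594), (179, 1095004136625086798), (194, 144367508692450662000), (195, 97223408542930387421), (205, 176713698834482131927), (206, 3476593722334703284386), (220, 13267346884045905554502), (221, 1587693862704985083637), (236, 31984192222069952289980), (237, 25899285307222547093637), (253, 112967625386512732091658), (254, 99148598264448654438044), (270, 632160420153446071673301), (271, 46375565906903891815896), (285, 1399276821932480133391877), (286, 323845376726703216304419), (297, 1934145773565584260363998)] 147 = true := by decide +kernel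

theorem psi3_1000_142 (n K k0 : ℕ) (h1 : 1000 ≤ n) (h2 : n ≤ 1200) (h3 : 142 * n ≤ 1000 * K) (h4 : 1 ≤ K)
    (h5 : K ≤ n) (h6 : 50 * k0 < 19 * n + 50) :
    PSIp n K k0 0 300 (((766 : ℕ) : ℝ) / 10000) := by
  have hy := (YOK_of_yCheck yl200_chk).2.2
  have a := psiA_fin hy (by norm_num) lev200 chkA1000_142 (by norm_num : 0 < 1000)
    (by norm_num : 170 * 1000 ≤ 142 * 1200) h1 h2 h3 h4 h5 h6
  have b := psiB_fin (by norm_num) (by norm_num) hp300_dig chkB1000_142 (by norm_num : 0 < 1000)
    (by norm_num : 170 * 1000 ≤ 142 * 1200) h1 h2 h3 h4 h5 h6
  exact (a.add (by norm_num) (by norm_num) b).mono le_rfl le_rfl le_rfl le_rfl (by norm_num)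

end Pool.MP322P
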