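import Pool.Agent.Lib.MP_322c5f_alP.PR00
import Pool.Agent.Lib.MP_322c5f_alP.PL200
import Pool.Agent.Lib.MP_322c5f_alP.PH300

/-! The classes with at most 300 moved points, `1200 ≤ n ≤ 1500`, `K/n ≥ 142/1000`. -/

set_option autoImplicit false
set_option maxRecDepth 100000

open Finset

namespace Pool.MP322P

theorem chkA1200_142 : chkFin 60 1000000000 200 427 tot200 1 120 28 1200 1500 213
    [(39, 542276697), (79, 401624150545), (107, 1145224379085), (108, 61076587200941), (139, 13949131907033869), (140, 4295692194884078), (164, 962656120064840088), (165, 583394827160363914), (182, 777024726052094274), (183, 22697672544653889489)] 691 = true := by decide +kernel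

theorem chkB1200_142 : chkFin 60 1000000000 300 312 hp300 0 (300 + 1) 42 1200 1500 213
    [(150, 8376871632775), (151, 42925362951414), (174, 232410021327905683), (175, 43181421075873211), (191, 74029463339642447122), (192, 16818914241275195553), (203, 644655013263171972373), (204, 2006272632669640415266), (217, 6563790415944815998946), (218, 5521292371386238045427), (234, 45547445310253855689568), (235, 4050589146296364293085), (251, 51533180846974328034406), (252, 142871152247982419888364), (269, 591719194702233817989182), (270, 71073453731873978050254), (284, 235803246999033211077105), (285, 1509320014837169753152997), (297, 1957809567871415207546941)] 281 = true := by decide +kernel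

theorem psi3_1200_142 (n K k0 : ℕ) (h1 : 1200 ≤ n) (h2 : n ≤ 1500) (h3 : 142 * n ≤ 1000 * K) (h4 : 1 ≤ K)
    (h5 : K ≤ n) (h6 : 50 * k0 < 19 * n + 50) :
    PSIp n K k0 0 300 (((972 : ℕ) : ℝ) / 10000) := by
  have hy := (YOK_of_yCheck yl200_chk).2.2
  have a := psiA_fin hy (by norm_num) lev200 chkA1200_142 (by norm_num : 0 < 1000)
    (by norm_num : 213 * 1000 ≤ 142 * 1500) h1 h2 h3 h4 h5 h6
  have b := psiB_fin (by norm_num) (by norm_num) hp300_dig chkB1200_142 (by norm_num : 0 < 1000)
    (by norm_num : 213 * 1000 ≤ 142 * 1500) h1 h2 h3 h4 h5 h6
  exact (a.add (by norm_num) (by norm_num) b).mono le_rfl le_rfl le_rfl le_rfl (by norm_num)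

end Pool.MP322P
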