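import Pool.Agent.Lib.MP_322c5f_alP.PR00
import Pool.Agent.Lib.MP_322c5f_alP.PL200
import Pool.Agent.Lib.MP_322c5f_alP.PH300

/-! The classes with at most 300 moved points, `1200 ≤ n ≤ 1500`, `K/n ≥ 146/1000`. -/

set_option autoImplicit false
set_option maxRecDepth 100000

open Finset

namespace Pool.MP322P

theorem chkA1200_146 : chkFin 60 1000000000 200 427 tot200 1 120 29 1200 1500 219
    [(33, 90177711), (34, 100133073), (75, 63997507579), (76, 207310138351), (109, 61408028033252), (110, 19319621643300), (140, 20567316892259078), (164, 560572000598093992), (165, 1041595207738185613), (183, 22438704368059351592), (184, 1095391064415113011)] 522 = true := by decide +kernel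

theorem chkB1200_146 : chkFin 60 1000000000 300 312 hp300 0 (300 + 1) 43 1200 1500 219
    [(91, 197862), (154, 91508710976355), (155, 113356102161917), (176, 283487084130507512), (177, 346738029428586614), (192, 32284974286245114695), (193, 115886554866266934532), (204, 603285895713139764060), (205, 2519538918419747964341), (218, 3364220799579756308456), (219, 10008511704082821781495), (235, 40507003577178608892877), (236, 13030261848459567602667), (252, 83451348203441912879275), (253, 119515896873078732032727), (269, 264575523059397552792216), (270, 408728112496247121683465), (285, 1672463080886428325220444), (286, 59162655175235996448222), (297, 1946476738750428190309939)] 99 = true := by decide +kernel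

theorem psi3_1200_146 (n K k0 : ℕ) (h1 : 1200 ≤ n) (h2 : n ≤ 1500) (h3 : 146 * n ≤ 1000 * K) (h4 : 1 ≤ K)
    (h5 : K ≤ n) (h6 : 50 * k0 < 19 * n + 50) :
    PSIp n K k0 0 300 (((621 : ℕ) : ℝ) / 10000) := by
  have hy := (YOK_of_yCheck yl200_chk).2.2
  have a := psiA_fin hy (by norm_num) lev200 chkA1200_146 (by norm_num : 0 < 1000)
    (by norm_num : 219 * 1000 ≤ 146 * 1500) h1 h2 h3 h4 h5 h6
  have b := psiB_fin (by norm_num) (by norm_num) hp300_dig chkB1200_146 (by norm_num : 0 < 1000)
    (by norm_num : 219 * 1000 ≤ 146 * 1500) h1 h2 h3 h4 h5 h6
  exact (a.add (by norm_num) (by norm_num) b).mono le_rfl le_rfl le_rfl le_rfl (by norm_num)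

end Pool.MP322P
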