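import Pool.Agent.Lib.MP_322c5f_alP.PR00
import Pool.Agent.Lib.MP_322c5f_alP.PL200
import Pool.Agent.Lib.MP_322c5f_alP.PH300

/-! The classes with at most 300 moved points, `1500 ≤ n ≤ 2000`, `K/n ≥ 142/1000`. -/

set_option autoImplicit false
set_option maxRecDepth 100000

open Finset

namespace Pool.MP322P

theorem chkA1500_142 : chkFin 60 1000000000 200 427 tot200 1 120 28 1500 2000 284
    [(41, 818239580), (80, 356916847419), (102, 18788917299632), (103, 3525904811738), (136, 10840900478721132), (163, 1217530088952360112), (164, 71859676428190804), (182, 9358177557905990987), (183, 13844440926890284238)] 819 = true := by decide +kernel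

theorem chkB1500_142 : chkFin 60 1000000000 300 312 hp300 0 (300 + 1) 42 1500 2000 284
    [(121, 3636167998), (166, 8634747263380359), (167, 11120164954567593), (186, 3387103878339220994), (187, 20231417545466701164), (201, 1296726235641896942014), (202, 349359958595527799522), (214, 6049289855396652119346), (215, 3455538397456770961039), (231, 23295422485280306364632), (232, 18670236500812498563368), (249, 29965490434834723175956), (250, 146103380182015563983356), (268, 639849333951664939112593), (284, 927539053062119871127072), (285, 842090842865256164274558), (297, 1985866667941407783698107)] 568 = true := by decide +kernel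

theorem psi3_1500_142 (n K k0 : ℕ) (h1 : 1500 ≤ n) (h2 : n ≤ 2000) (h3 : 142 * n ≤ 1000 * K) (h4 : 1 ≤ K)
    (h5 : K ≤ n) (h6 : 50 * k0 < 19 * n + 50) :
    PSIp n K k0 0 300 (((1387 : ℕ) : ℝ) / 10000) := by
  have hy := (YOK_of_yCheck yl200_chk).2.2
  have a := psiA_fin hy (by norm_num) lev200 chkA1500_142 (by norm_num : 0 < 1000)
    (by norm_num : 284 * 1000 ≤ 142 * 2000) h1 h2 h3 h4 h5 h6
  have b := psiB_fin (by norm_num) (by norm_num) hp300_dig chkB1500_142 (by norm_num : 0 < 1000)
    (by norm_num : 284 * 1000 ≤ 142 * 2000) h1 h2 h3 h4 h5 h6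
  exact (a.add (by norm_num) (by norm_num) b).mono le_rfl le_rfl le_rfl le_rfl (by norm_num)

end Pool.MP322P
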