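import Pool.Agent.Lib.MP_322c5f_alP.PR00
import Pool.Agent.Lib.MP_322c5f_alP.PL200
import Pool.Agent.Lib.MP_322c5f_alP.PH300

/-! The classes with at most 300 moved points, `1500 ≤ n ≤ 2000`, `K/n ≥ 146/1000`. -/

set_option autoImplicit false
set_option maxRecDepth 100000

open Finset

namespace Pool.MP322P

theorem chkA1500_146 : chkFin 60 1000000000 200 427 tot200 1 120 29 1500 2000 292
    [(33, 171348846), (74, 37105179313), (75, 192736933923), (108, 32228220922656), (109, 40403250093919), (139, 4558000839542589), (140, 15247410031729265), (164, 728235646381367157), (165, 847962083307279192), (183, 23483810302666406756)] 580 = true := by decide +kernel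

theorem chkB1500_146 : chkFin 60 1000000000 300 312 hp300 0 (300 + 1) 43 1500 2000 292
    [(145, 6062330496989), (171, 84371321446673634), (172, 11390783200581659), (189, 34406941056531431301), (190, 16434480496441470468), (202, 826198012217239442692), (203, 1346768036606664208856), (215, 4482384137591102480), (216, 10749147345852936713640), (232, 7758621853287527200219), (233, 38101051657711763530594), (250, 30948534723387518217953), (251, 154562923352283820111386), (268, 252913902793717720066377), (269, 401574230332170259685294), (284, 519904002455773882138651), (285, 1237135690913265731479995), (297, 1968678489096689753607484)] 204 = true := by decide +kernel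

theorem psi3_1500_146 (n K k0 : ℕ) (h1 : 1500 ≤ n) (h2 : n ≤ 2000) (h3 : 146 * n ≤ 1000 * K) (h4 : 1 ≤ K)
    (h5 : K ≤ n) (h6 : 50 * k0 < 19 * n + 50) :
    PSIp n K k0 0 300 (((784 : ℕ) : ℝ) / 10000) := by
  have hy := (YOK_of_yCheck yl200_chk).2.2
  have a := psiA_fin hy (by norm_num) lev200 chkA1500_146 (by norm_num : 0 < 1000)
    (by norm_num : 292 * 1000 ≤ 146 * 2000) h1 h2 h3 h4 h5 h6
  have b := psiB_fin (by norm_num) (by norm_num) hp300_dig chkB1500_146 (by norm_num : 0 < 1000)
    (by norm_num : 292 * 1000 ≤ 146 * 2000) h1 h2 h3 h4 h5 h6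
  exact (a.add (by norm_num) (by norm_num) b).mono le_rfl le_rfl le_rfl le_rfl (by norm_num)

end Pool.MP322P
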