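import Pool.Agent.Lib.MP_322c5f_alP.PR00
import Pool.Agent.Lib.MP_322c5f_alP.PL200
import Pool.Agent.Lib.MP_322c5f_alP.PH300

/-! The classes with at most 300 moved points, `2000 ≤ n ≤ 3000`, `K/n ≥ 144/1000`. -/

set_option autoImplicit false
set_option maxRecDepth 100000

open Finset

namespace Pool.MP322P

theorem chkA2000_144 : chkFin 60 1000000000 200 427 tot200 1 120 28 2000 3000 432
    [(43, 1247925438), (86, 279316711925), (87, 749974630369), (99, 11181529597272), (134, 6170769305361970), (135, 1852304406747568), (162, 1097237941480886352), (182, 17988988317266156963), (183, 4793600709713018800)] 805 = true := by decide +kernel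

theorem chkB2000_144 : chkFin 60 1000000000 300 312 hp300 0 (300 + 1) 43 2000 3000 432
    [(93, 1531310), (94, 1421813), (163, 4032448802586400), (164, 2055754679132683), (184, 3967094966444562277), (185, 7294308962975861463), (199, 329271663768649077057), (200, 826796208243724997235), (212, 5043920220478212348739), (213, 2883350159196516751417), (229, 23400864476008216562652), (230, 12437471010052306098894), (248, 157105969319838167910406), (266, 117067325648258217395087), (267, 494954469061084827016951), (283, 37400447367864947566657), (284, 1744511132888925221136480), (297, 2028582694630970446202152)] 673 = true := by decide +kernel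

theorem psi3_2000_144 (n K k0 : ℕ) (h1 : 2000 ≤ n) (h2 : n ≤ 3000) (h3 : 144 * n ≤ 1000 * K) (h4 : 1 ≤ K)
    (h5 : K ≤ n) (h6 : 50 * k0 < 19 * n + 50) :
    PSIp n K k0 0 300 (((1478 : ℕ) : ℝ) / 10000) := by
  have hy := (YOK_of_yCheck yl200_chk).2.2
  have a := psiA_fin hy (by norm_num) lev200 chkA2000_144 (by norm_num : 0 < 1000)
    (by norm_num : 432 * 1000 ≤ 144 * 3000) h1 h2 h3 h4 h5 h6
  have b := psiB_fin (by norm_num) (by norm_num) hp300_dig chkB2000_144 (by norm_num : 0 < 1000)
    (by norm_num : 432 * 1000 ≤ 144 * 3000) h1 h2 h3 h4 h5 h6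
  exact (a.add (by norm_num) (by norm_num) b).mono le_rfl le_rfl le_rfl le_rfl (by norm_num)

end Pool.MP322P
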