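import Pool.Agent.Lib.MP_322c5f_alP.PR00
import Pool.Agent.Lib.MP_322c5f_alP.PL200
import Pool.Agent.Lib.MP_322c5f_alP.PH300

/-! The classes with at most 300 moved points, `2000 ≤ n ≤ 3000`, `K/n ≥ 147/1000`. -/

set_option autoImplicit false
set_option maxRecDepth 100000

open Finset

namespace Pool.MP322P

theorem chkA2000_147 : chkFin 60 1000000000 200 427 tot200 1 120 29 2000 3000 441
    [(34, 210460730), (75, 11042590506), (76, 260894661034), (107, 7231062759988), (108, 54269521924670), (138, 4227857246390885), (139, 12349531838683226), (164, 1463835220488965898), (182, 3402337647944172223), (183, 19993579022523884412)] 614 = true := by decide +kernel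

theorem chkB2000_147 : chkFin 60 1000000000 300 312 hp300 0 (300 + 1) 44 2000 3000 441
    [(117, 889199109), (164, 3484976863961491), (165, 6183550025306594), (185, 8841315160178829864), (186, 5476798166652964619), (200, 1124492076123756876358), (201, 147923561490380618768), (212, 1431412908388912447672), (213, 6804743243246125441992), (229, 8656711851843442989410), (230, 28186296386708260737760), (248, 104773672245157278971030), (249, 55747532396956571786346), (267, 615033226222057405253918), (284, 1689311186595777654326751), (285, 90795638280247140009267), (297, 2022527816596970818438721)] 316 = true := by decide +kernel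

theorem psi3_2000_147 (n K k0 : ℕ) (h1 : 2000 ≤ n) (h2 : n ≤ 3000) (h3 : 147 * n ≤ 1000 * K) (h4 : 1 ≤ K)
    (h5 : K ≤ n) (h6 : 50 * k0 < 19 * n + 50) :
    PSIp n K k0 0 300 (((930 : ℕ) : ℝ) / 10000) := by
  have hy := (YOK_of_yCheck yl200_chk).2.2
  have a := psiA_fin hy (by norm_num) lev200 chkA2000_147 (by norm_num : 0 < 1000)
    (by norm_num : 441 * 1000 ≤ 147 * 3000) h1 h2 h3 h4 h5 h6
  have b := psiB_fin (by norm_num) (by norm_num) hp300_dig chkB2000_147 (by norm_num : 0 < 1000)
    (by norm_num : 441 * 1000 ≤ 147 * 3000) h1 h2 h3 h4 h5 h6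
  exact (a.add (by norm_num) (by norm_num) b).mono le_rfl le_rfl le_rfl le_rfl (by norm_num)

end Pool.MP322P
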