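import Pool.Agent.Lib.MP_322c5f_alP.PR00
import Pool.Agent.Lib.MP_322c5f_alP.PL200
import Pool.Agent.Lib.MP_322c5f_alP.PH300

/-! The classes with at most 300 moved points, `3000 ≤ n ≤ 5000`, `K/n ≥ 1485/10000`. -/

set_option autoImplicit false
set_option maxRecDepth 100000

open Finset

namespace Pool.MP322P

theorem chkA3000_1485 : chkFin 60 1000000000 200 427 tot200 1 120 29 3000 5000 742
    [(35, 214013885), (36, 55698518), (78, 385250009422), (107, 9214370290598), (108, 46037560271986), (137, 11680549539364761), (162, 738373659012757461), (163, 380974716343718878), (182, 18234264010808734044), (183, 4463676267837935268)] 614 = true := by decide +kernel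

theorem chkB3000_1485 : chkFin 60 1000000000 300 312 hp300 0 (300 + 1) 44 3000 5000 742
    [(94, 2379308), (162, 2040541705204356), (163, 2499457681341960), (184, 9171584687233738801), (199, 695998249206699739537), (200, 359037630913878529736), (211, 727080920350892588183), (212, 6885106806216457645219), (228, 3657670138907704981520), (229, 31038382608579688841881), (247, 49093570670656492809530), (248, 105519767924128796405558), (266, 227609749192897245648280), (267, 380316366915218569184307), (283, 158388291629445572012512), (284, 1626795389214640412363735), (297, 2033459392120973324745247)] 380 = true := by decide +kernel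

theorem psi3_3000_1485 (n K k0 : ℕ) (h1 : 3000 ≤ n) (h2 : n ≤ 5000) (h3 : 1485 * n ≤ 10000 * K) (h4 : 1 ≤ K)
    (h5 : K ≤ n) (h6 : 50 * k0 < 19 * n + 50) :
    PSIp n K k0 0 300 (((994 : ℕ) : ℝ) / 10000) := by
  have hy := (YOK_of_yCheck yl200_chk).2.2
  have a := psiA_fin hy (by norm_num) lev200 chkA3000_1485 (by norm_num : 0 < 10000)
    (by norm_num : 742 * 10000 ≤ 1485 * 5000) h1 h2 h3 h4 h5 h6
  have b := psiB_fin (by norm_num) (by norm_num) hp300_dig chkB3000_1485 (by norm_num : 0 < 10000)
    (by norm_num : 742 * 10000 ≤ 1485 * 5000) h1 h2 h3 h4 h5 h6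
  exact (a.add (by norm_num) (by norm_num) b).mono le_rfl le_rfl le_rfl le_rfl (by norm_num)

end Pool.MP322P
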