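import Pool.Agent.Lib.MP_322c5f_alP.PR00
import Pool.Agent.Lib.MP_322c5f_alP.PL200
import Pool.Agent.Lib.MP_322c5f_alP.PH300

/-! The classes with at most 300 moved points, `300 ≤ n ≤ 500`, `K/n ≥ 133/1000`. -/

set_option autoImplicit false
set_option maxRecDepth 100000

open Finset

namespace Pool.MP322P

theorem chkA300_133 : chkFin 60 1000000000 200 427 tot200 1 120 26 300 500 66
    [(46, 647013125), (47, 1719483012), (94, 7157733182570), (95, 160109028306), (128, 1090566548051584), (129, 1025462584450032), (147, 26234549746554565), (148, 24619191466720522), (166, 1830866889261478392), (183, 15454262154314028882), (184, 8247388080504091184)] 712 = true := by decide +kernel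

theorem chkB300_133 : chkFin 60 1000000000 300 312 hp300 0 (300 + 1) 39 300 500 66
    [(143, 1957290192689), (144, 308421962096), (165, 2178279008848488), (166, 9647298051419299), (183, 5401667409742282449), (184, 101843620535962548), (196, 134479889996341992995), (197, 312184420453306054912), (207, 2804287098835561372548), (208, 1263536843989449276326), (220, 4509172212869055573124), (221, 9820678370662850420783), (235, 22009038803886881565206), (236, 26692617167458535227005), (250, 27628461370266587808820), (251, 128326744946276135167420), (265, 93090530244090219544491), (266, 358813917077012064882641), (279, 348977861384158318046052), (280, 744660643867360893472597), (291, 1557571162195451835612374), (297, 1297934148915181271474810)] 5 = true := by decide +kernel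

theorem psi3_300_133 (n K k0 : ℕ) (h1 : 300 ≤ n) (h2 : n ≤ 500) (h3 : 133 * n ≤ 1000 * K) (h4 : 1 ≤ K)
    (h5 : K ≤ n) (h6 : 50 * k0 < 19 * n + 50) :
    PSIp n K k0 0 300 (((717 : ℕ) : ℝ) / 10000) := by
  have hy := (YOK_of_yCheck yl200_chk).2.2
  have a := psiA_fin hy (by norm_num) lev200 chkA300_133 (by norm_num : 0 < 1000)
    (by norm_num : 66 * 1000 ≤ 133 * 500) h1 h2 h3 h4 h5 h6
  have b := psiB_fin (by norm_num) (by norm_num) hp300_dig chkB300_133 (by norm_num : 0 < 1000)
    (by norm_num : 66 * 1000 ≤ 133 * 500) h1 h2 h3 h4 h5 h6
  exact (a.add (by norm_num) (by norm_num) b).mono le_rfl le_rfl le_rfl le_rfl (by norm_num)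

end Pool.MP322P
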