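import Pool.Agent.Lib.MP_322c5f_alP.PR00
import Pool.Agent.Lib.MP_322c5f_alP.PL200
import Pool.Agent.Lib.MP_322c5f_alP.PH300

/-! The classes with at most 300 moved points, `5000 ≤ n`, `K/n ≥ 1499/10000`. -/

set_option autoImplicit false
set_option maxRecDepth 100000

open Finset

namespace Pool.MP322P

theorem chkA5000_1499 : chkInf 60 1000000000 200 427 tot200 1 120 29 5000 1499 10000
    [(36, 276713306), (37, 52588836), (80, 550794873384), (108, 51053607627434), (135, 300976520941488), (136, 9368067973344238), (161, 264532982358471190), (162, 763117900312666345), (182, 22487155389932672848)] 651 = true := by decide +kernel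

theorem chkB5000_1499 : chkInf 60 1000000000 300 312 hp300 0 (300 + 1) 44 5000 1499 10000
    [(149, 39596486771418), (177, 223281360838024161), (178, 931064435544703257), (195, 137225030057848189811), (196, 257481338251322565730), (208, 3516165966233013253622), (209, 1970257521178031572540), (225, 14785200726345376771019), (226, 12539194555831560704593), (245, 129493671185363317289410), (246, 3430654836589570938246), (265, 570524675913702048196143), (283, 1279966155690178258027060), (284, 526232291627139942369934), (297, 2081700851370559198782727)] 572 = true := by decide +kernel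

theorem psi3_5000_1499 (n K k0 : ℕ) (h1 : 5000 ≤ n) (h3 : 1499 * n ≤ 10000 * K) (h4 : 1 ≤ K)
    (h5 : K ≤ n) (h6 : 50 * k0 < 19 * n + 50) :
    PSIp n K k0 0 300 (((1223 : ℕ) : ℝ) / 10000) := by
  have hy := (YOK_of_yCheck yl200_chk).2.2
  have a := psiA_inf hy (by norm_num) lev200 chkA5000_1499 h1 h3 h4 h5 h6
  have b := psiB_inf (by norm_num) (by norm_num) hp300_dig chkB5000_1499 h1 h3 h4 h5 h6
  exact (a.add (by norm_num) (by norm_num) b).mono le_rfl le_rfl le_rfl le_rfl (by norm_num)

end Pool.MP322P
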