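import Pool.Agent.Lib.MP_322c5f_alP.PR00
import Pool.Agent.Lib.MP_322c5f_alP.PL200
import Pool.Agent.Lib.MP_322c5f_alP.PH300

/-! The classes with at most 300 moved points, `500 ≤ n ≤ 800`, `K/n ≥ 133/1000`. -/

set_option autoImplicit false
set_option maxRecDepth 100000

open Finset

namespace Pool.MP322P

theorem chkA500_133 : chkFin 60 1000000000 200 427 tot200 1 120 26 500 800 106
    [(48, 50133212), (49, 3645672427), (96, 6099375207357), (97, 3392987444483), (110, 28791353754595), (137, 3363600038866904), (138, 11280557014201212), (163, 160722343946952793), (164, 1290179060326550970), (182, 3636501040394051880), (183, 19768016668230102180)] 971 = true := by decide +kernel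

theorem chkB500_133 : chkFin 60 1000000000 300 312 hp300 0 (300 + 1) 39 500 800 106
    [(145, 2503414570334), (146, 3545575313407), (168, 20234906942280141), (169, 10502731566810826), (185, 5621790080638346983), (186, 7830319212573527206), (198, 52680249774203776066), (199, 807418781640015496908), (209, 266168026645795514648), (210, 5273216330462018057702), (224, 13715420764814614602800), (225, 6631474446278115289780), (240, 71975638367984675861912), (255, 7238071757662513807300), (256, 230901667623747204609378), (271, 387053372443619376565941), (272, 311755291198428997014968), (285, 620277029126956188768602), (286, 1065960507448172423632381), (297, 1902633540727655504312388)] 253 = true := by decide +kernel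

theorem psi3_500_133 (n K k0 : ℕ) (h1 : 500 ≤ n) (h2 : n ≤ 800) (h3 : 133 * n ≤ 1000 * K) (h4 : 1 ≤ K)
    (h5 : K ≤ n) (h6 : 50 * k0 < 19 * n + 50) :
    PSIp n K k0 0 300 (((1224 : ℕ) : ℝ) / 10000) := by
  have hy := (YOK_of_yCheck yl200_chk).2.2
  have a := psiA_fin hy (by norm_num) lev200 chkA500_133 (by norm_num : 0 < 1000)
    (by norm_num : 106 * 1000 ≤ 133 * 800) h1 h2 h3 h4 h5 h6
  have b := psiB_fin (by norm_num) (by norm_num) hp300_dig chkB500_133 (by norm_num : 0 < 1000)
    (by norm_num : 106 * 1000 ≤ 133 * 800) h1 h2 h3 h4 h5 h6
  exact (a.add (by norm_num) (by norm_num) b).mono le_rfl le_rfl le_rfl le_rfl (by norm_num)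

end Pool.MP322P
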