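import Pool.Agent.Lib.MP_322c5f_alP.PR00
import Pool.Agent.Lib.MP_322c5f_alP.PL200
import Pool.Agent.Lib.MP_322c5f_alP.PH300

/-! The classes with at most 300 moved points, `800 ≤ n ≤ 1000`, `K/n ≥ 133/1000`. -/

set_option autoImplicit false
set_option maxRecDepth 100000

open Finset

namespace Pool.MP322P

theorem chkA800_133 : chkFin 60 1000000000 200 427 tot200 1 120 26 800 1000 133
    [(49, 2135510129), (50, 1926657106), (98, 2619453642253), (99, 15134050961419), (136, 1432954159467644), (137, 11436403200225815), (163, 524087142670796780), (164, 875338779502356471), (182, 5383719003939183300), (183, 17964902426126366346)] 1219 = true := by decide +kernel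

theorem chkB800_133 : chkFin 60 1000000000 300 312 hp300 0 (300 + 1) 39 800 1000 133
    [(84, 65494), (155, 26545209596445), (156, 326518624762768), (177, 243218405514651733), (178, 725436852608619489), (193, 53611135732934857814), (194, 144636130811375752832), (205, 1612405531540503045879), (206, 1860005165731898627635), (219, 4756274249458257295451), (220, 9656649218474565236682), (236, 52616405159152497145642), (237, 3872077409900692404263), (253, 168297674330198653798900), (254, 41025119242007865022714), (269, 50030003666860785050748), (270, 626840646807743218625233), (285, 1481050954034677805640408), (286, 245025212587931867308130), (297, 1937712336468277480651412)] 704 = true := by decide +kernel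

theorem psi3_800_133 (n K k0 : ℕ) (h1 : 800 ≤ n) (h2 : n ≤ 1000) (h3 : 133 * n ≤ 1000 * K) (h4 : 1 ≤ K)
    (h5 : K ≤ n) (h6 : 50 * k0 < 19 * n + 50) :
    PSIp n K k0 0 300 (((1923 : ℕ) : ℝ) / 10000) := by
  have hy := (YOK_of_yCheck yl200_chk).2.2
  have a := psiA_fin hy (by norm_num) lev200 chkA800_133 (by norm_num : 0 < 1000)
    (by norm_num : 133 * 1000 ≤ 133 * 1000) h1 h2 h3 h4 h5 h6
  have b := psiB_fin (by norm_num) (by norm_num) hp300_dig chkB800_133 (by norm_num : 0 < 1000)
    (by norm_num : 133 * 1000 ≤ 133 * 1000) h1 h2 h3 h4 h5 h6
  exact (a.add (by norm_num) (by norm_num) b).mono le_rfl le_rfl le_rfl le_rfl (by norm_num)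

end Pool.MP322P
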