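import Pool.Agent.Lib.MP_322c5f_alP.PZ04a
import Pool.Agent.Lib.MP_322c5f_alP.PZ05

/-! job 322P-Z6: blocks of consecutive `n < 300`. The bounds for `FS` are given by a test `fr`. -/

set_option autoImplicit false

open Equiv Finset Nat
open scoped NNReal

namespace Pool.MP322P

open Pool.MP322 Pool.MP322F

/-- check of a block: rows `(K, k0, xo, xn)` and `(c, B, f)`; `fr n k0 f` : test for
`FS n k0 ≤ f/1000`. -/
def chkBlk (fr : ℕ → ℕ → ℕ → Bool) : ℕ → List (ℕ × ℕ × ℕ × ℕ) → List (ℕ × ℕ × ℕ) → Bool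
  | _, [], _ => true
  | _, _ :: _, [] => false
  | n, r :: l, s :: t =>
    Nat.ble 1 r.1 && Nat.ble r.1 r.2.1 && Nat.ble (2 * r.2.1) (n + 2) &&
    factOK n (s.1 + 1) r.1 && fr n r.2.1 s.2.2 &&
    Nat.blt (10 * s.2.2 + 10 * s.2.1 + (r.2.2.1 + r.2.2.2)) 10000 && chkBlk fr (n + 1) l t

/-- from `good_row`, `Sq_of_fact`. -/
theorem good_blk (hf : Facts) {a : ℕ} (ha : 2 ≤ a) {fr : ℕ → ℕ → ℕ → Bool}
    (hfr : ∀ n k f, a ≤ n → fr n k f = true → (FS n k : ℝ) ≤ (f : ℝ) / 1000)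
    (rows : List (ℕ × ℕ × ℕ × ℕ)) (srows : List (ℕ × ℕ × ℕ))
    (hpsi : ∀ (i : ℕ) (r : ℕ × ℕ × ℕ × ℕ), rows[i]? = some r →
      PSIp (a + i) r.1 r.2.1 0 (a + i) (((r.2.2.1 + r.2.2.2 : ℕ) : ℝ) / 10000))
    (hU : AllRuns UB a (srows.map fun s => (1, s.1, s.2.1)))
    (hc : chkBlk fr a rows srows = true) (n : ℕ) (h1 : a ≤ n) (h2 : n < a + rows.length) :
    ∃ lam : Y n, GoodD lam := by
  induction rows generalizing a srows with
  | nil => exact absurd h2 (by simp only [List.length_nil]; omega)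
  | cons r l ih =>
    cases srows with
    | nil => exact absurd hc (by simp [chkBlk])
    | cons s t =>
      have hc' : (Nat.ble 1 r.1 && Nat.ble r.1 r.2.1 && Nat.ble (2 * r.2.1) (a + 2) &&
        factOK a (s.1 + 1) r.1 && fr a r.2.1 s.2.2 &&
        Nat.blt (10 * s.2.2 + 10 * s.2.1 + (r.2.2.1 + r.2.2.2)) 10000 &&
        chkBlk fr (a + 1) l t) = true := hc
      simp only [Bool.and_eq_true] at hc'
      obtain ⟨⟨⟨⟨⟨⟨c1, c2⟩, c3⟩, c4⟩, c5⟩, c6⟩, c7⟩ := hc'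
      have hU' : (∀ i < 1, UB (a + i) s.1 s.2.1) ∧
        AllRuns UB (a + 1) (t.map fun s => (1, s.1, s.2.1)) := hU
      by_cases hn : n = a
      · subst hn
        have hu := hU'.1 0 Nat.one_pos
        rw [Nat.add_zero] at hu
        have hp := hpsi 0 r rfl
        rw [Nat.add_zero] at hp
        refine good_row (c0 := s.1 + 1) (f := s.2.2) (B := s.2.1) (x := r.2.2.1 + r.2.2.2)
          ha (Nat.succ_le_succ (Nat.zero_le _)) (Nat.le_of_ble_eq_true c1)
          (Nat.le_of_ble_eq_true c2) (Nat.le_of_ble_eq_true c3)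
          (hfr n r.2.1 s.2.2 le_rfl c5) ?_ hp
          (fun lam mu h3 h4 => Sq_of_fact hf c4 lam mu h3 h4) (Nat.le_of_ble_eq_true c6)
        rw [Nat.add_sub_cancel]
        exact hu.2
      · refine ih (a := a + 1) (by omega) (fun n k f h => hfr n k f (by omega)) t
          (fun i r' hr => ?_) hU'.2 c7 (by omega) ?_
        · have h3 := hpsi (i + 1) r' hr
          rw [show a + (i + 1) = a + 1 + i by omega] at h3
          exact h3
        · rw [List.length_cons] at h2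
          omega

/-- check without middle part; rows `(K, c, B, f)`. -/
def chkBlk' (fr : ℕ → ℕ → ℕ → Bool) : ℕ → List (ℕ × ℕ × ℕ × ℕ) → Bool
  | _, [] => true
  | n, r :: l =>
    Nat.ble 1 r.1 && Nat.ble (2 * r.1) (n + 2) && factOK n (r.2.1 + 1) r.1 &&
    fr n r.1 r.2.2.2 && Nat.blt (r.2.2.2 + r.2.2.1) 1000 && chkBlk' fr (n + 1) l

/-- from `good_row'`, `Sq_of_fact`. -/
theorem good_blk' (hf : Facts) {a : ℕ} (ha : 2 ≤ a) {fr : ℕ → ℕ → ℕ → Bool}
    (hfr : ∀ n k f, a ≤ n → fr n k f = true → (FS n k : ℝ) ≤ (f : ℝ) / 1000)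
    (rows : List (ℕ × ℕ × ℕ × ℕ))
    (hU : AllRuns UB a (rows.map fun r => (1, r.2.1, r.2.2.1)))
    (hc : chkBlk' fr a rows = true) (n : ℕ) (h1 : a ≤ n) (h2 : n < a + rows.length) :
    ∃ lam : Y n, GoodD lam := by
  induction rows generalizing a with
  | nil => exact absurd h2 (by simp only [List.length_nil]; omega)
  | cons r l ih =>
    have hc' : (Nat.ble 1 r.1 && Nat.ble (2 * r.1) (a + 2) && factOK a (r.2.1 + 1) r.1 &&
      fr a r.1 r.2.2.2 && Nat.blt (r.2.2.2 + r.2.2.1) 1000 && chkBlk' fr (a + 1) l) = true := hc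
    simp only [Bool.and_eq_true] at hc'
    obtain ⟨⟨⟨⟨⟨c1, c2⟩, c3⟩, c4⟩, c5⟩, c6⟩ := hc'
    have hU' : (∀ i < 1, UB (a + i) r.2.1 r.2.2.1) ∧
      AllRuns UB (a + 1) (l.map fun r => (1, r.2.1, r.2.2.1)) := hU
    by_cases hn : n = a
    · subst hn
      have hu := hU'.1 0 Nat.one_pos
      rw [Nat.add_zero] at hu
      refine good_row' (c0 := r.2.1 + 1) (f := r.2.2.2) (B := r.2.2.1) ha
        (Nat.succ_le_succ (Nat.zero_le _)) (Nat.le_of_ble_eq_true c1)
        (Nat.le_of_ble_eq_true c2) (hfr n r.1 r.2.2.2 le_rfl c4) ?_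
        (fun lam mu h3 h4 => Sq_of_fact hf c3 lam mu h3 h4) (Nat.le_of_ble_eq_true c5)
      rw [Nat.add_sub_cancel]
      exact hu.2
    · refine ih (a := a + 1) (by omega) (fun n k f h => hfr n k f (by omega)) hU'.2 c6
        (by omega) ?_
      rw [List.length_cons] at h2
      omega

end Pool.MP322P
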