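import Pool.Agent.Lib.MP_322c5f_alF.FE07
import Pool.Agent.Lib.MP_322c5f_alP.PF02
import Pool.Agent.Lib.MP_322c5f_alP.PF03
import Pool.Agent.Lib.MP_322c5f_alP.PI060
import Pool.Agent.Lib.MP_322c5f_alP.PI080
import Pool.Agent.Lib.MP_322c5f_alP.PI100
import Pool.Agent.Lib.MP_322c5f_alP.PI150
import Pool.Agent.Lib.MP_322c5f_alP.PI200
import Pool.Agent.Lib.MP_322c5f_alP.PR300_133
import Pool.Agent.Lib.MP_322c5f_alP.PR500_133
import Pool.Agent.Lib.MP_322c5f_alP.PR800_133
import Pool.Agent.Lib.MP_322c5f_alP.PR800_142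
import Pool.Agent.Lib.MP_322c5f_alP.PR1000_138
import Pool.Agent.Lib.MP_322c5f_alP.PR1000_142
import Pool.Agent.Lib.MP_322c5f_alP.PR1200_142
import Pool.Agent.Lib.MP_322c5f_alP.PR1200_146
import Pool.Agent.Lib.MP_322c5f_alP.PR1500_142
import Pool.Agent.Lib.MP_322c5f_alP.PR1500_146
import Pool.Agent.Lib.MP_322c5f_alP.PR2000_144
import Pool.Agent.Lib.MP_322c5f_alP.PR2000_147
import Pool.Agent.Lib.MP_322c5f_alP.PR3000_1485
import Pool.Agent.Lib.MP_322c5f_alP.PR5000_1499
import Pool.Agent.Lib.MP_322c5f_alP.PZ04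
import Pool.Agent.Lib.MP_322c5f_alP.PZ06

/-! Final assembly: good diagrams for all `n ≥ 24`. -/

set_option autoImplicit false
set_option maxRecDepth 100000

open Equiv Finset Nat
open scoped NNReal

namespace Pool.MP322P

open Pool.MP322 Pool.MP322F

theorem ck24' : chkBlk' fr24 24 s24 = true := by decide +kernel

theorem ck30' : chkBlk' fr30 30 s30 = true := by decide +kernel

theorem ck60' : chkBlk fr30 60 rows60 s60 = true := by decide +kernel

theorem ck80' : chkBlk fr30 80 rows80 s80 = true := by decide +kernel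

theorem ck100' : chkBlk fr100 100 rows100 s100 = true := by decide +kernel

theorem ck150' : chkBlk frT 150 rows150 s150 = true := by decide +kernel

theorem ck200' : chkBlk frT 200 rows200 s200 = true := by decide +kernel

theorem ck300' : chk300 psiL tOK3 450 200 300 runs300 = true := by decide +kernel

theorem psiL_ok : ∀ t ∈ psiL, PS3 t := by
  intro t ht
  simp only [psiL, List.mem_cons, List.not_mem_nil, or_false] at ht
  rcases ht with rfl | rfl | rfl | rfl | rfl | rfl | rfl | rfl | rfl | rfl | rfl | rfl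
  · exact fun n K k0 h1 h2 h3 h4 h5 h6 => psi3_300_133 n K k0 h1 h2 h3 h4 h5 h6
  · exact fun n K k0 h1 h2 h3 h4 h5 h6 => psi3_500_133 n K k0 h1 h2 h3 h4 h5 h6
  · exact fun n K k0 h1 h2 h3 h4 h5 h6 => psi3_800_133 n K k0 h1 h2 h3 h4 h5 h6
  · exact fun n K k0 h1 h2 h3 h4 h5 h6 => psi3_800_142 n K k0 h1 h2 h3 h4 h5 h6
  · exact fun n K k0 h1 h2 h3 h4 h5 h6 => psi3_1000_138 n K k0 h1 h2 h3 h4 h5 h6
  · exact fun n K k0 h1 h2 h3 h4 h5 h6 => psi3_1000_142 n K k0 h1 h2 h3 h4 h5 h6
  · exact fun n K k0 h1 h2 h3 h4 h5 h6 => psi3_1200_142 n K k0 h1 h2 h3 h4 h5 h6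
  · exact fun n K k0 h1 h2 h3 h4 h5 h6 => psi3_1200_146 n K k0 h1 h2 h3 h4 h5 h6
  · exact fun n K k0 h1 h2 h3 h4 h5 h6 => psi3_1500_142 n K k0 h1 h2 h3 h4 h5 h6
  · exact fun n K k0 h1 h2 h3 h4 h5 h6 => psi3_1500_146 n K k0 h1 h2 h3 h4 h5 h6
  · exact fun n K k0 h1 h2 h3 h4 h5 h6 => psi3_2000_144 n K k0 h1 h2 h3 h4 h5 h6
  · exact fun n K k0 h1 h2 h3 h4 h5 h6 => psi3_2000_147 n K k0 h1 h2 h3 h4 h5 h6

/-- there is a good diagram for all `n ≥ 24`. -/
theorem exists_goodD (n : ℕ) (hn : 24 ≤ n) : ∃ lam : Y n, GoodD lam := by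
  have hU := U30
  unfold runsU at hU
  rw [AllRuns_append] at hU
  obtain ⟨u30, hU⟩ := hU
  rw [show 30 + lenRuns (s30.map fun r => (1, r.2.1, r.2.2.1)) = 60 by decide +kernel,
    AllRuns_append] at hU
  obtain ⟨u60, hU⟩ := hU
  rw [show 60 + lenRuns (s60.map fun s => (1, s.1, s.2.1)) = 80 by decide +kernel,
    AllRuns_append] at hU
  obtain ⟨u80, hU⟩ := hU
  rw [show 80 + lenRuns (s80.map fun s => (1, s.1, s.2.1)) = 100 by decide +kernel,
    AllRuns_append] at hU
  obtain ⟨u100, hU⟩ := hU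
  rw [show 100 + lenRuns (s100.map fun s => (1, s.1, s.2.1)) = 150 by decide +kernel,
    AllRuns_append] at hU
  obtain ⟨u150, hU⟩ := hU
  rw [show 150 + lenRuns (s150.map fun s => (1, s.1, s.2.1)) = 200 by decide +kernel,
    AllRuns_append] at hU
  obtain ⟨u200, u300⟩ := hU
  rw [show 200 + lenRuns (s200.map fun s => (1, s.1, s.2.1)) = 300 by decide +kernel] at u300
  rcases Nat.lt_or_ge n 30 with h | h
  · exact good_blk' facts (by norm_num) (fun _ _ _ _ h => fr24_ok h) s24 U24 ck24' n hn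
      (by rw [show s24.length = 6 by decide +kernel]; omega)
  rcases Nat.lt_or_ge n 60 with h' | h'
  · exact good_blk' facts (by norm_num) (fun _ _ _ _ h => fr30_ok h) s30 u30 ck30' n h
      (by rw [show s30.length = 30 by decide +kernel]; omega)
  clear h
  rcases Nat.lt_or_ge n 80 with h | h
  · exact good_blk facts (by norm_num) (fun _ _ _ _ h => fr30_ok h) rows60 s60 psi60 u60 ck60' n h'
      (by rw [show rows60.length = 20 by decide +kernel]; omega)
  clear h'
  rcases Nat.lt_or_ge n 100 with h' | h'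
  · exact good_blk facts (by norm_num) (fun _ _ _ _ h => fr30_ok h) rows80 s80 psi80 u80 ck80' n h
      (by rw [show rows80.length = 20 by decide +kernel]; omega)
  clear h
  rcases Nat.lt_or_ge n 150 with h | h
  · exact good_blk facts (by norm_num) (fun _ _ _ _ h => fr100_ok h) rows100 s100 psi100 u100
      ck100' n h' (by rw [show rows100.length = 50 by decide +kernel]; omega)
  clear h'
  rcases Nat.lt_or_ge n 200 with h' | h'
  · exact good_blk facts (by norm_num) (fun _ _ _ _ h => frT_ok h) rows150 s150 psi150 u150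
      ck150' n h (by rw [show rows150.length = 50 by decide +kernel]; omega)
  clear h
  rcases Nat.lt_or_ge n 300 with h | h
  · exact good_blk facts (by norm_num) (fun _ _ _ _ h => frT_ok h) rows200 s200 psi200 u200
      ck200' n h' (by rw [show rows200.length = 100 by decide +kernel]; omega)
  clear h'
  rcases Nat.lt_or_ge n 3000 with h' | h'
  · exact good_300 facts psiL_ok tl3 FS450 le_rfl runs300 u300 ck300' n h
      (by rw [show lenRuns (runs300.map fun r => r.1) = 2700 by decide +kernel]; omega)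
  · exact good_3000 (f := 450) (xt := 200) (x1 := 994) (x2 := 1223) facts (by norm_num)
      (by norm_num) psi3_3000_1485 psi3_5000_1499 tl3
      (fun n K h1 h2 => by rw [tOK3_iff]; omega) FS450 uC_large4 n h'

end Pool.MP322P
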