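import Pool.Agent.Lib.MP_322c5f_al.Fd3
import Pool.Agent.Lib.MP_322c5f_alP.PF04

/-! The statement for all `n ≥ 24`. -/

set_option autoImplicit false

open Equiv Finset Nat
open CategoryTheory
open scoped CategoryTheory.MonoidalCategory

namespace Pool.MP322P

open Pool.MP322 Pool.MP322F

theorem main24 (n : ℕ) (hn : 24 ≤ n) :
    ∃ V : FDRep ℂ (alternatingGroup (Fin n)), Simple V ∧
      ∀ W : FDRep ℂ (alternatingGroup (Fin n)), Simple W → ∃ f : W ⟶ V ⊗ V, f ≠ 0 := by
  obtain ⟨lam, hlam, hg⟩ := exists_goodD n hn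
  exact fdrep_of_plain lam hlam hg

end Pool.MP322P
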