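import Mathlib

/-!
# The kernel algorithm for the level tables

Everything here is evaluated by the kernel (`decide +kernel`), therefore it is written with explicit
recursors and the primitive operations of `Nat`.
-/

set_option autoImplicit false

namespace Pool.MP322P

/-- force the evaluation of a natural number. -/
@[reducible] def fz {α : Type} (n : ℕ) (f : ℕ → α) : α :=
  Nat.rec (f 0) (fun m _ => f (Nat.succ m)) n

theorem fz_eq {α : Type} (n : ℕ) (f : ℕ → α) : fz n f = f n := by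
  cases n <;> rfl

/-- an entry of a table: packed polynomials for both parities (`a0`, `a1`: weights
`1 + (2X)^c`; `e0`, `e1` : weights `1`); `u` is irrelevant (salt for the hash table). -/
structure Q4 where
  u : ℕ
  a0 : ℕ
  a1 : ℕ
  e0 : ℕ
  e1 : ℕ

/-- element number `i` of a list. -/
noncomputable def nth (i : ℕ) : List Q4 → Q4 :=
  Nat.rec (motive := fun _ => List Q4 → Q4)
    (fun l => List.rec (motive := fun _ => Q4) ⟨0, 0, 0, 0, 0⟩ (fun q _ _ => q) l)
    (fun _ ih l => List.rec (motive := fun _ => Q4) ⟨0, 0, 0, 0, 0⟩ (fun _ t _ => ih t) l) i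

/-- drop `i` elements. -/
noncomputable def drp (i : ℕ) : List Q4 → List Q4 :=
  Nat.rec (motive := fun _ => List Q4 → List Q4)
    (fun l => l)
    (fun _ ih l => List.rec (motive := fun _ => List Q4) [] (fun _ t _ => ih t) l) i

/-- drop `i` elements. -/
noncomputable def drN (i : ℕ) : List ℕ → List ℕ :=
  Nat.rec (motive := fun _ => List ℕ → List ℕ)
    (fun l => l)
    (fun _ ih l => List.rec (motive := fun _ => List ℕ) [] (fun _ t _ => ih t) l) i

/-- the new entry `w + f q`, passed to the continuation `k`. -/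
noncomputable def stepQ (u fa fe : ℕ) (od : Bool) (w q : Q4) (k : Q4 → List Q4) : List Q4 :=
  fz (Nat.add w.a0 (Nat.mul fa (cond od q.a1 q.a0))) fun x0 =>
  fz (Nat.add w.a1 (Nat.mul fa (cond od q.a0 q.a1))) fun x1 =>
  fz (Nat.add w.e0 (Nat.mul fe (cond od q.e1 q.e0))) fun y0 =>
  fz (Nat.add w.e1 (Nat.mul fe (cond od q.e0 q.e1))) fun y1 => k ⟨u, x0, x1, y0, y1⟩

/-- multiplication by `1/(1 - f t^(c+1))` with parity change `od`; descending lists. -/
noncomputable def stp (u fa fe c : ℕ) (od : Bool) (l : List Q4) : List Q4 :=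
  List.rec (motive := fun _ => List Q4) []
    (fun w _ r => stepQ u fa fe od w (nth c r) fun y => List.cons y r) l

/-- reverse of `l`, followed by the second argument. -/
noncomputable def revQ (l : List Q4) : List Q4 → List Q4 :=
  List.rec (motive := fun _ => List Q4 → List Q4) (fun acc => acc)
    (fun q _ ih acc => ih (List.cons q acc)) l

/-- `c` zero entries. -/
noncomputable def zeros (c : ℕ) : List Q4 :=
  Nat.rec (motive := fun _ => List Q4) [] (fun _ r => List.cons ⟨0, 0, 0, 0, 0⟩ r) c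

/-- multiplication by `1/(1 - f t^c)` with parity change `od`; ascending list `l`, the arguments
are the (reversed) output and the queue `front ++ reverse back` of the last `c` outputs. -/
noncomputable def goQ (u fa fe : ℕ) (od : Bool) (l : List Q4) :
    List Q4 → List Q4 → List Q4 → List Q4 :=
  List.rec (motive := fun _ => List Q4 → List Q4 → List Q4 → List Q4) (fun out _ _ => out)
    (fun w _ ih out front back =>
      List.rec (motive := fun _ => List Q4)
        (List.rec (motive := fun _ => List Q4) [] (fun q f' _ => stepQ u fa fe od w q fun y =>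
          ih (List.cons y out) f' (List.cons y [])) (revQ back []))
        (fun q f' _ => stepQ u fa fe od w q fun y => ih (List.cons y out) f' (List.cons y back))
        front) l

/-- ascending list of the table `delta`. -/
noncomputable def baseA (L : ℕ) : List Q4 := List.cons ⟨0, 1, 0, 1, 0⟩ (zeros L)

/-- the table of the partitions with parts `4, 5, ..., n+3`; ascending. -/
noncomputable def partsQ (X L : ℕ) (n : ℕ) : List Q4 :=
  Nat.rec (motive := fun _ => List Q4) (baseA L)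
    (fun i r => revQ (goQ (Nat.add i 1000000) (Nat.add 1 (Nat.pow (Nat.mul 2 X) (Nat.add i 4))) 1
      (Nat.beq (Nat.mod i 2) 0) r [] (zeros (Nat.add i 4)) []) []) n

/-- the masked row. `T` : digits `e_j + O` (`j ≤ kx`). -/
noncomputable def rowZ (B X O ones mk mk1 M2 : ℕ) (y T wa we : ℕ) : ℕ :=
  (fun S =>
  (fun P => (fun N => (fun C => (fun Ng => (fun low => (fun Z =>
    Nat.mul low (Nat.div Z low))
    (Nat.mod (Nat.sub (Nat.mul wa (Nat.add P N)) (Nat.mul we P)) mk))
    (Nat.land Ng (Nat.sub M2 Ng)))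
    (Nat.add (Nat.sub ones (Nat.land (Nat.shiftRight C (Nat.sub B 1)) ones)) mk))
    (Nat.sub (Nat.add (Nat.mul y T) (Nat.mul O (Nat.sub (Nat.mul 2001 ones) 2000)))
      (Nat.add (Nat.mul (Nat.mul 2000 X) (Nat.mod T mk1)) (Nat.mul (Nat.mul y O) ones))))
    (Nat.sub (Nat.mul O (Nat.sub ones S)) (Nat.land T (Nat.mul (Nat.sub ones S) (Nat.sub O 1)))))
    (Nat.land T (Nat.mul S (Nat.sub O 1))))
  (Nat.land (Nat.shiftRight T (Nat.sub B 1)) ones)

/-- sum over the number of fixed points `F`. -/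
noncomputable def rows (B X O ones mk mk1 M2 C2 : ℕ) (p : Bool) (l : List Q4) :
    List ℕ → ℕ → ℕ :=
  List.rec (motive := fun _ => List ℕ → ℕ → ℕ) (fun _ _ => 0)
   (fun q _ ih yl V =>
    List.rec (motive := fun _ => ℕ) 0 (fun y yt _ =>
      Nat.add (rowZ B X O ones mk mk1 M2 y (Nat.mod V mk) (cond p q.a1 q.a0) (cond p q.e1 q.e0))
      (ih yt (Nat.sub (Nat.add V (Nat.mul (Nat.mul 2 X) V)) C2))) yl) l

/-- sum over the number `t'` of 3-cycles. -/
noncomputable def tLoop (B X O ones mk mk1 M2 C2 C3 : ℕ) (p : Bool) (ub n : ℕ) :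
    List Q4 → List ℕ → ℕ → ℕ → ℕ :=
  Nat.rec (motive := fun _ => List Q4 → List ℕ → ℕ → ℕ → ℕ) (fun _ _ _ s => s)
   (fun i ih l yl V s =>
    fz (Nat.add ub i) fun u => (fun l' =>
    fz (Nat.add s (rows B X O ones mk mk1 M2 C2 p l' yl (Nat.add V (Nat.mul 0 u)))) fun s' =>
    fz (Nat.sub (Nat.add V C3) (Nat.mul (Nat.mul 4 (Nat.pow X 3)) V)) fun V' =>
      ih (drp 3 l') (drN 3 yl) V' s')
      (stp u (Nat.mul 12 (Nat.pow X 3)) (Nat.mul 12 (Nat.pow X 3)) 2 false l)) n

/-- sum over the number `b'` of 2-cycles. -/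
noncomputable def bLoop (B X O ones mk mk1 M2 C2 C3 C4 tf : ℕ) (b1 n : ℕ) :
    Bool → List Q4 → List ℕ → ℕ → ℕ → ℕ :=
  Nat.rec (motive := fun _ => Bool → List Q4 → List ℕ → ℕ → ℕ → ℕ) (fun _ _ _ _ s => s)
   (fun i ih p l yl V s =>
    fz (Nat.mul 1000 (Nat.add i 1)) fun u => (fun l' =>
    fz (cond (Nat.ble i b1) (tLoop B X O ones mk mk1 M2 C2 C3 p u tf l' yl V s) s) fun s' =>
    fz (Nat.sub (Nat.add V C4) (Nat.mul (Nat.mul 4 (Nat.pow X 2)) V)) fun V' =>
      ih (not p) (drp 2 l') (drN 2 yl) V' s')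
      (stp (Nat.add u 500) (Nat.mul 8 (Nat.pow X 2)) (Nat.mul 8 (Nat.pow X 2)) 1 true l)) n

/-- the total, for `b' < nb`; only the `b'` with `nb - 1 - b1 ≤ b'` are summed. -/
noncomputable def total (L kx B nb b1 : ℕ) (yl : List ℕ) : ℕ :=
  fz (Nat.pow 2 B) fun X => fz (Nat.pow 2 (Nat.sub B 1)) fun O =>
  fz (Nat.pow X (Nat.add kx 1)) fun mk => fz (Nat.div mk X) fun mk1 =>
  fz (Nat.div (Nat.sub mk 1) (Nat.sub X 1)) fun ones =>
  fz (Nat.mul O (Nat.div (Nat.sub (Nat.pow X (Nat.add L 3)) 1) (Nat.sub X 1))) fun OO =>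
  fz (Nat.mul mk (Nat.mul X 4)) fun M2 =>
  fz (Nat.mul (Nat.mul 2 X) OO) fun C2 =>
  fz (Nat.mul (Nat.mul 4 (Nat.pow X 3)) OO) fun C3 =>
  fz (Nat.mul (Nat.mul 4 (Nat.pow X 2)) OO) fun C4 =>
  bLoop B X O ones mk mk1 M2 C2 C3 C4 (Nat.add (Nat.div L 3) 1) b1 nb false
   (revQ (partsQ X L (Nat.sub L 3)) []) yl (Nat.sub (Nat.add OO 1) (Nat.mul 2 X)) 0

end Pool.MP322P
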