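import Pool.Agent.Lib.MP_322c5f_alP.PK00
import Pool.Agent.Lib.MP_322c5f_alP.PC01

/-! job 322P-K1: tables as lists; the list operations of the kernel algorithm. -/

set_option autoImplicit false

open Finset

namespace Pool.MP322P

/-- multiplication of a table by `1/(1 - g t^c s^od)`. -/
noncomputable def St {R : Type*} [CommSemiring R] (g : R) (c : ℕ) (od : Bool)
    (w : ℕ → Bool → R) : ℕ → Bool → R :=
  fun m p => ∑ i ∈ range (m + 1),
    if i * c ≤ m then g ^ i * w (m - i * c) (xor p (od && decide (i % 2 = 1))) else 0

theorem St_rec {R : Type*} [CommSemiring R] (g : R) {c : ℕ} (hc : 1 ≤ c) (od : Bool)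
    (w : ℕ → Bool → R) (m : ℕ) (p : Bool) :
    St g c od w m p = w m p + if c ≤ m then g * St g c od w (m - c) (xor p od) else 0 := by
  unfold St
  rw [Finset.sum_range_succ']
  have h0 : (if 0 * c ≤ m then g ^ 0 * w (m - 0 * c) (xor p (od && decide (0 % 2 = 1))) else 0) =
      w m p := by
    simp
  rw [h0, add_comm]
  congr 1
  split_ifs with hcm
  · rw [Finset.mul_sum]
    have hsub : range (m - c + 1) ⊆ range m := Finset.range_subset_range.2 (by omega)
    rw [← Finset.sum_subset hsub]
    · refine Finset.sum_congr rfl fun i _ => ?_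
      have h1 : (i + 1) * c = i * c + c := by ring
      rw [h1]
      by_cases h2 : i * c ≤ m - c
      · rw [if_pos (by omega), if_pos h2]
        have h3 : m - (i * c + c) = m - c - i * c := by omega
        have h4 : xor p (od && decide ((i + 1) % 2 = 1)) =
            xor (xor p od) (od && decide (i % 2 = 1)) := by
          cases od
          · simp
          · rcases Nat.mod_two_eq_zero_or_one i with h5 | h5
            · have h6 : (i + 1) % 2 = 1 := by omega
              simp [h5, h6]
            · have h6 : (i + 1) % 2 = 0 := by omega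
              simp [h5, h6]
        rw [h3, h4]
        ring
      · rw [if_neg (by omega), if_neg h2, mul_zero]
    · intro i _ hi
      rw [Finset.mem_range] at hi
      have h1 : (i + 1) * 1 ≤ (i + 1) * c := Nat.mul_le_mul_left _ hc
      have h2 : i * 1 ≤ i * c := Nat.mul_le_mul_left _ hc
      have h3 : (i + 1) * c = i * c + c := by ring
      rw [if_neg (by omega)]
  · refine Finset.sum_eq_zero fun i _ => ?_
    have h3 : (i + 1) * c = i * c + c := by ring
    rw [if_neg (by omega)]

/-- an entry agrees with the tables `wa`, `we` at `m`. -/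
def Ent (wa we : ℕ → Bool → ℕ) (m : ℕ) (q : Q4) : Prop :=
  q.a0 = wa m false ∧ q.a1 = wa m true ∧ q.e0 = we m false ∧ q.e1 = we m true

/-- descending list of the entries `n-1, ..., 0`. -/
def isT (wa we : ℕ → Bool → ℕ) : ℕ → List Q4 → Prop
  | 0, l => l = []
  | n + 1, l => ∃ q r, l = q :: r ∧ Ent wa we n q ∧ isT wa we n r

/-- ascending list of the entries `0, ..., n-1`. -/
def isA (wa we : ℕ → Bool → ℕ) (n : ℕ) (l : List Q4) : Prop := isT wa we n l.reverse

private theorem nth_isT (wa we : ℕ → Bool → ℕ) : ∀ (c n : ℕ) (l : List Q4), isT wa we n l →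
    (c < n → Ent wa we (n - 1 - c) (nth c l)) ∧ (n ≤ c → nth c l = ⟨0, 0, 0, 0, 0⟩) := by
  intro c
  induction c with
  | zero =>
    intro n l h
    cases n with
    | zero =>
      have h' : l = [] := h
      subst h'
      exact ⟨fun h => absurd h (by omega), fun _ => rfl⟩
    | succ n =>
      obtain ⟨q, r, rfl, h1, -⟩ := h
      exact ⟨fun _ => h1, fun h => absurd h (by omega)⟩
  | succ c ih =>
    intro n l h
    cases n with
    | zero =>
      have h' : l = [] := h
      subst h'
      exact ⟨fun h => absurd h (by omega), fun _ => rfl⟩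
    | succ n =>
      obtain ⟨q, r, rfl, -, h2⟩ := h
      obtain ⟨h3, h4⟩ := ih n r h2
      refine ⟨fun h => ?_, fun h => h4 (by omega)⟩
      have h5 := h3 (by omega)
      have h6 : n + 1 - 1 - (c + 1) = n - 1 - c := by omega
      rw [h6]
      exact h5

theorem stp_isT (u fa fe c : ℕ) (od : Bool) (wa we : ℕ → Bool → ℕ) (n : ℕ) (l : List Q4)
    (h : isT wa we n l) :
    isT (St fa (c + 1) od wa) (St fe (c + 1) od we) n (stp u fa fe c od l) := by
  induction n generalizing l with
  | zero =>
    have h' : l = [] := h
    subst h'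
    rfl
  | succ n ih =>
    obtain ⟨q, r, rfl, h1, h2⟩ := h
    have h3 := ih r h2
    obtain ⟨h4, h5⟩ := nth_isT _ _ c n _ h3
    have h6 : stp u fa fe c od (q :: r) =
        stepQ u fa fe od q (nth c (stp u fa fe c od r)) fun y => y :: stp u fa fe c od r := rfl
    rw [h6]
    unfold stepQ
    rw [fz_eq, fz_eq, fz_eq, fz_eq]
    refine ⟨_, _, rfl, ?_, h3⟩
    obtain ⟨e0, e1, e2, e3⟩ := h1
    have hrec : ∀ (g : ℕ) (w : ℕ → Bool → ℕ) (p : Bool),
        St g (c + 1) od w n p = w n p +
          if c + 1 ≤ n then g * St g (c + 1) od w (n - (c + 1)) (xor p od) else 0 :=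
      fun g w p => St_rec g (by omega) od w n p
    rcases Nat.lt_or_ge c n with hc | hc
    · obtain ⟨k0, k1, k2, k3⟩ := h4 hc
      have hn : n - 1 - c = n - (c + 1) := by omega
      rw [hn] at k0 k1 k2 k3
      refine ⟨?_, ?_, ?_, ?_⟩
      · rw [hrec, if_pos (by omega)]
        show q.a0 + fa * _ = _
        rw [k0, k1, e0]
        cases od <;> rfl
      · rw [hrec, if_pos (by omega)]
        show q.a1 + fa * _ = _
        rw [k0, k1, e1]
        cases od <;> rfl
      · rw [hrec, if_pos (by omega)]
        show q.e0 + fe * _ = _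
        rw [k2, k3, e2]
        cases od <;> rfl
      · rw [hrec, if_pos (by omega)]
        show q.e1 + fe * _ = _
        rw [k2, k3, e3]
        cases od <;> rfl
    · have h7 := h5 hc
      rw [h7]
      refine ⟨?_, ?_, ?_, ?_⟩
      · rw [hrec, if_neg (by omega)]
        show q.a0 + fa * (cond od 0 0) = _
        rw [e0]
        cases od <;> rfl
      · rw [hrec, if_neg (by omega)]
        show q.a1 + fa * (cond od 0 0) = _
        rw [e1]
        cases od <;> rfl
      · rw [hrec, if_neg (by omega)]
        show q.e0 + fe * (cond od 0 0) = _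
        rw [e2]
        cases od <;> rfl
      · rw [hrec, if_neg (by omega)]
        show q.e1 + fe * (cond od 0 0) = _
        rw [e3]
        cases od <;> rfl

theorem drp_isT (wa we : ℕ → Bool → ℕ) (n i : ℕ) (l : List Q4) (h : isT wa we n l) :
    isT wa we (n - i) (drp i l) := by
  induction i generalizing n l with
  | zero => exact h
  | succ i ih =>
    cases n with
    | zero =>
      have h' : l = [] := h
      subst h'
      rw [Nat.zero_sub]
      rfl
    | succ n =>
      obtain ⟨q, r, rfl, -, h2⟩ := h
      rw [Nat.add_sub_add_right]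
      exact ih n r h2

theorem drN_eq (i : ℕ) (l : List ℕ) : drN i l = l.drop i := by
  induction i generalizing l with
  | zero => rfl
  | succ i ih =>
    cases l with
    | nil => rfl
    | cons a l => exact ih l

theorem revQ_eq (l acc : List Q4) : revQ l acc = l.reverse ++ acc := by
  induction l generalizing acc with
  | nil => rfl
  | cons q l ih =>
    have h : revQ (q :: l) acc = revQ l (q :: acc) := rfl
    rw [h, ih, List.reverse_cons, List.append_assoc]
    rfl

end Pool.MP322P
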