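import Pool.Agent.Lib.MP_322c5f_alP.PK01

/-! job 322P-K1b: the queue algorithm and the table of partitions with parts `≥ 4`.

Invariant of `goQ`: after the entries `0, ..., m-1` the output is the descending list of the new
entries `m-1, ..., 0`, and `front ++ back.reverse` are the new entries `m-c, ..., m-1` (zero entries
for negative indices), `back` being refilled when `front` is empty. -/

set_option autoImplicit false

open Finset

namespace Pool.MP322P

private theorem isT_iff (wa we : ℕ → Bool → ℕ) : ∀ (n : ℕ) (l : List Q4),
    isT wa we n l ↔ l.length = n ∧ ∀ (j : ℕ) (q : Q4), l[j]? = some q → Ent wa we (n - 1 - j) q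
  | 0, l => by
      constructor
      · intro h
        have h' : l = [] := h
        subst h'
        simp
      · rintro ⟨h, -⟩
        exact List.length_eq_zero_iff.mp h
  | n + 1, l => by
      constructor
      · rintro ⟨q, r, rfl, hq, hr⟩
        obtain ⟨h1, h2⟩ := (isT_iff wa we n r).mp hr
        refine ⟨by simp [h1], ?_⟩
        intro j q' hj
        cases j with
        | zero =>
          simp only [List.getElem?_cons_zero, Option.some.injEq] at hj
          subst hj
          simpa using hq
        | succ j =>
          simp only [List.getElem?_cons_succ] at hj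
          have h3 := h2 j q' hj
          have h4 : n + 1 - 1 - (j + 1) = n - 1 - j := by omega
          rw [h4]
          exact h3
      · rintro ⟨h1, h2⟩
        cases l with
        | nil => simp at h1
        | cons q r =>
          refine ⟨q, r, rfl, ?_, ?_⟩
          · have := h2 0 q (by simp)
            simpa using this
          · rw [isT_iff wa we n r]
            refine ⟨by simpa using h1, ?_⟩
            intro j q' hj
            have h3 := h2 (j + 1) q' (by simpa using hj)
            have h4 : n + 1 - 1 - (j + 1) = n - 1 - j := by omega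
            rw [h4] at h3
            exact h3

private theorem isA_iff (wa we : ℕ → Bool → ℕ) (n : ℕ) (l : List Q4) :
    isA wa we n l ↔ l.length = n ∧ ∀ (j : ℕ) (q : Q4), l[j]? = some q → Ent wa we j q := by
  unfold isA
  rw [isT_iff]
  constructor
  · rintro ⟨h1, h2⟩
    have h1' : l.length = n := by simpa using h1
    refine ⟨h1', ?_⟩
    intro j q hj
    have hjl : j < l.length := by
      by_contra hcon
      rw [List.getElem?_eq_none (by omega)] at hj
      exact absurd hj (by simp)
    have h3 := h2 (n - 1 - j) q (by
      rw [List.getElem?_reverse (by omega)]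
      rw [← hj]
      congr 1
      omega)
    have h4 : n - 1 - (n - 1 - j) = j := by omega
    rw [h4] at h3
    exact h3
  · rintro ⟨h1, h2⟩
    refine ⟨by simpa using h1, ?_⟩
    intro j q hj
    have hjl : j < l.length := by
      by_contra hcon
      rw [List.getElem?_eq_none (by simp; omega)] at hj
      exact absurd hj (by simp)
    rw [List.getElem?_reverse hjl] at hj
    have h3 := h2 _ q hj
    have h4 : l.length - 1 - j = n - 1 - j := by omega
    rw [h4] at h3
    exact h3

private theorem stepQ_eq (u fa fe : ℕ) (od : Bool) (w q : Q4) (k : Q4 → List Q4) :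
    stepQ u fa fe od w q k = k ⟨u, w.a0 + fa * (cond od q.a1 q.a0),
      w.a1 + fa * (cond od q.a0 q.a1), w.e0 + fe * (cond od q.e1 q.e0),
      w.e1 + fe * (cond od q.e0 q.e1)⟩ := by
  unfold stepQ
  simp only [fz_eq]
  rfl

private theorem goQ_front (u fa fe : ℕ) (od : Bool) (w : Q4) (l out : List Q4) (q : Q4)
    (f' back : List Q4) : goQ u fa fe od (w :: l) out (q :: f') back =
      stepQ u fa fe od w q fun y => goQ u fa fe od l (y :: out) f' (y :: back) := rfl

private theorem goQ_back (u fa fe : ℕ) (od : Bool) (w : Q4) (l out back : List Q4) :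
    goQ u fa fe od (w :: l) out [] back =
      List.rec (motive := fun _ => List Q4) [] (fun q f' _ => stepQ u fa fe od w q fun y =>
          goQ u fa fe od l (y :: out) f' (y :: [])) (revQ back []) := rfl

private theorem goQ_back' (u fa fe : ℕ) (od : Bool) (w : Q4) (l out back : List Q4) (q : Q4)
    (f' : List Q4) (h : back.reverse = q :: f') :
    goQ u fa fe od (w :: l) out [] back =
      stepQ u fa fe od w q fun y => goQ u fa fe od l (y :: out) f' (y :: []) := by
  rw [goQ_back, revQ_eq, List.append_nil, h]

private theorem goQ_aux (u fa fe c : ℕ) (hc : 1 ≤ c) (od : Bool) (wa we : ℕ → Bool → ℕ) :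
    ∀ (l : List Q4) (m : ℕ) (out front back : List Q4),
      (∀ (j : ℕ) (q : Q4), l[j]? = some q → Ent wa we (m + j) q) →
      isT (St fa c od wa) (St fe c od we) m out →
      (front ++ back.reverse).length = c →
      (∀ (j : ℕ) (q : Q4), (front ++ back.reverse)[j]? = some q →
        (c ≤ m + j → Ent (St fa c od wa) (St fe c od we) (m + j - c) q) ∧
        (m + j < c → q.a0 = 0 ∧ q.a1 = 0 ∧ q.e0 = 0 ∧ q.e1 = 0)) →
      isT (St fa c od wa) (St fe c od we) (m + l.length) (goQ u fa fe od l out front back) := by
  intro l
  induction l with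
  | nil =>
    intro m out front back _ hout _ _
    exact hout
  | cons w l ih =>
    intro m out front back hl hout hlen hq
    have hw : Ent wa we m w := by simpa using hl 0 w (by simp)
    -- the queue is nonempty
    obtain ⟨q, Q, hQ⟩ : ∃ q Q, front ++ back.reverse = q :: Q := by
      cases hF : front ++ back.reverse with
      | nil => rw [hF] at hlen; simp at hlen; omega
      | cons q Q => exact ⟨q, Q, rfl⟩
    -- the new entry
    set y : Q4 := ⟨u, w.a0 + fa * (cond od q.a1 q.a0),
      w.a1 + fa * (cond od q.a0 q.a1), w.e0 + fe * (cond od q.e1 q.e0),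
      w.e1 + fe * (cond od q.e0 q.e1)⟩ with hy
    have hq0 := hq 0 q (by rw [hQ]; simp)
    simp only [add_zero] at hq0
    have hyE : Ent (St fa c od wa) (St fe c od we) m y := by
      obtain ⟨w1, w2, w3, w4⟩ := hw
      have key : ∀ (g : ℕ) (wt : ℕ → Bool → ℕ) (p : Bool) (x z : ℕ), x = wt m p →
          (c ≤ m → z = St g c od wt (m - c) (xor p od)) → (m < c → z = 0) →
          x + g * z = St g c od wt m p := by
        intro g wt p x z hx h1 h2
        rw [St_rec g hc od wt m p, hx]
        by_cases hcm : c ≤ m
        · rw [if_pos hcm, h1 hcm]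
        · rw [if_neg hcm, h2 (by omega)]
          simp
      refine ⟨?_, ?_, ?_, ?_⟩
      · apply key fa wa false _ _ w1
        · intro h
          obtain ⟨a1, a2, -, -⟩ := hq0.1 h
          cases od <;> simp [a1, a2]
        · intro h
          obtain ⟨a1, a2, -, -⟩ := hq0.2 h
          cases od <;> simp [a1, a2]
      · apply key fa wa true _ _ w2
        · intro h
          obtain ⟨a1, a2, -, -⟩ := hq0.1 h
          cases od <;> simp [a1, a2]
        · intro h
          obtain ⟨a1, a2, -, -⟩ := hq0.2 h
          cases od <;> simp [a1, a2]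
      · apply key fe we false _ _ w3
        · intro h
          obtain ⟨-, -, a1, a2⟩ := hq0.1 h
          cases od <;> simp [a1, a2]
        · intro h
          obtain ⟨-, -, a1, a2⟩ := hq0.2 h
          cases od <;> simp [a1, a2]
      · apply key fe we true _ _ w4
        · intro h
          obtain ⟨-, -, a1, a2⟩ := hq0.1 h
          cases od <;> simp [a1, a2]
        · intro h
          obtain ⟨-, -, a1, a2⟩ := hq0.2 h
          cases od <;> simp [a1, a2]
    have hl' : ∀ (j : ℕ) (q : Q4), l[j]? = some q → Ent wa we (m + 1 + j) q := by
      intro j q' hj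
      have := hl (j + 1) q' (by simpa using hj)
      have h4 : m + (j + 1) = m + 1 + j := by omega
      rw [h4] at this
      exact this
    have hout' : isT (St fa c od wa) (St fe c od we) (m + 1) (y :: out) := ⟨y, out, rfl, hyE, hout⟩
    have hQlen : Q.length + 1 = c := by
      rw [hQ] at hlen
      simpa using hlen
    have hnew : ∀ (j : ℕ) (q' : Q4), (Q ++ [y])[j]? = some q' →
        (c ≤ m + 1 + j → Ent (St fa c od wa) (St fe c od we) (m + 1 + j - c) q') ∧
        (m + 1 + j < c → q'.a0 = 0 ∧ q'.a1 = 0 ∧ q'.e0 = 0 ∧ q'.e1 = 0) := by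
      intro j q' hj
      by_cases hjQ : j < Q.length
      · rw [List.getElem?_append_left hjQ] at hj
        have := hq (j + 1) q' (by rw [hQ]; simpa using hj)
        have h4 : m + (j + 1) = m + 1 + j := by omega
        rw [h4] at this
        exact this
      · rw [List.getElem?_append_right (by omega)] at hj
        have hj0 : j - Q.length = 0 := by
          by_contra hcon
          rw [List.getElem?_eq_none (by simp; omega)] at hj
          exact absurd hj (by simp)
        rw [hj0] at hj
        simp only [List.getElem?_cons_zero, Option.some.injEq] at hj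
        subst hj
        have hjc : j = c - 1 := by omega
        constructor
        · intro _
          have h4 : m + 1 + j - c = m := by omega
          rw [h4]
          exact hyE
        · intro h
          omega
    have hlen' : m + (w :: l).length = m + 1 + l.length := by
      simp only [List.length_cons]; omega
    rw [hlen']
    cases hfr : front with
    | cons q1 f' =>
      rw [hfr] at hQ
      simp only [List.cons_append, List.cons.injEq] at hQ
      obtain ⟨rfl, hQ2⟩ := hQ
      rw [goQ_front, stepQ_eq]
      apply ih (m + 1) (y :: out) f' (y :: back) hl' hout'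
      · rw [List.reverse_cons, ← List.append_assoc, hQ2]
        simpa using hQlen
      · rw [List.reverse_cons, ← List.append_assoc, hQ2]
        exact hnew
    | nil =>
      rw [hfr] at hQ
      simp only [List.nil_append] at hQ
      rw [goQ_back' u fa fe od w l out back q Q hQ, stepQ_eq]
      apply ih (m + 1) (y :: out) Q (y :: []) hl' hout'
      · simpa using hQlen
      · simpa using hnew

private theorem zeros_eq (c : ℕ) : zeros c = List.replicate c ⟨0, 0, 0, 0, 0⟩ := by
  induction c with
  | zero => rfl
  | succ c ih =>
    rw [List.replicate_succ, ← ih]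
    rfl

/-- the queue algorithm: `front ++ reverse back` are the last `c` outputs. -/
theorem goQ_isT (u fa fe c : ℕ) (hc : 1 ≤ c) (od : Bool) (wa we : ℕ → Bool → ℕ) (n : ℕ)
    (l : List Q4) (h : isA wa we n l) :
    isT (St fa c od wa) (St fe c od we) n (goQ u fa fe od l [] (zeros c) []) := by
  obtain ⟨h1, h2⟩ := (isA_iff wa we n l).mp h
  have h3 := goQ_aux u fa fe c hc od wa we l 0 [] (zeros c) []
    (by simpa using h2) rfl (by simp [zeros_eq]) (by
      intro j q hj
      simp only [List.reverse_nil, List.append_nil, zeros_eq] at hj
      have hjc : j < c := by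
        by_contra hcon
        rw [List.getElem?_eq_none (by simp; omega)] at hj
        exact absurd hj (by simp)
      rw [List.getElem?_replicate_of_lt hjc] at hj
      simp only [Option.some.injEq] at hj
      subst hj
      refine ⟨fun h => by omega, fun _ => ⟨rfl, rfl, rfl, rfl⟩⟩)
  rw [h1, zero_add] at h3
  exact h3

private theorem St_WS (f : ℕ → ℕ) (n : ℕ) (m : ℕ) (p : Bool) :
    St (f (n + 4)) (n + 4) (Nat.beq (Nat.mod n 2) 0) (fun m p => WS 4 (n + 3) m p f) m p =
      WS 4 (n + 4) m p f := by
  have hod : Nat.beq (Nat.mod n 2) 0 = decide ((n + 3) % 2 = 1) := by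
    have h1 : Nat.beq (Nat.mod n 2) 0 = decide (n % 2 = 0) := by
      rcases Nat.mod_two_eq_zero_or_one n with h | h
      · have : Nat.mod n 2 = 0 := h
        rw [this, h]; rfl
      · have : Nat.mod n 2 = 1 := h
        rw [this, h]; rfl
    rw [h1]
    rcases Nat.mod_two_eq_zero_or_one n with h | h
    · have : (n + 3) % 2 = 1 := by omega
      rw [h, this]; rfl
    · have : (n + 3) % 2 = 0 := by omega
      rw [h, this]; rfl
  induction m using Nat.strong_induction_on generalizing p with
  | _ m ih =>
    rw [St_rec _ (by omega), WS_succ (N := n + 3) (by norm_num) (by omega)]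
    by_cases h : n + 4 ≤ m
    · rw [if_pos h, if_pos (by omega), ih (m - (n + 4)) (by omega), hod]
    · rw [if_neg h, if_neg (by omega)]

/-- the table of the partitions with parts `≥ 4`. -/
theorem partsQ_isT (X L n : ℕ) :
    isT (fun m p => WS 4 (n + 3) m p (fun c => 1 + (2 * X) ^ c))
      (fun m p => WS 4 (n + 3) m p (fun _ => 1)) (L + 1) (revQ (partsQ X L n) []) := by
  induction n with
  | zero =>
    rw [revQ_eq, List.append_nil]
    change isA _ _ (L + 1) (partsQ X L 0)
    rw [isA_iff]
    have h0 : partsQ X L 0 = ⟨0, 1, 0, 1, 0⟩ :: zeros L := rfl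
    rw [h0, zeros_eq]
    refine ⟨by simp, ?_⟩
    intro j q hj
    cases j with
    | zero =>
      simp only [List.getElem?_cons_zero, Option.some.injEq] at hj
      subst hj
      refine ⟨?_, ?_, ?_, ?_⟩ <;> dsimp only <;> rw [WS_base (by norm_num) (by norm_num)] <;> simp
    | succ j =>
      simp only [List.getElem?_cons_succ] at hj
      have hjc : j < L := by
        by_contra hcon
        rw [List.getElem?_eq_none (by simp; omega)] at hj
        exact absurd hj (by simp)
      rw [List.getElem?_replicate_of_lt hjc] at hj
      simp only [Option.some.injEq] at hj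
      subst hj
      refine ⟨?_, ?_, ?_, ?_⟩ <;> dsimp only <;> rw [WS_base (by norm_num) (by norm_num)] <;> simp
  | succ n ih =>
    have hs : partsQ X L (n + 1) = revQ (goQ (n + 1000000) (1 + (2 * X) ^ (n + 4)) 1
      (Nat.beq (Nat.mod n 2) 0) (partsQ X L n) [] (zeros (n + 4)) []) [] := rfl
    rw [hs, revQ_eq (revQ _ _), revQ_eq, List.append_nil, List.append_nil, List.reverse_reverse]
    have hA : isA (fun m p => WS 4 (n + 3) m p (fun c => 1 + (2 * X) ^ c))
      (fun m p => WS 4 (n + 3) m p (fun _ => 1)) (L + 1) (partsQ X L n) := by
      rw [revQ_eq, List.append_nil] at ih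
      exact ih
    have h1 := goQ_isT (n + 1000000) (1 + (2 * X) ^ (n + 4)) 1 (n + 4) (by omega)
      (Nat.beq (Nat.mod n 2) 0) _ _ (L + 1) (partsQ X L n) hA
    have e1 : St (1 + (2 * X) ^ (n + 4)) (n + 4) (Nat.beq (Nat.mod n 2) 0)
        (fun m p => WS 4 (n + 3) m p (fun c => 1 + (2 * X) ^ c)) =
        fun m p => WS 4 (n + 1 + 3) m p (fun c => 1 + (2 * X) ^ c) := by
      funext m p
      exact St_WS (fun c => 1 + (2 * X) ^ c) n m p
    have e2 : St 1 (n + 4) (Nat.beq (Nat.mod n 2) 0)
        (fun m p => WS 4 (n + 3) m p (fun _ => 1)) =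
        fun m p => WS 4 (n + 1 + 3) m p (fun _ => (1 : ℕ)) := by
      funext m p
      exact St_WS (fun _ => 1) n m p
    rw [e1, e2] at h1
    exact h1

end Pool.MP322P
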