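import Pool.Agent.Lib.MP_322c5f_alP.PK01b
import Pool.Agent.Lib.MP_322c5f_alP.PC02

/-! job 322P-K2: the tables `WT` as iterated `St`, and a crude bound for them. -/

set_option autoImplicit false

open Finset Polynomial

namespace Pool.MP322P

/-- a table with the recursion of `St` is `St`. -/
private theorem St_unique {R : Type*} [CommSemiring R] (g : R) {c : ℕ} (hc : 1 ≤ c) (od : Bool)
    (w G : ℕ → Bool → R)
    (h : ∀ m p, G m p = w m p + if c ≤ m then g * G (m - c) (xor p od) else 0) (m : ℕ) :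
    ∀ p, St g c od w m p = G m p := by
  induction m using Nat.strong_induction_on with
  | _ m ih =>
    intro p
    rw [St_rec g hc od w m p, h m p]
    congr 1
    split_ifs with hcm
    · rw [ih (m - c) (by omega)]
    · rfl

private theorem xor_step (od p : Bool) (b : ℕ) :
    xor p (od && decide ((b + 1) % 2 = 1)) = xor (xor p od) (od && decide (b % 2 = 1)) := by
  cases od
  · simp
  · rcases Nat.mod_two_eq_zero_or_one b with h5 | h5
    · have h6 : (b + 1) % 2 = 1 := by omega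
      simp [h5, h6]
    · have h6 : (b + 1) % 2 = 0 := by omega
      simp [h5, h6]

/-- the closed form. -/
private noncomputable def Cf {R : Type*} [CommSemiring R] (g : R) (c : ℕ) (od : Bool)
    (w : ℕ → Bool → R) (a m : ℕ) (p : Bool) : R :=
  ∑ b ∈ range (m + 1), if c * b ≤ m then
      (((a + b).choose b : ℕ) : R) * g ^ b * w (m - c * b) (xor p (od && decide (b % 2 = 1)))
    else 0

private theorem Cf_zero {R : Type*} [CommSemiring R] (g : R) (c : ℕ) (od : Bool)
    (w : ℕ → Bool → R) (m : ℕ) (p : Bool) : Cf g c od w 0 m p = St g c od w m p := by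
  unfold Cf St
  refine Finset.sum_congr rfl fun b _ => ?_
  rw [Nat.mul_comm c b, Nat.zero_add, Nat.choose_self, Nat.cast_one, one_mul]

private theorem Cf_rec {R : Type*} [CommSemiring R] (g : R) {c : ℕ} (hc : 1 ≤ c) (od : Bool)
    (w : ℕ → Bool → R) (a m : ℕ) (p : Bool) :
    Cf g c od w (a + 1) m p = Cf g c od w a m p +
      if c ≤ m then g * Cf g c od w (a + 1) (m - c) (xor p od) else 0 := by
  have h1 : ∀ k, Cf g c od w k m p = w m p + ∑ b ∈ range m, if c * (b + 1) ≤ m then
      (((k + (b + 1)).choose (b + 1) : ℕ) : R) * g ^ (b + 1) *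
        w (m - c * (b + 1)) (xor p (od && decide ((b + 1) % 2 = 1))) else 0 := by
    intro k
    unfold Cf
    rw [Finset.sum_range_succ', add_comm]
    congr 1
    simp
  have h2 : (∑ b ∈ range m, if c * (b + 1) ≤ m then
      (((a + 1 + (b + 1)).choose (b + 1) : ℕ) : R) * g ^ (b + 1) *
        w (m - c * (b + 1)) (xor p (od && decide ((b + 1) % 2 = 1))) else 0) =
      (∑ b ∈ range m, if c * (b + 1) ≤ m then
      (((a + (b + 1)).choose (b + 1) : ℕ) : R) * g ^ (b + 1) *
        w (m - c * (b + 1)) (xor p (od && decide ((b + 1) % 2 = 1))) else 0) +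
      ∑ b ∈ range m, if c * (b + 1) ≤ m then
      g * ((((a + 1 + b).choose b : ℕ) : R) * g ^ b *
        w (m - c * (b + 1)) (xor (xor p od) (od && decide (b % 2 = 1)))) else 0 := by
    rw [← Finset.sum_add_distrib]
    refine Finset.sum_congr rfl fun b _ => ?_
    split_ifs with hb
    · rw [xor_step]
      have h3 : (a + 1 + (b + 1)).choose (b + 1) =
          (a + 1 + b).choose b + (a + (b + 1)).choose (b + 1) := by
        have h4 : a + 1 + (b + 1) = (a + 1 + b) + 1 := by ring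
        have h5 : a + (b + 1) = a + 1 + b := by ring
        rw [h4, h5, Nat.choose_succ_succ]
      rw [h3, Nat.cast_add, pow_succ]
      ring
    · rw [add_zero]
  have h3 : (∑ b ∈ range m, if c * (b + 1) ≤ m then
      g * ((((a + 1 + b).choose b : ℕ) : R) * g ^ b *
        w (m - c * (b + 1)) (xor (xor p od) (od && decide (b % 2 = 1)))) else 0) =
      if c ≤ m then g * Cf g c od w (a + 1) (m - c) (xor p od) else 0 := by
    split_ifs with hcm
    · unfold Cf
      rw [Finset.mul_sum]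
      have hsub : range (m - c + 1) ⊆ range m := Finset.range_subset_range.2 (by omega)
      rw [← Finset.sum_subset hsub]
      · refine Finset.sum_congr rfl fun b _ => ?_
        have h4 : c * (b + 1) = c * b + c := by ring
        rw [h4]
        by_cases h5 : c * b ≤ m - c
        · have h6 : m - (c * b + c) = m - c - c * b := by omega
          rw [if_pos (by omega), if_pos h5, h6]
        · rw [if_neg (by omega), if_neg h5, mul_zero]
      · intro b _ hb
        rw [Finset.mem_range] at hb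
        have h4 : c * (b + 1) = c * b + c := by ring
        have h5 : 1 * b ≤ c * b := Nat.mul_le_mul_right _ hc
        rw [if_neg (by omega)]
    · refine Finset.sum_eq_zero fun b _ => ?_
      have h4 : c * (b + 1) = c * b + c := by ring
      rw [if_neg (by omega)]
  rw [h1 (a + 1), h1 a, h2, h3, add_assoc]

private theorem St_iter {R : Type*} [CommSemiring R] (g : R) {c : ℕ} (hc : 1 ≤ c) (od : Bool)
    (w : ℕ → Bool → R) (a : ℕ) : (St g c od)^[a + 1] w = Cf g c od w a := by
  induction a with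
  | zero =>
    funext m p
    rw [Cf_zero]
    rfl
  | succ a ih =>
    rw [Function.iterate_succ_apply', ih]
    funext m p
    exact St_unique g hc od _ _ (fun m p => Cf_rec g hc od w a m p) m p

theorem St_iter2 {R : Type*} [CommSemiring R] (g : R) (w : ℕ → Bool → R) (a m : ℕ) (p : Bool) :
    ((St g 2 true)^[a + 1] w) m p = ∑ b ∈ range (m + 1), if 2 * b ≤ m then
      (((a + b).choose b : ℕ) : R) * g ^ b * w (m - 2 * b) (xor p (decide (b % 2 = 1))) else 0 := by
  rw [St_iter g (by norm_num) true w a]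
  unfold Cf
  simp only [Bool.true_and]

theorem St_iter3 {R : Type*} [CommSemiring R] (g : R) (w : ℕ → Bool → R) (t m : ℕ) (p : Bool) :
    ((St g 3 false)^[t + 1] w) m p = ∑ d ∈ range (m + 1), if 3 * d ≤ m then
      (((t + d).choose d : ℕ) : R) * g ^ d * w (m - 3 * d) p else 0 := by
  rw [St_iter g (by norm_num) false w t]
  unfold Cf
  simp only [Bool.false_and, Bool.xor_false]

private theorem decide_add (a b : ℕ) :
    xor (decide (a % 2 = 1)) (decide (b % 2 = 1)) = decide ((a + b) % 2 = 1) := by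
  rcases Nat.mod_two_eq_zero_or_one a with h1 | h1 <;>
    rcases Nat.mod_two_eq_zero_or_one b with h2 | h2 <;>
    simp [h1, h2, Nat.add_mod]

theorem WT_eq_St {R : Type*} [CommSemiring R] (N : ℕ) (f : ℕ → R) (g2 g3 : R) (a t m : ℕ) :
    WT N f g2 g3 a t m = ((St g3 3 false)^[t + 1] ((St g2 2 true)^[a + 1]
      (fun m p => WS 4 N m p f))) m (decide (a % 2 = 1)) := by
  rw [St_iter3]
  unfold WT
  rw [Finset.sum_comm]
  refine Finset.sum_congr rfl fun d _ => ?_
  split_ifs with hd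
  · rw [St_iter2, Finset.mul_sum]
    have hsub : range (m - 3 * d + 1) ⊆ range (m + 1) := Finset.range_subset_range.2 (by omega)
    rw [← Finset.sum_subset hsub]
    · refine Finset.sum_congr rfl fun b _ => ?_
      by_cases hb : 2 * b ≤ m - 3 * d
      · have h1 : m - (2 * b + 3 * d) = m - 3 * d - 2 * b := by omega
        rw [if_pos (by omega), if_pos hb, h1, decide_add]
        ring
      · rw [if_neg (by omega), if_neg hb, mul_zero]
    · intro b _ hb
      rw [Finset.mem_range] at hb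
      rw [if_neg (by omega)]
  · refine Finset.sum_eq_zero fun b _ => ?_
    rw [if_neg (by omega)]

private theorem map_WT {R S : Type*} [CommSemiring R] [CommSemiring S] (φ : R →+* S) (N : ℕ)
    (f : ℕ → R) (g2 g3 : R) (a t m : ℕ) :
    φ (WT N f g2 g3 a t m) = WT N (fun c => φ (f c)) (φ g2) (φ g3) a t m := by
  unfold WT
  rw [map_sum]
  refine Finset.sum_congr rfl fun b _ => ?_
  rw [map_sum]
  refine Finset.sum_congr rfl fun d _ => ?_
  split_ifs with h
  · rw [map_mul, map_mul, map_mul, map_mul, map_pow, map_pow, map_natCast, map_natCast, map_WS]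
  · rw [map_zero]

theorem eval_WA (L a t m X : ℕ) : (WA L a t m).eval X =
    WT L (fun c => 1 + (2 * X) ^ c) (8 * X ^ 2) (12 * X ^ 3) a t m := by
  have h := map_WT (Polynomial.evalRingHom X) L (fun c => 1 + (2 * (Polynomial.X : ℕ[X])) ^ c)
    (8 * (Polynomial.X : ℕ[X]) ^ 2) (12 * (Polynomial.X : ℕ[X]) ^ 3) a t m
  simp only [Polynomial.coe_evalRingHom] at h
  unfold WA
  rw [h]
  simp

theorem eval_WE (L a t m X : ℕ) : (WE L a t m).eval X =
    WT L (fun _ => 1) (8 * X ^ 2) (12 * X ^ 3) a t m := by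
  have h := map_WT (Polynomial.evalRingHom X) L (fun _ => (1 : ℕ[X]))
    (8 * (Polynomial.X : ℕ[X]) ^ 2) (12 * (Polynomial.X : ℕ[X]) ^ 3) a t m
  simp only [Polynomial.coe_evalRingHom] at h
  unfold WE
  rw [h]
  simp

private theorem coeff_mul_mono {p q r s : ℕ[X]} (h1 : ∀ i, p.coeff i ≤ q.coeff i)
    (h2 : ∀ i, r.coeff i ≤ s.coeff i) (i : ℕ) : (p * r).coeff i ≤ (q * s).coeff i := by
  rw [Polynomial.coeff_mul, Polynomial.coeff_mul]
  exact Finset.sum_le_sum fun x _ => Nat.mul_le_mul (h1 _) (h2 _)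

private theorem coeff_prod_mono (τ : Multiset ℕ) (i : ℕ) :
    ((τ.map (fun _ => (1 : ℕ[X]))).prod).coeff i ≤
      ((τ.map (fun c => 1 + (2 * (X : ℕ[X])) ^ c)).prod).coeff i := by
  induction τ using Multiset.induction_on generalizing i with
  | empty => simp
  | cons c τ ih =>
    rw [Multiset.map_cons, Multiset.map_cons, Multiset.prod_cons, Multiset.prod_cons]
    refine coeff_mul_mono (fun j => ?_) (fun j => ih j) i
    rw [Polynomial.coeff_add]
    exact Nat.le_add_right _ _

private theorem coeff_WS_mono (N r : ℕ) (p : Bool) (i : ℕ) :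
    (WS 4 N r p (fun _ => (1 : ℕ[X]))).coeff i ≤
      (WS 4 N r p (fun c => 1 + (2 * (X : ℕ[X])) ^ c)).coeff i := by
  unfold WS
  rw [Polynomial.finsetSum_coeff, Polynomial.finsetSum_coeff]
  exact Finset.sum_le_sum fun τ _ => coeff_prod_mono τ i

theorem WE_coeff_le (L a t m i : ℕ) : (WE L a t m).coeff i ≤ (WA L a t m).coeff i := by
  unfold WE WA WT
  rw [Polynomial.finsetSum_coeff, Polynomial.finsetSum_coeff]
  refine Finset.sum_le_sum fun b _ => ?_
  rw [Polynomial.finsetSum_coeff, Polynomial.finsetSum_coeff]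
  refine Finset.sum_le_sum fun d _ => ?_
  split_ifs with h
  · exact coeff_mul_mono (fun _ => le_rfl) (fun j => coeff_WS_mono _ _ _ j) i
  · exact le_rfl

private theorem St_bound (g c : ℕ) (hc : 1 ≤ c) (od : Bool) (w : ℕ → Bool → ℕ) (K K' γ : ℝ)
    (hK' : 0 ≤ K') (hg : (g : ℝ) ≤ γ * 4 ^ c) (hKK : K + γ * K' ≤ K')
    (hw : ∀ m p, ((w m p : ℕ) : ℝ) ≤ K * 4 ^ m) (m : ℕ) :
    ∀ p, ((St g c od w m p : ℕ) : ℝ) ≤ K' * 4 ^ m := by
  have hγ : 0 ≤ γ * 4 ^ c := le_trans (Nat.cast_nonneg _) hg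
  have hγ' : 0 ≤ γ := nonneg_of_mul_nonneg_left hγ (by positivity)
  induction m using Nat.strong_induction_on with
  | _ m ih =>
    intro p
    rw [St_rec g hc od w m p]
    have h4 : (0 : ℝ) ≤ 4 ^ m := by positivity
    have h0 : 0 ≤ γ * K' * 4 ^ m := mul_nonneg (mul_nonneg hγ' hK') h4
    have h5 : (K + γ * K') * (4 : ℝ) ^ m ≤ K' * 4 ^ m := mul_le_mul_of_nonneg_right hKK h4
    split_ifs with hcm
    · rw [Nat.cast_add, Nat.cast_mul]
      have h1 := ih (m - c) (by omega) (xor p od)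
      have h2 : (g : ℝ) * ((St g c od w (m - c) (xor p od) : ℕ) : ℝ) ≤
          (γ * 4 ^ c) * (K' * 4 ^ (m - c)) :=
        mul_le_mul hg h1 (Nat.cast_nonneg _) hγ
      have h3 : (4 : ℝ) ^ m = 4 ^ c * 4 ^ (m - c) := by
        rw [← pow_add]
        congr 1
        omega
      have h6 : (γ * 4 ^ c) * (K' * 4 ^ (m - c)) = γ * K' * (4 : ℝ) ^ m := by
        rw [h3]
        ring
      have h7 := hw m p
      rw [h6] at h2
      nlinarith
    · rw [add_zero]
      have h7 := hw m p
      nlinarith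

private theorem St_iter_bound (g c : ℕ) (hc : 1 ≤ c) (od : Bool) (γ q : ℝ) (hq : 0 ≤ q)
    (hg : (g : ℝ) ≤ γ * 4 ^ c) (hqq : 1 + γ * q ≤ q) (w : ℕ → Bool → ℕ) (K : ℝ) (hK : 0 ≤ K)
    (hw : ∀ m p, ((w m p : ℕ) : ℝ) ≤ K * 4 ^ m) (n : ℕ) :
    ∀ m p, ((((St g c od)^[n] w) m p : ℕ) : ℝ) ≤ K * q ^ n * 4 ^ m := by
  induction n with
  | zero =>
    intro m p
    simpa using hw m p
  | succ n ih =>
    intro m p
    rw [Function.iterate_succ_apply']
    have hKn : 0 ≤ K * q ^ n := mul_nonneg hK (pow_nonneg hq n)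
    refine St_bound g c hc od _ (K * q ^ n) (K * q ^ (n + 1)) γ
      (mul_nonneg hK (pow_nonneg hq _)) hg ?_ ih m p
    have h1 : K * q ^ n + γ * (K * q ^ (n + 1)) = K * q ^ n * (1 + γ * q) := by ring
    have h2 : K * q ^ (n + 1) = K * q ^ n * q := by ring
    rw [h1, h2]
    exact mul_le_mul_of_nonneg_left hqq hKn

private theorem WS_bound_ge (N : ℕ) : ∀ r p, ((WS 4 (N + 3) r p (fun c => 1 + (2 * 1) ^ c) : ℕ) : ℝ) ≤
    2 * (1 - (1 / 2) * (1 / 2) ^ N) * 4 ^ r := by
  induction N with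
  | zero =>
    intro r p
    rw [WS_base (by norm_num) (by norm_num)]
    split_ifs with h
    · rw [h.1]
      norm_num
    · have : (0 : ℝ) ≤ 4 ^ r := by positivity
      norm_num
  | succ N ihN =>
    intro r
    induction r using Nat.strong_induction_on with
    | _ r ih =>
      intro p
      have h1 := WS_succ (lo := 4) (N := N + 3) (r := r) (by norm_num) (by omega) p
        (fun c => 1 + (2 * 1) ^ c)
      have h2 : N + 1 + 3 = N + 3 + 1 := by ring
      rw [h2] at ih ⊢
      rw [h1]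
      have hu : (0 : ℝ) < (1 / 2) ^ N := by positivity
      have hu1 : ((1 : ℝ) / 2) ^ N ≤ 1 := pow_le_one₀ (by norm_num) (by norm_num)
      have h4 : (0 : ℝ) < 4 ^ r := by positivity
      have h5 := ihN r p
      split_ifs with hr
      · have h6 := ih (r - (N + 3 + 1)) (by omega) (xor p (decide ((N + 3) % 2 = 1)))
        rw [Nat.cast_add, Nat.cast_mul]
        have h7 : (((1 + (2 * 1) ^ (N + 3 + 1) : ℕ) : ℕ) : ℝ) = 1 + 2 ^ (N + 4) := by
          push_cast
          ring
        rw [h7]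
        have h8 : (4 : ℝ) ^ r = 4 ^ (N + 3 + 1) * 4 ^ (r - (N + 3 + 1)) := by
          rw [← pow_add]
          congr 1
          omega
        set W := ((WS 4 (N + 3 + 1) (r - (N + 3 + 1)) (xor p (decide ((N + 3) % 2 = 1)))
          (fun c => 1 + (2 * 1) ^ c) : ℕ) : ℝ) with hW
        have h9 : (1 + (2 : ℝ) ^ (N + 4)) * W ≤ (1 + 2 ^ (N + 4)) *
            (2 * (1 - 1 / 2 * (1 / 2) ^ (N + 1)) * 4 ^ (r - (N + 3 + 1))) :=
          mul_le_mul_of_nonneg_left h6 (by positivity)
        have h10 : ((1 : ℝ) + 2 ^ (N + 4)) * 4 ^ (r - (N + 3 + 1)) =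
            (((1 / 2) ^ N) ^ 2 / 256 + (1 / 2) ^ N / 16) * 4 ^ r := by
          rw [h8]
          have e1 : (2 : ℝ) ^ (N + 4) = 16 * 2 ^ N := by ring
          have e2 : (4 : ℝ) ^ (N + 3 + 1) = 256 * (2 ^ N * 2 ^ N) := by
            rw [← mul_pow]
            ring
          have e3 : ((1 : ℝ) / 2) ^ N * 2 ^ N = 1 := by
            rw [← mul_pow]
            norm_num
          rw [e1, e2]
          have e4 : (((1 : ℝ) / 2) ^ N) ^ 2 * (2 ^ N * 2 ^ N) = 1 := by
            calc (((1 : ℝ) / 2) ^ N) ^ 2 * (2 ^ N * 2 ^ N) =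
                (((1 : ℝ) / 2) ^ N * 2 ^ N) * (((1 : ℝ) / 2) ^ N * 2 ^ N) := by ring
              _ = 1 := by rw [e3]; norm_num
          have e5 : ((1 : ℝ) / 2) ^ N * (2 ^ N * 2 ^ N) = 2 ^ N := by
            calc ((1 : ℝ) / 2) ^ N * (2 ^ N * 2 ^ N) =
                (((1 : ℝ) / 2) ^ N * 2 ^ N) * 2 ^ N := by ring
              _ = 2 ^ N := by rw [e3, one_mul]
          calc ((1 : ℝ) + 16 * 2 ^ N) * 4 ^ (r - (N + 3 + 1)) =
              ((((1 : ℝ) / 2) ^ N) ^ 2 * (2 ^ N * 2 ^ N) +
                16 * (((1 : ℝ) / 2) ^ N * (2 ^ N * 2 ^ N))) * 4 ^ (r - (N + 3 + 1)) := by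
                rw [e4, e5]
            _ = _ := by ring
        have e6 : ((1 : ℝ) / 2) ^ (N + 1) = (1 / 2) ^ N / 2 := by ring
        have h11 : (1 + (2 : ℝ) ^ (N + 4)) * W ≤
            2 * (1 - 1 / 2 * ((1 / 2) ^ N / 2)) *
              ((((1 / 2) ^ N) ^ 2 / 256 + (1 / 2) ^ N / 16) * 4 ^ r) := by
          rw [← h10, ← e6]
          calc (1 + (2 : ℝ) ^ (N + 4)) * W ≤ _ := h9
            _ = _ := by ring
        rw [e6]
        set u := ((1 : ℝ) / 2) ^ N with hudef
        have h12 : 2 * (1 - 1 / 2 * u) + 2 * (1 - 1 / 2 * (u / 2)) * (u ^ 2 / 256 + u / 16) ≤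
            2 * (1 - 1 / 2 * (u / 2)) := by
          nlinarith [mul_pos hu hu, mul_pos (mul_pos hu hu) hu]
        calc _ ≤ 2 * (1 - 1 / 2 * u) * 4 ^ r +
              2 * (1 - 1 / 2 * (u / 2)) * ((u ^ 2 / 256 + u / 16) * 4 ^ r) := add_le_add h5 h11
          _ = (2 * (1 - 1 / 2 * u) + 2 * (1 - 1 / 2 * (u / 2)) * (u ^ 2 / 256 + u / 16)) *
              4 ^ r := by ring
          _ ≤ _ := mul_le_mul_of_nonneg_right h12 h4.le
      · rw [add_zero]
        refine le_trans h5 ?_
        have e6 : ((1 : ℝ) / 2) ^ (N + 1) = (1 / 2) ^ N / 2 := by ring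
        rw [e6]
        apply mul_le_mul_of_nonneg_right _ h4.le
        nlinarith

private theorem WS_bound (N r : ℕ) (p : Bool) :
    ((WS 4 N r p (fun c => 1 + (2 * 1) ^ c) : ℕ) : ℝ) ≤ 2 * 4 ^ r := by
  have h4 : (0 : ℝ) < 4 ^ r := by positivity
  rcases Nat.lt_or_ge N 4 with h | h
  · rw [WS_base (by norm_num) h]
    split_ifs with h1
    · rw [h1.1]
      norm_num
    · rw [Nat.cast_zero]
      positivity
  · obtain ⟨M, rfl⟩ : ∃ M, N = M + 3 := ⟨N - 3, by omega⟩
    refine le_trans (WS_bound_ge M r p) ?_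
    apply mul_le_mul_of_nonneg_right _ h4.le
    have : (0 : ℝ) < (1 / 2) ^ M := by positivity
    linarith

/-- crude bound. With weights `4^(-m)`: `WS ≤ 2 (1 - 2^(2-N)) 4^m` for `N ≥ 3` (induction over `N`),
`St g c` multiplies the constant by at most `1/(1-γ)` if `g ≤ γ 4^c`:
`8 = 1/2 · 4^2`, `12 = 3/16 · 4^3`. -/
theorem WA_eval_one_le (L a t m : ℕ) :
    (((WA L a t m).eval 1 : ℕ) : ℝ) ≤ 2 * 2 ^ (a + 1) * (5 / 4 : ℝ) ^ (t + 1) * 4 ^ m := by
  rw [eval_WA, WT_eq_St]
  have h1 := St_iter_bound (8 * 1 ^ 2) 2 (by norm_num) true (1 / 2) 2 (by norm_num) (by norm_num)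
    (by norm_num) (fun m p => WS 4 L m p (fun c => 1 + (2 * 1) ^ c)) 2 (by norm_num)
    (fun m p => WS_bound L m p) (a + 1)
  exact St_iter_bound (12 * 1 ^ 3) 3 (by norm_num) false (3 / 16) (5 / 4) (by norm_num)
    (by norm_num) (by norm_num) _ (2 * 2 ^ (a + 1)) (by positivity) h1 (t + 1) m _

end Pool.MP322P
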