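import Pool.Agent.Lib.MP_322c5f_alP.PK02

/-! job 322P-K3: the loops of the kernel algorithm.

`V` is always `(eP F a t).eval X + OO` (nonnegative by hypothesis `hpos`):
`F → F+1` : multiply by `1+2X`, `C2 = 2 X OO`; `t → t+1`: multiply by `1-4X³`, `C3 = 4 X³ OO`;
`a → a+1`: multiply by `1-4X²`, `C4 = 4X² OO`. -/

set_option autoImplicit false

open Finset Polynomial

namespace Pool.MP322P

/-- `y`-values from the descending list. -/
def yfun (yl : List ℕ) (L m : ℕ) : ℕ := yl.getD (L - m) 0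

/-- the packed polynomial `eP F a t`, shifted by `OO`. -/
noncomputable def VV (X OO F a t : ℕ) : ℕ := ((eP F a t).eval (X : ℤ) + OO).toNat

/-- the parameters used by `total`. -/
structure Par where
  L : ℕ
  kx : ℕ
  B : ℕ

namespace Par

def X (P : Par) : ℕ := 2 ^ P.B
def O (P : Par) : ℕ := 2 ^ (P.B - 1)
def mk' (P : Par) : ℕ := P.X ^ (P.kx + 1)
def mk1 (P : Par) : ℕ := P.mk' / P.X
def ones (P : Par) : ℕ := (P.mk' - 1) / (P.X - 1)
def OO (P : Par) : ℕ := P.O * ((P.X ^ (P.L + 3) - 1) / (P.X - 1))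
def M2 (P : Par) : ℕ := P.mk' * (P.X * 4)

/-- one row as computed by the algorithm; `y` : the `y`-values. -/
noncomputable def RZ (P : Par) (y : ℕ → ℕ) (a t F : ℕ) : ℕ :=
  rowZ P.B P.X P.O P.ones P.mk' P.mk1 P.M2 (y (P.L - (2 * a + 3 * t + F)))
    (VV P.X P.OO F a t % P.mk') ((WA P.L a t (P.L - (2 * a + 3 * t + F))).eval P.X)
    ((WE P.L a t (P.L - (2 * a + 3 * t + F))).eval P.X)

end Par

private theorem rows_cons (B X O ones mk mk1 M2 C2 : ℕ) (p : Bool) (q : Q4) (l : List Q4)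
    (y : ℕ) (yt : List ℕ) (V : ℕ) :
    rows B X O ones mk mk1 M2 C2 p (q :: l) (y :: yt) V =
      rowZ B X O ones mk mk1 M2 y (V % mk) (cond p q.a1 q.a0) (cond p q.e1 q.e0) +
        rows B X O ones mk mk1 M2 C2 p l yt (V + 2 * X * V - C2) := rfl

private theorem tLoop_succ (B X O ones mk mk1 M2 C2 C3 : ℕ) (p : Bool) (ub i : ℕ) (l : List Q4)
    (yl : List ℕ) (V s : ℕ) :
    tLoop B X O ones mk mk1 M2 C2 C3 p ub (i + 1) l yl V s =
      tLoop B X O ones mk mk1 M2 C2 C3 p ub i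
        (drp 3 (stp (ub + i) (12 * X ^ 3) (12 * X ^ 3) 2 false l)) (drN 3 yl)
        (V + C3 - 4 * X ^ 3 * V)
        (s + rows B X O ones mk mk1 M2 C2 p
          (stp (ub + i) (12 * X ^ 3) (12 * X ^ 3) 2 false l) yl V) := by
  have h : tLoop B X O ones mk mk1 M2 C2 C3 p ub (i + 1) l yl V s =
    fz (Nat.add ub i) fun u => (fun l' =>
    fz (Nat.add s (rows B X O ones mk mk1 M2 C2 p l' yl (Nat.add V (Nat.mul 0 u)))) fun s' =>
    fz (Nat.sub (Nat.add V C3) (Nat.mul (Nat.mul 4 (Nat.pow X 3)) V)) fun V' =>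
      tLoop B X O ones mk mk1 M2 C2 C3 p ub i (drp 3 l') (drN 3 yl) V' s')
      (stp u (Nat.mul 12 (Nat.pow X 3)) (Nat.mul 12 (Nat.pow X 3)) 2 false l) := rfl
  have h0 : Nat.add V (Nat.mul 0 (Nat.add ub i)) = V := by
    show V + 0 * (ub + i) = V
    rw [Nat.zero_mul, Nat.add_zero]
  rw [h, fz_eq]
  dsimp only
  rw [fz_eq, fz_eq, h0]
  rfl

private theorem bLoop_succ (B X O ones mk mk1 M2 C2 C3 C4 tf b1 i : ℕ) (p : Bool) (l : List Q4)
    (yl : List ℕ) (V s : ℕ) :
    bLoop B X O ones mk mk1 M2 C2 C3 C4 tf b1 (i + 1) p l yl V s =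
      bLoop B X O ones mk mk1 M2 C2 C3 C4 tf b1 i (!p)
        (drp 2 (stp (1000 * (i + 1) + 500) (8 * X ^ 2) (8 * X ^ 2) 1 true l)) (drN 2 yl)
        (V + C4 - 4 * X ^ 2 * V)
        (cond (Nat.ble i b1) (tLoop B X O ones mk mk1 M2 C2 C3 p (1000 * (i + 1)) tf
          (stp (1000 * (i + 1) + 500) (8 * X ^ 2) (8 * X ^ 2) 1 true l) yl V s) s) := by
  have h : bLoop B X O ones mk mk1 M2 C2 C3 C4 tf b1 (i + 1) p l yl V s =
    fz (Nat.mul 1000 (Nat.add i 1)) fun u => (fun l' =>
    fz (cond (Nat.ble i b1) (tLoop B X O ones mk mk1 M2 C2 C3 p u tf l' yl V s) s) fun s' =>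
    fz (Nat.sub (Nat.add V C4) (Nat.mul (Nat.mul 4 (Nat.pow X 2)) V)) fun V' =>
      bLoop B X O ones mk mk1 M2 C2 C3 C4 tf b1 i (!p) (drp 2 l') (drN 2 yl) V' s')
      (stp (Nat.add u 500) (Nat.mul 8 (Nat.pow X 2)) (Nat.mul 8 (Nat.pow X 2)) 1 true l) := rfl
  rw [h, fz_eq]
  dsimp only
  rw [fz_eq, fz_eq]
  rfl

private theorem eval_succ_F (x : ℤ) (F a t : ℕ) :
    (eP (F + 1) a t).eval x = (1 + 2 * x) * (eP F a t).eval x := by
  unfold eP
  simp only [Polynomial.eval_mul, Polynomial.eval_pow, Polynomial.eval_add, Polynomial.eval_sub,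
    Polynomial.eval_one, Polynomial.eval_X, Polynomial.eval_ofNat]
  ring

private theorem eval_succ_t (x : ℤ) (F a t : ℕ) :
    (eP F a (t + 1)).eval x = (1 - 4 * x ^ 3) * (eP F a t).eval x := by
  unfold eP
  simp only [Polynomial.eval_mul, Polynomial.eval_pow, Polynomial.eval_add, Polynomial.eval_sub,
    Polynomial.eval_one, Polynomial.eval_X, Polynomial.eval_ofNat]
  ring

private theorem eval_succ_a (x : ℤ) (F a t : ℕ) :
    (eP F (a + 1) t).eval x = (1 - 4 * x ^ 2) * (eP F a t).eval x := by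
  unfold eP
  simp only [Polynomial.eval_mul, Polynomial.eval_pow, Polynomial.eval_add, Polynomial.eval_sub,
    Polynomial.eval_one, Polynomial.eval_X, Polynomial.eval_ofNat]
  ring

private theorem eval_zero (x : ℤ) : (eP 0 0 0).eval x = 1 - 2 * x := by
  unfold eP
  simp only [Polynomial.eval_mul, Polynomial.eval_pow, Polynomial.eval_add, Polynomial.eval_sub,
    Polynomial.eval_one, Polynomial.eval_X, Polynomial.eval_ofNat]
  ring

/-- the descending list of the values of `y`. -/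
private def dl (y : ℕ → ℕ) (N : ℕ) : List ℕ := (List.range N).reverse.map y

private theorem dl_succ (y : ℕ → ℕ) (N : ℕ) : dl y (N + 1) = y N :: dl y N := by
  unfold dl
  rw [List.range_succ, List.reverse_append]
  rfl

private theorem dl_drop (y : ℕ → ℕ) : ∀ (i N : ℕ), drN i (dl y N) = dl y (N - i) := by
  intro i
  induction i with
  | zero => intro N; rfl
  | succ i ih =>
    intro N
    cases N with
    | zero =>
      rw [Nat.zero_sub]
      rfl
    | succ N =>
      have h := ih N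
      rw [drN_eq] at h ⊢
      rw [dl_succ, List.drop_succ_cons, Nat.add_sub_add_right]
      exact h

private theorem rows_aux (P : Par) (p : Bool) (wa we : ℕ → Bool → ℕ) (y : ℕ → ℕ) (a t : ℕ) :
    ∀ (M F0 : ℕ) (l : List Q4) (V : ℕ), isT wa we M l →
    (1 ≤ M → (V : ℤ) = (eP F0 a t).eval (P.X : ℤ) + P.OO) →
    (∀ F < M, 0 ≤ (eP (F0 + F) a t).eval (P.X : ℤ) + P.OO) →
    rows P.B P.X P.O P.ones P.mk' P.mk1 P.M2 (2 * P.X * P.OO) p l (dl y M) V =
      ∑ F ∈ range M, rowZ P.B P.X P.O P.ones P.mk' P.mk1 P.M2 (y (M - 1 - F))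
        (VV P.X P.OO (F0 + F) a t % P.mk') (wa (M - 1 - F) p) (we (M - 1 - F) p) := by
  intro M
  induction M with
  | zero =>
    intro F0 l V hl _ _
    have h' : l = [] := hl
    subst h'
    rfl
  | succ M ih =>
    intro F0 l V hl hV hpos
    obtain ⟨q, r, rfl, ⟨h1, h2, h3, h4⟩, hr⟩ := hl
    have hV0 := hV (by omega)
    rw [dl_succ, rows_cons, Finset.sum_range_succ', add_comm]
    have hVV : VV P.X P.OO (F0 + 0) a t = V := by
      unfold VV
      rw [Nat.add_zero, ← hV0]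
      exact Int.toNat_natCast V
    refine congrArg₂ (fun x z : ℕ => x + z) ?_ ?_
    · have h5 := ih (F0 + 1) r (V + 2 * P.X * V - 2 * P.X * P.OO) hr ?_ ?_
      · rw [h5]
        refine Finset.sum_congr rfl fun F _ => ?_
        have e1 : M + 1 - 1 - (F + 1) = M - 1 - F := by omega
        have e2 : F0 + 1 + F = F0 + (F + 1) := by omega
        rw [e1, e2]
      · intro hM
        have h6 := hpos 1 (by omega)
        rw [eval_succ_F] at h6 ⊢
        have h7 : 2 * P.X * P.OO ≤ V + 2 * P.X * V := by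
          zify
          rw [hV0]
          nlinarith [h6]
        rw [Nat.cast_sub h7]
        push_cast
        rw [hV0]
        ring
      · intro F hF
        have h6 := hpos (F + 1) (by omega)
        have e2 : F0 + 1 + F = F0 + (F + 1) := by omega
        rw [e2]
        exact h6
    · have e1 : M + 1 - 1 - 0 = M := by omega
      rw [e1, hVV]
      cases p
      · show rowZ _ _ _ _ _ _ _ _ _ q.a0 q.e0 = _
        rw [h1, h3]
      · show rowZ _ _ _ _ _ _ _ _ _ q.a1 q.e1 = _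
        rw [h2, h4]

theorem rows_spec (P : Par) (p : Bool) (wa we : ℕ → Bool → ℕ) (y : ℕ → ℕ) (a t M : ℕ)
    (l : List Q4) (hl : isT wa we (M + 1) l) (yl : List ℕ)
    (hyl : yl = (List.range (M + 1)).reverse.map y) (V : ℕ)
    (hV : (V : ℤ) = (eP 0 a t).eval (P.X : ℤ) + P.OO)
    (hpos : ∀ F ≤ M, 0 ≤ (eP F a t).eval (P.X : ℤ) + P.OO) :
    rows P.B P.X P.O P.ones P.mk' P.mk1 P.M2 (2 * P.X * P.OO) p l yl V =
      ∑ F ∈ range (M + 1), rowZ P.B P.X P.O P.ones P.mk' P.mk1 P.M2 (y (M - F))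
        (VV P.X P.OO F a t % P.mk') (wa (M - F) p) (we (M - F) p) := by
  subst hyl
  have h := rows_aux P p wa we y a t (M + 1) 0 l V hl (fun _ => hV)
    (fun F hF => by rw [Nat.zero_add]; exact hpos F (by omega))
  have h2 : dl y (M + 1) = (List.range (M + 1)).reverse.map y := rfl
  rw [← h2, h]
  refine Finset.sum_congr rfl fun F _ => ?_
  rw [Nat.zero_add, Nat.add_sub_cancel]

/-- sum of the rows for given `a`, `t`. -/
private noncomputable def RR (P : Par) (y : ℕ → ℕ) (wa we : ℕ → Bool → ℕ) (a t : ℕ) (p : Bool) :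
    ℕ :=
  ∑ F ∈ range (P.L + 1 - (2 * a + 3 * t)),
    rowZ P.B P.X P.O P.ones P.mk' P.mk1 P.M2 (y (P.L - (2 * a + 3 * t + F)))
      (VV P.X P.OO F a t % P.mk') (wa (P.L - (2 * a + 3 * t + F)) p)
      (we (P.L - (2 * a + 3 * t + F)) p)

private theorem tLoop_aux (P : Par) (p : Bool) (ub : ℕ) (y : ℕ → ℕ) (a : ℕ)
    (hpos : ∀ F a t, 2 * a + 3 * t + F ≤ P.L → 0 ≤ (eP F a t).eval (P.X : ℤ) + P.OO) :
    ∀ (n t : ℕ) (wa we : ℕ → Bool → ℕ) (l : List Q4) (V s : ℕ),
    isT wa we (P.L + 1 - (2 * a + 3 * t)) l →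
    (2 * a + 3 * t ≤ P.L → (V : ℤ) = (eP 0 a t).eval (P.X : ℤ) + P.OO) →
    tLoop P.B P.X P.O P.ones P.mk' P.mk1 P.M2 (2 * P.X * P.OO) (4 * P.X ^ 3 * P.OO) p ub n l
        (dl y (P.L + 1 - (2 * a + 3 * t))) V s =
      s + ∑ i ∈ range n, RR P y ((St (12 * P.X ^ 3) 3 false)^[i + 1] wa)
        ((St (12 * P.X ^ 3) 3 false)^[i + 1] we) a (t + i) p := by
  intro n
  induction n with
  | zero =>
    intro t wa we l V s _ _
    rfl
  | succ n ih =>
    intro t wa we l V s hl hV
    have hl' := stp_isT (ub + n) (12 * P.X ^ 3) (12 * P.X ^ 3) 2 false wa we _ l hl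
    have hrow := rows_aux P p _ _ y a t (P.L + 1 - (2 * a + 3 * t)) 0 _ V hl'
      (fun h => hV (by omega))
      (fun F hF => by rw [Nat.zero_add]; exact hpos F a t (by omega))
    rw [tLoop_succ, hrow, dl_drop]
    have hd := drp_isT _ _ _ 3 _ hl'
    have hN : P.L + 1 - (2 * a + 3 * t) - 3 = P.L + 1 - (2 * a + 3 * (t + 1)) := by omega
    rw [hN] at hd ⊢
    rw [ih (t + 1) _ _ _ _ _ hd, Finset.sum_range_succ', Nat.add_assoc]
    · refine congrArg (fun z : ℕ => s + z) ?_
      rw [add_comm]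
      refine congrArg₂ (fun x z : ℕ => x + z) ?_ ?_
      · refine Finset.sum_congr rfl fun i _ => ?_
        have e1 : t + 1 + i = t + (i + 1) := by omega
        rw [e1, Function.iterate_succ_apply _ (i + 1), Function.iterate_succ_apply _ (i + 1)]
      · unfold RR
        rw [Nat.add_zero]
        refine Finset.sum_congr rfl fun F _ => ?_
        have e2 : P.L + 1 - (2 * a + 3 * t) - 1 - F = P.L - (2 * a + 3 * t + F) := by omega
        rw [e2, Nat.zero_add]
        rfl
    · intro h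
      have hV0 := hV (by omega)
      have h6 := hpos 0 a (t + 1) (by omega)
      rw [eval_succ_t] at h6 ⊢
      have h7 : 4 * P.X ^ 3 * V ≤ V + 4 * P.X ^ 3 * P.OO := by
        zify
        rw [hV0]
        nlinarith [h6]
      rw [Nat.cast_sub h7]
      push_cast
      rw [hV0]
      ring

private theorem bLoop_aux (P : Par) (y : ℕ → ℕ) (tf b1 : ℕ)
    (hpos : ∀ F a t, 2 * a + 3 * t + F ≤ P.L → 0 ≤ (eP F a t).eval (P.X : ℤ) + P.OO) :
    ∀ (n a : ℕ) (wa we : ℕ → Bool → ℕ) (l : List Q4) (V s : ℕ),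
    isT wa we (P.L + 1 - 2 * a) l →
    (2 * a ≤ P.L → (V : ℤ) = (eP 0 a 0).eval (P.X : ℤ) + P.OO) →
    bLoop P.B P.X P.O P.ones P.mk' P.mk1 P.M2 (2 * P.X * P.OO) (4 * P.X ^ 3 * P.OO)
        (4 * P.X ^ 2 * P.OO) tf b1 n (decide (a % 2 = 1)) l (dl y (P.L + 1 - 2 * a)) V s =
      s + ∑ j ∈ range n, if n - 1 - j ≤ b1 then
        ∑ i ∈ range tf, RR P y
          ((St (12 * P.X ^ 3) 3 false)^[i + 1] ((St (8 * P.X ^ 2) 2 true)^[j + 1] wa))
          ((St (12 * P.X ^ 3) 3 false)^[i + 1] ((St (8 * P.X ^ 2) 2 true)^[j + 1] we))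
          (a + j) i (decide ((a + j) % 2 = 1)) else 0 := by
  intro n
  induction n with
  | zero =>
    intro a wa we l V s _ _
    rfl
  | succ n ih =>
    intro a wa we l V s hl hV
    have hl' := stp_isT (1000 * (n + 1) + 500) (8 * P.X ^ 2) (8 * P.X ^ 2) 1 true wa we _ l hl
    have ht := tLoop_aux P (decide (a % 2 = 1)) (1000 * (n + 1)) y a hpos tf 0 _ _
      (stp (1000 * (n + 1) + 500) (8 * P.X ^ 2) (8 * P.X ^ 2) 1 true l) V s
      (by rw [Nat.mul_zero, Nat.add_zero]; exact hl')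
      (fun h => hV (by omega))
    have hN0 : P.L + 1 - (2 * a + 3 * 0) = P.L + 1 - 2 * a := by omega
    rw [hN0] at ht
    rw [bLoop_succ, ht, dl_drop]
    have hd := drp_isT _ _ _ 2 _ hl'
    have hN : P.L + 1 - 2 * a - 2 = P.L + 1 - 2 * (a + 1) := by omega
    have hp : (!decide (a % 2 = 1)) = decide ((a + 1) % 2 = 1) := by
      rcases Nat.mod_two_eq_zero_or_one a with h5 | h5
      · have h6 : (a + 1) % 2 = 1 := by omega
        simp [h5, h6]
      · have h6 : (a + 1) % 2 = 0 := by omega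
        simp [h5, h6]
    rw [hN] at hd ⊢
    rw [hp, ih (a + 1) _ _ _ _ _ hd, Finset.sum_range_succ']
    · have e0 : (cond (Nat.ble n b1) (s + ∑ i ∈ range tf, RR P y
            ((St (12 * P.X ^ 3) 3 false)^[i + 1] (St (8 * P.X ^ 2) (1 + 1) true wa))
            ((St (12 * P.X ^ 3) 3 false)^[i + 1] (St (8 * P.X ^ 2) (1 + 1) true we)) a (0 + i)
            (decide (a % 2 = 1))) s) =
          s + (if n + 1 - 1 - 0 ≤ b1 then
            ∑ i ∈ range tf, RR P y
              ((St (12 * P.X ^ 3) 3 false)^[i + 1] ((St (8 * P.X ^ 2) 2 true)^[0 + 1] wa))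
              ((St (12 * P.X ^ 3) 3 false)^[i + 1] ((St (8 * P.X ^ 2) 2 true)^[0 + 1] we))
              (a + 0) i (decide ((a + 0) % 2 = 1)) else 0) := by
        have e3 : n + 1 - 1 - 0 = n := by omega
        rw [e3]
        by_cases hn : n ≤ b1
        · have hb : Nat.ble n b1 = true := by
            rw [Nat.ble_eq]
            exact hn
          rw [hb, if_pos hn]
          refine congrArg (fun z : ℕ => s + z) ?_
          refine Finset.sum_congr rfl fun i _ => ?_
          rw [Nat.zero_add]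
          rfl
        · have hb : Nat.ble n b1 = false := by
            rw [Bool.eq_false_iff]
            intro h
            rw [Nat.ble_eq] at h
            exact hn h
          rw [hb, if_neg hn]
          rfl
      rw [e0, Nat.add_assoc]
      refine congrArg (fun z : ℕ => s + z) ?_
      rw [add_comm]
      refine congrArg (fun z : ℕ => z + _) ?_
      refine Finset.sum_congr rfl fun j _ => ?_
      have e1 : a + 1 + j = a + (j + 1) := by omega
      have e2 : n + 1 - 1 - (j + 1) = n - 1 - j := by omega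
      rw [e1, e2, Function.iterate_succ_apply _ (j + 1), Function.iterate_succ_apply _ (j + 1)]
    · intro h
      have hV0 := hV (by omega)
      have h6 := hpos 0 (a + 1) 0 (by omega)
      rw [eval_succ_a] at h6 ⊢
      have h7 : 4 * P.X ^ 2 * V ≤ V + 4 * P.X ^ 2 * P.OO := by
        zify
        rw [hV0]
        nlinarith [h6]
      rw [Nat.cast_sub h7]
      push_cast
      rw [hV0]
      ring

theorem total_spec (P : Par) (hL : 3 ≤ P.L) (nb b1 : ℕ) (hb : b1 < nb) (yl : List ℕ)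
    (hyl : yl.length = P.L + 1)
    (hpos : ∀ F a t, 2 * a + 3 * t + F ≤ P.L → 0 ≤ (eP F a t).eval (P.X : ℤ) + P.OO) :
    total P.L P.kx P.B nb b1 yl =
      ∑ a ∈ Ico (nb - 1 - b1) nb, ∑ t ∈ range (P.L + 1), ∑ F ∈ range (P.L + 1),
        if 2 * a + 3 * t + F ≤ P.L then P.RZ (yfun yl P.L) a t F else 0 := by
  have hyl2 : yl = dl (yfun yl P.L) (P.L + 1) := by
    unfold dl
    apply List.ext_getElem
    · simp [hyl]
    · intro i h1 h2
      rw [List.getElem_map, List.getElem_reverse, List.getElem_range]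
      unfold yfun
      rw [List.length_range]
      have h3 : P.L - (P.L + 1 - 1 - i) = i := by omega
      rw [h3, List.getD_eq_getElem?_getD, List.getElem?_eq_getElem h1]
      rfl
  have hX1 : 1 ≤ P.X := Nat.one_le_two_pow
  have ht : total P.L P.kx P.B nb b1 yl =
      bLoop P.B P.X P.O P.ones P.mk' P.mk1 P.M2 (2 * P.X * P.OO) (4 * P.X ^ 3 * P.OO)
        (4 * P.X ^ 2 * P.OO) (P.L / 3 + 1) b1 nb false (revQ (partsQ P.X P.L (P.L - 3)) []) yl
        (P.OO + 1 - 2 * P.X) 0 := by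
    unfold total
    simp only [fz_eq]
    rfl
  have hparts := partsQ_isT P.X P.L (P.L - 3)
  have hL3 : P.L - 3 + 3 = P.L := by omega
  rw [hL3] at hparts
  have hb := bLoop_aux P (yfun yl P.L) (P.L / 3 + 1) b1 hpos nb 0 _ _
    (revQ (partsQ P.X P.L (P.L - 3)) []) (P.OO + 1 - 2 * P.X) 0
    (by rw [Nat.mul_zero, Nat.sub_zero]; exact hparts)
    (fun _ => by
      have h0 := hpos 0 0 0 (by omega)
      rw [eval_zero] at h0 ⊢
      have h7 : 2 * P.X ≤ P.OO + 1 := by
        zify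
        linarith
      rw [Nat.cast_sub h7]
      push_cast
      ring)
  rw [Nat.mul_zero, Nat.sub_zero] at hb
  have hp0 : decide (0 % 2 = 1) = false := rfl
  rw [hp0] at hb
  rw [ht]
  conv_lhs => rw [hyl2]
  rw [hb, Nat.zero_add]
  have hRR : ∀ a t : ℕ, RR P (yfun yl P.L)
      ((St (12 * P.X ^ 3) 3 false)^[t + 1] ((St (8 * P.X ^ 2) 2 true)^[a + 1]
        (fun m p => WS 4 P.L m p (fun c => 1 + (2 * P.X) ^ c))))
      ((St (12 * P.X ^ 3) 3 false)^[t + 1] ((St (8 * P.X ^ 2) 2 true)^[a + 1]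
        (fun m p => WS 4 P.L m p (fun _ => 1)))) a t (decide (a % 2 = 1)) =
      ∑ F ∈ range (P.L + 1), if 2 * a + 3 * t + F ≤ P.L then P.RZ (yfun yl P.L) a t F else 0 := by
    intro a t
    unfold RR
    have hsub : range (P.L + 1 - (2 * a + 3 * t)) ⊆ range (P.L + 1) :=
      Finset.range_subset_range.2 (by omega)
    rw [← Finset.sum_subset hsub]
    · refine Finset.sum_congr rfl fun F hF => ?_
      rw [Finset.mem_range] at hF
      rw [if_pos (by omega)]
      unfold Par.RZ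
      rw [eval_WA, eval_WE, WT_eq_St, WT_eq_St]
    · intro F _ hF
      rw [Finset.mem_range] at hF
      rw [if_neg (by omega)]
  have hI : Ico (nb - 1 - b1) nb = (range nb).filter (fun j => nb - 1 - j ≤ b1) := by
    ext j
    rw [Finset.mem_Ico, Finset.mem_filter, Finset.mem_range]
    omega
  rw [hI, Finset.sum_filter]
  refine Finset.sum_congr rfl fun a _ => ?_
  rw [Nat.zero_add]
  by_cases ha : nb - 1 - a ≤ b1
  · rw [if_pos ha, if_pos ha]
    have hsub : range (P.L / 3 + 1) ⊆ range (P.L + 1) :=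
      Finset.range_subset_range.2 (by omega)
    rw [← Finset.sum_subset hsub]
    · exact Finset.sum_congr rfl fun t _ => hRR a t
    · intro t _ ht
      rw [Finset.mem_range] at ht
      refine Finset.sum_eq_zero fun F _ => ?_
      rw [if_neg (by omega)]
  · rw [if_neg ha, if_neg ha]

end Pool.MP322P
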