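import Mathlib

/-! job 322P-K4a: digit arithmetic in base `2^B` (see also
`Pool/Agent/Lib/MP_322c5f_alF/FB05.lean` for similar lemmas). -/

set_option autoImplicit false

open Finset Polynomial

namespace Pool.MP322P

/-- packed digits. -/
def pk (B n : ℕ) (d : ℕ → ℕ) : ℕ := ∑ j ∈ range n, d j * (2 ^ B) ^ j

private theorem pk_succ (B n : ℕ) (d : ℕ → ℕ) :
    pk B (n + 1) d = pk B n d + d n * (2 ^ B) ^ n := by
  rw [pk, sum_range_succ]
  rfl

theorem pk_lt {B n : ℕ} {d : ℕ → ℕ} (h : ∀ j < n, d j < 2 ^ B) : pk B n d < (2 ^ B) ^ n := by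
  induction n with
  | zero => simp [pk]
  | succ n ih =>
    rw [pk_succ]
    have h1 := ih fun j hj => h j (by omega)
    have h2 : d n + 1 ≤ 2 ^ B := h n (by omega)
    have h3 : (d n + 1) * (2 ^ B) ^ n ≤ 2 ^ B * (2 ^ B) ^ n := Nat.mul_le_mul_right _ h2
    rw [pow_succ, mul_comm ((2 ^ B) ^ n) (2 ^ B)]
    rw [add_mul, one_mul] at h3
    omega

theorem pk_ones {B n : ℕ} (hB : 1 ≤ B) : ((2 ^ B) ^ n - 1) / (2 ^ B - 1) = pk B n (fun _ => 1) := by
  have h2 : 2 ≤ 2 ^ B := by
    calc 2 = 2 ^ 1 := (pow_one 2).symm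
      _ ≤ 2 ^ B := Nat.pow_le_pow_right (by norm_num) hB
  rw [← Nat.geomSum_eq h2 n, pk]
  exact sum_congr rfl fun j _ => (one_mul _).symm

theorem pk_mod {B n : ℕ} {d : ℕ → ℕ} (h : ∀ j < n, d j < 2 ^ B) :
    pk B (n + 1) d % (2 ^ B) ^ n = pk B n d := by
  rw [pk_succ, Nat.add_mul_mod_self_right, Nat.mod_eq_of_lt (pk_lt h)]

private theorem pk_testBit {B n : ℕ} (hB : 1 ≤ B) {d : ℕ → ℕ} (h : ∀ j < n, d j < 2 ^ B) (i : ℕ) :
    (pk B n d).testBit i = (decide (i < B * n) && (d (i / B)).testBit (i % B)) := by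
  induction n with
  | zero => simp [pk]
  | succ n ih =>
    have h1 := ih fun j hj => h j (by omega)
    have hlt : pk B n d < 2 ^ (B * n) := by
      have := pk_lt (B := B) (n := n) (d := d) fun j hj => h j (by omega)
      rwa [← pow_mul] at this
    have e : pk B (n + 1) d = 2 ^ (B * n) * d n + pk B n d := by
      rw [pk_succ, ← pow_mul]
      ring
    rw [e, Nat.testBit_two_pow_mul_add _ hlt]
    have hmul : B * (n + 1) = B * n + B := by ring
    by_cases hi : i < B * n
    · rw [if_pos hi, h1]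
      have h2 : i < B * (n + 1) := by omega
      simp [hi, h2]
    · rw [if_neg hi]
      by_cases hi2 : i < B * (n + 1)
      · have hdiv : i / B = n := by
          rw [Nat.div_eq_iff (by omega)]
          have : n * B = B * n := mul_comm _ _
          omega
        have hmod : i % B = i - B * n := by
          have := Nat.div_add_mod i B
          rw [hdiv] at this
          omega
        rw [hdiv, hmod]
        simp [hi2]
      · have h3 : (d n).testBit (i - B * n) = false := by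
          apply Nat.testBit_lt_two_pow
          exact (h n (by omega)).trans_le (Nat.pow_le_pow_right (by norm_num) (by omega))
        rw [h3]
        simp [hi2]

theorem land_pk {B n : ℕ} {d d' : ℕ → ℕ} (h : ∀ j < n, d j < 2 ^ B) (h' : ∀ j < n, d' j < 2 ^ B) :
    Nat.land (pk B n d) (pk B n d') = pk B n (fun j => Nat.land (d j) (d' j)) := by
  change pk B n d &&& pk B n d' = pk B n (fun j => d j &&& d' j)
  rcases Nat.eq_zero_or_pos B with hB | hB
  · subst hB
    have h0 : ∀ j < n, d j = 0 := fun j hj => by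
      have := h j hj
      omega
    have e1 : pk 0 n d = 0 := sum_eq_zero fun j hj => by rw [h0 j (mem_range.1 hj), zero_mul]
    have e2 : pk 0 n (fun j => d j &&& d' j) = 0 := sum_eq_zero fun j hj => by
      simp [h0 j (mem_range.1 hj)]
    rw [e1, e2, Nat.zero_and]
  · apply Nat.eq_of_testBit_eq
    intro i
    rw [Nat.testBit_and, pk_testBit hB h, pk_testBit hB h',
      pk_testBit hB fun j hj => Nat.and_lt_two_pow _ (h' j hj)]
    rw [Nat.testBit_and]
    cases decide (i < B * n) <;> simp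

/-- top bits of the digits. -/
theorem top_pk {B n : ℕ} (hB : 1 ≤ B) {d : ℕ → ℕ} (h : ∀ j < n, d j < 2 ^ B) :
    Nat.land (Nat.shiftRight (pk B n d) (B - 1)) (pk B n (fun _ => 1)) =
      pk B n (fun j => d j / 2 ^ (B - 1)) := by
  change (pk B n d >>> (B - 1)) &&& pk B n (fun _ => 1) = _
  have h2 : 2 ≤ 2 ^ B := by
    calc 2 = 2 ^ 1 := (pow_one 2).symm
      _ ≤ 2 ^ B := Nat.pow_le_pow_right (by norm_num) hB
  have hd : ∀ j < n, d j / 2 ^ (B - 1) < 2 := by
    intro j hj
    rw [Nat.div_lt_iff_lt_mul (by positivity)]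
    have := h j hj
    have e : 2 ^ B = 2 * 2 ^ (B - 1) := by
      rw [← pow_succ', Nat.sub_add_cancel hB]
    omega
  apply Nat.eq_of_testBit_eq
  intro i
  rw [Nat.testBit_and, Nat.testBit_shiftRight, pk_testBit hB h, pk_testBit hB fun _ _ => by omega,
    pk_testBit hB fun j hj => (hd j hj).trans_le h2]
  by_cases hi : i < B * n
  · rw [decide_eq_true hi, Bool.true_and, Bool.true_and]
    have hj : i / B < n := by
      rw [Nat.div_lt_iff_lt_mul hB]
      rwa [mul_comm] at hi
    by_cases hr : i % B = 0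
    · have e1 : (B - 1 + i) / B = i / B := by
        have h3 := Nat.div_add_mod i B
        rw [hr, add_zero] at h3
        conv_lhs => rw [← h3]
        rw [Nat.add_mul_div_left _ _ hB, Nat.div_eq_of_lt (by omega), zero_add]
      have e2 : (B - 1 + i) % B = B - 1 := by
        have h3 := Nat.div_add_mod i B
        rw [hr, add_zero] at h3
        rw [← h3, Nat.add_mul_mod_self_left, Nat.mod_eq_of_lt (by omega)]
      have e3 : B - 1 + i < B * n := by
        have h3 := Nat.div_add_mod i B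
        rw [hr, add_zero] at h3
        have h4 : B * (i / B) + B ≤ B * n := by
          calc B * (i / B) + B = B * (i / B + 1) := by ring
            _ ≤ B * n := Nat.mul_le_mul_left _ hj
        omega
      rw [e1, e2, hr, decide_eq_true e3, Nat.testBit_eq_decide_div_mod_eq]
      simp
    · have e1 : (1 : ℕ).testBit (i % B) = false := by
        apply Nat.testBit_lt_two_pow
        exact Nat.one_lt_two_pow hr
      have e2 : (d (i / B) / 2 ^ (B - 1)).testBit (i % B) = false := by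
        apply Nat.testBit_lt_two_pow
        refine (hd _ hj).trans_le ?_
        calc 2 = 2 ^ 1 := (pow_one 2).symm
          _ ≤ 2 ^ (i % B) := Nat.pow_le_pow_right (by norm_num) (by omega)
      rw [e1, e2, Bool.and_false]
  · rw [decide_eq_false hi]
    simp

private theorem land_neg {N v m : ℕ} (h : 2 ^ v * (2 * m + 1) < 2 ^ N) :
    (2 ^ v * (2 * m + 1)) &&& (2 ^ N - 2 ^ v * (2 * m + 1)) = 2 ^ v := by
  have hvN : v < N := by
    have h1 : 2 ^ v < 2 ^ N := lt_of_le_of_lt (Nat.le_mul_of_pos_right _ (by omega)) h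
    exact (Nat.pow_lt_pow_iff_right (by norm_num)).1 h1
  obtain ⟨K, rfl⟩ : ∃ K, N = v + (K + 1) := ⟨N - v - 1, by omega⟩
  have hm : m < 2 ^ K := by
    rw [pow_add, Nat.mul_lt_mul_left (by positivity), pow_succ] at h
    omega
  have e1 : 2 ^ (v + (K + 1)) - 2 ^ v * (2 * m + 1) = 2 ^ v * (2 * (2 ^ K - (m + 1)) + 1) := by
    rw [pow_add, ← Nat.mul_sub]
    congr 1
    rw [pow_succ]
    omega
  rw [e1]
  apply Nat.eq_of_testBit_eq
  intro i
  rw [Nat.testBit_and, Nat.testBit_two_pow_mul, Nat.testBit_two_pow_mul, Nat.testBit_two_pow]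
  by_cases hi : i < v
  · have h1 : ¬ v ≤ i := by omega
    have h2 : v ≠ i := by omega
    simp [h1, h2]
  · obtain ⟨t, rfl⟩ : ∃ t, i = v + t := ⟨i - v, by omega⟩
    rw [Nat.add_sub_cancel_left]
    cases t with
    | zero =>
      simp
    | succ t =>
      have e2 : (2 * m + 1).testBit (t + 1) = m.testBit t := by
        rw [Nat.testBit_succ]
        congr 1
        omega
      have e3 : (2 * (2 ^ K - (m + 1)) + 1).testBit (t + 1) = (2 ^ K - (m + 1)).testBit t := by
        rw [Nat.testBit_succ]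
        congr 1
        omega
      rw [e2, e3, Nat.testBit_two_pow_sub_succ hm]
      simp only [ge_iff_le, Nat.le_add_right, decide_true, Bool.true_and]
      have h2 : ¬ v = v + (t + 1) := by omega
      rw [decide_eq_false h2]
      cases m.testBit t <;> simp

/-- lowest set bit: the digits are `0` below `z` and `0` or `1` from `z` on, digit `z` is `1`. -/
theorem low_pk {B n z : ℕ} (hB : 1 ≤ B) {g : ℕ → ℕ} (hz : z ≤ n) (h0 : ∀ j < z, g j = 0)
    (h1 : g z = 1) (h : ∀ j ≤ n, g j ≤ 1) :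
    Nat.land (pk B (n + 1) g) ((2 ^ B) ^ n * (2 ^ B * 4) - pk B (n + 1) g) = (2 ^ B) ^ z := by
  change (pk B (n + 1) g) &&& ((2 ^ B) ^ n * (2 ^ B * 4) - pk B (n + 1) g) = _
  have h2 : 2 ≤ 2 ^ B := by
    calc 2 = 2 ^ 1 := (pow_one 2).symm
      _ ≤ 2 ^ B := Nat.pow_le_pow_right (by norm_num) hB
  have hlt : pk B (n + 1) g < (2 ^ B) ^ (n + 1) := pk_lt fun j hj => by
    have := h j (by omega)
    omega
  obtain ⟨m, rfl⟩ : ∃ m, n = z + m := ⟨n - z, by omega⟩
  have hsplit : pk B (z + m + 1) g =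
      (2 ^ B) ^ z * (1 + 2 ^ B * ∑ j ∈ range m, g (z + (j + 1)) * (2 ^ B) ^ j) := by
    rw [pk, add_assoc, sum_range_add, sum_eq_zero fun j hj => by rw [h0 j (mem_range.1 hj), zero_mul],
      zero_add, sum_range_succ', add_zero, h1, mul_add, mul_sum, mul_sum, add_comm, mul_one, one_mul]
    congr 1
    refine sum_congr rfl fun j _ => ?_
    rw [pow_add, pow_succ]
    ring
  set R := ∑ j ∈ range m, g (z + (j + 1)) * (2 ^ B) ^ j with hR
  have e1 : pk B (z + m + 1) g = 2 ^ (B * z) * (2 * (2 ^ (B - 1) * R) + 1) := by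
    rw [hsplit, ← pow_mul]
    have e : 2 ^ B = 2 * 2 ^ (B - 1) := by
      rw [← pow_succ', Nat.sub_add_cancel hB]
    congr 1
    rw [e]
    ring
  have e2 : (2 ^ B) ^ (z + m) * (2 ^ B * 4) = 2 ^ (B * (z + m + 1) + 2) := by
    rw [← pow_mul]
    ring
  rw [e2]
  have hlt2 : 2 ^ (B * z) * (2 * (2 ^ (B - 1) * R) + 1) < 2 ^ (B * (z + m + 1) + 2) := by
    rw [← e1]
    refine hlt.trans_le ?_
    rw [← pow_mul]
    exact Nat.pow_le_pow_right (by norm_num) (by omega)
  rw [e1, land_neg hlt2, pow_mul]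

/-- clearing the digits below `z`. -/
theorem clear_pk {B n z : ℕ} {d : ℕ → ℕ} (hz : z ≤ n) (h : ∀ j < n, d j < 2 ^ B) :
    (2 ^ B) ^ z * (pk B n d / (2 ^ B) ^ z) = pk B n (fun j => if j < z then 0 else d j) := by
  obtain ⟨m, rfl⟩ : ∃ m, n = z + m := ⟨n - z, by omega⟩
  have e1 : pk B (z + m) d = pk B z d + (2 ^ B) ^ z * ∑ j ∈ range m, d (z + j) * (2 ^ B) ^ j := by
    rw [pk, sum_range_add, mul_sum]
    congr 1
    refine sum_congr rfl fun j _ => ?_
    rw [pow_add]
    ring
  have e2 : pk B (z + m) (fun j => if j < z then 0 else d j) =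
      (2 ^ B) ^ z * ∑ j ∈ range m, d (z + j) * (2 ^ B) ^ j := by
    rw [pk, sum_range_add, sum_eq_zero fun j hj => by
      rw [if_pos (mem_range.1 hj), zero_mul], zero_add, mul_sum]
    refine sum_congr rfl fun j _ => ?_
    rw [if_neg (by omega), pow_add]
    ring
  rw [e2, e1, Nat.add_mul_div_left _ _ (by positivity),
    Nat.div_eq_of_lt (pk_lt fun j hj => h j (by omega)), zero_add]

private theorem coeff_pkPoly (n : ℕ) (u : ℕ → ℕ) (k : ℕ) :
    (∑ j ∈ range n, monomial j (u j) : ℕ[X]).coeff k = if k < n then u k else 0 := by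
  rw [finsetSum_coeff]
  simp only [coeff_monomial]
  rw [sum_ite_eq']
  simp

private theorem eval_pkPoly (B n : ℕ) (u : ℕ → ℕ) :
    (∑ j ∈ range n, monomial j (u j) : ℕ[X]).eval (2 ^ B) = pk B n u := by
  rw [eval_finsetSum, pk]
  exact sum_congr rfl fun j _ => eval_monomial

/-- convolution, truncated: `f = pa·D - pe·E` (a difference with nonnegative small coefficients). -/
theorem conv_pk {B n : ℕ} (pa pe : ℕ[X]) (u v : ℕ → ℕ) (huv : ∀ j < n, v j ≤ u j)
    (hpe : ∀ i, pe.coeff i ≤ pa.coeff i)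
    (hS : ∀ k < n, ∑ i ∈ range (k + 1), pa.coeff i * u (k - i) < 2 ^ B) :
    (pa.eval (2 ^ B) * pk B n u - pe.eval (2 ^ B) * pk B n v) % (2 ^ B) ^ n =
      pk B n (fun k => ∑ i ∈ range (k + 1), pa.coeff i * u (k - i) -
        ∑ i ∈ range (k + 1), pe.coeff i * v (k - i)) := by
  set U : ℕ[X] := ∑ j ∈ range n, monomial j (u j) with hU
  set V : ℕ[X] := ∑ j ∈ range n, monomial j (v j) with hV
  have hUc : ∀ k, U.coeff k = if k < n then u k else 0 := coeff_pkPoly n u
  have hVc : ∀ k, V.coeff k = if k < n then v k else 0 := coeff_pkPoly n v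
  have hVU : ∀ k, V.coeff k ≤ U.coeff k := by
    intro k
    rw [hUc, hVc]
    split_ifs with hk
    · exact huv k hk
    · exact le_rfl
  have hle : ∀ k, (pe * V).coeff k ≤ (pa * U).coeff k := by
    intro k
    rw [coeff_mul, coeff_mul]
    exact sum_le_sum fun x _ => Nat.mul_le_mul (hpe _) (hVU _)
  have hlow : ∀ (P : ℕ[X]) (w : ℕ → ℕ) (W : ℕ[X]), (∀ k, W.coeff k = if k < n then w k else 0) →
      ∀ k < n, (P * W).coeff k = ∑ i ∈ range (k + 1), P.coeff i * w (k - i) := by
    intro P w W hW k hk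
    rw [coeff_mul, Finset.Nat.sum_antidiagonal_eq_sum_range_succ_mk]
    refine sum_congr rfl fun i hi => ?_
    simp only
    rw [hW, if_pos (by omega)]
  obtain ⟨N, hN1, hN2⟩ : ∃ N, (pa * U).natDegree < n + N ∧ (pe * V).natDegree < n + N :=
    ⟨(pa * U).natDegree + (pe * V).natDegree + 1, by omega, by omega⟩
  have hev : ∀ Q : ℕ[X], Q.natDegree < n + N → Q.eval (2 ^ B) =
      ∑ k ∈ range n, Q.coeff k * (2 ^ B) ^ k +
        (2 ^ B) ^ n * ∑ k ∈ range N, Q.coeff (n + k) * (2 ^ B) ^ k := by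
    intro Q hQ
    rw [eval_eq_sum_range' hQ, sum_range_add, mul_sum]
    congr 1
    refine sum_congr rfl fun k _ => ?_
    rw [pow_add]
    ring
  rw [← eval_pkPoly B n u, ← eval_pkPoly B n v, ← eval_mul, ← eval_mul, hev _ hN1, hev _ hN2]
  set X1 := ∑ k ∈ range n, (pa * U).coeff k * (2 ^ B) ^ k
  set X2 := ∑ k ∈ range n, (pe * V).coeff k * (2 ^ B) ^ k
  have hX : X2 ≤ X1 := sum_le_sum fun k _ => Nat.mul_le_mul_right _ (hle k)
  have hY : ∑ k ∈ range N, (pe * V).coeff (n + k) * (2 ^ B) ^ k ≤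
      ∑ k ∈ range N, (pa * U).coeff (n + k) * (2 ^ B) ^ k :=
    sum_le_sum fun k _ => Nat.mul_le_mul_right _ (hle _)
  obtain ⟨c, hc⟩ := Nat.exists_eq_add_of_le hY
  obtain ⟨e, he⟩ := Nat.exists_eq_add_of_le hX
  have e1 : X1 + (2 ^ B) ^ n * ∑ k ∈ range N, (pa * U).coeff (n + k) * (2 ^ B) ^ k -
      (X2 + (2 ^ B) ^ n * ∑ k ∈ range N, (pe * V).coeff (n + k) * (2 ^ B) ^ k) =
      e + (2 ^ B) ^ n * c := by
    rw [hc, he, mul_add]
    omega
  rw [e1, Nat.add_mul_mod_self_left]
  have e2 : e = pk B n (fun k => ∑ i ∈ range (k + 1), pa.coeff i * u (k - i) -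
        ∑ i ∈ range (k + 1), pe.coeff i * v (k - i)) := by
    have e3 : e = X1 - X2 := by omega
    rw [e3, pk]
    have e4 : X1 = ∑ k ∈ range n, ((∑ i ∈ range (k + 1), pa.coeff i * u (k - i) -
        ∑ i ∈ range (k + 1), pe.coeff i * v (k - i)) * (2 ^ B) ^ k +
        (pe * V).coeff k * (2 ^ B) ^ k) := by
      refine sum_congr rfl fun k hk => ?_
      rw [← hlow pa u U hUc k (mem_range.1 hk), ← hlow pe v V hVc k (mem_range.1 hk), ← add_mul,
        Nat.sub_add_cancel (hle k)]
    rw [e4, sum_add_distrib]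
    exact Nat.add_sub_cancel _ _
  rw [e2]
  refine Nat.mod_eq_of_lt (pk_lt fun k hk => ?_)
  exact lt_of_le_of_lt (Nat.sub_le _ _) (hS k hk)

end Pool.MP322P
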