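import Pool.Agent.Lib.MP_322c5f_alP.PK00
import Pool.Agent.Lib.MP_322c5f_alP.PK04a

/-! job 322P-K4: correctness of the masked row `rowZ` (digit arithmetic in base `X = 2^B`).

`T` has the digits `e_j + O` (`O = 2^(B-1)`, `j ≤ kx`).
* `S` : digits `1` if `e_j ≥ 0` (top bit), else `0`;
* `P` : digits `max 0 e_j`; `N` : digits `max 0 (-e_j)`;
* `C` : digits `y e_j - 2000 e_{j-1} + O` for `j ≥ 1`, `y e_0 + O` for `j = 0` (all in `[0, X)`);
* `Ng` : digits `1` if the digit of `C` is `< O` (criterion violated), plus `X^(kx+1)`;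
* `low` : the lowest set bit of `Ng`, `= X^kz`, `kz` = first violated index (or `kx+1`);
* `Z` : the convolution `∑ pa_i |e_{k-i}| - ∑ pe_i max 0 e_{k-i}` in the digit `k ≤ kx` (these
  values are in `[0, X)`), then the digits `< kz` are cleared.

Useful: digitwise `land` (e.g. `Nat.eq_of_testBit_eq` with digits, or induction over the digits),
and see `Pool/Agent/Lib/MP_322c5f_alF/FB05.lean` for similar digit lemmas. -/

set_option autoImplicit false

open Finset Polynomial

namespace Pool.MP322P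

private theorem pk_congr {B n : ℕ} {d d' : ℕ → ℕ} (h : ∀ j < n, d j = d' j) :
    pk B n d = pk B n d' :=
  Finset.sum_congr rfl (fun j hj => by rw [h j (Finset.mem_range.mp hj)])

private theorem pk_add (B n : ℕ) (d d' : ℕ → ℕ) :
    pk B n d + pk B n d' = pk B n (fun j => d j + d' j) := by
  unfold pk
  rw [← Finset.sum_add_distrib]
  exact Finset.sum_congr rfl (fun j _ => by ring)

private theorem pk_mul (B n c : ℕ) (d : ℕ → ℕ) :
    c * pk B n d = pk B n (fun j => c * d j) := by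
  unfold pk
  rw [Finset.mul_sum]
  exact Finset.sum_congr rfl (fun j _ => by ring)

private theorem pk_sub {B n : ℕ} {d d' : ℕ → ℕ} (h : ∀ j < n, d' j ≤ d j) :
    pk B n d - pk B n d' = pk B n (fun j => d j - d' j) := by
  apply Nat.sub_eq_of_eq_add
  rw [pk_add]
  exact pk_congr (fun j hj => (Nat.sub_add_cancel (h j hj)).symm)

private theorem rowZ_eq {B X O ones mk mk1 M2 y T wa we S P N C Ng low Z : ℕ}
    (hS : Nat.land (Nat.shiftRight T (B - 1)) ones = S)
    (hP : Nat.land T (S * (O - 1)) = P)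
    (hN : O * (ones - S) - Nat.land T ((ones - S) * (O - 1)) = N)
    (hC : (y * T + O * (2001 * ones - 2000)) - ((2000 * X) * (T % mk1) + (y * O) * ones) = C)
    (hNg : (ones - Nat.land (Nat.shiftRight C (B - 1)) ones) + mk = Ng)
    (hlow : Nat.land Ng (M2 - Ng) = low)
    (hZ : (wa * (P + N) - we * P) % mk = Z) :
    rowZ B X O ones mk mk1 M2 y T wa we = low * (Z / low) := by
  subst hS
  subst hP
  subst hN
  subst hC
  subst hNg
  subst hlow
  subst hZ
  rfl

open Classical in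
theorem rowZ_spec (B kx y : ℕ) (hB : 1 ≤ B) (hy : y ≤ 1000) (e : ℕ → ℤ) (he0 : 0 ≤ e 0)
    (he : ∀ j ≤ kx, 3001 * |e j| < 2 ^ (B - 1)) (T : ℕ)
    (hT : (T : ℤ) = ∑ j ∈ range (kx + 1), (e j + 2 ^ (B - 1)) * (2 ^ B) ^ j)
    (pa pe : ℕ[X]) (hpe : ∀ i, pe.coeff i ≤ pa.coeff i)
    (hS : ∀ k ≤ kx, ∑ i ∈ range (k + 1), (pa.coeff i : ℤ) * |e (k - i)| < 2 ^ B) :
    (rowZ B (2 ^ B) (2 ^ (B - 1)) (((2 ^ B) ^ (kx + 1) - 1) / (2 ^ B - 1)) ((2 ^ B) ^ (kx + 1))
      ((2 ^ B) ^ (kx + 1) / 2 ^ B) ((2 ^ B) ^ (kx + 1) * (2 ^ B * 4)) y T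
      (pa.eval (2 ^ B)) (pe.eval (2 ^ B)) : ℤ) =
    ∑ k ∈ range (kx + 1), (if ∀ j, 1 ≤ j → j ≤ k → 2000 * e (j - 1) ≤ (y : ℤ) * e j then 0 else
      ∑ i ∈ range (k + 1), (pa.coeff i : ℤ) * |e (k - i)| -
        ∑ i ∈ range (k + 1), (pe.coeff i : ℤ) * max 0 (e (k - i))) * (2 ^ B) ^ k := by
  classical
  set O : ℕ := 2 ^ (B - 1) with hO
  have hXO : 2 ^ B = 2 * O := by
    rw [hO, ← pow_succ']
    congr 1
    omega
  have hOpos : 1 ≤ O := Nat.one_le_two_pow
  have heO : ∀ j ≤ kx, 3001 * |e j| < (O : ℤ) := by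
    intro j hj
    have := he j hj
    rw [hO]
    push_cast
    exact this
  have heO' : ∀ j ≤ kx, |e j| < (O : ℤ) := by
    intro j hj
    have h1 := heO j hj
    have h2 := abs_nonneg (e j)
    omega
  -- digits of `T`
  obtain ⟨dT, hdT⟩ : ∃ dT : ℕ → ℕ, ∀ j, dT j = (e j + (O : ℤ)).toNat := ⟨_, fun j => rfl⟩
  have hdTz : ∀ j ≤ kx, (dT j : ℤ) = e j + O := by
    intro j hj
    rw [hdT]
    have h1 := abs_lt.mp (heO' j hj)
    exact Int.toNat_of_nonneg (by omega)
  have hdTX : ∀ j < kx + 1, dT j < 2 ^ B := by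
    intro j hj
    have h1 := hdTz j (by omega)
    have h2 := abs_lt.mp (heO' j (by omega))
    rw [hXO]
    omega
  have hTpk : T = pk B (kx + 1) dT := by
    have : (T : ℤ) = (pk B (kx + 1) dT : ℕ) := by
      rw [hT]
      unfold pk
      push_cast
      refine Finset.sum_congr rfl (fun j hj => ?_)
      rw [hdTz j (by have := Finset.mem_range.mp hj; omega), hO]
      push_cast
      rfl
    exact_mod_cast this
  -- signs
  obtain ⟨s, hs⟩ : ∃ s : ℕ → ℕ, ∀ j, s j = if 0 ≤ e j then 1 else 0 := ⟨_, fun j => rfl⟩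
  have hsT : ∀ j < kx + 1, dT j / O = s j := by
    intro j hj
    have h1 := hdTz j (by omega)
    have h2 := abs_lt.mp (heO' j (by omega))
    rw [hs]
    split_ifs with h
    · apply Nat.div_eq_of_lt_le <;> omega
    · apply Nat.div_eq_of_lt
      omega
  have hones := pk_ones (B := B) (n := kx + 1) hB
  have hS' : Nat.land (Nat.shiftRight T (B - 1)) (pk B (kx + 1) (fun _ => 1)) =
      pk B (kx + 1) s := by
    rw [hTpk, top_pk hB hdTX]
    exact pk_congr hsT
  have hs1 : ∀ j, s j ≤ 1 := by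
    intro j
    rw [hs]
    split_ifs <;> omega
  have hOX : O - 1 < 2 ^ B := by omega
  have hsO : ∀ j, s j * (O - 1) < 2 ^ B := by
    intro j
    have := hs1 j
    calc s j * (O - 1) ≤ 1 * (O - 1) := Nat.mul_le_mul_right _ this
      _ < 2 ^ B := by omega
  have hsO' : ∀ j, (1 - s j) * (O - 1) < 2 ^ B := by
    intro j
    calc (1 - s j) * (O - 1) ≤ 1 * (O - 1) := Nat.mul_le_mul_right _ (by omega)
      _ < 2 ^ B := by omega
  have hland : ∀ a : ℕ, Nat.land a (O - 1) = a % O := by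
    intro a
    rw [hO]
    exact Nat.and_two_pow_sub_one_eq_mod a (B - 1)
  have hland0 : ∀ a : ℕ, Nat.land a 0 = 0 := fun a => Nat.and_zero a
  -- positive and negative parts
  obtain ⟨v, hv⟩ : ∃ v : ℕ → ℕ, ∀ j, v j = (max 0 (e j)).toNat := ⟨_, fun j => rfl⟩
  obtain ⟨w, hw⟩ : ∃ w : ℕ → ℕ, ∀ j, w j = (max 0 (-e j)).toNat := ⟨_, fun j => rfl⟩
  have hvz : ∀ j, (v j : ℤ) = max 0 (e j) := by
    intro j
    rw [hv]
    exact Int.toNat_of_nonneg (le_max_left _ _)
  have hwz : ∀ j, (w j : ℤ) = max 0 (-e j) := by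
    intro j
    rw [hw]
    exact Int.toNat_of_nonneg (le_max_left _ _)
  have hP' : Nat.land T (pk B (kx + 1) s * (O - 1)) = pk B (kx + 1) v := by
    rw [mul_comm, pk_mul, hTpk, land_pk hdTX (fun j _ => by rw [mul_comm]; exact hsO j)]
    refine pk_congr (fun j hj => ?_)
    have h1 := hdTz j (by omega)
    have h2 := abs_lt.mp (heO' j (by omega))
    have h3 := hvz j
    rw [hs]
    split_ifs with h
    · rw [mul_one, hland]
      rw [max_eq_right h] at h3
      have : dT j = v j + O := by omega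
      rw [this, Nat.add_mod_right]
      apply Nat.mod_eq_of_lt
      omega
    · rw [mul_zero, hland0]
      rw [max_eq_left (by omega)] at h3
      omega
  have hone_s : pk B (kx + 1) (fun _ => 1) - pk B (kx + 1) s =
      pk B (kx + 1) (fun j => 1 - s j) := pk_sub (fun j _ => hs1 j)
  have hN' : O * (pk B (kx + 1) (fun _ => 1) - pk B (kx + 1) s) -
      Nat.land T ((pk B (kx + 1) (fun _ => 1) - pk B (kx + 1) s) * (O - 1)) =
      pk B (kx + 1) w := by
    have hdig : ∀ j < kx + 1, O * (1 - s j) = w j + Nat.land (dT j) ((O - 1) * (1 - s j)) := by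
      intro j hj
      have h1 := hdTz j (by omega)
      have h2 := abs_lt.mp (heO' j (by omega))
      have h3 := hwz j
      rw [hs]
      split_ifs with h
      · rw [max_eq_left (by omega)] at h3
        rw [Nat.sub_self, mul_zero, mul_zero, hland0]
        omega
      · rw [max_eq_right (by omega)] at h3
        rw [Nat.sub_zero, mul_one, mul_one, hland, Nat.mod_eq_of_lt (by omega)]
        omega
    rw [hone_s, mul_comm (pk B (kx + 1) fun j => 1 - s j), pk_mul, pk_mul, hTpk,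
      land_pk hdTX (fun j _ => by rw [mul_comm]; exact hsO' j)]
    rw [pk_sub (fun j hj => by rw [hdig j hj]; omega)]
    exact pk_congr (fun j hj => by rw [hdig j hj]; omega)
  -- criterion
  obtain ⟨cz, hcz⟩ : ∃ cz : ℕ → ℤ, ∀ j, cz j =
      (y : ℤ) * e j - (if j = 0 then 0 else 2000 * e (j - 1)) + O := ⟨_, fun j => rfl⟩
  obtain ⟨c, hc⟩ : ∃ c : ℕ → ℕ, ∀ j, c j = (cz j).toNat := ⟨_, fun j => rfl⟩
  have hye : ∀ j ≤ kx, |(y : ℤ) * e j| ≤ 1000 * |e j| := by
    intro j _
    rw [abs_mul]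
    apply mul_le_mul_of_nonneg_right _ (abs_nonneg _)
    rw [Nat.abs_cast]
    exact_mod_cast hy
  have hczb : ∀ j ≤ kx, 0 < cz j ∧ cz j < 2 * O := by
    intro j hj
    have h1 := abs_le.mp (hye j hj)
    have h2 := heO j hj
    have h0 := abs_nonneg (e j)
    rw [hcz]
    split_ifs with h
    · constructor <;> omega
    · have h3 := heO (j - 1) (by omega)
      have h4 := le_abs_self (e (j - 1))
      have h5 := neg_abs_le (e (j - 1))
      constructor <;> omega
  have hcc : ∀ j ≤ kx, (c j : ℤ) = cz j := by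
    intro j hj
    rw [hc]
    exact Int.toNat_of_nonneg (hczb j hj).1.le
  have hcX : ∀ j < kx + 1, c j < 2 ^ B := by
    intro j hj
    have h1 := hcc j (by omega)
    have h2 := (hczb j (by omega)).2
    rw [hXO]
    omega
  have hmk1 : (2 ^ B) ^ (kx + 1) / 2 ^ B = (2 ^ B) ^ kx := by
    rw [pow_succ]
    exact Nat.mul_div_cancel _ (by positivity)
  have hTmod : T % (2 ^ B) ^ kx = pk B kx dT := by
    rw [hTpk]
    exact pk_mod (fun j hj => hdTX j (by omega))
  have hones1 : 1 ≤ pk B (kx + 1) (fun _ => 1) := by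
    unfold pk
    calc 1 = 1 * (2 ^ B) ^ 0 := by simp
      _ ≤ _ := Finset.single_le_sum (f := fun j => 1 * (2 ^ B) ^ j) (fun j _ => Nat.zero_le _)
        (Finset.mem_range.mpr (Nat.succ_pos kx))
  have hC' : (y * T + O * (2001 * pk B (kx + 1) (fun _ => 1) - 2000)) -
      ((2000 * 2 ^ B) * (T % ((2 ^ B) ^ (kx + 1) / 2 ^ B)) +
        (y * O) * pk B (kx + 1) (fun _ => 1)) = pk B (kx + 1) c := by
    rw [hmk1, hTmod]
    apply Nat.sub_eq_of_eq_add
    have hsub : ((2001 * pk B (kx + 1) (fun _ => 1) - 2000 : ℕ) : ℤ) =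
        2001 * (pk B (kx + 1) (fun _ => 1) : ℕ) - 2000 := by
      rw [Nat.cast_sub (by omega)]
      push_cast
      ring
    have hz : ((y * T + O * (2001 * pk B (kx + 1) (fun _ => 1) - 2000) : ℕ) : ℤ) =
        ((pk B (kx + 1) c + ((2000 * 2 ^ B) * pk B kx dT +
          (y * O) * pk B (kx + 1) (fun _ => 1)) : ℕ) : ℤ) := by
      rw [Nat.cast_add, Nat.cast_mul, Nat.cast_mul, hsub, hTpk]
      push_cast
      unfold pk
      push_cast
      rw [Finset.sum_range_succ' (fun j => (dT j : ℤ) * (2 ^ B) ^ j),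
        Finset.sum_range_succ' (fun j => (c j : ℤ) * (2 ^ B) ^ j),
        Finset.sum_range_succ' (fun j => (1 : ℤ) * (2 ^ B) ^ j)]
      have hkey : ∑ j ∈ range kx, ((y : ℤ) * ((dT (j + 1) : ℤ) * (2 ^ B) ^ (j + 1)) +
          2001 * O * (1 * (2 ^ B) ^ (j + 1))) =
          ∑ j ∈ range kx, ((c (j + 1) : ℤ) * (2 ^ B) ^ (j + 1) +
            2000 * 2 ^ B * ((dT j : ℤ) * (2 ^ B) ^ j) + y * O * (1 * (2 ^ B) ^ (j + 1))) := by
        refine Finset.sum_congr rfl (fun j hj => ?_)
        have hj' := Finset.mem_range.mp hj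
        rw [hdTz (j + 1) (by omega), hcc (j + 1) (by omega), hdTz j (by omega), hcz,
          if_neg (Nat.succ_ne_zero j), Nat.add_sub_cancel]
        ring
      simp only [Finset.sum_add_distrib, ← Finset.mul_sum] at hkey
      have h0 : (dT 0 : ℤ) = e 0 + O := hdTz 0 (Nat.zero_le _)
      have h0c : (c 0 : ℤ) = (y : ℤ) * e 0 + O := by
        rw [hcc 0 (Nat.zero_le _), hcz, if_pos rfl]
        ring
      rw [h0, h0c]
      simp only [← Finset.mul_sum] at *
      linear_combination hkey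
    exact_mod_cast hz
  obtain ⟨g, hg⟩ : ∃ g : ℕ → ℕ, ∀ j, g j = if j < kx + 1 then 1 - c j / O else 1 :=
    ⟨_, fun j => rfl⟩
  have hcO : ∀ j ≤ kx, c j / O ≤ 1 := by
    intro j hj
    have h1 := hcX j (by omega)
    rw [hXO] at h1
    have : c j / O < 2 := Nat.div_lt_of_lt_mul (by omega)
    omega
  have hNg' : (pk B (kx + 1) (fun _ => 1) - Nat.land (Nat.shiftRight (pk B (kx + 1) c) (B - 1))
      (pk B (kx + 1) (fun _ => 1))) + (2 ^ B) ^ (kx + 1) = pk B (kx + 2) g := by
    rw [top_pk hB hcX, pk_sub (fun j hj => hcO j (by omega))]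
    unfold pk
    rw [Finset.sum_range_succ _ (kx + 1)]
    congr 1
    · refine Finset.sum_congr rfl (fun j hj => ?_)
      rw [hg, if_pos (Finset.mem_range.mp hj)]
    · rw [hg, if_neg (by omega), one_mul]
  have hg1 : ∀ j, g j ≤ 1 := by
    intro j
    rw [hg]
    split_ifs
    · exact Nat.sub_le _ _
    · exact le_rfl
  have hgc : ∀ j ≤ kx, (g j = 0 ↔ (j = 0 ∨ 2000 * e (j - 1) ≤ (y : ℤ) * e j)) := by
    intro j hj
    have h1 := hcc j hj
    have h2 := hczb j hj
    have h3 := hcO j hj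
    rw [hg, if_pos (by omega)]
    have h4 : 1 - c j / O = 0 ↔ O ≤ c j := by
      rw [Nat.sub_eq_zero_iff_le, Nat.le_div_iff_mul_le (by omega), one_mul]
    rw [h4]
    rw [hcz] at h1
    rcases Nat.eq_zero_or_pos j with h | h
    · subst h
      rw [if_pos rfl] at h1
      have : 0 ≤ (y : ℤ) * e 0 := by positivity
      constructor
      · intro _; left; rfl
      · intro _; omega
    · rw [if_neg (by omega)] at h1
      constructor
      · intro h5
        right
        omega
      · rintro (h5 | h5)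
        · omega
        · omega
  have hex : ∃ z, g z = 1 := ⟨kx + 1, by rw [hg, if_neg (by omega)]⟩
  set z := Nat.find hex with hz
  have hz1 : g z = 1 := Nat.find_spec hex
  have hzlt : ∀ j < z, g j = 0 := by
    intro j hj
    have h1 := Nat.find_min hex hj
    have h2 := hg1 j
    omega
  have hzle : z ≤ kx + 1 := Nat.find_min' hex (by rw [hg, if_neg (by omega)])
  have hlow' : Nat.land (pk B (kx + 2) g)
      ((2 ^ B) ^ (kx + 1) * (2 ^ B * 4) - pk B (kx + 2) g) = (2 ^ B) ^ z :=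
    low_pk hB hzle hzlt hz1 (fun j _ => hg1 j)
  -- convolution
  obtain ⟨u, hu⟩ : ∃ u : ℕ → ℕ, ∀ j, u j = v j + w j := ⟨_, fun j => rfl⟩
  have huz : ∀ j, (u j : ℤ) = |e j| := by
    intro j
    rw [hu]
    push_cast
    rw [hvz, hwz]
    rcases le_total 0 (e j) with h | h
    · rw [max_eq_right h, max_eq_left (by omega), abs_of_nonneg h]
      ring
    · rw [max_eq_left h, max_eq_right (by omega), abs_of_nonpos h]
      ring
  have huv : ∀ j < kx + 1, v j ≤ u j := by
    intro j _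
    rw [hu]
    omega
  have hSn : ∀ k < kx + 1, ∑ i ∈ range (k + 1), pa.coeff i * u (k - i) < 2 ^ B := by
    intro k hk
    have h1 := hS k (by omega)
    have h2 : ((∑ i ∈ range (k + 1), pa.coeff i * u (k - i) : ℕ) : ℤ) =
        ∑ i ∈ range (k + 1), (pa.coeff i : ℤ) * |e (k - i)| := by
      push_cast
      exact Finset.sum_congr rfl (fun i _ => by rw [huz])
    rw [← h2] at h1
    exact_mod_cast h1
  have hZ' : (pa.eval (2 ^ B) * (pk B (kx + 1) v + pk B (kx + 1) w) -
      pe.eval (2 ^ B) * pk B (kx + 1) v) % (2 ^ B) ^ (kx + 1) =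
      pk B (kx + 1) (fun k => ∑ i ∈ range (k + 1), pa.coeff i * u (k - i) -
        ∑ i ∈ range (k + 1), pe.coeff i * v (k - i)) := by
    rw [pk_add, ← conv_pk pa pe u v huv hpe hSn, pk_congr (fun j _ => (hu j).symm)]
  have hfin : rowZ B (2 ^ B) O (((2 ^ B) ^ (kx + 1) - 1) / (2 ^ B - 1)) ((2 ^ B) ^ (kx + 1))
      ((2 ^ B) ^ (kx + 1) / 2 ^ B) ((2 ^ B) ^ (kx + 1) * (2 ^ B * 4)) y T
      (pa.eval (2 ^ B)) (pe.eval (2 ^ B)) =
      pk B (kx + 1) (fun k => if k < z then 0 else
        ∑ i ∈ range (k + 1), pa.coeff i * u (k - i) -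
          ∑ i ∈ range (k + 1), pe.coeff i * v (k - i)) := by
    rw [hones]
    rw [rowZ_eq hS' hP' hN' hC' hNg' hlow' hZ']
    exact clear_pk hzle (fun k hk => lt_of_le_of_lt (Nat.sub_le _ _) (hSn k hk))
  rw [hfin]
  unfold pk
  push_cast
  refine Finset.sum_congr rfl (fun k hk => ?_)
  have hk' := Finset.mem_range.mp hk
  congr 1
  by_cases hkz : k < z
  · rw [if_pos hkz, if_pos]
    intro j hj1 hjk
    have h1 := (hgc j (by omega)).mp (hzlt j (by omega))
    rcases h1 with h1 | h1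
    · omega
    · exact h1
  · rw [if_neg hkz, if_neg]
    · have hle : ∑ i ∈ range (k + 1), pe.coeff i * v (k - i) ≤
          ∑ i ∈ range (k + 1), pa.coeff i * u (k - i) := by
        refine Finset.sum_le_sum (fun i _ => Nat.mul_le_mul (hpe i) (huv _ (by omega)))
      rw [Nat.cast_sub hle]
      push_cast
      congr 1
      · exact Finset.sum_congr rfl (fun i _ => by rw [huz])
      · exact Finset.sum_congr rfl (fun i _ => by rw [hvz])
    · intro hall
      have hzk : z ≤ kx := by omega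
      have h1 := hz1
      have hz0 : z ≠ 0 := by
        intro h0
        have := (hgc 0 (Nat.zero_le _)).mpr (Or.inl rfl)
        rw [h0] at h1
        omega
      have h2 := (hgc z hzk).mpr (Or.inr (hall z (by omega) (by omega)))
      omega

end Pool.MP322P
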