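import Pool.Agent.Lib.MP_322c5f_alP.PK03

/-! job 322P-K5: size estimates: the coefficients of `eP`, nonnegativity and digits of `VV`. -/

set_option autoImplicit false

open Finset Polynomial

namespace Pool.MP322P

private theorem l1_mul {p : ℤ[X]} {b : ℤ} (hp : ∀ n : ℕ, ∑ j ∈ range n, |p.coeff j| ≤ b)
    (c : ℤ) (k : ℕ) (n : ℕ) :
    ∑ j ∈ range n, |(p * (1 + C c * X ^ k)).coeff j| ≤ (1 + |c|) * b := by
  have h1 : ∀ j, |(p * (1 + C c * X ^ k)).coeff j| ≤
      |p.coeff j| + |c| * (if k ≤ j then |p.coeff (j - k)| else 0) := by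
    intro j
    have e : p * (1 + C c * X ^ k) = p + C c * (p * X ^ k) := by ring
    rw [e, coeff_add, coeff_C_mul, coeff_mul_X_pow']
    refine (abs_add_le _ _).trans ?_
    rw [abs_mul]
    split_ifs with h
    · exact le_rfl
    · simp
  have h2 : ∑ j ∈ range n, (if k ≤ j then |p.coeff (j - k)| else 0) ≤ b := by
    rw [← Finset.sum_filter]
    have h3 : ∑ j ∈ (range n).filter (fun j => k ≤ j), |p.coeff (j - k)| ≤
        ∑ i ∈ range n, |p.coeff i| := by
      have h4 : ∑ j ∈ (range n).filter (fun j => k ≤ j), |p.coeff (j - k)| =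
          ∑ i ∈ ((range n).filter (fun j => k ≤ j)).image (fun j => j - k), |p.coeff i| := by
        rw [Finset.sum_image]
        intro x hx y hy hxy
        simp only [Finset.coe_filter, Finset.mem_range, Set.mem_ofPred_eq] at hx hy
        have hxy' : x - k = y - k := hxy
        omega
      rw [h4]
      apply Finset.sum_le_sum_of_subset_of_nonneg
      · intro i hi
        simp only [Finset.mem_image, Finset.mem_filter, Finset.mem_range] at hi ⊢
        obtain ⟨j, hj, rfl⟩ := hi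
        omega
      · intro i _ _
        exact abs_nonneg _
    exact h3.trans (hp n)
  calc ∑ j ∈ range n, |(p * (1 + C c * X ^ k)).coeff j|
      ≤ ∑ j ∈ range n, (|p.coeff j| + |c| * (if k ≤ j then |p.coeff (j - k)| else 0)) :=
        Finset.sum_le_sum fun j _ => h1 j
    _ = ∑ j ∈ range n, |p.coeff j| +
          |c| * ∑ j ∈ range n, (if k ≤ j then |p.coeff (j - k)| else 0) := by
        rw [Finset.sum_add_distrib, Finset.mul_sum]
    _ ≤ b + |c| * b := add_le_add (hp n) (mul_le_mul_of_nonneg_left h2 (abs_nonneg _))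
    _ = (1 + |c|) * b := by ring

private theorem l1_mul_pow {p : ℤ[X]} {b : ℤ} (hp : ∀ n : ℕ, ∑ j ∈ range n, |p.coeff j| ≤ b)
    (c : ℤ) (k m : ℕ) : ∀ n : ℕ,
    ∑ j ∈ range n, |(p * (1 + C c * X ^ k) ^ m).coeff j| ≤ b * (1 + |c|) ^ m := by
  induction m with
  | zero => simpa using hp
  | succ m ih =>
    intro n
    have := l1_mul ih c k n
    rw [pow_succ, ← mul_assoc]
    refine this.trans (le_of_eq ?_)
    ring

private theorem eP_eq (F a t : ℕ) : eP F a t =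
    1 * (1 + C (-2) * X ^ 1) ^ 1 * (1 + C 2 * X ^ 1) ^ F * (1 + C (-4) * X ^ 2) ^ a *
      (1 + C (-4) * X ^ 3) ^ t := by
  unfold eP
  have h2 : (C (2 : ℤ) : ℤ[X]) = 2 := by simp
  have h2' : (C (-2 : ℤ) : ℤ[X]) = -2 := by simp
  have h4 : (C (-4 : ℤ) : ℤ[X]) = -4 := by simp
  rw [h2, h2', h4]
  ring

/-- sum of the absolute values of the coefficients (induction over the factors). -/
theorem eP_abs_sum (F a t : ℕ) : ∀ n : ℕ,
    ∑ j ∈ range n, |(eP F a t).coeff j| ≤ 3 ^ (F + 1) * 5 ^ a * 5 ^ t := by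
  have h0 : ∀ n : ℕ, ∑ j ∈ range n, |(1 : ℤ[X]).coeff j| ≤ 1 := by
    intro n
    have : ∀ j, |(1 : ℤ[X]).coeff j| = if j = 0 then 1 else 0 := by
      intro j
      rw [coeff_one]
      split_ifs <;> simp
    simp only [this]
    rw [Finset.sum_ite_eq']
    split_ifs <;> simp
  have h1 := l1_mul_pow h0 (-2) 1 1
  have h2 := l1_mul_pow h1 2 1 F
  have h3 := l1_mul_pow h2 (-4) 2 a
  have h4 := l1_mul_pow h3 (-4) 3 t
  intro n
  rw [eP_eq]
  refine (h4 n).trans (le_of_eq ?_)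
  have e2 : |(-2 : ℤ)| = 2 := by norm_num
  have e3 : |(2 : ℤ)| = 2 := by norm_num
  have e4 : |(-4 : ℤ)| = 4 := by norm_num
  rw [e2, e3, e4]
  ring

theorem eP_coeff_zero (F a t : ℕ) : (eP F a t).coeff 0 = 1 := by
  rw [coeff_zero_eq_eval_zero]
  simp [eP]

theorem eP_coeff_le {L F a t : ℕ} (h : 2 * a + 3 * t + F ≤ L) (j : ℕ) :
    |(eP F a t).coeff j| ≤ 3 ^ (L + 1) := by
  have h1 := eP_abs_sum F a t (j + 1)
  have h2 : |(eP F a t).coeff j| ≤ ∑ i ∈ range (j + 1), |(eP F a t).coeff i| :=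
    Finset.single_le_sum (f := fun i => |(eP F a t).coeff i|) (fun i _ => abs_nonneg _)
      (Finset.mem_range.mpr (Nat.lt_succ_self j))
  refine h2.trans (h1.trans ?_)
  have h3 : (5 : ℤ) ^ a ≤ (3 ^ 2) ^ a := pow_le_pow_left₀ (by norm_num) (by norm_num) a
  have h4 : (5 : ℤ) ^ t ≤ (3 ^ 3) ^ t := pow_le_pow_left₀ (by norm_num) (by norm_num) t
  calc (3 : ℤ) ^ (F + 1) * 5 ^ a * 5 ^ t ≤ 3 ^ (F + 1) * (3 ^ 2) ^ a * (3 ^ 3) ^ t := by
        gcongr
    _ = 3 ^ (F + 1 + 2 * a + 3 * t) := by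
        rw [← pow_mul, ← pow_mul, ← pow_add, ← pow_add]
    _ ≤ 3 ^ (L + 1) := pow_le_pow_right₀ (by norm_num) (by omega)

theorem eP_natDegree_le (F a t : ℕ) : (eP F a t).natDegree ≤ 2 * a + 3 * t + F + 1 := by
  have h1 : ((1 - 2 * X : ℤ[X])).natDegree ≤ 1 := by compute_degree
  have h2 : ((1 + 2 * X : ℤ[X]) ^ F).natDegree ≤ F * 1 :=
    natDegree_pow_le_of_le F (by compute_degree)
  have h3 : ((1 - 4 * X ^ 2 : ℤ[X]) ^ a).natDegree ≤ a * 2 :=
    natDegree_pow_le_of_le a (by compute_degree)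
  have h4 : ((1 - 4 * X ^ 3 : ℤ[X]) ^ t).natDegree ≤ t * 3 :=
    natDegree_pow_le_of_le t (by compute_degree)
  have h5 := natDegree_mul_le_of_le (natDegree_mul_le_of_le (natDegree_mul_le_of_le h1 h2) h3) h4
  unfold eP
  omega

private theorem digits_lt {X : ℕ} {d : ℕ → ℕ} (n : ℕ) (hd : ∀ j < n, d j < X) :
    ∑ j ∈ range n, d j * X ^ j < X ^ n := by
  induction n with
  | zero => simp
  | succ n ih =>
    rw [Finset.sum_range_succ]
    have h1 := ih fun j hj => hd j (by omega)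
    have h2 : d n + 1 ≤ X := hd n (by omega)
    calc ∑ j ∈ range n, d j * X ^ j + d n * X ^ n < X ^ n + d n * X ^ n := by omega
      _ = (d n + 1) * X ^ n := by ring
      _ ≤ X * X ^ n := Nat.mul_le_mul_right _ h2
      _ = X ^ (n + 1) := by ring

/-- the digits of `VV`. -/
theorem VV_digits (P : Par) (hB : 3001 * 3 ^ (P.L + 1) < 2 ^ (P.B - 1)) (hkx : P.kx ≤ P.L + 2)
    {F a t : ℕ} (h : 2 * a + 3 * t + F ≤ P.L) :
    0 ≤ (eP F a t).eval (P.X : ℤ) + P.OO ∧
    ((VV P.X P.OO F a t % P.mk' : ℕ) : ℤ) =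
      ∑ j ∈ range (P.kx + 1), ((eP F a t).coeff j + 2 ^ (P.B - 1)) * (2 ^ P.B) ^ j := by
  have hB1 : 1 ≤ P.B := by
    by_contra hc
    have : P.B = 0 := by omega
    rw [this] at hB
    have : 1 ≤ 3 ^ (P.L + 1) := Nat.one_le_pow _ _ (by norm_num)
    norm_num at hB
  have h2B : 2 ^ P.B = 2 * 2 ^ (P.B - 1) := by
    rw [← pow_succ']
    congr 1
    omega
  have hX2 : 2 ≤ P.X := by
    unfold Par.X
    rw [h2B]
    have : 1 ≤ 2 ^ (P.B - 1) := Nat.one_le_pow _ _ (by norm_num)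
    omega
  have hsm : (3 : ℤ) ^ (P.L + 1) < 2 ^ (P.B - 1) := by
    have h3 : 3 ^ (P.L + 1) < 2 ^ (P.B - 1) := by
      have : 3 ^ (P.L + 1) ≤ 3001 * 3 ^ (P.L + 1) := Nat.le_mul_of_pos_left _ (by norm_num)
      omega
    exact_mod_cast h3
  have habs : ∀ j, |(eP F a t).coeff j| < 2 ^ (P.B - 1) := fun j =>
    (eP_coeff_le h j).trans_lt hsm
  -- the digits
  obtain ⟨d, hd⟩ : ∃ d : ℕ → ℕ, ∀ j, ((d j : ℕ) : ℤ) = (eP F a t).coeff j + 2 ^ (P.B - 1) := by
    refine ⟨fun j => ((eP F a t).coeff j + 2 ^ (P.B - 1)).toNat, fun j => ?_⟩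
    have := (abs_lt.mp (habs j)).1
    exact Int.toNat_of_nonneg (by linarith)
  have hdlt : ∀ j, d j < P.X := by
    intro j
    have h1 := (abs_lt.mp (habs j)).2
    have h2 := hd j
    have h3 : ((d j : ℕ) : ℤ) < ((P.X : ℕ) : ℤ) := by
      rw [h2]
      have : ((P.X : ℕ) : ℤ) = 2 * 2 ^ (P.B - 1) := by
        unfold Par.X
        rw [h2B]
        push_cast
        ring
      rw [this]
      linarith
    exact_mod_cast h3
  have hOO : P.OO = ∑ j ∈ range (P.L + 3), 2 ^ (P.B - 1) * P.X ^ j := by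
    unfold Par.OO Par.O
    rw [← Nat.geomSum_eq hX2, Finset.mul_sum]
  have hev : (eP F a t).eval (P.X : ℤ) = ∑ j ∈ range (P.L + 3),
      (eP F a t).coeff j * (P.X : ℤ) ^ j := by
    apply eval_eq_sum_range'
    have := eP_natDegree_le F a t
    omega
  have htot : (eP F a t).eval (P.X : ℤ) + P.OO =
      ((∑ j ∈ range (P.L + 3), d j * P.X ^ j : ℕ) : ℤ) := by
    rw [hev, hOO]
    push_cast
    rw [← Finset.sum_add_distrib]
    refine Finset.sum_congr rfl fun j _ => ?_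
    rw [hd j]
    ring
  have hVV : VV P.X P.OO F a t = ∑ j ∈ range (P.L + 3), d j * P.X ^ j := by
    unfold VV
    rw [htot]
    exact Int.toNat_natCast _
  refine ⟨by rw [htot]; positivity, ?_⟩
  have hmod : VV P.X P.OO F a t % P.mk' = ∑ j ∈ range (P.kx + 1), d j * P.X ^ j := by
    rw [hVV]
    obtain ⟨e, he⟩ : ∃ e, P.L + 3 = (P.kx + 1) + e := ⟨P.L + 3 - (P.kx + 1), by omega⟩
    rw [he, Finset.sum_range_add]
    have h1 : ∑ x ∈ range e, d (P.kx + 1 + x) * P.X ^ (P.kx + 1 + x) =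
        P.mk' * ∑ x ∈ range e, d (P.kx + 1 + x) * P.X ^ x := by
      unfold Par.mk'
      rw [Finset.mul_sum]
      refine Finset.sum_congr rfl fun x _ => ?_
      rw [pow_add]
      ring
    rw [h1, Nat.add_mul_mod_self_left]
    apply Nat.mod_eq_of_lt
    exact digits_lt _ fun j _ => hdlt j
  rw [hmod]
  push_cast
  refine Finset.sum_congr rfl fun j _ => ?_
  rw [hd j]
  unfold Par.X
  push_cast
  ring

end Pool.MP322P
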