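import Pool.Agent.Lib.MP_322c5f_alP.PK05

/-! job 322P-K5b: the row sums. -/

set_option autoImplicit false

open Finset Polynomial

namespace Pool.MP322P

private theorem pk5b_sum_coeff (p : ℕ[X]) (n : ℕ) : ∑ i ∈ range n, p.coeff i ≤ p.eval 1 := by
  rw [eval_eq_sum_range' (n := max n (p.natDegree + 1)) (by omega) 1]
  simp only [one_pow, mul_one]
  exact Finset.sum_le_sum_of_subset (Finset.range_mono (le_max_left _ _))

private theorem pk5b_coeff_le (F a t j : ℕ) :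
    |(eP F a t).coeff j| ≤ 3 ^ (F + 1) * 5 ^ a * 5 ^ t := by
  refine le_trans ?_ (eP_abs_sum F a t (j + 1))
  exact Finset.single_le_sum (f := fun j => |(eP F a t).coeff j|) (fun i _ => abs_nonneg _)
    (Finset.mem_range.2 (Nat.lt_succ_self j))

/-- one row (use `WA_eval_one_le`; `10 ≤ 16`, `25/4 ≤ 64`). -/
theorem row_sum_le {L F a t : ℕ} (h : 2 * a + 3 * t + F ≤ L) (k : ℕ) :
    ∑ i ∈ range (k + 1), ((WA L a t (L - (2 * a + 3 * t + F))).coeff i : ℤ) *
        |(eP F a t).coeff (k - i)| ≤ 15 * 4 ^ L := by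
  obtain ⟨m, hm⟩ : ∃ m, m = L - (2 * a + 3 * t + F) := ⟨_, rfl⟩
  rw [← hm]
  have h1 : ∑ i ∈ range (k + 1), ((WA L a t m).coeff i : ℤ) * |(eP F a t).coeff (k - i)| ≤
      (((WA L a t m).eval 1 : ℕ) : ℤ) * (3 ^ (F + 1) * 5 ^ a * 5 ^ t) := by
    calc ∑ i ∈ range (k + 1), ((WA L a t m).coeff i : ℤ) * |(eP F a t).coeff (k - i)|
        ≤ ∑ i ∈ range (k + 1), ((WA L a t m).coeff i : ℤ) * (3 ^ (F + 1) * 5 ^ a * 5 ^ t) :=
          Finset.sum_le_sum fun i _ => mul_le_mul_of_nonneg_left (pk5b_coeff_le F a t (k - i))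
            (Int.natCast_nonneg _)
      _ = ((∑ i ∈ range (k + 1), (WA L a t m).coeff i : ℕ) : ℤ) *
            (3 ^ (F + 1) * 5 ^ a * 5 ^ t) := by
          rw [← Finset.sum_mul]
          push_cast
          rfl
      _ ≤ (((WA L a t m).eval 1 : ℕ) : ℤ) * (3 ^ (F + 1) * 5 ^ a * 5 ^ t) := by
          refine mul_le_mul_of_nonneg_right ?_ (by positivity)
          exact_mod_cast pk5b_sum_coeff (WA L a t m) (k + 1)
  refine h1.trans ?_
  have h2 := WA_eval_one_le L a t m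
  have h3 : (((WA L a t m).eval 1 : ℕ) : ℝ) * (3 ^ (F + 1) * 5 ^ a * 5 ^ t) ≤ 15 * 4 ^ L := by
    calc (((WA L a t m).eval 1 : ℕ) : ℝ) * (3 ^ (F + 1) * 5 ^ a * 5 ^ t)
        ≤ (2 * 2 ^ (a + 1) * (5 / 4 : ℝ) ^ (t + 1) * 4 ^ m) * (3 ^ (F + 1) * 5 ^ a * 5 ^ t) :=
          mul_le_mul_of_nonneg_right h2 (by positivity)
      _ = 15 * ((10 : ℝ) ^ a * (25 / 4 : ℝ) ^ t * 3 ^ F * 4 ^ m) := by
          have e1 : (10 : ℝ) ^ a = 2 ^ a * 5 ^ a := by rw [← mul_pow]; norm_num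
          have e2 : (25 / 4 : ℝ) ^ t = (5 / 4) ^ t * 5 ^ t := by rw [← mul_pow]; norm_num
          rw [e1, e2]
          ring
      _ ≤ 15 * ((16 : ℝ) ^ a * 64 ^ t * 4 ^ F * 4 ^ m) := by
          have e1 : (10 : ℝ) ^ a ≤ 16 ^ a := pow_le_pow_left₀ (by norm_num) (by norm_num) a
          have e2 : (25 / 4 : ℝ) ^ t ≤ 64 ^ t := pow_le_pow_left₀ (by norm_num) (by norm_num) t
          have e3 : (3 : ℝ) ^ F ≤ 4 ^ F := pow_le_pow_left₀ (by norm_num) (by norm_num) F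
          gcongr
      _ = 15 * 4 ^ L := by
          have e1 : (16 : ℝ) ^ a = 4 ^ (2 * a) := by rw [pow_mul]; norm_num
          have e2 : (64 : ℝ) ^ t = 4 ^ (3 * t) := by rw [pow_mul]; norm_num
          rw [e1, e2, ← pow_add, ← pow_add, ← pow_add]
          congr 2
          omega
  exact_mod_cast h3

private theorem pk5b_WE_nonneg (L F a t m k : ℕ) :
    0 ≤ ∑ i ∈ range (k + 1), ((WE L a t m).coeff i : ℤ) * max 0 ((eP F a t).coeff (k - i)) :=
  Finset.sum_nonneg fun _ _ => mul_nonneg (Int.natCast_nonneg _) (le_max_left _ _)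

theorem rowV_nonneg (yl : ℕ → ℕ) (L a t F k : ℕ) : 0 ≤ rowV yl L a t F k := by
  unfold rowV
  split_ifs with h
  · exact le_rfl
  · rw [sub_nonneg]
    refine Finset.sum_le_sum fun i _ => ?_
    refine mul_le_mul ?_ ?_ (le_max_left _ _) (Int.natCast_nonneg _)
    · exact_mod_cast WE_coeff_le L a t _ i
    · exact max_le (abs_nonneg _) (le_abs_self _)

private theorem pk5b_rowV_le (yl : ℕ → ℕ) {L a t F : ℕ} (h : 2 * a + 3 * t + F ≤ L) (k : ℕ) :
    rowV yl L a t F k ≤ 15 * 4 ^ L := by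
  unfold rowV
  split_ifs with hc
  · positivity
  · have h1 := row_sum_le h k
    have h2 := pk5b_WE_nonneg L F a t (L - (2 * a + 3 * t + F)) k
    linarith

theorem RS_bounds (yl : ℕ → ℕ) (L lo hi k : ℕ) :
    0 ≤ RS yl L lo hi k ∧ RS yl L lo hi k ≤ (L + 1) ^ 3 * (15 * 4 ^ L) := by
  have hnn : ∀ a t F : ℕ, 0 ≤ (if 2 * a + 3 * t + F ≤ L then rowV yl L a t F k else 0) := by
    intro a t F
    split_ifs
    · exact rowV_nonneg yl L a t F k
    · exact le_rfl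
  have hle : ∀ a t F : ℕ, (if 2 * a + 3 * t + F ≤ L then rowV yl L a t F k else 0) ≤
      15 * 4 ^ L := by
    intro a t F
    split_ifs with h
    · exact pk5b_rowV_le yl h k
    · positivity
  obtain ⟨f, hf⟩ : ∃ f : ℕ → ℤ, f = fun a => ∑ t ∈ range (L + 1), ∑ F ∈ range (L + 1),
      if 2 * a + 3 * t + F ≤ L then rowV yl L a t F k else 0 := ⟨_, rfl⟩
  have hf0 : ∀ a, 0 ≤ f a := by
    intro a
    rw [hf]
    exact Finset.sum_nonneg fun t _ => Finset.sum_nonneg fun F _ => hnn a t F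
  have hRS : RS yl L lo hi k = ∑ a ∈ Ico lo hi, f a := by
    rw [hf]
    rfl
  refine ⟨by rw [hRS]; exact Finset.sum_nonneg fun a _ => hf0 a, ?_⟩
  have hzero : ∀ a ∈ Ico lo hi, f a ≠ 0 → a ≤ L := by
    intro a _ ha
    by_contra hL
    apply ha
    rw [hf]
    refine Finset.sum_eq_zero fun t _ => Finset.sum_eq_zero fun F _ => if_neg ?_
    omega
  have hsub : (Ico lo hi).filter (fun a => a ≤ L) ⊆ range (L + 1) := by
    intro a ha
    rw [Finset.mem_filter] at ha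
    exact Finset.mem_range.2 (Nat.lt_succ_of_le ha.2)
  have hfle : ∀ a, f a ≤ (L + 1) * ((L + 1) * (15 * 4 ^ L)) := by
    intro a
    rw [hf]
    calc ∑ t ∈ range (L + 1), ∑ F ∈ range (L + 1),
          (if 2 * a + 3 * t + F ≤ L then rowV yl L a t F k else 0)
        ≤ ∑ _t ∈ range (L + 1), ∑ _F ∈ range (L + 1), (15 * 4 ^ L : ℤ) :=
          Finset.sum_le_sum fun t _ => Finset.sum_le_sum fun F _ => hle a t F
      _ = (L + 1) * ((L + 1) * (15 * 4 ^ L)) := by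
          simp only [Finset.sum_const, Finset.card_range, nsmul_eq_mul]
          push_cast
          ring
  rw [hRS, ← Finset.sum_filter_of_ne hzero]
  calc ∑ a ∈ (Ico lo hi).filter (fun a => a ≤ L), f a
      ≤ ∑ a ∈ range (L + 1), f a :=
        Finset.sum_le_sum_of_subset_of_nonneg hsub fun a _ _ => hf0 a
    _ ≤ ∑ _a ∈ range (L + 1), ((L + 1) * ((L + 1) * (15 * 4 ^ L)) : ℤ) :=
        Finset.sum_le_sum fun a _ => hfle a
    _ = (L + 1) ^ 3 * (15 * 4 ^ L) := by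
        simp only [Finset.sum_const, Finset.card_range, nsmul_eq_mul]
        push_cast
        ring

end Pool.MP322P
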