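import Pool.Agent.Lib.MP_322c5f_alP.PK04
import Pool.Agent.Lib.MP_322c5f_alP.PK05b

/-! job 322P-K6: the digits of `total` are the sums of the rows. -/

set_option autoImplicit false

open Finset Polynomial

namespace Pool.MP322P

/-- digit `k` of `N` in base `2^B`. -/
def dig (B N k : ℕ) : ℕ := N / 2 ^ (B * k) % 2 ^ B

/-- uniqueness of the digits. -/
theorem dig_of_digits (B kx T : ℕ) (r : ℕ → ℤ) (hr : ∀ k ≤ kx, 0 ≤ r k ∧ r k < 2 ^ B)
    (hT : (T : ℤ) = ∑ k ∈ range (kx + 1), r k * (2 ^ B) ^ k) (k : ℕ) (hk : k ≤ kx) :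
    r k = (dig B T k : ℤ) := by
  have hX : 0 < (2 ^ B : ℕ) := by positivity
  have hd : ∀ j ≤ kx, ((r j).toNat : ℤ) = r j := fun j hj => Int.toNat_of_nonneg (hr j hj).1
  have hd2 : ∀ j ≤ kx, (r j).toNat < 2 ^ B := fun j hj => by
    have h1 := hd j hj
    have h2 := (hr j hj).2
    have h3 : ((r j).toNat : ℤ) < ((2 ^ B : ℕ) : ℤ) := by rw [h1]; push_cast; exact h2
    exact_mod_cast h3
  have hTn : T = ∑ j ∈ range (kx + 1), (r j).toNat * (2 ^ B) ^ j := by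
    have : (T : ℤ) = ((∑ j ∈ range (kx + 1), (r j).toNat * (2 ^ B) ^ j : ℕ) : ℤ) := by
      rw [hT]
      push_cast
      refine sum_congr rfl fun j hj => ?_
      rw [hd j (by simpa [Nat.lt_succ_iff] using hj)]
    exact_mod_cast this
  have hsplit : ∑ j ∈ range (kx + 1), (r j).toNat * (2 ^ B) ^ j =
      ∑ j ∈ range k, (r j).toNat * (2 ^ B) ^ j +
        (2 ^ B) ^ k * ((r k).toNat + 2 ^ B * ∑ i ∈ range (kx - k),
          (r (k + 1 + i)).toNat * (2 ^ B) ^ i) := by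
    have e1 : kx + 1 = k + 1 + (kx - k) := by omega
    rw [e1, Finset.sum_range_add, sum_range_succ]
    have e2 : ∑ x ∈ range (kx - k), (r (k + 1 + x)).toNat * (2 ^ B) ^ (k + 1 + x) =
        (2 ^ B) ^ k * (2 ^ B * ∑ i ∈ range (kx - k), (r (k + 1 + i)).toNat * (2 ^ B) ^ i) := by
      rw [mul_sum, mul_sum]
      refine sum_congr rfl fun i _ => ?_
      rw [pow_add, pow_succ]
      ring
    rw [e2]
    ring
  have hlow : ∑ j ∈ range k, (r j).toNat * (2 ^ B) ^ j < (2 ^ B) ^ k :=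
    pk_lt (B := B) (n := k) (d := fun j => (r j).toNat) fun j hj => hd2 j (by omega)
  have hmain : T / (2 ^ B) ^ k % 2 ^ B = (r k).toNat := by
    rw [hTn, hsplit, Nat.add_mul_div_left _ _ (by positivity), Nat.div_eq_of_lt hlow, zero_add,
      Nat.add_mul_mod_self_left, Nat.mod_eq_of_lt (hd2 k hk)]
  unfold dig
  rw [pow_mul, hmain, hd k hk]

private theorem getD_le {yl : List ℕ} (hy : ∀ y ∈ yl, y ≤ 1000) (i : ℕ) : yl.getD i 0 ≤ 1000 := by
  rw [List.getD_eq_getElem?_getD]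
  rcases h : yl[i]? with _ | v
  · simp
  · simpa using hy v (List.mem_of_getElem? h)

private theorem RZ_eq (P : Par) (hB1 : 3001 * 3 ^ (P.L + 1) < 2 ^ (P.B - 1))
    (hB2 : (P.L + 1) ^ 3 * (15 * 4 ^ P.L) < 2 ^ P.B) (hkx : P.kx ≤ P.L + 2)
    (yl : List ℕ) (hy : ∀ y ∈ yl, y ≤ 1000) {a t F : ℕ} (h : 2 * a + 3 * t + F ≤ P.L) :
    (P.RZ (yfun yl P.L) a t F : ℤ) =
      ∑ k ∈ range (P.kx + 1), rowV (yfun yl P.L) P.L a t F k * (2 ^ P.B) ^ k := by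
  have hB : 1 ≤ P.B := by
    by_contra hc
    have h0 : P.B = 0 := by omega
    rw [h0] at hB1
    have : 1 ≤ 3 ^ (P.L + 1) := Nat.one_le_pow _ _ (by norm_num)
    simp only [Nat.zero_sub, pow_zero] at hB1
    omega
  have hV := (VV_digits P hB1 hkx h).2
  have hrow := rowZ_spec P.B P.kx (yfun yl P.L (P.L - (2 * a + 3 * t + F))) hB (getD_le hy _)
    (fun j => (eP F a t).coeff j) (by simp only [eP_coeff_zero]; norm_num)
    (fun j _ => by
      have h1 := eP_coeff_le h j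
      have h2 : (3001 * 3 ^ (P.L + 1) : ℤ) < 2 ^ (P.B - 1) := by exact_mod_cast hB1
      calc 3001 * |(eP F a t).coeff j| ≤ 3001 * 3 ^ (P.L + 1) := by
            apply mul_le_mul_of_nonneg_left h1; norm_num
        _ < _ := h2)
    (VV P.X P.OO F a t % P.mk') hV
    (WA P.L a t (P.L - (2 * a + 3 * t + F))) (WE P.L a t (P.L - (2 * a + 3 * t + F)))
    (fun i => WE_coeff_le _ _ _ _ _)
    (fun k _ => by
      refine lt_of_le_of_lt (row_sum_le h k) ?_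
      have h2 : (((P.L + 1) ^ 3 * (15 * 4 ^ P.L) : ℕ) : ℤ) < ((2 ^ P.B : ℕ) : ℤ) := by
        exact_mod_cast hB2
      have h3 : (15 * 4 ^ P.L : ℕ) ≤ (P.L + 1) ^ 3 * (15 * 4 ^ P.L) :=
        Nat.le_mul_of_pos_left _ (by positivity)
      have h4 : ((15 * 4 ^ P.L : ℕ) : ℤ) ≤ (((P.L + 1) ^ 3 * (15 * 4 ^ P.L) : ℕ) : ℤ) := by
        exact_mod_cast h3
      have h5 := lt_of_le_of_lt h4 h2
      push_cast at h5
      exact h5)
  unfold Par.RZ
  have e1 : P.X = 2 ^ P.B := rfl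
  have e2 : P.O = 2 ^ (P.B - 1) := rfl
  have e3 : P.ones = ((2 ^ P.B) ^ (P.kx + 1) - 1) / (2 ^ P.B - 1) := rfl
  have e4 : P.mk' = (2 ^ P.B) ^ (P.kx + 1) := rfl
  have e5 : P.mk1 = (2 ^ P.B) ^ (P.kx + 1) / 2 ^ P.B := rfl
  have e6 : P.M2 = (2 ^ P.B) ^ (P.kx + 1) * (2 ^ P.B * 4) := rfl
  rw [e4] at hrow
  rw [e2, e3, e4, e5, e6]
  simp only [e1] at hrow ⊢
  rw [hrow]
  refine sum_congr rfl fun k _ => ?_
  congr 1
  unfold rowV
  by_cases hc : Crit F a t (yfun yl P.L (P.L - (2 * a + 3 * t + F))) k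
  · rw [if_pos hc]
    exact if_pos hc
  · rw [if_neg hc]
    exact if_neg hc

theorem total_eq (P : Par) (hL : 3 ≤ P.L) (hB1 : 3001 * 3 ^ (P.L + 1) < 2 ^ (P.B - 1))
    (hB2 : (P.L + 1) ^ 3 * (15 * 4 ^ P.L) < 2 ^ P.B) (hkx : P.kx ≤ P.L + 2) (nb b1 : ℕ)
    (hb : b1 < nb) (yl : List ℕ) (hyl : yl.length = P.L + 1) (hy : ∀ y ∈ yl, y ≤ 1000) :
    (total P.L P.kx P.B nb b1 yl : ℤ) =
      ∑ k ∈ range (P.kx + 1), RS (yfun yl P.L) P.L (nb - 1 - b1) nb k * (2 ^ P.B) ^ k := by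
  rw [total_spec P hL nb b1 hb yl hyl fun F a t h => (VV_digits P hB1 hkx h).1]
  unfold RS
  push_cast
  simp only [Finset.sum_mul]
  rw [Finset.sum_comm (s := range (P.kx + 1))]
  refine sum_congr rfl fun a _ => ?_
  rw [Finset.sum_comm (s := range (P.kx + 1))]
  refine sum_congr rfl fun t _ => ?_
  rw [Finset.sum_comm (s := range (P.kx + 1))]
  refine sum_congr rfl fun F _ => ?_
  by_cases h : 2 * a + 3 * t + F ≤ P.L
  · simp only [if_pos h]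
    exact RZ_eq P hB1 hB2 hkx yl hy h
  · simp only [if_neg h, zero_mul, sum_const_zero]

theorem dig_total (P : Par) (hL : 3 ≤ P.L) (hB1 : 3001 * 3 ^ (P.L + 1) < 2 ^ (P.B - 1))
    (hB2 : (P.L + 1) ^ 3 * (15 * 4 ^ P.L) < 2 ^ P.B) (hkx : P.kx ≤ P.L + 2) (nb b1 : ℕ)
    (hb : b1 < nb) (yl : List ℕ) (hyl : yl.length = P.L + 1) (hy : ∀ y ∈ yl, y ≤ 1000)
    (k : ℕ) (hk : k ≤ P.kx) :
    RS (yfun yl P.L) P.L (nb - 1 - b1) nb k = (dig P.B (total P.L P.kx P.B nb b1 yl) k : ℤ) := by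
  refine dig_of_digits P.B P.kx (total P.L P.kx P.B nb b1 yl)
    (fun k => RS (yfun yl P.L) P.L (nb - 1 - b1) nb k) (fun j _ => ?_)
    (total_eq P hL hB1 hB2 hkx nb b1 hb yl hyl hy) k hk
  obtain ⟨h1, h2⟩ := RS_bounds (yfun yl P.L) P.L (nb - 1 - b1) nb j
  refine ⟨h1, lt_of_le_of_lt h2 ?_⟩
  exact_mod_cast hB2

/-- admissible lists of `y`-values (checked by the kernel). -/
def yCheck (L : ℕ) (yl : List ℕ) : Bool :=
  yl.length == L + 1 && (List.range (L + 1)).all (fun m =>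
    decide (yl.getD (L - m) 0 ≤ 1000) && decide (m * (yl.getD (L - m) 0) ^ 4 ≤ 4 * 1000 ^ 4))

theorem YOK_of_yCheck {L : ℕ} {yl : List ℕ} (h : yCheck L yl = true) :
    yl.length = L + 1 ∧ (∀ y ∈ yl, y ≤ 1000) ∧ YOK (yfun yl L) L := by
  unfold yCheck at h
  rw [Bool.and_eq_true, beq_iff_eq, List.all_eq_true] at h
  obtain ⟨hlen, hall⟩ := h
  have hall' : ∀ m ≤ L, yl.getD (L - m) 0 ≤ 1000 ∧ m * (yl.getD (L - m) 0) ^ 4 ≤ 4 * 1000 ^ 4 := by
    intro m hm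
    have := hall m (List.mem_range.2 (by omega))
    rw [Bool.and_eq_true, decide_eq_true_eq, decide_eq_true_eq] at this
    exact this
  refine ⟨hlen, fun y hy => ?_, fun m hm => hall' m hm⟩
  obtain ⟨i, hi, rfl⟩ := List.mem_iff_getElem.1 hy
  have := (hall' (L - i) (by omega)).1
  have e : L - (L - i) = i := by omega
  rw [e, List.getD_eq_getElem _ _ hi] at this
  exact this

/-- the final form: one chunk. -/
theorem level_one (P : Par) (hL : 3 ≤ P.L) (hB1 : 3001 * 3 ^ (P.L + 1) < 2 ^ (P.B - 1))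
    (hB2 : (P.L + 1) ^ 3 * (15 * 4 ^ P.L) < 2 ^ P.B) (hkx : P.kx ≤ P.L + 2) (yl : List ℕ)
    (hyl : yCheck P.L yl = true) (tot : ℕ)
    (h : total P.L P.kx P.B (P.L / 2 + 1) (P.L / 2) yl = tot) (k : ℕ) (hk : k ≤ P.kx) :
    ∑ m ∈ range (P.L + 1), ∑ τ ∈ evs m, PhiT (yfun yl P.L) P.L τ k = (dig P.B tot k : ℤ) := by
  obtain ⟨hlen, hy, _⟩ := YOK_of_yCheck hyl
  have h1 := dig_total P hL hB1 hB2 hkx (P.L / 2 + 1) (P.L / 2) (by omega) yl hlen hy k hk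
  rw [h] at h1
  have e : P.L / 2 + 1 - 1 - P.L / 2 = 0 := by omega
  rw [e] at h1
  rw [sum_types_eq_rows (yfun yl P.L) P.L (P.L / 2 + 1) k (by omega), h1]

end Pool.MP322P
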