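import Pool.Agent.Lib.MP_322c5f_alP.PK06

/-! Level tables computed in several chunks. -/

set_option autoImplicit false

open Finset Polynomial

namespace Pool.MP322P

/-- the number `T` packs the sums of the rows with `lo ≤ a' < hi`. -/
def ChunkOK (L kx B : ℕ) (yl : List ℕ) (lo hi T : ℕ) : Prop :=
  (T : ℤ) = ∑ k ∈ range (kx + 1), RS (yfun yl L) L lo hi k * (2 ^ B) ^ k

theorem chunk_one {L kx B : ℕ} (hL : 3 ≤ L) (hB1 : 3001 * 3 ^ (L + 1) < 2 ^ (B - 1))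
    (hB2 : (L + 1) ^ 3 * (15 * 4 ^ L) < 2 ^ B) (hkx : kx ≤ L + 2) {yl : List ℕ}
    (hyl : yCheck L yl = true) {lo hi b1 T : ℕ} (hb : lo + b1 + 1 = hi)
    (h : total L kx B hi b1 yl = T) : ChunkOK L kx B yl lo hi T := by
  obtain ⟨h1, h2, h3⟩ := YOK_of_yCheck hyl
  have := total_eq ⟨L, kx, B⟩ hL hB1 hB2 hkx hi b1 (by omega) yl h1 h2
  unfold ChunkOK
  rw [← h]
  have e : hi - 1 - b1 = lo := by omega
  rw [e] at this
  exact this

theorem chunk_add {L kx B : ℕ} {yl : List ℕ} {lo mid hi T1 T2 : ℕ} (h1 : lo ≤ mid)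
    (h2 : mid ≤ hi) (c1 : ChunkOK L kx B yl lo mid T1) (c2 : ChunkOK L kx B yl mid hi T2) :
    ChunkOK L kx B yl lo hi (T1 + T2) := by
  unfold ChunkOK at *
  push_cast
  rw [c1, c2, ← Finset.sum_add_distrib]
  refine Finset.sum_congr rfl fun k _ => ?_
  rw [RS_add _ _ _ h1 h2]
  ring

theorem chunk_level {L kx B : ℕ} {yl : List ℕ} {hi T : ℕ}
    (hB2 : (L + 1) ^ 3 * (15 * 4 ^ L) < 2 ^ B) (hhi : L < 2 * hi)
    (c : ChunkOK L kx B yl 0 hi T) (k : ℕ) (hk : k ≤ kx) :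
    ∑ m ∈ range (L + 1), ∑ τ ∈ evs m, PhiT (yfun yl L) L τ k = (dig B T k : ℤ) := by
  rw [sum_types_eq_rows (yfun yl L) L hi k hhi]
  refine dig_of_digits B kx T (fun k => RS (yfun yl L) L 0 hi k) (fun j _ => ?_) c k hk
  obtain ⟨h1, h2⟩ := RS_bounds (yfun yl L) L 0 hi j
  refine ⟨h1, lt_of_le_of_lt h2 ?_⟩
  exact_mod_cast hB2

end Pool.MP322P
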