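import Pool.Agent.Lib.MP_322c5f_alP.PK00

/-! The level table `L = 100`: parameters. -/

set_option autoImplicit false

namespace Pool.MP322P

/-- `y`-values for `L = 100`. -/
def yl100 : List ℕ := [447, 448, 449, 450, 451, 452, 454, 455, 456, 457, 459, 460, 461, 463, 464, 465, 467, 468, 469, 471, 472, 474, 475, 477, 478, 480, 482, 483, 485, 487, 488, 490, 492, 494, 496, 498, 500, 501, 503, 506, 508, 510, 512, 514, 516, 519, 521, 524, 526, 529, 531, 534, 537, 540, 543, 546, 549, 552, 555, 558, 562, 565, 569, 573, 577, 581, 585, 590, 594, 599, 604, 609, 614, 620, 626, 632, 638, 645, 652, 660, 668, 677, 686, 696, 707, 718, 731, 744, 759, 776, 795, 816, 840, 869, 903, 945, 1000, 1000, 1000, 1000, 1000]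

end Pool.MP322P
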