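import Pool.Agent.Lib.MP_322c5f_alP.PK00

/-!
# Kernel algorithms for the passage from the levels to `n`

* `binRow`, `hRow` : the numbers `max_k ⌈S C(N,k-J)/Δ(n,k)⌉`;
* `oldChk` : check of the contribution of the old classes;
* `newLoop` : the polynomials `H_n` of the new classes and their check for all `n` in a block.
-/

set_option autoImplicit false

namespace Pool.MP322P

/-- `max`. -/
noncomputable def mxN (a b : ℕ) : ℕ := cond (Nat.ble a b) b a

/-- `rv = [C(N,k), ..., C(N,0)]`, `M` shorter by one: pointwise maximum of `⌊S c / D⌋ + 1`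
(`0` if `c = 0`) and `M`. -/
noncomputable def zipM (S D : ℕ) (rv : List ℕ) : List ℕ → List ℕ :=
  List.rec (motive := fun _ => List ℕ → List ℕ) (fun M => M)
    (fun c _ ih M =>
      fz (cond (Nat.beq c 0) 0 (Nat.add (Nat.div (Nat.mul S c) D) 1)) fun x =>
      List.rec (motive := fun _ => List ℕ) (List.cons x (ih []))
        (fun m M' _ => fz (mxN x m) fun y => List.cons y (ih M')) M) rv

/-- loop over `k` (`cnt` steps, starting with `k`): `b = C(N,k)`, `c1 = C(n,k-1)`, `c = C(n,k)`,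
`rv = [C(N,k-1), ..., C(N,0)]`; the rows with `K ≤ k` are used. -/
noncomputable def hLoop (S K N n : ℕ) (cnt : ℕ) :
    ℕ → ℕ → ℕ → ℕ → List ℕ → List ℕ → List ℕ :=
  Nat.rec (motive := fun _ => ℕ → ℕ → ℕ → ℕ → List ℕ → List ℕ → List ℕ) (fun _ _ _ _ _ M => M)
    (fun _ ih k b c1 c rv M =>
      fz (Nat.add k 1) fun k' =>
      fz (Nat.div (Nat.mul b (Nat.sub N k)) k') fun b' =>
      fz (Nat.div (Nat.mul c (Nat.sub n k)) k') fun c' =>
      (fun rv' => ih k' b' c c' rv'
        (cond (Nat.ble K k) (zipM S (Nat.sub c c1) rv' M) (List.cons 0 M))) (List.cons b rv)) cnt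

/-- `[h_0, ..., h_{k0-1}]` with `h_J ≥ S C(n-L, k-J) / Δ(n,k)` for all `K ≤ k < k0`, `J ≤ k`. -/
noncomputable def hList (S K k0 L n : ℕ) : List ℕ :=
  fz (Nat.sub n L) fun N => hLoop S K N n k0 0 1 0 1 [] []

/-- `∑_J h_J D_J 2^(-J)`, computed as `acc = 2 acc' + ...` from the end:
`foldr`: value `v` with `v / 2^(len)`; here `h_0 D_0 2^len + h_1 D_1 2^(len-1) + ...`. `T` : packed
digits `D_J` (base `2^B`). Result: `∑ h_J D_J 2^(len - J)`. -/
noncomputable def dotD (B : ℕ) (h : List ℕ) : ℕ → ℕ → ℕ → ℕ :=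
  List.rec (motive := fun _ => ℕ → ℕ → ℕ → ℕ) (fun _ _ acc => acc)
    (fun x _ ih T len acc =>
      fz (Nat.add acc (Nat.mul (Nat.mul x (Nat.mod T (Nat.pow 2 B))) (Nat.pow 2 len))) fun acc' =>
      fz (Nat.div T (Nat.pow 2 B)) fun T' => fz (Nat.sub len 1) fun len' => ih T' len' acc') h

/-- check: `∑_J h_J D_J / 2^J ≤ x / 10^4`, i.e. `10^4 ∑ h_J D_J 2^(k0-J) ≤ x S 2^k0`. -/
noncomputable def oldChk (S K k0 L n B T x : ℕ) : Bool :=
  Nat.ble (Nat.mul 10000 (dotD B (hList S K k0 L n) T k0 0)) (Nat.mul (Nat.mul x S) (Nat.pow 2 k0))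

/-- table of the partitions with parts `2, ..., n+1`, weights `1 + X^c` (ascending). -/
noncomputable def partsG (X L : ℕ) (n : ℕ) : List Q4 :=
  Nat.rec (motive := fun _ => List Q4) (baseA L)
    (fun i r => revQ (goQ (Nat.add i 1000000) (Nat.add 1 (Nat.pow X (Nat.add i 2))) 0
      (Nat.beq (Nat.mod i 2) 0) r [] (zeros (Nat.add i 2)) []) []) n

/-- `∑_{K ≤ k < k0} (⌊S H_k / Δ(n,k)⌋ + 1)`; arguments: `k`, `c1 = C(n,k-1)`, `c = C(n,k)`,
`V = H / X^k`. -/
noncomputable def sLoop (S X K n : ℕ) (cnt : ℕ) : ℕ → ℕ → ℕ → ℕ → ℕ → ℕ :=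
  Nat.rec (motive := fun _ => ℕ → ℕ → ℕ → ℕ → ℕ → ℕ) (fun _ _ _ _ acc => acc)
    (fun _ ih k c1 c V acc =>
      fz (Nat.add k 1) fun k' =>
      fz (Nat.div (Nat.mul c (Nat.sub n k)) k') fun c' =>
      fz (Nat.div V X) fun V' =>
      fz (cond (Nat.ble K k)
        (Nat.add acc (Nat.add (Nat.div (Nat.mul S (Nat.mod V X)) (Nat.sub c c1)) 1)) acc) fun acc' =>
      ih k' c c' V' acc') cnt

/-- a request: `rst = true` : the level is `n` (no new classes), else check that the new classes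
contribute at most `x / 10^4` for the depths `K ≤ k < k0`. -/
structure Rq where
  rst : Bool
  K : ℕ
  k0 : ℕ
  x : ℕ

/-- loop over `n`; `l` : entries `G_n, G_{n+1}, ...`; `H` : `Hp A (n-1)`; the requests are for
`n, n+1, ...`. Returns `true` if all the checks are fine. -/
noncomputable def newLoop (S X : ℕ) (rq : List Rq) : List Q4 → ℕ → ℕ → Bool :=
  List.rec (motive := fun _ => List Q4 → ℕ → ℕ → Bool) (fun _ _ _ => true)
    (fun q _ ih l n H =>
      List.rec (motive := fun _ => Bool) false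
        (fun g l' _ => fz (Nat.add n 1) fun n' =>
          fz (cond q.rst 0 (Nat.mul (Nat.add 1 X) (Nat.add H g.a0))) fun H' =>
          (fun b => and b (ih l' n' H'))
            (Nat.ble (Nat.mul 10000 (sLoop S X q.K n (cond q.rst 0 q.k0) 0 0 1 H' 0))
              (Nat.mul q.x S))) l) rq

/-- all the requests, the first one for `n = n1`. -/
noncomputable def newChk (S B L n1 : ℕ) (rq : List Rq) : Bool :=
  fz (Nat.pow 2 B) fun X => newLoop S X rq (drp n1 (partsG X L (Nat.sub L 1))) n1 0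

end Pool.MP322P
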