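import Pool.Agent.Lib.MP_322c5f_alP.PA03
import Pool.Agent.Lib.MP_322c5f_alP.PA04

/-! job 322P-N1: the new classes: `PSIp` from the sum of the absolute weights, and the polynomials
`Hp`. -/

set_option autoImplicit false

open Finset Polynomial Equiv

namespace Pool.MP322P

open Pool.MP322

/-- `Phi τ = ∑_{K ≤ k < k0} NA n τ k / Del n k`. -/
theorem PSIp_of_NA {n K k0 A B : ℕ} (hK : 1 ≤ K) (hk0 : 2 * k0 ≤ n + 2) {x : ℝ}
    (hx : ∑ k ∈ Ico K k0, (∑ m ∈ Ioc A B, ∑ τ ∈ evs m, (NA n τ k : ℝ)) / Del n k ≤ x) :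
    PSIp n K k0 A B x := by
  have hD : ∀ k ∈ Ico K k0, 0 < Del n k := by
    intro k hk
    rw [mem_Ico] at hk
    exact Del_pos (by omega) (by omega)
  refine ⟨fun τ => ∑ k ∈ Ico K k0, (NA n τ k : ℝ) / Del n k, ?_, ?_, ?_⟩
  · intro τ
    exact sum_nonneg fun k hk => div_nonneg (Nat.cast_nonneg _) (hD k hk).le
  · intro k nu g hk1 hk2 _ _ _ _
    have hmem : k + 1 ∈ Ico K k0 := mem_Ico.mpr ⟨hk1, hk2⟩
    have h1 := Psi_le_NA nu g
    have h2 : (NA n g.cycleType (k + 1) : ℝ) / Del n (k + 1) ≤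
        ∑ k ∈ Ico K k0, (NA n g.cycleType k : ℝ) / Del n k :=
      single_le_sum (f := fun k => (NA n g.cycleType k : ℝ) / Del n k)
        (fun k hk => div_nonneg (Nat.cast_nonneg _) (hD k hk).le) hmem
    have h3 : 0 ≤ fd nu := (fd_pos nu).le
    calc -(Psi nu g) ≤ (NA n g.cycleType (k + 1) : ℝ) * fd nu := h1
      _ = ((NA n g.cycleType (k + 1) : ℝ) / Del n (k + 1)) * (Del n (k + 1) * fd nu) := by
          have := (hD _ hmem).ne'
          field_simp
      _ ≤ _ := mul_le_mul_of_nonneg_right h2 (mul_nonneg (hD _ hmem).le h3)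
  · refine (sum_typesE_le _ fun τ =>
      sum_nonneg fun k hk => div_nonneg (Nat.cast_nonneg _) (hD k hk).le).trans ?_
    refine le_trans (le_of_eq ?_) hx
    calc ∑ m ∈ Ioc A B, ∑ τ ∈ evs m, ∑ k ∈ Ico K k0, (NA n τ k : ℝ) / Del n k
        = ∑ m ∈ Ioc A B, ∑ k ∈ Ico K k0, ∑ τ ∈ evs m, (NA n τ k : ℝ) / Del n k :=
          sum_congr rfl fun m _ => sum_comm
      _ = ∑ k ∈ Ico K k0, ∑ m ∈ Ioc A B, ∑ τ ∈ evs m, (NA n τ k : ℝ) / Del n k := sum_comm
      _ = _ := by
          refine sum_congr rfl fun k _ => ?_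
          rw [sum_div]
          exact sum_congr rfl fun m _ => (sum_div _ _ _).symm

/-- generating polynomial of the even types with `m` moved points. -/
noncomputable def Gp (m : ℕ) : ℕ[X] := WS 2 m m false (fun c => 1 + X ^ c)

/-- the new classes of `S_n` (more than `A` moved points). -/
noncomputable def Hp (A n : ℕ) : ℕ[X] := ∑ m ∈ Ioc A n, (1 + X) ^ (n - m + 1) * Gp m

theorem Hp_self (A : ℕ) : Hp A A = 0 := by
  simp [Hp]

theorem Hp_succ {A n : ℕ} (h : A ≤ n) : Hp A (n + 1) = (1 + X) * (Hp A n + Gp (n + 1)) := by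
  unfold Hp
  have hI : Ioc A (n + 1) = insert (n + 1) (Ioc A n) := by
    ext m
    simp only [mem_Ioc, mem_insert]
    omega
  rw [hI, sum_insert (by simp)]
  have h1 : ∑ m ∈ Ioc A n, (1 + X : ℕ[X]) ^ (n + 1 - m + 1) * Gp m =
      (1 + X) * ∑ m ∈ Ioc A n, (1 + X) ^ (n - m + 1) * Gp m := by
    rw [mul_sum]
    refine sum_congr rfl fun m hm => ?_
    rw [mem_Ioc] at hm
    rw [show n + 1 - m + 1 = (n - m + 1) + 1 by omega, pow_succ]
    ring
  rw [h1, Nat.sub_self, zero_add, pow_one]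
  ring

theorem coeff_Hp (A n k : ℕ) :
    (Hp A n).coeff k = ∑ m ∈ Ioc A n, ∑ τ ∈ evs m, NA n τ k := by
  unfold Hp
  rw [finsetSum_coeff]
  refine sum_congr rfl fun m _ => ?_
  unfold Gp WS
  rw [mul_sum, finsetSum_coeff]
  refine sum_congr rfl fun τ hτ => ?_
  have h1 : τ.sum = m := (mem_evs.mp hτ).1
  unfold NA
  rw [h1]

private theorem ws_bound (N : ℕ) (hN : 2 ≤ N) : ∀ (r : ℕ) (p : Bool),
    WS 2 N r p (fun _ => (2 : ℕ)) * 2 ^ N + 8 * 2 ^ r ≤ 4 * 2 ^ N * 2 ^ r := by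
  induction N, hN using Nat.le_induction with
  | base =>
    intro r
    induction r using Nat.strong_induction_on with
    | _ r ih =>
      intro p
      have h1 : WS 2 2 r p (fun _ => (2 : ℕ)) = WS 2 1 r p (fun _ => (2 : ℕ)) +
          if 2 ≤ r then 2 * WS 2 2 (r - 2) (xor p (decide (1 % 2 = 1))) (fun _ => (2 : ℕ))
          else 0 := WS_succ (lo := 2) (N := 1) (by norm_num) (by norm_num) p _
      have h2 : WS 2 1 r p (fun _ => (2 : ℕ)) ≤ 1 := by
        rw [WS_base (by norm_num) (by norm_num)]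
        split <;> simp
      rw [h1]
      by_cases hr : 2 ≤ r
      · rw [if_pos hr]
        have h3 := ih (r - 2) (by omega) (xor p (decide (1 % 2 = 1)))
        have h4 : (2 : ℕ) ^ r = 4 * 2 ^ (r - 2) := by
          obtain ⟨s, rfl⟩ := Nat.exists_eq_add_of_le hr
          rw [Nat.add_sub_cancel_left, pow_add]
          norm_num
        have h5 : WS 2 1 r p (fun _ => (2 : ℕ)) = 0 := by
          rw [WS_base (by norm_num) (by norm_num), if_neg]
          rintro ⟨h, _⟩
          omega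
        rw [h5, h4]
        norm_num at h3 ⊢
        have h6 : 1 ≤ 2 ^ (r - 2) := Nat.one_le_two_pow
        omega
      · rw [if_neg hr]
        have h6 : 1 ≤ 2 ^ r := Nat.one_le_two_pow
        norm_num
        omega
  | succ N hN ihN =>
    intro r
    induction r using Nat.strong_induction_on with
    | _ r ih =>
      intro p
      have h1 := WS_succ (lo := 2) (N := N) (r := r) (by norm_num) (by omega) p
        (fun _ => (2 : ℕ))
      have h2 := ihN r p
      rw [h1]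
      by_cases hr : N + 1 ≤ r
      · rw [if_pos hr]
        have h3 := ih (r - (N + 1)) (by omega) (xor p (decide (N % 2 = 1)))
        obtain ⟨s, rfl⟩ := Nat.exists_eq_add_of_le hr
        rw [Nat.add_sub_cancel_left] at h3 ⊢
        generalize WS 2 (N + 1) s (xor p (decide (N % 2 = 1))) (fun _ => (2 : ℕ)) = W' at *
        generalize WS 2 N (N + 1 + s) p (fun _ => (2 : ℕ)) = W at *
        rw [pow_succ] at h3 ⊢
        have h4 : (2 : ℕ) ^ (N + 1 + s) = 2 ^ N * 2 * 2 ^ s := by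
          rw [pow_add, pow_succ]
        rw [h4] at h2 ⊢
        generalize (2 : ℕ) ^ N = a at *
        generalize (2 : ℕ) ^ s = b at *
        nlinarith
      · rw [if_neg hr, add_zero, pow_succ]
        generalize WS 2 N r p (fun _ => (2 : ℕ)) = W at *
        generalize (2 : ℕ) ^ N = a at *
        generalize (2 : ℕ) ^ r = b at *
        nlinarith

/-- crude bound (weights `2^(-m)`: `∏_{c≥2} 1/(1 - 2^(1-c)) ≤ 4`). -/
theorem eval_Gp_one_le (m : ℕ) : (Gp m).eval 1 ≤ 4 * 2 ^ m := by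
  have h0 : (Gp m).eval 1 = WS 2 m m false (fun _ => (2 : ℕ)) := by
    unfold Gp
    have := map_WS (evalRingHom (1 : ℕ)) (lo := 2) (N := m) (r := m) false
      (fun c => (1 + X ^ c : ℕ[X]))
    rw [coe_evalRingHom] at this
    rw [this]
    congr 1
    funext c
    simp
  rw [h0]
  by_cases hm : 2 ≤ m
  · have h1 := ws_bound m hm m false
    have h2 : 1 ≤ 2 ^ m := Nat.one_le_two_pow
    have h3 : WS 2 m m false (fun _ => (2 : ℕ)) * 2 ^ m ≤ 4 * 2 ^ m * 2 ^ m := by omega
    exact Nat.le_of_mul_le_mul_right h3 h2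
  · have h2 : 1 ≤ 2 ^ m := Nat.one_le_two_pow
    rw [WS_base (by norm_num) (by omega)]
    split <;> omega

theorem coeff_Hp_le (A n k : ℕ) : (Hp A n).coeff k ≤ 8 * n * 2 ^ n := by
  have h1 : (Hp A n).coeff k ≤ (Hp A n).eval 1 := by
    rw [eval_eq_sum_range]
    simp only [one_pow, mul_one]
    by_cases hk : k ≤ (Hp A n).natDegree
    · exact single_le_sum (f := fun i => (Hp A n).coeff i) (fun i _ => Nat.zero_le _)
        (mem_range.mpr (by omega))
    · rw [coeff_eq_zero_of_natDegree_lt (by omega)]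
      exact Nat.zero_le _
  refine h1.trans ?_
  unfold Hp
  rw [eval_finsetSum]
  have h2 : ∀ m ∈ Ioc A n, ((1 + X : ℕ[X]) ^ (n - m + 1) * Gp m).eval 1 ≤ 8 * 2 ^ n := by
    intro m hm
    rw [mem_Ioc] at hm
    rw [eval_mul, eval_pow, eval_add, eval_one, eval_X]
    have h3 := eval_Gp_one_le m
    calc (1 + 1) ^ (n - m + 1) * (Gp m).eval 1 ≤ (1 + 1) ^ (n - m + 1) * (4 * 2 ^ m) :=
          Nat.mul_le_mul_left _ h3
      _ = 8 * 2 ^ n := by
          obtain ⟨s, rfl⟩ := Nat.exists_eq_add_of_le hm.2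
          rw [Nat.add_sub_cancel_left, pow_add 2 m s, pow_succ]
          ring
  refine (sum_le_sum h2).trans ?_
  rw [sum_const, Nat.card_Ioc, smul_eq_mul]
  calc (n - A) * (8 * 2 ^ n) ≤ n * (8 * 2 ^ n) := Nat.mul_le_mul_right _ (Nat.sub_le _ _)
    _ = 8 * n * 2 ^ n := by ring

end Pool.MP322P
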