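import Pool.Agent.Lib.MP_322c5f_alP.PN00
import Pool.Agent.Lib.MP_322c5f_alP.PN01
import Pool.Agent.Lib.MP_322c5f_alP.PK06

/-! job 322P-N2: the lists `hList` and the scalar product `dotD`. -/

set_option autoImplicit false

open Finset Polynomial

namespace Pool.MP322P

private theorem zipM_nil (S D : ℕ) (M : List ℕ) : zipM S D [] M = M := rfl

private theorem zipM_cons_nil (S D c : ℕ) (rv : List ℕ) :
    zipM S D (c :: rv) [] =
      (cond (Nat.beq c 0) 0 (S * c / D + 1)) :: zipM S D rv [] := by
  change fz (cond (Nat.beq c 0) 0 (Nat.add (Nat.div (Nat.mul S c) D) 1))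
    (fun x => x :: zipM S D rv []) = _
  rw [fz_eq]
  rfl

private theorem zipM_cons_cons (S D c m : ℕ) (rv M : List ℕ) :
    zipM S D (c :: rv) (m :: M) =
      mxN (cond (Nat.beq c 0) 0 (S * c / D + 1)) m :: zipM S D rv M := by
  change fz (cond (Nat.beq c 0) 0 (Nat.add (Nat.div (Nat.mul S c) D) 1))
    (fun x => fz (mxN x m) fun y => y :: zipM S D rv M) = _
  rw [fz_eq, fz_eq]
  rfl

private theorem le_mxN_left (a b : ℕ) : a ≤ mxN a b := by
  unfold mxN
  cases h : Nat.ble a b
  · exact le_refl _
  · exact Nat.le_of_ble_eq_true h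

private theorem le_mxN_right (a b : ℕ) : b ≤ mxN a b := by
  unfold mxN
  cases h : Nat.ble a b
  · have : ¬ a ≤ b := by
      intro h1
      rw [Nat.ble_eq_true_of_le h1] at h
      exact absurd h (by decide)
    simp only [cond_false]
    omega
  · exact le_refl _

private theorem zipM_length (S D : ℕ) : ∀ (rv M : List ℕ),
    (zipM S D rv M).length = max rv.length M.length
  | [], M => by simp [zipM_nil]
  | c :: rv, [] => by
    rw [zipM_cons_nil, List.length_cons, zipM_length S D rv []]
    simp
  | c :: rv, m :: M => by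
    rw [zipM_cons_cons, List.length_cons, zipM_length S D rv M]
    simp only [List.length_cons]
    omega

private theorem zipM_le_M (S D : ℕ) : ∀ (rv M : List ℕ) (J : ℕ),
    M.getD J 0 ≤ (zipM S D rv M).getD J 0
  | [], M, J => by simp [zipM_nil]
  | c :: rv, [], J => by simp
  | c :: rv, m :: M, 0 => by
    rw [zipM_cons_cons]
    simpa using le_mxN_right _ _
  | c :: rv, m :: M, J + 1 => by
    rw [zipM_cons_cons]
    simpa using zipM_le_M S D rv M J

private theorem zipM_le_rv (S D : ℕ) (hD : 0 < D) : ∀ (rv M : List ℕ) (J : ℕ),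
    S * rv.getD J 0 ≤ (zipM S D rv M).getD J 0 * D
  | [], M, J => by simp
  | c :: rv, [], 0 => by
    rw [zipM_cons_nil]
    simp only [List.getD_cons_zero]
    exact aux S D c hD
  | c :: rv, [], J + 1 => by
    rw [zipM_cons_nil]
    simpa using zipM_le_rv S D hD rv [] J
  | c :: rv, m :: M, 0 => by
    rw [zipM_cons_cons]
    simp only [List.getD_cons_zero]
    exact (aux S D c hD).trans (Nat.mul_le_mul_right _ (le_mxN_left _ _))
  | c :: rv, m :: M, J + 1 => by
    rw [zipM_cons_cons]
    simpa using zipM_le_rv S D hD rv M J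
where
  aux (S D c : ℕ) (hD : 0 < D) : S * c ≤ (cond (Nat.beq c 0) 0 (S * c / D + 1)) * D := by
    rcases Nat.eq_zero_or_pos c with h | h
    · subst h
      simp
    · have : Nat.beq c 0 = false := by
        cases c with
        | zero => omega
        | succ c => rfl
      rw [this, cond_false]
      have h1 := Nat.lt_mul_div_succ (S * c) hD
      rw [Nat.mul_comm D] at h1
      exact h1.le

private theorem hLoop_zero (S K N n k b c1 c : ℕ) (rv M : List ℕ) :
    hLoop S K N n 0 k b c1 c rv M = M := rfl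

private theorem hLoop_succ (S K N n cnt k b c1 c : ℕ) (rv M : List ℕ) :
    hLoop S K N n (cnt + 1) k b c1 c rv M =
      hLoop S K N n cnt (k + 1) (b * (N - k) / (k + 1)) c (c * (n - k) / (k + 1)) (b :: rv)
        (cond (Nat.ble K k) (zipM S (c - c1) (b :: rv) M) (0 :: M)) := by
  change fz (Nat.add k 1) (fun k' =>
      fz (Nat.div (Nat.mul b (Nat.sub N k)) k') fun b' =>
      fz (Nat.div (Nat.mul c (Nat.sub n k)) k') fun c' =>
      (fun rv' => hLoop S K N n cnt k' b' c c' rv'
        (cond (Nat.ble K k) (zipM S (Nat.sub c c1) rv' M) (List.cons 0 M))) (List.cons b rv)) = _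
  rw [fz_eq, fz_eq, fz_eq]
  rfl

private theorem hLoop_length (S K N n : ℕ) : ∀ (cnt k b c1 c : ℕ) (rv M : List ℕ),
    rv.length = k → M.length = k →
    (hLoop S K N n cnt k b c1 c rv M).length = k + cnt
  | 0, k, b, c1, c, rv, M => fun h1 h2 => by rw [hLoop_zero, h2, Nat.add_zero]
  | cnt + 1, k, b, c1, c, rv, M => fun h1 h2 => by
    rw [hLoop_succ, hLoop_length S K N n cnt (k + 1)]
    · omega
    · simp [h1]
    · cases Nat.ble K k
      · simp [h2]
      · simp [zipM_length, h1, h2]

private theorem choose_step (N k : ℕ) : N.choose k * (N - k) / (k + 1) = N.choose (k + 1) := by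
  rw [← Nat.choose_succ_right_eq]
  exact Nat.mul_div_cancel _ (Nat.succ_pos k)

private theorem hLoop_spec (S K N n : ℕ) (hK : 1 ≤ K) :
    ∀ (cnt k b c1 c : ℕ) (rv M : List ℕ),
    2 * (k + cnt) ≤ n + 2 →
    b = N.choose k → (1 ≤ k → c1 = n.choose (k - 1)) → c = n.choose k →
    (∀ J < k, rv.getD J 0 = N.choose (k - 1 - J)) →
    (∀ k', K ≤ k' → k' < k → ∀ J ≤ k', (S * (N.choose (k' - J)) : ℝ) ≤
      (M.getD J 0 : ℝ) * Del n k') →
    (∀ k', K ≤ k' → k' < k + cnt → ∀ J ≤ k', (S * (N.choose (k' - J)) : ℝ) ≤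
      ((hLoop S K N n cnt k b c1 c rv M).getD J 0 : ℝ) * Del n k')
  | 0, k, b, c1, c, rv, M => fun _ _ _ _ _ h => by
    rw [hLoop_zero]
    simpa using h
  | cnt + 1, k, b, c1, c, rv, M => fun hn hb hc1 hc hrv hM => by
    rw [hLoop_succ]
    have hrv' : ∀ J < k + 1, (b :: rv).getD J 0 = N.choose (k + 1 - 1 - J) := by
      intro J hJ
      cases J with
      | zero => simp [hb]
      | succ J =>
        rw [List.getD_cons_succ, hrv J (by omega)]
        congr 1
        omega
    have key := hLoop_spec S K N n hK cnt (k + 1) (b * (N - k) / (k + 1)) c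
      (c * (n - k) / (k + 1)) (b :: rv)
      (cond (Nat.ble K k) (zipM S (c - c1) (b :: rv) M) (0 :: M)) (by omega)
      (by rw [hb, choose_step]) (fun _ => by rw [hc, Nat.add_sub_cancel]) (by rw [hc, choose_step])
      hrv' ?_
    · intro k' h1 h2
      exact key k' h1 (by omega)
    · intro k' h1 h2 J hJ
      have hble : Nat.ble K k = true := Nat.ble_eq_true_of_le (by omega)
      rw [hble, cond_true]
      rcases Nat.lt_or_ge k' k with h3 | h3
      · refine (hM k' h1 h3 J hJ).trans ?_
        refine mul_le_mul_of_nonneg_right ?_ (Del_pos (by omega) (by omega)).le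
        exact_mod_cast zipM_le_M S (c - c1) (b :: rv) M J
      · have h4 : k' = k := by omega
        subst h4
        have hDp : 0 < Del n k' := Del_pos (by omega) (by omega)
        have hDe : Del n k' = ((c - c1 : ℕ) : ℝ) := by
          unfold Del at hDp ⊢
          rw [hc, hc1 (by omega)]
          rw [Nat.cast_sub]
          have : ((n.choose (k' - 1) : ℕ) : ℝ) < (n.choose k' : ℕ) := by linarith
          exact_mod_cast this.le
        rw [hDe] at hDp ⊢
        have h5 : 0 < c - c1 := by exact_mod_cast hDp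
        have h6 := zipM_le_rv S (c - c1) h5 (b :: rv) M J
        rw [hrv' J (by omega), Nat.add_sub_cancel] at h6
        exact_mod_cast h6

private theorem hList_eq (S K k0 L n : ℕ) :
    hList S K k0 L n = hLoop S K (n - L) n k0 0 1 0 1 [] [] := by
  unfold hList
  rw [fz_eq]
  rfl

/-- entries of `hList`. -/
theorem hList_spec (S K k0 L n : ℕ) (hL : L ≤ n) (hK : 1 ≤ K) (hk0 : 2 * k0 ≤ n + 2)
    (k J : ℕ) (h1 : K ≤ k) (h2 : k < k0) (h3 : J ≤ k) :
    (S * ((n - L).choose (k - J) : ℝ)) ≤ ((hList S K k0 L n).getD J 0 : ℝ) * Del n k := by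
  rw [hList_eq]
  exact hLoop_spec S K (n - L) n hK k0 0 1 0 1 [] [] (by omega) (by simp) (by omega) (by simp)
    (by omega) (by omega) k h1 (by omega) J h3

theorem hList_length (S K k0 L n : ℕ) : (hList S K k0 L n).length = k0 := by
  rw [hList_eq, hLoop_length S K (n - L) n k0 0 1 0 1 [] [] rfl rfl, Nat.zero_add]

private theorem dotD_cons (B x : ℕ) (h : List ℕ) (T len acc : ℕ) :
    dotD B (x :: h) T len acc =
      dotD B h (T / 2 ^ B) (len - 1) (acc + x * (T % 2 ^ B) * 2 ^ len) := by
  change fz (Nat.add acc (Nat.mul (Nat.mul x (Nat.mod T (Nat.pow 2 B))) (Nat.pow 2 len)))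
      (fun acc' => fz (Nat.div T (Nat.pow 2 B)) fun T' => fz (Nat.sub len 1) fun len' =>
        dotD B h T' len' acc') = _
  rw [fz_eq, fz_eq, fz_eq]
  rfl

private theorem dig_zero (B T : ℕ) : dig B T 0 = T % 2 ^ B := by
  unfold dig
  simp

private theorem dig_succ (B T J : ℕ) : dig B T (J + 1) = dig B (T / 2 ^ B) J := by
  unfold dig
  rw [Nat.div_div_eq_div_mul, ← pow_add]
  congr 3
  ring

theorem dotD_spec (B : ℕ) (h : List ℕ) (T len acc : ℕ) (hlen : h.length ≤ len) :
    dotD B h T len acc =
      acc + ∑ J ∈ range h.length, h.getD J 0 * dig B T J * 2 ^ (len - J) := by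
  induction h generalizing T len acc with
  | nil =>
    simp only [List.length_nil, range_zero, sum_empty, add_zero]
    rfl
  | cons x h ih =>
    rw [dotD_cons, ih _ _ _ (by simp only [List.length_cons] at hlen; omega), List.length_cons,
      sum_range_succ']
    simp only [List.getD_cons_succ, List.getD_cons_zero, Nat.sub_zero, dig_zero, dig_succ]
    rw [add_assoc, add_comm (x * (T % 2 ^ B) * 2 ^ len)]
    congr 2
    refine sum_congr rfl fun J _ => ?_
    congr 2
    omega

end Pool.MP322P
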