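import Pool.Agent.Lib.MP_322c5f_alP.PN02
import Pool.Agent.Lib.MP_322c5f_alP.PB05

/-! job 322P-N2b: correctness of the check `oldChk` for the old classes. -/

set_option autoImplicit false

open Finset Polynomial

namespace Pool.MP322P

private theorem PhiT_nonneg (yl : ℕ → ℕ) (L : ℕ) (τ : Multiset ℕ) (k : ℕ) :
    0 ≤ PhiT yl L τ k := by
  unfold PhiT
  refine PhiC_nonneg _ _ _ _ ?_ _ _
  intro c hc
  unfold rho at hc
  exact (Multiset.mem_filter.mp hc).2

/-- the old classes, for one `n`. -/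
theorem PSIp_of_oldChk {L n K k0 B S T x kx : ℕ} {yl : ℕ → ℕ} (hyl : YOK yl L)
    (hT : ∀ k ≤ kx, ∑ m ∈ range (L + 1), ∑ τ ∈ evs m, PhiT yl L τ k = (dig B T k : ℤ))
    (hS : 0 < S) (hL : L ≤ n) (hK : 1 ≤ K) (hk0 : 2 * k0 ≤ n + 2) (hkx : k0 ≤ kx + 1)
    (h : oldChk S K k0 L n B T x = true) : PSIp n K k0 0 L (x / 10000) := by
  have hSr : (0 : ℝ) < (S : ℝ) := by exact_mod_cast hS
  have hchk : 10000 * dotD B (hList S K k0 L n) T k0 0 ≤ x * S * 2 ^ k0 :=
    Nat.le_of_ble_eq_true h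
  have hdot := dotD_spec B (hList S K k0 L n) T k0 0 (hList_length S K k0 L n).le
  rw [hList_length, zero_add] at hdot
  rw [hdot] at hchk
  have hchkR : (10000 : ℝ) * ∑ J ∈ range k0,
      ((hList S K k0 L n).getD J 0 : ℝ) * (dig B T J : ℝ) * 2 ^ (k0 - J) ≤
      (x : ℝ) * S * 2 ^ k0 := by
    exact_mod_cast hchk
  refine PSIp_of_level (LevelW_PhiT L yl hyl) ?_ hL le_rfl (fun _ _ _ => trivial) hK hk0
    (fun J => ((hList S K k0 L n).getD J 0 : ℝ) / S) ?_ ?_ ?_
  · intro τ J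
    exact div_nonneg (by exact_mod_cast PhiT_nonneg yl L τ J) (by positivity)
  · intro J
    positivity
  · intro k h1 h2 J hJ
    have h3 := hList_spec S K k0 L n hL hK hk0 k J h1 h2 hJ
    rw [div_mul_eq_mul_div, le_div_iff₀ hSr, mul_comm]
    exact h3
  · have h2k : (0 : ℝ) < 2 ^ k0 := by positivity
    have step : ∀ J ∈ range k0, ((hList S K k0 L n).getD J 0 : ℝ) / S *
        (∑ m ∈ Ioc 0 L, ∑ τ ∈ evs m, (PhiT yl L τ J : ℝ) / 2 ^ J) ≤
        ((hList S K k0 L n).getD J 0 : ℝ) * (dig B T J : ℝ) * 2 ^ (k0 - J) /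
          (S * 2 ^ k0) := by
      intro J hJ
      rw [mem_range] at hJ
      have h4 : ∑ m ∈ Ioc 0 L, ∑ τ ∈ evs m, (PhiT yl L τ J : ℝ) / 2 ^ J ≤
          (dig B T J : ℝ) / 2 ^ J := by
        have h5 : (∑ m ∈ range (L + 1), ∑ τ ∈ evs m, (PhiT yl L τ J : ℝ)) =
            (dig B T J : ℝ) := by
          exact_mod_cast hT J (by omega)
        rw [← h5, sum_div]
        have h6 : ∀ m, ∑ τ ∈ evs m, (PhiT yl L τ J : ℝ) / 2 ^ J =
            (∑ τ ∈ evs m, (PhiT yl L τ J : ℝ)) / 2 ^ J := fun m => (sum_div _ _ _).symm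
        rw [sum_congr rfl fun m _ => h6 m]
        refine sum_le_sum_of_subset_of_nonneg ?_ ?_
        · intro m hm
          rw [mem_Ioc] at hm
          rw [mem_range]
          omega
        · intro m _ _
          exact div_nonneg (sum_nonneg fun τ _ => by exact_mod_cast PhiT_nonneg yl L τ J)
            (by positivity)
      have h7 : (0 : ℝ) ≤ ((hList S K k0 L n).getD J 0 : ℝ) / S := by positivity
      refine (mul_le_mul_of_nonneg_left h4 h7).trans (le_of_eq ?_)
      have h8 : (2 : ℝ) ^ k0 = 2 ^ (k0 - J) * 2 ^ J := by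
        rw [← pow_add]
        congr 1
        omega
      rw [h8]
      field_simp
    refine (sum_le_sum step).trans ?_
    rw [← sum_div, div_le_div_iff₀ (by positivity) (by norm_num)]
    linarith

end Pool.MP322P
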