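import Pool.Agent.Lib.MP_322c5f_alP.PN00
import Pool.Agent.Lib.MP_322c5f_alP.PN01
import Pool.Agent.Lib.MP_322c5f_alP.PK01b

/-! job 322P-N3: the table `partsG` and the sum `sLoop`. -/

set_option autoImplicit false

open Finset Polynomial

namespace Pool.MP322P

private theorem isT_iff' (wa we : ℕ → Bool → ℕ) : ∀ (n : ℕ) (l : List Q4),
    isT wa we n l ↔ l.length = n ∧ ∀ (j : ℕ) (q : Q4), l[j]? = some q → Ent wa we (n - 1 - j) q
  | 0, l => by
      constructor
      · intro h
        have h' : l = [] := h
        subst h'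
        simp
      · rintro ⟨h, -⟩
        exact List.length_eq_zero_iff.mp h
  | n + 1, l => by
      constructor
      · rintro ⟨q, r, rfl, hq, hr⟩
        obtain ⟨h1, h2⟩ := (isT_iff' wa we n r).mp hr
        refine ⟨by simp [h1], ?_⟩
        intro j q' hj
        cases j with
        | zero =>
          simp only [List.getElem?_cons_zero, Option.some.injEq] at hj
          subst hj
          simpa using hq
        | succ j =>
          simp only [List.getElem?_cons_succ] at hj
          have h3 := h2 j q' hj
          have h4 : n + 1 - 1 - (j + 1) = n - 1 - j := by omega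
          rw [h4]
          exact h3
      · rintro ⟨h1, h2⟩
        cases l with
        | nil => simp at h1
        | cons q r =>
          refine ⟨q, r, rfl, ?_, ?_⟩
          · have := h2 0 q (by simp)
            simpa using this
          · rw [isT_iff' wa we n r]
            refine ⟨by simpa using h1, ?_⟩
            intro j q' hj
            have h3 := h2 (j + 1) q' (by simpa using hj)
            have h4 : n + 1 - 1 - (j + 1) = n - 1 - j := by omega
            rw [h4] at h3
            exact h3

private theorem isA_iff' (wa we : ℕ → Bool → ℕ) (n : ℕ) (l : List Q4) :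
    isA wa we n l ↔ l.length = n ∧ ∀ (j : ℕ) (q : Q4), l[j]? = some q → Ent wa we j q := by
  unfold isA
  rw [isT_iff']
  constructor
  · rintro ⟨h1, h2⟩
    have h1' : l.length = n := by simpa using h1
    refine ⟨h1', ?_⟩
    intro j q hj
    have hjl : j < l.length := by
      by_contra hcon
      rw [List.getElem?_eq_none (by omega)] at hj
      exact absurd hj (by simp)
    have h3 := h2 (n - 1 - j) q (by
      rw [List.getElem?_reverse (by omega)]
      rw [← hj]
      congr 1
      omega)
    have h4 : n - 1 - (n - 1 - j) = j := by omega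
    rw [h4] at h3
    exact h3
  · rintro ⟨h1, h2⟩
    refine ⟨by simpa using h1, ?_⟩
    intro j q hj
    have hjl : j < l.length := by
      by_contra hcon
      rw [List.getElem?_eq_none (by simp; omega)] at hj
      exact absurd hj (by simp)
    rw [List.getElem?_reverse hjl] at hj
    have h3 := h2 _ q hj
    have h4 : l.length - 1 - j = n - 1 - j := by omega
    rw [h4] at h3
    exact h3

private theorem zeros_eq' (c : ℕ) : zeros c = List.replicate c ⟨0, 0, 0, 0, 0⟩ := by
  induction c with
  | zero => rfl
  | succ c ih =>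
    rw [List.replicate_succ, ← ih]
    rfl

private theorem St_WS' (f : ℕ → ℕ) (n : ℕ) (m : ℕ) (p : Bool) :
    St (f (n + 2)) (n + 2) (Nat.beq (Nat.mod n 2) 0) (fun m p => WS 2 (n + 1) m p f) m p =
      WS 2 (n + 2) m p f := by
  have hod : Nat.beq (Nat.mod n 2) 0 = decide ((n + 1) % 2 = 1) := by
    have h1 : Nat.beq (Nat.mod n 2) 0 = decide (n % 2 = 0) := by
      rcases Nat.mod_two_eq_zero_or_one n with h | h
      · have : Nat.mod n 2 = 0 := h
        rw [this, h]; rfl
      · have : Nat.mod n 2 = 1 := h
        rw [this, h]; rfl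
    rw [h1]
    rcases Nat.mod_two_eq_zero_or_one n with h | h
    · have : (n + 1) % 2 = 1 := by omega
      rw [h, this]; rfl
    · have : (n + 1) % 2 = 0 := by omega
      rw [h, this]; rfl
  induction m using Nat.strong_induction_on generalizing p with
  | _ m ih =>
    rw [St_rec _ (by omega), WS_succ (N := n + 1) (by norm_num) (by omega)]
    by_cases h : n + 2 ≤ m
    · rw [if_pos h, if_pos (by omega), ih (m - (n + 2)) (by omega), hod]
    · rw [if_neg h, if_neg (by omega)]

/-- the table of `partsG` (as `partsQ_isT` in PK01). -/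
theorem partsG_isT (X L n : ℕ) : ∃ we : ℕ → Bool → ℕ,
    isT (fun m p => WS 2 (n + 1) m p (fun c => 1 + X ^ c)) we (L + 1)
      (revQ (partsG X L n) []) := by
  induction n with
  | zero =>
    refine ⟨fun m p => if m = 0 ∧ p = false then 1 else 0, ?_⟩
    rw [revQ_eq, List.append_nil]
    change isA _ _ (L + 1) (partsG X L 0)
    rw [isA_iff']
    have h0 : partsG X L 0 = ⟨0, 1, 0, 1, 0⟩ :: zeros L := rfl
    rw [h0, zeros_eq']
    refine ⟨by simp, ?_⟩
    intro j q hj
    cases j with
    | zero =>
      simp only [List.getElem?_cons_zero, Option.some.injEq] at hj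
      subst hj
      refine ⟨?_, ?_, ?_, ?_⟩ <;> dsimp only <;> (try rw [WS_base (by norm_num) (by norm_num)]) <;>
        simp
    | succ j =>
      simp only [List.getElem?_cons_succ] at hj
      have hjc : j < L := by
        by_contra hcon
        rw [List.getElem?_eq_none (by simp; omega)] at hj
        exact absurd hj (by simp)
      rw [List.getElem?_replicate_of_lt hjc] at hj
      simp only [Option.some.injEq] at hj
      subst hj
      refine ⟨?_, ?_, ?_, ?_⟩ <;> dsimp only <;> (try rw [WS_base (by norm_num) (by norm_num)]) <;>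
        simp
  | succ n ih =>
    obtain ⟨we, ih⟩ := ih
    have hs : partsG X L (n + 1) = revQ (goQ (n + 1000000) (1 + X ^ (n + 2)) 0
      (Nat.beq (Nat.mod n 2) 0) (partsG X L n) [] (zeros (n + 2)) []) [] := rfl
    rw [hs, revQ_eq (revQ _ _), revQ_eq, List.append_nil, List.append_nil, List.reverse_reverse]
    have hA : isA (fun m p => WS 2 (n + 1) m p (fun c => 1 + X ^ c)) we (L + 1)
        (partsG X L n) := by
      rw [revQ_eq, List.append_nil] at ih
      exact ih
    have h1 := goQ_isT (n + 1000000) (1 + X ^ (n + 2)) 0 (n + 2) (by omega)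
      (Nat.beq (Nat.mod n 2) 0) _ _ (L + 1) (partsG X L n) hA
    have e1 : St (1 + X ^ (n + 2)) (n + 2) (Nat.beq (Nat.mod n 2) 0)
        (fun m p => WS 2 (n + 1) m p (fun c => 1 + X ^ c)) =
        fun m p => WS 2 (n + 1 + 1) m p (fun c => 1 + X ^ c) := by
      funext m p
      exact St_WS' (fun c => 1 + X ^ c) n m p
    rw [e1] at h1
    exact ⟨_, h1⟩

private theorem ws_stab16 {R : Type*} [CommSemiring R] (m : ℕ) (p : Bool) (f : ℕ → R) (N : ℕ)
    (h : m ≤ N) : WS 2 N m p f = WS 2 m m p f := by
  induction N, h using Nat.le_induction with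
  | base => rfl
  | succ N hN ih =>
    rcases Nat.eq_zero_or_pos N with h0 | h0
    · subst h0
      have : m = 0 := by omega
      subst this
      rw [WS_base (by norm_num) (by norm_num), WS_base (by norm_num) (by norm_num)]
    · rw [WS_succ (by norm_num) (by omega), if_neg (by omega), add_zero, ih]

/-- the entry `m` of the ascending list. -/
theorem partsG_get (X L m : ℕ) (hm : m ≤ L) : ∃ q, (partsG X L (L - 1))[m]? = some q ∧
    q.a0 = (Gp m).eval X := by
  obtain ⟨we, h⟩ := partsG_isT X L (L - 1)
  rw [revQ_eq, List.append_nil] at h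
  have hA : isA (fun m p => WS 2 (L - 1 + 1) m p (fun c => 1 + X ^ c)) we (L + 1)
      (partsG X L (L - 1)) := h
  rw [isA_iff'] at hA
  obtain ⟨h1, h2⟩ := hA
  have hlt : m < (partsG X L (L - 1)).length := by omega
  refine ⟨(partsG X L (L - 1))[m], List.getElem?_eq_getElem hlt, ?_⟩
  have h3 := (h2 m _ (List.getElem?_eq_getElem hlt)).1
  rw [h3]
  have h4 : (Gp m).eval X = WS 2 m m false (fun c => 1 + X ^ c) := by
    unfold Gp
    have := map_WS (evalRingHom (X : ℕ)) (lo := 2) (N := m) (r := m) false
      (fun c => (1 + Polynomial.X ^ c : ℕ[X]))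
    rw [coe_evalRingHom] at this
    rw [this]
    congr 1
    funext c
    simp
  rw [h4]
  exact ws_stab16 m false _ _ (by omega)

private theorem sLoop_aux (S X K n k0 : ℕ) (hK : 1 ≤ K) (hk0 : 2 * k0 ≤ n + 2) :
    ∀ (cnt k c1 c acc : ℕ) (H : ℕ[X]), (∀ j, H.coeff j < X) → k + cnt = k0 →
      c = n.choose k → (1 ≤ k → c1 = n.choose (k - 1)) →
      (acc : ℝ) + S * ∑ j ∈ range cnt, (if K ≤ k + j then (H.coeff j : ℝ) / Del n (k + j) else 0) ≤
        (sLoop S X K n cnt k c1 c (H.eval X) acc : ℝ) := by
  intro cnt
  induction cnt with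
  | zero =>
    intro k c1 c acc H _ _ _ _
    simp only [range_zero, sum_empty, mul_zero, add_zero]
    exact le_rfl
  | succ cnt ih =>
    intro k c1 c acc H hX hk hc hc1
    have hs : sLoop S X K n (cnt + 1) k c1 c (H.eval X) acc =
        sLoop S X K n cnt (k + 1) c ((c * (n - k)) / (k + 1)) (H.eval X / X)
          (cond (Nat.ble K k) (acc + (S * (H.eval X % X) / (c - c1) + 1)) acc) := by
      change fz (k + 1) (fun k' => fz ((c * (n - k)) / k') fun c' => fz (H.eval X / X) fun V' =>
        fz (cond (Nat.ble K k) (acc + (S * (H.eval X % X) / (c - c1) + 1)) acc) fun acc' =>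
          sLoop S X K n cnt k' c c' V' acc') = _
      simp only [fz_eq]
    rw [hs]
    have hX0 : 0 < X := lt_of_le_of_lt (Nat.zero_le _) (hX 0)
    have hev : H.eval X = (divX H).eval X * X + H.coeff 0 := by
      conv_lhs => rw [← divX_mul_X_add H]
      simp
    have hdiv : H.eval X / X = (divX H).eval X := by
      rw [hev, Nat.add_comm, Nat.add_mul_div_right _ _ hX0, Nat.div_eq_of_lt (hX 0), zero_add]
    have hmod : H.eval X % X = H.coeff 0 := by
      rw [hev, Nat.add_comm, Nat.add_mul_mod_self_right, Nat.mod_eq_of_lt (hX 0)]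
    have hc' : (c * (n - k)) / (k + 1) = n.choose (k + 1) := by
      rw [hc, ← Nat.choose_succ_right_eq, Nat.mul_div_cancel _ (Nat.succ_pos k)]
    rw [hdiv, hmod, hc']
    have h1 := ih (k + 1) c (n.choose (k + 1))
      (cond (Nat.ble K k) (acc + (S * H.coeff 0 / (c - c1) + 1)) acc) (divX H)
      (fun j => by rw [coeff_divX]; exact hX _) (by omega) rfl (fun _ => by
        rw [Nat.add_sub_cancel]; exact hc)
    refine le_trans ?_ h1
    rw [sum_range_succ']
    have h2 : ∀ j, (if K ≤ k + (j + 1) then (H.coeff (j + 1) : ℝ) / Del n (k + (j + 1)) else 0) =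
        (if K ≤ k + 1 + j then ((divX H).coeff j : ℝ) / Del n (k + 1 + j) else 0) := by
      intro j
      rw [coeff_divX, show k + (j + 1) = k + 1 + j by ring]
    simp_rw [h2]
    have h3 : (acc : ℝ) + S * (if K ≤ k + 0 then (H.coeff 0 : ℝ) / Del n (k + 0) else 0) ≤
        ((cond (Nat.ble K k) (acc + (S * H.coeff 0 / (c - c1) + 1)) acc : ℕ) : ℝ) := by
      rw [add_zero]
      by_cases hKk : K ≤ k
      · have hb : Nat.ble K k = true := Nat.ble_eq.mpr hKk
        rw [hb, if_pos hKk]
        simp only [cond_true]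
        have hk1 : 1 ≤ k := by omega
        have hD : 0 < Del n k := Del_pos hk1 (by omega)
        have hDe : ((c - c1 : ℕ) : ℝ) = Del n k := by
          rw [hc1 hk1, hc]
          unfold Del at hD ⊢
          rw [sub_pos, Nat.cast_lt] at hD
          rw [Nat.cast_sub hD.le]
        have hDn : 0 < c - c1 := by
          have : (0 : ℝ) < ((c - c1 : ℕ) : ℝ) := by rw [hDe]; exact hD
          exact_mod_cast this
        have h4 : S * H.coeff 0 < (c - c1) * (S * H.coeff 0 / (c - c1) + 1) :=
          Nat.lt_mul_div_succ _ hDn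
        have h5 : (S : ℝ) * (H.coeff 0 : ℝ) ≤ Del n k *
            ((S * H.coeff 0 / (c - c1) : ℕ) + 1 : ℝ) := by
          rw [← hDe]
          exact_mod_cast h4.le
        have h6 : (S : ℝ) * ((H.coeff 0 : ℝ) / Del n k) ≤
            ((S * H.coeff 0 / (c - c1) : ℕ) + 1 : ℝ) := by
          rw [← mul_div_assoc, div_le_iff₀ hD]
          linarith [mul_comm (Del n k) (((S * H.coeff 0 / (c - c1) : ℕ) : ℝ) + 1)]
        push_cast
        push_cast at h6
        linarith
      · have hb : Nat.ble K k = false := by
          by_contra hcon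
          rw [Bool.not_eq_false] at hcon
          exact hKk (Nat.ble_eq.mp hcon)
        rw [hb, if_neg hKk]
        simp
    have h7 : (S : ℝ) * (∑ j ∈ range cnt,
          (if K ≤ k + 1 + j then ((divX H).coeff j : ℝ) / Del n (k + 1 + j) else 0) +
          (if K ≤ k + 0 then (H.coeff 0 : ℝ) / Del n (k + 0) else 0)) =
        S * ∑ j ∈ range cnt,
          (if K ≤ k + 1 + j then ((divX H).coeff j : ℝ) / Del n (k + 1 + j) else 0) +
        S * (if K ≤ k + 0 then (H.coeff 0 : ℝ) / Del n (k + 0) else 0) := mul_add _ _ _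
    rw [h7]
    linarith

theorem sLoop_spec (S X K n k0 : ℕ) (H : ℕ[X]) (hX : ∀ k, H.coeff k < X) (hK : 1 ≤ K)
    (hk0 : 2 * k0 ≤ n + 2) (hS : 0 < S) :
    S * ∑ k ∈ Ico K k0, (H.coeff k : ℝ) / Del n k ≤
      (sLoop S X K n k0 0 0 1 (H.eval X) 0 : ℝ) := by
  have h := sLoop_aux S X K n k0 hK hk0 k0 0 0 1 0 H hX (by omega) (by simp) (by omega)
  simp only [zero_add, Nat.cast_zero] at h
  refine le_trans (le_of_eq ?_) h
  congr 1
  rw [← sum_filter]
  refine sum_congr ?_ fun _ _ => rfl
  ext k
  simp only [mem_Ico, mem_filter, mem_range]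
  omega

end Pool.MP322P
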