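import Pool.Agent.Lib.MP_322c5f_alP.PN03

/-! job 322P-N3b: correctness of the check `newChk` for the new classes. -/

set_option autoImplicit false

open Finset Polynomial

namespace Pool.MP322P

/-- level of the request number `i` (for `n1 + i`): the last `n ≤ n1 + i` with `rst = true`; `A0` at
the beginning. -/
def lvl (A0 n1 : ℕ) (rq : List Rq) (i : ℕ) : ℕ :=
  (List.range (i + 1)).foldl (fun a j => if ((rq.getD j ⟨false, 0, 0, 0⟩).rst) then n1 + j else a) A0

private theorem drp_getElem? (i j : ℕ) (l : List Q4) : (drp i l)[j]? = l[i + j]? := by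
  induction i generalizing l with
  | zero =>
    have : drp 0 l = l := rfl
    rw [this, Nat.zero_add]
  | succ i ih =>
    cases l with
    | nil =>
      have : drp (i + 1) ([] : List Q4) = [] := rfl
      rw [this]; simp
    | cons q t =>
      have : drp (i + 1) (q :: t) = drp i t := rfl
      rw [this, ih t]
      have e : i + 1 + j = (i + j) + 1 := by omega
      rw [e, List.getElem?_cons_succ]

private theorem newLoop_cons (S X : ℕ) (q : Rq) (rq : List Rq) (g : Q4) (l : List Q4) (n H : ℕ) :
    newLoop S X (q :: rq) (g :: l) n H =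
      ((Nat.ble (10000 * (sLoop S X q.K n (cond q.rst 0 q.k0) 0 0 1
          (cond q.rst 0 ((1 + X) * (H + g.a0))) 0)) (q.x * S)) &&
        newLoop S X rq l (n + 1) (cond q.rst 0 ((1 + X) * (H + g.a0)))) := by
  show (fz (Nat.add n 1) fun n' =>
          fz (cond q.rst 0 (Nat.mul (Nat.add 1 X) (Nat.add H g.a0))) fun H' =>
          (fun b => and b (newLoop S X rq l n' H'))
            (Nat.ble (Nat.mul 10000 (sLoop S X q.K n (cond q.rst 0 q.k0) 0 0 1 H' 0))
              (Nat.mul q.x S))) = _
  rw [fz_eq, fz_eq]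
  rfl

/-- the level is at most `n1 + i` as soon as the first request is a reset. -/
private theorem lvl_le (A0 n1 : ℕ) (rq : List Rq) (i : ℕ)
    (h : A0 ≤ n1 ∨ (rq.getD 0 ⟨false, 0, 0, 0⟩).rst = true) : lvl A0 n1 rq i ≤ n1 + i := by
  induction i with
  | zero =>
    unfold lvl
    simp only [zero_add, List.range_one, List.foldl_cons, List.foldl_nil, add_zero]
    split
    · exact le_rfl
    · rename_i hh
      rcases h with h | h
      · exact h
      · exact absurd h hh
  | succ i ih =>
    have e : lvl A0 n1 rq (i + 1) =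
        if ((rq.getD (i + 1) ⟨false, 0, 0, 0⟩).rst) then n1 + (i + 1) else lvl A0 n1 rq i := by
      unfold lvl
      rw [List.range_succ, List.foldl_append]
      rfl
    rw [e]
    split
    · exact le_rfl
    · omega

private theorem lvl_succ (A0 n1 : ℕ) (rq : List Rq) (i : ℕ) : lvl A0 n1 rq (i + 1) =
    if ((rq.getD (i + 1) ⟨false, 0, 0, 0⟩).rst) then n1 + (i + 1) else lvl A0 n1 rq i := by
  unfold lvl
  rw [List.range_succ, List.foldl_append]
  rfl

private theorem lvl_zero (A0 n1 : ℕ) (rq : List Rq) : lvl A0 n1 rq 0 =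
    if ((rq.getD 0 ⟨false, 0, 0, 0⟩).rst) then n1 else A0 := by
  unfold lvl
  simp

/-- shift of the level. -/
private theorem lvl_cons (A0 n1 : ℕ) (q : Rq) (rq : List Rq) (i : ℕ) :
    lvl A0 n1 (q :: rq) (i + 1) = lvl (if q.rst then n1 else A0) (n1 + 1) rq i := by
  induction i with
  | zero =>
    rw [lvl_succ, lvl_zero, lvl_zero]
    simp
  | succ i ih =>
    rw [lvl_succ, ih, lvl_succ]
    have e : n1 + (i + 1 + 1) = n1 + 1 + (i + 1) := by omega
    rw [e]
    rfl

private theorem newLoop_aux (S X : ℕ) (rq : List Rq) : ∀ (l : List Q4) (n A H : ℕ), 1 ≤ n →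
    (∀ j < rq.length, ∃ q, l[j]? = some q ∧ q.a0 = (Gp (n + j)).eval X) →
    ((A ≤ n - 1 ∧ H = (Hp A (n - 1)).eval X) ∨ (rq.getD 0 ⟨false, 0, 0, 0⟩).rst = true) →
    newLoop S X rq l n H = true → ∀ i < rq.length,
      (rq.getD i ⟨false, 0, 0, 0⟩).rst = false →
      10000 * (sLoop S X (rq.getD i ⟨false, 0, 0, 0⟩).K (n + i) (rq.getD i ⟨false, 0, 0, 0⟩).k0
        0 0 1 ((Hp (lvl A n rq i) (n + i)).eval X) 0) ≤ (rq.getD i ⟨false, 0, 0, 0⟩).x * S := by
  induction rq with
  | nil => intro l n A H _ _ _ _ i hi; simp at hi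
  | cons q rq ih =>
    intro l n A H hn hl hH h i hi hr
    obtain ⟨g0, hg0, hga⟩ := hl 0 (by simp)
    cases l with
    | nil => simp at hg0
    | cons g l =>
      have hgg : g = g0 := by simpa using hg0
      subst hgg
      rw [newLoop_cons, Bool.and_eq_true] at h
      obtain ⟨h1, h2⟩ := h
      have h1' := Nat.le_of_ble_eq_true h1
      rw [Nat.add_zero] at hga
      -- the new value of `H`
      have key : cond q.rst 0 ((1 + X) * (H + g.a0)) =
          (Hp (if q.rst then n else A) n).eval X := by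
        cases hq : q.rst with
        | true => simp [Hp_self]
        | false =>
          have hH' : A ≤ n - 1 ∧ H = (Hp A (n - 1)).eval X := by
            rcases hH with hH | hH
            · exact hH
            · exfalso
              have : q.rst = true := hH
              rw [hq] at this; exact absurd this (by simp)
          have e : n = (n - 1) + 1 := by omega
          have := Hp_succ hH'.1
          rw [← e] at this
          simp only [cond_false, Bool.false_eq_true, if_false]
          rw [this, hH'.2, hga]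
          simp
      have hAn : (if q.rst then n else A) ≤ n := by
        split
        · exact le_rfl
        · rename_i hh
          rcases hH with hH | hH
          · omega
          · exact absurd hH hh
      cases i with
      | zero =>
        have hq : q.rst = false := hr
        rw [lvl_zero]
        have e1 : ((q :: rq).getD 0 ⟨false, 0, 0, 0⟩) = q := rfl
        rw [e1, Nat.add_zero]
        rw [key, hq] at h1'
        rw [hq]
        simpa using h1'
      | succ i =>
        have e1 : ((q :: rq).getD (i + 1) ⟨false, 0, 0, 0⟩) = rq.getD i ⟨false, 0, 0, 0⟩ := rfl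
        rw [e1] at hr ⊢
        rw [lvl_cons]
        have e2 : n + (i + 1) = (n + 1) + i := by omega
        rw [e2]
        refine ih l (n + 1) (if q.rst then n else A) _ (by omega) ?_ (Or.inl ⟨?_, ?_⟩) h2 i
          (by simpa using hi) hr
        · intro j hj
          obtain ⟨q', hq', hqa⟩ := hl (j + 1) (by simpa using hj)
          refine ⟨q', by simpa using hq', ?_⟩
          rw [hqa]
          have e3 : n + (j + 1) = n + 1 + j := by omega
          rw [e3]
        · simpa using hAn
        · rw [Nat.add_sub_cancel]; exact key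

theorem newLoop_spec (S B L n1 : ℕ) (rq : List Rq) (hS : 0 < S) (hB : 8 * L * 2 ^ L < 2 ^ B)
    (hn1 : 1 ≤ n1) (hlen : n1 + rq.length ≤ L + 1)
    (hq : ∀ i < rq.length, (rq.getD i ⟨false, 0, 0, 0⟩).rst = true ∨
      (1 ≤ (rq.getD i ⟨false, 0, 0, 0⟩).K ∧ 2 * (rq.getD i ⟨false, 0, 0, 0⟩).k0 ≤ n1 + i + 2))
    (h : newChk S B L n1 rq = true) (i : ℕ) (hi : i < rq.length)
    (h0 : (rq.getD 0 ⟨false, 0, 0, 0⟩).rst = true) :
    PSIp (n1 + i) (rq.getD i ⟨false, 0, 0, 0⟩).K (rq.getD i ⟨false, 0, 0, 0⟩).k0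
      (lvl 0 n1 rq i) (n1 + i) ((rq.getD i ⟨false, 0, 0, 0⟩).x / 10000) := by
  cases hr : (rq.getD i ⟨false, 0, 0, 0⟩).rst with
  | true =>
    have hl : lvl 0 n1 rq i = n1 + i := by
      cases i with
      | zero => rw [lvl_zero, hr]; simp
      | succ i => rw [lvl_succ, hr]; simp
    rw [hl]
    refine ⟨fun _ => 0, fun _ => le_rfl, ?_, ?_⟩
    · intro k nu g _ _ _ _ h1 h2
      omega
    · rw [Finset.sum_const_zero]
      positivity
  | false =>
    have hq' := (hq i hi).resolve_left (by rw [hr]; simp)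
    have h' : newLoop S (2 ^ B) rq (drp n1 (partsG (2 ^ B) L (L - 1))) n1 0 = true := by
      have : newChk S B L n1 rq =
          newLoop S (2 ^ B) rq (drp n1 (partsG (2 ^ B) L (L - 1))) n1 0 := by
        show (fz (Nat.pow 2 B) fun X =>
          newLoop S X rq (drp n1 (partsG X L (Nat.sub L 1))) n1 0) = _
        rw [fz_eq]
        rfl
      rw [← this]; exact h
    have main := newLoop_aux S (2 ^ B) rq _ n1 0 0 hn1 (by
      intro j hj
      obtain ⟨q, hq1, hq2⟩ := partsG_get (2 ^ B) L (n1 + j) (by omega)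
      exact ⟨q, by rw [drp_getElem?]; exact hq1, hq2⟩) (Or.inr h0) h' i hi hr
    set K := (rq.getD i ⟨false, 0, 0, 0⟩).K
    set k0 := (rq.getD i ⟨false, 0, 0, 0⟩).k0
    set x := (rq.getD i ⟨false, 0, 0, 0⟩).x
    set A := lvl 0 n1 rq i
    refine PSIp_of_NA hq'.1 hq'.2 ?_
    have hX : ∀ k, (Hp A (n1 + i)).coeff k < 2 ^ B := by
      intro k
      have hnL : n1 + i ≤ L := by omega
      calc (Hp A (n1 + i)).coeff k ≤ 8 * (n1 + i) * 2 ^ (n1 + i) := coeff_Hp_le _ _ _
        _ ≤ 8 * L * 2 ^ L := by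
          apply Nat.mul_le_mul
          · omega
          · exact Nat.pow_le_pow_right (by norm_num) hnL
        _ < 2 ^ B := hB
    have hs := sLoop_spec S (2 ^ B) K (n1 + i) k0 (Hp A (n1 + i)) hX hq'.1 hq'.2 hS
    have hm : (10000 : ℝ) * (sLoop S (2 ^ B) K (n1 + i) k0 0 0 1
        ((Hp A (n1 + i)).eval (2 ^ B)) 0 : ℝ) ≤ (x : ℝ) * S := by
      exact_mod_cast main
    have hSr : (0 : ℝ) < S := by exact_mod_cast hS
    have e : ∑ k ∈ Ico K k0, (∑ m ∈ Ioc A (n1 + i), ∑ τ ∈ evs m, (NA (n1 + i) τ k : ℝ)) /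
        Del (n1 + i) k = ∑ k ∈ Ico K k0, ((Hp A (n1 + i)).coeff k : ℝ) / Del (n1 + i) k := by
      refine Finset.sum_congr rfl (fun k _ => ?_)
      rw [coeff_Hp]
      push_cast
      rfl
    rw [e]
    rw [le_div_iff₀ (by norm_num)]
    refine le_of_mul_le_mul_left ?_ hSr
    calc (S : ℝ) * ((∑ k ∈ Ico K k0, ((Hp A (n1 + i)).coeff k : ℝ) / Del (n1 + i) k) * 10000)
        = 10000 * (S * ∑ k ∈ Ico K k0, ((Hp A (n1 + i)).coeff k : ℝ) / Del (n1 + i) k) := by ring
      _ ≤ 10000 * (sLoop S (2 ^ B) K (n1 + i) k0 0 0 1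
        ((Hp A (n1 + i)).eval (2 ^ B)) 0 : ℝ) := by
          exact mul_le_mul_of_nonneg_left hs (by norm_num)
      _ ≤ x * S := hm
      _ = S * x := by ring

end Pool.MP322P
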