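import Pool.Agent.Lib.MP_322c5f_alP.PT02
import Pool.Agent.Lib.MP_322c5f_alP.PB05
import Pool.Agent.Lib.MP_322c5f_alP.PN01
import Pool.Agent.Lib.MP_322c5f_alP.PK06

/-! job 322P-T3: the mixed weights of a level: `PhiT` for `J ≤ kx`, absolute for `J > kx`. -/

set_option autoImplicit false

open Finset

namespace Pool.MP322P

open Pool.MP322

/-- mixed weights. -/
noncomputable def wMix (yl : ℕ → ℕ) (L kx : ℕ) (τ : Multiset ℕ) (J : ℕ) : ℝ :=
  if J ≤ kx then (PhiT yl L τ J : ℝ) / 2 ^ J else (NA L τ J : ℝ)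

private theorem PhiT_nonneg (yl : ℕ → ℕ) (L : ℕ) (τ : Multiset ℕ) (J : ℕ) :
    0 ≤ PhiT yl L τ J := by
  unfold PhiT
  refine PhiC_nonneg yl _ _ _ ?_ _ _
  intro c hc
  exact (Multiset.mem_filter.1 hc).2

theorem LevelW_wMix {yl : ℕ → ℕ} {L : ℕ} (hyl : YOK yl L) (kx : ℕ) :
    LevelW L (fun _ => True) (wMix yl L kx) := by
  intro τ hτ hs hP J r hr
  unfold wMix
  split_ifs with h
  · exact LevelW_PhiT L yl hyl τ hτ hs hP J r hr
  · exact LevelW_NA L (fun _ => True) τ hτ hs hP J r hr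

theorem wMix_nonneg (yl : ℕ → ℕ) (L kx : ℕ) (τ : Multiset ℕ) (J : ℕ) : 0 ≤ wMix yl L kx τ J := by
  unfold wMix
  split_ifs with h
  · have h1 : (0 : ℝ) ≤ (PhiT yl L τ J : ℝ) := by exact_mod_cast PhiT_nonneg yl L τ J
    positivity
  · exact Nat.cast_nonneg _

theorem NA_zero (L : ℕ) (τ : Multiset ℕ) (J : ℕ) (hτ : τ.sum ≤ L) (hJ : L + 1 < J) :
    NA L τ J = 0 := by
  rw [NA_eq]
  refine Multiset.sum_eq_zero fun x hx => ?_
  obtain ⟨σ, hσ, rfl⟩ := Multiset.mem_map.1 hx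
  rw [Multiset.mem_powerset] at hσ
  have h1 : σ.sum ≤ τ.sum := by
    obtain ⟨u, rfl⟩ := Multiset.le_iff_exists_add.1 hσ
    rw [Multiset.sum_add]
    exact Nat.le_add_right _ _
  split_ifs with h
  · exact Nat.choose_eq_zero_of_lt (by omega)
  · rfl

theorem wMix_zero (yl : ℕ → ℕ) (L kx : ℕ) (hkx : kx ≤ L) (τ : Multiset ℕ) (J : ℕ)
    (hτ : τ.sum ≤ L) (hJ : L + 1 < J) : wMix yl L kx τ J = 0 := by
  unfold wMix
  rw [if_neg (by omega), NA_zero L τ J hτ hJ, Nat.cast_zero]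

/-- total weight for `J ≤ kx`. -/
theorem Wt_wMix_le {yl : ℕ → ℕ} {L kx B T : ℕ}
    (hT : ∀ k ≤ kx, ∑ m ∈ range (L + 1), ∑ τ ∈ evs m, PhiT yl L τ k = (dig B T k : ℤ))
    {J : ℕ} (hJ : J ≤ kx) : Wt (wMix yl L kx) 0 L J ≤ (dig B T J : ℝ) / 2 ^ J := by
  have h1 : Wt (wMix yl L kx) 0 L J =
      (∑ m ∈ Ioc 0 L, ∑ τ ∈ evs m, (PhiT yl L τ J : ℝ)) / 2 ^ J := by
    unfold Wt wMix
    rw [Finset.sum_div]
    refine Finset.sum_congr rfl fun m _ => ?_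
    rw [Finset.sum_div]
    refine Finset.sum_congr rfl fun τ _ => ?_
    rw [if_pos hJ]
  have h2 : (∑ m ∈ range (L + 1), ∑ τ ∈ evs m, (PhiT yl L τ J : ℝ)) = (dig B T J : ℝ) := by
    have := hT J hJ
    exact_mod_cast this
  rw [h1, ← h2]
  refine div_le_div_of_nonneg_right ?_ (by positivity)
  refine Finset.sum_le_sum_of_subset_of_nonneg ?_ fun m _ _ =>
    Finset.sum_nonneg fun τ _ => by exact_mod_cast PhiT_nonneg yl L τ J
  intro m hm
  rw [Finset.mem_Ioc] at hm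
  rw [Finset.mem_range]
  omega

/-- total absolute weight. -/
theorem Wt_NA (L A J : ℕ) : Wt (fun τ J => (NA L τ J : ℝ)) A L J = ((Hp A L).coeff J : ℝ) := by
  unfold Wt
  rw [coeff_Hp]
  push_cast
  rfl

/-- total weight for `J > kx`. -/
theorem Wt_wMix_gt {yl : ℕ → ℕ} {L kx J : ℕ} (hJ : kx < J) :
    Wt (wMix yl L kx) 0 L J ≤ 8 * L * 2 ^ L := by
  have h1 : Wt (wMix yl L kx) 0 L J = ((Hp 0 L).coeff J : ℝ) := by
    rw [← Wt_NA]
    unfold Wt wMix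
    refine Finset.sum_congr rfl fun m _ => Finset.sum_congr rfl fun τ _ => ?_
    rw [if_neg (by omega)]
  rw [h1]
  exact_mod_cast coeff_Hp_le 0 L J

end Pool.MP322P
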