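import Pool.Agent.Lib.MP_322c5f_alP.PN03b
import Pool.Agent.Lib.MP_322c5f_alP.PT03

/-! job 322P-N4: the packed polynomial `Hp A L` as a number computed by the kernel. -/

set_option autoImplicit false

open Finset Polynomial

namespace Pool.MP322P

/-- loop: `l` : entries `G_n, G_{n+1}, ...`; `H` : `Hp A (n-1)`. -/
noncomputable def hpLoop (X cnt : ℕ) : List Q4 → ℕ → ℕ :=
  Nat.rec (motive := fun _ => List Q4 → ℕ → ℕ) (fun _ H => H)
    (fun _ ih l H => List.rec (motive := fun _ => ℕ) 0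
      (fun g l' _ => fz (Nat.mul (Nat.add 1 X) (Nat.add H g.a0)) fun H' => ih l' H') l) cnt

/-- `Hp A L` at `X = 2^B`. -/
noncomputable def hpTot (B A L : ℕ) : ℕ :=
  fz (Nat.pow 2 B) fun X =>
    hpLoop X (Nat.sub L A) (drp (Nat.add A 1) (partsG X L (Nat.sub L 1))) 0

private theorem drp_getElem4 (i j : ℕ) (l : List Q4) : (drp i l)[j]? = l[i + j]? := by
  induction i generalizing l with
  | zero =>
    have : drp 0 l = l := rfl
    rw [this, Nat.zero_add]
  | succ i ih =>
    cases l with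
    | nil =>
      have : drp (i + 1) ([] : List Q4) = [] := rfl
      rw [this]; simp
    | cons q t =>
      have : drp (i + 1) (q :: t) = drp i t := rfl
      rw [this, ih t]
      have e : i + 1 + j = (i + j) + 1 := by omega
      rw [e, List.getElem?_cons_succ]

private theorem hpLoop_cons (X cnt : ℕ) (g : Q4) (l : List Q4) (H : ℕ) :
    hpLoop X (cnt + 1) (g :: l) H = hpLoop X cnt l ((1 + X) * (H + g.a0)) := by
  change (fz (Nat.mul (Nat.add 1 X) (Nat.add H g.a0)) fun H' => hpLoop X cnt l H') = _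
  rw [fz_eq]
  rfl

private theorem hpLoop_aux (X A : ℕ) : ∀ (cnt : ℕ) (l : List Q4) (n H : ℕ), A ≤ n →
    (∀ j < cnt, ∃ q, l[j]? = some q ∧ q.a0 = (Gp (n + 1 + j)).eval X) →
    H = (Hp A n).eval X → hpLoop X cnt l H = (Hp A (n + cnt)).eval X := by
  intro cnt
  induction cnt with
  | zero => intro l n H _ _ hH; exact hH
  | succ cnt ih =>
    intro l n H hn hl hH
    obtain ⟨g0, hg0, hga⟩ := hl 0 (Nat.succ_pos _)
    cases l with
    | nil => simp at hg0
    | cons g l =>
      have hgg : g = g0 := by simpa using hg0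
      subst hgg
      rw [Nat.add_zero] at hga
      rw [hpLoop_cons, ih l (n + 1) _ (by omega) ?_ ?_]
      · rw [show n + 1 + cnt = n + (cnt + 1) by omega]
      · intro j hj
        obtain ⟨q', hq', hqa⟩ := hl (j + 1) (by omega)
        refine ⟨q', by simpa using hq', ?_⟩
        rw [hqa, show n + 1 + (j + 1) = n + 1 + 1 + j by omega]
      · rw [Hp_succ hn, hH, hga]
        simp

/-- by `partsG_get` and `Hp_succ` (compare `newLoop_spec`). -/
theorem hpTot_eq {B A L : ℕ} (hA : A ≤ L) (hL : 1 ≤ L) : hpTot B A L = (Hp A L).eval (2 ^ B) := by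
  have h1 : hpTot B A L =
      hpLoop (2 ^ B) (L - A) (drp (A + 1) (partsG (2 ^ B) L (L - 1))) 0 := by
    change (fz (Nat.pow 2 B) fun X =>
      hpLoop X (Nat.sub L A) (drp (Nat.add A 1) (partsG X L (Nat.sub L 1))) 0) = _
    rw [fz_eq]
    rfl
  rw [h1, hpLoop_aux (2 ^ B) A (L - A) _ A 0 le_rfl ?_ (by rw [Hp_self]; simp),
    Nat.add_sub_cancel' hA]
  intro j hj
  obtain ⟨q, hq1, hq2⟩ := partsG_get (2 ^ B) L (A + 1 + j) (by omega)
  exact ⟨q, by rw [drp_getElem4]; exact hq1, hq2⟩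

/-- digits: `dig_of_digits`, `coeff_Hp_le`, and `(Hp A L).coeff J = 0` for `J > L + 1`
(`coeff_Hp`, `NA_zero`). -/
theorem hp_digits {B A L T : ℕ} (hA : A ≤ L) (hL : 1 ≤ L) (hB : 8 * L * 2 ^ L < 2 ^ B)
    (h : hpTot B A L = T) {J : ℕ} (hJ : J ≤ L + 1) : (Hp A L).coeff J = dig B T J := by
  have hz : ∀ k, L + 1 < k → (Hp A L).coeff k = 0 := by
    intro k hk
    rw [coeff_Hp]
    refine Finset.sum_eq_zero fun m hm => Finset.sum_eq_zero fun τ hτ => ?_
    rw [mem_Ioc] at hm
    have h1 : τ.sum = m := (mem_evs.mp hτ).1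
    exact NA_zero L τ k (by omega) hk
  have hdeg : (Hp A L).natDegree < L + 1 + 1 := by
    rw [Nat.lt_succ_iff, natDegree_le_iff_coeff_eq_zero]
    exact hz
  have hT : (T : ℤ) = ∑ k ∈ range (L + 1 + 1), ((Hp A L).coeff k : ℤ) * (2 ^ B) ^ k := by
    rw [← h, hpTot_eq hA hL, eval_eq_sum_range' hdeg]
    push_cast
    rfl
  have h1 := dig_of_digits B (L + 1) T (fun k => ((Hp A L).coeff k : ℤ))
    (fun k _ => ⟨Int.natCast_nonneg _, by
      have h2 := (coeff_Hp_le A L k).trans_lt hB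
      exact_mod_cast h2⟩) hT J hJ
  exact_mod_cast h1

end Pool.MP322P
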