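import Pool.Agent.Lib.MP_322c5f_alP.PT01

/-! job 322P-T4b: refinements for the uniform argument (`n ≥ 300`): the constant `13/5` for
`k < 19 n / 50`, combined bounds for large `J`, monotonicity in `n`. -/

set_option autoImplicit false

open Finset

namespace Pool.MP322P

open Pool.MP322

/-- `k ↦ C(N-M,k-j)/C(N,k)` is maximal at `ks` if `M ks ≤ j (N+1) ≤ M (ks+1)`. (For `k ≥ ks` this
is `choose_ratio_k`; for `k < ks` the step from `k` to `k+1` is nondecreasing:
`(k+1-j)(N-k) ≤ (N-M-k+j)(k+1)` iff `M (k+1) ≤ j (N+1)`.) -/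
theorem choose_ratio_max {N M j ks : ℕ} (hM : M ≤ N) (hj : j ≤ ks) (hks : ks ≤ N)
    (h1 : j * (N + 1) ≤ M * (ks + 1)) (h2 : M * ks ≤ j * (N + 1)) :
    ∀ k, j ≤ k → k ≤ N →
      (N - M).choose (k - j) * N.choose ks ≤ (N - M).choose (ks - j) * N.choose k := by
  intro k hjk hkN
  rcases Nat.le_total ks k with hk | hk
  · exact choose_ratio_k hM hk hkN h1
  · -- downward induction: for all k' in [k, ks]
    have main : ∀ q, q + k ≤ ks → (N - M).choose (k - j) * N.choose (k + q) ≤
        (N - M).choose (k + q - j) * N.choose k := by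
      intro q
      induction q with
      | zero => intro _; simp
      | succ q ih =>
        intro hq
        have ih := ih (by omega)
        have e3 : k + (q + 1) - j = (k + q - j) + 1 := by omega
        have e4 : k + (q + 1) = (k + q) + 1 := by omega
        rw [e3, e4]
        have e1 : (N - M).choose (k + q - j + 1) * (k + q - j + 1) =
          (N - M).choose (k + q - j) * (N - M - (k + q - j)) := Nat.choose_succ_right_eq _ _
        have e2 : N.choose (k + q + 1) * (k + q + 1) = N.choose (k + q) * (N - (k + q)) :=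
          Nat.choose_succ_right_eq _ _
        obtain ⟨r, hr⟩ := Nat.exists_eq_add_of_le (show j ≤ k + q by omega)
        obtain ⟨p, hp⟩ := Nat.exists_eq_add_of_le (show k + q ≤ N by omega)
        have h5 : k + q - j = r := by omega
        have h6 : N - (k + q) = p := by omega
        have hM2 : M * (k + q + 1) ≤ j * (N + 1) :=
          (Nat.mul_le_mul_left _ (by omega)).trans h2
        -- N - M ≥ r
        have hMr : r ≤ N - M := by
          by_contra hc
          push Not at hc
          have h7 : N < M + r := by omega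
          have h8 : M = p + j - (N - M - r) ∨ True := Or.inr trivial
          have h9 : p + j + 1 ≤ M := by omega
          have h10 : (p + j + 1) * (k + q + 1) ≤ j * (N + 1) :=
            (Nat.mul_le_mul_right _ h9).trans hM2
          rw [hp] at h10
          have h11 : j ≤ k + q := by omega
          generalize k + q = u at *
          nlinarith
        obtain ⟨s, hs⟩ := Nat.exists_eq_add_of_le hMr
        have h7 : N - M - (k + q - j) = s := by omega
        have hkey : (N - (k + q)) * (k + q - j + 1) ≤ (N - M - (k + q - j)) * (k + q + 1) := by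
          rw [h5, h6, h7] at *
          have h8 : s + M = p + j := by omega
          rw [hp, hr] at hM2
          rw [hr]
          zify at h8 hM2 ⊢
          nlinarith
        have hpos : 0 < (k + q - j + 1) * (k + q + 1) := by positivity
        refine Nat.le_of_mul_le_mul_left ?_ hpos
        calc (k + q - j + 1) * (k + q + 1) * ((N - M).choose (k - j) * N.choose (k + q + 1))
            = (N - M).choose (k - j) * (N.choose (k + q + 1) * (k + q + 1)) * (k + q - j + 1) := by
              ring
          _ = ((N - M).choose (k - j) * N.choose (k + q)) * ((N - (k + q)) * (k + q - j + 1)) := by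
              rw [e2]; ring
          _ ≤ ((N - M).choose (k + q - j) * N.choose k) *
                ((N - M - (k + q - j)) * (k + q + 1)) := Nat.mul_le_mul ih hkey
          _ = ((N - M).choose (k + q - j) * (N - M - (k + q - j))) * N.choose k * (k + q + 1) := by
              ring
          _ = (k + q - j + 1) * (k + q + 1) * ((N - M).choose (k + q - j + 1) * N.choose k) := by
              rw [← e1]; ring
    have := main (ks - k) (by omega)
    rwa [show k + (ks - k) = ks by omega] at this

/-- large `J`: `C(n-L,k-J)/C(n,k) = (C((n-i)-(L-i),(k-i)-(J-i))/C(n-i,k-i)) (C(n-i,k-i)/C(n,k))`;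
the first factor by `choose_unr` (for `n1 - i ≤ n - i`, `L - i`, `J - i`) and `choose_ratio_max`,
the second by `choose_pow_high` and `50 k ≤ 19 n`. -/
theorem hh_combine {n1 n L J i ks k : ℕ} (hL : L ≤ n1) (hn : n1 ≤ n) (hi : i ≤ J) (hJ : J ≤ L)
    (hj : J - i ≤ ks) (hks : ks ≤ n1 - i)
    (h1 : (J - i) * (n1 - i + 1) ≤ (L - i) * (ks + 1))
    (h2 : (L - i) * ks ≤ (J - i) * (n1 - i + 1))
    (hk : J ≤ k) (hkn : 50 * k ≤ 19 * n) :
    ((n - L).choose (k - J) : ℝ) ≤
      (19 / 50 : ℝ) ^ i * (((n1 - L).choose (ks - (J - i)) : ℝ) / ((n1 - i).choose ks : ℝ)) *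
        n.choose k := by
  have hpos1 : (0 : ℝ) < ((n1 - i).choose ks : ℝ) := by
    exact_mod_cast Nat.choose_pos hks
  set U : ℝ := ((n1 - L).choose (ks - (J - i)) : ℝ) / ((n1 - i).choose ks : ℝ) with hU
  have hU0 : 0 ≤ U := by positivity
  have e1 : n1 - i - (L - i) = n1 - L := by omega
  have e2 : n - i - (L - i) = n - L := by omega
  have hbase : ∀ k', J - i ≤ k' → k' ≤ n1 - i →
      (((n1 - i) - (L - i)).choose (k' - (J - i)) : ℝ) ≤ U * (n1 - i).choose k' := by
    intro k' hk1 hk2
    have h3 := choose_ratio_max (N := n1 - i) (M := L - i) (j := J - i) (ks := ks) (by omega) hj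
      hks h1 h2 k' hk1 hk2
    rw [e1] at h3 ⊢
    have h4 : ((n1 - L).choose (k' - (J - i)) : ℝ) * ((n1 - i).choose ks : ℝ) ≤
        ((n1 - L).choose (ks - (J - i)) : ℝ) * ((n1 - i).choose k' : ℝ) := by exact_mod_cast h3
    rw [hU, div_mul_eq_mul_div, le_div_iff₀ hpos1]
    exact h4
  have h5 := choose_unr (n1 := n1 - i) (n := n - i) (L := L - i) (J := J - i) (by omega) (by omega)
    (by omega) U hbase (k - i) (by omega) (by omega)
  rw [e2, show k - i - (J - i) = k - J by omega] at h5
  have h6 := choose_pow_high (n := n) (i := i) (k := k) (by omega) (by omega)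
  have h7 : ((n - i).choose (k - i) : ℝ) ≤ (19 / 50 : ℝ) ^ i * n.choose k := by
    rcases Nat.eq_zero_or_pos n with hn0 | hn0
    · subst hn0
      have : k = 0 := by omega
      subst this
      have : i = 0 := by omega
      subst this
      simp
    · have h8 : ((n - i).choose (k - i) : ℝ) * (n : ℝ) ^ i ≤ (k : ℝ) ^ i * n.choose k := by
        exact_mod_cast h6
      have hn' : (0 : ℝ) < n := by exact_mod_cast hn0
      have h9 : (k : ℝ) ^ i ≤ ((19 / 50 : ℝ) * n) ^ i := by
        refine pow_le_pow_left₀ (by positivity) ?_ i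
        have : (50 : ℝ) * k ≤ 19 * n := by exact_mod_cast hkn
        linarith
      rw [mul_pow] at h9
      have h10 : ((n - i).choose (k - i) : ℝ) * (n : ℝ) ^ i ≤
          ((19 / 50 : ℝ) ^ i * n.choose k) * (n : ℝ) ^ i := by
        calc ((n - i).choose (k - i) : ℝ) * (n : ℝ) ^ i ≤ (k : ℝ) ^ i * n.choose k := h8
          _ ≤ ((19 / 50 : ℝ) ^ i * (n : ℝ) ^ i) * n.choose k :=
              mul_le_mul_of_nonneg_right h9 (Nat.cast_nonneg _)
          _ = ((19 / 50 : ℝ) ^ i * n.choose k) * (n : ℝ) ^ i := by ring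
      exact le_of_mul_le_mul_right h10 (pow_pos hn' i)
  calc ((n - L).choose (k - J) : ℝ) ≤ U * (n - i).choose (k - i) := h5
    _ ≤ U * ((19 / 50 : ℝ) ^ i * n.choose k) := mul_le_mul_of_nonneg_left h7 hU0
    _ = (19 / 50 : ℝ) ^ i * U * n.choose k := by ring

/-- `J = L + 1`: from `choose_top`. -/
theorem hh_top {n L k : ℕ} (hk : L + 1 ≤ k) (hkn : 50 * k ≤ 19 * n) :
    ((n - L).choose (k - (L + 1)) : ℝ) ≤ (19 / 50 : ℝ) ^ L * n.choose k := by
  have h6 := choose_top (n := n) (L := L) (k := k) hk (by omega)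
  have hn0 : 0 < n := by omega
  have h8 : ((n - L).choose (k - (L + 1)) : ℝ) * (n : ℝ) ^ L ≤ (k : ℝ) ^ L * n.choose k := by
    exact_mod_cast h6
  have hn' : (0 : ℝ) < n := by exact_mod_cast hn0
  have h9 : (k : ℝ) ^ L ≤ ((19 / 50 : ℝ) * n) ^ L := by
    refine pow_le_pow_left₀ (by positivity) ?_ L
    have : (50 : ℝ) * k ≤ 19 * n := by exact_mod_cast hkn
    linarith
  rw [mul_pow] at h9
  have h10 : ((n - L).choose (k - (L + 1)) : ℝ) * (n : ℝ) ^ L ≤
      ((19 / 50 : ℝ) ^ L * n.choose k) * (n : ℝ) ^ L := by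
    calc ((n - L).choose (k - (L + 1)) : ℝ) * (n : ℝ) ^ L ≤ (k : ℝ) ^ L * n.choose k := h8
      _ ≤ ((19 / 50 : ℝ) ^ L * (n : ℝ) ^ L) * n.choose k :=
          mul_le_mul_of_nonneg_right h9 (Nat.cast_nonneg _)
      _ = ((19 / 50 : ℝ) ^ L * n.choose k) * (n : ℝ) ^ L := by ring
  exact le_of_mul_le_mul_right h10 (pow_pos hn' L)

end Pool.MP322P
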