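import Pool.Agent.Lib.MP_322c5f_alP.PT01

/-! job 322P-T4c: refinements for the uniform argument (`n ≥ 300`): the constant `13/5` for
`k < 19 n / 50`, combined bounds for large `J`, monotonicity in `n`. -/

set_option autoImplicit false

open Finset

namespace Pool.MP322P

open Pool.MP322

/-- for `n ≤ N` and `K / n ≥ KN / N` : `C(n-i,K)/C(n,K) ≤ C(N-i,KN)/C(N,KN)` (product over
`t < i` of `(n-t-K)/(n-t) ≤ (N-t-KN)/(N-t)`, which is `KN (n-t) ≤ K (N-t)`; true because
`KN n ≤ K N` and `N (n-t) ≤ n (N-t)`). -/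
theorem rho_fin {n N K KN i : ℕ} (hn : n ≤ N) (h : KN * n ≤ K * N) (hi : KN + i ≤ N)
    (hin : i ≤ n) :
    (n - i).choose K * N.choose KN ≤ (N - i).choose KN * n.choose K := by
  induction i with
  | zero => simp [mul_comm]
  | succ i ih =>
    have ih := ih (by omega) (by omega)
    obtain ⟨a, ha⟩ := Nat.exists_eq_add_of_le hin
    obtain ⟨A, hA⟩ := Nat.exists_eq_add_of_le (show i + 1 ≤ N by omega)
    have e1 : n - i = a + 1 := by omega
    have e2 : N - i = A + 1 := by omega
    have e3 : n - (i + 1) = a := by omega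
    have e4 : N - (i + 1) = A := by omega
    rw [e1, e2] at ih
    rw [e3, e4]
    have e5 : a.choose K * (a + 1) = (a + 1).choose K * (a + 1 - K) := Nat.choose_mul_succ_eq a K
    have e6 : A.choose KN * (A + 1) = (A + 1).choose KN * (A + 1 - KN) :=
      Nat.choose_mul_succ_eq A KN
    have hmul : KN * (a + 1) ≤ K * (A + 1) := by
      have hn0 : 0 < n := by omega
      refine Nat.le_of_mul_le_mul_left ?_ hn0
      have h1 : N * (a + 1) ≤ n * (A + 1) := by
        have h2 : a ≤ A := by omega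
        rw [ha, hA]
        nlinarith
      calc n * (KN * (a + 1)) = (KN * n) * (a + 1) := by ring
        _ ≤ (K * N) * (a + 1) := Nat.mul_le_mul_right _ h
        _ = K * (N * (a + 1)) := by ring
        _ ≤ K * (n * (A + 1)) := Nat.mul_le_mul_left _ h1
        _ = n * (K * (A + 1)) := by ring
    have hkey : (a + 1 - K) * (A + 1) ≤ (A + 1 - KN) * (a + 1) := by
      rcases Nat.lt_or_ge (a + 1) K with h1 | h1
      · rw [Nat.sub_eq_zero_of_le h1.le]; simp
      · obtain ⟨s, hs⟩ := Nat.exists_eq_add_of_le h1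
        obtain ⟨r, hr⟩ := Nat.exists_eq_add_of_le (show KN ≤ A + 1 by omega)
        have h2 : a + 1 - K = s := by omega
        have h3 : A + 1 - KN = r := by omega
        rw [h2, h3, hs, hr]
        rw [hs, hr] at hmul
        nlinarith
    have hpos : 0 < (a + 1) * (A + 1) := by positivity
    refine Nat.le_of_mul_le_mul_left ?_ hpos
    calc (a + 1) * (A + 1) * (a.choose K * N.choose KN)
        = (a.choose K * (a + 1)) * (A + 1) * N.choose KN := by ring
      _ = ((a + 1).choose K * N.choose KN) * ((a + 1 - K) * (A + 1)) := by rw [e5]; ring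
      _ ≤ ((A + 1).choose KN * n.choose K) * ((A + 1 - KN) * (a + 1)) := Nat.mul_le_mul ih hkey
      _ = ((A + 1).choose KN * (A + 1 - KN)) * n.choose K * (a + 1) := by ring
      _ = (a + 1) * (A + 1) * (A.choose KN * n.choose K) := by rw [← e6]; ring

/-- `K ≥ κ n`, `κ = p / q` : `C(n-i,K)/C(n,K) ≤ (1-κ)^i` (`choose_pow_low`). -/
theorem rho_inf {n K i p q : ℕ} (hq : 0 < q) (hp : p ≤ q) (h : p * n ≤ q * K) (hin : i ≤ n)
    (hK : K ≤ n) (hn : 0 < n) :
    ((n - i).choose K : ℝ) ≤ (((q - p : ℕ) : ℝ) / q) ^ i * n.choose K := by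
  have h1 := choose_pow_low hin hK
  have hn' : (0 : ℝ) < n := by exact_mod_cast hn
  have hq' : (0 : ℝ) < q := by exact_mod_cast hq
  have h2 : ((n - i).choose K : ℝ) * (n : ℝ) ^ i ≤ ((n - K : ℕ) : ℝ) ^ i * n.choose K := by
    exact_mod_cast h1
  have h3 : ((n - K : ℕ) : ℝ) / n ≤ ((q - p : ℕ) : ℝ) / q := by
    rw [div_le_div_iff₀ hn' hq']
    have h4 : (n - K) * q ≤ (q - p) * n := by
      obtain ⟨s, hs⟩ := Nat.exists_eq_add_of_le hK
      obtain ⟨r, hr⟩ := Nat.exists_eq_add_of_le hp
      have h5 : n - K = s := by omega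
      have h6 : q - p = r := by omega
      rw [h5, h6]
      rw [hs, hr] at h ⊢
      nlinarith
    exact_mod_cast h4
  have h4 : ((n - i).choose K : ℝ) ≤ (((n - K : ℕ) : ℝ) / n) ^ i * n.choose K := by
    rw [div_pow, div_mul_eq_mul_div, le_div_iff₀ (by positivity)]
    exact h2
  refine h4.trans ?_
  apply mul_le_mul_of_nonneg_right _ (Nat.cast_nonneg _)
  exact pow_le_pow_left₀ (by positivity) h3 i

end Pool.MP322P
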