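import Pool.Agent.Lib.MP_322c5f_alP.PT04
import Pool.Agent.Lib.MP_322c5f_alP.PT04b
import Pool.Agent.Lib.MP_322c5f_alP.PT04c
import Pool.Agent.Lib.MP_322c5f_alP.PK06

/-! job 322P-T5: kernel checks for the uniform argument (`n ≥ n1`).

Weights: `Wt w A Bm J ≤ dig B T J / 2^(s J)` for `J ≤ kx`, `≤ 8 L 2^L` for `J > kx`. -/

set_option autoImplicit false

open Finset

namespace Pool.MP322P

open Pool.MP322

/-- binomial coefficient (for the kernel). -/
def bnm (n k : ℕ) : ℕ := n.descFactorial k / k.factorial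

theorem bnm_eq (n k : ℕ) : bnm n k = n.choose k :=
  (Nat.choose_eq_descFactorial_div_factorial n k).symm

/-- numerator of the weight number `J` (denominator `2^(s J)`). -/
def wN (L B T s kx J : ℕ) : ℕ := if J ≤ kx then dig B T J else 8 * L * 2 ^ L * 2 ^ (s * J)

/-- low part: `W_J ≤ ∑ a / D C(L-i,J)` for `J ≤ J1`. -/
def loOk (D L B T s J1 : ℕ) (al : List (ℕ × ℕ)) : Bool :=
  (List.range (J1 + 1)).all fun J =>
    decide (D * dig B T J ≤ 2 ^ (s * J) * (al.map fun p => p.2 * bnm (L - p.1) J).sum)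

/-- `2^S ∑ α_i ρ_i`, `ρ_i = C(N-i,KN)/C(N,KN)`. -/
def loSum (S D N KN : ℕ) (al : List (ℕ × ℕ)) : ℕ :=
  (al.map fun p => (2 ^ S * p.2 * bnm (N - p.1) KN) / (D * bnm N KN) + 1).sum

/-- `2^S ∑ α_i (1 - p/q)^i`. -/
def loSumI (S D p q : ℕ) (al : List (ℕ × ℕ)) : ℕ :=
  (al.map fun x => (2 ^ S * x.2 * (q - p) ^ x.1) / (D * q ^ x.1) + 1).sum

/-- the index `i` for `J`. -/
def iJ (L J : ℕ) : ℕ := (50 * J - 19 * L) / 31

/-- the optimal `k`. -/
def ksJ (L n1 J : ℕ) : ℕ :=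
  ((J - iJ L J) * (n1 - iJ L J + 1) + (L - iJ L J) - 1) / (L - iJ L J) - 1

/-- one term of the high part. -/
def hiT (S L n1 B T s kx J : ℕ) : ℕ :=
  (2 ^ S * 19 ^ iJ L J * bnm (n1 - L) (ksJ L n1 J - (J - iJ L J)) * wN L B T s kx J) /
    (50 ^ iJ L J * bnm (n1 - iJ L J) (ksJ L n1 J) * 2 ^ (s * J)) + 1

/-- conditions of `hh_combine`. -/
def hiOk (L n1 J : ℕ) : Bool :=
  decide (iJ L J ≤ J) && decide (J - iJ L J ≤ ksJ L n1 J) && decide (ksJ L n1 J ≤ n1 - iJ L J) &&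
  decide ((J - iJ L J) * (n1 - iJ L J + 1) ≤ (L - iJ L J) * (ksJ L n1 J + 1)) &&
  decide ((L - iJ L J) * ksJ L n1 J ≤ (J - iJ L J) * (n1 - iJ L J + 1))

/-- high part: sum over `J1 < J ≤ L + 1`. -/
def hiSum (S L n1 B T s kx J1 : ℕ) : ℕ :=
  ((List.range (L - J1)).map fun j => hiT S L n1 B T s kx (J1 + 1 + j)).sum +
    ((2 ^ S * 19 ^ L * wN L B T s kx (L + 1)) / (50 ^ L * 2 ^ (s * (L + 1))) + 1)

/-- all the conditions for the high part. -/
def hiOks (L n1 J1 : ℕ) : Bool := (List.range (L - J1)).all fun j => hiOk L n1 (J1 + 1 + j)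

/-- check for the range `n1 ≤ n ≤ N`, `K/n ≥ KN/N`. -/
def chkFin (S D L B T s kx J1 n1 N KN : ℕ) (al : List (ℕ × ℕ)) (x : ℕ) : Bool :=
  decide (J1 * N ≤ L * KN) && decide (J1 ≤ L) && decide (L ≤ n1) && decide (0 < D) &&
  decide (KN ≤ N) && decide (J1 ≤ kx) &&
  (al.all fun p => decide (p.1 ≤ L) && decide (KN + p.1 ≤ N)) &&
  loOk D L B T s J1 al && hiOks L n1 J1 &&
  decide (130000 * (loSum S D N KN al + hiSum S L n1 B T s kx J1) ≤ 5 * x * 2 ^ S)

/-- check for the range `n1 ≤ n`, `K/n ≥ p/q`. -/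
def chkInf (S D L B T s kx J1 n1 p q : ℕ) (al : List (ℕ × ℕ)) (x : ℕ) : Bool :=
  decide (J1 * q ≤ L * p) && decide (J1 ≤ L) && decide (L ≤ n1) && decide (0 < D) &&
  decide (0 < q) && decide (p ≤ q) && decide (J1 ≤ kx) &&
  (al.all fun p => decide (p.1 ≤ L)) &&
  loOk D L B T s J1 al && hiOks L n1 J1 &&
  decide (130000 * (loSumI S D p q al + hiSum S L n1 B T s kx J1) ≤ 5 * x * 2 ^ S)

private theorem div_le_floor (a b : ℕ) : (a : ℝ) / b ≤ ((a / b + 1 : ℕ) : ℝ) := by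
  have h := (Nat.lt_floor_add_one ((a : ℝ) / b)).le
  rw [Nat.floor_div_eq_div] at h
  push_cast
  exact h

private theorem list_sum_exchange (al : List (ℕ × ℕ)) (a f : ℕ → ℝ) (s : Finset ℕ)
    (hs : ∀ p ∈ al, p.1 ∈ s) :
    ∑ i ∈ s, (al.map fun p => if p.1 = i then a p.2 else 0).sum * f i =
      (al.map fun p => a p.2 * f p.1).sum := by
  induction al with
  | nil => simp
  | cons p al ih =>
    have h1 := ih fun q hq => hs q (List.mem_cons_of_mem p hq)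
    have h2 : p.1 ∈ s := hs p List.mem_cons_self
    simp only [List.map_cons, List.sum_cons, add_mul, Finset.sum_add_distrib, ite_mul, zero_mul]
    rw [Finset.sum_ite_eq, if_pos h2]
    congr 1

private theorem list_sum_le (al : List (ℕ × ℕ)) (f g : ℕ × ℕ → ℝ) (h : ∀ p ∈ al, f p ≤ g p) :
    (al.map f).sum ≤ (al.map g).sum := by
  induction al with
  | nil => simp
  | cons p al ih =>
    rw [List.map_cons, List.map_cons, List.sum_cons, List.sum_cons]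
    exact add_le_add (h p List.mem_cons_self) (ih fun q hq => h q (List.mem_cons_of_mem p hq))

private theorem list_sum_div (al : List (ℕ × ℕ)) (f : ℕ × ℕ → ℕ) (c : ℝ) :
    (al.map fun p => (f p : ℝ) / c).sum = (((al.map f).sum : ℕ) : ℝ) / c := by
  induction al with
  | nil => simp
  | cons p al ih =>
    rw [List.map_cons, List.map_cons, List.sum_cons, List.sum_cons, ih]
    push_cast
    ring

/-- the factors of the high part. -/
private noncomputable def hF (L n1 J : ℕ) : ℝ :=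
  if J ≤ L then (19 / 50 : ℝ) ^ iJ L J * (((n1 - L).choose (ksJ L n1 J - (J - iJ L J)) : ℝ) /
    ((n1 - iJ L J).choose (ksJ L n1 J) : ℝ)) else (19 / 50 : ℝ) ^ L

private theorem hF_nonneg (L n1 J : ℕ) : 0 ≤ hF L n1 J := by
  unfold hF
  split_ifs <;> positivity

private theorem Wt_le_wN {w : Multiset ℕ → ℕ → ℝ} {A Bm L B T s kx : ℕ}
    (hW1 : ∀ J ≤ kx, Wt w A Bm J ≤ (dig B T J : ℝ) / 2 ^ (s * J))
    (hW2 : ∀ J, kx < J → Wt w A Bm J ≤ 8 * L * 2 ^ L) (J : ℕ) :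
    Wt w A Bm J ≤ (wN L B T s kx J : ℝ) / 2 ^ (s * J) := by
  unfold wN
  split_ifs with h
  · exact hW1 J h
  · refine (hW2 J (by omega)).trans (le_of_eq ?_)
    have h0 : (2 : ℝ) ^ (s * J) ≠ 0 := by positivity
    push_cast
    rw [mul_div_assoc, div_self h0, mul_one]

private theorem hi_bound {w : Multiset ℕ → ℕ → ℝ} {A Bm L B T s kx : ℕ} (S n1 J1 : ℕ)
    (hJ1 : J1 ≤ L)
    (hW1 : ∀ J ≤ kx, Wt w A Bm J ≤ (dig B T J : ℝ) / 2 ^ (s * J))
    (hW2 : ∀ J, kx < J → Wt w A Bm J ≤ 8 * L * 2 ^ L) :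
    ∑ J ∈ Ioc J1 (L + 1), hF L n1 J * Wt w A Bm J ≤
      (hiSum S L n1 B T s kx J1 : ℝ) / 2 ^ S := by
  have hS : (0 : ℝ) < 2 ^ S := by positivity
  have hterm : ∀ J ≤ L, hF L n1 J * Wt w A Bm J ≤ (hiT S L n1 B T s kx J : ℝ) / 2 ^ S := by
    intro J hJ
    have h1 := Wt_le_wN hW1 hW2 J
    refine (mul_le_mul_of_nonneg_left h1 (hF_nonneg L n1 J)).trans ?_
    rw [le_div_iff₀ hS]
    unfold hiT
    refine le_trans (le_of_eq ?_) (div_le_floor _ _)
    rw [bnm_eq, bnm_eq]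
    unfold hF
    rw [if_pos hJ]
    push_cast
    rw [div_pow, div_mul_div_comm, div_mul_div_comm, div_mul_eq_mul_div]
    congr 1
    ring
  have htop : hF L n1 (L + 1) * Wt w A Bm (L + 1) ≤
      (((2 ^ S * 19 ^ L * wN L B T s kx (L + 1)) / (50 ^ L * 2 ^ (s * (L + 1))) + 1 : ℕ) : ℝ) /
        2 ^ S := by
    have h1 := Wt_le_wN hW1 hW2 (L + 1)
    refine (mul_le_mul_of_nonneg_left h1 (hF_nonneg L n1 (L + 1))).trans ?_
    rw [le_div_iff₀ hS]
    refine le_trans (le_of_eq ?_) (div_le_floor _ _)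
    unfold hF
    rw [if_neg (by omega)]
    push_cast
    rw [div_pow, div_mul_div_comm, div_mul_eq_mul_div]
    congr 1
    ring
  have hsum : ∑ J ∈ Ioc J1 L, hF L n1 J * Wt w A Bm J ≤
      ((((List.range (L - J1)).map fun j => hiT S L n1 B T s kx (J1 + 1 + j)).sum : ℕ) : ℝ) /
        2 ^ S := by
    have h2 : ((List.range (L - J1)).map fun j => hiT S L n1 B T s kx (J1 + 1 + j)).sum =
        ∑ j ∈ range (L - J1), hiT S L n1 B T s kx (J1 + 1 + j) := by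
      rw [← List.sum_toFinset]
      · rw [List.toFinset_range]
      · exact List.nodup_range
    have h3 : ∑ J ∈ Ioc J1 L, hF L n1 J * Wt w A Bm J =
        ∑ j ∈ range (L - J1), hF L n1 (J1 + 1 + j) * Wt w A Bm (J1 + 1 + j) := by
      have h4 : Ioc J1 L = (range (L - J1)).map (addLeftEmbedding (J1 + 1)) := by
        ext J
        simp only [Finset.mem_Ioc, Finset.mem_map, Finset.mem_range, addLeftEmbedding_apply]
        constructor
        · rintro ⟨h5, h6⟩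
          exact ⟨J - (J1 + 1), by omega, by omega⟩
        · rintro ⟨j, h5, rfl⟩
          omega
      rw [h4, Finset.sum_map]
      rfl
    rw [h2, h3]
    push_cast
    rw [Finset.sum_div]
    refine Finset.sum_le_sum fun j hj => ?_
    rw [Finset.mem_range] at hj
    exact hterm (J1 + 1 + j) (by omega)
  have hsplit : Ioc J1 (L + 1) = insert (L + 1) (Ioc J1 L) := by
    ext J
    simp only [Finset.mem_Ioc, Finset.mem_insert]
    omega
  rw [hsplit, Finset.sum_insert (by simp)]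
  unfold hiSum
  push_cast at hsum htop ⊢
  rw [add_div, add_comm]
  exact add_le_add hsum htop

private theorem psi_core {L : ℕ} {P : Multiset ℕ → Prop} {w : Multiset ℕ → ℕ → ℝ}
    (hw : LevelW L P w) (hw0 : ∀ τ J, 0 ≤ w τ J) (hwL : ∀ τ J, τ.sum ≤ L → L + 1 < J → w τ J = 0)
    {n K k0 A Bm : ℕ} (hB : Bm ≤ L) (hP : ∀ τ, A < τ.sum → τ.sum ≤ Bm → P τ)
    {S D B T s kx J1 n1 x Z : ℕ} {al : List (ℕ × ℕ)}
    (hW1 : ∀ J ≤ kx, Wt w A Bm J ≤ (dig B T J : ℝ) / 2 ^ (s * J))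
    (hW2 : ∀ J, kx < J → Wt w A Bm J ≤ 8 * L * 2 ^ L)
    (hJ1 : J1 * (n + 1) ≤ L * (K + 1)) (hJL : J1 ≤ L) (hLn : L ≤ n1) (hD : 0 < D)
    (hJk : J1 ≤ kx) (hal : ∀ p ∈ al, p.1 ≤ L) (hlo : loOk D L B T s J1 al = true)
    (hhi : hiOks L n1 J1 = true) (ρ : ℕ → ℝ)
    (hρ : ∀ p ∈ al, ((n - p.1).choose K : ℝ) ≤ ρ p.1 * n.choose K)
    (hZ : (al.map fun p => (p.2 : ℝ) / D * ρ p.1).sum ≤ (Z : ℝ) / 2 ^ S)
    (hx : 130000 * (Z + hiSum S L n1 B T s kx J1) ≤ 5 * x * 2 ^ S)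
    (hn1 : n1 ≤ n) (hK1 : 1 ≤ K) (hKn : K ≤ n)
    (hk0 : 50 * k0 < 19 * n + 50) : PSIp n K k0 A Bm (x / 10000) := by
  classical
  have hS : (0 : ℝ) < 2 ^ S := by positivity
  obtain ⟨I, hI⟩ : ∃ I : Finset ℕ, I = (al.map Prod.fst).toFinset := ⟨_, rfl⟩
  have hmem : ∀ p ∈ al, p.1 ∈ I := by
    intro p hp
    rw [hI, List.mem_toFinset]
    exact List.mem_map_of_mem hp
  have hmem' : ∀ i ∈ I, ∃ p ∈ al, p.1 = i := by
    intro i hi
    rw [hI, List.mem_toFinset, List.mem_map] at hi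
    exact hi
  refine PSIp_of_test38 hw hw0 hwL (hLn.trans hn1) hB hP hK1 hKn (by omega) J1 hJ1 I
    (fun i => (al.map fun p => if p.1 = i then (p.2 : ℝ) / D else 0).sum) ρ ?_ ?_ ?_ ?_
    (hF L n1) (hF_nonneg L n1) ?_ ?_
  · intro i _
    refine List.sum_nonneg fun y hy => ?_
    rw [List.mem_map] at hy
    obtain ⟨p, -, rfl⟩ := hy
    split_ifs
    · positivity
    · exact le_refl _
  · intro i hi
    obtain ⟨p, hp, rfl⟩ := hmem' i hi
    exact hal p hp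
  · intro J hJ
    rw [list_sum_exchange al (fun a => (a : ℝ) / D) (fun i => ((L - i).choose J : ℝ)) I hmem]
    refine (hW1 J (hJ.trans hJk)).trans ?_
    unfold loOk at hlo
    rw [List.all_eq_true] at hlo
    have h1 := hlo J (List.mem_range.2 (by omega))
    rw [decide_eq_true_eq] at h1
    have h2 : (al.map fun p => (p.2 : ℝ) / D * ((L - p.1).choose J : ℝ)).sum =
        (((al.map fun p => p.2 * bnm (L - p.1) J).sum : ℕ) : ℝ) / D := by
      rw [← list_sum_div]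
      congr 1
      refine List.map_congr_left fun p _ => ?_
      rw [bnm_eq]
      push_cast
      ring
    rw [h2]
    have hD' : (0 : ℝ) < D := by exact_mod_cast hD
    have h3 : (0 : ℝ) < 2 ^ (s * J) := by positivity
    rw [div_le_div_iff₀ h3 hD']
    have h4 : ((D * dig B T J : ℕ) : ℝ) ≤
        ((2 ^ (s * J) * (al.map fun p => p.2 * bnm (L - p.1) J).sum : ℕ) : ℝ) := by
      exact_mod_cast h1
    push_cast at h4 ⊢
    linarith
  · intro i hi
    obtain ⟨p, hp, rfl⟩ := hmem' i hi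
    exact hρ p hp
  · intro k hk J hJ1' hJL' hJk'
    have h50 : 50 * k ≤ 19 * n := by omega
    by_cases hJ : J ≤ L
    · unfold hiOks at hhi
      rw [List.all_eq_true] at hhi
      have h1 := hhi (J - (J1 + 1)) (List.mem_range.2 (by omega))
      have h2 : J1 + 1 + (J - (J1 + 1)) = J := by omega
      rw [h2] at h1
      unfold hiOk at h1
      simp only [Bool.and_eq_true, decide_eq_true_eq] at h1
      obtain ⟨⟨⟨⟨c1, c2⟩, c3⟩, c4⟩, c5⟩ := h1
      have h3 := hh_combine hLn hn1 c1 hJ c2 c3 c4 c5 hJk' h50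
      unfold hF
      rw [if_pos hJ]
      exact h3
    · have h1 : J = L + 1 := by omega
      subst h1
      unfold hF
      rw [if_neg hJ]
      exact hh_top hJk' h50
  · rw [list_sum_exchange al (fun a => (a : ℝ) / D) ρ I hmem]
    have h1 := hi_bound (w := w) (A := A) (Bm := Bm) S n1 J1 hJL hW1 hW2
    have h2 : ((130000 * (Z + hiSum S L n1 B T s kx J1) : ℕ) : ℝ) ≤ ((5 * x * 2 ^ S : ℕ) : ℝ) := by
      exact_mod_cast hx
    push_cast at h2
    have h3 : 13 / 5 * ((Z : ℝ) / 2 ^ S + (hiSum S L n1 B T s kx J1 : ℝ) / 2 ^ S) ≤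
        (x : ℝ) / 10000 := by
      rw [← add_div, ← mul_div_assoc, div_le_div_iff₀ hS (by norm_num)]
      linarith
    refine le_trans ?_ h3
    exact mul_le_mul_of_nonneg_left (add_le_add hZ h1) (by norm_num)

/-- `PSIp_of_test38` with `J1`, the finset of the first components of `al`,
`α i = ∑_{(i,a) ∈ al} a / D`, `ρ i = C(N-i,KN)/C(N,KN)` (`rho_fin`),
`h J` = the factor of `hh_combine` for `J ≤ L`, `(19/50)^L` for `J = L+1`. -/
theorem psi_fin {L : ℕ} {P : Multiset ℕ → Prop} {w : Multiset ℕ → ℕ → ℝ}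
    (hw : LevelW L P w) (hw0 : ∀ τ J, 0 ≤ w τ J) (hwL : ∀ τ J, τ.sum ≤ L → L + 1 < J → w τ J = 0)
    {n K k0 A Bm : ℕ} (hB : Bm ≤ L) (hP : ∀ τ, A < τ.sum → τ.sum ≤ Bm → P τ)
    {S D B T s kx J1 n1 N KN x : ℕ} {al : List (ℕ × ℕ)}
    (hW1 : ∀ J ≤ kx, Wt w A Bm J ≤ (dig B T J : ℝ) / 2 ^ (s * J))
    (hW2 : ∀ J, kx < J → Wt w A Bm J ≤ 8 * L * 2 ^ L)
    (hc : chkFin S D L B T s kx J1 n1 N KN al x = true)
    (hn1 : n1 ≤ n) (hN : n ≤ N) (hK : KN * n ≤ K * N) (hK1 : 1 ≤ K) (hKn : K ≤ n)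
    (hk0 : 50 * k0 < 19 * n + 50) : PSIp n K k0 A Bm (x / 10000) := by
  unfold chkFin at hc
  simp only [Bool.and_eq_true, decide_eq_true_eq] at hc
  obtain ⟨⟨⟨⟨⟨⟨⟨⟨⟨c1, c2⟩, c3⟩, c4⟩, c5⟩, c6⟩, c7⟩, c8⟩, c9⟩, c10⟩ := hc
  rw [List.all_eq_true] at c7
  have c7a : ∀ p ∈ al, p.1 ≤ L ∧ KN + p.1 ≤ N := by
    intro p hp
    have h1 := c7 p hp
    simp only [Bool.and_eq_true, decide_eq_true_eq] at h1
    exact h1
  have hN0 : 0 < N := by omega
  have hcN : (0 : ℝ) < N.choose KN := by exact_mod_cast Nat.choose_pos c5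
  have hD' : (0 : ℝ) < D := by exact_mod_cast c4
  have hS : (0 : ℝ) < 2 ^ S := by positivity
  have hJ : J1 * (n + 1) ≤ L * (K + 1) := by
    have h1 : J1 * n ≤ L * K := by
      refine Nat.le_of_mul_le_mul_left ?_ hN0
      calc N * (J1 * n) = (J1 * N) * n := by ring
        _ ≤ (L * KN) * n := Nat.mul_le_mul_right _ c1
        _ = L * (KN * n) := by ring
        _ ≤ L * (K * N) := Nat.mul_le_mul_left _ hK
        _ = N * (L * K) := by ring
    rw [mul_add, mul_add]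
    omega
  refine psi_core hw hw0 hwL hB hP hW1 hW2 hJ c2 c3 c4 c6 (fun p hp => (c7a p hp).1) c8 c9
    (fun i => ((N - i).choose KN : ℝ) / N.choose KN) ?_ ?_ c10 hn1 hK1 hKn hk0
  · intro p hp
    have h1 := rho_fin (i := p.1) hN hK (c7a p hp).2
      (((c7a p hp).1.trans c3).trans hn1)
    have h2 : ((n - p.1).choose K : ℝ) * N.choose KN ≤
        ((N - p.1).choose KN : ℝ) * n.choose K := by exact_mod_cast h1
    rw [div_mul_eq_mul_div, le_div_iff₀ hcN]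
    exact h2
  · unfold loSum
    rw [← list_sum_div]
    refine list_sum_le _ _ _ fun p _ => ?_
    rw [le_div_iff₀ hS]
    refine le_trans (le_of_eq ?_) (div_le_floor _ _)
    rw [bnm_eq, bnm_eq]
    push_cast
    rw [div_mul_div_comm, div_mul_eq_mul_div]
    congr 1
    ring

/-- the same with `ρ i = (1 - p/q)^i` (`rho_inf`). -/
theorem psi_inf {L : ℕ} {P : Multiset ℕ → Prop} {w : Multiset ℕ → ℕ → ℝ}
    (hw : LevelW L P w) (hw0 : ∀ τ J, 0 ≤ w τ J) (hwL : ∀ τ J, τ.sum ≤ L → L + 1 < J → w τ J = 0)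
    {n K k0 A Bm : ℕ} (hB : Bm ≤ L) (hP : ∀ τ, A < τ.sum → τ.sum ≤ Bm → P τ)
    {S D B T s kx J1 n1 p q x : ℕ} {al : List (ℕ × ℕ)}
    (hW1 : ∀ J ≤ kx, Wt w A Bm J ≤ (dig B T J : ℝ) / 2 ^ (s * J))
    (hW2 : ∀ J, kx < J → Wt w A Bm J ≤ 8 * L * 2 ^ L)
    (hc : chkInf S D L B T s kx J1 n1 p q al x = true)
    (hn1 : n1 ≤ n) (hK : p * n ≤ q * K) (hK1 : 1 ≤ K) (hKn : K ≤ n)
    (hk0 : 50 * k0 < 19 * n + 50) : PSIp n K k0 A Bm (x / 10000) := by
  unfold chkInf at hc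
  simp only [Bool.and_eq_true, decide_eq_true_eq] at hc
  obtain ⟨⟨⟨⟨⟨⟨⟨⟨⟨⟨c1, c2⟩, c3⟩, c4⟩, c5⟩, c6⟩, c6'⟩, c7⟩, c8⟩, c9⟩, c10⟩ := hc
  rw [List.all_eq_true] at c7
  have c7a : ∀ y ∈ al, y.1 ≤ L := by
    intro y hy
    have h1 := c7 y hy
    simpa only [decide_eq_true_eq] using h1
  have hS : (0 : ℝ) < 2 ^ S := by positivity
  have hJ : J1 * (n + 1) ≤ L * (K + 1) := by
    have h1 : J1 * n ≤ L * K := by
      refine Nat.le_of_mul_le_mul_left ?_ c5
      calc q * (J1 * n) = (J1 * q) * n := by ring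
        _ ≤ (L * p) * n := Nat.mul_le_mul_right _ c1
        _ = L * (p * n) := by ring
        _ ≤ L * (q * K) := Nat.mul_le_mul_left _ hK
        _ = q * (L * K) := by ring
    rw [mul_add, mul_add]
    omega
  refine psi_core hw hw0 hwL hB hP hW1 hW2 hJ c2 c3 c4 c6' c7a c8 c9
    (fun i => (((q - p : ℕ) : ℝ) / q) ^ i) ?_ ?_ c10 hn1 hK1 hKn hk0
  · intro y hy
    exact rho_inf c5 c6 hK (((c7a y hy).trans c3).trans hn1) hKn (by omega)
  · unfold loSumI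
    rw [← list_sum_div]
    refine list_sum_le _ _ _ fun y _ => ?_
    rw [le_div_iff₀ hS]
    refine le_trans (le_of_eq ?_) (div_le_floor _ _)
    push_cast
    rw [div_pow, div_mul_div_comm, div_mul_eq_mul_div]
    congr 1
    ring

end Pool.MP322P
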