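import Pool.Agent.Lib.MP_322c5f_alP.PT03
import Pool.Agent.Lib.MP_322c5f_alP.PT05
import Pool.Agent.Lib.MP_322c5f_alP.PN04

/-! The uniform argument for the old classes (level `L`, weights `PhiT`) and for the absolute
weights of the level `L`. -/

set_option autoImplicit false

open Finset

namespace Pool.MP322P

open Pool.MP322

/-- old classes, finite range. -/
theorem psiA_fin {L kx B T : ℕ} {yl : ℕ → ℕ} (hyl : YOK yl L) (hkx : kx ≤ L)
    (hT : ∀ k ≤ kx, ∑ m ∈ range (L + 1), ∑ τ ∈ evs m, PhiT yl L τ k = (dig B T k : ℤ))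
    {S D J1 n1 N KN x p q : ℕ} {al : List (ℕ × ℕ)}
    (hc : chkFin S D L B T 1 kx J1 n1 N KN al x = true) (hq : 0 < q) (hKN : KN * q ≤ p * N)
    {n K k0 : ℕ} (hn1 : n1 ≤ n) (hN : n ≤ N) (hK : p * n ≤ q * K) (hK1 : 1 ≤ K) (hKn : K ≤ n)
    (hk0 : 50 * k0 < 19 * n + 50) : PSIp n K k0 0 L (x / 10000) := by
  refine psi_fin (LevelW_wMix hyl kx) (wMix_nonneg yl L kx) (wMix_zero yl L kx hkx) le_rfl
    (fun _ _ _ => trivial) ?_ ?_ hc hn1 hN ?_ hK1 hKn hk0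
  · intro J hJ
    rw [one_mul]
    exact Wt_wMix_le hT hJ
  · intro J hJ
    exact_mod_cast Wt_wMix_gt (yl := yl) hJ
  · refine Nat.le_of_mul_le_mul_left ?_ hq
    calc q * (KN * n) = (KN * q) * n := by ring
      _ ≤ (p * N) * n := Nat.mul_le_mul_right _ hKN
      _ = (p * n) * N := by ring
      _ ≤ (q * K) * N := Nat.mul_le_mul_right _ hK
      _ = q * (K * N) := by ring

/-- old classes, infinite range. -/
theorem psiA_inf {L kx B T : ℕ} {yl : ℕ → ℕ} (hyl : YOK yl L) (hkx : kx ≤ L)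
    (hT : ∀ k ≤ kx, ∑ m ∈ range (L + 1), ∑ τ ∈ evs m, PhiT yl L τ k = (dig B T k : ℤ))
    {S D J1 n1 x p q : ℕ} {al : List (ℕ × ℕ)}
    (hc : chkInf S D L B T 1 kx J1 n1 p q al x = true)
    {n K k0 : ℕ} (hn1 : n1 ≤ n) (hK : p * n ≤ q * K) (hK1 : 1 ≤ K) (hKn : K ≤ n)
    (hk0 : 50 * k0 < 19 * n + 50) : PSIp n K k0 0 L (x / 10000) := by
  refine psi_inf (LevelW_wMix hyl kx) (wMix_nonneg yl L kx) (wMix_zero yl L kx hkx) le_rfl
    (fun _ _ _ => trivial) ?_ ?_ hc hn1 hK hK1 hKn hk0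
  · intro J hJ
    rw [one_mul]
    exact Wt_wMix_le hT hJ
  · intro J hJ
    exact_mod_cast Wt_wMix_gt (yl := yl) hJ

theorem NA_zero' (L : ℕ) (τ : Multiset ℕ) (J : ℕ) (h1 : τ.sum ≤ L) (h2 : L + 1 < J) :
    ((NA L τ J : ℕ) : ℝ) = 0 := by
  rw [NA_zero L τ J h1 h2, Nat.cast_zero]

/-- absolute weights, finite range. -/
theorem psiB_fin {A L B T : ℕ} (hA : A ≤ L) (hL : 1 ≤ L)
    (hT : ∀ J ≤ L + 1, (Hp A L).coeff J = dig B T J)
    {S D J1 n1 N KN x p q : ℕ} {al : List (ℕ × ℕ)}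
    (hc : chkFin S D L B T 0 (L + 1) J1 n1 N KN al x = true) (hq : 0 < q) (hKN : KN * q ≤ p * N)
    {n K k0 : ℕ} (hn1 : n1 ≤ n) (hN : n ≤ N) (hK : p * n ≤ q * K) (hK1 : 1 ≤ K) (hKn : K ≤ n)
    (hk0 : 50 * k0 < 19 * n + 50) : PSIp n K k0 A L (x / 10000) := by
  refine psi_fin (P := fun _ => True) (w := fun τ J => ((NA L τ J : ℕ) : ℝ))
    (LevelW_NA L (fun _ => True)) (fun τ J => Nat.cast_nonneg _) (NA_zero' L) le_rfl
    (fun _ _ _ => trivial) ?_ ?_ hc hn1 hN ?_ hK1 hKn hk0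
  · intro J hJ
    rw [zero_mul, pow_zero, div_one, Wt_NA, hT J hJ]
  · intro J hJ
    rw [Wt_NA]
    exact_mod_cast coeff_Hp_le A L J
  · refine Nat.le_of_mul_le_mul_left ?_ hq
    calc q * (KN * n) = (KN * q) * n := by ring
      _ ≤ (p * N) * n := Nat.mul_le_mul_right _ hKN
      _ = (p * n) * N := by ring
      _ ≤ (q * K) * N := Nat.mul_le_mul_right _ hK
      _ = q * (K * N) := by ring

/-- absolute weights, infinite range. -/
theorem psiB_inf {A L B T : ℕ} (hA : A ≤ L) (hL : 1 ≤ L)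
    (hT : ∀ J ≤ L + 1, (Hp A L).coeff J = dig B T J)
    {S D J1 n1 x p q : ℕ} {al : List (ℕ × ℕ)}
    (hc : chkInf S D L B T 0 (L + 1) J1 n1 p q al x = true)
    {n K k0 : ℕ} (hn1 : n1 ≤ n) (hK : p * n ≤ q * K) (hK1 : 1 ≤ K) (hKn : K ≤ n)
    (hk0 : 50 * k0 < 19 * n + 50) : PSIp n K k0 A L (x / 10000) := by
  refine psi_inf (P := fun _ => True) (w := fun τ J => ((NA L τ J : ℕ) : ℝ))
    (LevelW_NA L (fun _ => True)) (fun τ J => Nat.cast_nonneg _) (NA_zero' L) le_rfl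
    (fun _ _ _ => trivial) ?_ ?_ hc hn1 hK hK1 hKn hk0
  · intro J hJ
    rw [zero_mul, pow_zero, div_one, Wt_NA, hT J hJ]
  · intro J hJ
    rw [Wt_NA]
    exact_mod_cast coeff_Hp_le A L J

end Pool.MP322P
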