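import Pool.Agent.Lib.MP_322c5f_alP.PR00
import Pool.Agent.Lib.MP_322c5f_alP.PL200
import Pool.Agent.Lib.MP_322c5f_alP.PH300

/-! The classes with at most 300 moved points, `500 ≤ n ≤ 800`, `K/n ≥ 142/1000`. -/

set_option autoImplicit false
set_option maxRecDepth 100000

open Finset

namespace Pool.MP322P

theorem chkA500_142 : chkFin 60 1000000000 200 427 tot200 1 120 28 500 800 113
    [(38, 421462448), (39, 37169987), (81, 64796552080), (82, 749020813097), (114, 166820197861233), (141, 11671070276632320), (142, 13906733166908083), (165, 1609323934731501222), (166, 70781207690774049), (183, 19783709926962280433), (184, 3844519691953434297)] 541 = true := by decide +kernel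

theorem chkB500_142 : chkFin 60 1000000000 300 312 hp300 0 (300 + 1) 42 500 800 113
    [(135, 83701323084), (158, 548472061195557), (159, 91578932363715), (176, 415809543341635096), (177, 51589767129094770), (190, 20274791872862723773), (191, 48115978804124928459), (202, 1340053917808337280474), (203, 472918283744482942576), (213, 2733388202135614442072), (214, 4697545912179780680110), (227, 10741749904808579378380), (228, 14335264589427930188756), (242, 43285663421046035086361), (243, 38970839520274275935564), (257, 109598042120298000561658), (258, 143891374020060986800728), (272, 555390013043432302594328), (273, 146620847514009803846218), (285, 274262048076687549495801), (286, 1387211409834408154575204), (297, 1890934962976378371086986)] 23 = true := by decide +kernel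

theorem psi3_500_142 (n K k0 : ℕ) (h1 : 500 ≤ n) (h2 : n ≤ 800) (h3 : 142 * n ≤ 1000 * K) (h4 : 1 ≤ K)
    (h5 : K ≤ n) (h6 : 50 * k0 < 19 * n + 50) :
    PSIp n K k0 0 300 (((564 : ℕ) : ℝ) / 10000) := by
  have hy := (YOK_of_yCheck yl200_chk).2.2
  have a := psiA_fin hy (by norm_num) lev200 chkA500_142 (by norm_num : 0 < 1000)
    (by norm_num : 113 * 1000 ≤ 142 * 800) h1 h2 h3 h4 h5 h6
  have b := psiB_fin (by norm_num) (by norm_num) hp300_dig chkB500_142 (by norm_num : 0 < 1000)
    (by norm_num : 113 * 1000 ≤ 142 * 800) h1 h2 h3 h4 h5 h6
  exact (a.add (by norm_num) (by norm_num) b).mono le_rfl le_rfl le_rfl le_rfl (by norm_num)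

end Pool.MP322P
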