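import Pool.Agent.Lib.MP_322c5f_alP.PR00
import Pool.Agent.Lib.MP_322c5f_alP.PL200
import Pool.Agent.Lib.MP_322c5f_alP.PH300

/-! The classes with at most 300 moved points, `800 ≤ n ≤ 1000`, `K/n ≥ 142/1000`. -/

set_option autoImplicit false
set_option maxRecDepth 100000

open Finset

namespace Pool.MP322P

theorem chkA800_142 : chkFin 60 1000000000 200 427 tot200 1 120 28 800 1000 142
    [(37, 16939512), (38, 430766828), (81, 259251149674), (82, 513615978167), (113, 46762220721101), (114, 111866291765396), (141, 14550761003517497), (142, 10585286771366341), (165, 1671625328141638770), (183, 20045031553588893601), (184, 3575257743612351490)] 550 = true := by decide +kernel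

theorem chkB800_142 : chkFin 60 1000000000 300 312 hp300 0 (300 + 1) 42 800 1000 142
    [(144, 3044368190829), (145, 413975879078), (167, 14095032078178480), (168, 7343736989482120), (184, 1695652301422552048), (185, 8868006724714168054), (198, 372147443285932480913), (199, 396376948529382384576), (209, 2438521319752070139410), (210, 2923286620143930315596), (223, 1489092900796149445650), (224, 18268855596012076544023), (239, 19197255751393406081730), (240, 51993004148024159664313), (255, 39215974845552706601578), (256, 198281339674453791235393), (271, 424532008817353368856137), (272, 274131316088799573395315), (285, 643188147912116359500483), (286, 1044733777204255850254718), (297, 1903383289775100052809228)] 62 = true := by decide +kernel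

theorem psi3_800_142 (n K k0 : ℕ) (h1 : 800 ≤ n) (h2 : n ≤ 1000) (h3 : 142 * n ≤ 1000 * K) (h4 : 1 ≤ K)
    (h5 : K ≤ n) (h6 : 50 * k0 < 19 * n + 50) :
    PSIp n K k0 0 300 (((612 : ℕ) : ℝ) / 10000) := by
  have hy := (YOK_of_yCheck yl200_chk).2.2
  have a := psiA_fin hy (by norm_num) lev200 chkA800_142 (by norm_num : 0 < 1000)
    (by norm_num : 142 * 1000 ≤ 142 * 1000) h1 h2 h3 h4 h5 h6
  have b := psiB_fin (by norm_num) (by norm_num) hp300_dig chkB800_142 (by norm_num : 0 < 1000)
    (by norm_num : 142 * 1000 ≤ 142 * 1000) h1 h2 h3 h4 h5 h6
  exact (a.add (by norm_num) (by norm_num) b).mono le_rfl le_rfl le_rfl le_rfl (by norm_num)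

end Pool.MP322P
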