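import Pool.Agent.Lib.MP_322c5f_alP.PA00

/-! job 322P-T1: inequalities for binomial coefficients (hypergeometric weights). -/

set_option autoImplicit false

open Finset

namespace Pool.MP322P

/-- `C(n-L,k-J)/C(n,k)` is nonincreasing in `k` from `K` on, if `J (n+1) ≤ L (K+1)`.
(One step: `(n-L-k+J)(k+1) ≤ (k+1-J)(n-k)` iff `J (n+1) ≤ L (k+1)`.) -/
theorem choose_ratio_k {n L K k J : ℕ} (hL : L ≤ n) (hKk : K ≤ k) (hk : k ≤ n)
    (hJ : J * (n + 1) ≤ L * (K + 1)) :
    (n - L).choose (k - J) * n.choose K ≤ (n - L).choose (K - J) * n.choose k := by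
  have hJK : J ≤ K := by
    by_contra hc
    push Not at hc
    have h1 : L * (K + 1) ≤ n * J := Nat.mul_le_mul hL hc
    have h2 : J * (n + 1) ≤ n * J := hJ.trans h1
    have h3 : 0 < J := by omega
    nlinarith
  induction k, hKk using Nat.le_induction with
  | base => exact le_refl _
  | succ k hKk ih =>
    have ih := ih (by omega)
    have e1 : (n - L).choose (k - J + 1) * (k - J + 1) =
        (n - L).choose (k - J) * (n - L - (k - J)) := Nat.choose_succ_right_eq _ _
    have e2 : n.choose (k + 1) * (k + 1) = n.choose k * (n - k) := Nat.choose_succ_right_eq _ _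
    have e3 : k + 1 - J = k - J + 1 := by omega
    rw [e3]
    have hkey : (n - L - (k - J)) * (k + 1) ≤ (n - k) * (k - J + 1) := by
      rcases Nat.lt_or_ge (n - L) (k - J) with h | h
      · rw [Nat.sub_eq_zero_of_le h.le]; simp
      · obtain ⟨s, hs⟩ := Nat.exists_eq_add_of_le h
        obtain ⟨q, hq⟩ := Nat.exists_eq_add_of_le (show J ≤ k by omega)
        obtain ⟨p, hp⟩ := Nat.exists_eq_add_of_le (show k ≤ n by omega)
        have h5 : n - L - (k - J) = s := by omega
        have h6 : k - J = q := by omega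
        have h7 : n - k = p := by omega
        rw [h5, h6, h7]
        have h8 : s + L = p + J := by omega
        have h9 : J * (n + 1) ≤ L * (k + 1) :=
          hJ.trans (Nat.mul_le_mul_left _ (by omega))
        subst hq
        subst hp
        zify at h8 h9 ⊢
        nlinarith
    have hpos : 0 < (k - J + 1) * (k + 1) := by positivity
    refine Nat.le_of_mul_le_mul_left ?_ hpos
    calc (k - J + 1) * (k + 1) * ((n - L).choose (k - J + 1) * n.choose K)
        = ((n - L).choose (k - J + 1) * (k - J + 1)) * (k + 1) * n.choose K := by ring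
      _ = (n - L).choose (k - J) * n.choose K * ((n - L - (k - J)) * (k + 1)) := by rw [e1]; ring
      _ ≤ (n - L).choose (K - J) * n.choose k * ((n - k) * (k - J + 1)) :=
          Nat.mul_le_mul ih hkey
      _ = (k - J + 1) * ((n - L).choose (K - J) * (n.choose k * (n - k))) := by ring
      _ = (k - J + 1) * (k + 1) * ((n - L).choose (K - J) * n.choose (k + 1)) := by
          rw [← e2]; ring

theorem vdm_low {n L i k : ℕ} (hL : L ≤ n) (hi : i ≤ L) :
    ∑ J ∈ range (k + 1), (n - L).choose (k - J) * (L - i).choose J = (n - i).choose k := by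
  have h1 : n - i = (L - i) + (n - L) := by omega
  rw [h1, Nat.add_choose_eq, Finset.Nat.sum_antidiagonal_eq_sum_range_succ_mk]
  exact Finset.sum_congr rfl fun J _ => by rw [mul_comm]

theorem choose_high {n L i J k : ℕ} (hL : L ≤ n) (hi : i ≤ J) (hJ : J ≤ L) (hk : J ≤ k) :
    (n - L).choose (k - J) * (L - i).choose (J - i) ≤ (n - i).choose (k - i) := by
  have h1 : n - i = (n - L) + (L - i) := by omega
  rw [h1, Nat.add_choose_eq]
  exact Finset.single_le_sum (f := fun ij : ℕ × ℕ => (n - L).choose ij.1 * (L - i).choose ij.2)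
    (fun _ _ => Nat.zero_le _)
    (show ((k - J, J - i) : ℕ × ℕ) ∈ antidiagonal (k - i) by
      rw [Finset.HasAntidiagonal.mem_antidiagonal]; simp only; omega)

theorem choose_pow_high {n i k : ℕ} (hi : i ≤ k) (hk : k ≤ n) :
    (n - i).choose (k - i) * n ^ i ≤ k ^ i * n.choose k := by
  induction i with
  | zero => simp
  | succ i ih =>
    have ih := ih (by omega)
    obtain ⟨a, ha⟩ := Nat.exists_eq_add_of_le (show i + 1 ≤ n by omega)
    obtain ⟨b, hb⟩ := Nat.exists_eq_add_of_le hi
    have e1 : n - i = a + 1 := by omega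
    have e2 : k - i = b + 1 := by omega
    have e3 : n - (i + 1) = a := by omega
    have e4 : k - (i + 1) = b := by omega
    rw [e1, e2] at ih
    rw [e3, e4]
    have e5 : (a + 1) * a.choose b = (a + 1).choose (b + 1) * (b + 1) := Nat.add_one_mul_choose_eq a b
    have hkey : n * (b + 1) ≤ k * (a + 1) := by
      have : b ≤ a := by omega
      rw [ha, hb]
      nlinarith
    have hpos : 0 < a + 1 := by positivity
    refine Nat.le_of_mul_le_mul_left ?_ hpos
    calc (a + 1) * (a.choose b * n ^ (i + 1))
        = ((a + 1) * a.choose b) * n ^ i * n := by ring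
      _ = ((a + 1).choose (b + 1) * n ^ i) * (n * (b + 1)) := by rw [e5]; ring
      _ ≤ (k ^ i * n.choose k) * (k * (a + 1)) := Nat.mul_le_mul ih hkey
      _ = (a + 1) * (k ^ (i + 1) * n.choose k) := by ring

theorem choose_pow_low {n i k : ℕ} (hi : i ≤ n) (hk : k ≤ n) :
    (n - i).choose k * n ^ i ≤ (n - k) ^ i * n.choose k := by
  induction i with
  | zero => simp
  | succ i ih =>
    have ih := ih (by omega)
    obtain ⟨a, ha⟩ := Nat.exists_eq_add_of_le hi
    have e1 : n - i = a + 1 := by omega
    have e3 : n - (i + 1) = a := by omega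
    rw [e1] at ih
    rw [e3]
    have e5 : a.choose k * (a + 1) = (a + 1).choose k * (a + 1 - k) := Nat.choose_mul_succ_eq a k
    have hkey : n * (a + 1 - k) ≤ (n - k) * (a + 1) := by
      rcases Nat.lt_or_ge (a + 1) k with h | h
      · rw [Nat.sub_eq_zero_of_le h.le]; simp
      · obtain ⟨s, hs⟩ := Nat.exists_eq_add_of_le h
        have h1 : a + 1 - k = s := by omega
        have h2 : n - k = s + i := by omega
        have h3 : n = k + s + i := by omega
        rw [h1, h2, hs, h3]
        nlinarith
    have hpos : 0 < a + 1 := by positivity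
    refine Nat.le_of_mul_le_mul_left ?_ hpos
    calc (a + 1) * (a.choose k * n ^ (i + 1))
        = (a.choose k * (a + 1)) * n ^ i * n := by ring
      _ = ((a + 1).choose k * n ^ i) * (n * (a + 1 - k)) := by rw [e5]; ring
      _ ≤ ((n - k) ^ i * n.choose k) * ((n - k) * (a + 1)) := Nat.mul_le_mul ih hkey
      _ = (a + 1) * ((n - k) ^ (i + 1) * n.choose k) := by ring

/-- for fixed `K`, `C(n-i,K)/C(n,K)` is nondecreasing in `n`. -/
theorem choose_ratio_n {n n' i K : ℕ} (hn : n ≤ n') (hi : i ≤ n) :
    (n - i).choose K * n'.choose K ≤ (n' - i).choose K * n.choose K := by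
  induction n', hn using Nat.le_induction with
  | base => exact le_refl _
  | succ n' hn ih =>
    rcases Nat.lt_or_ge (n' - i) K with h | h
    · rw [Nat.choose_eq_zero_of_lt (show n - i < K by omega)]; simp
    · have e1 : n'.choose K * (n' + 1) = (n' + 1).choose K * (n' + 1 - K) :=
        Nat.choose_mul_succ_eq n' K
      have e2 : (n' - i).choose K * (n' - i + 1) =
          (n' - i + 1).choose K * (n' - i + 1 - K) := Nat.choose_mul_succ_eq (n' - i) K
      have e3 : n' + 1 - i = n' - i + 1 := by omega
      rw [e3]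
      obtain ⟨s, hs⟩ := Nat.exists_eq_add_of_le h
      have h1 : n' - i + 1 - K = s + 1 := by omega
      have h2 : n' + 1 - K = s + 1 + i := by omega
      have h3 : n' - i + 1 = K + (s + 1) := by omega
      have h4 : n' + 1 = K + (s + 1) + i := by omega
      have hkey : (n' + 1) * (n' - i + 1 - K) ≤ (n' - i + 1) * (n' + 1 - K) := by
        rw [h1, h2, h3, h4]
        nlinarith
      have hpos : 0 < (n' + 1 - K) * (n' - i + 1 - K) := by rw [h1, h2]; positivity
      refine Nat.le_of_mul_le_mul_left ?_ hpos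
      calc (n' + 1 - K) * (n' - i + 1 - K) * ((n - i).choose K * (n' + 1).choose K)
          = (n - i).choose K * ((n' + 1).choose K * (n' + 1 - K)) * (n' - i + 1 - K) := by ring
        _ = ((n - i).choose K * n'.choose K) * ((n' + 1) * (n' - i + 1 - K)) := by
            rw [← e1]; ring
        _ ≤ ((n' - i).choose K * n.choose K) * ((n' - i + 1) * (n' + 1 - K)) :=
            Nat.mul_le_mul ih hkey
        _ = ((n' - i).choose K * (n' - i + 1)) * (n' + 1 - K) * n.choose K := by ring
        _ = (n' + 1 - K) * (n' - i + 1 - K) * ((n' - i + 1).choose K * n.choose K) := by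
            rw [e2]; ring

/-- the maximum over `k` of `C(n-L,k-J)/C(n,k)` is nonincreasing in `n` (mediant inequality:
`C(n+1-L,k-J) = C(n-L,k-J) + C(n-L,k-1-J)`, `C(n+1,k) = C(n,k) + C(n,k-1)`). -/
theorem choose_unr {n1 n L J : ℕ} (hL : L ≤ n1) (hn : n1 ≤ n) (hJ : J ≤ L) (U : ℝ)
    (h : ∀ k, J ≤ k → k ≤ n1 → ((n1 - L).choose (k - J) : ℝ) ≤ U * n1.choose k) :
    ∀ k, J ≤ k → k ≤ n → ((n - L).choose (k - J) : ℝ) ≤ U * n.choose k := by
  induction n, hn using Nat.le_induction with
  | base => exact h
  | succ n hn ih =>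
    intro k hJk hkn
    have hU : 0 ≤ U := by
      have h1 := h J le_rfl (by omega)
      simp only [Nat.sub_self, Nat.choose_zero_right, Nat.cast_one] at h1
      by_contra hc
      push Not at hc
      have : U * (n1.choose J : ℝ) ≤ 0 :=
        mul_nonpos_of_nonpos_of_nonneg hc.le (Nat.cast_nonneg _)
      linarith
    rcases Nat.eq_or_lt_of_le hJk with h1 | h1
    · subst h1
      have h2 := ih J le_rfl (by omega)
      simp only [Nat.sub_self, Nat.choose_zero_right, Nat.cast_one] at h2 ⊢
      have h3 : (n.choose J : ℝ) ≤ (n + 1).choose J := by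
        exact_mod_cast Nat.choose_le_choose J (Nat.le_succ n)
      nlinarith
    · obtain ⟨q, hq⟩ := Nat.exists_eq_add_of_le (show 1 ≤ k - J by omega)
      have e1 : n + 1 - L = (n - L) + 1 := by omega
      have e2 : k - J = q + 1 := by omega
      obtain ⟨k', rfl⟩ : ∃ k', k = k' + 1 := ⟨k - 1, by omega⟩
      have e3 : k' - J = q := by omega
      rw [e1, e2, Nat.choose_succ_succ, Nat.choose_succ_succ n k']
      have h2 := ih k' (by omega) (by omega)
      rw [e3] at h2
      have h3 : ((n - L).choose (q + 1) : ℝ) ≤ U * n.choose (k' + 1) := by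
        rcases Nat.lt_or_ge n (k' + 1) with h4 | h4
        · rw [Nat.choose_eq_zero_of_lt (show n - L < q + 1 by omega)]
          have : (0 : ℝ) ≤ U * n.choose (k' + 1) := mul_nonneg hU (Nat.cast_nonneg _)
          simpa using this
        · have h5 := ih (k' + 1) (by omega) h4
          rwa [e2] at h5
      push_cast
      have h6 : U * ((n.choose k' : ℝ) + (n.choose (k' + 1) : ℝ)) =
        U * n.choose k' + U * n.choose (k' + 1) := by ring
      have h7 : (n.choose (k'.succ) : ℝ) = n.choose (k' + 1) := rfl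
      have h8 : ((n - L).choose (q.succ) : ℝ) = (n - L).choose (q + 1) := rfl
      linarith

theorem choose_top {n L k : ℕ} (h : L + 1 ≤ k) (h2 : 2 * k ≤ n) :
    (n - L).choose (k - (L + 1)) * n ^ L ≤ k ^ L * n.choose k := by
  have h1 : (n - L).choose (k - (L + 1)) ≤ (n - L).choose (k - L) := by
    have h3 := Nat.choose_le_succ_of_lt_half_left (r := k - (L + 1)) (n := n - L) (by omega)
    rwa [show k - (L + 1) + 1 = k - L by omega] at h3
  exact (Nat.mul_le_mul_right _ h1).trans (choose_pow_high (by omega) (by omega))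

theorem choose_le_Del {n k : ℕ} (hk : 1 ≤ k) (h : 5 * k ≤ 2 * n + 2) :
    (n.choose k : ℝ) ≤ 3 * Del n k := by
  obtain ⟨q, rfl⟩ : ∃ q, k = q + 1 := ⟨k - 1, by omega⟩
  have e1 : n.choose (q + 1) * (q + 1) = n.choose q * (n - q) := Nat.choose_succ_right_eq _ _
  have hkey : 3 * n.choose q ≤ 2 * n.choose (q + 1) := by
    have hpos : 0 < q + 1 := by positivity
    refine Nat.le_of_mul_le_mul_left ?_ hpos
    calc (q + 1) * (3 * n.choose q) = n.choose q * (3 * (q + 1)) := by ring
      _ ≤ n.choose q * (2 * (n - q)) := Nat.mul_le_mul_left _ (by omega)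
      _ = 2 * (n.choose q * (n - q)) := by ring
      _ = (q + 1) * (2 * n.choose (q + 1)) := by rw [← e1]; ring
  have h3 : (3 : ℝ) * n.choose q ≤ 2 * n.choose (q + 1) := by exact_mod_cast hkey
  unfold Del
  rw [Nat.add_sub_cancel]
  linarith

end Pool.MP322P
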