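import Pool.Agent.Lib.MP_322c5f_alP.PT01
import Pool.Agent.Lib.MP_322c5f_alP.PA03

/-! job 322P-T2: from the weights of level `L` to all `n`, by test functions.

`Phi τ = 3 (∑_{J ≤ J1} C(n-L,K-J)/C(n,K) w τ J + ∑_{J1 < J ≤ L+1} h J w τ J)` for `A < |τ| ≤ B`.
For `J ≤ J1` use `choose_ratio_k`, for `J > J1` the hypothesis `hh`; `C(n,k) ≤ 3 Del n k`.
Sum over `τ`: `∑_{J ≤ J1} C(n-L,K-J) W J ≤ ∑_i α_i C(n-i,K)` by `vdm_low`. -/

set_option autoImplicit false

open Finset

namespace Pool.MP322P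

open Pool.MP322

/-- total weight. -/
noncomputable def Wt (w : Multiset ℕ → ℕ → ℝ) (A B J : ℕ) : ℝ :=
  ∑ m ∈ Ioc A B, ∑ τ ∈ evs m, w τ J

theorem PSIp_of_test {L : ℕ} {P : Multiset ℕ → Prop} {w : Multiset ℕ → ℕ → ℝ}
    (hw : LevelW L P w) (hw0 : ∀ τ J, 0 ≤ w τ J) (hwL : ∀ τ J, τ.sum ≤ L → L + 1 < J → w τ J = 0)
    {n K k0 A B : ℕ} (hL : L ≤ n) (hB : B ≤ L) (hP : ∀ τ, A < τ.sum → τ.sum ≤ B → P τ)
    (hK : 1 ≤ K) (hKn : K ≤ n) (hk0 : 5 * k0 ≤ 2 * n + 7)
    (J1 : ℕ) (hJ1 : J1 * (n + 1) ≤ L * (K + 1))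
    (s : Finset ℕ) (α ρ : ℕ → ℝ) (hα0 : ∀ i ∈ s, 0 ≤ α i) (hs : ∀ i ∈ s, i ≤ L)
    (hα : ∀ J ≤ J1, Wt w A B J ≤ ∑ i ∈ s, α i * ((L - i).choose J : ℝ))
    (hρ : ∀ i ∈ s, ((n - i).choose K : ℝ) ≤ ρ i * n.choose K)
    (h : ℕ → ℝ) (h0 : ∀ J, 0 ≤ h J)
    (hh : ∀ k < k0, ∀ J, J1 < J → J ≤ L + 1 → J ≤ k → ((n - L).choose (k - J) : ℝ) ≤
      h J * n.choose k)
    {x : ℝ} (hx : 3 * (∑ i ∈ s, α i * ρ i + ∑ J ∈ Ioc J1 (L + 1), h J * Wt w A B J) ≤ x) :
    PSIp n K k0 A B x := by
  classical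
  have hn1 : 1 ≤ n := hK.trans hKn
  have hJK : J1 ≤ K := by
    have h1 : J1 * (n + 1) < (K + 1) * (n + 1) := by
      calc J1 * (n + 1) ≤ L * (K + 1) := hJ1
        _ ≤ n * (K + 1) := Nat.mul_le_mul_right _ hL
        _ < (n + 1) * (K + 1) := Nat.mul_lt_mul_of_pos_right (Nat.lt_succ_self n) (Nat.succ_pos K)
        _ = (K + 1) * (n + 1) := mul_comm _ _
    have h2 := Nat.lt_of_mul_lt_mul_right h1
    omega
  have hcK : (0 : ℝ) < n.choose K := by exact_mod_cast Nat.choose_pos hKn
  have hW0 : ∀ J, 0 ≤ Wt w A B J := fun J =>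
    sum_nonneg fun m _ => sum_nonneg fun τ _ => hw0 τ J
  have hWL : ∀ J, L + 1 < J → Wt w A B J = 0 := by
    intro J hJ
    refine sum_eq_zero fun m hm => sum_eq_zero fun τ hτ => hwL τ J ?_ hJ
    rw [evs, prt, mem_filter, mem_filter, mem_image] at hτ
    obtain ⟨⟨⟨q, -, rfl⟩, -⟩, -⟩ := hτ
    rw [q.parts_sum]
    exact (mem_Ioc.1 hm).2.trans hB
  set a : ℕ → ℝ := fun J => 3 * (((n - L).choose (K - J) : ℝ) / n.choose K) with ha
  set g : ℕ → ℝ := fun J => if J ≤ J1 then a J else if J ≤ L + 1 then 3 * h J else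
    ∑ k ∈ range k0, 3 * ((n - L).choose (k - J) : ℝ) with hg
  have ha0 : ∀ J, 0 ≤ a J := fun J => by
    rw [ha]
    positivity
  have hg0 : ∀ J, 0 ≤ g J := by
    intro J
    simp only [hg]
    split_ifs
    · exact ha0 J
    · exact mul_nonneg (by norm_num) (h0 J)
    · exact sum_nonneg fun k _ => by positivity
  refine PSIp_of_level hw hw0 hL hB hP hK (by omega) g hg0 ?_ ?_
  · intro k hKk hkk J hJk
    have h5 : 5 * k ≤ 2 * n + 2 := by omega
    have hkn : k ≤ n := by omega
    have hk1 : 1 ≤ k := hK.trans hKk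
    have hDel := choose_le_Del hk1 h5
    have hck : (1 : ℝ) ≤ n.choose k := by exact_mod_cast Nat.choose_pos hkn
    have hD0 : 0 ≤ Del n k := by
      have h1 : (0 : ℝ) ≤ n.choose k := by positivity
      linarith
    simp only [hg]
    split_ifs with c1 c2
    · have h1 := choose_ratio_k (n := n) (L := L) (K := K) (k := k) (J := J) hL hKk hkn
        ((Nat.mul_le_mul_right _ c1).trans hJ1)
      have h2 : ((n - L).choose (k - J) : ℝ) * n.choose K ≤
          ((n - L).choose (K - J) : ℝ) * n.choose k := by exact_mod_cast h1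
      have h3 : ((n - L).choose (k - J) : ℝ) ≤
          ((n - L).choose (K - J) : ℝ) / n.choose K * n.choose k := by
        rw [div_mul_eq_mul_div, le_div_iff₀ hcK]
        exact h2
      calc ((n - L).choose (k - J) : ℝ)
          ≤ ((n - L).choose (K - J) : ℝ) / n.choose K * n.choose k := h3
        _ ≤ ((n - L).choose (K - J) : ℝ) / n.choose K * (3 * Del n k) :=
          mul_le_mul_of_nonneg_left hDel (by positivity)
        _ = a J * Del n k := by
          rw [ha]
          ring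
    · calc ((n - L).choose (k - J) : ℝ) ≤ h J * n.choose k :=
            hh k hkk J (by omega) c2 hJk
        _ ≤ h J * (3 * Del n k) := mul_le_mul_of_nonneg_left hDel (h0 J)
        _ = 3 * h J * Del n k := by ring
    · have h1 : 3 * ((n - L).choose (k - J) : ℝ) ≤
          ∑ k ∈ range k0, 3 * ((n - L).choose (k - J) : ℝ) :=
        single_le_sum (f := fun k => 3 * ((n - L).choose (k - J) : ℝ))
          (fun k _ => by positivity) (mem_range.2 hkk)
      calc ((n - L).choose (k - J) : ℝ) = (n - L).choose (k - J) * 1 := (mul_one _).symm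
        _ ≤ (n - L).choose (k - J) * (3 * Del n k) :=
          mul_le_mul_of_nonneg_left (hck.trans hDel) (by positivity)
        _ = 3 * ((n - L).choose (k - J) : ℝ) * Del n k := by ring
        _ ≤ _ := mul_le_mul_of_nonneg_right h1 hD0
  · refine le_trans ?_ hx
    have hterm : ∀ J ∈ range k0, g J * (∑ m ∈ Ioc A B, ∑ τ ∈ evs m, w τ J) =
        (if J ∈ range (J1 + 1) then a J * Wt w A B J else 0) +
          (if J ∈ Ioc J1 (L + 1) then 3 * (h J * Wt w A B J) else 0) := by
      intro J _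
      change g J * Wt w A B J = _
      simp only [hg, mem_range, mem_Ioc]
      by_cases c1 : J ≤ J1
      · have c1' : J < J1 + 1 := by omega
        have c2' : ¬ (J1 < J ∧ J ≤ L + 1) := fun hc => by omega
        rw [if_pos c1, if_pos c1', if_neg c2', add_zero]
      · have c1' : ¬ J < J1 + 1 := by omega
        rw [if_neg c1, if_neg c1', zero_add]
        by_cases c2 : J ≤ L + 1
        · have c2' : J1 < J ∧ J ≤ L + 1 := ⟨by omega, c2⟩
          rw [if_pos c2, if_pos c2']
          ring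
        · have c2' : ¬ (J1 < J ∧ J ≤ L + 1) := fun hc => c2 hc.2
          rw [if_neg c2, if_neg c2', hWL J (by omega), mul_zero]
    rw [sum_congr rfl hterm, sum_add_distrib, ← sum_filter, ← sum_filter, mul_add]
    refine add_le_add ?_ ?_
    · have hsub : (range k0).filter (fun J => J ∈ range (J1 + 1)) ⊆ range (K + 1) := by
        intro J hJ
        rw [mem_filter, mem_range, mem_range] at hJ
        rw [mem_range]
        omega
      have h1 : ∑ J ∈ (range k0).filter (fun J => J ∈ range (J1 + 1)), a J * Wt w A B J ≤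
          ∑ J ∈ (range k0).filter (fun J => J ∈ range (J1 + 1)),
            a J * ∑ i ∈ s, α i * ((L - i).choose J : ℝ) := by
        refine sum_le_sum fun J hJ => mul_le_mul_of_nonneg_left (hα J ?_) (ha0 J)
        rw [mem_filter, mem_range, mem_range] at hJ
        omega
      have hsum0 : ∀ J, 0 ≤ ∑ i ∈ s, α i * ((L - i).choose J : ℝ) := fun J =>
        sum_nonneg fun i hi => mul_nonneg (hα0 i hi) (by positivity)
      have h2 : ∑ J ∈ (range k0).filter (fun J => J ∈ range (J1 + 1)),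
            a J * ∑ i ∈ s, α i * ((L - i).choose J : ℝ) ≤
          ∑ J ∈ range (K + 1), a J * ∑ i ∈ s, α i * ((L - i).choose J : ℝ) :=
        sum_le_sum_of_subset_of_nonneg hsub fun J _ _ => mul_nonneg (ha0 J) (hsum0 J)
      have h3 : ∑ J ∈ range (K + 1), a J * ∑ i ∈ s, α i * ((L - i).choose J : ℝ) =
          ∑ i ∈ s, α i * (3 * (((n - i).choose K : ℝ) / n.choose K)) := by
        simp only [mul_sum]
        rw [sum_comm]
        refine sum_congr rfl fun i hi => ?_
        have h4 := vdm_low (n := n) (L := L) (i := i) (k := K) hL (hs i hi)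
        have h5 : ∑ J ∈ range (K + 1), ((n - L).choose (K - J) : ℝ) * ((L - i).choose J : ℝ) =
            ((n - i).choose K : ℝ) := by exact_mod_cast h4
        rw [← h5, sum_div, mul_sum, mul_sum]
        refine sum_congr rfl fun J _ => ?_
        rw [ha]
        ring
      have h6 : ∑ i ∈ s, α i * (3 * (((n - i).choose K : ℝ) / n.choose K)) ≤
          3 * ∑ i ∈ s, α i * ρ i := by
        rw [mul_sum]
        refine sum_le_sum fun i hi => ?_
        have h7 : ((n - i).choose K : ℝ) / n.choose K ≤ ρ i := by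
          rw [div_le_iff₀ hcK]
          exact hρ i hi
        calc α i * (3 * (((n - i).choose K : ℝ) / n.choose K))
            = 3 * (α i * (((n - i).choose K : ℝ) / n.choose K)) := by ring
          _ ≤ 3 * (α i * ρ i) :=
            mul_le_mul_of_nonneg_left (mul_le_mul_of_nonneg_left h7 (hα0 i hi)) (by norm_num)
      linarith
    · rw [mul_sum]
      refine sum_le_sum_of_subset_of_nonneg ?_ fun J _ _ =>
        mul_nonneg (by norm_num) (mul_nonneg (h0 J) (hW0 J))
      intro J hJ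
      exact (mem_filter.1 hJ).2

end Pool.MP322P
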