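import Pool.Agent.Lib.MP_322c5f_alP.PU05
import Pool.Agent.Lib.MP_322c5f_al.BSum

/-! job 322P-U: classes with more than 400 moved points, `n ≥ 400`. -/

set_option autoImplicit false

open Finset Equiv

namespace Pool.MP322P

open Pool.MP322

/-- product over the cycles, standard form -/
noncomputable def qS (κ : ℝ) (τ : Multiset ℕ) : ℝ := (τ.map (fun c => (1 - κ) ^ c + κ ^ c)).prod

/-- product over the cycles, without prefactor -/
noncomputable def qF (τ : Multiset ℕ) : ℝ :=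
  (τ.map (fun c => (1 - 699 / 5000 : ℝ) ^ c + (4 / 3 * (699 / 5000) : ℝ) ^ c)).prod

theorem qS_nonneg {κ : ℝ} (h0 : 0 ≤ κ) (h1 : κ ≤ 1) (τ : Multiset ℕ) : 0 ≤ qS κ τ := by
  refine Multiset.prod_nonneg fun y hy => ?_
  obtain ⟨c, _, rfl⟩ := Multiset.mem_map.1 hy
  have : 0 ≤ 1 - κ := by linarith
  positivity

theorem qF_nonneg (τ : Multiset ℕ) : 0 ≤ qF τ := by
  refine Multiset.prod_nonneg fun y hy => ?_
  obtain ⟨c, _, rfl⟩ := Multiset.mem_map.1 hy
  have : (0 : ℝ) ≤ 1 - 699 / 5000 := by norm_num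
  positivity

theorem qS_mono {κ0 κ : ℝ} (h0 : 0 ≤ κ0) (h1 : κ0 ≤ κ) (h2 : κ ≤ 1 - κ0) (h3 : κ0 < 1 / 2)
    (τ : Multiset ℕ) : qS κ τ ≤ qS κ0 τ := by
  refine prod_q_le (fun c _ => ?_) fun c _ => q_mono h0 h1 h2 h3 c
  have h4 : 0 ≤ 1 - κ := by linarith
  have h5 : 0 ≤ κ := by linarith
  positivity

/-- one class, standard form -/
theorem one_std {n k : ℕ} {nu : Y (k + 1)} {g : Perm (Fin n)} {κ0 M : ℝ} (h0 : 0 ≤ κ0)
    (h3 : κ0 < 1 / 2) (hκ : κ0 * (n + 1) ≤ (k + 1 : ℕ)) (hJ : 5 * (k + 1) ≤ 2 * n + 2)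
    (hn : 10 ≤ n)
    (hM : (M + 1) * (k + 1 : ℕ) ≤ (M - 1) * ((n : ℝ) + 1 - (k + 1 : ℕ))) :
    -(Psi nu g) ≤ ((n + 2) * M * qS κ0 g.cycleType) * (Del n (k + 1) * fd nu) := by
  have hm : g.cycleType.sum ≤ n := by
    rw [Perm.sum_cycleType]
    exact (Finset.card_le_univ _).trans (by simp)
  have hN : (0 : ℝ) < ((n + 1 : ℕ) : ℝ) := by exact_mod_cast Nat.succ_pos n
  have h1 := Psi_le_NA nu g
  have h2 := NA_max (n := n) (J := k + 1) (τ := g.cycleType) hm (by omega) rfl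
  set κ : ℝ := ((k + 1 : ℕ) : ℝ) / ((n + 1 : ℕ) : ℝ) with hκd
  have hκ1 : κ0 ≤ κ := by
    rw [hκd, le_div_iff₀ hN]
    push_cast at hκ ⊢
    linarith
  have hκ2 : κ ≤ 2 / 5 := by
    rw [hκd, div_le_iff₀ hN]
    have : (5 : ℝ) * ((k + 1 : ℕ) : ℝ) ≤ 2 * n + 2 := by exact_mod_cast hJ
    push_cast at this ⊢
    linarith
  have h4 : qS κ g.cycleType ≤ qS κ0 g.cycleType := qS_mono h0 hκ1 (by linarith) h3 _
  have h5 := Del_ratio (n := n) (J := k + 1) (by omega) (by omega) hM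
  have hfd := fd_pos nu
  have hC : (0 : ℝ) ≤ (((n + 1).choose (k + 1) : ℕ) : ℝ) := Nat.cast_nonneg _
  have hq0 := qS_nonneg h0 (show κ0 ≤ 1 by linarith) g.cycleType
  calc -(Psi nu g) ≤ (NA n g.cycleType (k + 1) : ℝ) * fd nu := h1
    _ ≤ ((n + 2) * ((n + 1).choose (k + 1)) * qS κ g.cycleType) * fd nu :=
        mul_le_mul_of_nonneg_right h2 hfd.le
    _ ≤ ((n + 2) * ((n + 1).choose (k + 1)) * qS κ0 g.cycleType) * fd nu := by
        refine mul_le_mul_of_nonneg_right ?_ hfd.le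
        exact mul_le_mul_of_nonneg_left h4 (by positivity)
    _ ≤ ((n + 2) * (M * Del n (k + 1)) * qS κ0 g.cycleType) * fd nu := by
        refine mul_le_mul_of_nonneg_right ?_ hfd.le
        refine mul_le_mul_of_nonneg_right ?_ hq0
        exact mul_le_mul_of_nonneg_left h5 (by positivity)
    _ = _ := by ring

/-- one class, without prefactor -/
theorem one_free {n k : ℕ} {nu : Y (k + 1)} {g : Perm (Fin n)} (hm : 4 * g.cycleType.sum ≤ n)
    (hκ : (699 / 5000 : ℝ) * (n + 1) ≤ (k + 1 : ℕ)) (hJ : 5 * (k + 1) ≤ 2 * n + 2) (hn : 10 ≤ n) :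
    -(Psi nu g) ≤ (5 * qF g.cycleType) * (Del n (k + 1) * fd nu) := by
  have hN : (0 : ℝ) < ((n + 1 : ℕ) : ℝ) := by exact_mod_cast Nat.succ_pos n
  have h1 := Psi_le_NA nu g
  have h2 := NA_free (n := n) (J := k + 1) (τ := g.cycleType) hm (by omega) rfl
  set κ : ℝ := ((k + 1 : ℕ) : ℝ) / ((n + 1 : ℕ) : ℝ) with hκd
  have hκ1 : 699 / 5000 ≤ κ := by
    rw [hκd, le_div_iff₀ hN]
    push_cast at hκ ⊢
    linarith
  have hκ2 : κ ≤ 2 / 5 := by
    rw [hκd, div_le_iff₀ hN]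
    have : (5 : ℝ) * ((k + 1 : ℕ) : ℝ) ≤ 2 * n + 2 := by exact_mod_cast hJ
    push_cast at this ⊢
    linarith
  have h4 : (g.cycleType.map (fun c => (1 - κ) ^ c + (4 / 3 * κ) ^ c)).prod ≤ qF g.cycleType := by
    refine prod_q_le (fun c _ => ?_) fun c hc => q_mono43 hκ1 hκ2 c
      (Perm.two_le_of_mem_cycleType hc)
    have h4 : 0 ≤ 1 - κ := by linarith
    have h5 : 0 ≤ κ := by linarith
    positivity
  have hk : (5 : ℝ) * ((k + 1 : ℕ) : ℝ) ≤ 2 * n + 2 := by exact_mod_cast hJ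
  have h5 := Del_ratio (n := n) (J := k + 1) (M := 5) (by omega) (by omega) (by linarith)
  have hfd := fd_pos nu
  have hC : (0 : ℝ) ≤ (((n + 1).choose (k + 1) : ℕ) : ℝ) := Nat.cast_nonneg _
  calc -(Psi nu g) ≤ (NA n g.cycleType (k + 1) : ℝ) * fd nu := h1
    _ ≤ (((n + 1).choose (k + 1)) * (g.cycleType.map (fun c => (1 - κ) ^ c + (4 / 3 * κ) ^ c)).prod) *
        fd nu := mul_le_mul_of_nonneg_right h2 hfd.le
    _ ≤ (((n + 1).choose (k + 1)) * qF g.cycleType) * fd nu := by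
        refine mul_le_mul_of_nonneg_right ?_ hfd.le
        exact mul_le_mul_of_nonneg_left h4 hC
    _ ≤ ((5 * Del n (k + 1)) * qF g.cycleType) * fd nu := by
        refine mul_le_mul_of_nonneg_right ?_ hfd.le
        exact mul_le_mul_of_nonneg_right h5 (qF_nonneg _)
    _ = _ := by ring

theorem mem_T {n : ℕ} {P : Multiset ℕ → Prop} [DecidablePred P]
    (hP : ∀ τ, P τ → 400 < τ.sum) : ∀ τ ∈ (typesE n).filter P,
      (∀ c ∈ τ, 2 ≤ c ∧ c ≤ n) ∧ 401 ≤ τ.sum := by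
  intro τ hτ
  rw [Finset.mem_filter] at hτ
  obtain ⟨h1, h2, h3⟩ := bsum_mem hτ.1
  exact ⟨fun c hc => ⟨h1 c hc, (Multiset.le_sum_of_mem hc).trans h3⟩, hP τ hτ.2⟩

/-- the weights only help -/
theorem drop_w {T : Finset (Multiset ℕ)} {f : Multiset ℕ → ℝ} (hf : ∀ τ, 0 ≤ f τ) {z t : ℝ}
    (hz : 1 ≤ z) (h : ∑ τ ∈ T, f τ * z ^ (τ.sum - 401) ≤ t) : ∑ τ ∈ T, f τ ≤ t := by
  refine le_trans (Finset.sum_le_sum fun τ _ => ?_) h
  have h1 := one_le_pow₀ (M₀ := ℝ) hz (n := τ.sum - 401)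
  nlinarith [hf τ]

/-- `400 ≤ n ≤ 1600`. -/
theorem tail_mid {n K k0 : ℕ} (h1 : 400 ≤ n) (h2 : n ≤ 1600) (hK : 135 * n ≤ 1000 * K)
    (hK2 : 800 < n → 140 * n ≤ 1000 * K) (hk0 : 5 * k0 ≤ 2 * n + 7) :
    PSIp n K k0 400 n (1 / 40) := by
  classical
  have hnr : (400 : ℝ) ≤ n := by exact_mod_cast h1
  rcases Nat.lt_or_ge 800 n with hn | hn
  · have hK' : (140 : ℝ) * n ≤ 1000 * K := by exact_mod_cast hK2 hn
    have hnr' : (800 : ℝ) ≤ n := by exact_mod_cast hn.le
    have hnr2 : (n : ℝ) ≤ 1600 := by exact_mod_cast h2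
    refine ⟨fun τ => (n + 2) * 5 * qS (699 / 5000) τ, fun τ => ?_, ?_, ?_⟩
    · have := qS_nonneg (κ := 699 / 5000) (by norm_num) (by norm_num) τ
      positivity
    · intro k nu g hk1 hk2 _ _ _ _
      have hk1' : (K : ℝ) ≤ ((k + 1 : ℕ) : ℝ) := by exact_mod_cast hk1
      have hJ : 5 * (k + 1) ≤ 2 * n + 2 := by omega
      have hk : (5 : ℝ) * ((k + 1 : ℕ) : ℝ) ≤ 2 * n + 2 := by exact_mod_cast hJ
      exact one_std (by norm_num) (by norm_num) (by linarith) hJ (by omega)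
        (by linarith)
    · have h5 := sumT3 (n := n) (by omega) (mem_T (n := n) (P := fun τ => 400 < τ.sum ∧ τ.sum ≤ n)
        (fun τ h => h.1))
      have h6 := drop_w (f := fun τ => qS (699 / 5000) τ)
        (fun τ => qS_nonneg (by norm_num) (by norm_num) τ) (by norm_num) h5
      rw [← Finset.mul_sum]
      calc ((n : ℝ) + 2) * 5 * ∑ τ ∈ (typesE n).filter (fun τ => 400 < τ.sum ∧ τ.sum ≤ n),
            qS (699 / 5000) τ ≤ (n + 2) * 5 * (1 / 1000000) :=
            mul_le_mul_of_nonneg_left h6 (by positivity)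
        _ ≤ 1 / 40 := by linarith
  · have hK' : (135 : ℝ) * n ≤ 1000 * K := by exact_mod_cast hK
    have hnr2 : (n : ℝ) ≤ 800 := by exact_mod_cast hn
    refine ⟨fun τ => (n + 2) * (5 / 3) * qS (673 / 5000) τ + (n + 2) * 5 * qS (1 / 5) τ,
      fun τ => ?_, ?_, ?_⟩
    · have h3 := qS_nonneg (κ := 673 / 5000) (by norm_num) (by norm_num) τ
      have h4 := qS_nonneg (κ := 1 / 5) (by norm_num) (by norm_num) τ
      positivity
    · intro k nu g hk1 hk2 _ _ _ _
      have hk1' : (K : ℝ) ≤ ((k + 1 : ℕ) : ℝ) := by exact_mod_cast hk1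
      have hJ : 5 * (k + 1) ≤ 2 * n + 2 := by omega
      have hk : (5 : ℝ) * ((k + 1 : ℕ) : ℝ) ≤ 2 * n + 2 := by exact_mod_cast hJ
      have h3 := qS_nonneg (κ := 673 / 5000) (by norm_num) (by norm_num) g.cycleType
      have h4 := qS_nonneg (κ := 1 / 5) (by norm_num) (by norm_num) g.cycleType
      have hD : 0 ≤ Del n (k + 1) := by
        have h5 := Del_ratio (n := n) (J := k + 1) (M := 5) (by omega) (by omega) (by linarith)
        have hC : (0 : ℝ) ≤ (((n + 1).choose (k + 1) : ℕ) : ℝ) := Nat.cast_nonneg _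
        linarith
      have hfd := fd_pos nu
      rcases Nat.lt_or_ge (n + 1) (5 * (k + 1)) with h5 | h5
      · have h6 : ((n : ℝ) + 1) ≤ 5 * ((k + 1 : ℕ) : ℝ) := by exact_mod_cast h5.le
        have h7 := one_std (nu := nu) (g := g) (κ0 := 1 / 5) (M := 5) (by norm_num) (by norm_num)
          (by linarith) hJ (by omega) (by linarith)
        refine h7.trans ?_
        refine mul_le_mul_of_nonneg_right ?_ (by positivity)
        have : 0 ≤ ((n : ℝ) + 2) * (5 / 3) * qS (673 / 5000) g.cycleType := by positivity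
        linarith
      · have h6 : 5 * ((k + 1 : ℕ) : ℝ) ≤ (n : ℝ) + 1 := by exact_mod_cast h5
        have h7 := one_std (nu := nu) (g := g) (κ0 := 673 / 5000) (M := 5 / 3) (by norm_num)
          (by norm_num) (by linarith) hJ (by omega) (by linarith)
        refine h7.trans ?_
        refine mul_le_mul_of_nonneg_right ?_ (by positivity)
        have : 0 ≤ ((n : ℝ) + 2) * 5 * qS (1 / 5) g.cycleType := by positivity
        linarith
    · have hT := mem_T (n := n) (P := fun τ => 400 < τ.sum ∧ τ.sum ≤ n) (fun τ h => h.1)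
      have h6 := drop_w (f := fun τ => qS (673 / 5000) τ)
        (fun τ => qS_nonneg (by norm_num) (by norm_num) τ) (by norm_num) (sumT1 (n := n) (by omega) hT)
      have h7 := drop_w (f := fun τ => qS (1 / 5) τ)
        (fun τ => qS_nonneg (by norm_num) (by norm_num) τ) (by norm_num) (sumT2 (n := n) (by omega) hT)
      rw [Finset.sum_add_distrib, ← Finset.mul_sum, ← Finset.mul_sum]
      have h8 : ((n : ℝ) + 2) * (5 / 3) * ∑ τ ∈ (typesE n).filter (fun τ => 400 < τ.sum ∧ τ.sum ≤ n),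
            qS (673 / 5000) τ ≤ (n + 2) * (5 / 3) * (11 / 1000000) :=
            mul_le_mul_of_nonneg_left h6 (by positivity)
      have h9 : ((n : ℝ) + 2) * 5 * ∑ τ ∈ (typesE n).filter (fun τ => 400 < τ.sum ∧ τ.sum ≤ n),
            qS (1 / 5) τ ≤ (n + 2) * 5 * (1 / 1000000000000000) :=
            mul_le_mul_of_nonneg_left h7 (by positivity)
      linarith

/-- all large `n`. -/
theorem tail_large {n K k0 : ℕ} (h1 : 1600 ≤ n) (hK : 144 * n ≤ 1000 * K)
    (hk0 : 5 * k0 ≤ 2 * n + 7) : PSIp n K k0 400 n (1 / 40) := by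
  classical
  have hnr : (1600 : ℝ) ≤ n := by exact_mod_cast h1
  have hK' : (144 : ℝ) * n ≤ 1000 * K := by exact_mod_cast hK
  refine ⟨fun τ => 5 * qF τ + if 4 * τ.sum ≤ n then 0 else (n + 2) * 5 * qS (699 / 5000) τ,
    fun τ => ?_, ?_, ?_⟩
  · have h3 := qS_nonneg (κ := 699 / 5000) (by norm_num) (by norm_num) τ
    have h4 := qF_nonneg τ
    beta_reduce
    split_ifs <;> positivity
  · intro k nu g hk1 hk2 _ _ _ _
    have hk1' : (K : ℝ) ≤ ((k + 1 : ℕ) : ℝ) := by exact_mod_cast hk1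
    have hJ : 5 * (k + 1) ≤ 2 * n + 2 := by omega
    have hk : (5 : ℝ) * ((k + 1 : ℕ) : ℝ) ≤ 2 * n + 2 := by exact_mod_cast hJ
    have h3 := qS_nonneg (κ := 699 / 5000) (by norm_num) (by norm_num) g.cycleType
    have h4 := qF_nonneg g.cycleType
    have hD : 0 ≤ Del n (k + 1) := by
      have h5 := Del_ratio (n := n) (J := k + 1) (M := 5) (by omega) (by omega) (by linarith)
      have hC : (0 : ℝ) ≤ (((n + 1).choose (k + 1) : ℕ) : ℝ) := Nat.cast_nonneg _
      linarith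
    have hfd := fd_pos nu
    beta_reduce
    by_cases h5 : 4 * g.cycleType.sum ≤ n
    · rw [if_pos h5, add_zero]
      exact one_free h5 (by linarith) hJ (by omega)
    · rw [if_neg h5]
      have h7 := one_std (nu := nu) (g := g) (κ0 := 699 / 5000) (M := 5) (by norm_num)
        (by norm_num) (by linarith) hJ (by omega) (by linarith)
      refine h7.trans ?_
      refine mul_le_mul_of_nonneg_right ?_ (by positivity)
      linarith
  · have hT := mem_T (n := n) (P := fun τ => 400 < τ.sum ∧ τ.sum ≤ n) (fun τ h => h.1)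
    have h6 := drop_w (f := fun τ => qF τ) qF_nonneg (by norm_num) (sumT5 (n := n) (by omega) hT)
    rw [Finset.sum_add_distrib, ← Finset.mul_sum]
    have h7 : ∑ τ ∈ (typesE n).filter (fun τ => 400 < τ.sum ∧ τ.sum ≤ n),
        (if 4 * τ.sum ≤ n then 0 else ((n : ℝ) + 2) * 5 * qS (699 / 5000) τ) ≤
        ∑ τ ∈ (typesE n).filter (fun τ => 400 < τ.sum ∧ τ.sum ≤ n),
          (1605 * 5) * (qS (699 / 5000) τ * (273 / 250 : ℝ) ^ (τ.sum - 401)) := by
      refine Finset.sum_le_sum fun τ hτ => ?_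
      have h3 := qS_nonneg (κ := 699 / 5000) (by norm_num) (by norm_num) τ
      have h8 := (hT τ hτ).2
      split_ifs with h9
      · positivity
      · obtain ⟨d, hd⟩ := Nat.exists_eq_add_of_le h8
        rw [hd, Nat.add_sub_cancel_left]
        have h10 : n + 2 ≤ 1605 + 4 * d := by omega
        have h11 : ((n : ℝ) + 2) ≤ 1605 + 4 * d := by exact_mod_cast h10
        have h12 := one_add_mul_le_pow (show (-2 : ℝ) ≤ 23 / 250 by norm_num) d
        have h13 : (1 + 23 / 250 : ℝ) = 273 / 250 := by norm_num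
        rw [h13] at h12
        have h14 : ((n : ℝ) + 2) ≤ 1605 * (273 / 250) ^ d := by
          have : (0 : ℝ) ≤ d := Nat.cast_nonneg _
          linarith
        calc ((n : ℝ) + 2) * 5 * qS (699 / 5000) τ ≤ (1605 * (273 / 250) ^ d) * 5 * qS (699 / 5000) τ := by
              refine mul_le_mul_of_nonneg_right ?_ h3
              linarith
          _ = _ := by ring
    have h8 := sumT3 (n := n) (by omega) hT
    rw [← Finset.mul_sum] at h7
    have h9 : (1605 * 5 : ℝ) * ∑ τ ∈ (typesE n).filter (fun τ => 400 < τ.sum ∧ τ.sum ≤ n),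
          (qS (699 / 5000) τ * (273 / 250 : ℝ) ^ (τ.sum - 401)) ≤ (1605 * 5) * (1 / 1000000) :=
      mul_le_mul_of_nonneg_left h8 (by norm_num)
    linarith

end Pool.MP322P
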