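import Pool.Agent.Lib.MP_322c5f_alP.PA04

/-! part PU, 1: the bound of `NA` by the generating function, with the maximal term of the binomial
distribution. -/

set_option autoImplicit false

open Finset Polynomial

namespace Pool.MP322P

/-- the terms of `(J + (N - J))^N` -/
def bnT (N J i : ℕ) : ℕ := N.choose i * J ^ i * (N - J) ^ (N - i)

theorem bnT_step {N J i : ℕ} (hi : i < N) :
    bnT N J (i + 1) * ((i + 1) * (N - J)) = bnT N J i * ((N - i) * J) := by
  unfold bnT
  have h1 := Nat.choose_succ_right_eq N i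
  obtain ⟨d, rfl⟩ : ∃ d, N = i + 1 + d := Nat.exists_eq_add_of_le hi
  rw [show i + 1 + d - (i + 1) = d by omega, show i + 1 + d - i = d + 1 by omega] at *
  rw [pow_succ, pow_succ]
  calc (i + 1 + d).choose (i + 1) * (J ^ i * J) * (i + 1 + d - J) ^ d * ((i + 1) * (i + 1 + d - J))
      = ((i + 1 + d).choose (i + 1) * (i + 1)) * (J ^ i * J) * ((i + 1 + d - J) ^ d *
        (i + 1 + d - J)) := by ring
    _ = ((i + 1 + d).choose i * (d + 1)) * (J ^ i * J) * ((i + 1 + d - J) ^ d *
        (i + 1 + d - J)) := by rw [h1]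
    _ = _ := by ring

theorem bnT_up {N J : ℕ} (hJ : J < N) : ∀ d i, i + d = J → bnT N J i ≤ bnT N J J := by
  intro d
  induction d with
  | zero => intro i h; rw [← h, Nat.add_zero]
  | succ d ih =>
    intro i h
    refine le_trans ?_ (ih (i + 1) (by omega))
    have h1 := bnT_step (N := N) (J := J) (i := i) (by omega)
    have h2 : (i + 1) * (N - J) ≤ (N - i) * J := by
      obtain ⟨e, rfl⟩ : ∃ e, N = J + e := Nat.exists_eq_add_of_le hJ.le
      obtain rfl : J = i + (d + 1) := by omega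
      rw [show i + (d + 1) + e - (i + (d + 1)) = e by omega,
        show i + (d + 1) + e - i = d + 1 + e by omega]
      nlinarith
    have h3 : 0 < (i + 1) * (N - J) := Nat.mul_pos (by omega) (by omega)
    refine Nat.le_of_mul_le_mul_right ?_ h3
    calc bnT N J i * ((i + 1) * (N - J)) ≤ bnT N J i * ((N - i) * J) := Nat.mul_le_mul_left _ h2
      _ = _ := h1.symm

theorem bnT_down {N J : ℕ} (hJ : J < N) : ∀ d, J + d ≤ N → bnT N J (J + d) ≤ bnT N J J := by
  intro d
  induction d with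
  | zero => intro _; exact le_rfl
  | succ d ih =>
    intro h
    refine le_trans ?_ (ih (by omega))
    have h1 := bnT_step (N := N) (J := J) (i := J + d) (by omega)
    have h2 : (N - (J + d)) * J ≤ (J + d + 1) * (N - J) := by
      obtain ⟨e, rfl⟩ : ∃ e, N = J + d + e := Nat.exists_eq_add_of_le (by omega)
      rw [show J + d + e - (J + d) = e by omega, show J + d + e - J = d + e by omega]
      nlinarith
    have h3 : 0 < (J + d + 1) * (N - J) := Nat.mul_pos (by omega) (by omega)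
    refine Nat.le_of_mul_le_mul_right ?_ h3
    calc bnT N J (J + (d + 1)) * ((J + d + 1) * (N - J)) = bnT N J (J + d) * ((N - (J + d)) * J) := h1
      _ ≤ _ := Nat.mul_le_mul_left _ h2

/-- the maximal term -/
theorem bnT_max {N J : ℕ} (hJ : J < N) : N ^ N ≤ (N + 1) * bnT N J J := by
  have h1 : N ^ N = ∑ i ∈ range (N + 1), bnT N J i := by
    conv_lhs => rw [show N = J + (N - J) by omega]
    rw [show (J + (N - J)) ^ (J + (N - J)) = (J + (N - J)) ^ N by
      congr 1; omega, add_pow]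
    refine Finset.sum_congr rfl fun i _ => ?_
    unfold bnT
    push_cast
    ring
  rw [h1]
  calc ∑ i ∈ range (N + 1), bnT N J i ≤ ∑ _i ∈ range (N + 1), bnT N J J := by
        refine Finset.sum_le_sum fun i hi => ?_
        rw [Finset.mem_range] at hi
        rcases le_total i J with h | h
        · exact bnT_up hJ (J - i) i (by omega)
        · obtain ⟨d, rfl⟩ := Nat.exists_eq_add_of_le h
          exact bnT_down hJ d (by omega)
    _ = _ := by rw [Finset.sum_const, Finset.card_range, smul_eq_mul]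

/-- coefficient bound -/
theorem NA_gf {n J : ℕ} {τ : Multiset ℕ} {t : ℝ} (ht : 0 ≤ t) :
    (NA n τ J : ℝ) * t ^ J ≤ (1 + t) ^ (n - τ.sum + 1) * (τ.map (fun c => 1 + t ^ c)).prod := by
  unfold NA
  set P : ℕ[X] := (1 + X : ℕ[X]) ^ (n - τ.sum + 1) * (τ.map (fun c => 1 + (X : ℕ[X]) ^ c)).prod with hP
  have h1 : P.eval₂ (Nat.castRingHom ℝ) t =
      (1 + t) ^ (n - τ.sum + 1) * (τ.map (fun c => 1 + t ^ c)).prod := by
    rw [hP, Polynomial.eval₂_mul, Polynomial.eval₂_pow, Polynomial.eval₂_add,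
      Polynomial.eval₂_one, Polynomial.eval₂_X]
    congr 1
    induction τ using Multiset.induction_on with
    | empty => simp
    | cons a τ ih =>
      rw [Multiset.map_cons, Multiset.prod_cons, Polynomial.eval₂_mul, Multiset.map_cons,
        Multiset.prod_cons]
      congr 1
      · simp [Polynomial.eval₂_add, Polynomial.eval₂_pow]
      · exact ih rfl
  rw [← h1, Polynomial.eval₂_eq_sum_range]
  by_cases hJ : J < P.natDegree + 1
  · have h2 := Finset.single_le_sum
      (f := fun i => (Nat.castRingHom ℝ) (P.coeff i) * t ^ i) (s := range (P.natDegree + 1))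
      (fun i _ => by
        have : (0 : ℝ) ≤ (P.coeff i : ℝ) := Nat.cast_nonneg _
        simp only [eq_natCast]
        positivity) (Finset.mem_range.2 hJ)
    simpa using h2
  · rw [Polynomial.coeff_eq_zero_of_natDegree_lt (by omega)]
    simp only [Nat.cast_zero, zero_mul]
    refine Finset.sum_nonneg fun i _ => ?_
    simp only [eq_natCast]
    positivity

/-- the bound with the prefactor `n + 2` -/
theorem NA_max {n J : ℕ} {τ : Multiset ℕ} (hτ : τ.sum ≤ n) (hJ : J < n + 1) {κ : ℝ}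
    (hκ : κ = (J : ℝ) / (n + 1 : ℕ)) :
    (NA n τ J : ℝ) ≤ (n + 2) * ((n + 1).choose J) * (τ.map (fun c => (1 - κ) ^ c + κ ^ c)).prod := by
  have hN : (0 : ℝ) < ((n + 1 : ℕ) : ℝ) := by exact_mod_cast Nat.succ_pos n
  have hκ0 : 0 ≤ κ := by rw [hκ]; positivity
  have hκ1 : κ < 1 := by
    rw [hκ, div_lt_one hN]
    exact_mod_cast hJ
  have h1κ : 0 < 1 - κ := by linarith
  -- the maximal term
  have h1 := bnT_max (N := n + 1) (J := J) hJ
  have h2 : (1 : ℝ) ≤ (n + 2) * (((n + 1).choose J) * (κ ^ J * (1 - κ) ^ (n + 1 - J))) := by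
    have h3 : ((n + 1 : ℕ) : ℝ) ^ (n + 1) ≤ ((n + 1 : ℕ) + 1) * (((n + 1).choose J) * (J : ℝ) ^ J *
        (((n + 1 : ℕ) : ℝ) - J) ^ (n + 1 - J)) := by
      have h4 : (((n + 1) ^ (n + 1) : ℕ) : ℝ) ≤ (((n + 1 + 1) * bnT (n + 1) J J : ℕ) : ℝ) := by
        exact_mod_cast h1
      unfold bnT at h4
      have h5 : (((n + 1 - J : ℕ)) : ℝ) = ((n + 1 : ℕ) : ℝ) - J := Nat.cast_sub hJ.le
      push_cast [h5] at h4 ⊢
      linarith
    have h6 : κ ^ J * (1 - κ) ^ (n + 1 - J) = (J : ℝ) ^ J * (((n + 1 : ℕ) : ℝ) - J) ^ (n + 1 - J) /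
        ((n + 1 : ℕ) : ℝ) ^ (n + 1) := by
      have h7 : 1 - κ = (((n + 1 : ℕ) : ℝ) - J) / ((n + 1 : ℕ) : ℝ) := by
        rw [hκ]
        field_simp
      rw [h7, hκ, div_pow, div_pow, div_mul_div_comm, ← pow_add, show J + (n + 1 - J) = n + 1 by omega]
    rw [h6]
    have h8 : (0 : ℝ) < ((n + 1 : ℕ) : ℝ) ^ (n + 1) := by positivity
    have h9 : ((n : ℝ) + 2) * (((n + 1).choose J) * ((J : ℝ) ^ J * (((n + 1 : ℕ) : ℝ) - J) ^ (n + 1 - J) /
        ((n + 1 : ℕ) : ℝ) ^ (n + 1))) = (((n + 1 : ℕ) + 1) * (((n + 1).choose J) * (J : ℝ) ^ J *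
        (((n + 1 : ℕ) : ℝ) - J) ^ (n + 1 - J))) / ((n + 1 : ℕ) : ℝ) ^ (n + 1) := by
      push_cast
      ring
    rw [h9, le_div_iff₀ h8, one_mul]
    exact h3
  -- the generating function at `κ / (1 - κ)`
  have h3 := NA_gf (n := n) (J := J) (τ := τ) (t := κ / (1 - κ)) (by positivity)
  have h4 : (NA n τ J : ℝ) * (κ ^ J * (1 - κ) ^ (n + 1 - J)) ≤
      (τ.map (fun c => (1 - κ) ^ c + κ ^ c)).prod := by
    have h5 : (τ.map (fun c => (1 - κ) ^ c + κ ^ c)).prod =
        (1 - κ) ^ τ.sum * (τ.map (fun c => 1 + (κ / (1 - κ)) ^ c)).prod := by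
      clear h3 hτ
      induction τ using Multiset.induction_on with
      | empty => simp
      | cons a τ ih =>
        rw [Multiset.map_cons, Multiset.prod_cons, ih, Multiset.map_cons, Multiset.prod_cons,
          Multiset.sum_cons, pow_add]
        have h6 : (1 - κ) ^ a + κ ^ a = (1 - κ) ^ a * (1 + (κ / (1 - κ)) ^ a) := by
          rw [div_pow]
          field_simp
        rw [h6]
        ring
    have h6 : κ ^ J * (1 - κ) ^ (n + 1 - J) = (κ / (1 - κ)) ^ J * (1 - κ) ^ (n + 1) := by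
      rw [div_pow, div_mul_eq_mul_div, eq_div_iff (by positivity), mul_assoc, ← pow_add,
        show n + 1 - J + J = n + 1 by omega]
    have h7 : 1 + κ / (1 - κ) = (1 - κ)⁻¹ := by
      field_simp
      ring
    rw [h7] at h3
    rw [h6, h5]
    calc (NA n τ J : ℝ) * ((κ / (1 - κ)) ^ J * (1 - κ) ^ (n + 1))
        = ((NA n τ J : ℝ) * (κ / (1 - κ)) ^ J) * (1 - κ) ^ (n + 1) := by ring
      _ ≤ ((1 - κ)⁻¹ ^ (n - τ.sum + 1) * (τ.map (fun c => 1 + (κ / (1 - κ)) ^ c)).prod) *
          (1 - κ) ^ (n + 1) := mul_le_mul_of_nonneg_right h3 (by positivity)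
      _ = (1 - κ) ^ τ.sum * (τ.map (fun c => 1 + (κ / (1 - κ)) ^ c)).prod := by
          have h8 : (1 - κ) ^ (n + 1) = (1 - κ) ^ (n - τ.sum + 1) * (1 - κ) ^ τ.sum := by
            rw [← pow_add]
            congr 1
            omega
          rw [h8, inv_pow]
          field_simp
  have h5 : (0 : ℝ) ≤ NA n τ J := Nat.cast_nonneg _
  calc (NA n τ J : ℝ) = NA n τ J * 1 := by ring
    _ ≤ NA n τ J * ((n + 2) * (((n + 1).choose J) * (κ ^ J * (1 - κ) ^ (n + 1 - J)))) :=
        mul_le_mul_of_nonneg_left h2 h5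
    _ = (n + 2) * ((n + 1).choose J) * (NA n τ J * (κ ^ J * (1 - κ) ^ (n + 1 - J))) := by ring
    _ ≤ _ := mul_le_mul_of_nonneg_left h4 (by positivity)

end Pool.MP322P
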