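import Pool.Agent.Lib.MP_322c5f_alP.PU01
import Pool.Agent.Lib.MP_322c5f_alP.PT01

/-! part PU, 2: the bound of `NA` without prefactor for types with at most `n/4` moved points. -/

set_option autoImplicit false

open Finset Polynomial

namespace Pool.MP322P

theorem sum_le_of_le' {σ τ : Multiset ℕ} (h : σ ≤ τ) : σ.sum ≤ τ.sum := by
  obtain ⟨ρ, rfl⟩ := Multiset.le_iff_exists_add.1 h
  rw [Multiset.sum_add]
  omega

/-- expansion of the product -/
theorem prod_add_powerset (τ : Multiset ℕ) (A B : ℝ) :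
    (τ.map (fun c => A ^ c + B ^ c)).prod =
      (τ.powerset.map (fun σ => B ^ σ.sum * A ^ (τ.sum - σ.sum))).sum := by
  induction τ using Multiset.induction_on with
  | empty => simp
  | cons a τ ih =>
    rw [Multiset.map_cons, Multiset.prod_cons, ih, Multiset.powerset_cons, Multiset.map_add,
      Multiset.sum_add, Multiset.map_map, add_mul, ← Multiset.sum_map_mul_left,
      ← Multiset.sum_map_mul_left]
    congr 1
    · refine congrArg Multiset.sum (Multiset.map_congr rfl fun σ hσ => ?_)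
      have h1 := sum_le_of_le' (Multiset.mem_powerset.1 hσ)
      rw [Multiset.sum_cons, show a + τ.sum - σ.sum = a + (τ.sum - σ.sum) by omega, pow_add]
      ring
    · refine congrArg Multiset.sum (Multiset.map_congr rfl fun σ hσ => ?_)
      simp only [Function.comp_apply]
      rw [Multiset.sum_cons, Multiset.sum_cons, show a + τ.sum - (a + σ.sum) = τ.sum - σ.sum by omega,
        pow_add]
      ring

theorem choose_free {N J m j : ℕ} (hm : 4 * m ≤ N) (hjm : j ≤ m) (hjJ : j ≤ J) (hJ : 2 * J ≤ N)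
    (hN : 0 < N) :
    (((N - m).choose (J - j) : ℕ) : ℝ) ≤
      (N.choose J : ℝ) * ((4 / 3 * ((J : ℝ) / N)) ^ j * (1 - (J : ℝ) / N) ^ (m - j)) := by
  set N' := N - (m - j) with hN'
  have h1 : (N' - j).choose (J - j) * N' ^ j ≤ J ^ j * N'.choose J :=
    choose_pow_high (n := N') hjJ (by omega)
  have h2 : (N - (m - j)).choose J * N ^ (m - j) ≤ (N - J) ^ (m - j) * N.choose J :=
    choose_pow_low (n := N) (by omega) (by omega)
  rw [← hN'] at h2
  rw [show N' - j = N - m by omega] at h1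
  have hNr : (0 : ℝ) < N := by exact_mod_cast hN
  have hN'0 : 0 < N' := by omega
  have hN'r : (0 : ℝ) < N' := by exact_mod_cast hN'0
  have h3 : (((N - m).choose (J - j) : ℕ) : ℝ) * (N' : ℝ) ^ j ≤ (J : ℝ) ^ j * (N'.choose J : ℝ) := by
    exact_mod_cast h1
  have h4 : ((N'.choose J : ℕ) : ℝ) * (N : ℝ) ^ (m - j) ≤
      ((N : ℝ) - J) ^ (m - j) * (N.choose J : ℝ) := by
    have h5 : ((N - J : ℕ) : ℝ) = (N : ℝ) - J := Nat.cast_sub (by omega)
    rw [← h5]
    exact_mod_cast h2
  have h5 : (((N - m).choose (J - j) : ℕ) : ℝ) ≤ ((J : ℝ) / N') ^ j * (N'.choose J : ℝ) := by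
    rw [div_pow, div_mul_eq_mul_div, le_div_iff₀ (by positivity)]
    exact h3
  have h6 : ((N'.choose J : ℕ) : ℝ) ≤ (1 - (J : ℝ) / N) ^ (m - j) * (N.choose J : ℝ) := by
    have h7 : 1 - (J : ℝ) / N = ((N : ℝ) - J) / N := by field_simp
    rw [h7, div_pow, div_mul_eq_mul_div, le_div_iff₀ (by positivity)]
    exact h4
  have h7 : (J : ℝ) / N' ≤ 4 / 3 * ((J : ℝ) / N) := by
    rw [div_le_iff₀ hN'r]
    have h8 : (3 : ℝ) * N ≤ 4 * N' := by
      have : 3 * N ≤ 4 * N' := by omega
      exact_mod_cast this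
    have h9 : (0 : ℝ) ≤ J := Nat.cast_nonneg _
    have h10 : 4 / 3 * ((J : ℝ) / N) * N' = J * ((4 * N') / (3 * N)) := by
      field_simp
    rw [h10]
    have h11 : (1 : ℝ) ≤ (4 * N') / (3 * N) := by
      rw [le_div_iff₀ (by positivity)]
      linarith
    nlinarith
  calc (((N - m).choose (J - j) : ℕ) : ℝ) ≤ ((J : ℝ) / N') ^ j * (N'.choose J : ℝ) := h5
    _ ≤ (4 / 3 * ((J : ℝ) / N)) ^ j * ((1 - (J : ℝ) / N) ^ (m - j) * (N.choose J : ℝ)) := by
        refine mul_le_mul ?_ h6 (by positivity) (by positivity)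
        exact pow_le_pow_left₀ (by positivity) h7 j
    _ = _ := by ring

theorem NA_free {n J : ℕ} {τ : Multiset ℕ} (hτ : 4 * τ.sum ≤ n) (hJ : 2 * J ≤ n) {κ : ℝ}
    (hκ : κ = (J : ℝ) / (n + 1 : ℕ)) :
    (NA n τ J : ℝ) ≤ ((n + 1).choose J) *
      (τ.map (fun c => (1 - κ) ^ c + (4 / 3 * κ) ^ c)).prod := by
  have hN : (0 : ℝ) < ((n + 1 : ℕ) : ℝ) := by exact_mod_cast Nat.succ_pos n
  have hκ0 : 0 ≤ κ := by rw [hκ]; positivity
  have hκ1 : κ ≤ 1 := by
    rw [hκ, div_le_one hN]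
    have : J ≤ n + 1 := by omega
    exact_mod_cast this
  rw [NA_eq, prod_add_powerset, Nat.cast_multiset_sum, Multiset.map_map,
    ← Multiset.sum_map_mul_left]
  refine Multiset.sum_map_le_sum_map _ _ fun σ hσ => ?_
  have h1 := sum_le_of_le' (Multiset.mem_powerset.1 hσ)
  simp only [Function.comp_apply]
  split_ifs with h
  · have h2 := choose_free (N := n + 1) (J := J) (m := τ.sum) (j := σ.sum) (by omega) h1 h
      (by omega) (by omega)
    rw [show n + 1 - τ.sum = n - τ.sum + 1 by omega] at h2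
    rw [hκ]
    exact h2
  · have h3 : 0 ≤ 1 - κ := by linarith
    rw [Nat.cast_zero]
    positivity

end Pool.MP322P
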