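import Pool.Agent.Lib.MP_322c5f_al.MS

/-! part PU, 3: Rankin's bound for sums over types. -/

set_option autoImplicit false

open Finset

namespace Pool.MP322P

open Pool.MP322

theorem rankin {n m0 : ℕ} {T : Finset (Multiset ℕ)}
    (hT : ∀ τ ∈ T, (∀ c ∈ τ, 2 ≤ c ∧ c ≤ n) ∧ m0 ≤ τ.sum) {q x : ℕ → ℝ} {z : ℝ} (hz : 1 ≤ z)
    (hq : ∀ c, 0 ≤ q c) (hx : ∀ c, x c = q c * z ^ c) (hx1 : ∀ c, 2 ≤ c → x c < 1) :
    ∑ τ ∈ T, (τ.map q).prod * z ^ (τ.sum - m0) ≤ (∏ c ∈ Icc 2 n, (1 - x c)⁻¹) / z ^ m0 := by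
  have hz0 : 0 < z := by linarith
  have hx0 : ∀ c, 0 ≤ x c := fun c => by rw [hx]; exact mul_nonneg (hq c) (by positivity)
  have h1 := multiset_sum_le (Icc 2 n) x hx0 (fun c hc => hx1 c (Finset.mem_Icc.1 hc).1) T
    (fun τ hτ c hc => Finset.mem_Icc.2 ((hT τ hτ).1 c hc))
  rw [le_div_iff₀ (by positivity)]
  refine le_trans ?_ h1
  rw [Finset.sum_mul]
  refine Finset.sum_le_sum fun τ hτ => ?_
  have h2 : (τ.map x).prod = (τ.map q).prod * z ^ τ.sum := by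
    clear hτ h1
    induction τ using Multiset.induction_on with
    | empty => simp
    | cons a τ ih =>
      rw [Multiset.map_cons, Multiset.prod_cons, ih, Multiset.map_cons, Multiset.prod_cons,
        Multiset.sum_cons, pow_add, hx]
      ring
  rw [h2, mul_assoc, ← pow_add, Nat.sub_add_cancel (hT τ hτ).2]

theorem geo_Ioc {a : ℝ} (h0 : 0 ≤ a) (h1 : a < 1) (C0 n : ℕ) :
    ∑ c ∈ Ioc C0 n, a ^ c ≤ a ^ (C0 + 1) / (1 - a) := by
  rw [le_div_iff₀ (by linarith)]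
  rcases Nat.lt_or_ge n C0 with h | h
  · rw [Finset.Ioc_eq_empty (by omega), Finset.sum_empty, zero_mul]
    positivity
  · have h2 : (∑ c ∈ Ioc C0 n, a ^ c) * (1 - a) = a ^ (C0 + 1) - a ^ (n + 1) := by
      induction n, h using Nat.le_induction with
      | base => simp
      | succ n hn ih =>
        rw [← Finset.insert_Ioc_right_eq_Ioc_add_one (by omega), Finset.sum_insert (by simp),
          add_mul, ih]
        ring
    rw [h2]
    have : 0 ≤ a ^ (n + 1) := by positivity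
    linarith

theorem weier {x : ℕ → ℝ} {C0 : ℕ} (hx0 : ∀ c, 0 ≤ x c) (hx1 : ∀ c, C0 < c → x c < 1) (n : ℕ)
    (hn : C0 ≤ n) : 1 - ∑ c ∈ Ioc C0 n, x c ≤ ∏ c ∈ Ioc C0 n, (1 - x c) := by
  induction n, hn using Nat.le_induction with
  | base => simp
  | succ n hn ih =>
    rw [← Finset.insert_Ioc_right_eq_Ioc_add_one (by omega), Finset.sum_insert (by simp),
      Finset.prod_insert (by simp)]
    have h1 : 0 ≤ ∑ c ∈ Ioc C0 n, x c := Finset.sum_nonneg fun c _ => hx0 c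
    have h2 := hx0 (n + 1)
    have h3 := hx1 (n + 1) (by omega)
    nlinarith

theorem prod_bound {a b : ℝ} (ha : 0 ≤ a) (ha1 : a < 1) (hb : 0 ≤ b) (hb1 : b < 1)
    (hab : a ^ 2 + b ^ 2 < 1) {C0 n : ℕ} (hC : 1 ≤ C0) (hn : C0 ≤ n) {L S : ℝ} (hL : 0 < L)
    (hL2 : L ≤ ∏ c ∈ Icc 2 C0, (1 - (a ^ c + b ^ c)))
    (hS : a ^ (C0 + 1) / (1 - a) + b ^ (C0 + 1) / (1 - b) ≤ S) (hS1 : S < 1) :
    (∀ c, 2 ≤ c → a ^ c + b ^ c < 1) ∧
    ∏ c ∈ Icc 2 n, (1 - (a ^ c + b ^ c))⁻¹ ≤ (L * (1 - S))⁻¹ := by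
  have hx1 : ∀ c, 2 ≤ c → a ^ c + b ^ c < 1 := by
    intro c hc
    have h1 : a ^ c ≤ a ^ 2 := pow_le_pow_of_le_one ha ha1.le hc
    have h2 : b ^ c ≤ b ^ 2 := pow_le_pow_of_le_one hb hb1.le hc
    linarith
  refine ⟨hx1, ?_⟩
  have h1 : Icc 2 n = Icc 2 C0 ∪ Ioc C0 n := by
    ext c
    rw [Finset.mem_union, Finset.mem_Icc, Finset.mem_Icc, Finset.mem_Ioc]
    omega
  have h2 : Disjoint (Icc 2 C0) (Ioc C0 n) := by
    rw [Finset.disjoint_left]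
    intro c hc hc2
    rw [Finset.mem_Icc] at hc
    rw [Finset.mem_Ioc] at hc2
    omega
  rw [Finset.prod_inv_distrib, h1, Finset.prod_union h2]
  refine inv_anti₀ (mul_pos hL (by linarith)) ?_
  refine mul_le_mul hL2 ?_ (by linarith) (hL.le.trans hL2)
  have h3 := weier (x := fun c => a ^ c + b ^ c) (C0 := C0) (fun c => by positivity)
    (fun c hc => hx1 c (by omega)) n hn
  refine le_trans ?_ h3
  rw [Finset.sum_add_distrib]
  have h4 := geo_Ioc ha ha1 C0 n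
  have h5 := geo_Ioc hb hb1 C0 n
  linarith

end Pool.MP322P
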