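import Pool.Agent.Lib.MP_322c5f_alP.PU03

/-! part PU, 4: numerical values of Rankin's bound. -/

set_option autoImplicit false

open Finset

namespace Pool.MP322P

private theorem L1 : (6617 / 10000000000000 : ℚ) ≤ ∏ c ∈ Icc 2 80,
    (1 - ((938959 / 1000000) ^ c + (146041 / 1000000) ^ c)) := by
  decide +kernel

theorem sumT1 {n : ℕ} (hn : 80 ≤ n) {T : Finset (Multiset ℕ)}
    (hT : ∀ τ ∈ T, (∀ c ∈ τ, 2 ≤ c ∧ c ≤ n) ∧ 401 ≤ τ.sum) :
    ∑ τ ∈ T, (τ.map (fun c => (1 - 673 / 5000 : ℝ) ^ c + (673 / 5000 : ℝ) ^ c)).prod *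
      (217 / 200 : ℝ) ^ (τ.sum - 401) ≤ 11 / 1000000 := by
  have hL : (6617 / 10000000000000 : ℝ) ≤ ∏ c ∈ Icc 2 80,
      (1 - ((938959 / 1000000 : ℝ) ^ c + (146041 / 1000000 : ℝ) ^ c)) := by
    have h := (Rat.cast_le (K := ℝ)).2 L1
    push_cast at h
    exact h
  obtain ⟨h1, h2⟩ := prod_bound (a := 938959 / 1000000) (b := 146041 / 1000000) (by norm_num)
    (by norm_num) (by norm_num) (by norm_num) (by norm_num) (C0 := 80) (by norm_num) hn
    (L := 6617 / 10000000000000) (S := 101 / 1000) (by norm_num) hL (by norm_num) (by norm_num)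
  have h3 := rankin (z := 217 / 200) (m0 := 401) hT
    (q := fun c => (1 - 673 / 5000 : ℝ) ^ c + (673 / 5000 : ℝ) ^ c)
    (x := fun c => (938959 / 1000000 : ℝ) ^ c + (146041 / 1000000 : ℝ) ^ c) (by norm_num)
    (fun c => by positivity) (fun c => by
      rw [add_mul, ← mul_pow, ← mul_pow]
      norm_num) h1
  refine h3.trans ?_
  rw [div_le_iff₀ (by positivity)]
  refine h2.trans ?_
  rw [show (401 : ℕ) = 20 * 20 + 1 from rfl, pow_succ, pow_mul]
  norm_num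

private theorem L2 : (1829 / 10000000000 : ℚ) ≤ ∏ c ∈ Icc 2 80,
    (1 - ((23 / 25) ^ c + (23 / 100) ^ c)) := by
  decide +kernel

theorem sumT2 {n : ℕ} (hn : 80 ≤ n) {T : Finset (Multiset ℕ)}
    (hT : ∀ τ ∈ T, (∀ c ∈ τ, 2 ≤ c ∧ c ≤ n) ∧ 401 ≤ τ.sum) :
    ∑ τ ∈ T, (τ.map (fun c => (1 - 1 / 5 : ℝ) ^ c + (1 / 5 : ℝ) ^ c)).prod *
      (23 / 20 : ℝ) ^ (τ.sum - 401) ≤ 1 / 1000000000000000 := by
  have hL : (1829 / 10000000000 : ℝ) ≤ ∏ c ∈ Icc 2 80,
      (1 - ((23 / 25 : ℝ) ^ c + (23 / 100 : ℝ) ^ c)) := by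
    have h := (Rat.cast_le (K := ℝ)).2 L2
    push_cast at h
    exact h
  obtain ⟨h1, h2⟩ := prod_bound (a := 23 / 25) (b := 23 / 100) (by norm_num)
    (by norm_num) (by norm_num) (by norm_num) (by norm_num) (C0 := 80) (by norm_num) hn
    (L := 1829 / 10000000000) (S := 2 / 125) (by norm_num) hL (by norm_num) (by norm_num)
  have h3 := rankin (z := 23 / 20) (m0 := 401) hT
    (q := fun c => (1 - 1 / 5 : ℝ) ^ c + (1 / 5 : ℝ) ^ c)
    (x := fun c => (23 / 25 : ℝ) ^ c + (23 / 100 : ℝ) ^ c) (by norm_num)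
    (fun c => by positivity) (fun c => by
      rw [add_mul, ← mul_pow, ← mul_pow]
      norm_num) h1
  refine h3.trans ?_
  rw [div_le_iff₀ (by positivity)]
  refine h2.trans ?_
  rw [show (401 : ℕ) = 20 * 20 + 1 from rfl, pow_succ, pow_mul]
  norm_num

private theorem L3 : (1381 / 2500000000000 : ℚ) ≤ ∏ c ∈ Icc 2 80,
    (1 - ((1174173 / 1250000) ^ c + (190827 / 1250000) ^ c)) := by
  decide +kernel

theorem sumT3 {n : ℕ} (hn : 80 ≤ n) {T : Finset (Multiset ℕ)}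
    (hT : ∀ τ ∈ T, (∀ c ∈ τ, 2 ≤ c ∧ c ≤ n) ∧ 401 ≤ τ.sum) :
    ∑ τ ∈ T, (τ.map (fun c => (1 - 699 / 5000 : ℝ) ^ c + (699 / 5000 : ℝ) ^ c)).prod *
      (273 / 250 : ℝ) ^ (τ.sum - 401) ≤ 1 / 1000000 := by
  have hL : (1381 / 2500000000000 : ℝ) ≤ ∏ c ∈ Icc 2 80,
      (1 - ((1174173 / 1250000 : ℝ) ^ c + (190827 / 1250000 : ℝ) ^ c)) := by
    have h := (Rat.cast_le (K := ℝ)).2 L3
    push_cast at h
    exact h
  obtain ⟨h1, h2⟩ := prod_bound (a := 1174173 / 1250000) (b := 190827 / 1250000) (by norm_num)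
    (by norm_num) (by norm_num) (by norm_num) (by norm_num) (C0 := 80) (by norm_num) hn
    (L := 1381 / 2500000000000) (S := 21 / 200) (by norm_num) hL (by norm_num) (by norm_num)
  have h3 := rankin (z := 273 / 250) (m0 := 401) hT
    (q := fun c => (1 - 699 / 5000 : ℝ) ^ c + (699 / 5000 : ℝ) ^ c)
    (x := fun c => (1174173 / 1250000 : ℝ) ^ c + (190827 / 1250000 : ℝ) ^ c) (by norm_num)
    (fun c => by positivity) (fun c => by
      rw [add_mul, ← mul_pow, ← mul_pow]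
      norm_num) h1
  refine h3.trans ?_
  rw [div_le_iff₀ (by positivity)]
  refine h2.trans ?_
  rw [show (401 : ℕ) = 20 * 20 + 1 from rfl, pow_succ, pow_mul]
  norm_num

private theorem L5 : (861 / 2000000000000 : ℚ) ≤ ∏ c ∈ Icc 2 80,
    (1 - ((1174173 / 1250000) ^ c + (63609 / 312500) ^ c)) := by
  decide +kernel

theorem sumT5 {n : ℕ} (hn : 80 ≤ n) {T : Finset (Multiset ℕ)}
    (hT : ∀ τ ∈ T, (∀ c ∈ τ, 2 ≤ c ∧ c ≤ n) ∧ 401 ≤ τ.sum) :
    ∑ τ ∈ T, (τ.map (fun c => (1 - 699 / 5000 : ℝ) ^ c + (4 / 3 * (699 / 5000) : ℝ) ^ c)).prod *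
      (273 / 250 : ℝ) ^ (τ.sum - 401) ≤ 13 / 10000000 := by
  have hL : (861 / 2000000000000 : ℝ) ≤ ∏ c ∈ Icc 2 80,
      (1 - ((1174173 / 1250000 : ℝ) ^ c + (63609 / 312500 : ℝ) ^ c)) := by
    have h := (Rat.cast_le (K := ℝ)).2 L5
    push_cast at h
    exact h
  obtain ⟨h1, h2⟩ := prod_bound (a := 1174173 / 1250000) (b := 63609 / 312500) (by norm_num)
    (by norm_num) (by norm_num) (by norm_num) (by norm_num) (C0 := 80) (by norm_num) hn
    (L := 861 / 2000000000000) (S := 21 / 200) (by norm_num) hL (by norm_num) (by norm_num)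
  have h3 := rankin (z := 273 / 250) (m0 := 401) hT
    (q := fun c => (1 - 699 / 5000 : ℝ) ^ c + (4 / 3 * (699 / 5000) : ℝ) ^ c)
    (x := fun c => (1174173 / 1250000 : ℝ) ^ c + (63609 / 312500 : ℝ) ^ c) (by norm_num)
    (fun c => by positivity) (fun c => by
      rw [add_mul, ← mul_pow, ← mul_pow]
      norm_num) h1
  refine h3.trans ?_
  rw [div_le_iff₀ (by positivity)]
  refine h2.trans ?_
  rw [show (401 : ℕ) = 20 * 20 + 1 from rfl, pow_succ, pow_mul]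
  norm_num

end Pool.MP322P
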