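import Pool.Agent.Lib.MP_322c5f_alP.PU02
import Pool.Agent.Lib.MP_322c5f_alP.PU04

/-! part PU, 5: monotonicity in `κ`, binomial differences. -/

set_option autoImplicit false

open Finset Polynomial

namespace Pool.MP322P

theorem pow_conv {u v θ : ℝ} (hu : 0 ≤ u) (hv : 0 ≤ v) (h0 : 0 ≤ θ) (h1 : θ ≤ 1) (c : ℕ) :
    (θ * u + (1 - θ) * v) ^ c ≤ θ * u ^ c + (1 - θ) * v ^ c := by
  have h := (convexOn_pow (𝕜 := ℝ) c).2 (Set.mem_Ici.2 hu) (Set.mem_Ici.2 hv) h0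
    (show 0 ≤ 1 - θ by linarith) (by ring)
  simpa [smul_eq_mul] using h

theorem q_mono {κ0 κ : ℝ} (h0 : 0 ≤ κ0) (h1 : κ0 ≤ κ) (h2 : κ ≤ 1 - κ0) (h3 : κ0 < 1 / 2) (c : ℕ) :
    (1 - κ) ^ c + κ ^ c ≤ (1 - κ0) ^ c + κ0 ^ c := by
  obtain ⟨θ, hθ0, hθ1, hθ⟩ : ∃ θ : ℝ, 0 ≤ θ ∧ θ ≤ 1 ∧ κ = θ * κ0 + (1 - θ) * (1 - κ0) := by
    refine ⟨(1 - κ0 - κ) / (1 - 2 * κ0), ?_, ?_, ?_⟩
    · exact div_nonneg (by linarith) (by linarith)
    · rw [div_le_one (by linarith)]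
      linarith
    · have h : (1 - 2 * κ0) ≠ 0 := by
        intro h
        linarith
      have h' : (1 - κ0 - κ) / (1 - 2 * κ0) * (1 - 2 * κ0) = 1 - κ0 - κ := div_mul_cancel₀ _ h
      linear_combination h'
  have h4 := pow_conv h0 (show 0 ≤ 1 - κ0 by linarith) hθ0 hθ1 c
  have h5 := pow_conv (show 0 ≤ 1 - κ0 by linarith) h0 hθ0 hθ1 c
  have h6 : 1 - κ = θ * (1 - κ0) + (1 - θ) * κ0 := by rw [hθ]; ring
  rw [← hθ] at h4
  rw [← h6] at h5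
  linarith

theorem two_pow_le (c : ℕ) (hc : 2 ≤ c) : 2 * (3 / 5 : ℝ) ^ c ≤ (1 - 699 / 5000) ^ c := by
  obtain ⟨d, rfl⟩ := Nat.exists_eq_add_of_le hc
  rw [pow_add, pow_add]
  have h1 : (3 / 5 : ℝ) ^ d ≤ (1 - 699 / 5000) ^ d :=
    pow_le_pow_left₀ (by norm_num) (by norm_num) d
  have h2 : 2 * (3 / 5 : ℝ) ^ 2 ≤ (1 - 699 / 5000) ^ 2 := by norm_num
  have h3 : (0 : ℝ) ≤ (3 / 5) ^ d := by positivity
  calc 2 * ((3 / 5 : ℝ) ^ 2 * (3 / 5) ^ d) = (2 * (3 / 5 : ℝ) ^ 2) * (3 / 5) ^ d := by ring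
    _ ≤ (1 - 699 / 5000) ^ 2 * (1 - 699 / 5000) ^ d := mul_le_mul h2 h1 h3 (by norm_num)

theorem q_mono43 {κ : ℝ} (h1 : 699 / 5000 ≤ κ) (h2 : κ ≤ 2 / 5) (c : ℕ) (hc : 2 ≤ c) :
    (1 - κ) ^ c + (4 / 3 * κ) ^ c ≤ (1 - 699 / 5000) ^ c + (4 / 3 * (699 / 5000)) ^ c := by
  obtain ⟨θ, hθ0, hθ1, hθ⟩ : ∃ θ : ℝ, 0 ≤ θ ∧ θ ≤ 1 ∧ κ = θ * (699 / 5000) + (1 - θ) * (2 / 5) := by
    refine ⟨(2 / 5 - κ) / (2 / 5 - 699 / 5000), ?_, ?_, ?_⟩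
    · exact div_nonneg (by linarith) (by norm_num)
    · rw [div_le_one (by norm_num)]
      linarith
    · field_simp
      ring
  have h4 := pow_conv (show (0 : ℝ) ≤ 1 - 699 / 5000 by norm_num) (show (0 : ℝ) ≤ 3 / 5 by norm_num)
    hθ0 hθ1 c
  have h5 := pow_conv (show (0 : ℝ) ≤ 4 / 3 * (699 / 5000) by norm_num)
    (show (0 : ℝ) ≤ 8 / 15 by norm_num) hθ0 hθ1 c
  have h6 : 1 - κ = θ * (1 - 699 / 5000) + (1 - θ) * (3 / 5) := by rw [hθ]; ring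
  have h7 : 4 / 3 * κ = θ * (4 / 3 * (699 / 5000)) + (1 - θ) * (8 / 15) := by rw [hθ]; ring
  rw [← h6] at h4
  rw [← h7] at h5
  have h8 := two_pow_le c hc
  have h9 : (8 / 15 : ℝ) ^ c ≤ (3 / 5) ^ c := pow_le_pow_left₀ (by norm_num) (by norm_num) c
  have h10 : (0 : ℝ) ≤ (4 / 3 * (699 / 5000)) ^ c := by positivity
  have h11 : (3 / 5 : ℝ) ^ c + (8 / 15) ^ c ≤ (1 - 699 / 5000) ^ c + (4 / 3 * (699 / 5000)) ^ c := by
    linarith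
  nlinarith [mul_le_mul_of_nonneg_left h11 (show 0 ≤ 1 - θ by linarith)]

theorem prod_q_le {τ : Multiset ℕ} {f g : ℕ → ℝ} (hf : ∀ c ∈ τ, 0 ≤ f c) (h : ∀ c ∈ τ, f c ≤ g c) :
    (τ.map f).prod ≤ (τ.map g).prod := by
  induction τ using Multiset.induction_on with
  | empty => simp
  | cons a τ ih =>
    rw [Multiset.map_cons, Multiset.prod_cons, Multiset.map_cons, Multiset.prod_cons]
    have h1 := hf a (Multiset.mem_cons_self a τ)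
    have h2 := h a (Multiset.mem_cons_self a τ)
    have h3 := ih (fun c hc => hf c (Multiset.mem_cons_of_mem hc))
      (fun c hc => h c (Multiset.mem_cons_of_mem hc))
    refine mul_le_mul h2 h3 ?_ (h1.trans h2)
    refine Multiset.prod_nonneg fun y hy => ?_
    obtain ⟨c, hc, rfl⟩ := Multiset.mem_map.1 hy
    exact hf c (Multiset.mem_cons_of_mem hc)

theorem Del_ratio {n J : ℕ} (hJ : 1 ≤ J) (hJn : J ≤ n) {M : ℝ}
    (h : (M + 1) * J ≤ (M - 1) * ((n : ℝ) + 1 - J)) :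
    (((n + 1).choose J : ℕ) : ℝ) ≤ M * Del n J := by
  obtain ⟨j, rfl⟩ : ∃ j, J = j + 1 := ⟨J - 1, by omega⟩
  unfold Del
  rw [Nat.add_sub_cancel, Nat.choose_succ_succ']
  have h1 := Nat.choose_succ_right_eq n j
  have h2 : ((n.choose (j + 1) : ℕ) : ℝ) * ((j : ℝ) + 1) = (n.choose j : ℝ) * ((n : ℝ) - j) := by
    have h3 : ((n - j : ℕ) : ℝ) = (n : ℝ) - j := Nat.cast_sub (by omega)
    rw [← h3]
    exact_mod_cast h1
  have h4 : (0 : ℝ) ≤ (n.choose j : ℝ) := Nat.cast_nonneg _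
  have h5 : (0 : ℝ) ≤ (n.choose (j + 1) : ℝ) := Nat.cast_nonneg _
  have h6 : (0 : ℝ) < (j : ℝ) + 1 := by positivity
  have h7 : (j : ℝ) + 1 ≤ n := by exact_mod_cast hJn
  push_cast at h ⊢
  -- (M+1) v ≤ (M-1) u with u (j+1) = v (n-j)
  have h8 : (M + 1) * (n.choose j : ℝ) ≤ (M - 1) * (n.choose (j + 1) : ℝ) := by
    have h9 : (0 : ℝ) < (n : ℝ) - j := by linarith
    have h10 : ((M + 1) * (n.choose j : ℝ)) * ((n : ℝ) - j) ≤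
        ((M - 1) * (n.choose (j + 1) : ℝ)) * ((n : ℝ) - j) := by
      calc ((M + 1) * (n.choose j : ℝ)) * ((n : ℝ) - j)
          = (M + 1) * ((n.choose j : ℝ) * ((n : ℝ) - j)) := by ring
        _ = (M + 1) * ((n.choose (j + 1) : ℝ) * ((j : ℝ) + 1)) := by rw [h2]
        _ = (n.choose (j + 1) : ℝ) * ((M + 1) * ((j : ℝ) + 1)) := by ring
        _ ≤ (n.choose (j + 1) : ℝ) * ((M - 1) * ((n : ℝ) + 1 - ((j : ℝ) + 1))) :=
            mul_le_mul_of_nonneg_left h h5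
        _ = _ := by ring
    exact le_of_mul_le_mul_right h10 h9
  linarith

end Pool.MP322P
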