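import Pool.Agent.Lib.MP_322c5f_alF.FC00
import Pool.Agent.Lib.MP_322c5f_alF.FE01
import Pool.Agent.Lib.MP_322c5f_alF.FE05
import Pool.Agent.Lib.MP_322c5f_al.SG7
import Pool.Agent.Lib.MP_322c5f_alP.PA00

/-! job 322P-Z1: the consumer theorem: existence of a good diagram from the budget
(compare `Planch.exists_good`, `Final.exists_good_lam`). -/

set_option autoImplicit false

open Equiv Finset Nat
open scoped NNReal

namespace Pool.MP322P

open Pool.MP322 Pool.MP322F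

/-- `lam` is good: every irreducible representation of `A_n` occurs in the square. -/
def GoodD {n : ℕ} (lam : Y n) : Prop := lam.tr ≠ lam ∧
  ∀ mu : Y n, ∃ Φ : Matrix (Tab ⊥ lam.1 n × Tab ⊥ lam.1 n) (Tab ⊥ mu.1 n) ℝ, Φ ≠ 0 ∧
    ∀ σ, Perm.sign σ = 1 →
      kr (rep ⊥ lam.1 n) (rep ⊥ lam.1 n) σ * Φ = Φ * rep ⊥ mu.1 n σ

/-- `Sq` gives an intertwiner (the sum over the even permutations is half of the sum for `mu` plus
the one for `mu.tr`, which is `≥ 0`; or directly an averaging argument over `S_n`). -/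
theorem Sq_hom {n : ℕ} (lam mu : Y n) (h : Sq lam mu) :
    ∃ Φ : Matrix (Tab ⊥ lam.1 n × Tab ⊥ lam.1 n) (Tab ⊥ mu.1 n) ℝ, Φ ≠ 0 ∧
      ∀ σ, Perm.sign σ = 1 →
        kr (rep ⊥ lam.1 n) (rep ⊥ lam.1 n) σ * Φ = Φ * rep ⊥ mu.1 n σ := by
  rw [Sq_iff, R3_pos_iff] at h
  obtain ⟨t, ht0, ht⟩ := h
  obtain ⟨M, hM⟩ : ∃ M : Matrix (Tab ⊥ lam.1 n × Tab ⊥ lam.1 n) (Tab ⊥ mu.1 n) ℝ,
      ∀ p z, M p z = t (p, z) := ⟨fun p z => t (p, z), fun _ _ => rfl⟩
  have key : ∀ σ : Perm (Fin n),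
      kr (rep ⊥ lam.1 n) (rep ⊥ lam.1 n) σ * M * (rep ⊥ mu.1 n σ).transpose = M := by
    intro σ
    ext p z
    have h1 := congrFun (ht σ) (p, z)
    rw [hM, ← h1, Matrix.mul_apply]
    unfold Matrix.mulVec dotProduct
    rw [Fintype.sum_prod_type, Finset.sum_comm]
    refine Finset.sum_congr rfl fun w _ => ?_
    rw [Matrix.mul_apply, Finset.sum_mul]
    refine Finset.sum_congr rfl fun q _ => ?_
    have h2 : R3 lam lam mu σ (p, z) (q, w) =
        kr (rep ⊥ lam.1 n) (rep ⊥ lam.1 n) σ p q * rep ⊥ mu.1 n σ z w :=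
      kr_apply (kr (rep ⊥ lam.1 n) (rep ⊥ lam.1 n)) (rep ⊥ mu.1 n) σ (p, z) (q, w)
    change kr (rep ⊥ lam.1 n) (rep ⊥ lam.1 n) σ p q * M q w * rep ⊥ mu.1 n σ z w =
      R3 lam lam mu σ (p, z) (q, w) * t (q, w)
    rw [h2, hM]
    ring
  refine ⟨M, ?_, ?_⟩
  · intro h0
    apply ht0
    funext x
    rw [← Prod.mk.eta (p := x), ← hM, h0]
    rfl
  · intro σ _
    have h1 := key σ
    have h2 : (rep ⊥ mu.1 n σ).transpose * rep ⊥ mu.1 n σ = 1 := by
      rw [rep_transpose, ← map_mul, inv_mul_cancel, map_one]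
    calc kr (rep ⊥ lam.1 n) (rep ⊥ lam.1 n) σ * M
        = kr (rep ⊥ lam.1 n) (rep ⊥ lam.1 n) σ * M *
        ((rep ⊥ mu.1 n σ).transpose * rep ⊥ mu.1 n σ) := by rw [h2, Matrix.mul_one]
      _ = M * rep ⊥ mu.1 n σ := by rw [← Matrix.mul_assoc, h1]

/-- averaging over the Plancherel measure. -/
theorem exists_avg {n c0 : ℕ} (hn : 2 ≤ n) (B : Multiset ℕ → ℝ) (hB : ∀ τ, 0 ≤ B τ)
    (h : (n ! : ℝ) * (∑ τ ∈ typesE n, B τ) + uC n (c0 - 1) + sC n < (n ! : ℝ)) (hc0 : 1 ≤ c0) :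
    ∃ lam : Y n, lam.tr ≠ lam ∧ c0 ≤ mcor lam.1 ∧
      ∑ σ ∈ Finset.univ.filter (fun σ : Perm (Fin n) => Perm.sign σ = 1 ∧ σ ≠ 1),
        (chi lam σ / fd lam) ^ 2 * B σ.cycleType < 1 := by
  classical
  by_contra hcon
  push Not at hcon
  set F := Finset.univ.filter (fun σ : Perm (Fin n) => Perm.sign σ = 1 ∧ σ ≠ 1) with hF
  have hS0 : ∀ lam : Y n, 0 ≤ ∑ σ ∈ F, (chi lam σ / fd lam) ^ 2 * B σ.cycleType :=
    fun lam => Finset.sum_nonneg fun σ _ => mul_nonneg (sq_nonneg _) (hB _)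
  have hpt : ∀ lam : Y n, fd lam ^ 2 ≤
      (if mcor lam.1 ≤ c0 - 1 then fd lam ^ 2 else 0) +
      (if lam.tr = lam then fd lam ^ 2 else 0) +
      fd lam ^ 2 * ∑ σ ∈ F, (chi lam σ / fd lam) ^ 2 * B σ.cycleType := by
    intro lam
    have hf0 : 0 ≤ fd lam ^ 2 := sq_nonneg _
    have h0 := mul_nonneg hf0 (hS0 lam)
    by_cases h1 : mcor lam.1 ≤ c0 - 1
    · rw [if_pos h1]
      have : 0 ≤ (if lam.tr = lam then fd lam ^ 2 else 0) := by split_ifs <;> linarith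
      linarith
    · rw [if_neg h1]
      by_cases h2 : lam.tr = lam
      · rw [if_pos h2]; linarith
      · rw [if_neg h2]
        have h3 := hcon lam h2 (by omega)
        nlinarith
  have hsum := Finset.sum_le_sum fun (lam : Y n) (_ : lam ∈ Finset.univ) => hpt lam
  rw [sum_sq, Finset.sum_add_distrib, Finset.sum_add_distrib, ← Finset.sum_filter,
    ← Finset.sum_filter] at hsum
  have hlast : ∑ lam : Y n,
      fd lam ^ 2 * ∑ σ ∈ F, (chi lam σ / fd lam) ^ 2 * B σ.cycleType ≤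
      (n ! : ℝ) * ∑ τ ∈ typesE n, B τ := by
    have h1 : ∑ lam : Y n,
        fd lam ^ 2 * ∑ σ ∈ F, (chi lam σ / fd lam) ^ 2 * B σ.cycleType =
        ∑ σ ∈ F, B σ.cycleType * ((n ! : ℝ) /
          (((Finset.univ : Finset (Perm (Fin n))).filter
          (fun π => π.cycleType = σ.cycleType)).card : ℝ)) := by
      have h2 : ∀ lam : Y n,
          fd lam ^ 2 * ∑ σ ∈ F, (chi lam σ / fd lam) ^ 2 * B σ.cycleType =
          ∑ σ ∈ F, B σ.cycleType * (fd lam ^ 2 * (chi lam σ / fd lam) ^ 2) := by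
        intro lam
        rw [Finset.mul_sum]
        exact Finset.sum_congr rfl fun σ _ => by ring
      rw [Finset.sum_congr rfl fun lam _ => h2 lam, Finset.sum_comm]
      refine Finset.sum_congr rfl fun σ _ => ?_
      rw [← Finset.mul_sum, plancherel_sq]
    rw [h1]
    exact planch_class_sum n B hB
  have hu : ∑ lam ∈ (Finset.univ : Finset (Y n)).filter (fun lam => mcor lam.1 ≤ c0 - 1),
      fd lam ^ 2 = uC n (c0 - 1) := rfl
  have hs : ∑ lam ∈ (Finset.univ : Finset (Y n)).filter (fun lam => lam.tr = lam),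
      fd lam ^ 2 = sC n := by
    unfold sC
    refine Finset.sum_congr ?_ fun _ _ => rfl
    ext lam
    simp only [Finset.mem_filter]
  rw [hu, hs] at hsum
  linarith

/-- the values of the characters of large depth. -/
theorem sv_bound {n k0 : ℕ} (mu : Y n) (h : k0 ≤ Dp mu) (σ : Perm (Fin n)) :
    -(chi mu σ) ≤ (sv n k0 σ.cycleType : ℝ) * fd mu := by
  have hf := fd_pos mu
  have h1 : Real.toNNReal (-(ty mu σ.cycleType / fd mu)) ≤ sv n k0 σ.cycleType := by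
    unfold sv
    exact Finset.le_sup (f := fun mu : Y n => Real.toNNReal (-(ty mu σ.cycleType / fd mu)))
      (Finset.mem_filter.2 ⟨Finset.mem_univ _, h⟩)
  have h2 : -(chi mu σ / fd mu) ≤ (sv n k0 σ.cycleType : ℝ) := by
    rw [ty_cycleType] at h1
    exact (Real.le_coe_toNNReal _).trans (NNReal.coe_le_coe.2 h1)
  have h3 := mul_le_mul_of_nonneg_right h2 hf.le
  have e3 : -(chi mu σ / fd mu) * fd mu = -(chi mu σ) := by field_simp
  rwa [e3] at h3

private theorem z1_sum {n : ℕ} {σ : Perm (Fin n)} (h : σ ≠ 1) :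
    0 < σ.cycleType.sum ∧ σ.cycleType.sum ≤ n := by
  rw [Perm.sum_cycleType]
  constructor
  · rw [Finset.card_pos, Finset.nonempty_iff_ne_empty]
    intro h0
    exact h (Perm.support_eq_empty_iff.1 h0)
  · have := Finset.card_le_univ σ.support
    rwa [Fintype.card_fin] at this

private theorem z1_del {n k : ℕ} (h : 2 * (k + 1) ≤ n) : 0 < Del n (k + 1) := by
  unfold Del
  rw [Nat.add_sub_cancel, sub_pos]
  have h1 := Nat.choose_succ_right_eq n k
  have h2 : 0 < n.choose k := Nat.choose_pos (by omega)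
  have h3 : n.choose k < n.choose (k + 1) := by
    by_contra hcon
    push Not at hcon
    have h4 : n.choose (k + 1) * (k + 1) ≤ n.choose k * (k + 1) := Nat.mul_le_mul_right _ hcon
    have h5 : n.choose k * (k + 1) < n.choose k * (n - k) :=
      Nat.mul_lt_mul_of_pos_left (by omega) h2
    omega
  exact_mod_cast h3

/-- the consumer theorem. -/
theorem good_of_budget {n c0 K k0 : ℕ} {x : ℝ} (hn : 2 ≤ n) (hc0 : 1 ≤ c0) (hK : 1 ≤ K)
    (hKk : K ≤ k0) (hk0 : 2 * k0 ≤ n + 2) (hpsi : PSIp n K k0 0 n x)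
    (hSq : ∀ lam mu : Y n, c0 ≤ mcor lam.1 → n - mu.1.rowLen 0 < K → Sq lam mu)
    (h : (n ! : ℝ) * ((FS n k0 : ℝ) + x) + uC n (c0 - 1) + sC n < (n ! : ℝ)) :
    ∃ lam : Y n, GoodD lam := by
  obtain ⟨Phi, hPhi0, hPhi, hPhis⟩ := hpsi
  have htyp : ∀ τ ∈ typesE n, 0 < τ.sum ∧ τ.sum ≤ n := by
    intro τ hτ
    unfold typesE at hτ
    rw [Finset.mem_image] at hτ
    obtain ⟨σ, hσ, rfl⟩ := hτ
    rw [Finset.mem_filter] at hσ
    exact z1_sum hσ.2.2
  have hfilt : (typesE n).filter (fun τ => 0 < τ.sum ∧ τ.sum ≤ n) = typesE n :=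
    Finset.filter_true_of_mem htyp
  rw [hfilt] at hPhis
  have hB : ∀ τ, 0 ≤ (sv n k0 τ : ℝ) + Phi τ := fun τ => add_nonneg (NNReal.coe_nonneg _) (hPhi0 τ)
  have hFS : ∑ τ ∈ typesE n, ((sv n k0 τ : ℝ) + Phi τ) ≤ (FS n k0 : ℝ) + x := by
    rw [Finset.sum_add_distrib]
    have h1 : ∑ τ ∈ typesE n, (sv n k0 τ : ℝ) = (FS n k0 : ℝ) := by
      unfold FS
      rw [NNReal.coe_sum]
    rw [h1]
    linarith
  obtain ⟨lam, hlam, hcor, hsum⟩ := exists_avg (n := n) (c0 := c0) hn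
    (fun τ => (sv n k0 τ : ℝ) + Phi τ) hB (by
      have h1 := mul_le_mul_of_nonneg_left hFS (Nat.cast_nonneg (α := ℝ) (n !))
      linarith) hc0
  refine ⟨lam, hlam, ?_⟩
  have htr : ∀ σ, (kr (rep ⊥ lam.1 n) (rep ⊥ lam.1 n) σ).trace = chi lam σ * chi lam σ :=
    fun σ => kr_trace _ _ _
  have claim : ∀ mu : Y n, mu.1.colLen 0 ≤ mu.1.rowLen 0 →
      ∃ Φ : Matrix (Tab ⊥ lam.1 n × Tab ⊥ lam.1 n) (Tab ⊥ mu.1 n) ℝ, Φ ≠ 0 ∧
        ∀ σ, Perm.sign σ = 1 →
          kr (rep ⊥ lam.1 n) (rep ⊥ lam.1 n) σ * Φ = Φ * rep ⊥ mu.1 n σ := by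
    intro mu hmu
    have hle := rowLen_le mu
    by_cases hK1 : n - mu.1.rowLen 0 < K
    · exact Sq_hom lam mu (hSq lam mu hcor hK1)
    · by_cases hk1 : k0 ≤ n - mu.1.rowLen 0
      · -- deep
        have hD : k0 ≤ Dp mu := by
          unfold Dp
          rw [max_eq_left hmu]
          exact hk1
        apply alt_hom mu
        simp only [htr]
        refine pos_sum lam (fun σ => (sv n k0 σ.cycleType : ℝ) + Phi σ.cycleType) (chi mu) (fd mu)
          (fd_pos mu) (chi_one mu) ?_ hsum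
        intro σ _ _
        refine (sv_bound mu hD σ).trans ?_
        exact mul_le_mul_of_nonneg_right (le_add_of_nonneg_right (hPhi0 _)) (fd_pos mu).le
      · -- middle
        obtain ⟨k, hk⟩ : ∃ k, n = mu.1.rowLen 0 + (k + 1) := ⟨n - mu.1.rowLen 0 - 1, by omega⟩
        obtain ⟨m, hm⟩ : ∃ m, m = mu.1.rowLen 0 := ⟨_, rfl⟩
        rw [← hm] at hk hK1 hk1 hle
        subst hk
        have hkm : k + 1 ≤ m := by omega
        have hKk1 : K ≤ k + 1 := by omega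
        have hkk0 : k + 1 < k0 := by omega
        obtain ⟨nu, hnu⟩ := eq_addRow hkm mu hm.symm
        rw [hnu]
        apply alt_hom_Psi hkm nu
        simp only [htr]
        have hdel : 0 < Del (m + (k + 1)) (k + 1) := z1_del (by omega)
        refine pos_sum lam (fun σ => (sv (m + (k + 1)) k0 σ.cycleType : ℝ) + Phi σ.cycleType)
          (Psi nu) (Del (m + (k + 1)) (k + 1) * fd nu) (mul_pos hdel (fd_pos nu)) ?_ ?_ hsum
        · rw [Psi_one nu]
          rfl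
        · intro σ hσ hσ1
          have h1 := z1_sum hσ1
          refine (hPhi k nu σ hKk1 hkk0 hσ hσ1 h1.1 h1.2).trans ?_
          exact mul_le_mul_of_nonneg_right (le_add_of_nonneg_left (NNReal.coe_nonneg _))
            (mul_pos hdel (fd_pos nu)).le
  intro mu
  rcases Nat.le_total (mu.1.colLen 0) (mu.1.rowLen 0) with h1 | h1
  · exact claim mu h1
  · obtain ⟨Φ, hΦ, hΦ'⟩ := claim mu.tr (by rw [rowLen_tr, colLen_tr]; exact h1)
    exact alt_transfer mu _ Φ hΦ hΦ'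

/-- without middle part. -/
theorem good_of_budget' {n c0 K : ℕ} (hn : 2 ≤ n) (hc0 : 1 ≤ c0) (hK : 1 ≤ K)
    (hk0 : 2 * K ≤ n + 2)
    (hSq : ∀ lam mu : Y n, c0 ≤ mcor lam.1 → n - mu.1.rowLen 0 < K → Sq lam mu)
    (h : (n ! : ℝ) * (FS n K : ℝ) + uC n (c0 - 1) + sC n < (n ! : ℝ)) :
    ∃ lam : Y n, GoodD lam := by
  refine good_of_budget (x := 0) hn hc0 hK le_rfl hk0 ?_ hSq (by rwa [add_zero])
  refine ⟨fun _ => 0, fun _ => le_rfl, ?_, ?_⟩
  · intro k nu g h1 h2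
    exact absurd h2 (by omega)
  · rw [Finset.sum_const_zero]

end Pool.MP322P
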