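import Pool.Agent.Lib.MP_322c5f_alP.PN02b
import Pool.Agent.Lib.MP_322c5f_alP.PN03b

/-! job 322P-Z2: the middle part for a block of consecutive `n = L, L+1, ...`: old classes from the
level table `L`, new classes from `newChk`. Rows `(K, k0, xo, xn)`. -/

set_option autoImplicit false

open Finset

namespace Pool.MP322P

open Pool.MP322

/-- check of the old classes for the rows `n, n+1, ...`. -/
noncomputable def oldAll (S L kx B T : ℕ) (l : List (ℕ × ℕ × ℕ × ℕ)) : ℕ → Bool :=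
  List.rec (motive := fun _ => ℕ → Bool) (fun _ => true)
    (fun r _ ih n => fz (Nat.add n 1) fun n' =>
      (and (and (and (Nat.ble 1 r.1) (Nat.ble (Nat.mul 2 r.2.1) (Nat.add n 2)))
        (and (Nat.ble r.2.1 (Nat.add kx 1)) (oldChk S r.1 r.2.1 L n B T r.2.2.1))) (ih n'))) l

/-- requests: the first row is the level itself. -/
def rqOf : List (ℕ × ℕ × ℕ × ℕ) → List Rq
  | [] => []
  | r :: l => ⟨true, r.1, r.2.1, r.2.2.2⟩ :: l.map fun r => ⟨false, r.1, r.2.1, r.2.2.2⟩

private theorem oldAll_cons (S L kx B T : ℕ) (r : ℕ × ℕ × ℕ × ℕ) (l : List (ℕ × ℕ × ℕ × ℕ))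
    (n : ℕ) : oldAll S L kx B T (r :: l) n =
      (((Nat.ble 1 r.1 && Nat.ble (Nat.mul 2 r.2.1) (Nat.add n 2)) &&
        (Nat.ble r.2.1 (Nat.add kx 1) && oldChk S r.1 r.2.1 L n B T r.2.2.1)) &&
          oldAll S L kx B T l (n + 1)) := by
  show (fz (Nat.add n 1) fun n' =>
      (and (and (and (Nat.ble 1 r.1) (Nat.ble (Nat.mul 2 r.2.1) (Nat.add n 2)))
        (and (Nat.ble r.2.1 (Nat.add kx 1)) (oldChk S r.1 r.2.1 L n B T r.2.2.1)))
          (oldAll S L kx B T l n'))) = _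
  rw [fz_eq]

private theorem oldAll_spec (S L kx B T : ℕ) (rows : List (ℕ × ℕ × ℕ × ℕ)) :
    ∀ n : ℕ, oldAll S L kx B T rows n = true → ∀ (i : ℕ) (r : ℕ × ℕ × ℕ × ℕ),
      rows[i]? = some r → 1 ≤ r.1 ∧ 2 * r.2.1 ≤ n + i + 2 ∧ r.2.1 ≤ kx + 1 ∧
        oldChk S r.1 r.2.1 L (n + i) B T r.2.2.1 = true := by
  induction rows with
  | nil => intro n _ i r hr; simp at hr
  | cons a l ih =>
    intro n h i r hr
    rw [oldAll_cons] at h
    simp only [Bool.and_eq_true] at h
    obtain ⟨⟨⟨h1, h2⟩, h3, h4⟩, h5⟩ := h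
    cases i with
    | zero =>
      have e : a = r := by simpa using hr
      subst e
      exact ⟨Nat.le_of_ble_eq_true h1, Nat.le_of_ble_eq_true h2, Nat.le_of_ble_eq_true h3, h4⟩
    | succ i =>
      have e : l[i]? = some r := by simpa using hr
      have h6 := ih (n + 1) h5 i r e
      rw [show n + 1 + i = n + (i + 1) by omega] at h6
      exact h6

private theorem rqOf_length (rows : List (ℕ × ℕ × ℕ × ℕ)) : (rqOf rows).length = rows.length := by
  cases rows <;> simp [rqOf]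

private theorem rqOf_getD (rows : List (ℕ × ℕ × ℕ × ℕ)) (i : ℕ) (r : ℕ × ℕ × ℕ × ℕ)
    (hr : rows[i]? = some r) :
    (rqOf rows).getD i ⟨false, 0, 0, 0⟩ = ⟨decide (i = 0), r.1, r.2.1, r.2.2.2⟩ := by
  cases rows with
  | nil => simp at hr
  | cons a l =>
    cases i with
    | zero =>
      have e : a = r := by simpa using hr
      subst e
      rfl
    | succ i =>
      have e : l[i]? = some r := by simpa using hr
      rw [List.getD_eq_getElem?_getD]
      simp [rqOf, List.getElem?_map, e]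

private theorem rqOf_rst (rows : List (ℕ × ℕ × ℕ × ℕ)) (i : ℕ) :
    ((rqOf rows).getD (i + 1) ⟨false, 0, 0, 0⟩).rst = false := by
  cases h : rows[i + 1]? with
  | some r => rw [rqOf_getD rows (i + 1) r h]; simp
  | none =>
    have h1 : rows.length ≤ i + 1 := by simpa using h
    rw [List.getD_eq_getElem?_getD, List.getElem?_eq_none (by rw [rqOf_length]; exact h1)]
    rfl

private theorem rqOf_lvl (L : ℕ) (rows : List (ℕ × ℕ × ℕ × ℕ)) (h0 : rows ≠ []) (i : ℕ) :
    lvl 0 L (rqOf rows) i = L := by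
  induction i with
  | zero =>
    cases rows with
    | nil => exact absurd rfl h0
    | cons a l =>
      unfold lvl
      simp [rqOf]
  | succ i ih =>
    unfold lvl at ih ⊢
    rw [List.range_succ, List.foldl_append, ih]
    simp only [List.foldl_cons, List.foldl_nil]
    rw [rqOf_rst]
    simp

/-- `PSIp_of_oldChk`, `newLoop_spec`, `PSIp.add`. -/
theorem psi_block {L kx B T : ℕ} {yl : ℕ → ℕ} (hyl : YOK yl L)
    (hT : ∀ k ≤ kx, ∑ m ∈ range (L + 1), ∑ τ ∈ evs m, PhiT yl L τ k = (dig B T k : ℤ))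
    {S S2 B2 L2 : ℕ} (hS : 0 < S) (hS2 : 0 < S2) (hB2 : 8 * L2 * 2 ^ L2 < 2 ^ B2) (hL : 1 ≤ L)
    (rows : List (ℕ × ℕ × ℕ × ℕ)) (hlen : L + rows.length ≤ L2 + 1)
    (hold : oldAll S L kx B T rows L = true)
    (hnew : newChk S2 B2 L2 L (rqOf rows) = true)
    (i : ℕ) (r : ℕ × ℕ × ℕ × ℕ) (hr : rows[i]? = some r) :
    PSIp (L + i) r.1 r.2.1 0 (L + i) (((r.2.2.1 + r.2.2.2 : ℕ) : ℝ) / 10000) := by
  have hil : i < rows.length := by
    by_contra h
    rw [List.getElem?_eq_none (not_lt.1 h)] at hr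
    exact absurd hr (by simp)
  have hne : rows ≠ [] := by
    intro h
    rw [h] at hil
    simp at hil
  obtain ⟨h1, h2, h3, h4⟩ := oldAll_spec S L kx B T rows L hold i r hr
  have hO := PSIp_of_oldChk hyl hT hS (Nat.le_add_right L i) h1 h2 h3 h4
  have hN := newLoop_spec S2 B2 L2 L (rqOf rows) hS2 hB2 hL (by rw [rqOf_length]; exact hlen)
    (by
      intro j hj
      rw [rqOf_length] at hj
      obtain ⟨q, hq⟩ : ∃ q, rows[j]? = some q := ⟨rows[j], List.getElem?_eq_getElem hj⟩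
      obtain ⟨h5, h6, -, -⟩ := oldAll_spec S L kx B T rows L hold j q hq
      right
      rw [rqOf_getD rows j q hq]
      exact ⟨h5, h6⟩)
    hnew i (by rw [rqOf_length]; exact hil)
    (by
      obtain ⟨q, hq⟩ : ∃ q, rows[0]? = some q :=
        ⟨rows[0]'(by omega), List.getElem?_eq_getElem (by omega)⟩
      rw [rqOf_getD rows 0 q hq]
      simp)
  rw [rqOf_lvl L rows hne, rqOf_getD rows i r hr] at hN
  have h5 := PSIp.add (Nat.zero_le L) (Nat.le_add_right L i) hO hN
  have e : (((r.2.2.1 + r.2.2.2 : ℕ) : ℝ) / 10000) =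
      (r.2.2.1 : ℝ) / 10000 + (r.2.2.2 : ℝ) / 10000 := by
    push_cast
    ring
  rw [e]
  exact h5

end Pool.MP322P
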