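import Pool.Agent.Lib.MP_322c5f_alP.PZ01

/-! Facts for the consumer (list of parameters): first rows `> n - K` are reached by the diagrams
with at least `c` corners. -/

set_option autoImplicit false

open Equiv Finset Nat

namespace Pool.MP322P

open Pool.MP322

/-- diagrams with at least `c` corners and at least `n0` cells reach every depth below `K` (the same
as `SqK` in SG44.lean). -/
def SqF (c K n0 : ℕ) : Prop :=
  ∀ n, n0 ≤ n → ∀ lam mu : Y n, c ≤ mcor lam.1 → n - mu.1.rowLen 0 < K → Sq lam mu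

/-- list of `(c, K, n0)`. -/
def factL : List (ℕ × ℕ × ℕ) :=
  [(4, 10, 24), (5, 15, 36), (6, 17, 43), (6, 19, 66), (7, 18, 43), (7, 20, 66), (7, 22, 91),
   (8, 19, 0), (8, 20, 66), (8, 22, 91), (8, 24, 100), (9, 23, 0), (9, 24, 100), (9, 27, 117),
   (10, 28, 0), (10, 29, 145), (11, 34, 0), (12, 40, 0), (13, 46, 0), (14, 53, 0), (15, 61, 0),
   (16, 65, 0), (17, 69, 0), (18, 76, 0), (19, 81, 0), (20, 91, 0), (21, 93, 0), (22, 106, 0),
   (23, 107, 0), (24, 122, 0), (26, 138, 0)]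

/-- all the facts. -/
def Facts : Prop :=
  (∀ t ∈ factL, SqF t.1 t.2.1 t.2.2) ∧ ∀ c, 26 ≤ c → SqF c (c ^ 2 / 5 + 1) 0

/-- test. -/
def factOK (n c K : ℕ) : Bool :=
  (factL.any fun t => Nat.ble t.1 c && Nat.ble K t.2.1 && Nat.ble t.2.2 n) ||
    (Nat.ble 26 c && Nat.ble K (c ^ 2 / 5 + 1))

theorem Sq_of_fact (hf : Facts) {n c K : ℕ} (h : factOK n c K = true) (lam mu : Y n)
    (hc : c ≤ mcor lam.1) (hK : n - mu.1.rowLen 0 < K) : Sq lam mu := by
  unfold factOK at h
  rw [Bool.or_eq_true] at h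
  rcases h with h | h
  · rw [List.any_eq_true] at h
    obtain ⟨t, ht, h⟩ := h
    rw [Bool.and_eq_true, Bool.and_eq_true] at h
    obtain ⟨⟨h1, h2⟩, h3⟩ := h
    have h1 := Nat.le_of_ble_eq_true h1
    have h2 := Nat.le_of_ble_eq_true h2
    have h3 := Nat.le_of_ble_eq_true h3
    exact hf.1 t ht n h3 lam mu (h1.trans hc) (lt_of_lt_of_le hK h2)
  · rw [Bool.and_eq_true] at h
    have h1 := Nat.le_of_ble_eq_true h.1
    have h2 := Nat.le_of_ble_eq_true h.2
    exact hf.2 c h1 n (Nat.zero_le _) lam mu hc (lt_of_lt_of_le hK h2)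

end Pool.MP322P
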