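import Pool.Agent.Lib.MP_322c5f_al.SG44
import Pool.Agent.Lib.MP_322c5f_alP.PZ04a

/-! Facts for the consumer: proof. -/

set_option autoImplicit false

open Equiv Finset Nat

namespace Pool.MP322P

open Pool.MP322

theorem factL_ok : ∀ t ∈ factL, SqF t.1 t.2.1 t.2.2 := by
  intro t ht
  simp only [factL, List.mem_cons, List.not_mem_nil, or_false] at ht
  rcases ht with rfl | rfl | rfl | rfl | rfl | rfl | rfl | rfl | rfl | rfl | rfl | rfl | rfl |
    rfl | rfl | rfl | rfl | rfl | rfl | rfl | rfl | rfl | rfl | rfl | rfl | rfl | rfl | rfl |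
    rfl | rfl | rfl
  · exact sq4
  · exact sq5
  · exact sq6
  · exact sq6'
  · exact sq7
  · exact sq7'
  · exact sq7''
  · exact sq8
  · exact sq8'
  · exact sq8''
  · exact sq8'''
  · exact sq9
  · exact sq9'
  · exact sq9''
  · exact sq10
  · exact sq10'
  · exact sq11
  · exact sq12
  · exact sq13
  · exact sq14
  · exact sq15
  · exact sq16
  · exact sq17
  · exact sq18
  · exact sq19
  · exact sq20
  · exact sq21
  · exact sq22
  · exact sq23
  · exact sq24
  · exact sq26

theorem facts : Facts :=
  ⟨factL_ok, fun c hc => sq_fifth c hc⟩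

end Pool.MP322P
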