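import Pool.Agent.Lib.MP_322c5f_alP.PZ05

/-! job 322P-Z8: the check `ckUS` with the state at the end, so that a long run can be split into
several theorems (the kernel frees its caches after every theorem). -/

set_option autoImplicit false

open Equiv Finset Nat
open scoped NNReal

namespace Pool.MP322P

open Pool.MP322 Pool.MP322F

/-- difference (zero iff equal). -/
noncomputable def dfN (a b : ℕ) : ℕ := Nat.add (Nat.sub a b) (Nat.sub b a)

theorem dfN_eq {a b : ℕ} (h : dfN a b = 0) : a = b := by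
  have h1 : (a - b) + (b - a) = 0 := h
  omega

/-- `ckUS` together with a check of the final state `u', s0', s1', k'`. -/
noncomputable def ckUSf (L u' s0' s1' k' : ℕ) (spec : NP) : ℕ → ℕ → ℕ → ℕ → ℕ → ℕ :=
  NP.rec (motive := fun _ => ℕ → ℕ → ℕ → ℕ → ℕ → ℕ)
    (fun _ u s0 s1 k => Nat.add (Nat.add (dfN u u') (dfN s0 s0')) (Nat.add (dfN s1 s1') (dfN k k')))
    (fun c B _ ih n u s0 s1 k => Nat.add
      (Nat.add (Nat.add (Nat.sub 1 c) (Nat.sub c L))
        (Nat.sub (Nat.mul 1000 (Nat.add (usl u (Nat.sub c 1)) s0)) (Nat.mul B (Nat.pow 2 40))))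
      (frc (uNx L n u) (fun u' => frc (sNx n s0 k) (fun s2 => frc (mNx n k) (fun k' =>
        frc (Nat.add n 1) (fun n' => ih n' u' s1 s2 k')))))) spec

/-- state at `n`. -/
def StUS (L n u s0 s1 k : ℕ) : Prop :=
  URow L n u ∧ SRow n s0 ∧ SRow (n + 1) s1 ∧ mC n = k ∧ 1 ≤ k

private theorem frcE8 {α : Type} (v : ℕ) (k : ℕ → α) : frc v k = k v := by
  cases v <;> rfl

private theorem ckUSf_cons (L u' s0' s1' k' c B : ℕ) (t : NP) (n u s0 s1 k : ℕ) :
    ckUSf L u' s0' s1' k' (NP.cons c B t) n u s0 s1 k =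
      (((1 - c) + (c - L)) + (1000 * (usl u (c - 1) + s0) - B * 2 ^ 40)) +
        ckUSf L u' s0' s1' k' t (n + 1) (uNx L n u) s1 (sNx n s0 k) (mNx n k) := by
  have h1 : ckUSf L u' s0' s1' k' (NP.cons c B t) n u s0 s1 k = Nat.add
      (Nat.add (Nat.add (Nat.sub 1 c) (Nat.sub c L))
        (Nat.sub (Nat.mul 1000 (Nat.add (usl u (Nat.sub c 1)) s0)) (Nat.mul B (Nat.pow 2 40))))
      (frc (uNx L n u) (fun v => frc (sNx n s0 k) (fun s2 => frc (mNx n k) (fun k1 =>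
        frc (Nat.add n 1) (fun n' => ckUSf L u' s0' s1' k' t n' v s1 s2 k1))))) := rfl
  rw [h1, frcE8, frcE8, frcE8, frcE8]
  rfl

private theorem mNx_ge8 (n k : ℕ) : k ≤ mNx n k := by
  show k ≤ k + (1 - ((k + 1) * (k + 2) - 2 * (n + 1)))
  omega

private theorem ckUSf_one {L u' s0' s1' k' c B : ℕ} {t : NP} {n u s0 s1 k : ℕ}
    (hs : StUS L n u s0 s1 k) (h : ckUSf L u' s0' s1' k' (NP.cons c B t) n u s0 s1 k = 0) :
    UB n c B ∧ ∃ v s2 k1, StUS L (n + 1) v s1 s2 k1 ∧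
      ckUSf L u' s0' s1' k' t (n + 1) v s1 s2 k1 = 0 := by
  obtain ⟨hu, h0, h1, hk, hk1⟩ := hs
  rw [ckUSf_cons] at h
  have a1 : 1 - c = 0 := by omega
  have a2 : c - L = 0 := by omega
  have a3 : 1000 * (usl u (c - 1) + s0) - B * 2 ^ 40 = 0 := by omega
  have a4 : ckUSf L u' s0' s1' k' t (n + 1) (uNx L n u) s1 (sNx n s0 k) (mNx n k) = 0 := by omega
  refine ⟨?_, uNx L n u, sNx n s0 k, mNx n k, ⟨uNx_sound hu, h1, sNx_sound hk hk1 h0,
    mNx_eq hk, hk1.trans (mNx_ge8 n k)⟩, a4⟩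
  refine ⟨by omega, ?_⟩
  have b1 := hu c (by omega) (by omega)
  have b2 : sC n * 2 ^ 40 ≤ (s0 : ℝ) * (n ! : ℝ) := h0
  have b3 : 1000 * (usl u (c - 1) + s0) ≤ B * 2 ^ 40 := by omega
  have b4 : (1000 : ℝ) * ((usl u (c - 1) : ℝ) + s0) ≤ (B : ℝ) * 2 ^ 40 := by
    exact_mod_cast b3
  have hf0 : (0 : ℝ) < (n ! : ℝ) := by exact_mod_cast Nat.factorial_pos _
  have b5 := mul_le_mul_of_nonneg_right b4 hf0.le
  have b6 : (uC n c + sC n) * 2 ^ 40 ≤ ((B : ℝ) / 1000 * (n ! : ℝ)) * 2 ^ 40 := by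
    nlinarith
  exact le_of_mul_le_mul_right b6 (by positivity)

private theorem ckUSf_rep {L u' s0' s1' k' c B : ℕ} {t : NP} (m : ℕ) :
    ∀ {n u s0 s1 k : ℕ}, StUS L n u s0 s1 k →
      ckUSf L u' s0' s1' k' (repNP m c B t) n u s0 s1 k = 0 →
      (∀ i < m, UB (n + i) c B) ∧ ∃ v s2 s3 k1, StUS L (n + m) v s2 s3 k1 ∧
        ckUSf L u' s0' s1' k' t (n + m) v s2 s3 k1 = 0 := by
  induction m with
  | zero =>
    intro n u s0 s1 k hs h
    exact ⟨fun i hi => absurd hi (Nat.not_lt_zero i), u, s0, s1, k, hs, h⟩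
  | succ m ih =>
    intro n u s0 s1 k hs h
    obtain ⟨h1, v, s2, k1, hs2, h2⟩ := ckUSf_one (t := repNP m c B t) hs h
    obtain ⟨h3, w, s4, s5, k2, hs3, h4⟩ := ih hs2 h2
    have e : n + 1 + m = n + (m + 1) := by omega
    rw [e] at hs3 h4
    refine ⟨fun i hi => ?_, w, s4, s5, k2, hs3, h4⟩
    cases i with
    | zero => exact h1
    | succ i =>
      have h5 := h3 i (by omega)
      rwa [show n + 1 + i = n + (i + 1) by omega] at h5

/-- all the bounds of the runs, and the state at the end. -/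
theorem allRuns_of_ckUSf {L u' s0' s1' k' : ℕ} (runs : List (ℕ × ℕ × ℕ)) :
    ∀ {n u s0 s1 k : ℕ}, StUS L n u s0 s1 k →
      ckUSf L u' s0' s1' k' (expNP runs) n u s0 s1 k = 0 →
      AllRuns UB n runs ∧ StUS L (n + lenRuns runs) u' s0' s1' k' := by
  induction runs with
  | nil =>
    intro n u s0 s1 k hs h
    have h1 : (dfN u u' + dfN s0 s0') + (dfN s1 s1' + dfN k k') = 0 := h
    have e1 : u = u' := dfN_eq (by omega)
    have e2 : s0 = s0' := dfN_eq (by omega)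
    have e3 : s1 = s1' := dfN_eq (by omega)
    have e4 : k = k' := dfN_eq (by omega)
    subst e1 e2 e3 e4
    exact ⟨trivial, hs⟩
  | cons r l ih =>
    intro n u s0 s1 k hs h
    obtain ⟨h1, v, s2, s3, k1, hs2, h2⟩ := ckUSf_rep (t := expNP l) r.1 hs h
    obtain ⟨h3, h4⟩ := ih hs2 h2
    refine ⟨⟨h1, h3⟩, ?_⟩
    have e : n + lenRuns (r :: l) = n + r.1 + lenRuns l := by
      show n + ((r :: l).map fun r => r.1).sum = n + r.1 + (l.map fun r => r.1).sum
      rw [List.map_cons, List.sum_cons, Nat.add_assoc]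
    rw [e]
    exact h4

end Pool.MP322P
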