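import Pool.Agent.Lib.MP_322c5f_alF.FKe
import Pool.Agent.Lib.MP_322c5f_alF.FKb30U
import Pool.Agent.Lib.MP_322c5f_alP.PZ06
import Pool.Agent.Lib.MP_322c5f_alP.PZ08

/-! job 322P-Z: the range `30 ≤ n ≤ 59` (no middle part). Rows `(K, c, B, f)`: `c + 1` corners,
`FS n K ≤ f/1000`, `uC n c + sC n ≤ B/1000 n!`. -/

set_option autoImplicit false
set_option maxRecDepth 100000

open Equiv Finset Nat
open scoped NNReal

namespace Pool.MP322P

open Pool.MP322 Pool.MP322F

/-- test for `FS n k ≤ f/1000`, `30 ≤ n ≤ 100`. -/
noncomputable def fr30 (n k f : ℕ) : Bool :=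
  Nat.ble n 100 && Nat.ble (2 * k + 1) n &&
    Nat.ble (Nat.mul 1000 (NL.gt (LL.gt B30.frAll (n - 30)) k)) (Nat.mul f (Nat.pow 2 40))

theorem fr30_ok (n k f : ℕ) (hn : 30 ≤ n) (h : fr30 n k f = true) :
    (FS n k : ℝ) ≤ (f : ℝ) / 1000 := by
  unfold fr30 at h
  rw [Bool.and_eq_true, Bool.and_eq_true] at h
  exact FS_le30 hn (Nat.le_of_ble_eq_true h.1.1) (Nat.le_of_ble_eq_true h.1.2) h.2

/-- rows `(K, c, B, f)`. -/
def rows30 : List (ℕ × ℕ × ℕ × ℕ) :=
  [(10, 3, 262, 176), (10, 3, 277, 206), (10, 3, 252, 254), (10, 3, 296, 276),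
   (10, 3, 278, 299), (10, 3, 259, 320), (10, 3, 249, 363), (10, 3, 245, 385),
   (10, 3, 234, 409), (10, 3, 220, 437), (10, 3, 206, 471), (10, 3, 192, 505),
   (10, 3, 178, 546), (15, 4, 379, 342), (15, 4, 359, 351), (15, 4, 346, 359),
   (15, 4, 334, 368), (15, 4, 318, 377), (15, 4, 300, 388), (15, 4, 283, 399),
   (15, 4, 266, 411), (15, 4, 250, 426), (15, 4, 235, 442), (15, 4, 221, 459),
   (15, 4, 208, 479), (15, 4, 205, 502), (15, 4, 202, 528), (15, 4, 196, 558),
   (15, 4, 188, 592), (15, 4, 179, 631)]

/-- the bounds of the corner numbers at `60`. -/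
noncomputable def uS60 : ℕ := 0x100000000000000010000000000000001000000000000000100000000000000010000000000000001000000000000000100000000000000010000000000000001000000000000000100000000000000010000000000000001000000000000000100000000000000010000000000000001000000000000000100000000000000010000000000000001000000000000000100000000000000010000000000000001000000000000000100000000000000010000000000000001000000000000000100000000000000010000000000000001000000000000000100000000000000010000000000000001000000000000000100000000000000010000000000000001000000000000000100000000000000010000000000000001000000000000000100000000000000010000000000000001000000000000000100000000000000010000000000000001000000000000000100000000000000010000000000000001000000000000000100000000000000010000000000000001000000000000000100000000000000010000000000000001000000000000000100000000000000010000000000000000ed48f58a15000000a1f31775ad0000004ce41bd11a000000175d88397c00000003f90b0b7a000000004be6308200000000016ab105000000000000003c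

theorem st30 : StUS 60 30 B30.u0 283892681556 279276232732 7 :=
  ⟨B30.urow, B30.srow0, B30.srow1, B30.hmC, by norm_num⟩

theorem run30 : AllRuns UB 30 (rows30.map fun r => (1, r.2.1, r.2.2.1)) ∧
    StUS 60 (30 + lenRuns (rows30.map fun r => (1, r.2.1, r.2.2.1))) uS60 85465563291 81941786905 10 :=
  allRuns_of_ckUSf _ st30 (by decide +kernel)

theorem ub30 : AllRuns UB 30 (rows30.map fun r => (1, r.2.1, r.2.2.1)) := run30.1

theorem st60 : StUS 60 60 uS60 85465563291 81941786905 10 := by
  have h : 30 + lenRuns (rows30.map fun r => (1, r.2.1, r.2.2.1)) = 60 := by decide +kernel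
  have h2 := run30.2
  rwa [h] at h2

theorem chk30 : chkBlk' fr30 30 rows30 = true := by decide +kernel

theorem good_30 (hf : Facts) (n : ℕ) (h1 : 30 ≤ n) (h2 : n < 60) : ∃ lam : Y n, GoodD lam :=
  good_blk' hf (a := 30) (by norm_num) fr30_ok rows30 ub30 chk30 n h1
    (by simpa [rows30] using h2)

end Pool.MP322P
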