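import Pool.Agent.Lib.MP_322c5f_alP.PI060
import Pool.Agent.Lib.MP_322c5f_alP.PZ30

/-! job 322P-Z: the range `60 ≤ n ≤ 79` (level `60`). Rows `(c, B, f)`: `c + 1` corners,
`FS n k0 ≤ f/1000`, `uC n c + sC n ≤ B/1000 n!`. -/

set_option autoImplicit false
set_option maxRecDepth 100000

open Equiv Finset Nat
open scoped NNReal

namespace Pool.MP322P

open Pool.MP322 Pool.MP322F

/-- rows `(c, B, f)`. -/
def srows60 : List (ℕ × ℕ × ℕ) :=
  [(4, 170, 486), (4, 160, 453), (4, 151, 429), (4, 142, 442), (4, 134, 421),
   (4, 127, 404), (4, 126, 414), (4, 126, 424), (4, 123, 408), (4, 119, 417),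
   (4, 114, 403), (4, 109, 411), (5, 226, 398), (5, 216, 406), (5, 207, 414),
   (5, 199, 401), (5, 189, 409), (5, 180, 397), (5, 176, 404), (5, 172, 412)]

/-- the bounds of the corner numbers at `80`. -/
noncomputable def uS80 : ℕ := 0x10000000000000001000000000000000100000000000000010000000000000001000000000000000100000000000000010000000000000001000000000000000100000000000000010000000000000001000000000000000100000000000000010000000000000001000000000000000100000000000000010000000000000001000000000000000100000000000000010000000000000001000000000000000100000000000000010000000000000001000000000000000100000000000000010000000000000001000000000000000100000000000000010000000000000001000000000000000100000000000000010000000000000001000000000000000100000000000000010000000000000001000000000000000100000000000000010000000000000001000000000000000100000000000000010000000000000001000000000000000100000000000000010000000000000001000000000000000100000000000000010000000000000001000000000000000100000000000000010000000000000001000000000000000100000000000000010000000000000000e3e9d39e020000009b91e009280000004e1ce03d3f0000001b43fcf1270000000618a5c23f00000000c4682678000000000afce3ec0000000000274c370000000000000050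

theorem run60 : AllRuns UB 60 (srows60.map fun r => (1, r.1, r.2.1)) ∧
    StUS 60 (60 + lenRuns (srows60.map fun r => (1, r.1, r.2.1))) uS80 65547378953 64765740548 12 :=
  allRuns_of_ckUSf _ st60 (by decide +kernel)

theorem ub60 : AllRuns UB 60 (srows60.map fun r => (1, r.1, r.2.1)) := run60.1

theorem st80 : StUS 60 80 uS80 65547378953 64765740548 12 := by
  have h : 60 + lenRuns (srows60.map fun r => (1, r.1, r.2.1)) = 80 := by decide +kernel
  have h2 := run60.2
  rwa [h] at h2

theorem chk60 : chkBlk fr30 60 rows60 srows60 = true := by decide +kernel

theorem good_60 (hf : Facts) (n : ℕ) (h1 : 60 ≤ n) (h2 : n < 80) :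
    ∃ lam : Y n, GoodD lam :=
  good_blk hf (a := 60) (by norm_num) (fun n k f hn h => fr30_ok n k f (by omega) h)
    rows60 srows60 psi60 ub60 chk60 n h1 (by simpa [rows60] using h2)

end Pool.MP322P
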