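import Pool.Agent.Lib.MP_322c5f_alP.PI080
import Pool.Agent.Lib.MP_322c5f_alP.PZ60

/-! job 322P-Z: the range `80 ≤ n ≤ 99` (level `80`). Rows `(c, B, f)`: `c + 1` corners,
`FS n k0 ≤ f/1000`, `uC n c + sC n ≤ B/1000 n!`. -/

set_option autoImplicit false
set_option maxRecDepth 100000

open Equiv Finset Nat
open scoped NNReal

namespace Pool.MP322P

open Pool.MP322 Pool.MP322F

/-- rows `(c, B, f)`. -/
def srows80 : List (ℕ × ℕ × ℕ) :=
  [(5, 167, 448), (5, 160, 430), (5, 153, 415), (5, 147, 402), (5, 141, 410),
   (5, 135, 399), (5, 129, 405), (5, 123, 395), (5, 118, 401), (5, 114, 392),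
   (5, 109, 398), (5, 109, 389), (5, 108, 394), (5, 106, 386), (5, 103, 391),
   (5, 99, 397), (5, 95, 389), (5, 92, 394), (5, 88, 386), (5, 84, 391)]

/-- the bounds of the corner numbers at `100`. -/
noncomputable def uS100 : ℕ := 0x1000000000000000100000000000000010000000000000001000000000000000100000000000000010000000000000001000000000000000100000000000000010000000000000001000000000000000100000000000000010000000000000001000000000000000100000000000000010000000000000001000000000000000100000000000000010000000000000001000000000000000100000000000000010000000000000001000000000000000100000000000000010000000000000001000000000000000100000000000000010000000000000001000000000000000100000000000000010000000000000001000000000000000100000000000000010000000000000001000000000000000100000000000000010000000000000001000000000000000100000000000000010000000000000001000000000000000100000000000000010000000000000001000000000000000100000000000000010000000000000001000000000000000100000000000000010000000000000001000000000000000100000000000000010000000000000000e41e8fa067000000a0c5bbf95900000056d4111123000000227aa184f30000000983a4301c00000001ae608da1000000002acb814b0000000001e44bfb0000000000055a1b0000000000000064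

theorem run80 : AllRuns UB 80 (srows80.map fun r => (1, r.1, r.2.1)) ∧
    StUS 60 (80 + lenRuns (srows80.map fun r => (1, r.1, r.2.1))) uS100 47866461972 46658404741 13 :=
  allRuns_of_ckUSf _ st80 (by decide +kernel)

theorem ub80 : AllRuns UB 80 (srows80.map fun r => (1, r.1, r.2.1)) := run80.1

theorem st100 : StUS 60 100 uS100 47866461972 46658404741 13 := by
  have h : 80 + lenRuns (srows80.map fun r => (1, r.1, r.2.1)) = 100 := by decide +kernel
  have h2 := run80.2
  rwa [h] at h2

theorem chk80 : chkBlk fr30 80 rows80 srows80 = true := by decide +kernel

theorem good_80 (hf : Facts) (n : ℕ) (h1 : 80 ≤ n) (h2 : n < 100) :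
    ∃ lam : Y n, GoodD lam :=
  good_blk hf (a := 80) (by norm_num) (fun n k f hn h => fr30_ok n k f (by omega) h)
    rows80 srows80 psi80 ub80 chk80 n h1 (by simpa [rows80] using h2)

end Pool.MP322P
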