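import Pool.Agent.Lib.MP_322c5f_alP.PI100
import Pool.Agent.Lib.MP_322c5f_alP.PZ80

/-! job 322P-Z: the range `100 ≤ n ≤ 149` (level `100`). Rows `(c, B, f)`: `c + 1` corners,
`FS n k0 ≤ f/1000`, `uC n c + sC n ≤ B/1000 n!`. -/

set_option autoImplicit false
set_option maxRecDepth 100000

open Equiv Finset Nat
open scoped NNReal

namespace Pool.MP322P

open Pool.MP322 Pool.MP322F

/-- rows `(c, B, f)`. -/
def srows100 : List (ℕ × ℕ × ℕ) :=
  [(5, 81, 450), (5, 78, 450), (5, 75, 450), (5, 72, 450), (5, 70, 450),
   (5, 70, 450), (5, 71, 450), (5, 70, 450), (5, 68, 450), (5, 66, 450),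
   (5, 64, 450), (5, 62, 450), (5, 61, 450), (5, 59, 450), (5, 57, 450),
   (5, 55, 450), (5, 54, 450), (5, 52, 450), (5, 50, 450), (5, 49, 450),
   (5, 50, 450), (5, 51, 450), (6, 91, 450), (6, 89, 450), (6, 86, 450),
   (6, 83, 450), (6, 81, 450), (6, 78, 450), (6, 76, 450), (6, 73, 450),
   (6, 71, 450), (6, 69, 450), (6, 67, 450), (6, 65, 450), (6, 63, 450),
   (6, 61, 450), (6, 61, 450), (6, 62, 450), (6, 61, 450), (6, 59, 450),
   (6, 58, 450), (6, 56, 450), (6, 55, 450), (6, 53, 450), (6, 52, 450),
   (7, 103, 450), (7, 99, 450), (7, 96, 450), (7, 93, 450), (7, 91, 450)]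

/-- the bounds of the corner numbers at `150`. -/
noncomputable def uS150 : ℕ := 0x10000000000000001000000000000000100000000000000010000000000000001000000000000000100000000000000010000000000000001000000000000000100000000000000010000000000000001000000000000000100000000000000010000000000000001000000000000000100000000000000010000000000000001000000000000000100000000000000010000000000000001000000000000000100000000000000010000000000000001000000000000000100000000000000010000000000000001000000000000000100000000000000010000000000000001000000000000000100000000000000010000000000000001000000000000000100000000000000010000000000000001000000000000000100000000000000010000000000000001000000000000000100000000000000010000000000000001000000000000000100000000000000010000000000000001000000000000000100000000000000010000000000000001000000000000000100000000000000010000000000000000defa188dfc000000a0978324cd0000005dbaf89cdd0000002b3e4bd9ae0000000f47d5a4e400000003f7e78a7800000000b744874600000000152a03ec00000000016002de00000000000a2a7b00000000000012cb0000000000000096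

theorem run100 : AllRuns UB 100 (srows100.map fun r => (1, r.1, r.2.1)) ∧
    StUS 60 (100 + lenRuns (srows100.map fun r => (1, r.1, r.2.1))) uS150 30626412114 30132536377 16 :=
  allRuns_of_ckUSf _ st100 (by decide +kernel)

theorem ub100 : AllRuns UB 100 (srows100.map fun r => (1, r.1, r.2.1)) := run100.1

theorem st150 : StUS 60 150 uS150 30626412114 30132536377 16 := by
  have h : 100 + lenRuns (srows100.map fun r => (1, r.1, r.2.1)) = 150 := by decide +kernel
  have h2 := run100.2
  rwa [h] at h2

/-- test for `FS n k ≤ 450/1000`, `100 ≤ n`. -/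
def frT (n k f : ℕ) : Bool := Nat.ble (19 * n) (50 * k) && Nat.ble (2 * k + 1) n && Nat.beq f 450

theorem frT_ok (hF : ∀ n K : ℕ, 100 ≤ n → 19 * n ≤ 50 * K → 2 * K + 1 ≤ n →
    (FS n K : ℝ) ≤ 9 / 20) (n k f : ℕ) (hn : 100 ≤ n) (h : frT n k f = true) :
    (FS n k : ℝ) ≤ (f : ℝ) / 1000 := by
  unfold frT at h
  rw [Bool.and_eq_true, Bool.and_eq_true] at h
  have h1 := hF n k hn (Nat.le_of_ble_eq_true h.1.1) (Nat.le_of_ble_eq_true h.1.2)
  have h2 : f = 450 := Nat.eq_of_beq_eq_true h.2
  rw [h2]
  norm_num at h1 ⊢
  exact h1

theorem chk100 : chkBlk frT 100 rows100 srows100 = true := by decide +kernel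

theorem good_100 (hf : Facts) (hF : ∀ n K : ℕ, 100 ≤ n → 19 * n ≤ 50 * K → 2 * K + 1 ≤ n →
    (FS n K : ℝ) ≤ 9 / 20) (n : ℕ) (h1 : 100 ≤ n) (h2 : n < 150) :
    ∃ lam : Y n, GoodD lam :=
  good_blk hf (a := 100) (by norm_num) (fun n k f hn h => frT_ok hF n k f (by omega) h)
    rows100 srows100 psi100 ub100 chk100 n h1 (by simpa [rows100] using h2)

end Pool.MP322P
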