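import Pool.Agent.Lib.MP_322c5f_alP.PI150
import Pool.Agent.Lib.MP_322c5f_alP.PZ100

/-! job 322P-Z: the range `150 ≤ n ≤ 199` (level `150`). Rows `(c, B, f)`: `c + 1` corners,
`FS n k0 ≤ f/1000`, `uC n c + sC n ≤ B/1000 n!`. -/

set_option autoImplicit false
set_option maxRecDepth 100000

open Equiv Finset Nat
open scoped NNReal

namespace Pool.MP322P

open Pool.MP322 Pool.MP322F

/-- rows `(c, B, f)`. -/
def srows150 : List (ℕ × ℕ × ℕ) :=
  [(6, 44, 450), (6, 43, 450), (6, 42, 450), (6, 42, 450), (6, 43, 450),
   (6, 43, 450), (6, 42, 450), (6, 41, 450), (6, 40, 450), (6, 40, 450),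
   (6, 39, 450), (6, 38, 450), (6, 37, 450), (6, 36, 450), (6, 35, 450),
   (6, 35, 450), (6, 34, 450), (6, 33, 450), (6, 32, 450), (6, 32, 450),
   (6, 31, 450), (6, 32, 450), (6, 33, 450), (6, 33, 450), (6, 32, 450),
   (6, 32, 450), (6, 31, 450), (7, 48, 450), (7, 47, 450), (7, 46, 450),
   (7, 45, 450), (7, 44, 450), (7, 43, 450), (7, 42, 450), (7, 41, 450),
   (7, 40, 450), (7, 39, 450), (7, 38, 450), (7, 37, 450), (7, 37, 450),
   (7, 37, 450), (7, 37, 450), (7, 37, 450), (7, 36, 450), (7, 36, 450),
   (8, 66, 450), (8, 64, 450), (8, 63, 450), (8, 61, 450), (8, 60, 450)]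

/-- the bounds of the corner numbers at `200`. -/
noncomputable def uS200 : ℕ := 0x100000000000000010000000000000001000000000000000100000000000000010000000000000001000000000000000100000000000000010000000000000001000000000000000100000000000000010000000000000001000000000000000100000000000000010000000000000001000000000000000100000000000000010000000000000001000000000000000100000000000000010000000000000001000000000000000100000000000000010000000000000001000000000000000100000000000000010000000000000001000000000000000100000000000000010000000000000001000000000000000100000000000000010000000000000001000000000000000100000000000000010000000000000001000000000000000100000000000000010000000000000001000000000000000100000000000000010000000000000001000000000000000100000000000000010000000000000001000000000000000100000000000000010000000000000000e771e23b8f000000b25a8664d8000000738694a3c90000003ddc728cfc0000001ad6a747950000000933cb972d000000026a90b4750000000077597333000000000ffe7fea00000000015f37f9000000000010f2b60000000000005d0f000000000000008000000000000000c8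

theorem run150 : AllRuns UB 150 (srows150.map fun r => (1, r.1, r.2.1)) ∧
    StUS 60 (150 + lenRuns (srows150.map fun r => (1, r.1, r.2.1))) uS200 23952573384 23666318250 19 :=
  allRuns_of_ckUSf _ st150 (by decide +kernel)

theorem ub150 : AllRuns UB 150 (srows150.map fun r => (1, r.1, r.2.1)) := run150.1

theorem st200 : StUS 60 200 uS200 23952573384 23666318250 19 := by
  have h : 150 + lenRuns (srows150.map fun r => (1, r.1, r.2.1)) = 200 := by decide +kernel
  have h2 := run150.2
  rwa [h] at h2

theorem chk150 : chkBlk frT 150 rows150 srows150 = true := by decide +kernel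

theorem good_150 (hf : Facts) (hF : ∀ n K : ℕ, 100 ≤ n → 19 * n ≤ 50 * K → 2 * K + 1 ≤ n →
    (FS n K : ℝ) ≤ 9 / 20) (n : ℕ) (h1 : 150 ≤ n) (h2 : n < 200) :
    ∃ lam : Y n, GoodD lam :=
  good_blk hf (a := 150) (by norm_num) (fun n k f hn h => frT_ok hF n k f (by omega) h)
    rows150 srows150 psi150 ub150 chk150 n h1 (by simpa [rows150] using h2)

end Pool.MP322P
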