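import Pool.Agent.Lib.MP_322c5f_alP.PI200
import Pool.Agent.Lib.MP_322c5f_alP.PZ150

/-! job 322P-Z: the range `200 ≤ n ≤ 299` (level `200`). Rows `(c, B, f)`: `c + 1` corners,
`FS n k0 ≤ f/1000`, `uC n c + sC n ≤ B/1000 n!`. -/

set_option autoImplicit false
set_option maxRecDepth 100000

open Equiv Finset Nat
open scoped NNReal

namespace Pool.MP322P

open Pool.MP322 Pool.MP322F

/-- rows `(c, B, f)`. -/
def srows200 : List (ℕ × ℕ × ℕ) :=
  [(7, 32, 450), (7, 31, 450), (7, 31, 450), (7, 30, 450), (7, 29, 450),
   (7, 29, 450), (7, 28, 450), (7, 28, 450), (7, 27, 450), (7, 27, 450),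
   (7, 27, 450), (7, 28, 450), (7, 28, 450), (7, 28, 450), (7, 27, 450),
   (7, 27, 450), (7, 26, 450), (7, 26, 450), (7, 26, 450), (7, 25, 450),
   (7, 25, 450), (7, 24, 450), (7, 24, 450), (7, 24, 450), (7, 23, 450),
   (8, 35, 450), (8, 35, 450), (8, 34, 450), (8, 33, 450), (8, 33, 450),
   (8, 32, 450), (8, 32, 450), (8, 33, 450), (8, 32, 450), (8, 32, 450),
   (8, 31, 450), (8, 31, 450), (8, 30, 450), (8, 30, 450), (8, 29, 450),
   (8, 29, 450), (8, 28, 450), (8, 28, 450), (8, 27, 450), (8, 27, 450),
   (8, 26, 450), (8, 26, 450), (8, 26, 450), (8, 25, 450), (8, 25, 450),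
   (8, 24, 450), (8, 24, 450), (8, 24, 450), (8, 24, 450), (8, 24, 450),
   (8, 24, 450), (9, 40, 450), (9, 40, 450), (9, 39, 450), (9, 38, 450),
   (9, 37, 450), (9, 37, 450), (9, 36, 450), (9, 35, 450), (9, 35, 450),
   (9, 34, 450), (9, 33, 450), (9, 33, 450), (9, 32, 450), (9, 32, 450),
   (9, 31, 450), (9, 31, 450), (9, 30, 450), (9, 30, 450), (10, 59, 450),
   (10, 58, 450), (10, 57, 450), (10, 57, 450), (10, 56, 450), (10, 55, 450),
   (10, 54, 450), (10, 53, 450), (10, 52, 450), (10, 51, 450), (10, 50, 450),
   (10, 49, 450), (10, 48, 450), (10, 47, 450), (10, 46, 450), (10, 45, 450),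
   (10, 44, 450), (10, 43, 450), (10, 42, 450), (10, 42, 450), (10, 41, 450),
   (10, 40, 450), (10, 39, 450), (10, 39, 450), (10, 38, 450), (10, 37, 450)]

/-- the bounds of the corner numbers at `300`. -/
noncomputable def uS300 : ℕ := 0x100000000000000010000000000000001000000000000000100000000000000010000000000000001000000000000000100000000000000010000000000000001000000000000000100000000000000010000000000000001000000000000000100000000000000010000000000000001000000000000000100000000000000010000000000000001000000000000000100000000000000010000000000000001000000000000000100000000000000010000000000000001000000000000000100000000000000010000000000000001000000000000000100000000000000010000000000000001000000000000000100000000000000010000000000000001000000000000000100000000000000010000000000000001000000000000000100000000000000010000000000000001000000000000000100000000000000010000000000000001000000000000000100000000000000010000000000000000e6ce78b72a000000b6ed923e240000007e512fb6aa0000004b38e4272b000000262ca4b3b70000001047f1732000000005bd456d4c00000001a3953875000000005eaef46d00000000105c306d000000000213b76100000000002ee1a5000000000002a5470000000000001580000000000000004e0000000000000001000000000000012c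

theorem run200 : AllRuns UB 200 (srows200.map fun r => (1, r.1, r.2.1)) ∧
    StUS 60 (200 + lenRuns (srows200.map fun r => (1, r.1, r.2.1))) uS300 15586187844 16139342919 24 :=
  allRuns_of_ckUSf _ st200 (by decide +kernel)

theorem ub200 : AllRuns UB 200 (srows200.map fun r => (1, r.1, r.2.1)) := run200.1

theorem st300 : StUS 60 300 uS300 15586187844 16139342919 24 := by
  have h : 200 + lenRuns (srows200.map fun r => (1, r.1, r.2.1)) = 300 := by decide +kernel
  have h2 := run200.2
  rwa [h] at h2

theorem chk200 : chkBlk frT 200 rows200 srows200 = true := by decide +kernel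

theorem good_200 (hf : Facts) (hF : ∀ n K : ℕ, 100 ≤ n → 19 * n ≤ 50 * K → 2 * K + 1 ≤ n →
    (FS n K : ℝ) ≤ 9 / 20) (n : ℕ) (h1 : 200 ≤ n) (h2 : n < 300) :
    ∃ lam : Y n, GoodD lam :=
  good_blk hf (a := 200) (by norm_num) (fun n k f hn h => frT_ok hF n k f (by omega) h)
    rows200 srows200 psi200 ub200 chk200 n h1 (by simpa [rows200] using h2)

end Pool.MP322P
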