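import Pool.Agent.Lib.MP_322c5f_alF.FKe
import Pool.Agent.Lib.MP_322c5f_alF.FKb24U
import Pool.Agent.Lib.MP_322c5f_alP.PZ06

/-! job 322P-Z: the range `24 ≤ n ≤ 29` (no middle part). Rows `(K, c, B, f)`: `c + 1` corners,
`FS n K ≤ f/1000`, `uC n c + sC n ≤ B/1000 n!`. -/

set_option autoImplicit false
set_option maxRecDepth 100000

open Equiv Finset Nat
open scoped NNReal

namespace Pool.MP322P

open Pool.MP322 Pool.MP322F

/-- test for `FS n k ≤ f/1000`, `24 ≤ n ≤ 29`. -/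
noncomputable def fr24 (n k f : ℕ) : Bool :=
  Nat.ble n 29 && Nat.ble (2 * k + 1) n &&
    Nat.ble (Nat.mul 1000 (NL.gt (LL.gt B24.frAll (n - 24)) k)) (Nat.mul f (Nat.pow 2 40))

theorem fr24_ok (n k f : ℕ) (hn : 24 ≤ n) (h : fr24 n k f = true) :
    (FS n k : ℝ) ≤ (f : ℝ) / 1000 := by
  unfold fr24 at h
  rw [Bool.and_eq_true, Bool.and_eq_true] at h
  exact FS_le24 hn (Nat.le_of_ble_eq_true h.1.1) (Nat.le_of_ble_eq_true h.1.2) h.2

/-- rows `(K, c, B, f)`. -/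
def rows24 : List (ℕ × ℕ × ℕ × ℕ) :=
  [(10, 3, 310, 201), (10, 3, 384, 272), (10, 3, 406, 350), (10, 3, 435, 428),
   (10, 3, 416, 534), (10, 3, 408, 583)]

theorem ub24 : AllRuns UB 24 (rows24.map fun r => (1, r.2.1, r.2.2.1)) :=
  allRuns_of_ckUS _ B24.urow B24.srow0 B24.srow1 B24.hmC (by norm_num) (by decide +kernel)

theorem chk24 : chkBlk' fr24 24 rows24 = true := by decide +kernel

theorem good_24 (hf : Facts) (n : ℕ) (h1 : 24 ≤ n) (h2 : n < 30) : ∃ lam : Y n, GoodD lam :=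
  good_blk' hf (a := 24) (by norm_num) fr24_ok rows24 ub24 chk24 n h1
    (by simpa [rows24] using h2)

end Pool.MP322P
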