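import Pool.Agent.Lib.MP_322c5f_alP.PR300_133
import Pool.Agent.Lib.MP_322c5f_alP.PR500_133
import Pool.Agent.Lib.MP_322c5f_alP.PR500_142
import Pool.Agent.Lib.MP_322c5f_alP.PR800_133
import Pool.Agent.Lib.MP_322c5f_alP.PR800_142
import Pool.Agent.Lib.MP_322c5f_alP.PR1000_138
import Pool.Agent.Lib.MP_322c5f_alP.PR1000_142
import Pool.Agent.Lib.MP_322c5f_alP.PR1200_142
import Pool.Agent.Lib.MP_322c5f_alP.PR1200_146
import Pool.Agent.Lib.MP_322c5f_alP.PR1500_142
import Pool.Agent.Lib.MP_322c5f_alP.PR1500_146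
import Pool.Agent.Lib.MP_322c5f_alP.PR2000_144
import Pool.Agent.Lib.MP_322c5f_alP.PR2000_147
import Pool.Agent.Lib.MP_322c5f_alP.PR3000_1485
import Pool.Agent.Lib.MP_322c5f_alP.PR5000_1499
import Pool.Agent.Lib.MP_322c5f_alP.PU09
import Pool.Agent.Lib.MP_322c5f_alP.PZ07
import Pool.Agent.Lib.MP_322c5f_alF.FE07

/-! job 322P-Z: the statements for the classes with at most `300` moved points (`psi3_*`) as a list, the tail
(more than `300` moved points), and the range `n ≥ 3000`. -/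

set_option autoImplicit false
set_option maxRecDepth 100000

open Equiv Finset Nat
open scoped NNReal

namespace Pool.MP322P

open Pool.MP322 Pool.MP322F

/-- list of `(n1, N, p, q, x)`. -/
def psiL3 : List (ℕ × ℕ × ℕ × ℕ × ℕ) :=
  [(300, 500, 133, 1000, 717), (500, 800, 133, 1000, 1224), (500, 800, 142, 1000, 564),
   (800, 1000, 133, 1000, 1923), (800, 1000, 142, 1000, 612), (1000, 1200, 138, 1000, 1337),
   (1000, 1200, 142, 1000, 766), (1200, 1500, 142, 1000, 972), (1200, 1500, 146, 1000, 621),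
   (1500, 2000, 142, 1000, 1387), (1500, 2000, 146, 1000, 784), (2000, 3000, 144, 1000, 1478),
   (2000, 3000, 147, 1000, 930)]

theorem psiL3_ok : ∀ t ∈ psiL3, PS3 t := by
  intro t ht
  simp only [psiL3, List.mem_cons, List.not_mem_nil, or_false] at ht
  rcases ht with rfl | rfl | rfl | rfl | rfl | rfl | rfl | rfl | rfl | rfl | rfl | rfl | rfl
  · exact psi3_300_133
  · exact psi3_500_133
  · exact psi3_500_142
  · exact psi3_800_133
  · exact psi3_800_142
  · exact psi3_1000_138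
  · exact psi3_1000_142
  · exact psi3_1200_142
  · exact psi3_1200_146
  · exact psi3_1500_142
  · exact psi3_1500_146
  · exact psi3_2000_144
  · exact psi3_2000_147

/-- the condition for the tail. -/
def tOK3 (n K : ℕ) : Bool :=
  Nat.ble (133 * n) (1000 * K) && (Nat.ble n 1000 || Nat.ble (138 * n) (1000 * K)) &&
    (Nat.ble n 1200 || Nat.ble (142 * n) (1000 * K))

private theorem tOK3_iff (n K : ℕ) : tOK3 n K = true ↔ 133 * n ≤ 1000 * K ∧
    (n ≤ 1000 ∨ 138 * n ≤ 1000 * K) ∧ (n ≤ 1200 ∨ 142 * n ≤ 1000 * K) := by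
  unfold tOK3
  rw [Bool.and_eq_true, Bool.and_eq_true, Bool.or_eq_true, Bool.or_eq_true, Nat.ble_eq, Nat.ble_eq,
    Nat.ble_eq, Nat.ble_eq, Nat.ble_eq, and_assoc]

theorem TL3 : TL tOK3 200 := by
  refine ⟨?_, ?_⟩
  · intro n n' K hn h
    rw [tOK3_iff] at h ⊢
    omega
  · intro n K k0 hn h hk0
    rw [tOK3_iff] at h
    have e : (((200 : ℕ) : ℝ) / 10000) = 1 / 50 := by norm_num
    rw [e]
    rcases Nat.lt_or_ge 1200 n with h1 | h1
    · exact tail300_large h1.le (by omega) hk0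
    · exact tail300_mid' hn h1 h.1 (by omega) hk0

theorem tOK3_3000 (n K : ℕ) (h : 3000 ≤ n) (hK : 1485 * n ≤ 10000 * K) : tOK3 n K = true := by
  rw [tOK3_iff]
  omega

theorem good_3000' (hf : Facts)
    (hF : ∀ n K : ℕ, 300 ≤ n → 19 * n ≤ 50 * K → 2 * K + 1 ≤ n →
      (FS n K : ℝ) ≤ ((450 : ℕ) : ℝ) / 1000)
    (n : ℕ) (h1 : 3000 ≤ n) : ∃ lam : Y n, GoodD lam :=
  good_3000 hf (f := 450) (xt := 200) (x1 := 994) (x2 := 1223) (by norm_num) (by norm_num)
    psi3_3000_1485 psi3_5000_1499 TL3 tOK3_3000 hF uC_large4 n h1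

end Pool.MP322P
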