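import Pool.Agent.Lib.MP_322c5f_alP.PZ07
import Pool.Agent.Lib.MP_322c5f_alP.PZ08
import Pool.Agent.Lib.MP_322c5f_alP.PZ300
import Pool.Agent.Lib.MP_322c5f_alP.PZ200

/-! job 322P-Z: the range `300 ≤ n < 700`: runs `((m, c, B), K, t)` for `chk300`. -/

set_option autoImplicit false
set_option maxRecDepth 100000

open Equiv Finset Nat
open scoped NNReal

namespace Pool.MP322P

open Pool.MP322 Pool.MP322F

/-- the runs. -/
def runs300 : List ((ℕ × ℕ × ℕ) × ℕ × (ℕ × ℕ × ℕ × ℕ × ℕ)) :=
  [((99, 13, 309), 53, (300, 500, 133, 1000, 717)), ((102, 16, 426), 69, (300, 500, 133, 1000, 717)),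
   ((109, 18, 398), 81, (500, 800, 133, 1000, 1224)), ((90, 20, 384), 93, (500, 800, 133, 1000, 1224))]

/-- the bounds of the corner numbers at `700`. -/
noncomputable def uS700 : ℕ := 0x100000000000000010000000000000001000000000000000100000000000000010000000000000001000000000000000100000000000000010000000000000001000000000000000100000000000000010000000000000001000000000000000100000000000000010000000000000001000000000000000100000000000000010000000000000001000000000000000100000000000000010000000000000001000000000000000100000000000000010000000000000001000000000000000100000000000000010000000000000001000000000000000100000000000000010000000000000001000000000000000100000000000000010000000000000001000000000000000100000000000000010000000000000000ed0cd1092c000000ca4df5bcf50000009e926b454800000071b9bb97e20000004a51cc3abe0000002c0de85eaf0000001791a51f350000000b5140660200000004d8f8d51300000001d6dd2c71000000009d08006c000000002d9ef477000000000b6dab7300000000027080a900000000007003e40000000000109aef000000000001fe71000000000000306e000000000000038500000000000000310000000000000002000000000000000100000000000000010000000000000001000000000000000100000000000002bc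

theorem run300 : AllRuns UB 300 (runs300.map fun r => r.1) ∧
    StUS 60 (300 + lenRuns (runs300.map fun r => r.1)) uS700 6423799362 6403584868 36 :=
  allRuns_of_ckUSf _ st300 (by decide +kernel)

theorem len300 : 300 + lenRuns (runs300.map fun r => r.1) = 700 := by decide +kernel

theorem st700 : StUS 60 700 uS700 6423799362 6403584868 36 := by
  have h2 := run300.2
  rwa [len300] at h2

theorem cr300 : chk300 psiL3 tOK3 450 200 300 runs300 = true := by decide +kernel

theorem good_300_0 (hf : Facts)
    (hF : ∀ n K : ℕ, 300 ≤ n → 19 * n ≤ 50 * K → 2 * K + 1 ≤ n →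
      (FS n K : ℝ) ≤ ((450 : ℕ) : ℝ) / 1000)
    (n : ℕ) (h1 : 300 ≤ n) (h2 : n < 700) : ∃ lam : Y n, GoodD lam :=
  Pool.MP322P.good_300 hf psiL3_ok TL3 hF (a := 300) (by norm_num) runs300 run300.1 cr300 n h1
    (by rw [len300]; exact h2)

end Pool.MP322P
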