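import Pool.Agent.Lib.MP_322c5f_alP.PZ07
import Pool.Agent.Lib.MP_322c5f_alP.PZ08
import Pool.Agent.Lib.MP_322c5f_alP.PZ300
import Pool.Agent.Lib.MP_322c5f_alP.PZ300a

/-! job 322P-Z: the range `700 ≤ n < 1100`: runs `((m, c, B), K, t)` for `chk300`. -/

set_option autoImplicit false
set_option maxRecDepth 100000

open Equiv Finset Nat
open scoped NNReal

namespace Pool.MP322P

open Pool.MP322 Pool.MP322F

/-- the runs. -/
def runs700 : List ((ℕ × ℕ × ℕ) × ℕ × (ℕ × ℕ × ℕ × ℕ × ℕ)) :=
  [((97, 21, 297), 106, (500, 800, 133, 1000, 1224)), ((4, 22, 224), 107, (500, 800, 133, 1000, 1224)),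
   ((59, 23, 344), 122, (800, 1000, 142, 1000, 612)), ((58, 23, 227), 122, (800, 1000, 133, 1000, 1923)),
   ((54, 25, 371), 138, (800, 1000, 142, 1000, 612)), ((29, 25, 267), 138, (800, 1000, 133, 1000, 1923)),
   ((57, 26, 342), 146, (1000, 1200, 138, 1000, 1337)), ((42, 27, 368), 157, (1000, 1200, 142, 1000, 766))]

/-- the bounds of the corner numbers at `1100`. -/
noncomputable def uS1100 : ℕ := 0x10000000000000001000000000000000100000000000000010000000000000001000000000000000100000000000000010000000000000001000000000000000100000000000000010000000000000001000000000000000100000000000000010000000000000001000000000000000100000000000000010000000000000001000000000000000100000000000000010000000000000001000000000000000100000000000000010000000000000001000000000000000100000000000000010000000000000001000000000000000100000000000000010000000000000000f575c7962f000000dce15cb534000000ba267ab6520000009299b21b220000006ba18603df000000497a87f6c40000002e846b567d0000001b3a47308a0000000eb0160caa0000000746e43167000000034c73f3ea000000015cca61dd0000000082ac13d1000000002c2edf36000000000d6886c00000000003a1294e0000000000decd0200000000002ef4bb0000000000089ee90000000000015d5d0000000000002f2000000000000005580000000000000081000000000000000a00000000000000010000000000000001000000000000000100000000000000010000000000000001000000000000000100000000000000010000000000000001000000000000044c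

theorem run700 : AllRuns UB 700 (runs700.map fun r => r.1) ∧
    StUS 60 (700 + lenRuns (runs700.map fun r => r.1)) uS1100 4179576248 4171331758 46 :=
  allRuns_of_ckUSf _ st700 (by decide +kernel)

theorem len700 : 700 + lenRuns (runs700.map fun r => r.1) = 1100 := by decide +kernel

theorem st1100 : StUS 60 1100 uS1100 4179576248 4171331758 46 := by
  have h2 := run700.2
  rwa [len700] at h2

theorem cr700 : chk300 psiL3 tOK3 450 200 700 runs700 = true := by decide +kernel

theorem good_700 (hf : Facts)
    (hF : ∀ n K : ℕ, 300 ≤ n → 19 * n ≤ 50 * K → 2 * K + 1 ≤ n →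
      (FS n K : ℝ) ≤ ((450 : ℕ) : ℝ) / 1000)
    (n : ℕ) (h1 : 700 ≤ n) (h2 : n < 1100) : ∃ lam : Y n, GoodD lam :=
  Pool.MP322P.good_300 hf psiL3_ok TL3 hF (a := 700) (by norm_num) runs700 run700.1 cr700 n h1
    (by rw [len700]; exact h2)

end Pool.MP322P
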