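import Pool.Agent.Lib.MP_322c5f_alP.PZ07
import Pool.Agent.Lib.MP_322c5f_alP.PZ08
import Pool.Agent.Lib.MP_322c5f_alP.PZ300
import Pool.Agent.Lib.MP_322c5f_alP.PZ300b

/-! job 322P-Z: the range `1100 ≤ n < 1500`: runs `((m, c, B), K, t)` for `chk300`. -/

set_option autoImplicit false
set_option maxRecDepth 100000

open Equiv Finset Nat
open scoped NNReal

namespace Pool.MP322P

open Pool.MP322 Pool.MP322F

/-- the runs. -/
def runs1100 : List ((ℕ × ℕ × ℕ) × ℕ × (ℕ × ℕ × ℕ × ℕ × ℕ)) :=
  [((91, 28, 425), 169, (1000, 1200, 142, 1000, 766)), ((10, 28, 268), 169, (1000, 1200, 138, 1000, 1337)),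
   ((74, 29, 375), 181, (1200, 1500, 142, 1000, 972)), ((85, 30, 380), 193, (1200, 1500, 142, 1000, 972)),
   ((84, 31, 369), 205, (1200, 1500, 142, 1000, 972)), ((56, 32, 365), 218, (1200, 1500, 142, 1000, 972))]

/-- the bounds of the corner numbers at `1500`. -/
noncomputable def uS1500 : ℕ := 0x10000000000000001000000000000000100000000000000010000000000000001000000000000000100000000000000010000000000000001000000000000000100000000000000010000000000000001000000000000000100000000000000010000000000000001000000000000000100000000000000010000000000000001000000000000000100000000000000010000000000000001000000000000000100000000000000010000000000000000fcda476237000000ecc6d18824000000d1e7381c19000000afe37611570000008b161d2ac2000000679c93dbd3000000489439d59f0000002fb6b695e50000001d6065e07300000010e6b5c9f100000009109a0170000000048556a44100000002173c379e00000000e4dbd4e1000000005a2f89600000000020a3c08c000000000aceda2c000000000342c6580000000000e466d20000000000385f7b00000000000c7cde00000000000277ad0000000000006e9100000000000011030000000000000248000000000000004400000000000000070000000000000001000000000000000100000000000000010000000000000001000000000000000100000000000000010000000000000001000000000000000100000000000000010000000000000001000000000000000100000000000005dc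

theorem run1100 : AllRuns UB 1100 (runs1100.map fun r => r.1) ∧
    StUS 60 (1100 + lenRuns (runs1100.map fun r => r.1)) uS1500 3062969543 3058586088 54 :=
  allRuns_of_ckUSf _ st1100 (by decide +kernel)

theorem len1100 : 1100 + lenRuns (runs1100.map fun r => r.1) = 1500 := by decide +kernel

theorem st1500 : StUS 60 1500 uS1500 3062969543 3058586088 54 := by
  have h2 := run1100.2
  rwa [len1100] at h2

theorem cr1100 : chk300 psiL3 tOK3 450 200 1100 runs1100 = true := by decide +kernel

theorem good_1100 (hf : Facts)
    (hF : ∀ n K : ℕ, 300 ≤ n → 19 * n ≤ 50 * K → 2 * K + 1 ≤ n →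
      (FS n K : ℝ) ≤ ((450 : ℕ) : ℝ) / 1000)
    (n : ℕ) (h1 : 1100 ≤ n) (h2 : n < 1500) : ∃ lam : Y n, GoodD lam :=
  Pool.MP322P.good_300 hf psiL3_ok TL3 hF (a := 1100) (by norm_num) runs1100 run1100.1 cr1100 n h1
    (by rw [len1100]; exact h2)

end Pool.MP322P
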