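import Pool.Agent.Lib.MP_322c5f_alP.PZ07
import Pool.Agent.Lib.MP_322c5f_alP.PZ08
import Pool.Agent.Lib.MP_322c5f_alP.PZ300
import Pool.Agent.Lib.MP_322c5f_alP.PZ300c

/-! job 322P-Z: the range `1500 ≤ n < 1850`: runs `((m, c, B), K, t)` for `chk300`. -/

set_option autoImplicit false
set_option maxRecDepth 100000

open Equiv Finset Nat
open scoped NNReal

namespace Pool.MP322P

open Pool.MP322 Pool.MP322F

/-- the runs. -/
def runs1500 : List ((ℕ × ℕ × ℕ) × ℕ × (ℕ × ℕ × ℕ × ℕ × ℕ)) :=
  [((90, 33, 408), 232, (1500, 2000, 146, 1000, 784)), ((95, 34, 400), 246, (1500, 2000, 146, 1000, 784)),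
   ((146, 35, 389), 260, (1500, 2000, 142, 1000, 1387)), ((19, 36, 318), 274, (1500, 2000, 146, 1000, 784))]

/-- the bounds of the corner numbers at `1850`. -/
noncomputable def uS1850 : ℕ := 0x1000000000000000100000000000000010000000000000001000000000000000100000000000000010000000000000001000000000000000100000000000000010000000000000001000000000000000100000000000000010000000000000001000000000000000100000000000000010000000000000001000000000000000100000000000000010000000000000000f9c5eb5c68000000e83bef4f1f000000cd865051fd000000ace89202fd0000008a1b10a181000000689474c3130000004af87b76a700000032ccfc0f90000000207c01b1bb00000013917fab750000000b1597c11500000005e475752f00000002ef0005e4000000015d627c770000000097870e3f000000003d1b84a50000000016da0e030000000007e6a80b00000000028482b20000000000bc9d38000000000032809700000000000c522a000000000002b9fb0000000000008b6600000000000018fd00000000000003ff0000000000000091000000000000001300000000000000030000000000000001000000000000000100000000000000010000000000000001000000000000000100000000000000010000000000000001000000000000000100000000000000010000000000000001000000000000000100000000000000010000000000000001000000000000073a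

theorem run1500 : AllRuns UB 1500 (runs1500.map fun r => r.1) ∧
    StUS 60 (1500 + lenRuns (runs1500.map fun r => r.1)) uS1850 2467917051 2465073473 60 :=
  allRuns_of_ckUSf _ st1500 (by decide +kernel)

theorem len1500 : 1500 + lenRuns (runs1500.map fun r => r.1) = 1850 := by decide +kernel

theorem st1850 : StUS 60 1850 uS1850 2467917051 2465073473 60 := by
  have h2 := run1500.2
  rwa [len1500] at h2

theorem cr1500 : chk300 psiL3 tOK3 450 200 1500 runs1500 = true := by decide +kernel

theorem good_1500 (hf : Facts)
    (hF : ∀ n K : ℕ, 300 ≤ n → 19 * n ≤ 50 * K → 2 * K + 1 ≤ n →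
      (FS n K : ℝ) ≤ ((450 : ℕ) : ℝ) / 1000)
    (n : ℕ) (h1 : 1500 ≤ n) (h2 : n < 1850) : ∃ lam : Y n, GoodD lam :=
  Pool.MP322P.good_300 hf psiL3_ok TL3 hF (a := 1500) (by norm_num) runs1500 run1500.1 cr1500 n h1
    (by rw [len1500]; exact h2)

end Pool.MP322P
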