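import Pool.Agent.Lib.MP_322c5f_alP.PZ07
import Pool.Agent.Lib.MP_322c5f_alP.PZ08
import Pool.Agent.Lib.MP_322c5f_alP.PZ300
import Pool.Agent.Lib.MP_322c5f_alP.PZ300d

/-! job 322P-Z: the range `1850 ≤ n < 2200`: runs `((m, c, B), K, t)` for `chk300`. -/

set_option autoImplicit false
set_option maxRecDepth 100000

open Equiv Finset Nat
open scoped NNReal

namespace Pool.MP322P

open Pool.MP322 Pool.MP322F

/-- the runs. -/
def runs1850 : List ((ℕ × ℕ × ℕ) × ℕ × (ℕ × ℕ × ℕ × ℕ × ℕ)) :=
  [((130, 37, 411), 289, (1500, 2000, 146, 1000, 784)), ((21, 37, 260), 289, (1500, 2000, 142, 1000, 1387)),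
   ((118, 38, 342), 305, (2000, 3000, 144, 1000, 1478)), ((81, 39, 319), 321, (2000, 3000, 144, 1000, 1478))]

/-- the bounds of the corner numbers at `2200`. -/
noncomputable def uS2200 : ℕ := 0x100000000000000010000000000000001000000000000000100000000000000010000000000000001000000000000000100000000000000010000000000000001000000000000000100000000000000010000000000000001000000000000000100000000000000010000000000000000fb7c7a9933000000ec6e02eed7000000d481efbaba000000b66c93e5230000009566db89d40000007499db3e2f000000569e0963a50000003d2adc76c10000002902416be30000001a10e35c320000000faf46dd4500000008ebc3fd4400000004c9c7a9e0000000026bcb00b80000000126aefd4600000000837d58560000000036f298b4000000001574ea120000000007cf95230000000002a4d8960000000000d473df00000000003da7be0000000000107d760000000000040cef000000000000e90b0000000000002fb900000000000008de000000000000017d000000000000003a000000000000000800000000000000010000000000000001000000000000000100000000000000010000000000000001000000000000000100000000000000010000000000000001000000000000000100000000000000010000000000000001000000000000000100000000000000010000000000000001000000000000000100000000000000010000000000000898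

theorem run1850 : AllRuns UB 1850 (runs1850.map fun r => r.1) ∧
    StUS 60 (1850 + lenRuns (runs1850.map fun r => r.1)) uS2200 2034403522 2032445226 65 :=
  allRuns_of_ckUSf _ st1850 (by decide +kernel)

theorem len1850 : 1850 + lenRuns (runs1850.map fun r => r.1) = 2200 := by decide +kernel

theorem st2200 : StUS 60 2200 uS2200 2034403522 2032445226 65 := by
  have h2 := run1850.2
  rwa [len1850] at h2

theorem cr1850 : chk300 psiL3 tOK3 450 200 1850 runs1850 = true := by decide +kernel

theorem good_1850 (hf : Facts)
    (hF : ∀ n K : ℕ, 300 ≤ n → 19 * n ≤ 50 * K → 2 * K + 1 ≤ n →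
      (FS n K : ℝ) ≤ ((450 : ℕ) : ℝ) / 1000)
    (n : ℕ) (h1 : 1850 ≤ n) (h2 : n < 2200) : ∃ lam : Y n, GoodD lam :=
  Pool.MP322P.good_300 hf psiL3_ok TL3 hF (a := 1850) (by norm_num) runs1850 run1850.1 cr1850 n h1
    (by rw [len1850]; exact h2)

end Pool.MP322P
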