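import Pool.Agent.Lib.MP_322c5f_alP.PZ07
import Pool.Agent.Lib.MP_322c5f_alP.PZ08
import Pool.Agent.Lib.MP_322c5f_alP.PZ300
import Pool.Agent.Lib.MP_322c5f_alP.PZ300e

/-! job 322P-Z: the range `2200 ≤ n < 2500`: runs `((m, c, B), K, t)` for `chk300`. -/

set_option autoImplicit false
set_option maxRecDepth 100000

open Equiv Finset Nat
open scoped NNReal

namespace Pool.MP322P

open Pool.MP322 Pool.MP322F

/-- the runs. -/
def runs2200 : List ((ℕ × ℕ × ℕ) × ℕ × (ℕ × ℕ × ℕ × ℕ × ℕ)) :=
  [((141, 40, 341), 337, (2000, 3000, 144, 1000, 1478)), ((159, 42, 412), 370, (2000, 3000, 147, 1000, 930))]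

/-- the bounds of the corner numbers at `2500`. -/
noncomputable def uS2500 : ℕ := 0x100000000000000010000000000000001000000000000000100000000000000010000000000000001000000000000000100000000000000010000000000000001000000000000000100000000000000010000000000000000fac799a4a5000000ebbe2bbbc1000000d478c9f9d8000000b76fedca81000000978f80a94900000077b8711e370000005a51fef2a700000041020e1ca10000002c9699a1f10000001d1bf1d6fa0000001210c6669f0000000aa4e93dd600000005f2226b040000000324edf62c000000019257c8e600000000bdc8a4f8000000005455153500000000233cc5f9000000000dd15bb500000000051314470000000001bdced800000000008e9ede00000000002a6d0100000000000bb3fb000000000002fc17000000000000b39900000000000026c500000000000007a90000000000000161000000000000003a000000000000000900000000000000020000000000000001000000000000000100000000000000010000000000000001000000000000000100000000000000010000000000000001000000000000000100000000000000010000000000000001000000000000000100000000000000010000000000000001000000000000000100000000000000010000000000000001000000000000000100000000000009c4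

theorem run2200 : AllRuns UB 2200 (runs2200.map fun r => r.1) ∧
    StUS 60 (2200 + lenRuns (runs2200.map fun r => r.1)) uS2500 1823579144 1822037272 70 :=
  allRuns_of_ckUSf _ st2200 (by decide +kernel)

theorem len2200 : 2200 + lenRuns (runs2200.map fun r => r.1) = 2500 := by decide +kernel

theorem st2500 : StUS 60 2500 uS2500 1823579144 1822037272 70 := by
  have h2 := run2200.2
  rwa [len2200] at h2

theorem cr2200 : chk300 psiL3 tOK3 450 200 2200 runs2200 = true := by decide +kernel

theorem good_2200 (hf : Facts)
    (hF : ∀ n K : ℕ, 300 ≤ n → 19 * n ≤ 50 * K → 2 * K + 1 ≤ n →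
      (FS n K : ℝ) ≤ ((450 : ℕ) : ℝ) / 1000)
    (n : ℕ) (h1 : 2200 ≤ n) (h2 : n < 2500) : ∃ lam : Y n, GoodD lam :=
  Pool.MP322P.good_300 hf psiL3_ok TL3 hF (a := 2200) (by norm_num) runs2200 run2200.1 cr2200 n h1
    (by rw [len2200]; exact h2)

end Pool.MP322P
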