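import Pool.Agent.Lib.MP_322c5f_alP.PZ07
import Pool.Agent.Lib.MP_322c5f_alP.PZ08
import Pool.Agent.Lib.MP_322c5f_alP.PZ300
import Pool.Agent.Lib.MP_322c5f_alP.PZ300f

/-! job 322P-Z: the range `2500 ≤ n < 2750`: runs `((m, c, B), K, t)` for `chk300`. -/

set_option autoImplicit false
set_option maxRecDepth 100000

open Equiv Finset Nat
open scoped NNReal

namespace Pool.MP322P

open Pool.MP322 Pool.MP322F

/-- the runs. -/
def runs2500 : List ((ℕ × ℕ × ℕ) × ℕ × (ℕ × ℕ × ℕ × ℕ × ℕ)) :=
  [((195, 43, 355), 388, (2000, 3000, 144, 1000, 1478)), ((55, 44, 278), 406, (2000, 3000, 147, 1000, 930))]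

/-- the bounds of the corner numbers at `2750`. -/
noncomputable def uS2750 : ℕ := 0x1000000000000000100000000000000010000000000000001000000000000000100000000000000010000000000000001000000000000000100000000000000010000000000000000f6b4d8d066000000e4850a513b000000cb4af06208000000ad8ba338d40000008e0b14c8980000006f5d949d2a000000538f188a490000003bf0b15a8d0000002910c72b370000001ad755285200000010b7ec81a900000009e961ad3e0000000596094f8c00000002fd2754d2000000018423e7d200000000ba64ebb200000000549b8bdf00000000243de8a0000000000e9fe35c00000000058c97c80000000001f9df8d0000000000a8b528000000000034935100000000000f4626000000000004204700000000000108990000000000003d480000000000000d15000000000000029100000000000000760000000000000014000000000000000300000000000000010000000000000001000000000000000100000000000000010000000000000001000000000000000100000000000000010000000000000001000000000000000100000000000000010000000000000001000000000000000100000000000000010000000000000001000000000000000100000000000000010000000000000001000000000000000100000000000000010000000000000abe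

theorem run2500 : AllRuns UB 2500 (runs2500.map fun r => r.1) ∧
    StUS 60 (2500 + lenRuns (runs2500.map fun r => r.1)) uS2750 1633145941 1631895040 73 :=
  allRuns_of_ckUSf _ st2500 (by decide +kernel)

theorem len2500 : 2500 + lenRuns (runs2500.map fun r => r.1) = 2750 := by decide +kernel

theorem st2750 : StUS 60 2750 uS2750 1633145941 1631895040 73 := by
  have h2 := run2500.2
  rwa [len2500] at h2

theorem cr2500 : chk300 psiL3 tOK3 450 200 2500 runs2500 = true := by decide +kernel

theorem good_2500 (hf : Facts)
    (hF : ∀ n K : ℕ, 300 ≤ n → 19 * n ≤ 50 * K → 2 * K + 1 ≤ n →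
      (FS n K : ℝ) ≤ ((450 : ℕ) : ℝ) / 1000)
    (n : ℕ) (h1 : 2500 ≤ n) (h2 : n < 2750) : ∃ lam : Y n, GoodD lam :=
  Pool.MP322P.good_300 hf psiL3_ok TL3 hF (a := 2500) (by norm_num) runs2500 run2500.1 cr2500 n h1
    (by rw [len2500]; exact h2)

end Pool.MP322P
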