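import Pool.Agent.Lib.MP_322c5f_alP.PZ07
import Pool.Agent.Lib.MP_322c5f_alP.PZ08
import Pool.Agent.Lib.MP_322c5f_alP.PZ300
import Pool.Agent.Lib.MP_322c5f_alP.PZ300g

/-! job 322P-Z: the range `2750 ≤ n < 3000`: runs `((m, c, B), K, t)` for `chk300`. -/

set_option autoImplicit false
set_option maxRecDepth 100000

open Equiv Finset Nat
open scoped NNReal

namespace Pool.MP322P

open Pool.MP322 Pool.MP322F

/-- the runs. -/
def runs2750 : List ((ℕ × ℕ × ℕ) × ℕ × (ℕ × ℕ × ℕ × ℕ × ℕ)) :=
  [((195, 45, 328), 424, (2000, 3000, 144, 1000, 1478)), ((55, 46, 263), 442, (2000, 3000, 147, 1000, 930))]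

/-- the bounds of the corner numbers at `3000`. -/
noncomputable def uS3000 : ℕ := 0x1000000000000000100000000000000010000000000000001000000000000000100000000000000010000000000000000fd6507f2b0000000f19d24513f000000ddc53d2af9000000c3cddb0c86000000a62a7df32d000000876e4054d700000069ebefce3d0000004f6d4c6613000000390d6530a30000002737ec832d00000019c64509b7000000102d8e0e9700000009b00cfe0700000005873c73570000000300b0c6ce000000018ce7652f00000000c28ffdef000000005a6bdc750000000027c82e2100000000108b33ba00000000067e0e58000000000266740e0000000000d59a2e000000000045afb60000000000154aae00000000000614360000000000019e330000000000006683000000000000178700000000000004ff00000000000000fa000000000000002d00000000000000080000000000000002000000000000000100000000000000010000000000000001000000000000000100000000000000010000000000000001000000000000000100000000000000010000000000000001000000000000000100000000000000010000000000000001000000000000000100000000000000010000000000000001000000000000000100000000000000010000000000000001000000000000000100000000000000010000000000000bb8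

theorem run2750 : AllRuns UB 2750 (runs2750.map fun r => r.1) ∧
    StUS 60 (2750 + lenRuns (runs2750.map fun r => r.1)) uS3000 1483273735 1482235134 76 :=
  allRuns_of_ckUSf _ st2750 (by decide +kernel)

theorem len2750 : 2750 + lenRuns (runs2750.map fun r => r.1) = 3000 := by decide +kernel

theorem st3000 : StUS 60 3000 uS3000 1483273735 1482235134 76 := by
  have h2 := run2750.2
  rwa [len2750] at h2

theorem cr2750 : chk300 psiL3 tOK3 450 200 2750 runs2750 = true := by decide +kernel

theorem good_2750 (hf : Facts)
    (hF : ∀ n K : ℕ, 300 ≤ n → 19 * n ≤ 50 * K → 2 * K + 1 ≤ n →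
      (FS n K : ℝ) ≤ ((450 : ℕ) : ℝ) / 1000)
    (n : ℕ) (h1 : 2750 ≤ n) (h2 : n < 3000) : ∃ lam : Y n, GoodD lam :=
  Pool.MP322P.good_300 hf psiL3_ok TL3 hF (a := 2750) (by norm_num) runs2750 run2750.1 cr2750 n h1
    (by rw [len2750]; exact h2)

end Pool.MP322P
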