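import Pool.Agent.Lib.MP_322c5f_alP.PZ300h

/-! job 322P-Z: all `n ≥ 300`. -/

set_option autoImplicit false
set_option maxRecDepth 100000

open Equiv Finset Nat
open scoped NNReal

namespace Pool.MP322P

open Pool.MP322 Pool.MP322F

theorem good_all_300 (hf : Facts) (hF : ∀ n K : ℕ, 100 ≤ n → 19 * n ≤ 50 * K → 2 * K + 1 ≤ n →
    (FS n K : ℝ) ≤ 9 / 20) (n : ℕ) (h : 300 ≤ n) : ∃ lam : Y n, GoodD lam := by
  have hF' : ∀ n K : ℕ, 300 ≤ n → 19 * n ≤ 50 * K → 2 * K + 1 ≤ n →
      (FS n K : ℝ) ≤ ((450 : ℕ) : ℝ) / 1000 := by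
    intro n K h1 h2 h3
    refine (hF n K (by omega) h2 h3).trans (by norm_num)
  rcases Nat.lt_or_ge n 700 with h700 | h700
  · exact good_300_0 hf hF' n (by omega) h700
  rcases Nat.lt_or_ge n 1100 with h1100 | h1100
  · exact good_700 hf hF' n (by omega) h1100
  rcases Nat.lt_or_ge n 1500 with h1500 | h1500
  · exact good_1100 hf hF' n (by omega) h1500
  rcases Nat.lt_or_ge n 1850 with h1850 | h1850
  · exact good_1500 hf hF' n (by omega) h1850
  rcases Nat.lt_or_ge n 2200 with h2200 | h2200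
  · exact good_1850 hf hF' n (by omega) h2200
  rcases Nat.lt_or_ge n 2500 with h2500 | h2500
  · exact good_2200 hf hF' n (by omega) h2500
  rcases Nat.lt_or_ge n 2750 with h2750 | h2750
  · exact good_2500 hf hF' n (by omega) h2750
  rcases Nat.lt_or_ge n 3000 with h3000 | h3000
  · exact good_2750 hf hF' n (by omega) h3000
  exact good_3000' hf hF' n h3000

end Pool.MP322P
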